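import Pool.Agent.Lib.MP_71aad1_an.Gadget

set_option autoImplicit false

/-! The family of conjugate primitive matrices. -/

namespace Pool.Agent.Lib.MP_71aad1_an

open Finset Matrix

/-- Primitive matrices. -/
def Prim {I : Type} [Fintype I] [DecidableEq I] (M : Matrix I I ℤ) : Prop :=
  NN M ∧ ∃ t, ∀ x y, 0 < (M ^ (t + 1)) x y

/-- No cycles of length less than `L`. -/
def Girth {I : Type} [Fintype I] [DecidableEq I] (L : ℕ) (M : Matrix I I ℤ) : Prop :=
  ∀ r, 0 < r → r < L → trace (M ^ r) = 0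

variable {L s : ℕ}

/-- Cyclic chains of blocks. -/
def Bl (P T : Fin L → Mz s s) : Matrix (Fin L) (Fin L) (Mz s s) :=
  fun i k => (if i = k then P i else 0) + if nxt i 1 = k then T i else 0

lemma Bl_apply (P T : Fin L → Mz s s) (x y : Fin L × Fin s) :
    compRingEquiv (Fin L) (Fin s) ℤ (Bl P T) x y =
      (if x.1 = y.1 then P x.1 x.2 y.2 else 0) + if nxt x.1 1 = y.1 then T x.1 x.2 y.2 else 0 := by
  change (Bl P T x.1 y.1) x.2 y.2 = _
  simp only [Bl, Matrix.add_apply]
  split_ifs <;> rfl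

lemma nxt_nxt (i : Fin L) (a b : ℕ) : nxt (nxt i a) b = nxt i (a + b) := by
  simp [nxt, add_assoc]

lemma Bl_prim (hL : 0 < L) {P T : Fin L → Mz s s} (hP : ∀ i, NN (P i))
    (hP' : ∀ i a, 0 < P i a (nxt a 1)) (hT : ∀ i a b, 0 < T i a b) :
    Prim (compRingEquiv (Fin L) (Fin s) ℤ (Bl P T)) := by
  have h0 := Bl_apply P T
  generalize compRingEquiv (Fin L) (Fin s) ℤ (Bl P T) = M at h0
  have h1 : NN M := fun x y => by
    have := hP x.1 x.2 y.2
    have := hT x.1 x.2 y.2
    rw [h0]
    split_ifs <;> omega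
  have h2 : ∀ x y, nxt x.1 1 = y.1 → 0 < M x y := fun x y h => by
    have := hP x.1 x.2 y.2
    have := hT x.1 x.2 y.2
    rw [h0, if_pos h]
    split_ifs <;> omega
  have h3 : ∀ x, 0 < M x (x.1, nxt x.2 1) := fun x => by
    have := hP' x.1 x.2
    have := hT x.1 x.2 (nxt x.2 1)
    rw [h0, if_pos rfl]
    split_ifs <;> simp only <;> omega
  have h4 : ∀ t d x y, d ≤ t → nxt x.1 (d + 1) = y.1 → 0 < (M ^ (t + 1)) x y := fun t => by
    induction t with
    | zero =>
      intro d x y hd h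
      obtain rfl : d = 0 := by omega
      rw [zero_add, pow_one]
      exact h2 x y h
    | succ t ih =>
      intro d x y hd h
      rw [pow_succ']
      rcases hd.lt_or_eq with hd | rfl
      · exact (mul_pos (h3 x) (ih d (x.1, nxt x.2 1) y (by omega) h)).trans_le (h1.le (h1.pow _) _ _ _)
      · refine (mul_pos (h2 x (nxt x.1 1, x.2) rfl) (ih t _ y le_rfl ?_)).trans_le
          (h1.le (h1.pow _) _ _ _)
        rw [nxt_nxt, add_comm, h]
  refine ⟨h1, L - 1, fun x y => ?_⟩
  have hx := x.1.2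
  have hy := y.1.2
  rcases lt_or_ge x.1.1 y.1.1 with h | h
  · refine h4 _ (y.1 - x.1 - 1) x y (by omega) (Fin.ext ?_)
    have := mod_cases (r := y.1 - x.1 - 1 + 1) hx (by omega)
    simp only [nxt]
    omega
  · refine h4 _ (y.1 + L - x.1 - 1) x y (by omega) (Fin.ext ?_)
    have := mod_cases (r := y.1 + L - x.1 - 1 + 1) hx (by omega)
    simp only [nxt]
    omega

lemma Bl_girth {P T : Fin L → Mz s s}
    (hP : ∀ i a b, P i a b ≠ 0 → (b : ℕ) = a + 1 ∨ b + L ≤ a + 1) :
    Girth L (compRingEquiv (Fin L) (Fin s) ℤ (Bl P T)) := by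
  have h0 := Bl_apply P T
  generalize compRingEquiv (Fin L) (Fin s) ℤ (Bl P T) = M at h0
  have h1 : ∀ r x y, (M ^ r) x y ≠ 0 → (x.1 = y.1 ∧ ((y.2 : ℕ) = x.2 + r ∨ y.2 + L ≤ x.2 + r)) ∨
      ∃ d, d < r ∧ nxt x.1 (d + 1) = y.1 := fun r => by
    induction r with
    | zero =>
      intro x y h
      obtain rfl : x = y := by_contra fun e => h (one_apply_ne e)
      exact Or.inl ⟨rfl, Or.inl rfl⟩
    | succ r ih =>
      intro x y h
      rw [pow_succ, mul_apply] at h
      obtain ⟨z, -, hz⟩ := exists_ne_zero_of_sum_ne_zero h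
      have h2 := right_ne_zero_of_mul hz
      rw [h0] at h2
      by_cases h3 : nxt z.1 1 = y.1
      · right
        rcases ih x z (left_ne_zero_of_mul hz) with ⟨h4, -⟩ | ⟨d, h4, h5⟩
        · exact ⟨0, by omega, h4 ▸ h3⟩
        · exact ⟨d + 1, by omega, by rw [← nxt_nxt, h5, h3]⟩
      · rw [if_neg h3, add_zero] at h2
        have h6 : z.1 = y.1 := by_contra fun e => h2 (if_neg e)
        rw [if_pos h6] at h2
        have := hP _ _ _ h2
        rcases ih x z (left_ne_zero_of_mul hz) with ⟨h4, h5⟩ | ⟨d, h4, h5⟩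
        · exact Or.inl ⟨h4.trans h6, by omega⟩
        · exact Or.inr ⟨d, by omega, h5.trans h6⟩
  refine fun r h2 h3 => sum_eq_zero fun x _ => by_contra fun h => ?_
  rcases h1 r x x h with ⟨-, h4⟩ | ⟨d, h4, h5⟩
  · omega
  · have := mod_cases (r := d + 1) x.1.2 (by omega)
    have h6 := congrArg Fin.val h5
    simp only [nxt] at h6
    omega

lemma base_val {J : Type} [Fintype J] [DecidableEq J] [Pos J] (j : ℕ) (X U' A0 : Matrix J J Z9)
    (h : (1 + (3 : Z9) • X) * U' = 1) :
    GG j (1 + (3 : Z9) • X) (U' * A0) = 3 * trace (A0 ^ (j + 1) * X) := by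
  rw [GG, ← mul_assoc, h, one_mul, Gam_one_add, mul_assoc U', ← pow_succ', mul_assoc]
  rw [add_mul, one_mul, smul_mul_assoc, ← eq_sub_iff_add_eq] at h
  rw [h, sub_mul, one_mul, smul_mul_assoc, trace_sub, trace_smul, smul_eq_mul, mul_sub, ← mul_assoc,
    show (3 : Z9) * 3 = 0 from rfl, zero_mul, sub_zero]

lemma pos_mul {X Q : Mz s s} (hX : NN X) (hX' : ∀ a, 0 < X a a) (hQ : ∀ a b, 0 < Q a b) (a b : Fin s) :
    0 < (X * Q) a b := (mul_pos (hX' a) (hQ a b)).trans_le (hX.le (fun a b => (hQ a b).le) _ _ _)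

lemma mul_pos'' {X Q : Mz s s} (hX : NN X) (hX' : ∀ a, 0 < X a a) (hQ : ∀ a b, 0 < Q a b) (a b : Fin s) :
    0 < (Q * X) a b := (mul_pos (hQ a b) (hX' b)).trans_le (NN.le (fun a b => (hQ a b).le) hX _ _ _)

lemma trace_comp {R : Type} [CommRing R] (M : Matrix (Fin L) (Fin L) (Matrix (Fin s) (Fin s) R)) :
    trace (compRingEquiv (Fin L) (Fin s) R M) = ∑ i, trace (M i i) := by
  rw [trace, Fintype.sum_prod_type]
  rfl

theorem family (hL : 1 < L) (hs : L * (2 * L) < s) :
    ∃ (A : Matrix (Fin L × Fin s) (Fin L × Fin s) ℤ) (D D' : Fin L → Matrix _ _ ℤ), Prim A ∧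
      ∀ k, D k * D' k = 1 ∧ Prim (D' k * A * D k) ∧ Girth L (D' k * A * D k) ∧ ∀ j : ℕ, j ≤ k →
        Base (mdl L s) j (red (D' k * A * D k)) (if j = k then 3 * s else 0) := by
  choose P Y Z h1 h2 h3 h4 h5 h6 h7 h8 h9 h10 using fun i : Fin L =>
    gadget L s (i + 1) (by omega) i.1.succ_pos ((Nat.mul_le_mul_right _ i.2).trans_lt hs)
  let Q : Fin L → Mz s s := fun i a b =>
    (if (i : ℕ) + 1 < L then Z i * wrap s 1 else 0 : Mz s s) a b % 9 + 9
  have q1 : ∀ i a b, 0 < Q i a b := fun i a b => by simp only [Q]; omega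
  have q2 : ∀ i, red (Y i * Q i) = if (i : ℕ) + 1 < L then wrap s 1 else 0 := fun i => by
    have : red (Q i) = red (if (i : ℕ) + 1 < L then Z i * wrap s 1 else 0) := by
      ext a b
      exact (ZMod.intCast_eq_intCast_iff' _ _ 9).2 (by simp only [Q]; omega)
    rw [red_mul, this, ← red_mul]
    split_ifs
    · rw [← mul_assoc, h4, one_mul, red_wrap]
    · rw [mul_zero]
      exact Matrix.map_zero _ (map_zero _)
  let c := compRingEquiv (Fin L) (Fin s) ℤ
  let d : Fin L → Fin L → Mz s s := fun k i => if i = k then Y i else 1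
  let d' : Fin L → Fin L → Mz s s := fun k i => if i = k then Z i else 1
  have hA : red (c (Bl P fun i => Y i * Q i)) = mdl L s := by
    ext ⟨i, a⟩ ⟨k, b⟩
    have e1 := congrFun (congrFun (h7 i) a) b
    have e2 := congrFun (congrFun (q2 i) a) b
    change (Int.castRingHom Z9) (c (Bl P fun i => Y i * Q i) (i, a) (k, b)) =
      two L (cyc s 1) (wrap s 1) i k a b
    rw [Bl_apply, map_add, two, Matrix.add_apply]
    have := mod_cases (r := 1) i.2 hL.le
    congr 1
    · split_ifs
      · exact e1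
      · rfl
    · simp only [nxt, Fin.ext_iff]
      split_ifs at e2 ⊢ <;> first | exact e2 | omega | rfl
  refine ⟨c (Bl P fun i => Y i * Q i), fun k => c (diagonal (d k)), fun k => c (diagonal (d' k)),
    Bl_prim (by omega) h1 h9 fun i => pos_mul (h2 i) (h3 i) (q1 i), fun k => ?_⟩
  have e1 : c (diagonal (d k)) * c (diagonal (d' k)) = 1 := by
    rw [← map_mul, diagonal_mul_diagonal, ← map_one c, ← diagonal_one]
    congr 2
    funext i
    simp only [d, d']
    split_ifs
    exacts [h4 i, one_mul _]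
  have e2 : c (diagonal (d' k)) * c (Bl P fun i => Y i * Q i) * c (diagonal (d k)) =
      c (Bl P fun i => d' k i * Y i * Q i * d k (nxt i 1)) := by
    rw [← map_mul, ← map_mul]
    congr 1
    ext1 i l
    rw [mul_diagonal, diagonal_mul, Bl, Bl, mul_add, add_mul]
    congr 1
    · split_ifs with h
      · subst h
        simp only [d, d']
        split_ifs
        exacts [h6 i, by simp]
      · simp
    · split_ifs with h
      · simp only [h, mul_assoc]
      · simp
  have e3 : red (c (diagonal (d k))) = 1 + (3 : Z9) • compRingEquiv (Fin L) (Fin s) Z9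
      (diagonal fun i => if i = k then cyc s (s - (k + 1)) else 0) := by
    ext ⟨i, a⟩ ⟨l, b⟩
    change (Int.castRingHom Z9) (diagonal (d k) i l a b) = (1 : Matrix _ _ Z9) (i, a) (l, b) + 3 *
      diagonal (fun i => if i = k then cyc s (s - (k + 1)) else 0) i l a b
    by_cases h : i = l
    · subst h
      simp only [diagonal_apply_eq, d]
      split_ifs with h
      · subst h
        refine (congrFun (congrFun (h8 i) a) b).trans ?_
        simp [one_apply]
      · simp [one_apply]
    · simp [h]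
  refine ⟨e1, ?_, ?_, fun j hj => ?_⟩
  · rw [e2]
    refine Bl_prim (by omega) h1 h9 fun i => mul_pos'' ?_ ?_ (pos_mul ?_ ?_ (q1 i))
    all_goals simp only [d, d']; split_ifs
    exacts [h2 _, NN.one, h3 _, by simp, by rw [h5]; exact NN.one, by rw [one_mul]; exact h2 _,
      by simp [h5], by rw [one_mul]; exact h3 _]
  · rw [e2]
    exact Bl_girth h10
  · have e4 := congrArg red e1
    rw [red_mul, red_one] at e4
    refine ⟨_, _, e4, mul_eq_one_comm.1 e4, by rw [red_mul, red_mul, hA], ?_⟩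
    have hk := k.2
    have hk' : L ≤ L * (2 * L) := Nat.le_mul_of_pos_right _ (by omega)
    rw [e3] at e4 ⊢
    rw [base_val _ _ _ _ e4, mdl_pow (by omega), ← map_mul, trace_comp, sum_eq_single k]
    · rw [mul_diagonal, two, if_pos rfl, if_neg (Nat.succ_ne_self _), add_zero, if_pos rfl, cyc_add]
      split_ifs with h
      · rw [show j + 1 + (s - (k + 1)) = s by omega, cyc_self, trace_one, Fintype.card_fin]
      · rw [trace_cyc (by omega) (by omega), mul_zero]
    · intro i _ hi
      rw [mul_diagonal, if_neg hi, mul_zero, trace_zero]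
    · simp

end Pool.Agent.Lib.MP_71aad1_an
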