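import Pool.Agent.Lib.MP_71aad1_an.Model

set_option autoImplicit false

/-! A long cycle with one heavy chord, and a nonnegative unit commuting with it. -/

namespace Pool.Agent.Lib.MP_71aad1_an

open Finset Matrix

/-- A cycle of length `s` with a chord of weight `w` from the last vertex to `c`. -/
def gad (s c : ℕ) (w : ℤ) : Mz s s :=
  fun a b => cyc s 1 a b + if (a : ℕ) + 1 = s ∧ (b : ℕ) = c then w else 0

variable {s c : ℕ} {w : ℤ}

lemma gad_succ (z : Fin s) {a : ℕ} (ha : a < s)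
    (h : ∀ b : Fin s, (gad s c w ^ a) z b = if a = b then 1 else 0) (b : Fin s) :
    (gad s c w ^ (a + 1)) z b = gad s c w ⟨a, ha⟩ b := by
  rw [pow_succ, mul_apply, sum_eq_single ⟨a, ha⟩ (fun x _ hx => ?_) (by simp)]
  · simp [h]
  · rw [h, if_neg fun e => hx (Fin.ext e.symm), zero_mul]

lemma gad_row (z : Fin s) (hz : (z : ℕ) = 0) {a : ℕ} (ha : a < s) (b : Fin s) :
    (gad s c w ^ a) z b = if a = b then 1 else 0 := by
  induction a generalizing b with
  | zero => simp [one_apply, Fin.ext_iff, hz]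
  | succ a ih =>
    rw [gad_succ z (by omega) (ih (by omega))]
    simp [gad, cyc, Nat.mod_eq_of_lt ha, ha.ne]

lemma gad_pow (hc : c < s) : gad s c w ^ s = 1 + w • gad s c w ^ c := by
  obtain ⟨t, rfl⟩ : ∃ t, s = t + 1 := ⟨s - 1, by omega⟩
  set P := gad (t + 1) c w with hP
  have h0 : ∀ b, (P ^ (t + 1)) 0 b = (1 + w • P ^ c) 0 b := fun b => by
    rw [gad_succ 0 t.lt_succ_self (gad_row 0 rfl t.lt_succ_self), Matrix.add_apply, Matrix.smul_apply,
      gad_row 0 rfl hc]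
    simp [gad, cyc, one_apply, Fin.ext_iff, @eq_comm _ c]
  have h1 : ∀ (M : Mz (t + 1) (t + 1)) (a b : Fin (t + 1)), (P ^ (a : ℕ) * M) 0 b = M a b := fun M a b => by
    rw [mul_apply, sum_eq_single a (fun x _ hx => ?_) (by simp)]
    · simp [hP, gad_row 0 rfl a.2]
    · rw [gad_row 0 rfl a.2, if_neg fun e => hx (Fin.ext e.symm), zero_mul]
  ext a b
  have c1 : Commute (P ^ (a : ℕ)) (1 + w • P ^ c) :=
    (Commute.one_right _).add_right ((Commute.pow_pow_self _ _ _).smul_right w)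
  rw [← h1 (P ^ (t + 1)), ← h1 (1 + w • P ^ c), c1.eq, (Commute.pow_pow_self _ _ _).eq, mul_apply, mul_apply]
  simp only [h0]

lemma red_cyc (r : ℕ) : red (cyc s r) = cyc s r := by
  ext a b
  simp [red, cyc]

lemma red_wrap (r : ℕ) : red (wrap s r) = wrap s r := by
  ext a b
  simp [red, wrap]

lemma red_add {I K : Type} (A B : Matrix I K ℤ) : red (A + B) = red A + red B := by
  ext a b
  simp [red]

lemma red_smul {I K : Type} (t : ℤ) (A : Matrix I K ℤ) : red (t • A) = (t : Z9) • red A := by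
  ext a b
  simp [red]

theorem gadget (L s k : ℕ) (hL : 0 < L) (hk : 0 < k) (hs : k * (2 * L) < s) : ∃ P Y Z : Mz s s,
    NN P ∧ NN Y ∧ (∀ a, 0 < Y a a) ∧ Y * Z = 1 ∧ Z * Y = 1 ∧ Z * P * Y = P ∧ red P = cyc s 1 ∧
    red Y = 1 + (3 : Z9) • cyc s (s - k) ∧ (∀ a, 0 < P a (nxt a 1)) ∧
    ∀ a b, P a b ≠ 0 → (b : ℕ) = a + 1 ∨ b + L ≤ a + 1 := by
  obtain ⟨c, hc⟩ : ∃ c, s = c + k * (2 * L) := ⟨s - k * (2 * L), by omega⟩
  have hk1 : 2 * L ≤ k * (2 * L) := Nat.le_mul_of_pos_left _ hk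
  have hk2 : k ≤ k * (2 * L) := Nat.le_mul_of_pos_right _ (by omega)
  set P := gad s c (9 ^ L) with hP
  have h1 : P ^ s = 1 + (9 ^ L : ℤ) • P ^ c := gad_pow (by omega)
  have h2 : NN P := fun a b => by
    simp only [hP, gad, cyc]
    split_ifs <;> positivity
  have h3 : red P = cyc s 1 := by
    ext a b
    have : (9 : Z9) ^ L = 0 := by rw [show (9 : Z9) = 0 from rfl, zero_pow hL.ne']
    simp [hP, red, gad, cyc, this]
  have h4 : P ^ (s - k) * (P ^ k - (-3 : ℤ) • 1) = 1 + ((9 ^ L : ℤ) • P ^ c + (3 : ℤ) • P ^ (s - k)) := by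
    rw [mul_sub, ← pow_add, Nat.sub_add_cancel (by omega), h1, mul_smul_comm, mul_one, neg_smul,
      sub_neg_eq_add, add_assoc]
  have h5 : IsUnit (P ^ (s - k) * (P ^ k - (-3 : ℤ) • 1)) := by
    obtain ⟨T, hT⟩ := Commute.sub_dvd_pow_sub_pow (x := P ^ k) (y := (-3 : ℤ) • 1)
      ((Commute.one_right _).smul_right _) (2 * L)
    have e : P ^ c * ((P ^ k - (-3 : ℤ) • 1) * T) = 1 := by
      rw [← hT, mul_sub, ← pow_mul, ← pow_add, ← hc, h1, smul_pow, one_pow, mul_smul_comm, mul_one,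
        pow_mul, show (-3 : ℤ) ^ 2 = 9 from rfl, add_sub_cancel_right]
    have e' := congrArg det e
    rw [det_mul, det_mul, det_pow, det_one] at e'
    have u := IsUnit.of_mul_eq_one _ e'
    have u' := IsUnit.of_mul_eq_one_right _ e'
    rw [isUnit_iff_isUnit_det, det_mul, det_pow]
    exact (((isUnit_pow_iff (by omega)).1 u).pow _).mul (isUnit_of_mul_isUnit_left u')
  have h6 : Commute P (P ^ (s - k) * (P ^ k - (-3 : ℤ) • 1)) :=
    (Commute.self_pow _ _).mul_right ((Commute.self_pow _ _).sub_right ((Commute.one_right _).smul_right _))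
  obtain ⟨Z, hZ⟩ := h5.exists_right_inv
  have hZ' := mul_eq_one_comm.1 hZ
  have h7 : NN ((9 ^ L : ℤ) • P ^ c + (3 : ℤ) • P ^ (s - k)) := fun a b => by
    have := h2.pow c a b
    have := h2.pow (s - k) a b
    simp only [Matrix.add_apply, Matrix.smul_apply, smul_eq_mul]
    positivity
  refine ⟨P, _, Z, h2, ?_, fun a => ?_, hZ, hZ', ?_, h3, ?_, fun a => ?_, fun a b h => ?_⟩
  · rw [h4]
    exact fun a b => add_nonneg (NN.one a b) (h7 a b)
  · rw [h4, Matrix.add_apply, one_apply_eq]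
    linarith [h7 a a]
  · rw [mul_assoc, h6.eq, ← mul_assoc, hZ', one_mul]
  · rw [mul_sub, ← pow_add, Nat.sub_add_cancel (by omega), mul_smul_comm, mul_one, neg_smul,
      sub_neg_eq_add, red_add, red_smul, red_pow, red_pow, h3, cyc_pow, cyc_pow, cyc_self]
    rfl
  · simp only [hP, gad, cyc, nxt, if_true]
    split_ifs <;> positivity
  · have := mod_cases (r := 1) a.2 (by omega)
    simp only [hP, gad, cyc] at h
    split_ifs at h <;> omega

end Pool.Agent.Lib.MP_71aad1_an
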