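import Mathlib

set_option autoImplicit false

/-! An explicit cocycle on elementary strong shift equivalences of matrices over `ZMod 9`
(three times the gyration number on points of period three). -/

namespace Pool.Agent.Lib.MP_71aad1_an

open Finset

abbrev Z9 : Type := ZMod 9
abbrev T3 (I : Type) : Type := I × I × I

/-- An equivariant choice of a position in each non-constant triple. -/
class Pos (I : Type) where
  ps : T3 I → ZMod 3
  cst : ∀ a, ps (a, a, a) = 2
  rot : ∀ a b c, ¬ (a = b ∧ b = c) → ps (b, c, a) = ps (a, b, c) - 1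
  ref : ∀ a b c, ¬ (a = b ∧ b = c) → ps (a, c, b) = -ps (a, b, c)

open Pos

def posLin {I : Type} [LinearOrder I] (x : T3 I) : ZMod 3 :=
  if x.1 = x.2.1 then 2 else if x.1 = x.2.2 then 1 else if x.2.1 = x.2.2 then 0
  else if x.1 < x.2.1 ∧ x.1 < x.2.2 then 0 else if x.2.1 < x.2.2 then 1 else 2

instance posFin (n : ℕ) : Pos (Fin n) where
  ps := posLin
  cst a := by simp [posLin]
  rot a b c h := by
    simp only [posLin]
    split_ifs <;> first | rfl | omega
  ref a b c h := by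
    simp only [posLin]
    split_ifs <;> first | rfl | omega

instance posProd (I K : Type) [DecidableEq I] [Pos I] [Pos K] : Pos (I × K) where
  ps x := if x.1.1 = x.2.1.1 ∧ x.2.1.1 = x.2.2.1 then ps (x.1.2, x.2.1.2, x.2.2.2)
    else ps (x.1.1, x.2.1.1, x.2.2.1)
  cst a := by simp [cst]
  rot a b c h := by
    by_cases h1 : a.1 = b.1 ∧ b.1 = c.1
    · rw [if_pos h1, if_pos ⟨h1.2, (h1.1.trans h1.2).symm⟩]
      exact rot _ _ _ fun h2 => h ⟨Prod.ext h1.1 h2.1, Prod.ext h1.2 h2.2⟩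
    · rw [if_neg h1, if_neg fun h2 => h1 ⟨(h2.1.trans h2.2).symm, h2.1⟩]
      exact rot _ _ _ h1
  ref a b c h := by
    by_cases h1 : a.1 = b.1 ∧ b.1 = c.1
    · rw [if_pos h1, if_pos ⟨h1.1.trans h1.2, h1.2.symm⟩]
      exact ref _ _ _ fun h2 => h ⟨Prod.ext h1.1 h2.1, Prod.ext h1.2 h2.2⟩
    · rw [if_neg h1, if_neg fun h2 => h1 ⟨h2.1.trans h2.2, h2.2.symm⟩]
      exact ref _ _ _ h1

def nn (t : ZMod 3) : Z9 := if t = 0 then 1 else 0
def tri (t : ZMod 3) : Z9 := if t = 0 then 0 else if t = 1 then 3 else 6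

def rot3 {I : Type} (x : T3 I) : T3 I := (x.2.1, x.2.2, x.1)
def ref3 {I : Type} (x : T3 I) : T3 I := (x.1, x.2.2, x.2.1)
def ref3' {I : Type} (x : T3 I) : T3 I := (x.2.2, x.2.1, x.1)
def Cst {I : Type} (x : T3 I) : Prop := x.1 = x.2.1 ∧ x.2.1 = x.2.2

instance {I : Type} [DecidableEq I] (x : T3 I) : Decidable (Cst x) :=
  inferInstanceAs (Decidable (x.1 = x.2.1 ∧ x.2.1 = x.2.2))

section
variable {I : Type}

lemma cst_rot (x : T3 I) : Cst (rot3 x) ↔ Cst x := by
  simp only [Cst, rot3]; grind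
lemma cst_ref (x : T3 I) : Cst (ref3 x) ↔ Cst x := by
  simp only [Cst, ref3]; grind
lemma cst_ref' (x : T3 I) : Cst (ref3' x) ↔ Cst x := by
  simp only [Cst, ref3']; grind
lemma Cst.eq {x : T3 I} (h : Cst x) : ∃ a, x = (a, a, a) :=
  ⟨x.1, Prod.ext rfl (Prod.ext h.1.symm (h.1.trans h.2).symm)⟩

variable [Pos I]

lemma ps_rot {x : T3 I} (h : ¬ Cst x) : ps (rot3 x) = ps x - 1 := rot _ _ _ h
lemma ps_ref {x : T3 I} (h : ¬ Cst x) : ps (ref3 x) = -ps x := ref _ _ _ h
lemma ps_ref' {x : T3 I} (h : ¬ Cst x) : ps (ref3' x) = 2 - ps x := by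
  have h1 := ps_rot (mt (cst_ref' x).1 h)
  have h2 := ps_ref (mt (cst_rot x).1 h)
  rw [ps_rot h] at h2
  have h3 : rot3 (ref3' x) = ref3 (rot3 x) := rfl
  rw [h3, h2] at h1
  linear_combination -h1
lemma nn_orbit {x : T3 I} (h : ¬ Cst x) :
    nn (ps x) + nn (ps (rot3 x)) + nn (ps (rot3 (rot3 x))) = 1 := by
  rw [ps_rot (mt (cst_rot x).1 h), ps_rot h]
  generalize ps x = p
  revert p; decide

end

lemma sum_rot {Z : Type} [Fintype Z] (τ : Z → Z) (hτ : ∀ z, τ (τ (τ z)) = z) (N F : Z → Z9)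
    (h : ∀ z, F z = 0 ∨ N z + N (τ z) + N (τ (τ z)) = 1) :
    ∑ z, F z = ∑ z, N z * (F z + F (τ z) + F (τ (τ z))) := by
  let e : Z ≃ Z := ⟨τ, fun z => τ (τ z), hτ, hτ⟩
  have h1 : ∑ z, F z * N (τ z) = ∑ z, N z * F (τ (τ z)) :=
    Fintype.sum_equiv e _ _ fun z => by simp [e, hτ, mul_comm]
  have h2 : ∑ z, F z * N (τ (τ z)) = ∑ z, N z * F (τ z) :=
    Fintype.sum_equiv e.symm _ _ fun z => by simp [e, hτ, mul_comm]
  simp only [mul_add, sum_add_distrib]
  rw [← h1, ← h2, ← sum_add_distrib, ← sum_add_distrib]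
  refine sum_congr rfl fun z _ => ?_
  rcases h z with h | h
  · simp [h]
  · linear_combination (-F z) * h

lemma sum_cst {I : Type} [Fintype I] [DecidableEq I] (F : T3 I → Z9) :
    ∑ x, (if Cst x then F x else 0) = ∑ i, F (i, i, i) := by
  symm
  refine Fintype.sum_of_injective (fun i => (i, i, i)) (fun a b h => congrArg Prod.fst h) _ _ ?_ ?_
  · intro x hx
    rw [if_neg]
    intro h
    obtain ⟨a, rfl⟩ := h.eq
    exact hx ⟨a, rfl⟩
  · intro i
    rw [if_pos ⟨rfl, rfl⟩]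

lemma sum_mul3 {I R : Type} [Fintype I] [CommRing R] (f g h : I → R) :
    (∑ i, f i) * (∑ i, g i) * (∑ i, h i) = ∑ x : T3 I, f x.1 * g x.2.1 * h x.2.2 := by
  simp only [Fintype.sum_prod_type, ← mul_sum, ← sum_mul]

lemma cube_sum {K : Type} [Fintype K] [DecidableEq K] [Pos K] (v : K → Z9) :
    (∑ k, v k) ^ 3 - ∑ k, v k ^ 3 = ∑ y : T3 K, 3 * nn (ps y) * (v y.1 * v y.2.1 * v y.2.2) := by
  have h1 := sum_rot rot3 (fun _ => rfl) (fun y : T3 K => nn (ps y))
    (fun y => if Cst y then 0 else v y.1 * v y.2.1 * v y.2.2) fun y => by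
      by_cases h : Cst y
      · exact Or.inl (if_pos h)
      · exact Or.inr (nn_orbit h)
  have h2 := sum_cst fun y : T3 K => v y.1 * v y.2.1 * v y.2.2
  rw [pow_three', sum_mul3, sub_eq_iff_eq_add]
  simp only [pow_three']
  rw [← h2]
  refine Eq.trans ?_ (congrArg (· + _) (h1.trans (sum_congr rfl fun y _ => ?_)))
  · rw [← sum_add_distrib]
    exact sum_congr rfl fun y _ => by split_ifs <;> simp
  · simp only [cst_rot]
    split_ifs with h
    · obtain ⟨a, rfl⟩ := h.eq
      simp [cst, nn, show (2 : ZMod 3) ≠ 0 by decide]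
    · simp only [rot3]; ring

variable {I K L : Type}

/-- Weight of a cycle of length three. -/
def wt {R : Type} [CommRing R] (A : Matrix I K R) (B : Matrix K I R) (x : T3 I) (y : T3 K) : R :=
  A x.1 y.1 * B y.1 x.2.1 * (A x.2.1 y.2.1 * B y.2.1 x.2.2) * (A x.2.2 y.2.2 * B y.2.2 x.1)

variable [Fintype I] [Fintype K] [Fintype L] [Pos I] [Pos K] [Pos L]

/-- The cocycle. -/
def Gam (A : Matrix I K Z9) (B : Matrix K I Z9) : Z9 :=
  ∑ i, ∑ k, B k i * (A i k - A i k ^ 3) + ∑ x, ∑ y, nn (ps x) * tri (ps y) * wt A B x y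

variable [DecidableEq I] [DecidableEq K] [DecidableEq L]

def mu (z : T3 I × T3 K × T3 L) : Z9 :=
  nn (ps z.1) * tri (ps z.2.1) + nn (ps z.2.1) * tri (ps z.2.2) - nn (ps z.1) * tri (ps z.2.2) +
    if Cst z.1 then (if Cst z.2.2 then 3 * nn (ps z.2.1) else 0) else 0

def nrm (z : T3 I × T3 K × T3 L) : Z9 :=
  if Cst z.2.2 then (if Cst z.2.1 then nn (ps z.1) else nn (ps z.2.1)) else nn (ps z.2.2)

def tau (z : T3 I × T3 K × T3 L) : T3 I × T3 K × T3 L := (rot3 z.1, rot3 z.2.1, rot3 z.2.2)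

def inv3 (z : T3 I × T3 K × T3 L) : T3 I × T3 K × T3 L :=
  (if Cst z.2.1 then ref3' z.1 else ref3 z.1, ref3 z.2.1, ref3 z.2.2)

def W3 (A : Matrix I K Z9) (B : Matrix K L Z9) (C : Matrix L I Z9) (z : T3 I × T3 K × T3 L) : Z9 :=
  A z.1.1 z.2.1.1 * B z.2.1.1 z.2.2.1 * C z.2.2.1 z.1.2.1 *
    (A z.1.2.1 z.2.1.2.1 * B z.2.1.2.1 z.2.2.2.1 * C z.2.2.2.1 z.1.2.2) *
    (A z.1.2.2 z.2.1.2.2 * B z.2.1.2.2 z.2.2.2.2 * C z.2.2.2.2 z.1.1)

def rp (c : Bool) (p : ZMod 3) : ZMod 3 := if c then p else p - 1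
def mu' (a c : Bool) (p q r : ZMod 3) : Z9 :=
  nn p * tri q + nn q * tri r - nn p * tri r + if a then (if c then 3 * nn q else 0) else 0
def MM (a b c : Bool) (p q r : ZMod 3) : Z9 :=
  (if c then (if b then nn p else nn q) else nn r) * (mu' a c p q r +
    mu' a c (rp a p) (rp b q) (rp c r) + mu' a c (rp a (rp a p)) (rp b (rp b q)) (rp c (rp c r)))

lemma MM_ref : ∀ (a b c : Bool) (p q r : ZMod 3), (a → p = 2) → (b → q = 2) → (c → r = 2) →
    MM a b c (if a then p else if b then 2 - p else -p) (if b then q else -q) (if c then r else -r) =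
      -MM a b c p q r := by decide +kernel
lemma MM_zero : ∀ p q r : ZMod 3, MM false false false p q r = 0 := by decide +kernel

omit [Fintype I] in
lemma ps_rot' (x : T3 I) : ps (rot3 x) = rp (decide (Cst x)) (ps x) := by
  by_cases h : Cst x
  · obtain ⟨a, rfl⟩ := h.eq
    simp [rp, h, rot3]
  · simp [rp, h, ps_rot h]

omit [Fintype I] in
lemma ps_ref1 (x : T3 I) : ps (ref3 x) = if decide (Cst x) then ps x else -ps x := by
  by_cases h : Cst x
  · obtain ⟨a, rfl⟩ := h.eq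
    simp [h, ref3]
  · simp [h, ps_ref h]

omit [Fintype I] [DecidableEq I] in
lemma ps_cst {x : T3 I} (h : Cst x) : ps x = 2 := by
  obtain ⟨a, rfl⟩ := h.eq
  exact cst a

omit [Fintype I] [Fintype K] [Fintype L] in
lemma nrm_mu (z : T3 I × T3 K × T3 L) : nrm z * (mu z + mu (tau z) + mu (tau (tau z))) =
    MM (decide (Cst z.1)) (decide (Cst z.2.1)) (decide (Cst z.2.2)) (ps z.1) (ps z.2.1) (ps z.2.2) := by
  simp only [nrm, mu, tau, MM, mu', cst_rot, ps_rot', decide_eq_true_eq]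

lemma sum_mu (A : Matrix I K Z9) (B : Matrix K L Z9) (C : Matrix L I Z9) :
    ∑ z, W3 A B C z * mu z = 0 := by
  rw [sum_rot tau (fun _ => rfl) nrm]
  · have hW : ∀ z, W3 A B C (tau z) = W3 A B C z := fun z => by
      simp only [W3, tau, rot3]; ring
    simp only [hW]
    set H := fun z => nrm z * (W3 A B C z * mu z + W3 A B C z * mu (tau z) +
      W3 A B C z * mu (tau (tau z))) with hH
    have hinv : Function.Involutive (inv3 : T3 I × T3 K × T3 L → _) := fun z => by
      simp only [inv3, cst_ref]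
      split_ifs <;> rfl
    have h1 : ∀ z, H (inv3 z) = -H z := by
      rintro ⟨x, y, z⟩
      have e : ∀ z, H z = W3 A B C z * (nrm z * (mu z + mu (tau z) + mu (tau (tau z)))) :=
        fun z => by simp only [hH]; ring
      rw [e, e, nrm_mu, nrm_mu]
      have hx : Cst (inv3 (x, y, z)).1 ↔ Cst x := by
        simp only [inv3]; split_ifs; exacts [cst_ref' x, cst_ref x]
      have hp : ps (inv3 (x, y, z)).1 = if decide (Cst x) then ps x else
          if decide (Cst y) then 2 - ps x else -ps x := by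
        simp only [inv3, decide_eq_true_eq]
        split_ifs with h1 h2 h2
        · rw [ps_cst h2, ps_cst ((cst_ref' x).2 h2)]
        · exact ps_ref' h2
        · rw [ps_cst h2, ps_cst ((cst_ref x).2 h2)]
        · exact ps_ref h2
      rw [hp]
      simp only [hx]
      simp only [inv3, cst_ref, ps_ref1]
      rw [MM_ref _ _ _ _ _ _ (fun h => ps_cst (of_decide_eq_true h))
        (fun h => ps_cst (of_decide_eq_true h)) fun h => ps_cst (of_decide_eq_true h)]
      by_cases hy : Cst y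
      · obtain ⟨b, rfl⟩ := hy.eq
        simp only [if_pos hy, W3, ref3, ref3']; ring
      by_cases hx : Cst x
      · obtain ⟨a, rfl⟩ := hx.eq
        simp only [if_neg hy, W3, ref3]; ring
      by_cases hz : Cst z
      · obtain ⟨c, rfl⟩ := hz.eq
        simp only [if_neg hy, W3, ref3]; ring
      simp only [hx, hy, hz, decide_false, MM_zero, neg_zero, mul_zero]
    have h2 : ∑ z, H z = -∑ z, H z := by
      rw [← sum_neg_distrib]
      exact (Fintype.sum_equiv hinv.toPerm _ _ fun z => by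
        rw [← h1]; rfl).symm
    have h3 : ∀ t : Z9, t = -t → t = 0 := by decide
    exact h3 _ h2
  · rintro ⟨x, y, z⟩
    simp only [nrm, tau, cst_rot]
    split_ifs with hz hy
    · by_cases hx : Cst x
      · obtain ⟨a, rfl⟩ := hx.eq
        obtain ⟨b, rfl⟩ := hy.eq
        left
        simp [mu, cst, nn, show (2 : ZMod 3) ≠ 0 by decide]
      · exact Or.inr (nn_orbit hx)
    · exact Or.inr (nn_orbit hy)
    · exact Or.inr (nn_orbit hz)

/-- The triangle identity. -/
theorem Gam_tri (A : Matrix I K Z9) (B : Matrix K L Z9) (C : Matrix L I Z9) :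
    Gam A (B * C) + Gam B (C * A) = Gam (A * B) C := by
  have h0 := sum_mu A B C
  have e1 : ∀ x y, wt A (B * C) x y = ∑ z, W3 A B C (x, y, z) := fun x y => by
    rw [wt, Matrix.mul_apply, Matrix.mul_apply, Matrix.mul_apply, mul_sum, mul_sum univ _ (A _ _),
      mul_sum univ _ (A _ _), sum_mul3]
    exact sum_congr rfl fun z _ => by simp only [W3]; ring
  have e2 : ∀ x z, wt (A * B) C x z = ∑ y, W3 A B C (x, y, z) := fun x z => by
    rw [wt, Matrix.mul_apply, Matrix.mul_apply, Matrix.mul_apply, sum_mul, sum_mul univ _ (C _ _),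
      sum_mul univ _ (C _ _), sum_mul3]
    exact sum_congr rfl fun z _ => by simp only [W3]
  have e3 : ∀ y z, wt B (C * A) y z = ∑ x, W3 A B C (x, y, z) := fun y z => by
    rw [wt, Matrix.mul_apply, Matrix.mul_apply, Matrix.mul_apply, mul_sum, mul_sum univ _ (B _ _),
      mul_sum univ _ (B _ _), sum_mul3]
    exact (Fintype.sum_equiv ⟨rot3, fun x => rot3 (rot3 x), fun _ => rfl, fun _ => rfl⟩ _ _ fun x => by
      simp only [W3, rot3, Equiv.coe_fn_mk]; ring).symm
  have e4 : ∑ i, ∑ k, (B * C) k i * (A i k - A i k ^ 3) + ∑ k, ∑ l, (C * A) l k * (B k l - B k l ^ 3) -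
      ∑ i, ∑ l, C l i * ((A * B) i l - (A * B) i l ^ 3) =
      ∑ i, ∑ l, ∑ y : T3 K, W3 A B C ((i, i, i), y, (l, l, l)) * (3 * nn (ps y)) := by
    have f1 : ∑ i, ∑ k, (B * C) k i * (A i k - A i k ^ 3) =
        ∑ i, ∑ l, ∑ k, B k l * C l i * (A i k - A i k ^ 3) := by
      simp only [Matrix.mul_apply, sum_mul]
      exact sum_congr rfl fun i _ => sum_comm
    have f2 : ∑ k, ∑ l, (C * A) l k * (B k l - B k l ^ 3) =
        ∑ i, ∑ l, ∑ k, C l i * A i k * (B k l - B k l ^ 3) := by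
      simp only [Matrix.mul_apply, sum_mul]
      rw [sum_comm]
      refine Eq.trans (sum_congr rfl fun l _ => sum_comm) sum_comm
    rw [f1, f2, ← sum_add_distrib, ← sum_sub_distrib]
    refine sum_congr rfl fun i _ => ?_
    rw [← sum_add_distrib, ← sum_sub_distrib]
    refine sum_congr rfl fun l _ => ?_
    have g1 := cube_sum fun k => A i k * B k l
    have g2 : ∀ r s t : Z9, s * t * (r - r ^ 3) + t * r * (s - s ^ 3) =
        t * (r * s) - t * (r * s) ^ 3 := by decide +kernel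
    have g3 : ∀ t : Z9, 3 * t = 3 * t ^ 3 := by decide
    rw [← sum_add_distrib, sum_congr rfl fun k _ => g2 _ _ _, sum_sub_distrib, ← mul_sum, ← mul_sum,
      Matrix.mul_apply]
    refine Eq.trans (by ring) ((congrArg (C l i * ·) g1).trans ?_)
    rw [mul_sum]
    refine sum_congr rfl fun y _ => ?_
    simp only [W3]
    linear_combination (nn (ps y) * (A i y.1 * B y.1 l * (A i y.2.1 * B y.2.1 l) *
      (A i y.2.2 * B y.2.2 l))) * g3 (C l i)
  have e5 : ∑ x : T3 I, ∑ y : T3 K, ∑ z : T3 L, W3 A B C (x, y, z) *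
      (if Cst x then (if Cst z then 3 * nn (ps y) else 0) else 0) =
      ∑ i, ∑ l, ∑ y : T3 K, W3 A B C ((i, i, i), y, (l, l, l)) * (3 * nn (ps y)) := by
    rw [← sum_cst fun x => ∑ l, ∑ y : T3 K, W3 A B C (x, y, (l, l, l)) * (3 * nn (ps y))]
    refine sum_congr rfl fun x _ => ?_
    split_ifs
    · rw [← sum_cst fun z => ∑ y : T3 K, W3 A B C (x, y, z) * (3 * nn (ps y)), sum_comm]
      refine sum_congr rfl fun z _ => ?_
      split_ifs <;> simp
    · simp
  have e6 : ∑ y, ∑ z, nn (ps y) * tri (ps z) * wt B (C * A) y z =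
      ∑ x : T3 I, ∑ y, ∑ z, W3 A B C (x, y, z) * (nn (ps y) * tri (ps z)) := by
    simp only [e3, mul_sum]
    rw [sum_comm (s := univ (α := T3 I))]
    refine sum_congr rfl fun y _ => ?_
    rw [sum_comm]
    simp only [mul_comm]
  have e7 : ∑ x, ∑ z, nn (ps x) * tri (ps z) * wt (A * B) C x z =
      ∑ x : T3 I, ∑ y, ∑ z, W3 A B C (x, y, z) * (nn (ps x) * tri (ps z)) := by
    simp only [e2, mul_sum]
    refine sum_congr rfl fun y _ => ?_
    rw [sum_comm]
    simp only [mul_comm]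
  have e8 : ∑ x, ∑ y, nn (ps x) * tri (ps y) * wt A (B * C) x y =
      ∑ x : T3 I, ∑ y, ∑ z, W3 A B C (x, y, z) * (nn (ps x) * tri (ps y)) := by
    simp only [e1, mul_sum, mul_comm]
  rw [Fintype.sum_prod_type] at h0
  simp only [Fintype.sum_prod_type (α₁ := T3 K), mu, mul_add, mul_sub, sum_add_distrib,
    sum_sub_distrib] at h0
  rw [Gam, Gam, Gam, e6, e7, e8]
  linear_combination e4 + h0 - e5

end Pool.Agent.Lib.MP_71aad1_an
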