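import Pool.Agent.Lib.MP_71aad1_an.Val

set_option autoImplicit false

/-! Reduction of integral matrices to their nonsingular part, and the resulting invariant. -/

namespace Pool.Agent.Lib.MP_71aad1_an

open Finset Matrix

abbrev Mz (n m : ℕ) : Type := Matrix (Fin n) (Fin m) ℤ

/-- Left cancellable matrices. -/
def Inj {n m : ℕ} (A : Mz n m) : Prop := Function.Injective A.mulVec

lemma Inj.cancel {n m k : ℕ} {A : Mz n m} (h : Inj A) {X Y : Mz m k} (e : A * X = A * Y) : X = Y := by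
  ext i j
  have h1 : A.mulVec (fun a => X a j) = A.mulVec fun a => Y a j := by
    funext b
    exact congrFun (congrFun e b) j
  exact congrFun (h h1) i

lemma Inj.le {n m : ℕ} {A : Mz n m} (h : Inj A) : m ≤ n := by
  simpa using LinearMap.finrank_le_finrank_of_injective (f := A.mulVecLin) h

lemma Inj.right {n m k : ℕ} {A : Mz n m} {B : Mz m k} (h : Inj (A * B)) : Inj B := fun v w e =>
  h (by rw [← mulVec_mulVec, ← mulVec_mulVec, e])

lemma exists_fact {n k : ℕ} (S : Mz k n) : ∃ (m : ℕ) (π : Mz m n) (ι : Mz k m) (σ : Mz n m),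
    π * σ = 1 ∧ ι * π = S ∧ Inj ι := by
  let f := Matrix.toLin' S
  obtain ⟨m, b⟩ := Submodule.basisOfPid (Pi.basisFun ℤ (Fin k)) (LinearMap.range f)
  have := Module.Free.of_basis b
  obtain ⟨g, hg⟩ := f.rangeRestrict.exists_rightInverse_of_surjective f.range_rangeRestrict
  let p := b.equivFun.toLinearMap ∘ₗ f.rangeRestrict
  let i := (LinearMap.range f).subtype ∘ₗ b.equivFun.symm.toLinearMap
  let s := g ∘ₗ b.equivFun.symm.toLinearMap
  refine ⟨m, LinearMap.toMatrix' p, LinearMap.toMatrix' i, LinearMap.toMatrix' s, ?_, ?_, ?_⟩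
  · rw [← LinearMap.toMatrix'_comp, ← LinearMap.toMatrix'_id]
    congr 1
    refine LinearMap.ext fun v => ?_
    have := LinearMap.congr_fun hg
    simp only [p, s, LinearMap.comp_apply, LinearMap.id_apply] at this ⊢
    rw [this]
    exact b.equivFun.apply_symm_apply v
  · rw [← LinearMap.toMatrix'_comp, ← LinearMap.toMatrix'_toLin' S]
    congr 1
    refine LinearMap.ext fun v => ?_
    simp [p, i, f]
  · intro v w h
    simp only [LinearMap.toMatrix'_mulVec] at h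
    exact b.equivFun.symm.injective (Subtype.val_injective h)

/-- The cocycle on integral matrices. -/
def GZ (j : ℕ) {n m : ℕ} (A : Mz n m) (B : Mz m n) : Z9 := GG j (red A) (red B)

lemma GZ_tri (j : ℕ) {n m k : ℕ} (A : Mz n m) (B : Mz m k) (C : Mz k n) :
    GZ j A (B * C) + GZ j B (C * A) = GZ j (A * B) C := by
  simp only [GZ, red_mul, GG_tri]

lemma square (j : ℕ) {n n' m m' : ℕ} (R : Mz n n') (S : Mz n' n) {π : Mz m n} {ι : Mz n m} {σ : Mz n m}
    {π' : Mz m' n'} {ι' : Mz n' m'} {σ' : Mz n' m'} (h1 : π * σ = 1) (h2 : ι * π = R * S) (h3 : Inj ι)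
    (h1' : π' * σ' = 1) (h2' : ι' * π' = S * R) (h3' : Inj ι') :
    ∃ (R0 : Mz m m') (S0 : Mz m' m), R0 * S0 = π * ι ∧ S0 * R0 = π' * ι' ∧
      GZ j π ι + GZ j R S = GZ j R0 S0 + GZ j π' ι' := by
  obtain ⟨r, p, T, s, g1, g2, g3⟩ := exists_fact S
  have k1 : ∀ {a : ℕ} (X : Mz m a), π * (σ * X) = X := fun X => by rw [← Matrix.mul_assoc, h1, Matrix.one_mul]
  have k1' : ∀ {a : ℕ} (X : Mz m' a), π' * (σ' * X) = X := fun X => by
    rw [← Matrix.mul_assoc, h1', Matrix.one_mul]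
  have k2 : ∀ {a : ℕ} (X : Mz n a), ι * (π * X) = R * (S * X) := fun X => by
    rw [← Matrix.mul_assoc, h2, Matrix.mul_assoc]
  have k2' : ∀ {a : ℕ} (X : Mz n' a), ι' * (π' * X) = S * (R * X) := fun X => by
    rw [← Matrix.mul_assoc, h2', Matrix.mul_assoc]
  have k3 : ∀ {a : ℕ} (X : Mz n a), T * (p * X) = S * X := fun X => by rw [← Matrix.mul_assoc, g2]
  have k4 : S * s = T := by rw [← g2, Matrix.mul_assoc, g1, Matrix.mul_one]
  have k5 : R * (S * σ) = ι := by rw [← k2, h1, Matrix.mul_one]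
  have k6 : S * (R * σ') = ι' := by rw [← k2', h1', Matrix.mul_one]
  have a1 : π * s * p = π := h3.cancel (by
    rw [Matrix.mul_assoc, k2, ← Matrix.mul_assoc S, k4, g2, h2])
  have a2 : p * R * σ' * π' = p * R := g3.cancel (by
    simp only [Matrix.mul_assoc, k3]
    rw [← Matrix.mul_assoc R, ← Matrix.mul_assoc S, k6, h2'])
  have a3 : π' * S * σ * π = π' * S := h3'.cancel (by
    simp only [Matrix.mul_assoc, k2']
    rw [← Matrix.mul_assoc S σ, ← Matrix.mul_assoc R, k5, h2])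
  have a4 : π' * S * σ * (π * s) = π' * T := by rw [← Matrix.mul_assoc, a3, Matrix.mul_assoc, k4]
  have a5 : p * R * σ' * (π' * S * σ) = p * ι := by
    rw [Matrix.mul_assoc π', ← Matrix.mul_assoc, a2, Matrix.mul_assoc, k5]
  have a6 : T * (p * R * σ') = ι' := by rw [Matrix.mul_assoc, k3, k6]
  have a7 : ι * (π * s) = R * T := by rw [k2, k4]
  have t1 := GZ_tri j p R T
  have t2 := GZ_tri j (p * R * σ') π' T
  have t3 := GZ_tri j (π * s) p ι
  have t4 := GZ_tri j (π * s) (p * R * σ') (π' * S * σ)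
  rw [g2] at t1
  rw [a2, a6] at t2
  rw [a1, a7] at t3
  rw [a4, a5] at t4
  refine ⟨π * s * (p * R * σ'), π' * S * σ, ?_, ?_, by linear_combination t1 - t2 - t3 + t4⟩
  · rw [Matrix.mul_assoc, a5, ← Matrix.mul_assoc, a1]
  · rw [← Matrix.mul_assoc, a4, Matrix.mul_assoc, a6]

variable {J : Type} [Fintype J] [DecidableEq J] [Pos J] (A0 : Matrix J J Z9) (j : ℕ)

/-- `M` is conjugate to the model `A0`, at cost `φ`. -/
def Base {I : Type} [Fintype I] [DecidableEq I] [Pos I] (M : Matrix I I Z9) (φ : Z9) : Prop :=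
  ∃ (U : Matrix J I Z9) (U' : Matrix I J Z9), U * U' = 1 ∧ U' * U = 1 ∧ U' * A0 * U = M ∧
    φ = GG j U (U' * A0)

variable {A0 j}

lemma Base.step {I K : Type} [Fintype I] [DecidableEq I] [Pos I] [Fintype K] [DecidableEq K] [Pos K]
    {R : Matrix I K Z9} {S : Matrix K I Z9} {R' : Matrix K I Z9} {φ : Z9} (h : Base A0 j (R * S) φ)
    (h1 : R * R' = 1) (h2 : R' * R = 1) : Base A0 j (S * R) (φ + GG j R S) := by
  obtain ⟨U, U', g1, g2, g3, rfl⟩ := h
  have e1 : R * (R' * U' * A0) = U' * A0 := by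
    rw [Matrix.mul_assoc, ← Matrix.mul_assoc, h1, Matrix.one_mul]
  have e2 : R' * U' * A0 * U = S := by
    rw [Matrix.mul_assoc R', Matrix.mul_assoc, g3, ← Matrix.mul_assoc, h2, Matrix.one_mul]
  refine ⟨U * R, R' * U', ?_, ?_, ?_, ?_⟩
  · rw [Matrix.mul_assoc, ← Matrix.mul_assoc R, h1, Matrix.one_mul, g1]
  · rw [Matrix.mul_assoc, ← Matrix.mul_assoc U', g2, Matrix.one_mul, h2]
  · rw [← Matrix.mul_assoc, e2]
  · rw [← GG_tri, e1, e2]

lemma Base.uniq (hC : ∀ W W' : Matrix J J Z9, W * W' = 1 → W' * W = 1 → W * A0 = A0 * W →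
      GG j W (W' * A0) = 0) {I : Type} [Fintype I] [DecidableEq I] [Pos I] {M : Matrix I I Z9}
    {φ ψ : Z9} (h : Base A0 j M φ) (h' : Base A0 j M ψ) : φ = ψ := by
  obtain ⟨U, U', g1, g2, g3, rfl⟩ := h
  obtain ⟨V, V', k1, k2, k3, rfl⟩ := h'
  have e1 : U * V' * V = U := by rw [Matrix.mul_assoc, k2, Matrix.mul_one]
  have e2 : U' * A0 * (U * V') = V' * A0 := by
    rw [← Matrix.mul_assoc, g3, ← k3, Matrix.mul_assoc, k1, Matrix.mul_one]
  have t := GG_tri j (U * V') V (U' * A0)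
  rw [e1, e2, ← Matrix.mul_assoc, hC, zero_add] at t
  · exact t.symm
  · rw [← Matrix.mul_assoc, e1, g1]
  · rw [Matrix.mul_assoc, ← Matrix.mul_assoc U', g2, Matrix.one_mul, k1]
  · rw [Matrix.mul_assoc, ← e2, Matrix.mul_assoc U', ← Matrix.mul_assoc, g1, Matrix.one_mul]

lemma Base.isUnit (hA : IsUnit A0) {n : ℕ} {M : Matrix (Fin n) (Fin n) Z9} {φ : Z9}
    (h : Base A0 j M φ) : IsUnit M := by
  obtain ⟨U, U', g1, g2, rfl, -⟩ := h
  obtain ⟨B, hB⟩ := hA.exists_right_inv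
  refine IsUnit.of_mul_eq_one (U' * B * U) ?_
  rw [Matrix.mul_assoc, Matrix.mul_assoc U' B, ← Matrix.mul_assoc U, g1, Matrix.one_mul,
    Matrix.mul_assoc, ← Matrix.mul_assoc A0, hB, Matrix.one_mul, g2]

lemma inj_of_unit {n : ℕ} {M : Mz n n} (h : IsUnit (red M)) : Inj M := by
  have h1 : M.det ≠ 0 := fun h0 => by
    have h2 := (Matrix.isUnit_iff_isUnit_det _).1 h
    have h3 : (red M).det = 0 := by
      have := (Int.castRingHom Z9).map_det M
      rw [h0, map_zero] at this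
      exact this.symm
    rw [h3] at h2
    exact absurd (isUnit_zero_iff.1 h2) (by decide)
  intro v w e
  rw [← sub_eq_zero]
  exact Matrix.eq_zero_of_mulVec_eq_zero h1 (by rw [mulVec_sub, e, sub_self])

variable (A0 j) in
/-- The invariant: reduce to the nonsingular part and compare with the model. -/
inductive Good : (n : ℕ) → Mz n n → Z9 → Prop
  | base (n : ℕ) (M : Mz n n) (φ : Z9) : Base A0 j (red M) φ → Good n M φ
  | step (n m : ℕ) (M : Mz n n) (π : Mz m n) (ι σ : Mz n m) (ψ φ : Z9) : π * σ = 1 → ι * π = M →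
      Inj ι → m < n → Good m (π * ι) ψ → φ = ψ + GZ j π ι → Good n M φ

lemma Good.inv {n : ℕ} {M : Mz n n} {φ : Z9} (h : Good A0 j n M φ) : Base A0 j (red M) φ ∨
    ∃ (m : ℕ) (π : Mz m n) (ι σ : Mz n m) (ψ : Z9), π * σ = 1 ∧ ι * π = M ∧ Inj ι ∧ m < n ∧
      Good A0 j m (π * ι) ψ ∧ φ = ψ + GZ j π ι := by
  cases h with
  | base _ _ _ h => exact Or.inl h
  | step _ m _ π ι σ ψ _ h1 h2 h3 h4 h5 h6 => exact Or.inr ⟨m, π, ι, σ, ψ, h1, h2, h3, h4, h5, h6⟩

lemma fact_or {n : ℕ} (M : Mz n n) : Inj M ∨ ∃ (m : ℕ) (π : Mz m n) (ι σ : Mz n m),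
    π * σ = 1 ∧ ι * π = M ∧ Inj ι ∧ m < n := by
  obtain ⟨m, π, ι, σ, h1, h2, h3⟩ := exists_fact M
  rcases h3.le.lt_or_eq with h | rfl
  · exact Or.inr ⟨m, π, ι, σ, h1, h2, h3, h⟩
  · left
    intro v w e
    rw [← h2, ← mulVec_mulVec, ← mulVec_mulVec] at e
    have := congrArg σ.mulVec (h3 e)
    rwa [mulVec_mulVec, mulVec_mulVec, mul_eq_one_comm.1 h1, one_mulVec, one_mulVec] at this

lemma GZ_one {n : ℕ} (M : Mz n n) : GZ j 1 M = 0 := by rw [GZ, red_one, GG_one]

theorem Good.trans (hA : IsUnit A0) (N : ℕ) : ∀ {n n' : ℕ} (R : Mz n n') (S : Mz n' n) (φ : Z9),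
    n + n' < N → Good A0 j n (R * S) φ → Good A0 j n' (S * R) (φ + GZ j R S) := by
  induction N with
  | zero => intro n n' R S φ h; omega
  | succ N ih =>
    intro n n' R S φ hN h
    rcases h.inv with hb | ⟨m, π, ι, σ, ψ, h1, h2, h3, h4, h5, rfl⟩
    · have hu := hb.isUnit hA
      have hi := inj_of_unit hu
      rcases fact_or (S * R) with hi' | ⟨m', π', ι', σ', h1', h2', h3', h4'⟩
      · obtain rfl : n = n' := le_antisymm hi.right.le hi'.right.le
        rw [red_mul] at hu hb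
        obtain ⟨B, hB⟩ := hu.exists_right_inv
        rw [Matrix.mul_assoc] at hB
        refine Good.base _ _ _ ?_
        rw [red_mul]
        exact hb.step hB (mul_eq_one_comm.1 hB)
      · obtain ⟨R0, S0, e1, e2, e3⟩ := square j R S (Matrix.mul_one 1) (Matrix.mul_one _) hi h1' h2' h3'
        rw [Matrix.one_mul] at e1
        have h6 := ih R0 S0 φ (by omega) (e1 ▸ h)
        rw [GZ_one] at e3
        exact Good.step _ _ _ π' ι' σ' _ _ h1' h2' h3' h4' (e2 ▸ h6) (by linear_combination e3)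
    · rcases fact_or (S * R) with hi' | ⟨m', π', ι', σ', h1', h2', h3', h4'⟩
      · obtain ⟨R0, S0, e1, e2, e3⟩ := square j R S h1 h2 h3 (Matrix.mul_one 1) (Matrix.mul_one _) hi'
        have h6 := ih R0 S0 ψ (by omega) (e1 ▸ h5)
        rw [GZ_one, add_zero] at e3
        rw [e2, Matrix.one_mul, ← e3, ← add_assoc] at h6
        exact h6
      · obtain ⟨R0, S0, e1, e2, e3⟩ := square j R S h1 h2 h3 h1' h2' h3'
        have h6 := ih R0 S0 ψ (by omega) (e1 ▸ h5)
        exact Good.step _ _ _ π' ι' σ' _ _ h1' h2' h3' h4' (e2 ▸ h6) (by linear_combination e3)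

theorem Good.uniq (hA : IsUnit A0) (hC : ∀ W W' : Matrix J J Z9, W * W' = 1 → W' * W = 1 →
      W * A0 = A0 * W → GG j W (W' * A0) = 0) {n : ℕ} {M : Mz n n} {φ ψ : Z9}
    (h : Good A0 j n M φ) (h' : Base A0 j (red M) ψ) : φ = ψ := by
  rcases h.inv with hb | ⟨m, π, ι, σ, ψ, -, h2, -, h4, -⟩
  · exact hb.uniq hC h'
  · have hi := inj_of_unit (h'.isUnit hA)
    rw [← h2] at hi
    exact absurd hi.right.le (by omega)

end Pool.Agent.Lib.MP_71aad1_an
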