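import Pool.Agent.Lib.MP_71aad1_an.Family

set_option autoImplicit false

/-! Transfer to matrices over integral group rings. -/

namespace Pool.Agent.Lib.MP_71aad1_an

open Finset Matrix

lemma Girth.comm {I K : Type} [Fintype I] [DecidableEq I] [Fintype K] [DecidableEq K] {L : ℕ}
    {R : Matrix I K ℤ} {S : Matrix K I ℤ} (h : Girth L (R * S)) : Girth L (S * R) := fun r h0 h1 => by
  obtain ⟨r, rfl⟩ : ∃ t, r = t + 1 := ⟨r - 1, by omega⟩
  rw [pow_succ, ← Matrix.mul_assoc, pow_comm', trace_mul_comm, ← Matrix.mul_assoc, ← pow_succ']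
  exact h _ h0 h1

theorem family' {L s : ℕ} (hL : 1 < L) (hs : L * (2 * L) < s) :
    ∃ (A : Mz (L * s) (L * s)) (D D' : Fin L → Mz _ _), Prim A ∧
      ∀ k, D k * D' k = 1 ∧ Prim (D' k * A * D k) ∧ Girth L (D' k * A * D k) ∧ ∀ j : ℕ, j ≤ k →
        3 * (j + 1) < L → Base (mdl L s) j (red (D' k * A * D k)) (if j = k then 3 * s else 0) := by
  obtain ⟨A, D, D', hA, h⟩ := family hL hs
  let e : Fin L × Fin s ≃ Fin (L * s) := finProdFinEquiv
  let ρ := reindexAlgEquiv ℤ ℤ e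
  have h1 : ∀ M, Prim M → Prim (ρ M) := fun M ⟨h1, t, h2⟩ =>
    ⟨fun _ _ => h1 _ _, t, fun x y => by rw [← map_pow]; exact h2 _ _⟩
  refine ⟨ρ A, fun k => ρ (D k), fun k => ρ (D' k), h1 A hA, fun k => ?_⟩
  obtain ⟨g1, g2, g3, g4⟩ := h k
  rw [← map_mul, ← map_mul, ← map_mul, g1, map_one]
  generalize D' k * A * D k = B at g2 g3 g4
  let E : Matrix (Fin L × Fin s) (Fin (L * s)) ℤ := (1 : Matrix _ _ ℤ).submatrix (Equiv.refl _) e.symm
  let F := fun M : Matrix (Fin L × Fin s) (Fin L × Fin s) ℤ => M.submatrix e.symm (Equiv.refl _)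
  have e1 : ∀ M, E * F M = M := fun M => by rw [submatrix_mul_equiv, one_mul]; rfl
  have e2 : ∀ M, F M * E = ρ M := fun M => by rw [submatrix_mul_equiv, mul_one]; rfl
  refine ⟨rfl, h1 B g2, by rw [← e2]; exact Girth.comm (by rwa [e1]), fun j hj hj' => ?_⟩
  have g5 := g4 j hj
  rw [← e1 B, red_mul] at g5
  have g6 := g5.step (R' := red (F 1)) (by rw [← red_mul, e1, red_one])
    (by rw [← red_mul, e2, map_one, red_one])
  rwa [GG_pos j (A := E) (B := F B) (fun _ _ => NN.one _ _) (fun _ _ => g2.1 _ _) (by rw [e1]; exact g3 _ (by omega) (by omega))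
    (by rw [e1]; exact g3 _ (by omega) hj'), add_zero, ← red_mul, e2] at g6

variable {G : Type} [Group G] [Fintype G] {n m k : ℕ}

/-- Product of matrices over the group ring. -/
def cv (R : Fin n → Fin m → G → ℤ) (S : Fin m → Fin k → G → ℤ) : Fin n → Fin k → G → ℤ :=
  fun i l g => ∑ j, ∑ h : G, R i j h * S j l (h⁻¹ * g)

/-- Augmentation. -/
def aug (R : Fin n → Fin m → G → ℤ) : Mz n m := fun i j => ∑ g, R i j g

/-- An integral matrix times an element of the group ring. -/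
def dec (M : Mz n m) (c : G → ℤ) : Fin n → Fin m → G → ℤ := fun i j g => M i j * c g

lemma aug_cv (R : Fin n → Fin m → G → ℤ) (S : Fin m → Fin k → G → ℤ) :
    aug (cv R S) = aug R * aug S := by
  ext i l
  simp only [aug, cv, mul_apply, sum_mul_sum]
  rw [sum_comm]
  refine sum_congr rfl fun j _ => ?_
  rw [sum_comm]
  exact sum_congr rfl fun h _ => Fintype.sum_equiv (Equiv.mulLeft h⁻¹) _ _ fun _ => rfl

lemma cv_dec (M : Mz n m) (M' : Mz m k) (c c' : G → ℤ) :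
    cv (dec M c) (dec M' c') = dec (M * M') fun g => ∑ h, c h * c' (h⁻¹ * g) := by
  funext i l g
  simp only [cv, dec, mul_apply, sum_mul_sum]
  exact sum_congr rfl fun _ _ => sum_congr rfl fun _ _ => by ring

omit [Group G] in
lemma aug_dec (M : Mz n m) (c : G → ℤ) : aug (dec M c) = (∑ g, c g) • M := by
  ext i l
  simp only [aug, dec, Matrix.smul_apply, smul_eq_mul, ← mul_sum, mul_comm]

lemma dec_prim {M : Mz n n} (h : Prim M) {c : G → ℤ} (hc : ∀ g, 0 < c g) :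
    (∀ i j g, 0 ≤ dec M c i j g) ∧ ∃ t : ℕ, ∀ i j g, 0 < ((fun X => cv X (dec M c))^[t] (dec M c)) i j g := by
  obtain ⟨h1, t, h2⟩ := h
  refine ⟨fun i j g => mul_nonneg (h1 i j) (hc g).le, t, ?_⟩
  have h3 : ∀ t, ∃ c' : G → ℤ, (∀ g, 0 < c' g) ∧
      (fun X => cv X (dec M c))^[t] (dec M c) = dec (M ^ (t + 1)) c' := fun t => by
    induction t with
    | zero => exact ⟨c, hc, by simp⟩
    | succ t ih =>
      obtain ⟨c', h4, h5⟩ := ih
      exact ⟨_, fun g => sum_pos (fun h _ => mul_pos (h4 h) (hc _)) univ_nonempty, by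
        rw [Function.iterate_succ_apply', h5, cv_dec, ← pow_succ]⟩
  obtain ⟨c', h4, h5⟩ := h3 t
  exact fun i j g => h5 ▸ mul_pos (h2 i j) (h4 g)

/-- Elementary strong shift equivalence over the positive cone. -/
def PosE (P Q : Σ n : ℕ, (Fin n → Fin n → G → ℤ)) : Prop :=
  ∃ (R : Fin P.1 → Fin Q.1 → G → ℤ) (S : Fin Q.1 → Fin P.1 → G → ℤ),
    (∀ i j g, 0 ≤ R i j g) ∧ (∀ i j g, 0 ≤ S i j g) ∧ P.2 = cv R S ∧ Q.2 = cv S R

theorem inv_eqv {J : Type} [Fintype J] [DecidableEq J] [Pos J] {A0 : Matrix J J Z9} (hA : IsUnit A0)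
    {j L : ℕ} (hj : 3 * (j + 1) < L) (φ : Z9) {P Q : Σ n : ℕ, (Fin n → Fin n → G → ℤ)}
    (h : Relation.EqvGen PosE P Q) : Girth L (aug P.2) ∧ Good A0 j _ (aug P.2) φ ↔
      Girth L (aug Q.2) ∧ Good A0 j _ (aug Q.2) φ := by
  have key : ∀ P Q : Σ n : ℕ, (Fin n → Fin n → G → ℤ), PosE P Q →
      Girth L (aug P.2) ∧ Good A0 j _ (aug P.2) φ → Girth L (aug Q.2) ∧ Good A0 j _ (aug Q.2) φ := by
    rintro P Q ⟨R, S, h1, h2, h3, h4⟩ ⟨h5, h6⟩
    rw [h3, aug_cv] at h5 h6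
    rw [h4, aug_cv]
    have h7 := Good.trans hA _ _ _ _ (Nat.lt_succ_self _) h6
    rw [GZ, GG_pos j (A := aug R) (B := aug S) (fun _ _ => sum_nonneg fun _ _ => h1 _ _ _)
      (fun _ _ => sum_nonneg fun _ _ => h2 _ _ _) (h5 _ (by omega) (by omega)) (h5 _ (by omega) hj), add_zero] at h7
    exact ⟨h5.comm, h7⟩
  induction h with
  | rel P Q h =>
    refine ⟨key P Q h, key Q P ?_⟩
    obtain ⟨R, S, h1, h2, h3, h4⟩ := h
    exact ⟨S, R, h2, h1, h4, h3⟩
  | refl => rfl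
  | symm _ _ _ ih => exact ih.symm
  | trans _ _ _ _ _ ih ih' => exact ih.trans ih'

theorem main (G : Type) [Group G] [Fintype G] (N : ℕ) : ∃ (n : ℕ) (A : Mz n n) (B : Fin N → Mz n n)
    (c : G → ℤ), 0 < n ∧ (∀ g, 0 < c g) ∧ Prim A ∧ (∀ k, Prim (B k) ∧
      ∃ R S, dec (B k) c = cv R S ∧ dec A c = cv S R) ∧
      ∀ k l, k ≠ l → ¬ Relation.EqvGen PosE ⟨n, dec (B k) c⟩ ⟨n, dec (B l) c⟩ := by
  classical
  obtain ⟨L, hL⟩ : ∃ L, L = 3 * (N + 1) := ⟨_, rfl⟩
  obtain ⟨s, hs⟩ : ∃ s, s = L * (2 * L) + 1 := ⟨_, rfl⟩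
  obtain ⟨A, D, D', hA, h⟩ := family' (L := L) (s := s) (by omega) (by omega)
  let c : G → ℤ := fun g => (if g = 1 then 1 else 0) + 9
  let ι : Fin N → Fin L := Fin.castLE (by omega)
  refine ⟨_, A, fun k => D' (ι k) * A * D (ι k), c, Nat.mul_pos (by omega) (by omega),
    fun g => by simp only [c]; split_ifs <;> omega, hA, fun k => ⟨(h _).2.1, dec (D' (ι k)) c,
      dec (A * D (ι k)) fun g => if g = 1 then 1 else 0, ?_, ?_⟩, ?_⟩
  · rw [cv_dec, ← mul_assoc]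
    simp [inv_mul_eq_one]
  · rw [cv_dec, mul_assoc, (h _).1, mul_one]
    simp
  have h1 : ∀ M : Mz (L * s) (L * s), red (aug (dec M c)) = red M := fun M => by
    have : ((∑ g, c g : ℤ) : Z9) = 1 := by
      simp [c, sum_add_distrib, show (9 : Z9) = 0 from rfl]
    rw [aug_dec, red_smul, this, one_smul]
  have key : ∀ k l : Fin N, k < l → ¬ Relation.EqvGen PosE ⟨_, dec (D' (ι k) * A * D (ι k)) c⟩
      ⟨_, dec (D' (ι l) * A * D (ι l)) c⟩ := fun k l hkl e => by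
    have hk := k.2
    have hj : 3 * (k + 1) < L := by omega
    have u := mdl_unit (L := L) (s := s) (by omega)
    obtain ⟨-, -, g1, g2⟩ := h (ι k)
    have g3 := (h (ι l)).2.2.2 k hkl.le hj
    have g4 := g2 k le_rfl hj
    rw [← h1] at g3 g4
    have g5 := ((inv_eqv u hj _ e).1 ⟨fun r h0 h1 => by
      rw [aug_dec, smul_pow, trace_smul, g1 r h0 h1, smul_zero], Good.base _ _ _ g4⟩).2.uniq u
      (mdl_cent (by omega) ⟨_, hL⟩ k) g3
    rw [if_pos (show (k : ℕ) = ι k from rfl), if_neg (show (k : ℕ) ≠ ι l from (Fin.lt_def.1 hkl).ne)] at g5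
    rw [hs, hL] at g5
    push_cast at g5
    have g6 : ∀ x : Z9, 3 * (3 * x * (2 * (3 * x)) + 1) ≠ 0 := by decide
    exact g6 _ g5
  intro k l hkl
  rcases lt_or_gt_of_ne hkl with h | h
  · exact key k l h
  · exact fun e => key l k h (e.symm _ _)

end Pool.Agent.Lib.MP_71aad1_an
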