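import Pool.Agent.Lib.MP_71aad1_an.Good

set_option autoImplicit false

/-! The model matrix modulo nine: a chain of identical cycles. -/

namespace Pool.Agent.Lib.MP_71aad1_an

open Finset Matrix

section cyc
variable {R : Type} [CommRing R] {s : ℕ}

/-- Power of the cyclic permutation matrix. -/
def cyc (s r : ℕ) : Matrix (Fin s) (Fin s) R := fun a b => if (a + r) % s = b then 1 else 0

/-- The part of `cyc s r` that passes the origin. -/
def wrap (s r : ℕ) : Matrix (Fin s) (Fin s) R :=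
  fun a b => if s ≤ a + r ∧ (a + r) % s = b then 1 else 0

def nxt (a : Fin s) (r : ℕ) : Fin s := ⟨(a + r) % s, Nat.mod_lt _ a.pos⟩

lemma cyc_mul (r : ℕ) (X : Matrix (Fin s) (Fin s) R) (a b : Fin s) :
    (cyc s r * X : Matrix (Fin s) (Fin s) R) a b = X (nxt a r) b := by
  rw [mul_apply, sum_eq_single (nxt a r) (fun c _ hc => ?_) (by simp)]
  · simp [cyc, nxt]
  · rw [cyc, if_neg fun h => hc (Fin.ext h.symm), zero_mul]

lemma wrap_mul (r : ℕ) (X : Matrix (Fin s) (Fin s) R) (a b : Fin s) :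
    (wrap s r * X : Matrix (Fin s) (Fin s) R) a b = if s ≤ a + r then X (nxt a r) b else 0 := by
  rw [mul_apply, sum_eq_single (nxt a r) (fun c _ hc => ?_) (by simp)]
  · simp [wrap, nxt]
  · rw [wrap, if_neg fun h => hc (Fin.ext h.2.symm), zero_mul]

lemma cyc_add (r t : ℕ) : (cyc s r * cyc s t : Matrix _ _ R) = cyc s (r + t) := by
  ext a b
  simp [cyc_mul, cyc, nxt, add_assoc]

lemma cyc_zero : (cyc s 0 : Matrix _ _ R) = 1 := by
  ext a b
  simp [cyc, one_apply, Nat.mod_eq_of_lt a.2, Fin.ext_iff]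

lemma cyc_self : (cyc s s : Matrix _ _ R) = 1 := by
  ext a b
  simp [cyc, one_apply, Nat.mod_eq_of_lt a.2, Fin.ext_iff]

lemma wrap_self : (wrap s s : Matrix _ _ R) = 1 := by
  ext a b
  simp [wrap, one_apply, Nat.mod_eq_of_lt a.2, Fin.ext_iff]

lemma wrap_zero : (wrap s 0 : Matrix _ _ R) = 0 := by
  ext a b
  simp [wrap, a.2.not_ge]

lemma cyc_pow (r : ℕ) : (cyc s 1 : Matrix _ _ R) ^ r = cyc s r := by
  induction r with
  | zero => rw [pow_zero, cyc_zero]
  | succ r ih => rw [pow_succ, ih, cyc_add]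

lemma mod_cases {a r : ℕ} (ha : a < s) (hr : r ≤ s) :
    (a + r < s ∧ (a + r) % s = a + r) ∨ (s ≤ a + r ∧ (a + r) % s + s = a + r) := by
  rcases lt_or_ge (a + r) s with h | h
  · exact Or.inl ⟨h, Nat.mod_eq_of_lt h⟩
  · right
    rw [Nat.mod_eq_sub_mod h, Nat.mod_eq_of_lt (by omega)]
    omega

lemma wrap_succ {r : ℕ} (hr : r < s) :
    (cyc s r * wrap s 1 + wrap s r * cyc s 1 : Matrix _ _ R) = wrap s (r + 1) := by
  ext a b
  have := mod_cases a.2 hr.le
  simp only [Matrix.add_apply, cyc_mul, wrap_mul, wrap, cyc, nxt, Nat.mod_add_mod, add_assoc]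
  by_cases h : (a + (r + 1)) % s = b
  · simp only [h, and_true, if_true]
    split_ifs <;> first | omega | simp
  · simp [h]

lemma wrap_wrap {r : ℕ} (hr : r < s) : (wrap s r * wrap s 1 : Matrix _ _ R) = 0 := by
  ext a b
  have := mod_cases a.2 hr.le
  simp only [wrap_mul, wrap, nxt, Matrix.zero_apply]
  split_ifs <;> first | omega | rfl

lemma trace_cyc {r : ℕ} (h0 : 0 < r) (hr : r < s) : trace (cyc s r : Matrix _ _ R) = 0 :=
  sum_eq_zero fun a _ => by
    have := mod_cases a.2 hr.le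
    rw [diag_apply, cyc, if_neg (by omega)]

end cyc

section two
variable {Λ : Type} [Ring Λ] {L : ℕ}

/-- Block matrices with a diagonal and a superdiagonal. -/
def two (L : ℕ) (X Y : Λ) : Matrix (Fin L) (Fin L) Λ :=
  fun i k => (if i = k then X else 0) + if (i : ℕ) + 1 = k then Y else 0

lemma two_mul (X Y X' Y' : Λ) (h : Y * Y' = 0) :
    two L X Y * two L X' Y' = two L (X * X') (X * Y' + Y * X') := by
  ext i k
  have e1 : ∑ c : Fin L, (if i = c then X else 0) * two L X' Y' c k = X * two L X' Y' i k := by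
    rw [sum_eq_single i (fun c _ hc => by simp [hc.symm]) (by simp), if_pos rfl]
  have e2 : ∑ c : Fin L, (if (i : ℕ) + 1 = c then Y else 0) * two L X' Y' c k =
      if (i : ℕ) + 1 = k then Y * X' else 0 := by
    rw [sum_eq_single k (fun c _ hc => ?_) (by simp)]
    · split_ifs <;> simp [two]
    · simp only [two, if_neg hc]
      split_ifs <;> simp [h]
  rw [mul_apply]
  conv_lhs => simp only [two.eq_def L X Y, add_mul, sum_add_distrib]
  rw [e1, e2]
  simp only [two]
  split_ifs <;> simp [mul_add, add_assoc]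

lemma two_one : two L (1 : Λ) 0 = 1 := by
  ext i k
  simp [two, one_apply]

lemma two_one_one : two L (1 : Λ) 1 = 1 + two L 0 1 := by
  ext i k
  simp [two, one_apply]

lemma shift_comm {W : Matrix (Fin L) (Fin L) Λ} (h : W * two L 0 1 = two L 0 1 * W) :
    (∀ i k, k < i → W i k = 0) ∧ ∀ i k, W i i = W k k := by
  have e : ∀ i i' k : Fin L, (i : ℕ) + 1 = i' → (W * two L (0 : Λ) 1 : Matrix _ _ Λ) i k = W i' k := fun i i' k hi => by
    rw [h, mul_apply, sum_eq_single i' (fun c _ hc => ?_) (by simp)]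
    · simp [two, hi]
    · simp [two, hi, Fin.val_inj, hc.symm]
  have e0 : ∀ i i' k : Fin L, (i : ℕ) + 1 = i' → (k : ℕ) = 0 → W i' k = 0 := fun i i' k hi hk => by
    rw [← e i i' k hi, mul_apply]
    exact sum_eq_zero fun c _ => by simp [two, hk]
  have e1 : ∀ i i' k k' : Fin L, (i : ℕ) + 1 = i' → (k : ℕ) + 1 = k' → W i' k' = W i k :=
    fun i i' k k' hi hk => by
      rw [← e i i' k' hi, mul_apply, sum_eq_single k (fun c _ hc => ?_) (by simp)]
      · simp [two, hk]
      · simp [two, ← hk, Fin.val_inj, hc]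
  have a1 : ∀ (k : ℕ) (hk : k < L) (i : Fin L), k < i → W i ⟨k, hk⟩ = 0 := fun k => by
    induction k with
    | zero => exact fun hk i hi => e0 ⟨i - 1, by omega⟩ i _ (by simp only; omega) rfl
    | succ k ih =>
      intro hk i hi
      rw [e1 ⟨i - 1, by omega⟩ i ⟨k, by omega⟩ _ (by simp only; omega) rfl]
      exact ih _ _ (by simp only; omega)
  have a2 : ∀ (k : ℕ) (hk : k < L), W ⟨k, hk⟩ ⟨k, hk⟩ = W ⟨0, by omega⟩ ⟨0, by omega⟩ := fun k => by
    induction k with
    | zero => exact fun _ => rfl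
    | succ k ih => exact fun hk => (e1 ⟨k, by omega⟩ _ ⟨k, by omega⟩ _ rfl rfl).trans (ih _)
  exact ⟨fun i k hk => a1 k k.2 i hk, fun i k => (a2 i i.2).trans (a2 k k.2).symm⟩

end two

/-- The model. -/
def mdl (L s : ℕ) : Matrix (Fin L × Fin s) (Fin L × Fin s) Z9 :=
  compRingEquiv (Fin L) (Fin s) Z9 (two L (cyc s 1) (wrap s 1))

variable {L s : ℕ}

lemma mdl_pow {r : ℕ} (hr : r ≤ s) :
    mdl L s ^ r = compRingEquiv (Fin L) (Fin s) Z9 (two L (cyc s r) (wrap s r)) := by
  rw [mdl, ← map_pow]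
  congr 1
  induction r with
  | zero => rw [pow_zero, cyc_zero, wrap_zero, two_one]
  | succ r ih => rw [pow_succ, ih (by omega), two_mul _ _ _ _ (wrap_wrap hr), cyc_add, wrap_succ hr]

lemma mdl_comm {W : Matrix (Fin L × Fin s) (Fin L × Fin s) Z9} (h : W * mdl L s = mdl L s * W) :
    (∀ x y, y.1 < x.1 → W x y = 0) ∧ ∀ i k a b, W (i, a) (i, b) = W (k, a) (k, b) := by
  have h1 := (Commute.pow_right (show Commute W (mdl L s) from h) s).eq
  obtain ⟨V, rfl⟩ := (compRingEquiv (Fin L) (Fin s) Z9).surjective W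
  rw [mdl_pow le_rfl, cyc_self, wrap_self, ← map_mul, ← map_mul] at h1
  have h2 := (compRingEquiv (Fin L) (Fin s) Z9).injective h1
  rw [two_one_one, mul_add, add_mul, mul_one, one_mul, add_right_inj] at h2
  obtain ⟨a1, a2⟩ := shift_comm h2
  exact ⟨fun x y hxy => congrFun (congrFun (a1 _ _ hxy) x.2) y.2,
    fun i k a b => congrFun (congrFun (a2 i k) a) b⟩

lemma mdl_cent (hL : 0 < L) (h3 : 3 ∣ L) (j : ℕ) (W W' : Matrix (Fin L × Fin s) (Fin L × Fin s) Z9)
    (h1 : W * W' = 1) (h2 : W' * W = 1) (h : W * mdl L s = mdl L s * W) :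
    GG j W (W' * mdl L s) = 0 := by
  have c1 : Commute W' (mdl L s) := by
    have := congrArg (fun X => W' * X * W') h
    simp only [← mul_assoc, h2, one_mul] at this
    rw [mul_assoc, mul_assoc, h1, mul_one] at this
    exact this.symm
  rw [GG, ← mul_assoc W, h1, one_mul]
  have c2 : Commute (W' * mdl L s * mdl L s ^ j) (mdl L s) :=
    (c1.mul_left (Commute.refl _)).mul_left ((Commute.refl _).pow_left j)
  obtain ⟨a1, a2⟩ := mdl_comm h
  obtain ⟨b1, b2⟩ := mdl_comm c2.eq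
  rw [Gam_block _ _ (fun a b => _) (fun a b => _) a1 b1 (fun i a b => a2 i ⟨0, hL⟩ a b)
    fun i a b => b2 i ⟨0, hL⟩ a b]
  obtain ⟨m, rfl⟩ := h3
  rw [Nat.cast_mul, mul_comm ((3 : ℕ) : Z9), mul_assoc, Nat.cast_ofNat, Gam_three, mul_zero]

lemma two_nil {Λ : Type} [Ring Λ] (r : ℕ) (i k : Fin L) (h : (k : ℕ) < i + r) :
    (two L (0 : Λ) 1 ^ r) i k = 0 := by
  induction r generalizing k with
  | zero => rw [pow_zero, one_apply_ne (by rintro rfl; omega)]
  | succ r ih =>
    rw [pow_succ, mul_apply]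
    refine sum_eq_zero fun c _ => ?_
    by_cases hc : (c : ℕ) + 1 = k
    · rw [ih c (by omega), zero_mul]
    · simp [two, hc]

lemma mdl_unit (hs : 0 < s) : IsUnit (mdl L s) := by
  rw [← isUnit_pow_iff hs.ne', mdl_pow le_rfl, cyc_self, wrap_self]
  refine IsUnit.map _ ?_
  rw [two_one_one]
  refine IsNilpotent.isUnit_one_add ⟨L, ?_⟩
  ext1 i k
  exact two_nil L i k (by omega)

end Pool.Agent.Lib.MP_71aad1_an
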