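import Pool.Agent.Lib.MP_71aad1_an.QDef2

set_option autoImplicit false

namespace Pool.Agent.Lib.MP_71aad1_an.SS

open Polynomial Matrix Finset Sum

/-! Positivity and evaluation. All proofs are routine (`coeff_mul`, `Finset.sum_nonneg`,
`QuadraticAlgebra.re_mul`, induction on polynomials). -/

theorem qa1_aug (c : Lam ℤ) : augZ c = c.re + c.im := rfl
theorem qa1_re1 : (1 : Lam ℤ).re = 1 := rfl
theorem qa1_im1 : (1 : Lam ℤ).im = 0 := rfl

theorem gL_mul_gL : gL * gL = 1 := by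
  ext <;> simp [gL, qa1_re1, qa1_im1]
theorem uL_eq : uL = 1 + gL := by
  ext <;> simp [gL, uL, qa1_re1, qa1_im1]
theorem mul_uL (c : Lam ℤ) : c * uL = (augZ c : Lam ℤ) * uL := by
  ext <;> simp [uL, qa1_aug]
theorem augZ_uL : augZ uL = 2 := by rfl
theorem augZ_gL : augZ gL = 1 := by rfl
theorem Lam_eq (c : Lam ℤ) : c = (c.re : Lam ℤ) + (c.im : Lam ℤ) * gL := by
  ext <;> simp [gL]
theorem gR_mul_gR : gR * gR = 1 := by
  rw [gR, ← C_mul, gL_mul_gL, C_1]
theorem uR_eq : uR = 1 + gR := by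
  rw [uR, gR, uL_eq, C_add, C_1]
theorem gR_mul_uR : gR * uR = uR := by
  rw [uR_eq, mul_add, gR_mul_gR, mul_one, add_comm]
theorem uR_mul_uR : uR * uR = 2 * uR := by
  nth_rewrite 1 [uR_eq]
  rw [add_mul, gR_mul_uR, one_mul, two_mul]
theorem C_mul_uR (c : Lam ℤ) : C c * uR = (augZ c : RZ) * uR := by
  rw [uR, ← C_mul, mul_uL, C_mul, map_intCast]
theorem coeff_uR_mul_iZ (a : ℤ[X]) (j : ℕ) :
    (uR * iZ a).coeff j = (⟨a.coeff j, a.coeff j⟩ : Lam ℤ) := by
  rw [uR, coeff_C_mul, iZ, coe_mapRingHom, coeff_map]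
  ext <;> simp [uL]

theorem LPos.zero : LPos 0 := ⟨le_rfl, le_rfl⟩
theorem LPos.one : LPos 1 := ⟨zero_le_one, le_rfl⟩
theorem LPos.add {a b : Lam ℤ} (ha : LPos a) (hb : LPos b) : LPos (a + b) :=
  ⟨add_nonneg ha.1 hb.1, add_nonneg ha.2 hb.2⟩
theorem LPos.mul {a b : Lam ℤ} (ha : LPos a) (hb : LPos b) : LPos (a * b) := by
  obtain ⟨h1, h2⟩ := ha
  obtain ⟨h3, h4⟩ := hb
  constructor
  · simp only [QuadraticAlgebra.re_mul, one_mul]
    positivity
  · simp only [QuadraticAlgebra.im_mul, zero_mul, add_zero]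
    positivity
theorem LPos.sum {σ : Type} (s : Finset σ) {f : σ → Lam ℤ} (h : ∀ i ∈ s, LPos (f i)) :
    LPos (∑ i ∈ s, f i) :=
  Finset.sum_induction f LPos (fun _ _ => LPos.add) LPos.zero h
theorem LPos.natCast (n : ℕ) : LPos (n : Lam ℤ) := ⟨Int.natCast_nonneg n, le_rfl⟩
theorem LPos.gL : LPos gL := ⟨le_rfl, zero_le_one⟩
theorem LPos.uL : LPos uL := ⟨zero_le_one, zero_le_one⟩
theorem LPos.aug_nonneg {a : Lam ℤ} (ha : LPos a) : 0 ≤ augZ a := add_nonneg ha.1 ha.2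
theorem LPos.aug_pos {a : Lam ℤ} (ha : LPos a) (h : a ≠ 0) : 0 < augZ a := by
  obtain ⟨h1, h2⟩ := ha
  rw [qa1_aug]
  by_contra hc
  apply h
  ext
  · simp only [QuadraticAlgebra.re_zero]; omega
  · simp only [QuadraticAlgebra.im_zero]; omega
theorem LPos.eq_zero_of_add {a b : Lam ℤ} (ha : LPos a) (hb : LPos b) (h : a + b = 0) : a = 0 := by
  obtain ⟨h1, h2⟩ := ha
  obtain ⟨h3, h4⟩ := hb
  have e1 : a.re + b.re = 0 := congrArg QuadraticAlgebra.re h
  have e2 : a.im + b.im = 0 := congrArg QuadraticAlgebra.im h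
  ext
  · simp only [QuadraticAlgebra.re_zero]; omega
  · simp only [QuadraticAlgebra.im_zero]; omega

theorem qa1_pos_monomial (n : ℕ) {c : Lam ℤ} (h : LPos c) : Pos (monomial n c) := by
  intro j
  rw [coeff_monomial]
  split_ifs
  · exact h
  · exact LPos.zero

theorem Pos.zero : Pos 0 := fun _ => LPos.zero
theorem Pos.one : Pos 1 := qa1_pos_monomial 0 LPos.one
theorem Pos.add {p q : RZ} (hp : Pos p) (hq : Pos q) : Pos (p + q) := fun j => by
  rw [coeff_add]; exact (hp j).add (hq j)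
theorem Pos.mul {p q : RZ} (hp : Pos p) (hq : Pos q) : Pos (p * q) := fun j => by
  rw [coeff_mul]; exact LPos.sum _ fun i _ => (hp _).mul (hq _)
theorem Pos.sum {σ : Type} (s : Finset σ) {f : σ → RZ} (h : ∀ i ∈ s, Pos (f i)) :
    Pos (∑ i ∈ s, f i) :=
  Finset.sum_induction f Pos (fun _ _ => Pos.add) Pos.zero h
theorem Pos.pow {p : RZ} (hp : Pos p) (n : ℕ) : Pos (p ^ n) := by
  induction n with
  | zero => rw [pow_zero]; exact Pos.one
  | succ n ih => rw [pow_succ]; exact ih.mul hp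
theorem Pos.X : Pos X := qa1_pos_monomial 1 LPos.one
theorem Pos.X_pow (n : ℕ) : Pos (Polynomial.X ^ n) := Pos.X.pow n
theorem Pos.C {c : Lam ℤ} (h : LPos c) : Pos (Polynomial.C c) := qa1_pos_monomial 0 h
theorem Pos.natCast (n : ℕ) : Pos (n : RZ) := by
  rw [← map_natCast (Polynomial.C : Lam ℤ →+* RZ)]; exact Pos.C (LPos.natCast n)
theorem Pos.gR : Pos gR := Pos.C LPos.gL
theorem Pos.uR : Pos uR := Pos.C LPos.uL
theorem Pos.mono (q : ℕ × Bool) : Pos (mono q) := by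
  unfold SS.mono
  refine Pos.mul ?_ (Pos.X_pow _)
  split_ifs
  · exact Pos.gR
  · exact Pos.one
theorem Pos.bud (s : ℕ) : Pos (bud s) := by
  unfold SS.bud
  exact ((Pos.natCast 2).mul Pos.uR).mul ((Pos.X_pow _).add (Pos.X_pow _))
theorem Pos.divX {p : RZ} (hp : Pos p) : Pos p.divX := fun j => by
  rw [coeff_divX]; exact hp _
theorem pos_X_pow_mul (k : ℕ) (p : RZ) : Pos (X ^ k * p) ↔ Pos p := by
  refine ⟨fun h j => ?_, fun h => (Pos.X_pow k).mul h⟩
  have := h (j + k)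
  rwa [coeff_X_pow_mul] at this
/-- Transitivity of the order `p ≤ q ↔ Pos (q - p)`. -/
theorem Pos.trans {p q s : RZ} (h : Pos (q - p)) (h' : Pos (s - q)) : Pos (s - p) := by
  have := h'.add h
  rwa [sub_add_sub_cancel] at this
theorem Pos.of_sub {p q : RZ} (h : Pos (q - p)) (hp : Pos p) : Pos q := by
  have := h.add hp
  rwa [sub_add_cancel] at this
/-- A positive summand of a positive sum inherits the order. -/
theorem Pos.dvd_of_le {p q : RZ} {k : ℕ} (hp : Pos p) (h : Pos (q - p))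
    (hq : Polynomial.X ^ k ∣ q) : Polynomial.X ^ k ∣ p := by
  rw [X_pow_dvd_iff] at hq ⊢
  intro d hd
  refine LPos.eq_zero_of_add (hp d) (h d) ?_
  rw [coeff_sub, add_sub_cancel, hq d hd]
theorem pos_uR_mul_iZ (a : ℤ[X]) : Pos (uR * iZ a) ↔ ∀ i, 0 ≤ a.coeff i := by
  refine ⟨fun h i => ?_, fun h i => ?_⟩
  · have := h i
    rw [coeff_uR_mul_iZ] at this
    exact this.1
  · rw [coeff_uR_mul_iZ]
    exact ⟨h i, h i⟩
theorem PM.pos {j : ℕ} {m : RZ} (h : PM j m) : Pos m := by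
  rcases h with rfl | rfl
  · exact Pos.X_pow j
  · exact Pos.gR.mul (Pos.X_pow j)
theorem PM.dvd {j : ℕ} {m : RZ} (h : PM j m) : X ^ j ∣ m := by
  rcases h with rfl | rfl
  · exact dvd_rfl
  · exact dvd_mul_left _ _
theorem PM.mul {i j : ℕ} {m m' : RZ} (h : PM i m) (h' : PM j m') : PM (i + j) (m * m') := by
  rcases h with rfl | rfl <;> rcases h' with rfl | rfl
  · left; rw [pow_add]
  · right; rw [pow_add]; ring
  · right; rw [pow_add]; ring
  · left
    rw [pow_add]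
    linear_combination (X ^ i * X ^ j : RZ) * gR_mul_gR
theorem PM.um {j : ℕ} {m : RZ} (h : PM j m) : UM j m := by
  rcases h with h | h
  · exact Or.inl h
  · exact Or.inr (Or.inr (Or.inl h))
theorem PM.mono (q : ℕ × Bool) : PM q.1 (mono q) := by
  unfold SS.mono
  split_ifs
  · exact Or.inr rfl
  · exact Or.inl (one_mul _)
theorem PM.eq_mono {j : ℕ} {m : RZ} (h : PM j m) : ∃ b, m = SS.mono (j, b) := by
  rcases h with rfl | rfl
  · exact ⟨false, by simp [SS.mono]⟩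
  · exact ⟨true, by simp [SS.mono]⟩
theorem PM.mul_uR {j : ℕ} {m : RZ} (h : PM j m) : m * uR = X ^ j * uR := by
  rcases h with rfl | rfl
  · rfl
  · linear_combination (X ^ j : RZ) * gR_mul_uR

theorem qa1_pos_sub_monomial {p : RZ} (hp : Pos p) {j : ℕ} {c : Lam ℤ}
    (h : LPos (p.coeff j - c)) : Pos (p - monomial j c) := by
  intro i
  rw [coeff_sub, coeff_monomial]
  split_ifs with e
  · subst e; exact h
  · rw [sub_zero]; exact hp i

/-- A nonzero coefficient of a positive polynomial contains a unit monomial. -/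
theorem Pos.exists_PM {p : RZ} (hp : Pos p) {j : ℕ} (h : p.coeff j ≠ 0) :
    ∃ m, PM j m ∧ Pos (p - m) := by
  have h1 := (hp j).aug_pos h
  obtain ⟨h2, h3⟩ := hp j
  rw [qa1_aug] at h1
  by_cases e : 0 < (p.coeff j).re
  · refine ⟨Polynomial.X ^ j, Or.inl rfl, ?_⟩
    rw [← monomial_one_right_eq_X_pow]
    refine qa1_pos_sub_monomial hp ⟨?_, ?_⟩
    · simp only [QuadraticAlgebra.re_sub, qa1_re1]; omega
    · simp only [QuadraticAlgebra.im_sub, qa1_im1]; omega
  · refine ⟨SS.gR * Polynomial.X ^ j, Or.inr rfl, ?_⟩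
    rw [SS.gR, C_mul_X_pow_eq_monomial]
    refine qa1_pos_sub_monomial hp ⟨?_, ?_⟩
    · simp only [QuadraticAlgebra.re_sub, gL]; omega
    · simp only [QuadraticAlgebra.im_sub, gL]; omega

/-- Total mass of a polynomial. -/
noncomputable def qa1_mass : RZ →+* ℤ := eval₂RingHom augZ 1

theorem qa1_mass_nonneg {p : RZ} (hp : Pos p) : 0 ≤ qa1_mass p := by
  rw [qa1_mass, coe_eval₂RingHom, eval₂_eq_sum, Polynomial.sum]
  exact Finset.sum_nonneg fun i _ => by simpa using (hp i).aug_nonneg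

theorem qa1_mass_PM {j : ℕ} {m : RZ} (h : PM j m) : qa1_mass m = 1 := by
  rcases h with rfl | rfl
  · simp [qa1_mass]
  · simp [qa1_mass, gR, augZ_gL]

/-- Induction over positive polynomials, one unit monomial at a time (induct on `ev 1 p`,
or on the sum of all coefficients). -/
theorem Pos.induction {Q : RZ → Prop} (h0 : Q 0)
    (hs : ∀ p j m, Pos p → PM j m → Q p → Q (p + m)) {p : RZ} (hp : Pos p) : Q p := by
  have key : ∀ n : ℕ, ∀ p : RZ, Pos p → qa1_mass p ≤ n → Q p := by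
    intro n
    induction n with
    | zero =>
      intro p hp hn
      by_cases e : p = 0
      · rw [e]; exact h0
      · exfalso
        obtain ⟨m, hm, hpm⟩ := hp.exists_PM (j := p.natDegree) (by simpa using e)
        have := qa1_mass_nonneg hpm
        rw [map_sub, qa1_mass_PM hm] at this
        omega
    | succ n ih =>
      intro p hp hn
      by_cases e : p = 0
      · rw [e]; exact h0
      · obtain ⟨m, hm, hpm⟩ := hp.exists_PM (j := p.natDegree) (by simpa using e)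
        have h2 := hs (p - m) _ m hpm hm (ih _ hpm (by rw [map_sub, qa1_mass_PM hm]; omega))
        rwa [sub_add_cancel] at h2
  exact key (qa1_mass p).toNat p hp (Int.self_le_toNat _)

theorem ev_X (ρ : ℝ) : ev ρ X = ρ := by simp [ev]
theorem ev_C (ρ : ℝ) (c : Lam ℤ) : ev ρ (C c) = augZ c := by simp [ev]
theorem ev_gR (ρ : ℝ) : ev ρ gR = 1 := by rw [gR, ev_C, augZ_gL, Int.cast_one]
theorem ev_uR (ρ : ℝ) : ev ρ uR = 2 := by rw [uR, ev_C, augZ_uL, Int.cast_ofNat]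
theorem ev_iZ (ρ : ℝ) (a : ℤ[X]) : ev ρ (iZ a) = aeval ρ a := by
  have : (ev ρ).comp iZ = (aeval ρ : ℤ[X] →ₐ[ℤ] ℝ).toRingHom := by
    apply Polynomial.ringHom_ext'
    · exact RingHom.ext_int _ _
    · simp [iZ, ev_X]
  exact RingHom.congr_fun this a
theorem PM.ev {j : ℕ} {m : RZ} (h : PM j m) (ρ : ℝ) : ev ρ m = ρ ^ j := by
  rcases h with rfl | rfl
  · rw [map_pow, ev_X]
  · rw [map_mul, map_pow, ev_X, ev_gR, one_mul]
theorem qa1_ev_sum (ρ : ℝ) (p : RZ) :
    ev ρ p = ∑ i ∈ p.support, (augZ (p.coeff i) : ℝ) * ρ ^ i := by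
  rw [ev, coe_eval₂RingHom, eval₂_eq_sum, Polynomial.sum]
  rfl
theorem ev_nonneg {ρ : ℝ} (h : 0 ≤ ρ) {p : RZ} (hp : Pos p) : 0 ≤ ev ρ p := by
  rw [qa1_ev_sum]
  exact Finset.sum_nonneg fun i _ =>
    mul_nonneg (Int.cast_nonneg (hp i).aug_nonneg) (pow_nonneg h i)
theorem ev_le {ρ : ℝ} (h : 0 ≤ ρ) {p q : RZ} (hp : Pos (q - p)) : ev ρ p ≤ ev ρ q := by
  have := ev_nonneg h hp
  rwa [map_sub, sub_nonneg] at this
theorem ev_pos {ρ : ℝ} (h : 0 < ρ) {p : RZ} (hp : Pos p) (h0 : p ≠ 0) : 0 < ev ρ p := by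
  obtain ⟨m, hm, hpm⟩ := hp.exists_PM (j := p.natDegree) (by simpa using h0)
  have h1 := ev_le h.le hpm
  rw [hm.ev] at h1
  exact (pow_pos h _).trans_le h1
theorem ev_mono_rad {ρ ρ' : ℝ} (h : 0 ≤ ρ) (h' : ρ ≤ ρ') {p : RZ} (hp : Pos p) :
    ev ρ p ≤ ev ρ' p := by
  rw [qa1_ev_sum, qa1_ev_sum]
  exact Finset.sum_le_sum fun i _ =>
    mul_le_mul_of_nonneg_left (pow_le_pow_left₀ h h' i) (Int.cast_nonneg (hp i).aug_nonneg)
theorem continuous_ev (p : RZ) : Continuous fun ρ => ev ρ p := by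
  simp only [qa1_ev_sum]
  fun_prop

section
variable {U V W : Type} [Fintype V]

theorem MPos.mul {A : Matrix U V RZ} {B : Matrix V W RZ} (hA : MPos A) (hB : MPos B) :
    MPos (A * B) := fun i j => by
  rw [mul_apply]; exact Pos.sum _ fun k _ => (hA i k).mul (hB k j)
theorem MPos.one [DecidableEq U] : MPos (1 : Matrix U U RZ) := fun i j => by
  rw [one_apply]
  split_ifs
  · exact Pos.one
  · exact Pos.zero
theorem MPos.pow [DecidableEq V] {A : Matrix V V RZ} (hA : MPos A) (n : ℕ) : MPos (A ^ n) := by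
  induction n with
  | zero => rw [pow_zero]; exact MPos.one
  | succ n ih => rw [pow_succ]; exact ih.mul hA
theorem MPos.vecMul {v : V → RZ} {B : Matrix V W RZ} (hv : ∀ i, Pos (v i)) (hB : MPos B) (j : W) :
    Pos ((v ᵥ* B) j) :=
  Pos.sum _ fun k _ => (hv k).mul (hB k j)
theorem MLPos.mul {A : Matrix U V (Lam ℤ)} {B : Matrix V W (Lam ℤ)} (hA : MLPos A) (hB : MLPos B) :
    MLPos (A * B) := fun i j => by
  rw [mul_apply]; exact LPos.sum _ fun k _ => (hA i k).mul (hB k j)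
theorem MLPos.one [DecidableEq U] : MLPos (1 : Matrix U U (Lam ℤ)) := fun i j => by
  rw [one_apply]
  split_ifs
  · exact LPos.one
  · exact LPos.zero
theorem MLPos.pow [DecidableEq V] {A : Matrix V V (Lam ℤ)} (hA : MLPos A) (n : ℕ) :
    MLPos (A ^ n) := by
  induction n with
  | zero => rw [pow_zero]; exact MLPos.one
  | succ n ih => rw [pow_succ]; exact ih.mul hA
theorem tM_pt {A : Matrix U W (Lam ℤ)} (hA : MLPos A) : PT (tM A) :=
  ⟨fun i j => Pos.X.mul (Pos.C (hA i j)), fun _ _ => dvd_mul_right _ _⟩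
theorem TD.rkOk {B : Matrix U U RZ} (h : TD B) (rk : U → ℕ) : RkOk rk B :=
  fun i j e => absurd (X_dvd_iff.1 (h i j)) e
theorem PT.valid {B : Matrix U U RZ} (h : PT B) : Valid B :=
  ⟨h.1, fun _ => 0, h.2.rkOk _⟩
theorem TD.pow_dvd [DecidableEq V] {A : Matrix V V RZ} (h : TD A) (n : ℕ) (i j : V) :
    X ^ n ∣ (A ^ n) i j := by
  induction n generalizing j with
  | zero => rw [pow_zero]; exact one_dvd _
  | succ n ih =>
    rw [pow_succ, pow_succ, mul_apply]
    exact Finset.dvd_sum fun k _ => mul_dvd_mul (ih k) (h k j)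
theorem dvd_vecMul {k : ℕ} {v : V → RZ} (hv : ∀ i, X ^ k ∣ v i) (B : Matrix V W RZ) (j : W) :
    X ^ k ∣ (v ᵥ* B) j :=
  Finset.dvd_sum fun i _ => (hv i).mul_right _
/-- Cancellation of `1 - A` modulo `t ^ k`: induction on `k`, `n = n (1 - A) + n A`. -/
theorem dvd_of_vecMul_one_sub [DecidableEq V] {A : Matrix V V RZ} (h : TD A) {k : ℕ} {n : V → RZ}
    (hn : ∀ z, X ^ k ∣ (n ᵥ* (1 - A)) z) (z : V) : X ^ k ∣ n z := by
  induction k generalizing z with
  | zero => rw [pow_zero]; exact one_dvd _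
  | succ k ih =>
    have h1 : ∀ z, X ^ k ∣ n z := ih fun z => (pow_dvd_pow X (Nat.le_succ k)).trans (hn z)
    have h2 : n z = (n ᵥ* (1 - A)) z + (n ᵥ* A) z := by
      rw [vecMul_sub, vecMul_one, Pi.sub_apply, sub_add_cancel]
    rw [h2]
    refine dvd_add (hn z) ?_
    rw [pow_succ]
    exact Finset.dvd_sum fun i _ => mul_dvd_mul (h1 i) (h i z)
/-- Geometric series: `v = v A ^ n + (∑ j < n, v A ^ j) (1 - A)`. -/
theorem vecMul_geom [DecidableEq V] (A : Matrix V V RZ) (v : V → RZ) (n : ℕ) :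
    v = v ᵥ* A ^ n + (∑ j ∈ range n, v ᵥ* A ^ j) ᵥ* (1 - A) := by
  induction n with
  | zero => simp
  | succ n ih =>
    rw [Finset.sum_range_succ, add_vecMul, vecMul_sub (A := (1 : Matrix V V RZ)) (x := v ᵥ* A ^ n),
      vecMul_one, vecMul_vecMul, ← pow_succ]
    linear_combination (exp := 1) ih
end

end Pool.Agent.Lib.MP_71aad1_an.SS
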