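import Pool.Agent.Lib.MP_71aad1_an.QDef

set_option autoImplicit false

namespace Pool.Agent.Lib.MP_71aad1_an.SS

open Polynomial Matrix Finset Sum

/-! Weighted coefficient norms. Write `nw v p` as a sum over any finite set containing the
support (`Polynomial.sum_over_range'`, `Polynomial.sum_eq_of_subset`). For the product use
`coeff_mul`, `Finset.sum_antidiagonal_eq_sum_range_succ` or, more simply, additivity:
`Polynomial.induction_on'` is not enough because `nw` is only subadditive, so expand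
`p = ∑ monomial i (p.coeff i)` and `q` likewise, use `nw_sum_le` and `nw_monomial`. -/

variable {K : Type} [NormedCommRing K]

theorem qa2_mul (a b : Lam K) :
    ‖(a * b).re‖ + ‖(a * b).im‖ ≤ (‖a.re‖ + ‖a.im‖) * (‖b.re‖ + ‖b.im‖) := by
  rw [QuadraticAlgebra.re_mul, QuadraticAlgebra.im_mul, one_mul, zero_mul, zero_mul, add_zero]
  have h1 := norm_add_le (a.re * b.re) (a.im * b.im)
  have h2 := norm_add_le (a.re * b.im) (a.im * b.re)
  linarith [norm_mul_le a.re b.re, norm_mul_le a.im b.im, norm_mul_le a.re b.im,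
    norm_mul_le a.im b.re]

theorem qa2_sq (j : ℕ) : ((j : ℝ) + 1) ^ 2 * (1 / 2) ^ j ≤ 9 / 4 := by
  rcases Nat.lt_or_ge j 2 with h | h
  · interval_cases j <;> norm_num
  · induction j, h using Nat.le_induction with
    | base => norm_num
    | succ n hn ih =>
      refine le_trans ?_ ih
      have h1 : (0 : ℝ) ≤ (1 / 2) ^ n := by positivity
      have h2 : (2 : ℝ) ≤ n := by exact_mod_cast hn
      have h3 : ((n : ℝ) + 1 + 1) ^ 2 * (1 / 2) ≤ (n + 1) ^ 2 := by nlinarith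
      rw [pow_succ (1 / 2 : ℝ)]
      push_cast
      nlinarith [mul_le_mul_of_nonneg_left h3 h1]


theorem nw_eq_sum (v : ℕ → ℝ) (p : PR K) {s : Finset ℕ} (h : p.support ⊆ s) :
    nw v p = ∑ j ∈ s, v j * (‖(p.coeff j).re‖ + ‖(p.coeff j).im‖) := by
  unfold nw
  exact Polynomial.sum_eq_of_subset (fun j c => v j * (‖c.re‖ + ‖c.im‖)) (fun i => by simp) h
theorem nw_monomial (v : ℕ → ℝ) (j : ℕ) (c : Lam K) :
    nw v (monomial j c : PR K) = v j * (‖c.re‖ + ‖c.im‖) := by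
  rw [nw_eq_sum v _ (support_monomial_subset j c)]
  simp
theorem nw_zero (v : ℕ → ℝ) : nw v (0 : PR K) = 0 := by
  simp [nw]
theorem nw_neg (v : ℕ → ℝ) (p : PR K) : nw v (-p) = nw v p := by
  rw [nw_eq_sum v (-p) (s := p.support) (by simp), nw_eq_sum v p subset_rfl]
  simp
theorem nw_nonneg {v : ℕ → ℝ} (hv : ∀ j, 0 ≤ v j) (p : PR K) : 0 ≤ nw v p := by
  rw [nw_eq_sum v p subset_rfl]
  exact Finset.sum_nonneg fun j _ => mul_nonneg (hv j) (by positivity)
theorem nw_add_le {v : ℕ → ℝ} (hv : ∀ j, 0 ≤ v j) (p q : PR K) :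
    nw v (p + q) ≤ nw v p + nw v q := by
  rw [nw_eq_sum v (p + q) (s := p.support ∪ q.support) support_add,
    nw_eq_sum v p (s := p.support ∪ q.support) subset_union_left,
    nw_eq_sum v q (s := p.support ∪ q.support) subset_union_right, ← Finset.sum_add_distrib]
  refine Finset.sum_le_sum fun j _ => ?_
  rw [← mul_add]
  refine mul_le_mul_of_nonneg_left ?_ (hv j)
  rw [coeff_add, QuadraticAlgebra.re_add, QuadraticAlgebra.im_add]
  linarith [norm_add_le (p.coeff j).re (q.coeff j).re, norm_add_le (p.coeff j).im (q.coeff j).im]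
theorem nw_sum_le {σ : Type} {v : ℕ → ℝ} (hv : ∀ j, 0 ≤ v j) (s : Finset σ) (f : σ → PR K) :
    nw v (∑ i ∈ s, f i) ≤ ∑ i ∈ s, nw v (f i) := by
  classical
  induction s using Finset.induction_on with
  | empty => simp [nw_zero]
  | insert a s ha ih =>
    rw [Finset.sum_insert ha, Finset.sum_insert ha]
    exact (nw_add_le hv _ _).trans (by linarith)
theorem nw_mul_le {v v₁ v₂ : ℕ → ℝ} (hv : ∀ j, 0 ≤ v j) (h : ∀ i j, v (i + j) ≤ v₁ i * v₂ j)
    (p q : PR K) : nw v (p * q) ≤ nw v₁ p * nw v₂ q := by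
  rw [nw_eq_sum v₁ p subset_rfl, nw_eq_sum v₂ q subset_rfl, Finset.sum_mul_sum,
    Polynomial.mul_eq_sum_sum]
  refine (nw_sum_le hv _ _).trans (Finset.sum_le_sum fun i _ => ?_)
  rw [Polynomial.sum_def]
  refine (nw_sum_le hv _ _).trans (Finset.sum_le_sum fun j _ => ?_)
  rw [nw_monomial, mul_mul_mul_comm]
  exact (mul_le_mul_of_nonneg_left (qa2_mul _ _) (hv _)).trans
    (mul_le_mul_of_nonneg_right (h i j) (by positivity))
theorem nw_le_nw {v v' : ℕ → ℝ} (p : PR K) (h : ∀ j, p.coeff j ≠ 0 → v j ≤ v' j) :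
    nw v p ≤ nw v' p := by
  rw [nw_eq_sum v p subset_rfl, nw_eq_sum v' p subset_rfl]
  exact Finset.sum_le_sum fun j hj =>
    mul_le_mul_of_nonneg_right (h j (mem_support_iff.1 hj)) (by positivity)
theorem nw_smul_weight (c : ℝ) (v : ℕ → ℝ) (p : PR K) :
    nw (fun j => c * v j) p = c * nw v p := by
  rw [nw_eq_sum _ p subset_rfl, nw_eq_sum v p subset_rfl, Finset.mul_sum]
  exact Finset.sum_congr rfl fun j _ => mul_assoc _ _ _
theorem nw_X_pow_mul (v : ℕ → ℝ) (k : ℕ) (p : PR K) :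
    nw v (X ^ k * p) = nw (fun j => v (j + k)) p := by
  have h : (X ^ k * p).support ⊆ p.support.map (addRightEmbedding k) := by
    intro j hj
    rw [mem_support_iff, coeff_X_pow_mul'] at hj
    split_ifs at hj with hk
    · exact Finset.mem_map.2 ⟨j - k, mem_support_iff.2 hj, by simp [Nat.sub_add_cancel hk]⟩
    · exact absurd rfl hj
  rw [nw_eq_sum v _ h, nw_eq_sum _ p subset_rfl, Finset.sum_map]
  refine Finset.sum_congr rfl fun j _ => ?_
  rw [addRightEmbedding_apply, coeff_X_pow_mul]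
theorem coeff_le_nw {v : ℕ → ℝ} (hv : ∀ j, 0 ≤ v j) (p : PR K) (j : ℕ) :
    v j * (‖(p.coeff j).re‖ + ‖(p.coeff j).im‖) ≤ nw v p := by
  rw [nw_eq_sum v p (s := insert j p.support) (subset_insert _ _)]
  exact Finset.single_le_sum (f := fun j => v j * (‖(p.coeff j).re‖ + ‖(p.coeff j).im‖))
    (fun i _ => mul_nonneg (hv i) (by positivity)) (mem_insert_self _ _)

variable {r : ℝ}

theorem N0_zero : N0 r (0 : PR K) = 0 := by
  exact nw_zero _
theorem N1_zero : N1 r (0 : PR K) = 0 := by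
  exact nw_zero _
theorem N0_neg (p : PR K) : N0 r (-p) = N0 r p := by
  exact nw_neg _ _
theorem N1_neg (p : PR K) : N1 r (-p) = N1 r p := by
  exact nw_neg _ _
theorem N0_nonneg (hr : 0 ≤ r) (p : PR K) : 0 ≤ N0 r p := by
  exact nw_nonneg (fun j => by positivity) p
theorem N1_nonneg (hr : 0 ≤ r) (p : PR K) : 0 ≤ N1 r p := by
  exact nw_nonneg (fun j => by positivity) p
theorem N0_add_le (hr : 0 ≤ r) (p q : PR K) : N0 r (p + q) ≤ N0 r p + N0 r q := by
  exact nw_add_le (fun j => by positivity) p q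
theorem N1_add_le (hr : 0 ≤ r) (p q : PR K) : N1 r (p + q) ≤ N1 r p + N1 r q := by
  exact nw_add_le (fun j => by positivity) p q
theorem N0_sub_le (hr : 0 ≤ r) (p q : PR K) : N0 r (p - q) ≤ N0 r p + N0 r q := by
  rw [sub_eq_add_neg, ← N0_neg q]
  exact N0_add_le hr p (-q)
theorem N1_sub_le (hr : 0 ≤ r) (p q : PR K) : N1 r (p - q) ≤ N1 r p + N1 r q := by
  rw [sub_eq_add_neg, ← N1_neg q]
  exact N1_add_le hr p (-q)
theorem N0_sum_le {σ : Type} (hr : 0 ≤ r) (s : Finset σ) (f : σ → PR K) :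
    N0 r (∑ i ∈ s, f i) ≤ ∑ i ∈ s, N0 r (f i) := by
  exact nw_sum_le (fun j => by positivity) s f
theorem N1_sum_le {σ : Type} (hr : 0 ≤ r) (s : Finset σ) (f : σ → PR K) :
    N1 r (∑ i ∈ s, f i) ≤ ∑ i ∈ s, N1 r (f i) := by
  exact nw_sum_le (fun j => by positivity) s f
theorem N0_mul_le (hr : 0 ≤ r) (p q : PR K) : N0 r (p * q) ≤ N0 r p * N0 r q := by
  exact nw_mul_le (fun j => by positivity) (fun i j => (pow_add r i j).le) p q
theorem N1_mul_le (hr : 0 ≤ r) (p q : PR K) : N1 r (p * q) ≤ N1 r p * N1 r q := by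
  refine nw_mul_le (fun j => by positivity) (fun i j => ?_) p q
  rw [pow_add, mul_mul_mul_comm]
  refine mul_le_mul_of_nonneg_right ?_ (by positivity)
  push_cast
  nlinarith [mul_nonneg (Nat.cast_nonneg (α := ℝ) i) (Nat.cast_nonneg (α := ℝ) j)]
theorem N0_le_N1 (hr : 0 ≤ r) (p : PR K) : N0 r p ≤ N1 r p := by
  refine nw_le_nw p fun j _ => ?_
  exact le_mul_of_one_le_left (by positivity) (by linarith [Nat.cast_nonneg (α := ℝ) j])
theorem N0_mul_le' (hr : 0 ≤ r) (p q : PR K) : N0 r (p * q) ≤ N1 r p * N0 r q := by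
  exact (N0_mul_le hr p q).trans (mul_le_mul_of_nonneg_right (N0_le_N1 hr p) (N0_nonneg hr q))
theorem N0_X_pow_mul (k : ℕ) (p : PR K) : N0 r (X ^ k * p) = r ^ k * N0 r p := by
  unfold N0
  rw [nw_X_pow_mul, ← nw_smul_weight]
  congr 1
  ext j
  ring
theorem N1_X_pow_mul_ge (hr : 0 ≤ r) (k : ℕ) (p : PR K) : r ^ k * N1 r p ≤ N1 r (X ^ k * p) := by
  unfold N1
  rw [nw_X_pow_mul, ← nw_smul_weight]
  refine nw_le_nw p fun j _ => ?_
  rw [pow_add]
  push_cast
  have h : 0 ≤ (k : ℝ) * (r ^ j * r ^ k) := by positivity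
  nlinarith
theorem coeff_le_N0 (hr : 0 ≤ r) (p : PR K) (j : ℕ) :
    r ^ j * (‖(p.coeff j).re‖ + ‖(p.coeff j).im‖) ≤ N0 r p := by
  exact coeff_le_nw (v := fun j => r ^ j) (fun j => by positivity) p j
/-- Polynomials of order `k` with linearly bounded coefficients are small:
`(j + 1) ^ 2 / 4 ^ j ≤ (9 / 4) / 2 ^ j`. -/
theorem N1_small (hr : 0 ≤ r) (hr' : r ≤ 1 / 4) {k : ℕ} {p : PR K} (hk : X ^ k ∣ p)
    (h : ∀ j, ‖(p.coeff j).re‖ + ‖(p.coeff j).im‖ ≤ 2 * ((j : ℝ) + 1)) : N1 r p ≤ 10 / 2 ^ k := by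
  have hs : p.support ⊆ Finset.Ico k (k + (p.natDegree + 1)) := by
    intro j hj
    have h1 := le_natDegree_of_mem_supp j hj
    rw [mem_support_iff] at hj
    have h2 : k ≤ j := by
      by_contra h2
      exact hj (X_pow_dvd_iff.1 hk j (not_le.1 h2))
    exact Finset.mem_Ico.2 ⟨h2, by omega⟩
  unfold N1
  rw [nw_eq_sum _ p hs]
  refine (Finset.sum_le_sum (g := fun j => (9 / 2 : ℝ) * (1 / 2) ^ j) fun j _ => ?_).trans ?_
  · have h1 : r ^ j ≤ (1 / 2) ^ j * (1 / 2) ^ j := by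
      rw [← mul_pow]
      exact pow_le_pow_left₀ hr (by linarith) j
    have h2 := qa2_sq j
    have h3 : (0 : ℝ) ≤ (1 / 2) ^ j := by positivity
    calc ((j : ℝ) + 1) * r ^ j * (‖(p.coeff j).re‖ + ‖(p.coeff j).im‖)
        ≤ ((j : ℝ) + 1) * ((1 / 2) ^ j * (1 / 2) ^ j) * (2 * ((j : ℝ) + 1)) := by
          have := h j
          gcongr
      _ = 2 * (((j : ℝ) + 1) ^ 2 * (1 / 2) ^ j) * (1 / 2) ^ j := by ring
      _ ≤ 2 * (9 / 4) * (1 / 2) ^ j := by gcongr
      _ = 9 / 2 * (1 / 2) ^ j := by ring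
  · rw [← Finset.mul_sum, Finset.sum_Ico_eq_sum_range]
    simp only [pow_add]
    rw [← Finset.mul_sum]
    have h1 := sum_geometric_two_le (k + (p.natDegree + 1) - k)
    have h2 : (10 : ℝ) / 2 ^ k = 10 * (1 / 2) ^ k := by
      rw [one_div, inv_pow, div_eq_mul_inv]
    have h3 : (0 : ℝ) ≤ (1 / 2) ^ k := by positivity
    rw [h2]
    nlinarith [mul_le_mul_of_nonneg_left h1 h3]

section one
variable [NormOneClass K]
theorem N0_one : N0 r (1 : PR K) = 1 := by
  have := nw_monomial (K := K) (fun j => r ^ j) 0 1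
  simpa [N0, QuadraticAlgebra.re_one, QuadraticAlgebra.im_one] using this
theorem N1_one : N1 r (1 : PR K) = 1 := by
  have := nw_monomial (K := K) (fun j => ((j : ℝ) + 1) * r ^ j) 0 1
  simpa [N1, QuadraticAlgebra.re_one, QuadraticAlgebra.im_one] using this
theorem N0_X_pow (k : ℕ) : N0 r (X ^ k : PR K) = r ^ k := by
  rw [X_pow_eq_monomial, N0, nw_monomial]
  simp [QuadraticAlgebra.re_one, QuadraticAlgebra.im_one]
theorem N1_X_pow (k : ℕ) : N1 r (X ^ k : PR K) = ((k : ℝ) + 1) * r ^ k := by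
  rw [X_pow_eq_monomial, N1, nw_monomial]
  simp [QuadraticAlgebra.re_one, QuadraticAlgebra.im_one]
theorem N1_X : N1 r (X : PR K) = 2 * r := by
  have := N1_X_pow (K := K) (r := r) 1
  rw [pow_one] at this
  rw [this]
  norm_num
theorem N0_pow_le (hr : 0 ≤ r) (p : PR K) (n : ℕ) : N0 r (p ^ n) ≤ N0 r p ^ n := by
  induction n with
  | zero => rw [pow_zero, pow_zero, N0_one]
  | succ n ih =>
    rw [pow_succ, pow_succ]
    exact (N0_mul_le hr _ _).trans (mul_le_mul_of_nonneg_right ih (N0_nonneg hr p))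
theorem N1_pow_le (hr : 0 ≤ r) (p : PR K) (n : ℕ) : N1 r (p ^ n) ≤ N1 r p ^ n := by
  induction n with
  | zero => rw [pow_zero, pow_zero, N1_one]
  | succ n ih =>
    rw [pow_succ, pow_succ]
    exact (N1_mul_le hr _ _).trans (mul_le_mul_of_nonneg_right ih (N1_nonneg hr p))
theorem N1_prod_le {σ : Type} (hr : 0 ≤ r) (s : Finset σ) (f : σ → PR K) :
    N1 r (∏ i ∈ s, f i) ≤ ∏ i ∈ s, N1 r (f i) := by
  classical
  induction s using Finset.induction_on with
  | empty => rw [Finset.prod_empty, Finset.prod_empty, N1_one]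
  | insert a s ha ih =>
    rw [Finset.prod_insert ha, Finset.prod_insert ha]
    exact (N1_mul_le hr _ _).trans (mul_le_mul_of_nonneg_left ih (N1_nonneg hr _))
theorem N1_natCast_mul_le (hr : 0 ≤ r) (n : ℕ) (p : PR K) :
    N1 r ((n : PR K) * p) ≤ n * N1 r p := by
  induction n with
  | zero => simp [N1_zero]
  | succ n ih =>
    rw [Nat.cast_succ, Nat.cast_succ, add_mul, add_mul, one_mul, one_mul]
    exact (N1_add_le hr _ _).trans (by linarith)
theorem N1_X_pow_anti (hr : 0 ≤ r) (hr' : r ≤ 1 / 2) {m n : ℕ} (h : m ≤ n) :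
    N1 r (X ^ n : PR K) ≤ N1 r (X ^ m : PR K) := by
  rw [N1_X_pow, N1_X_pow]
  induction n, h using Nat.le_induction with
  | base => exact le_rfl
  | succ n _ ih =>
    refine le_trans ?_ ih
    have h1 : 0 ≤ r ^ n := by positivity
    have h2 : (0 : ℝ) ≤ n := Nat.cast_nonneg n
    have h3 : ((n : ℝ) + 1 + 1) * r ≤ n + 1 := by nlinarith
    rw [pow_succ]
    push_cast
    nlinarith [mul_le_mul_of_nonneg_left h3 h1]
theorem N1_X_pow_le (hr : 0 ≤ r) (hr' : r ≤ 1 / 4) (n : ℕ) : N1 r (X ^ n : PR K) ≤ 1 / 2 ^ n := by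
  rw [N1_X_pow]
  have h1 : r ^ n ≤ (1 / 2) ^ n * (1 / 2) ^ n := by
    rw [← mul_pow]
    exact pow_le_pow_left₀ hr (by linarith) n
  have h2 : (n : ℝ) + 1 ≤ 2 ^ n := by exact_mod_cast Nat.lt_two_pow_self
  calc ((n : ℝ) + 1) * r ^ n ≤ 2 ^ n * ((1 / 2) ^ n * (1 / 2) ^ n) := by gcongr
    _ = (2 * (1 / 2)) ^ n * (1 / 2) ^ n := by rw [mul_pow, mul_assoc]
    _ = 1 / 2 ^ n := by
      rw [mul_one_div_cancel two_ne_zero, one_pow, one_mul, _root_.one_div_pow]
/-- A geometric sum of an element of norm at most one half. -/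
theorem N0_geom_le (hr : 0 ≤ r) {p : PR K} (h : N0 r p ≤ 1 / 2) (n : ℕ) :
    N0 r (∑ i ∈ range n, p ^ i) ≤ 2 := by
  refine (N0_sum_le hr _ _).trans (le_trans (Finset.sum_le_sum fun i _ => ?_)
    (sum_geometric_two_le n))
  exact (N0_pow_le hr p i).trans (pow_le_pow_left₀ (N0_nonneg hr p) h i)
end one

section
variable {ι κ μ : Type} [Fintype ι] [Fintype κ] [Fintype μ]
theorem nm_zero : nm r (0 : Matrix ι κ (PR K)) = 0 := by
  simp [nm, N1_zero]
theorem nm_nonneg (hr : 0 ≤ r) (A : Matrix ι κ (PR K)) : 0 ≤ nm r A := by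
  exact Finset.sum_nonneg fun i _ => Finset.sum_nonneg fun j _ => N1_nonneg hr _
theorem nm_neg (A : Matrix ι κ (PR K)) : nm r (-A) = nm r A := by
  simp [nm, N1_neg]
theorem nm_add_le (hr : 0 ≤ r) (A B : Matrix ι κ (PR K)) : nm r (A + B) ≤ nm r A + nm r B := by
  simp only [nm, ← Finset.sum_add_distrib]
  exact Finset.sum_le_sum fun i _ => Finset.sum_le_sum fun j _ => N1_add_le hr _ _
theorem nm_sub_le (hr : 0 ≤ r) (A B : Matrix ι κ (PR K)) : nm r (A - B) ≤ nm r A + nm r B := by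
  rw [sub_eq_add_neg, ← nm_neg B]
  exact nm_add_le hr A (-B)
theorem nm_mul_le (hr : 0 ≤ r) (A : Matrix ι κ (PR K)) (B : Matrix κ μ (PR K)) :
    nm r (A * B) ≤ nm r A * nm r B := by
  have h : ∀ k, ∑ j, N1 r (B k j) ≤ nm r B := fun k =>
    Finset.single_le_sum (f := fun k => ∑ j, N1 r (B k j))
      (fun k _ => Finset.sum_nonneg fun j _ => N1_nonneg hr _) (mem_univ k)
  calc nm r (A * B) ≤ ∑ i, ∑ j, ∑ k, N1 r (A i k) * N1 r (B k j) := by
        refine Finset.sum_le_sum fun i _ => Finset.sum_le_sum fun j _ => ?_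
        rw [mul_apply]
        exact (N1_sum_le hr _ _).trans (Finset.sum_le_sum fun k _ => N1_mul_le hr _ _)
    _ = ∑ i, ∑ k, N1 r (A i k) * ∑ j, N1 r (B k j) := by
        refine Finset.sum_congr rfl fun i _ => ?_
        rw [Finset.sum_comm]
        simp only [Finset.mul_sum]
    _ ≤ ∑ i, ∑ k, N1 r (A i k) * nm r B :=
        Finset.sum_le_sum fun i _ => Finset.sum_le_sum fun k _ =>
          mul_le_mul_of_nonneg_left (h k) (N1_nonneg hr _)
    _ = nm r A * nm r B := by simp only [← Finset.sum_mul]; rfl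
theorem entry_le_nm (hr : 0 ≤ r) (A : Matrix ι κ (PR K)) (i : ι) (j : κ) :
    N1 r (A i j) ≤ nm r A := by
  refine le_trans ?_ (Finset.single_le_sum (f := fun i => ∑ j, N1 r (A i j))
    (fun k _ => Finset.sum_nonneg fun j _ => N1_nonneg hr _) (mem_univ i))
  exact Finset.single_le_sum (f := fun j => N1 r (A i j)) (fun j _ => N1_nonneg hr _) (mem_univ j)
theorem nm_single [DecidableEq ι] [DecidableEq κ] (a : ι) (b : κ) (p : PR K) :
    nm r (single a b p) = N1 r p := by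
  unfold nm
  rw [Finset.sum_eq_single a, Finset.sum_eq_single b]
  · rw [single_apply_same]
  · intro j _ hj
    rw [single_apply_of_col_ne _ _ (Ne.symm hj), N1_zero]
  · simp
  · intro i _ hi
    refine Finset.sum_eq_zero fun j _ => ?_
    rw [single_apply_of_row_ne (Ne.symm hi), N1_zero]
  · simp
theorem nm_mul_sub_one [DecidableEq ι] (hr : 0 ≤ r) {A B : Matrix ι ι (PR K)} {a b : ℝ}
    (hA : nm r (A - 1) ≤ a) (hB : nm r (B - 1) ≤ b) : nm r (A * B - 1) ≤ a + b + a * b := by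
  have e : A * B - 1 = (A - 1) + (B - 1) + (A - 1) * (B - 1) := by
    simp only [mul_sub, sub_mul, mul_one, one_mul]; abel
  have h1 := nm_add_le hr ((A - 1) + (B - 1)) ((A - 1) * (B - 1))
  have h2 := nm_add_le hr (A - 1) (B - 1)
  have h3 := nm_mul_le hr (A - 1) (B - 1)
  have h4 := mul_le_mul hA hB (nm_nonneg hr _) ((nm_nonneg hr _).trans hA)
  rw [e]
  linarith
/-- `A' - 1 = -(A - 1) - (A - 1) (A' - 1)`. -/
theorem nm_inv_sub_one [DecidableEq ι] (hr : 0 ≤ r) {A A' : Matrix ι ι (PR K)} {ε : ℝ}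
    (h : A * A' = 1) (hA : nm r (A - 1) ≤ ε) (hε : ε ≤ 1 / 2) : nm r (A' - 1) ≤ 2 * ε := by
  have e : A' - 1 = -(A - 1) - (A - 1) * (A' - 1) := by
    have : (A - 1) * (A' - 1) = A * A' - A - A' + 1 := by
      simp only [mul_sub, sub_mul, mul_one, one_mul]; abel
    rw [this, h]
    abel
  have h1 := nm_sub_le hr (-(A - 1)) ((A - 1) * (A' - 1))
  rw [← e, nm_neg] at h1
  have h3 := nm_mul_le hr (A - 1) (A' - 1)
  have h4 := mul_le_mul_of_nonneg_right (hA.trans hε) (nm_nonneg hr (A' - 1))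
  linarith
/-- `G C G' = C + (G - 1) C + C (G' - 1) + (G - 1) C (G' - 1)`. -/
theorem nm_conj_le [DecidableEq ι] (hr : 0 ≤ r) {G G' C : Matrix ι ι (PR K)} {b : ℝ}
    (hG : nm r (G - 1) ≤ b) (hG' : nm r (G' - 1) ≤ b) : nm r (G * C * G') ≤ (1 + b) ^ 2 * nm r C := by
  have e1 : G * C = C + (G - 1) * C := by
    simp only [sub_mul, one_mul]; abel
  have e2 : G * C * G' = G * C + G * C * (G' - 1) := by
    simp only [mul_sub, mul_one]; abel
  have hb : 0 ≤ b := (nm_nonneg hr _).trans hG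
  have h1 : nm r (G * C) ≤ (1 + b) * nm r C := by
    have a1 := nm_add_le hr C ((G - 1) * C)
    have a2 := nm_mul_le hr (G - 1) C
    have a3 := mul_le_mul_of_nonneg_right hG (nm_nonneg hr C)
    rw [← e1] at a1
    linarith
  have a1 := nm_add_le hr (G * C) (G * C * (G' - 1))
  have a2 := nm_mul_le hr (G * C) (G' - 1)
  have a3 := mul_le_mul_of_nonneg_left hG' (nm_nonneg hr (G * C))
  rw [← e2] at a1
  have a4 := mul_le_mul_of_nonneg_right h1 (show 0 ≤ 1 + b by linarith)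
  nlinarith
end

end Pool.Agent.Lib.MP_71aad1_an.SS
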