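import Pool.Agent.Lib.MP_71aad1_an.QA1
import Pool.Agent.Lib.MP_71aad1_an.QA2

set_option autoImplicit false

namespace Pool.Agent.Lib.MP_71aad1_an.SS

open Polynomial Matrix Finset Sum

/-! Norms over the integers, unit monomials, rounding and dilation. -/

variable {r : ℝ}

theorem qa3_neg_mul (a b : RZ) : -a * b = -(a * b) := by ring
theorem qa3_mul_neg (a b : RZ) : a * -b = -(a * b) := by ring

theorem qa3_nw_le {K K' : Type} [NormedCommRing K] [NormedCommRing K'] {v v' : ℕ → ℝ}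
    {p : PR K} {q : PR K'} (h : ∀ j, v j * (‖(p.coeff j).re‖ + ‖(p.coeff j).im‖) ≤
      v' j * (‖(q.coeff j).re‖ + ‖(q.coeff j).im‖)) : nw v p ≤ nw v' q := by
  rw [nw_eq_sum v p (subset_union_left (s₂ := q.support)),
    nw_eq_sum v' q (subset_union_right (s₁ := p.support))]
  exact sum_le_sum fun j _ => h j

theorem qa3_nw_eq {K K' : Type} [NormedCommRing K] [NormedCommRing K'] {v v' : ℕ → ℝ}
    {p : PR K} {q : PR K'} (h : ∀ j, v j * (‖(p.coeff j).re‖ + ‖(p.coeff j).im‖) =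
      v' j * (‖(q.coeff j).re‖ + ‖(q.coeff j).im‖)) : nw v p = nw v' q :=
  le_antisymm (qa3_nw_le fun j => (h j).le) (qa3_nw_le fun j => (h j).ge)

theorem qa3_coeff {R S : Type} [Semiring R] [Semiring S] (f : ℕ → R → S) (hf : ∀ j, f j 0 = 0)
    (p : R[X]) : ∃ q : S[X], ∀ j, q.coeff j = f j (p.coeff j) := by
  refine ⟨∑ i ∈ p.support, monomial i (f i (p.coeff i)), fun j => ?_⟩
  rw [finsetSum_coeff]
  simp only [coeff_monomial, sum_ite_eq']
  split_ifs with h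
  · rfl
  · rw [notMem_support_iff.1 h, hf]

theorem qa3_dvd {R S : Type} [Semiring R] [Semiring S] {f : ℕ → R → S} (hf : ∀ j, f j 0 = 0)
    {p : R[X]} {q : S[X]} (hq : ∀ j, q.coeff j = f j (p.coeff j)) {k : ℕ} (h : X ^ k ∣ p) :
    X ^ k ∣ q :=
  X_pow_dvd_iff.2 fun j hj => by rw [hq, X_pow_dvd_iff.1 h j hj, hf]

theorem qa3_coeff' {K K' : Type} [CommRing K] [CommRing K'] (f : ℕ → K → K')
    (hf : ∀ j, f j 0 = 0) {p : PR K} {k : ℕ} (h : X ^ k ∣ p) : ∃ q : PR K', X ^ k ∣ q ∧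
      ∀ j, q.coeff j = ⟨f j (p.coeff j).re, f j (p.coeff j).im⟩ := by
  have hg : ∀ j, (⟨f j (0 : Lam K).re, f j (0 : Lam K).im⟩ : Lam K') = 0 := fun j => by
    ext <;> simp [hf]
  obtain ⟨q, hq⟩ := qa3_coeff (fun j (c : Lam K) => (⟨f j c.re, f j c.im⟩ : Lam K')) hg p
  exact ⟨q, qa3_dvd (f := fun j (c : Lam K) => (⟨f j c.re, f j c.im⟩ : Lam K')) hg hq h, hq⟩

theorem qa3_nw_X_pow (v : ℕ → ℝ) (j : ℕ) : nw v (X ^ j : RZ) = v j := by
  rw [X_pow_eq_monomial, nw_monomial]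
  simp [QuadraticAlgebra.re_one, QuadraticAlgebra.im_one]

theorem qa3_tdiv (a : ℤ) (n : ℕ) : (n : ℝ) * ‖a.tdiv n‖ ≤ ‖a‖ := by
  have h1 : n * (a.tdiv n).natAbs ≤ a.natAbs := by
    rw [Int.natAbs_tdiv, Int.natAbs_natCast]
    exact Nat.mul_div_le _ _
  rw [Int.norm_eq_abs, Int.norm_eq_abs, ← Int.cast_abs, ← Int.cast_abs, Int.abs_eq_natAbs,
    Int.abs_eq_natAbs, Int.cast_natCast, Int.cast_natCast]
  exact_mod_cast h1

theorem qa3_tmod (a : ℤ) {n : ℕ} (hn : 0 < n) : ‖a.tmod n‖ ≤ n ∧ ‖a.tmod n‖ ≤ ‖a‖ := by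
  rw [Int.norm_eq_abs, Int.norm_eq_abs, ← Int.cast_abs, ← Int.cast_abs, Int.abs_eq_natAbs,
    Int.abs_eq_natAbs, Int.cast_natCast, Int.cast_natCast, Int.natAbs_tmod, Int.natAbs_natCast]
  exact ⟨by exact_mod_cast (Nat.mod_lt _ hn).le, by exact_mod_cast Nat.mod_le _ _⟩

theorem qa3_trunc (x : ℝ) : ∃ a : ℤ, ‖a‖ ≤ ‖x‖ ∧ ‖x - a‖ ≤ 1 := by
  rcases le_total 0 x with h | h
  · have h1 := Int.floor_le x
    have h2 := Int.lt_floor_add_one x
    have h3 : (0 : ℝ) ≤ (⌊x⌋ : ℤ) := by exact_mod_cast Int.floor_nonneg.2 h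
    refine ⟨⌊x⌋, ?_, ?_⟩
    · rw [Int.norm_eq_abs, Real.norm_eq_abs, abs_of_nonneg h3, abs_of_nonneg h]
      exact h1
    · rw [Real.norm_eq_abs, abs_le]
      constructor <;> linarith
  · have h1 := Int.le_ceil x
    have h2 := Int.ceil_lt_add_one x
    have h3 : ((⌈x⌉ : ℤ) : ℝ) ≤ 0 := by exact_mod_cast Int.ceil_nonpos.2 h
    refine ⟨⌈x⌉, ?_, ?_⟩
    · rw [Int.norm_eq_abs, Real.norm_eq_abs, abs_of_nonpos h3, abs_of_nonpos h]
      linarith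
    · rw [Real.norm_eq_abs, abs_le]
      constructor <;> linarith

theorem qa3_re_pow (s : ℝ) (n : ℕ) : (⟨s, 0⟩ : Lam ℝ) ^ n = ⟨s ^ n, 0⟩ := by
  induction n with
  | zero => ext <;> simp [QuadraticAlgebra.re_one, QuadraticAlgebra.im_one]
  | succ n ih =>
    rw [pow_succ, ih]
    ext <;> simp [pow_succ]

theorem qa3_norm_mul (a : ℝ) (z : ℤ) : ‖a * (z : ℝ)‖ = |a| * ‖z‖ := by
  rw [norm_mul, Real.norm_eq_abs, Int.norm_cast_real]

theorem nw_gR_mul (v : ℕ → ℝ) (p : RZ) : nw v (gR * p) = nw v p := by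
  refine qa3_nw_eq fun j => ?_
  rw [gR, coeff_C_mul]
  simp [gL, add_comm]
theorem N1_gR_mul (p : RZ) : N1 r (gR * p) = N1 r p := by exact nw_gR_mul _ p
theorem N0_gR_mul (p : RZ) : N0 r (gR * p) = N0 r p := by exact nw_gR_mul _ p
theorem N1_gR : N1 r gR = 1 := by
  rw [← mul_one gR, N1_gR_mul, N1_one]
theorem UM.nw {j : ℕ} {m : RZ} (h : UM j m) (v : ℕ → ℝ) : nw v m = v j := by
  rcases h with rfl | rfl | rfl | rfl
  · exact qa3_nw_X_pow v j
  · rw [nw_neg, qa3_nw_X_pow]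
  · rw [nw_gR_mul, qa3_nw_X_pow]
  · rw [nw_neg, nw_gR_mul, qa3_nw_X_pow]
theorem UM.N1 {j : ℕ} {m : RZ} (h : UM j m) : N1 r m = N1 r (X ^ j : RZ) := by
  rw [SS.N1, SS.N1, h.nw, qa3_nw_X_pow]
theorem UM.N0 {j : ℕ} {m : RZ} (h : UM j m) : N0 r m = r ^ j := by exact h.nw _
theorem UM.N0_mul {j : ℕ} {m : RZ} (h : UM j m) (p : RZ) : SS.N0 r (m * p) = r ^ j * SS.N0 r p := by
  rcases h with rfl | rfl | rfl | rfl
  · exact N0_X_pow_mul j p
  · rw [qa3_neg_mul, N0_neg, N0_X_pow_mul]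
  · rw [mul_assoc, N0_gR_mul, N0_X_pow_mul]
  · rw [qa3_neg_mul, N0_neg, mul_assoc, N0_gR_mul, N0_X_pow_mul]
theorem UM.X_pow (j : ℕ) : UM j (X ^ j) := by exact Or.inl rfl
theorem UM.neg {j : ℕ} {m : RZ} (h : UM j m) : UM j (-m) := by
  rcases h with rfl | rfl | rfl | rfl <;> simp [UM]
theorem UM.mul {i j : ℕ} {m m' : RZ} (h : UM i m) (h' : UM j m') : UM (i + j) (m * m') := by
  have h1 : ∀ a : RZ, gR * (gR * a) = a := fun a => by
    rw [← mul_assoc, gR_mul_gR, one_mul]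
  rcases h with rfl | rfl | rfl | rfl <;> rcases h' with rfl | rfl | rfl | rfl <;>
    simp only [UM, pow_add, qa3_neg_mul, qa3_mul_neg, neg_neg, h1, mul_left_comm (X ^ i) gR,
      mul_assoc, true_or, or_true]
theorem UM.dvd {j : ℕ} {m : RZ} (h : UM j m) : X ^ j ∣ m := by
  rcases h with rfl | rfl | rfl | rfl
  · exact dvd_rfl
  · exact ⟨-1, by ring⟩
  · exact ⟨gR, by ring⟩
  · exact ⟨-gR, by ring⟩
theorem UM.split {i j : ℕ} {m : RZ} (h : UM (i + j) m) : ∃ m', UM i m' ∧ m = m' * X ^ j := by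
  rcases h with rfl | rfl | rfl | rfl
  · exact ⟨X ^ i, Or.inl rfl, by ring⟩
  · exact ⟨-X ^ i, Or.inr (Or.inl rfl), by ring⟩
  · exact ⟨gR * X ^ i, Or.inr (Or.inr (Or.inl rfl)), by ring⟩
  · exact ⟨-(gR * X ^ i), Or.inr (Or.inr (Or.inr rfl)), by ring⟩
theorem UM.zero_al {m : RZ} (h : UM 0 m) : ∃ i : Fin 6, i ≠ 5 ∧ m = al gR X i := by
  rcases h with rfl | rfl | rfl | rfl
  · exact ⟨1, by decide, by simp [al]⟩
  · exact ⟨2, by decide, by simp [al]⟩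
  · exact ⟨3, by decide, by simp [al]⟩
  · exact ⟨4, by decide, by simp [al]⟩
theorem N1_al (hr : 0 ≤ r) (hr' : r ≤ 1 / 2) (i : Fin 6) : N1 r (al gR X i) ≤ 1 := by
  fin_cases i
  · exact (N1_zero (K := ℤ)).le.trans zero_le_one
  · exact (N1_one (K := ℤ)).le
  · exact ((N1_neg _).trans (N1_one (K := ℤ))).le
  · exact N1_gR.le
  · exact ((N1_neg _).trans N1_gR).le
  · exact (N1_X (K := ℤ)).le.trans (by linarith)
theorem N1_mono_le (hr : 0 ≤ r) (hr' : r ≤ 1 / 2) {q : ℕ × Bool} (h : 1 ≤ q.1) :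
    N1 r (mono q) ≤ 2 * r := by
  rw [(PM.mono q).um.N1, ← N1_X (K := ℤ)]
  simpa using N1_X_pow_anti (K := ℤ) hr hr' h
theorem N0_eq_ev {p : RZ} (hp : Pos p) : N0 r p = ev r p := by
  rw [N0, nw, ev, coe_eval₂RingHom, eval₂_eq_sum, Polynomial.sum, Polynomial.sum]
  refine sum_congr rfl fun j _ => ?_
  have h1 : (0 : ℝ) ≤ (p.coeff j).re := by exact_mod_cast (hp j).1
  have h2 : (0 : ℝ) ≤ (p.coeff j).im := by exact_mod_cast (hp j).2
  rw [Int.norm_eq_abs, Int.norm_eq_abs, abs_of_nonneg h1, abs_of_nonneg h2, mul_comm]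
  simp [augZ]
theorem N1_le_ev {ρ θ : ℝ} (hr : 0 ≤ r) (hρ : 0 < ρ) {M : ℕ} {p : RZ} (hp : Pos p) (hM : X ^ M ∣ p)
    (h : ∀ j, M ≤ j → ((j : ℝ) + 1) * (r / ρ) ^ j ≤ θ) : N1 r p ≤ θ * ev ρ p := by
  rw [← N0_eq_ev hp, N0, ← nw_smul_weight]
  refine nw_le_nw p fun j hj => ?_
  have h1 := h j (not_lt.1 fun h' => hj (X_pow_dvd_iff.1 hM j h'))
  rwa [div_pow, ← mul_div_assoc, div_le_iff₀ (pow_pos hρ j)] at h1
/-- `(j + 1) ^ 2 q ^ j → 0` for `0 ≤ q < 1`, and `M ≤ j + 1`. -/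
theorem exists_theta {q θ : ℝ} (h0 : 0 ≤ q) (h1 : q < 1) (hθ : 0 < θ) :
    ∃ M₀ : ℕ, ∀ M, M₀ ≤ M → ∀ j, M ≤ j → ((M : ℝ) + 1) * (((j : ℝ) + 1) * q ^ j) ≤ θ := by
  have ha : |q| < 1 := by rwa [abs_of_nonneg h0]
  have h2 := ((tendsto_pow_const_mul_const_pow_of_abs_lt_one 2 ha).add
    ((tendsto_pow_const_mul_const_pow_of_abs_lt_one 1 ha).const_mul 2)).add
    (tendsto_pow_const_mul_const_pow_of_abs_lt_one 0 ha)
  rw [mul_zero, add_zero, add_zero] at h2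
  obtain ⟨M₀, hM⟩ := Filter.eventually_atTop.1 (h2.eventually (ge_mem_nhds hθ))
  refine ⟨M₀, fun M h3 j h4 => le_trans ?_ (hM j (h3.trans h4))⟩
  have h5 : (M : ℝ) ≤ j := by exact_mod_cast h4
  calc ((M : ℝ) + 1) * (((j : ℝ) + 1) * q ^ j) ≤ ((j : ℝ) + 1) * (((j : ℝ) + 1) * q ^ j) := by
        gcongr
    _ = _ := by ring

theorem qa3_list_int {j : ℕ} {m : RZ} (h : UM j m) (a : ℤ) :
    ∃ l : List (ℕ × RZ), (∀ x ∈ l, x.1 = j ∧ UM j x.2) ∧ (l.map Prod.snd).sum = (a : RZ) * m ∧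
      ∀ v : ℕ → ℝ, (l.map fun x => v x.1).sum = v j * ‖a‖ := by
  obtain ⟨n, rfl | rfl⟩ := Int.eq_nat_or_neg a
  · refine ⟨List.replicate n (j, m), fun x hx => ?_, by simp, fun v => by simp [mul_comm]⟩
    rw [List.eq_of_mem_replicate hx]
    exact ⟨rfl, h⟩
  · refine ⟨List.replicate n (j, -m), fun x hx => ?_, by simp [qa3_neg_mul], fun v => by simp [mul_comm]⟩
    rw [List.eq_of_mem_replicate hx]
    exact ⟨rfl, h.neg⟩

theorem qa3_list_set (p : RZ) (s : Finset ℕ) :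
    ∃ l : List (ℕ × RZ), (∀ x ∈ l, x.1 ∈ s ∧ UM x.1 x.2) ∧
      (l.map Prod.snd).sum = ∑ j ∈ s, monomial j (p.coeff j) ∧
      ∀ v : ℕ → ℝ, (l.map fun x => v x.1).sum =
        ∑ j ∈ s, v j * (‖(p.coeff j).re‖ + ‖(p.coeff j).im‖) := by
  induction s using Finset.induction_on with
  | empty => exact ⟨[], by simp, by simp, by simp⟩
  | insert j s hj ih =>
    obtain ⟨l, h1, h2, h3⟩ := ih
    obtain ⟨l₁, a1, a2, a3⟩ := qa3_list_int (UM.X_pow j) (p.coeff j).re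
    obtain ⟨l₂, b1, b2, b3⟩ :=
      qa3_list_int (j := j) (m := gR * X ^ j) (Or.inr (Or.inr (Or.inl rfl))) (p.coeff j).im
    refine ⟨l₁ ++ (l₂ ++ l), fun x hx => ?_, ?_, fun v => ?_⟩
    · rcases List.mem_append.1 hx with hx | hx
      · rw [(a1 x hx).1]
        exact ⟨mem_insert_self _ _, (a1 x hx).2⟩
      rcases List.mem_append.1 hx with hx | hx
      · rw [(b1 x hx).1]
        exact ⟨mem_insert_self _ _, (b1 x hx).2⟩
      · exact ⟨mem_insert_of_mem (h1 x hx).1, (h1 x hx).2⟩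
    · have h4 : (C (p.coeff j) : RZ) = ((p.coeff j).re : RZ) + ((p.coeff j).im : RZ) * gR := by
        conv_lhs => rw [Lam_eq (p.coeff j)]
        rw [map_add, map_mul, map_intCast, map_intCast, gR]
      rw [List.map_append, List.map_append, List.sum_append, List.sum_append, a2, b2, h2,
        sum_insert hj, ← C_mul_X_pow_eq_monomial (n := j), h4]
      ring
    · rw [List.map_append, List.map_append, List.sum_append, List.sum_append, a3, b3, h3,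
        sum_insert hj]
      ring

theorem qa3_deriv {j : ℕ} {m : RZ} (h : UM j m) : derivative (X * m) = ((j : RZ) + 1) * m := by
  have h1 : derivative (X * X ^ j : RZ) = ((j : RZ) + 1) * X ^ j := by
    rw [← pow_succ', derivative_X_pow_succ, map_add, map_natCast, map_one]
  have h2 : derivative (X * (gR * X ^ j) : RZ) = ((j : RZ) + 1) * (gR * X ^ j) := by
    rw [mul_left_comm, gR, derivative_C_mul, h1, mul_left_comm]
  rcases h with rfl | rfl | rfl | rfl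
  · exact h1
  · rw [qa3_mul_neg, derivative_neg, h1, qa3_mul_neg]
  · exact h2
  · rw [qa3_mul_neg, derivative_neg, h2, qa3_mul_neg]

theorem qa3_deriv_list (l : List (ℕ × RZ)) (h : ∀ x ∈ l, UM x.1 x.2) :
    (l.map fun x => ((x.1 : RZ) + 1) * x.2).sum = derivative (X * (l.map Prod.snd).sum) := by
  induction l with
  | nil => simp
  | cons x l ih =>
    rw [List.map_cons, List.map_cons, List.sum_cons, List.sum_cons, mul_add, map_add,
      ih fun y hy => h y (List.mem_cons_of_mem _ hy), qa3_deriv (h x List.mem_cons_self)]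

/-- Every polynomial is a sum of signed unit monomials without cancellation. -/
theorem exists_UM_list {k : ℕ} {p : RZ} (h : X ^ k ∣ p) :
    ∃ l : List (ℕ × RZ), (∀ x ∈ l, k ≤ x.1 ∧ UM x.1 x.2) ∧ (l.map Prod.snd).sum = p ∧
      ∀ v : ℕ → ℝ, (l.map fun x => v x.1).sum = nw v p := by
  obtain ⟨l, h1, h2, h3⟩ := qa3_list_set p p.support
  refine ⟨l, fun x hx => ⟨not_lt.1 fun h' => ?_, (h1 x hx).2⟩, ?_, fun v => ?_⟩
  · exact mem_support_iff.1 (h1 x hx).1 (X_pow_dvd_iff.1 h _ h')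
  · rw [h2, ← as_sum_support]
  · rw [h3, nw_eq_sum v p subset_rfl]

/-- Division of the coefficient of `t ^ j` by `j + 1` with `Int.tdiv`, `Int.tmod`; apply
`exists_UM_list` to the quotient polynomial. -/
theorem split_t (hr : 0 ≤ r) {k : ℕ} {τ : RZ} (h : X ^ k ∣ τ) :
    ∃ (l : List (ℕ × RZ)) (ρ : RZ), (∀ x ∈ l, k ≤ x.1 ∧ UM x.1 x.2) ∧
      τ = (l.map fun x => ((x.1 : RZ) + 1) * x.2).sum + ρ ∧ X ^ k ∣ ρ ∧
      (∀ j, ‖(ρ.coeff j).re‖ + ‖(ρ.coeff j).im‖ ≤ 2 * ((j : ℝ) + 1)) ∧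
      (l.map fun x => ((x.1 : ℝ) + 1) * N1 r (X ^ x.1 : RZ)).sum ≤ N1 r τ := by
  obtain ⟨q, hq', hq⟩ := qa3_coeff' (fun j (c : ℤ) => c.tdiv (j + 1 : ℕ)) (by simp) h
  obtain ⟨ρ, hρ', hρ⟩ := qa3_coeff' (fun j (c : ℤ) => c.tmod (j + 1 : ℕ)) (by simp) h
  obtain ⟨l, h1, h2, h3⟩ := exists_UM_list hq'
  refine ⟨l, ρ, h1, ?_, hρ', fun j => ?_, ?_⟩
  · rw [qa3_deriv_list l fun x hx => (h1 x hx).2, h2]
    ext1 j
    rw [coeff_add, coeff_derivative, coeff_X_mul, hq, hρ, ← Nat.cast_succ]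
    have a1 := Int.mul_tdiv_add_tmod (τ.coeff j).re (j + 1 : ℕ)
    have a2 := Int.mul_tdiv_add_tmod (τ.coeff j).im (j + 1 : ℕ)
    ext
    · simp only [QuadraticAlgebra.re_add, QuadraticAlgebra.re_mul, QuadraticAlgebra.re_natCast,
        QuadraticAlgebra.im_natCast]
      linarith
    · simp only [QuadraticAlgebra.im_add, QuadraticAlgebra.im_mul, QuadraticAlgebra.re_natCast,
        QuadraticAlgebra.im_natCast]
      linarith
  · have a1 := (qa3_tmod (τ.coeff j).re j.succ_pos).1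
    have a2 := (qa3_tmod (τ.coeff j).im j.succ_pos).1
    rw [hρ]
    rw [Nat.cast_succ (R := ℝ)] at a1 a2
    linarith
  · rw [h3 fun j => ((j : ℝ) + 1) * N1 r (X ^ j : RZ)]
    refine qa3_nw_le fun j => ?_
    have a1 := qa3_tdiv (τ.coeff j).re (j + 1)
    have a2 := qa3_tdiv (τ.coeff j).im (j + 1)
    rw [Nat.cast_succ (R := ℝ)] at a1 a2
    rw [hq, N1_X_pow, mul_right_comm, mul_comm]
    exact mul_le_mul_of_nonneg_left (by linarith) (by positivity)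

/-- Division of all coefficients by two with `Int.tdiv`, `Int.tmod`. -/
theorem split_two (hr : 0 ≤ r) {k : ℕ} {τ : RZ} (h : X ^ k ∣ τ) :
    ∃ γ' γ : RZ, τ = 2 * γ' + γ ∧ X ^ k ∣ γ' ∧ X ^ k ∣ γ ∧ N1 r γ' ≤ N1 r τ ∧ N1 r γ ≤ N1 r τ ∧
      ∀ j, ‖(γ.coeff j).re‖ + ‖(γ.coeff j).im‖ ≤ 2 * ((j : ℝ) + 1) := by
  obtain ⟨q, hq', hq⟩ := qa3_coeff' (fun _ (c : ℤ) => c.tdiv (2 : ℕ)) (by simp) h
  obtain ⟨ρ, hρ', hρ⟩ := qa3_coeff' (fun _ (c : ℤ) => c.tmod (2 : ℕ)) (by simp) h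
  refine ⟨q, ρ, ?_, hq', hρ', qa3_nw_le fun j => ?_, qa3_nw_le fun j => ?_, fun j => ?_⟩
  · ext1 j
    rw [two_mul, coeff_add, coeff_add, hq, hρ]
    have a1 := Int.mul_tdiv_add_tmod (τ.coeff j).re (2 : ℕ)
    have a2 := Int.mul_tdiv_add_tmod (τ.coeff j).im (2 : ℕ)
    ext
    · simp only [QuadraticAlgebra.re_add]
      push_cast at a1 ⊢
      linarith
    · simp only [QuadraticAlgebra.im_add]
      push_cast at a2 ⊢
      linarith
  · have a1 := qa3_tdiv (τ.coeff j).re 2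
    have a2 := qa3_tdiv (τ.coeff j).im 2
    have a3 := norm_nonneg ((τ.coeff j).re.tdiv (2 : ℕ))
    have a4 := norm_nonneg ((τ.coeff j).im.tdiv (2 : ℕ))
    rw [Nat.cast_two (R := ℝ)] at a1 a2
    rw [hq]
    exact mul_le_mul_of_nonneg_left (by linarith) (by positivity)
  · rw [hρ]
    exact mul_le_mul_of_nonneg_left (add_le_add (qa3_tmod _ two_pos).2 (qa3_tmod _ two_pos).2)
      (by positivity)
  · have a : ∀ z : ℤ, ‖z.tmod (2 : ℕ)‖ ≤ 1 := fun z => by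
      have h1 : (z.tmod (2 : ℕ)).natAbs ≤ 1 := by
        rw [Int.natAbs_tmod, Int.natAbs_natCast]
        omega
      rw [Int.norm_eq_abs, ← Int.cast_abs, Int.abs_eq_natAbs, Int.cast_natCast]
      exact_mod_cast h1
    have a1 := a (τ.coeff j).re
    have a2 := a (τ.coeff j).im
    have a3 : (0 : ℝ) ≤ j := Nat.cast_nonneg j
    rw [hρ]
    linarith

theorem dil_coeff (s : ℝ) (p : RZ) (j : ℕ) :
    (dil s p).coeff j = (⟨s ^ j * (p.coeff j).re, s ^ j * (p.coeff j).im⟩ : Lam ℝ) := by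
  induction p using Polynomial.induction_on' with
  | add p q hp hq =>
    rw [map_add, coeff_add, coeff_add, hp, hq]
    ext <;> simp [mul_add]
  | monomial n c =>
    rw [dil, coe_eval₂RingHom, eval₂_monomial, mul_pow, ← map_pow, qa3_re_pow, RingHom.comp_apply,
      ← mul_assoc, ← map_mul, C_mul_X_pow_eq_monomial, coeff_monomial, coeff_monomial]
    split_ifs with h
    · subst h
      ext <;> simp [toR, mul_comm]
    · ext <;> simp
theorem N1_dil_le (hr : 0 ≤ r) {s : ℝ} (h0 : 0 ≤ s) (h1 : s ≤ 1) (p : RZ) :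
    N1 r (dil s p) ≤ N1 r p := by
  refine qa3_nw_le fun j => mul_le_mul_of_nonneg_left ?_ (by positivity)
  rw [dil_coeff, qa3_norm_mul, qa3_norm_mul, ← mul_add, abs_of_nonneg (pow_nonneg h0 j)]
  exact mul_le_of_le_one_left (by positivity) (pow_le_one₀ h0 h1)
theorem N1_dil_one (p : RZ) : N1 r (dil 1 p) = N1 r p := by
  refine qa3_nw_eq fun j => ?_
  rw [dil_coeff, qa3_norm_mul, qa3_norm_mul, one_pow, abs_one, one_mul, one_mul]
theorem dil_dvd (s : ℝ) {k : ℕ} {p : RZ} (h : X ^ k ∣ p) : X ^ k ∣ dil s p := by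
  refine X_pow_dvd_iff.2 fun j hj => ?_
  rw [dil_coeff, X_pow_dvd_iff.1 h j hj]
  ext <;> simp
theorem dil_zero {p : RZ} (h : X ∣ p) : dil 0 p = 0 := by
  ext1 j
  rw [dil_coeff, coeff_zero]
  rcases j with _ | j
  · rw [X_dvd_iff.1 h]
    ext <;> simp
  · ext <;> simp
/-- `|s ^ j - s' ^ j| ≤ j |s - s'|` on the unit interval. -/
theorem N1_dil_sub (hr : 0 ≤ r) {s s' : ℝ} (h0 : 0 ≤ s) (h1 : s ≤ 1) (h0' : 0 ≤ s') (h1' : s' ≤ 1)
    {j : ℕ} {m : RZ} (h : UM j m) : N1 r (dil s m - dil s' m) ≤ j * |s - s'| * N1 r m := by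
  have a1 : N1 r (dil s m - dil s' m) =
      nw (fun i => |s ^ i - s' ^ i| * (((i : ℝ) + 1) * r ^ i)) m := by
    refine qa3_nw_eq fun i => ?_
    rw [coeff_sub, dil_coeff, dil_coeff, QuadraticAlgebra.re_sub, QuadraticAlgebra.im_sub,
      ← sub_mul, ← sub_mul, qa3_norm_mul, qa3_norm_mul]
    ring
  have a2 : |s ^ j - s' ^ j| ≤ j * |s - s'| := by
    refine (abs_pow_sub_pow_le s s' j).trans ?_
    rw [mul_comm (j : ℝ)]
    refine mul_le_of_le_one_right (by positivity) (pow_le_one₀ (by positivity) ?_)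
    rw [abs_of_nonneg h0, abs_of_nonneg h0']
    exact max_le h1 h1'
  rw [a1, h.nw, N1, h.nw]
  exact mul_le_mul_of_nonneg_right a2 (by positivity)
/-- Rounding all coefficients towards zero; use `N1_small`. -/
theorem exists_round (hr : 0 ≤ r) (hr' : r ≤ 1 / 4) {k : ℕ} {p : RR} (h : X ^ k ∣ p) :
    ∃ q : RZ, X ^ k ∣ q ∧ N1 r q ≤ N1 r p ∧ N1 r (p - dil 1 q) ≤ 10 / 2 ^ k := by
  choose t ht1 ht2 using qa3_trunc
  have ht0 : t 0 = 0 := norm_le_zero_iff.1 (by simpa using ht1 0)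
  obtain ⟨q, h1, hq⟩ := qa3_coeff' (fun _ => t) (fun _ => ht0) h
  refine ⟨q, h1, qa3_nw_le fun j => ?_, N1_small hr hr' (dvd_sub h (dil_dvd 1 h1)) fun j => ?_⟩
  · rw [hq]
    exact mul_le_mul_of_nonneg_left (add_le_add (ht1 _) (ht1 _)) (by positivity)
  · rw [coeff_sub, dil_coeff, QuadraticAlgebra.re_sub, QuadraticAlgebra.im_sub, hq, one_pow,
      one_mul, one_mul]
    have a3 : (0 : ℝ) ≤ j := Nat.cast_nonneg j
    linarith [ht2 (p.coeff j).re, ht2 (p.coeff j).im]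
theorem nm_map_dil_le {ι κ : Type} [Fintype ι] [Fintype κ] (hr : 0 ≤ r) {s : ℝ} (h0 : 0 ≤ s)
    (h1 : s ≤ 1) (A : Matrix ι κ RZ) : nm r (A.map (dil s)) ≤ nm r A := by
  exact sum_le_sum fun i _ => sum_le_sum fun j _ => N1_dil_le hr h0 h1 _
theorem nm_map_dil_one {ι κ : Type} [Fintype ι] [Fintype κ] (A : Matrix ι κ RZ) :
    nm r (A.map (dil 1)) = nm r A := by
  exact sum_congr rfl fun i _ => sum_congr rfl fun j _ => N1_dil_one _

end Pool.Agent.Lib.MP_71aad1_an.SS
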