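import Pool.Agent.Lib.MP_71aad1_an.QA2

set_option autoImplicit false

namespace Pool.Agent.Lib.MP_71aad1_an.SS

open Polynomial Matrix Finset Sum

/-! Row bounds, products of many near identity matrices, and the trace of a unimodular matrix. -/

variable {K : Type} [NormedCommRing K] {r : ℝ} {ι κ : Type} [Fintype ι] [Fintype κ]

theorem Sw_nonneg (hr : 0 ≤ r) {w : ι → ℝ} (hw : ∀ z, 0 ≤ w z) (n : ι → PR K) : 0 ≤ Sw r w n :=
  Finset.sum_nonneg fun z _ => mul_nonneg (N1_nonneg hr _) (hw z)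
theorem Sw_zero (w : ι → ℝ) : Sw r w (0 : ι → PR K) = 0 := by
  simp [Sw, N1_zero]
theorem Sw_neg (w : ι → ℝ) (n : ι → PR K) : Sw r w (-n) = Sw r w n := by
  simp [Sw, N1_neg]
theorem Sw_add_le (hr : 0 ≤ r) {w : ι → ℝ} (hw : ∀ z, 0 ≤ w z) (n n' : ι → PR K) :
    Sw r w (n + n') ≤ Sw r w n + Sw r w n' := by
  unfold Sw
  rw [← Finset.sum_add_distrib]
  refine Finset.sum_le_sum fun z _ => ?_
  rw [← add_mul]
  exact mul_le_mul_of_nonneg_right (N1_add_le hr _ _) (hw z)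
theorem Sw_single [DecidableEq ι] (w : ι → ℝ) (z : ι) (p : PR K) :
    Sw r w (Pi.single z p) = N1 r p * w z := by
  unfold Sw
  rw [Finset.sum_eq_single z]
  · rw [Pi.single_eq_same]
  · intro y _ hy
    rw [Pi.single_eq_of_ne hy, N1_zero, zero_mul]
  · intro h
    exact absurd (Finset.mem_univ z) h
theorem Sw_smul_le (hr : 0 ≤ r) {w : ι → ℝ} (hw : ∀ z, 0 ≤ w z) (p : PR K) (n : ι → PR K) :
    Sw r w (p • n) ≤ N1 r p * Sw r w n := by
  unfold Sw
  rw [Finset.mul_sum]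
  refine Finset.sum_le_sum fun z _ => ?_
  rw [← mul_assoc]
  exact mul_le_mul_of_nonneg_right (N1_mul_le hr _ _) (hw z)

omit [Fintype κ] in
theorem qa4_N1_vecMul (hr : 0 ≤ r) (n : ι → PR K) (C : Matrix ι κ (PR K)) (h : κ) :
    N1 r ((n ᵥ* C) h) ≤ ∑ z, N1 r (n z) * N1 r (C z h) :=
  (N1_sum_le hr _ _).trans (Finset.sum_le_sum fun _ _ => N1_mul_le hr _ _)

theorem Sw_vecMul_le (hr : 0 ≤ r) {w : ι → ℝ} {w' : κ → ℝ} (hw' : ∀ z, 0 ≤ w' z) {θ : ℝ}
    (n : ι → PR K) {C : Matrix ι κ (PR K)} (hC : ∀ z, Sw r w' (C z) ≤ θ * w z) :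
    Sw r w' (n ᵥ* C) ≤ θ * Sw r w n := by
  calc Sw r w' (n ᵥ* C) ≤ ∑ h, (∑ z, N1 r (n z) * N1 r (C z h)) * w' h :=
        Finset.sum_le_sum fun h _ =>
          mul_le_mul_of_nonneg_right (qa4_N1_vecMul hr n C h) (hw' h)
    _ = ∑ z, N1 r (n z) * Sw r w' (C z) := by
        simp only [Sw, Finset.sum_mul, Finset.mul_sum, mul_assoc]
        exact Finset.sum_comm
    _ ≤ ∑ z, N1 r (n z) * (θ * w z) :=
        Finset.sum_le_sum fun z _ => mul_le_mul_of_nonneg_left (hC z) (N1_nonneg hr _)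
    _ = θ * Sw r w n := by
        simp only [Sw, Finset.mul_sum]
        exact Finset.sum_congr rfl fun z _ => by ring
theorem N0_vecMul_le (hr : 0 ≤ r) {w : ι → ℝ} {c : ℝ} (n : ι → PR K) {β : Matrix ι κ (PR K)} (h : κ)
    (hβ : ∀ z, N0 r (β z h) ≤ c * w z) : N0 r ((n ᵥ* β) h) ≤ c * Sw r w n := by
  calc N0 r ((n ᵥ* β) h) ≤ ∑ z, N1 r (n z) * N0 r (β z h) :=
        (N0_sum_le hr _ _).trans (Finset.sum_le_sum fun _ _ => N0_mul_le' hr _ _)
    _ ≤ ∑ z, N1 r (n z) * (c * w z) :=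
        Finset.sum_le_sum fun z _ => mul_le_mul_of_nonneg_left (hβ z) (N1_nonneg hr _)
    _ = c * Sw r w n := by
        simp only [Sw, Finset.mul_sum]
        exact Finset.sum_congr rfl fun z _ => by ring
theorem entry_le_Sw (hr : 0 ≤ r) {w : ι → ℝ} (hw : ∀ z, 0 ≤ w z) (n : ι → PR K) (z : ι) :
    N1 r (n z) * w z ≤ Sw r w n :=
  Finset.single_le_sum (f := fun z => N1 r (n z) * w z)
    (fun y _ => mul_nonneg (N1_nonneg hr _) (hw y)) (Finset.mem_univ z)

theorem RowB.zero {w : ι → ℝ} {ε : ℝ} (h : 0 ≤ ε) : RowB r w (0 : ι → PR K) ε :=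
  ⟨by rwa [Sw_zero], fun z => by rwa [Pi.zero_apply, N1_zero]⟩
theorem RowB.nonneg (hr : 0 ≤ r) {w : ι → ℝ} (hw : ∀ z, 0 ≤ w z) {n : ι → PR K} {ε : ℝ}
    (h : RowB r w n ε) : 0 ≤ ε :=
  (Sw_nonneg hr hw n).trans h.1
theorem RowB.mono {w : ι → ℝ} {n : ι → PR K} {ε ε' : ℝ} (h : RowB r w n ε) (h' : ε ≤ ε') :
    RowB r w n ε' :=
  ⟨h.1.trans h', fun z => (h.2 z).trans h'⟩
theorem RowB.neg {w : ι → ℝ} {n : ι → PR K} {ε : ℝ} (h : RowB r w n ε) : RowB r w (-n) ε :=
  ⟨by rw [Sw_neg]; exact h.1, fun z => by rw [Pi.neg_apply, N1_neg]; exact h.2 z⟩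
theorem RowB.add (hr : 0 ≤ r) {w : ι → ℝ} (hw : ∀ z, 0 ≤ w z) {n n' : ι → PR K} {ε ε' : ℝ}
    (h : RowB r w n ε) (h' : RowB r w n' ε') : RowB r w (n + n') (ε + ε') :=
  ⟨(Sw_add_le hr hw n n').trans (add_le_add h.1 h'.1),
    fun z => (N1_add_le hr _ _).trans (add_le_add (h.2 z) (h'.2 z))⟩
theorem RowB.sub (hr : 0 ≤ r) {w : ι → ℝ} (hw : ∀ z, 0 ≤ w z) {n n' : ι → PR K} {ε ε' : ℝ}
    (h : RowB r w n ε) (h' : RowB r w n' ε') : RowB r w (n - n') (ε + ε') := by
  rw [sub_eq_add_neg]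
  exact h.add hr hw h'.neg
theorem RowB.smul (hr : 0 ≤ r) {w : ι → ℝ} (hw : ∀ z, 0 ≤ w z) (p : PR K) {n : ι → PR K} {ε : ℝ}
    (h : RowB r w n ε) : RowB r w (p • n) (N1 r p * ε) :=
  ⟨(Sw_smul_le hr hw p n).trans (mul_le_mul_of_nonneg_left h.1 (N1_nonneg hr p)),
    fun z => (N1_mul_le hr _ _).trans (mul_le_mul_of_nonneg_left (h.2 z) (N1_nonneg hr p))⟩
theorem RowB.single [DecidableEq ι] (hr : 0 ≤ r) {w : ι → ℝ} (z : ι) (hw : w z ≤ 1) (p : PR K) :
    RowB r w (Pi.single z p) (N1 r p) := by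
  refine ⟨?_, fun y => ?_⟩
  · rw [Sw_single]
    exact mul_le_of_le_one_right (N1_nonneg hr p) hw
  · by_cases hy : y = z
    · rw [hy, Pi.single_eq_same]
    · rw [Pi.single_eq_of_ne hy, N1_zero]
      exact N1_nonneg hr p
theorem RowB.vecMul (hr : 0 ≤ r) {w : ι → ℝ} {w' : κ → ℝ} (hw' : ∀ z, 0 ≤ w' z) {θ ε : ℝ}
    (hθ : 0 ≤ θ) {n : ι → PR K} (hn : Sw r w n ≤ ε) {C : Matrix ι κ (PR K)}
    (hC : ∀ z, RowB r w' (C z) (θ * w z)) : RowB r w' (n ᵥ* C) (θ * ε) := by
  refine ⟨(Sw_vecMul_le hr hw' n fun z => (hC z).1).trans (mul_le_mul_of_nonneg_left hn hθ),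
    fun h => ?_⟩
  calc N1 r ((n ᵥ* C) h) ≤ ∑ z, N1 r (n z) * N1 r (C z h) := qa4_N1_vecMul hr n C h
    _ ≤ ∑ z, N1 r (n z) * (θ * w z) :=
        Finset.sum_le_sum fun z _ => mul_le_mul_of_nonneg_left ((hC z).2 h) (N1_nonneg hr _)
    _ = θ * Sw r w n := by
        simp only [Sw, Finset.mul_sum]
        exact Finset.sum_congr rfl fun z _ => by ring
    _ ≤ θ * ε := mul_le_mul_of_nonneg_left hn hθ
theorem RowB.of_sum (hr : 0 ≤ r) {w : ι → ℝ} (hw : ∀ z, w z ≤ 1) {n : ι → PR K} {ε : ℝ}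
    (h : ∑ z, N1 r (n z) ≤ ε) : RowB r w n ε :=
  ⟨(Finset.sum_le_sum fun z _ => mul_le_of_le_one_right (N1_nonneg hr _) (hw z)).trans h,
    fun z => (Finset.single_le_sum (f := fun z => N1 r (n z))
      (fun _ _ => N1_nonneg hr _) (Finset.mem_univ z)).trans h⟩

/-- Induction on the list: with `P = (1 + A) P'`, row `i` of `P - 1` is
`(P' - 1) i + A i + A i ᵥ* (P' - 1)`; use `RowB.vecMul` with `θ = 2 τ`. -/
theorem prodEst [DecidableEq ι] (hr : 0 ≤ r) {w : ι → ℝ} (hw : ∀ z, 0 ≤ w z) {τ : ℝ} (hτ0 : 0 ≤ τ)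
    (hτ : τ ≤ 1 / 2) (l : List (Matrix ι ι (PR K) × (ι → ℝ)))
    (h : ∀ x ∈ l, ∀ i, RowB r w ((x.1 - 1) i) (x.2 i))
    (hs : ∀ i, (l.map fun x => x.2 i).sum ≤ τ * w i) (i : ι) :
    RowB r w (((l.map Prod.fst).prod - 1) i) (2 * (l.map fun x => x.2 i).sum) ∧
    RowB r w (((l.map Prod.fst).prod - 1 - (l.map fun x => x.1 - 1).sum) i)
      (2 * τ * (l.map fun x => x.2 i).sum) := by
  induction l generalizing i with
  | nil =>
    simp only [List.map_nil, List.prod_nil, List.sum_nil, sub_self, mul_zero]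
    exact ⟨RowB.zero le_rfl, RowB.zero le_rfl⟩
  | cons x l ih =>
    have hx : ∀ j, RowB r w ((x.1 - 1) j) (x.2 j) := h x List.mem_cons_self
    have hx0 : ∀ j, 0 ≤ x.2 j := fun j => (hx j).nonneg hr hw
    have hs' : ∀ j, (l.map fun x => x.2 j).sum ≤ τ * w j := fun j => by
      have h1 := hs j
      rw [List.map_cons, List.sum_cons] at h1
      linarith [hx0 j]
    have ih' := fun j => ih (fun y hy => h y (List.mem_cons_of_mem _ hy)) hs' j
    have hC : ∀ z, RowB r w (((l.map Prod.fst).prod - 1) z) (2 * τ * w z) := fun z =>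
      (ih' z).1.mono (by linarith [hs' z])
    have hv : RowB r w ((x.1 - 1) i ᵥ* ((l.map Prod.fst).prod - 1)) (2 * τ * x.2 i) :=
      RowB.vecMul hr hw (by linarith) (hx i).1 hC
    have hrow : (x.1 - 1) i ᵥ* ((l.map Prod.fst).prod - 1) =
        ((x.1 - 1) * ((l.map Prod.fst).prod - 1)) i := rfl
    rw [hrow] at hv
    simp only [List.map_cons, List.prod_cons, List.sum_cons]
    constructor
    · have e : x.1 * (l.map Prod.fst).prod - 1 = ((l.map Prod.fst).prod - 1) + (x.1 - 1) +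
          (x.1 - 1) * ((l.map Prod.fst).prod - 1) := by
        simp only [sub_mul, mul_sub, mul_one, one_mul]
        abel
      rw [e]
      refine ((((ih' i).1.add hr hw (hx i)).add hr hw hv)).mono ?_
      nlinarith [hx0 i]
    · have e : x.1 * (l.map Prod.fst).prod - 1 - (x.1 - 1 + (l.map fun x => x.1 - 1).sum) =
          ((l.map Prod.fst).prod - 1 - (l.map fun x => x.1 - 1).sum) +
          (x.1 - 1) * ((l.map Prod.fst).prod - 1) := by
        simp only [sub_mul, mul_sub, mul_one, one_mul]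
        abel
      rw [e]
      refine ((ih' i).2.add hr hw hv).mono (le_of_eq ?_)
      ring

/-- The elementary symmetric function of degree `j` times `j!` is at most the `j`-th power of
the sum. -/
theorem qa4_esymm_le {σ : Type} [DecidableEq σ] {c : σ → ℝ} (hc : ∀ x, 0 ≤ c x) (s : Finset σ)
    (j : ℕ) : (j.factorial : ℝ) * ∑ S ∈ s.powersetCard j, ∏ x ∈ S, c x ≤ (∑ x ∈ s, c x) ^ j := by
  induction s using Finset.induction_on generalizing j with
  | empty =>
    cases j with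
    | zero => simp
    | succ j =>
      rw [Finset.powersetCard_eq_empty.2 (by simp)]
      simp
  | insert a s ha ih =>
    cases j with
    | zero => simp
    | succ j =>
      have hσ : 0 ≤ ∑ x ∈ s, c x := Finset.sum_nonneg fun x _ => hc x
      have hinj : Set.InjOn (insert a) (s.powersetCard j : Set (Finset σ)) := by
        intro S hS T hT e
        have hS' : a ∉ S := fun h => ha ((Finset.mem_powersetCard.1 hS).1 h)
        have hT' : a ∉ T := fun h => ha ((Finset.mem_powersetCard.1 hT).1 h)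
        rw [← Finset.erase_insert hS', ← Finset.erase_insert hT', e]
      have hdis : Disjoint (s.powersetCard (j + 1)) ((s.powersetCard j).image (insert a)) := by
        rw [Finset.disjoint_left]
        intro S hS hS'
        obtain ⟨T, _, rfl⟩ := Finset.mem_image.1 hS'
        exact ha ((Finset.mem_powersetCard.1 hS).1 (Finset.mem_insert_self a T))
      have h1 : ∑ S ∈ s.powersetCard j, ∏ x ∈ insert a S, c x =
          c a * ∑ S ∈ s.powersetCard j, ∏ x ∈ S, c x := by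
        rw [Finset.mul_sum]
        refine Finset.sum_congr rfl fun S hS => ?_
        exact Finset.prod_insert fun h => ha ((Finset.mem_powersetCard.1 hS).1 h)
      rw [Finset.powersetCard_succ_insert ha, Finset.sum_union hdis, Finset.sum_image hinj, h1,
        Finset.sum_insert ha, add_comm (c a)]
      have h2 := ih (j + 1)
      have h3 := ih j
      have h4 := pow_add_mul_le_add_pow hσ (b := c a) (by linarith [hc a]) (j + 1)
      rw [Nat.add_sub_cancel] at h4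
      have h5 : ((j + 1).factorial : ℝ) * (c a * ∑ S ∈ s.powersetCard j, ∏ x ∈ S, c x) ≤
          ((j + 1 : ℕ) : ℝ) * (∑ x ∈ s, c x) ^ j * c a := by
        rw [Nat.factorial_succ, Nat.cast_mul]
        have h6 := mul_le_mul_of_nonneg_left h3
          (mul_nonneg (Nat.cast_nonneg (α := ℝ) (j + 1)) (hc a))
        linarith
      rw [mul_add]
      linarith

theorem qa4_det_le [NormOneClass K] {σ : Type} [Fintype σ] [DecidableEq σ] (hr : 0 ≤ r)
    (M : Matrix σ σ (PR K)) {c : σ → ℝ} (h : ∀ x y, N1 r (M x y) ≤ c x) :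
    N1 r (det M) ≤ ((Fintype.card σ).factorial : ℝ) * ∏ x, c x := by
  rw [Matrix.det_apply']
  refine (N1_sum_le hr _ _).trans ?_
  rw [← Fintype.card_perm, ← Finset.card_univ, ← nsmul_eq_mul]
  refine Finset.sum_le_card_nsmul _ _ _ fun π _ => ?_
  have h1 : N1 r ((((Equiv.Perm.sign π : ℤˣ) : ℤ) : PR K) * ∏ i, M (π i) i) =
      N1 r (∏ i, M (π i) i) := by
    rcases Int.units_eq_one_or (Equiv.Perm.sign π) with e | e
    · rw [e, Units.val_one, Int.cast_one, one_mul]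
    · have e2 : ∀ q : PR K, (((-1 : ℤˣ) : ℤ) : PR K) * q = -q := fun q => by
        rw [Units.val_neg, Units.val_one, Int.cast_neg, Int.cast_one]
        exact neg_one_mul q
      rw [e, e2, N1_neg]
  rw [h1, ← Equiv.prod_comp π c]
  exact (N1_prod_le hr _ _).trans
    (Finset.prod_le_prod (fun i _ => N1_nonneg hr _) fun i _ => h _ _)

/-- Expand with `Matrix.coeff_det_one_add_X_smul_eq_sum_minors` (or multilinearity in the rows):
`det (1 + n)` is the sum of the principal minors, a minor on `S` has norm at most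
`|S|! ∏ c`, and `j! ∑_{|S| = j} ∏_S c ≤ (∑ c) ^ j` (`Finset.sum_pow_eq_sum_piAntidiag`, or
induction on `j`, or `Finset.prod_univ_sum` with injective maps). -/
theorem detTr [NormOneClass K] [DecidableEq ι] (hr : 0 ≤ r) (n : Matrix ι ι (PR K)) {c : ι → ℝ}
    {γ : ℝ} (h : ∀ x y, N1 r (n x y) ≤ c x) (hc : ∑ x, c x ≤ γ) (hγ : γ ≤ 1 / 2) :
    N1 r (det (1 + n) - 1 - trace n) ≤ 2 * γ ^ 2 := by
  have hc0 : ∀ x, 0 ≤ c x := fun x => (N1_nonneg hr _).trans (h x x)
  have hσ : 0 ≤ ∑ x, c x := Finset.sum_nonneg fun x _ => hc0 x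
  have hγ0 : 0 ≤ γ := hσ.trans hc
  have hQ : ∀ j, N1 r ((det (1 + (X : (PR K)[X]) • n.map C)).coeff j) ≤ γ ^ j := by
    intro j
    rw [Matrix.coeff_det_one_add_X_smul_eq_sum_minors]
    refine (N1_sum_le hr _ _).trans (le_trans ?_
      ((qa4_esymm_le hc0 Finset.univ j).trans (pow_le_pow_left₀ hσ hc j)))
    rw [Finset.mul_sum]
    refine Finset.sum_le_sum fun S hS => ?_
    have h1 := qa4_det_le hr (n.submatrix (Subtype.val : S → ι) (Subtype.val : S → ι))
      (c := fun x => c x) fun x y => h x y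
    rwa [Fintype.card_coe, (Finset.mem_powersetCard.1 hS).2, Finset.prod_coe_sort S c] at h1
  have h1 := Matrix.det_one_add_smul (1 : PR K) n
  rw [one_smul, mul_one, one_pow, mul_one] at h1
  have h2 : det (1 + n) - 1 - trace n =
      (det (1 + (X : (PR K)[X]) • n.map C)).divX.divX.eval 1 := by
    rw [h1]
    ring
  rw [h2, Polynomial.eval_eq_sum_range]
  refine (N1_sum_le hr _ _).trans ?_
  have h3 : ∀ m : ℕ, ∑ i ∈ Finset.range m, γ ^ (i + 1 + 1) ≤ 2 * γ ^ 2 - 2 * γ ^ (m + 2) := by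
    intro m
    induction m with
    | zero => simp
    | succ m ih =>
      rw [Finset.sum_range_succ]
      have h4 : 0 ≤ γ ^ (m + 2) := pow_nonneg hγ0 _
      have h5 : γ ^ (m + 1 + 2) = γ * γ ^ (m + 2) := by ring
      have h6 : γ ^ (m + 1 + 1) = γ ^ (m + 2) := rfl
      rw [h5, h6]
      nlinarith
  refine le_trans (Finset.sum_le_sum fun i _ => ?_) ((h3 _).trans ?_)
  · rw [one_pow, mul_one, Polynomial.coeff_divX, Polynomial.coeff_divX]
    exact hQ _
  · exact sub_le_self _ (mul_nonneg zero_le_two (pow_nonneg hγ0 _))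

/-- `Matrix.det_one_add_smul` after writing `n = t ^ d • n'`. -/
theorem detTr_dvd {A : Type} [CommRing A] [DecidableEq ι] (n : Matrix ι ι A) {a : A}
    (h : ∀ x y, a ∣ n x y) : a ^ 2 ∣ det (1 + n) - 1 - trace n := by
  choose n' hn' using h
  have e : n = a • Matrix.of n' := by
    ext x y
    exact hn' x y
  rw [e, Matrix.det_one_add_smul, Matrix.trace_smul, smul_eq_mul]
  exact ⟨(det (1 + (X : A[X]) • (Matrix.of n').map C)).divX.divX.eval a, by ring⟩

theorem det_mat {A : Type} [CommRing A] [DecidableEq ι] (g : El ι A) : det (mat g) = 1 := by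
  obtain ⟨g, hg⟩ := g
  change det (g : Matrix ι ι A) = 1
  induction hg using Subgroup.closure_induction with
  | mem g hg =>
    obtain ⟨a, b, p, rfl⟩ := hg
    by_cases h : a = b
    · subst h
      rw [xg_diag, Units.val_one, det_one]
    · rw [val_xg h]
      exact Matrix.det_transvection_of_ne a b h p
  | one => rw [Units.val_one, det_one]
  | mul g h _ _ hg hh => rw [Units.val_mul, det_mul, hg, hh, mul_one]
  | inv g _ hg =>
    have h1 : det ((g⁻¹ : GLn ι A) : Matrix ι ι A) * det (g : Matrix ι ι A) = 1 := by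
      rw [← det_mul, Units.inv_mul, det_one]
    rwa [hg, mul_one] at h1

end Pool.Agent.Lib.MP_71aad1_an.SS
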