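import Pool.Agent.Lib.MP_71aad1_an.QDef2

set_option autoImplicit false

namespace Pool.Agent.Lib.MP_71aad1_an.SS

open Polynomial Matrix Finset Sum

/-! Extension by the identity, block unipotent elements, and the shape of the allowed row and
column operations. -/

section
variable {ι ι' ι'' A : Type} [Fintype ι] [DecidableEq ι] [Fintype ι'] [DecidableEq ι']
  [Fintype ι''] [DecidableEq ι''] [CommRing A]

omit [Fintype ι'] [DecidableEq ι] in
theorem qr1_l {κ : Type} (e : ι ↪ ι') (N : Matrix ι κ A) (a : ι) (j : κ) :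
    ((embM A e)ᵀ * N) (e a) j = N a j := by
  rw [mul_apply, Finset.sum_eq_single a]
  · simp [embM]
  · intro b _ hb
    simp [embM, hb]
  · simp
omit [Fintype ι'] [DecidableEq ι] in
theorem qr1_l0 {κ : Type} (e : ι ↪ ι') (N : Matrix ι κ A) {i : ι'} (h : ∀ a, e a ≠ i) (j : κ) :
    ((embM A e)ᵀ * N) i j = 0 := by
  simp [mul_apply, embM, h]
omit [Fintype ι'] [DecidableEq ι] in
theorem qr1_r {κ : Type} (e : ι ↪ ι') (N : Matrix κ ι A) (i : κ) (b : ι) :
    (N * embM A e) i (e b) = N i b := by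
  rw [mul_apply, Finset.sum_eq_single b]
  · simp [embM]
  · intro a _ ha
    simp [embM, ha]
  · simp
omit [Fintype ι'] [DecidableEq ι] in
theorem qr1_r0 {κ : Type} (e : ι ↪ ι') (N : Matrix κ ι A) (i : κ) {j : ι'} (h : ∀ a, e a ≠ j) :
    (N * embM A e) i j = 0 := by
  simp [mul_apply, embM, h]
omit [Fintype ι] [DecidableEq ι] [Fintype ι'] [DecidableEq ι'] in
theorem qr1_cases (e : ι ↪ ι') (i : ι') : (∃ a, e a = i) ∨ ∀ a, e a ≠ i := by
  by_cases h : ∃ a, e a = i
  · exact Or.inl h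
  · exact Or.inr fun a ha => h ⟨a, ha⟩
omit [Fintype ι] [DecidableEq ι] [Fintype ι''] in
theorem qr1_trans (e : ι ↪ ι') (e' : ι' ↪ ι'') :
    embM A (e.trans e') = embM A e * embM A e' := by
  ext a j
  rw [mul_apply, Finset.sum_eq_single (e a)]
  · simp [embM]
  · intro b _ hb
    simp [embM, Ne.symm hb]
  · simp

theorem padM_apply (e : ι ↪ ι') (M : Matrix ι ι A) (a b : ι) : padM e M (e a) (e b) = M a b := by
  rw [padM, Matrix.add_apply, qr1_r, qr1_l, Matrix.sub_apply, one_apply, one_apply]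
  simp only [e.injective.eq_iff]
  ring
theorem padM_of_row (e : ι ↪ ι') (M : Matrix ι ι A) {i : ι'} (h : ∀ a, e a ≠ i) (j : ι') :
    padM e M i j = (1 : Matrix ι' ι' A) i j := by
  rw [padM, Matrix.add_apply, Matrix.mul_assoc, qr1_l0 e _ h, add_zero]
theorem padM_of_col (e : ι ↪ ι') (M : Matrix ι ι A) (i : ι') {j : ι'} (h : ∀ a, e a ≠ j) :
    padM e M i j = (1 : Matrix ι' ι' A) i j := by
  rw [padM, Matrix.add_apply, qr1_r0 e _ _ h, add_zero]
theorem padM_row (e : ι ↪ ι') (M : Matrix ι ι A) (a : ι) : padM e M (e a) = M a ᵥ* embM A e := by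
  funext j
  change _ = (M * embM A e) a j
  rcases qr1_cases e j with ⟨b, rfl⟩ | h
  · rw [padM_apply, qr1_r]
  · rw [padM_of_col e M _ h, qr1_r0 e _ _ h, one_apply_ne (h a)]
theorem padM_padM (e : ι ↪ ι') (e' : ι' ↪ ι'') (M : Matrix ι ι A) :
    padM e' (padM e M) = padM (e.trans e') M := by
  simp only [padM, add_sub_cancel_left, qr1_trans, transpose_mul, Matrix.mul_assoc]
theorem padM_refl (M : Matrix ι ι A) : padM (Function.Embedding.refl ι) M = M := by
  ext a b
  exact padM_apply (Function.Embedding.refl ι) M a b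
theorem padM_equiv (e : ι ≃ ι') (M : Matrix ι ι A) : padM e.toEmbedding M = reindex e e M := by
  ext i j
  obtain ⟨a, rfl⟩ := e.surjective i
  obtain ⟨b, rfl⟩ := e.surjective j
  simpa using padM_apply e.toEmbedding M a b
theorem padM_inl (M : Matrix ι ι A) :
    padM (Function.Embedding.inl : ι ↪ ι ⊕ ι') M = fromBlocks M 0 0 1 := by
  ext i j
  rcases i with a | a
  · rcases j with b | b
    · exact padM_apply Function.Embedding.inl M a b
    · rw [padM_of_col _ _ _ (by simp)]
      simp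
  · rw [padM_of_row _ _ (by simp)]
    rcases j with b | b <;> simp [one_apply]
theorem padM_inr (M : Matrix ι' ι' A) :
    padM (Function.Embedding.inr : ι' ↪ ι ⊕ ι') M = fromBlocks 1 0 0 M := by
  ext i j
  rcases i with a | a
  · rw [padM_of_row _ _ (by simp)]
    rcases j with b | b <;> simp [one_apply]
  · rcases j with b | b
    · rw [padM_of_col _ _ _ (by simp)]
      simp
    · exact padM_apply Function.Embedding.inr M a b
/-- Reindex along `ι' ≃ ι ⊕ (complement of the range)`, or use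
`Matrix.det_one_add_mul_comm` with `embM_mul`. -/
theorem det_padM (e : ι ↪ ι') (M : Matrix ι ι A) : det (padM e M) = det M := by
  rw [padM, Matrix.mul_assoc, det_one_add_mul_comm, Matrix.mul_assoc, embM_mul, Matrix.mul_one,
    add_sub_cancel]
theorem vecMul_embM_apply (e : ι ↪ ι') (v : ι → A) (a : ι) : (v ᵥ* embM A e) (e a) = v a := by
  exact qr1_r e (of fun _ : Unit => v) () a
theorem vecMul_embM_of_not (e : ι ↪ ι') (v : ι → A) {i : ι'} (h : ∀ a, e a ≠ i) :
    (v ᵥ* embM A e) i = 0 := by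
  exact qr1_r0 e (of fun _ : Unit => v) () h

/-- A product of commuting letters: induction over the finite set of pairs. -/
theorem block_mem (G : Subgroup (GLn ι A)) (S : ι → Prop) (C : Matrix ι ι A)
    (h : ∀ i j, C i j ≠ 0 → S i ∧ ¬ S j) (hG : ∀ i j, C i j ≠ 0 → xg i j (C i j) ∈ G) :
    ∃ g ∈ G, g.val = 1 + C := by
  have key : ∀ T : Finset (ι × ι), ∃ g ∈ G, g.val = 1 + ∑ p ∈ T, single p.1 p.2 (C p.1 p.2) := by
    intro T
    induction T using Finset.induction_on with
    | empty => exact ⟨1, one_mem _, by simp⟩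
    | insert p T hp ih =>
      obtain ⟨g, hg, e⟩ := ih
      rw [Finset.sum_insert hp]
      by_cases h0 : C p.1 p.2 = 0
      · exact ⟨g, hg, by rw [e, h0, single_zero, zero_add]⟩
      have h1 := h _ _ h0
      have h2 : p.1 ≠ p.2 := fun e => h1.2 (e ▸ h1.1)
      refine ⟨xg p.1 p.2 (C p.1 p.2) * g, mul_mem (hG _ _ h0) hg, ?_⟩
      have h3 : single p.1 p.2 (C p.1 p.2) * ∑ p ∈ T, single p.1 p.2 (C p.1 p.2) = 0 := by
        rw [Finset.mul_sum]
        refine Finset.sum_eq_zero fun q _ => ?_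
        by_cases h4 : C q.1 q.2 = 0
        · rw [h4, single_zero, mul_zero]
        · exact single_mul_single_of_ne _ _ _ _
            (fun e : p.2 = q.1 => h1.2 (e ▸ (h _ _ h4).1)) _
      rw [Units.val_mul, val_xg h2, e, add_mul, one_mul, mul_add, mul_one, h3]
      abel
  obtain ⟨g, hg, e⟩ := key univ
  refine ⟨g, hg, ?_⟩
  rw [e, Fintype.sum_prod_type]
  exact congrArg (1 + ·) (matrix_eq_sum_single C).symm
theorem block_el (S : ι → Prop) (C : Matrix ι ι A) (h : ∀ i j, C i j ≠ 0 → S i ∧ ¬ S j) :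
    ∃ g : El ι A, mat g = 1 + C := by
  obtain ⟨g, hg, e⟩ := block_mem (EG ι A) S C h
    (fun i j _ => Subgroup.subset_closure ⟨i, j, _, rfl⟩)
  exact ⟨⟨g, hg⟩, e⟩
theorem mat_prodL_block {σ : Type} [Fintype σ] [DecidableEq σ] (f g : σ → ι)
    (h : ∀ s s', f s ≠ g s') (c : σ → A) :
    mat (prodL (univ : Finset σ).toList (fun s p => (el ι A).x (f s) (g s) p) c) =
      1 + ∑ s, single (f s) (g s) (c s) := by
  have key : ∀ l : List σ, mat (prodL l (fun s p => (el ι A).x (f s) (g s) p) c) =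
      1 + (l.map fun s => single (f s) (g s) (c s)).sum := by
    intro l
    induction l with
    | nil => simp [prodL]
    | cons s l ih =>
      have h3 : single (f s) (g s) (c s) * (l.map fun s => single (f s) (g s) (c s)).sum = 0 := by
        rw [← List.sum_map_mul_left]
        refine List.sum_eq_zero fun x hx => ?_
        obtain ⟨s', -, rfl⟩ := List.mem_map.1 hx
        exact single_mul_single_of_ne _ _ _ _ (h s' s).symm _
      unfold prodL at ih ⊢
      rw [List.map_cons, List.prod_cons, mat_mul, ih, mat_x (h s s), List.map_cons, List.sum_cons,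
        add_mul, one_mul, mul_add, mul_one, h3]
      abel
  rw [key, Finset.sum_map_toList]

omit [DecidableEq ι] in
theorem qr1_off (e e' : ι ↪ ι') (hd : ∀ a b, e a ≠ e' b) (M : Matrix ι ι A) :
    ∃ g : El ι' A, mat g = 1 + (embM A e)ᵀ * M * embM A e' := by
  refine block_el (fun i => ∃ a, e a = i) _ fun i j hij => ⟨?_, ?_⟩
  · rcases qr1_cases e i with h | h
    · exact h
    · exact absurd (by rw [Matrix.mul_assoc, qr1_l0 e _ h]) hij
  · rintro ⟨a, rfl⟩
    exact hij (qr1_r0 e' _ _ fun b => (hd a b).symm)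
omit [Fintype ι] [DecidableEq ι] in
theorem qr1_orth (e e' : ι ↪ ι') (hd : ∀ a b, e a ≠ e' b) : embM A e * (embM A e')ᵀ = 0 := by
  ext a b
  rw [mul_apply, Finset.sum_eq_single (e a)]
  · simp [embM, (hd a b).symm]
  · intro i _ hi
    simp [embM, Ne.symm hi]
  · simp

/-- With blocks along `e` and `e'`: `[[1, A], [c, 1]] = [[1, 0], [c, 1]] [[1, A], [0, 1 - c A]]
= [[1 - A c, A], [0, 1]] [[1, 0], [c, 1]]`. Use `embM e * (embM e')ᵀ = 0`. -/
theorem vaserstein (e e' : ι ↪ ι') (hd : ∀ a b, e a ≠ e' b) (M c : Matrix ι ι A) (g : El ι A)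
    (h : mat g = 1 - c * M) : ∃ g' : El ι' A, mat g' = padM e (1 - M * c) := by
  have hd' : ∀ a b, e' a ≠ e b := fun a b => (hd b a).symm
  obtain ⟨u, hu⟩ := qr1_off e e' hd M
  obtain ⟨u', hu'⟩ := qr1_off e e' hd (-M)
  obtain ⟨l, hl⟩ := qr1_off e' e hd' c
  obtain ⟨l', hl'⟩ := qr1_off e' e hd' (-c)
  rw [Matrix.mul_neg, Matrix.neg_mul] at hu' hl'
  have m : ∀ (f f' k k' : ι ↪ ι') (P Q : Matrix ι ι A),
      (embM A f)ᵀ * P * embM A f' * ((embM A k)ᵀ * Q * embM A k') =
        (embM A f)ᵀ * (P * (embM A f' * (embM A k)ᵀ) * Q) * embM A k' := by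
    intro f f' k k' P Q
    simp only [Matrix.mul_assoc]
  have e1 := m e e' e e' M M
  have e2 := m e' e e' e c c
  have e3 := m e e' e' e M c
  have e4 := m e' e e e' c M
  rw [qr1_orth e' e hd', Matrix.mul_zero, Matrix.zero_mul, Matrix.mul_zero, Matrix.zero_mul] at e1
  rw [qr1_orth e e' hd, Matrix.mul_zero, Matrix.zero_mul, Matrix.mul_zero, Matrix.zero_mul] at e2
  rw [embM_mul, Matrix.mul_one] at e3 e4
  refine ⟨u' * (l * padE e' g * u) * l', ?_⟩
  rw [mat_mul, mat_mul, mat_mul, mat_mul, mat_padE, h, hu, hu', hl, hl', padM, padM,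
    sub_sub_cancel_left, sub_sub_cancel_left, Matrix.mul_neg, Matrix.neg_mul, Matrix.mul_neg,
    Matrix.neg_mul, ← e3, ← e4]
  generalize (embM A e)ᵀ * M * embM A e' = U at e1 ⊢
  generalize (embM A e')ᵀ * c * embM A e = L at e2 ⊢
  have a1 : (1 + L) * (1 + -(L * U)) * (1 + U) = 1 + L + U := by
    have : (1 + L) * (1 + -(L * U)) * (1 + U) =
      1 + L + U - L * (U * U) - (L * L) * U * (1 + U) := by noncomm_ring
    rw [this, e1, e2]
    simp
  have a2 : (1 + -U) * (1 + L + U) * (1 + -L) =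
      1 + -(U * L) - (U * U) * (1 + -L) - (1 + -U) * (L * L) := by noncomm_ring
  rw [a1, a2, e1, e2]
  simp
end

variable {V V' V'' : Type} [Fintype V] [DecidableEq V] [Fintype V'] [DecidableEq V']

theorem Jm_inl {V V' : Type} (e : V ↪ V') (v : V) : Jm e (inl v) = inl (e v) := rfl
theorem Jm_inr {V V' : Type} (e : V ↪ V') (h : Fin 3) : Jm e (inr h) = inr h := rfl
theorem Jm_trans {V V' V'' : Type} (e : V ↪ V') (e' : V' ↪ V'') :
    Jm (e.trans e') = (Jm e).trans (Jm e') := by
  ext x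
  rcases x with x | x <;> rfl
theorem Jm_refl {V : Type} : Jm (Function.Embedding.refl V) = Function.Embedding.refl _ := by
  ext x
  rcases x with x | x <;> rfl
omit [Fintype V] [DecidableEq V] [Fintype V'] [DecidableEq V'] in
theorem qr1_Jn (e : V ↪ V') {y : V'} (h : ∀ x, e x ≠ y) : ∀ a, Jm e a ≠ inl y := by
  rintro (a | a)
  · exact fun h' => h a (inl_injective h')
  · exact inr_ne_inl

theorem toBlocks_padM (e : V ↪ V') (M : Matrix (J V) (J V) RZ) :
    (padM (Jm e) M).toBlocks₁₁ = padM e M.toBlocks₁₁ := by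
  ext1 i j
  change padM (Jm e) M (inl i) (inl j) = _
  rcases qr1_cases e i with ⟨a, rfl⟩ | h
  · rcases qr1_cases e j with ⟨b, rfl⟩ | h
    · rw [padM_apply]
      exact padM_apply (Jm e) M (inl a) (inl b)
    · rw [padM_of_col _ _ _ h, padM_of_col _ _ _ (qr1_Jn e h)]
      simp [one_apply]
  · rw [padM_of_row _ _ h, padM_of_row _ _ (qr1_Jn e h)]
    simp [one_apply]
theorem qr1_hb (α : Matrix V V RZ) : hb α = padM Function.Embedding.inl α := (padM_inl α).symm

theorem padM_hb (e : V ↪ V') (α : Matrix V V RZ) : padM (Jm e) (hb α) = hb (padM e α) := by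
  rw [qr1_hb, qr1_hb, padM_padM, padM_padM]
  rfl

theorem extv_inl (e : V ↪ V') (v : J V → RZ) (x : V) : extv e v (inl (e x)) = v (inl x) := by
  exact vecMul_embM_apply (Jm e) v (inl x)
theorem extv_inr (e : V ↪ V') (v : J V → RZ) (h : Fin 3) : extv e v (inr h) = v (inr h) := by
  exact vecMul_embM_apply (Jm e) v (inr h)
theorem extv_of_not (e : V ↪ V') (v : J V → RZ) {y : V'} (h : ∀ x, e x ≠ y) :
    extv e v (inl y) = 0 := by
  exact vecMul_embM_of_not (Jm e) v (qr1_Jn e h)
theorem extv_add (e : V ↪ V') (v w : J V → RZ) : extv e (v + w) = extv e v + extv e w := by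
  exact add_vecMul _ _ _
theorem extv_sub (e : V ↪ V') (v w : J V → RZ) : extv e (v - w) = extv e v - extv e w := by
  exact sub_vecMul _ _ _
theorem extv_smul (e : V ↪ V') (p : RZ) (v : J V → RZ) : extv e (p • v) = p • extv e v := by
  exact smul_vecMul _ _ _
theorem extv_single (e : V ↪ V') (j : J V) (p : RZ) :
    extv e (Pi.single j p) = Pi.single (Jm e j) p := by
  funext i
  rw [extv, single_vecMul]
  simp [embM, Pi.single_apply, eq_comm]
theorem extv_arow (e : V ↪ V') (ar : RZ) : extv e (arow ar) = arow ar := by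
  funext i
  rcases i with y | h
  · rcases qr1_cases e y with ⟨x, rfl⟩ | h
    · exact extv_inl e _ x
    · exact extv_of_not e _ h
  · exact extv_inr e _ h
theorem extv_hav (e : V ↪ V') (ar : RZ) : extv e (hav ar) = hav ar := by
  rw [hav, extv_sub, extv_single, extv_arow]
  rfl
theorem extv_extv [Fintype V''] [DecidableEq V''] (e : V ↪ V') (e' : V' ↪ V'') (v : J V → RZ) :
    extv e' (extv e v) = extv (e.trans e') v := by
  rw [extv, extv, extv, vecMul_vecMul, Jm_trans, qr1_trans]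

theorem qr1_map {H H' : Type} [Group H] [Group H'] (f : H →* H') {s : Set H} {G : Subgroup H'}
    (h : ∀ x ∈ s, f x ∈ G) {U : H} (hU : U ∈ Subgroup.closure s) : f U ∈ G :=
  (Subgroup.closure_le (G.comap f)).2 h hU

theorem UG_pad (e : V ↪ V') {U : GLn (J V) RZ} (h : U ∈ UG V) :
    Units.map (padH (Jm e)) U ∈ UG V' := by
  refine qr1_map _ ?_ h
  rintro _ ⟨i, j, p, hi, hj, rfl⟩
  rw [pad_xg]
  refine Subgroup.subset_closure ⟨_, _, p, ?_, ?_, rfl⟩
  · exact fun h' => hi ((Jm e).injective (h'.trans (Jm_inr e 0).symm))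
  · rcases hj with rfl | ⟨v, rfl⟩
    · exact Or.inl rfl
    · exact Or.inr ⟨e v, rfl⟩
theorem VG_pad (e : V ↪ V') {U : GLn (J V) RZ} (h : U ∈ VG V) :
    Units.map (padH (Jm e)) U ∈ VG V' := by
  refine qr1_map _ ?_ h
  rintro _ ⟨v, j, p, rfl⟩
  rw [pad_xg]
  exact Subgroup.subset_closure ⟨e v, _, p, rfl⟩
theorem UG_of_El (g : El V RZ) : ∃ U ∈ UG V, U.val = hb (mat g) := by
  refine ⟨Units.map (padH (A := RZ) (Function.Embedding.inl : V ↪ J V)) g.1, ?_,
    (qr1_hb (mat g)).symm⟩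
  refine qr1_map (Units.map (padH (A := RZ) (Function.Embedding.inl : V ↪ J V))) ?_ g.2
  rintro _ ⟨a, b, p, rfl⟩
  rw [pad_xg]
  exact Subgroup.subset_closure ⟨_, _, p, inl_ne_inr, Or.inr ⟨b, rfl⟩, rfl⟩
theorem VG_of_El (g : El V RZ) : ∃ U ∈ VG V, U.val = hb (mat g) := by
  refine ⟨Units.map (padH (A := RZ) (Function.Embedding.inl : V ↪ J V)) g.1, ?_,
    (qr1_hb (mat g)).symm⟩
  refine qr1_map (Units.map (padH (A := RZ) (Function.Embedding.inl : V ↪ J V))) ?_ g.2
  rintro _ ⟨a, b, p, rfl⟩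
  rw [pad_xg]
  exact Subgroup.subset_closure ⟨a, _, p, rfl⟩
theorem qr1_inv {ι A : Type} [Fintype ι] [DecidableEq ι] [CommRing A] (a b : ι) (p : A) :
    (xg a b p)⁻¹ = xg a b (-p) := by
  by_cases h : a = b
  · subst h
    simp [xg_diag]
  · ext1
    rw [val_xg h]
    simp [xg, h, transvection]

theorem qr1_row {ι A : Type} [Fintype ι] [DecidableEq ι] [CommRing A] {i j : ι} (p : A)
    (M : Matrix ι ι A) (a b : ι) :
    ((1 + single i j p : Matrix ι ι A) * M) a b = M a b + if a = i then p * M j b else 0 := by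
  rw [add_mul, one_mul, Matrix.add_apply]
  split_ifs with h
  · rw [h, single_mul_apply_same]
  · rw [single_mul_apply_of_ne _ _ _ _ _ h]

theorem qr1_blk {U : Matrix (J V) (J V) RZ} {g : El V RZ} (hg : U.toBlocks₁₁ = mat g) {i j : J V}
    (hij : i ≠ j) (p : RZ) (h : ∀ k, j = inr k → ∀ v, U (inr k) (inl v) = 0) :
    ∃ g' : El V RZ, ((1 + single i j p : Matrix (J V) (J V) RZ) * U).toBlocks₁₁ = mat g' := by
  rcases i with a | a
  · rcases j with b | b
    · refine ⟨(el V RZ).x a b p * g, ?_⟩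
      ext1 x y
      rw [mat_mul, mat_x (fun e => hij (congrArg inl e)), qr1_row, ← hg]
      change ((1 + single (inl a) (inl b) p : Matrix (J V) (J V) RZ) * U) (inl x) (inl y) = _
      rw [qr1_row]
      simp only [inl.injEq]
      rfl
    · refine ⟨g, ?_⟩
      ext1 x y
      rw [← hg]
      change ((1 + single (inl a) (inr b) p : Matrix (J V) (J V) RZ) * U) (inl x) (inl y) = _
      rw [qr1_row, h b rfl, mul_zero, ite_self, add_zero]
      rfl
  · refine ⟨g, ?_⟩
    ext1 x y
    rw [← hg]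
    change ((1 + single (inr a) j p : Matrix (J V) (J V) RZ) * U) (inl x) (inl y) = _
    rw [qr1_row, if_neg inl_ne_inr, add_zero]
    rfl

theorem qr1_one : (1 : Matrix (J V) (J V) RZ).toBlocks₁₁ = mat (1 : El V RZ) := by
  ext1 x y
  simp [toBlocks₁₁, one_apply]

/-- Induction on the closure (left multiplication by generators and their inverses). -/
theorem UG_struct {U : GLn (J V) RZ} (h : U ∈ UG V) : ∃ g : El V RZ, U.val.toBlocks₁₁ = mat g ∧
    U.val (inr 0) = Pi.single (inr 0) 1 ∧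
    ∀ i k, k ≠ 0 → U.val i (inr k) = (1 : Matrix (J V) (J V) RZ) i (inr k) := by
  have key : ∀ (i j : J V) (p : RZ), i ≠ inr 0 → (j = inr 0 ∨ ∃ v, j = inl v) →
      ∀ U : GLn (J V) RZ, (∃ g : El V RZ, U.val.toBlocks₁₁ = mat g ∧
        U.val (inr 0) = Pi.single (inr 0) 1 ∧
        ∀ i k, k ≠ 0 → U.val i (inr k) = (1 : Matrix (J V) (J V) RZ) i (inr k)) →
      ∃ g : El V RZ, (xg i j p * U).val.toBlocks₁₁ = mat g ∧
        (xg i j p * U).val (inr 0) = Pi.single (inr 0) 1 ∧
        ∀ a k, k ≠ 0 → (xg i j p * U).val a (inr k) = (1 : Matrix (J V) (J V) RZ) a (inr k) := by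
    rintro i j p hi hj U ⟨g, h1, h2, h3⟩
    by_cases hij : i = j
    · subst hij
      rw [xg_diag, one_mul]
      exact ⟨g, h1, h2, h3⟩
    rw [Units.val_mul, val_xg hij]
    obtain ⟨g', hg'⟩ := qr1_blk h1 hij p (fun k hk v => by
      rcases hj with rfl | ⟨w, rfl⟩
      · rw [← hk, h2]
        simp
      · exact absurd hk inl_ne_inr)
    refine ⟨g', hg', ?_, fun a k hk => ?_⟩
    · funext b
      rw [qr1_row, if_neg hi.symm, add_zero, h2]
    · have : (1 : Matrix (J V) (J V) RZ) j (inr k) = 0 := by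
        rcases hj with rfl | ⟨w, rfl⟩
        · exact one_apply_ne fun e => hk (inr_injective e).symm
        · exact one_apply_ne inl_ne_inr
      rw [qr1_row, h3 _ _ hk, h3 _ _ hk, this, mul_zero, ite_self, add_zero]
  induction h using Subgroup.closure_induction_left with
  | one => exact ⟨1, qr1_one, by funext b; simp [one_apply, Pi.single_apply, eq_comm],
      fun _ _ _ => rfl⟩
  | mul_left x hx y _ ih =>
    obtain ⟨i, j, p, hi, hj, rfl⟩ := hx
    exact key i j p hi hj y ih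
  | inv_mul_cancel x hx y _ ih =>
    obtain ⟨i, j, p, hi, hj, rfl⟩ := hx
    rw [qr1_inv]
    exact key i j (-p) hi hj y ih
theorem VG_struct {U : GLn (J V) RZ} (h : U ∈ VG V) : ∃ g : El V RZ, U.val.toBlocks₁₁ = mat g ∧
    ∀ k, U.val (inr k) = Pi.single (inr k) 1 := by
  have key : ∀ (v : V) (j : J V) (p : RZ) (U : GLn (J V) RZ),
      (∃ g : El V RZ, U.val.toBlocks₁₁ = mat g ∧ ∀ k, U.val (inr k) = Pi.single (inr k) 1) →
      ∃ g : El V RZ, (xg (inl v) j p * U).val.toBlocks₁₁ = mat g ∧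
        ∀ k, (xg (inl v) j p * U).val (inr k) = Pi.single (inr k) 1 := by
    rintro v j p U ⟨g, h1, h2⟩
    by_cases hij : inl v = j
    · subst hij
      rw [xg_diag, one_mul]
      exact ⟨g, h1, h2⟩
    rw [Units.val_mul, val_xg hij]
    obtain ⟨g', hg'⟩ := qr1_blk h1 hij p (fun k _ v => by
      rw [h2]
      simp)
    refine ⟨g', hg', fun k => ?_⟩
    funext b
    rw [qr1_row, if_neg inr_ne_inl, add_zero, h2]
  induction h using Subgroup.closure_induction_left with
  | one => exact ⟨1, qr1_one, fun k => by funext b; simp [one_apply, Pi.single_apply, eq_comm]⟩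
  | mul_left x hx y _ ih =>
    obtain ⟨v, j, p, rfl⟩ := hx
    exact key v j p y ih
  | inv_mul_cancel x hx y _ ih =>
    obtain ⟨v, j, p, rfl⟩ := hx
    rw [qr1_inv]
    exact key v j (-p) y ih

end Pool.Agent.Lib.MP_71aad1_an.SS
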