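import Pool.Agent.Lib.MP_71aad1_an.QA4
import Pool.Agent.Lib.MP_71aad1_an.QR1

set_option autoImplicit false

namespace Pool.Agent.Lib.MP_71aad1_an.SS

open Polynomial Matrix Finset Sum

/-! Executing one generator. -/

variable {ι : Type} [Fintype ι] [DecidableEq ι] {r : ℝ}

theorem InN.mono {W : ι → ℝ} (hW : ∀ x, 0 ≤ W x) {O O' : ι → ℕ} {θ θ' : ℝ} {P : Matrix ι ι RZ}
    (h : InN r W O θ P) (hO : ∀ x, O' x ≤ O x) (hθ : θ ≤ θ') : InN r W O' θ' P :=
  fun x => ⟨fun z => (pow_dvd_pow _ (hO x)).trans ((h x).1 z),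
    (h x).2.mono (mul_le_mul_of_nonneg_right hθ (hW x))⟩
theorem InN.one {W : ι → ℝ} (hW : ∀ x, 0 ≤ W x) (O : ι → ℕ) {θ : ℝ} (hθ : 0 ≤ θ) :
    InN r W O θ (1 : Matrix ι ι RZ) := by
  intro x
  rw [sub_self]
  exact ⟨fun z => dvd_zero _, RowB.zero (mul_nonneg hθ (hW x))⟩
/-- `(1 - c) (1 + c) = 1` because `c * c = 0`. -/
theorem Stp.symm {W : ι → ℝ} {O : ι → ℕ} {θ : ℝ} {P P' : Matrix ι ι RZ} (h : Stp r W O θ P P') :
    Stp r W O θ P' P := by
  obtain ⟨h1, h2, S, c, hc, rfl⟩ := h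
  have hcc : c * c = 0 := by
    ext1 x z
    rw [Matrix.mul_apply, Matrix.zero_apply]
    refine Finset.sum_eq_zero fun y _ => ?_
    by_cases h : c x y = 0
    · rw [h, zero_mul]
    by_cases h' : c y z = 0
    · rw [h', mul_zero]
    exact absurd (hc _ _ h').1 (hc _ _ h).2
  refine ⟨h2, h1, S, -c, fun x z h => hc x z fun h' => h (by rw [Matrix.neg_apply, h', neg_zero]), ?_⟩
  have : (1 + -c) * (1 + c) = 1 := by
    rw [add_mul, one_mul, mul_add, mul_one, Matrix.neg_mul, hcc]; abel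
  rw [← Matrix.mul_assoc, this, Matrix.one_mul]
theorem Conn.symm {W : ι → ℝ} {O : ι → ℕ} {θ : ℝ} {P P' : Matrix ι ι RZ} (h : Conn r W O θ P P') :
    Conn r W O θ P' P := by
  unfold Conn at h ⊢
  induction h with
  | refl => exact Relation.ReflTransGen.refl
  | tail _ h2 ih => exact Relation.ReflTransGen.head h2.symm ih
theorem Conn.trans {W : ι → ℝ} {O : ι → ℕ} {θ : ℝ} {P P' P'' : Matrix ι ι RZ}
    (h : Conn r W O θ P P') (h' : Conn r W O θ P' P'') : Conn r W O θ P P'' :=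
  Relation.ReflTransGen.trans h h'

/-- A bordered matrix. -/
def qc1_M (A : Matrix ι ι RZ) (b c : ι → RZ) (d : RZ) : Matrix (Option ι) (Option ι) RZ :=
  Matrix.of fun i j => match i, j with
    | some x, some y => A x y
    | some x, none => b x
    | none, some y => c y
    | none, none => d

omit [Fintype ι] [DecidableEq ι] in
@[simp] theorem qc1_ss (A : Matrix ι ι RZ) (b c : ι → RZ) (d : RZ) (x y : ι) :
    qc1_M A b c d (some x) (some y) = A x y := rfl
omit [Fintype ι] [DecidableEq ι] in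
@[simp] theorem qc1_sn (A : Matrix ι ι RZ) (b c : ι → RZ) (d : RZ) (x : ι) :
    qc1_M A b c d (some x) none = b x := rfl
omit [Fintype ι] [DecidableEq ι] in
@[simp] theorem qc1_ns (A : Matrix ι ι RZ) (b c : ι → RZ) (d : RZ) (y : ι) :
    qc1_M A b c d none (some y) = c y := rfl
omit [Fintype ι] [DecidableEq ι] in
@[simp] theorem qc1_nn (A : Matrix ι ι RZ) (b c : ι → RZ) (d : RZ) :
    qc1_M A b c d none none = d := rfl

theorem qc1_pad (P : Matrix ι ι RZ) : padM Function.Embedding.some P = qc1_M P 0 0 1 := by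
  ext1 i j
  rcases i with _ | x
  · rw [padM_of_row _ _ (fun a => by simp)]
    rcases j with _ | y <;> simp
  · rcases j with _ | y
    · rw [padM_of_col _ _ _ (fun a => by simp)]
      simp
    · exact padM_apply Function.Embedding.some P x y

theorem qc1_row (A : Matrix ι ι RZ) (b c u : ι → RZ) (d : RZ) :
    (1 + qc1_M 0 0 u 0) * qc1_M A b c d = qc1_M A b (c + u ᵥ* A) (d + u ⬝ᵥ b) := by
  rw [Matrix.add_mul, Matrix.one_mul]
  ext1 i j
  rw [Matrix.add_apply, Matrix.mul_apply, Fintype.sum_option]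
  rcases i with _ | x <;> rcases j with _ | y <;> simp [Matrix.vecMul, dotProduct]

theorem qc1_col (A : Matrix ι ι RZ) (b c u : ι → RZ) :
    (1 + qc1_M 0 u 0 0) * qc1_M A b c 1 = qc1_M (A + vecMulVec u c) (b + u) c 1 := by
  rw [Matrix.add_mul, Matrix.one_mul]
  ext1 i j
  rw [Matrix.add_apply, Matrix.mul_apply, Fintype.sum_option]
  rcases i with _ | x <;> rcases j with _ | y <;> simp [Matrix.vecMulVec_apply]

omit [Fintype ι] in
theorem qc1_sub_some (A : Matrix ι ι RZ) (b c : ι → RZ) (x y : ι) :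
    (qc1_M A b c 1 - 1) (some x) (some y) = (A - 1) x y := by
  simp [Matrix.one_apply]
omit [Fintype ι] in
theorem qc1_sub_sn (A : Matrix ι ι RZ) (b c : ι → RZ) (x : ι) :
    (qc1_M A b c 1 - 1) (some x) none = b x := by simp
omit [Fintype ι] in
theorem qc1_sub_ns (A : Matrix ι ι RZ) (b c : ι → RZ) (x : ι) :
    (qc1_M A b c 1 - 1) none (some x) = c x := by simp
omit [Fintype ι] in
theorem qc1_sub_nn (A : Matrix ι ι RZ) (b c : ι → RZ) :
    (qc1_M A b c 1 - 1) none none = 0 := by simp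

omit [DecidableEq ι] in
theorem qc1_rowB {W : Option ι → ℝ} {n : Option ι → RZ} {e₁ e₂ : ℝ}
    (h : RowB r (fun x => W (some x)) (fun x => n (some x)) e₁) (h1 : 0 ≤ e₁) (h2 : 0 ≤ e₂)
    (h3 : N1 r (n none) ≤ e₂) (h4 : N1 r (n none) * W none ≤ e₂) : RowB r W n (e₁ + e₂) := by
  refine ⟨?_, fun z => ?_⟩
  · have := h.1
    unfold Sw at this ⊢
    rw [Fintype.sum_option]
    linarith
  · rcases z with _ | z
    · linarith
    · have := h.2 z
      linarith

theorem qc1_inN (hr : 0 ≤ r) {W : Option ι → ℝ} (hW : ∀ x, 0 ≤ W x ∧ W x ≤ 1) {O : Option ι → ℕ}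
    {θ : ℝ} (hθ : 0 ≤ θ) {A : Matrix ι ι RZ} {b c : ι → RZ}
    (hA : InN r (fun x => W (some x)) (fun x => O (some x)) (θ / 2) A)
    (hb : ∀ x, X ^ O (some x) ∣ b x ∧ N1 r (b x) ≤ θ / 2 * W (some x))
    (hc : ∀ x, X ^ O none ∣ c x) (hc' : RowB r (fun x => W (some x)) c (θ * W none)) :
    InN r W O θ (qc1_M A b c 1) := by
  intro x
  rcases x with _ | x
  · refine ⟨fun z => ?_, ?_⟩
    · rcases z with _ | z
      · rw [qc1_sub_nn]; exact dvd_zero _
      · rw [qc1_sub_ns]; exact hc z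
    · have := qc1_rowB (r := r) (W := W) (n := (qc1_M A b c 1 - 1) none) (e₁ := θ * W none)
        (e₂ := 0) (by simpa only [qc1_sub_ns] using hc') (mul_nonneg hθ (hW _).1) le_rfl
        (by rw [qc1_sub_nn, N1_zero]) (by rw [qc1_sub_nn, N1_zero, zero_mul])
      rwa [add_zero] at this
  · refine ⟨fun z => ?_, ?_⟩
    · rcases z with _ | z
      · rw [qc1_sub_sn]; exact (hb x).1
      · rw [qc1_sub_some]; exact (hA x).1 z
    · have h0 : 0 ≤ θ / 2 * W (some x) := mul_nonneg (by linarith) (hW _).1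
      have := qc1_rowB (r := r) (W := W) (n := (qc1_M A b c 1 - 1) (some x))
        (e₁ := θ / 2 * W (some x)) (e₂ := θ / 2 * W (some x))
        (by simpa only [qc1_sub_some] using (hA x).2) h0 h0
        (by rw [qc1_sub_sn]; exact (hb x).2)
        (by
          rw [qc1_sub_sn]
          exact (mul_le_of_le_one_right (N1_nonneg hr _) (hW _).2).trans (hb x).2)
      exact this.mono (le_of_eq (by ring))

theorem InN.pad (hr : 0 ≤ r) {W : Option ι → ℝ} (hW : 0 ≤ W none) {O : Option ι → ℕ} {θ : ℝ} (hθ : 0 ≤ θ)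
    {P : Matrix ι ι RZ} (h : InN r (fun x => W (some x)) (fun x => O (some x)) θ P) :
    InN r W O θ (padM Function.Embedding.some P) := by
  rw [qc1_pad]
  intro x
  rcases x with _ | x
  · have : (qc1_M P 0 0 1 - 1) none = 0 := by
      ext1 z
      rcases z with _ | z
      · rw [qc1_sub_nn]; rfl
      · rw [qc1_sub_ns]; rfl
    rw [this]
    exact ⟨fun z => dvd_zero _, RowB.zero (mul_nonneg hθ hW)⟩
  · refine ⟨fun z => ?_, ?_⟩
    · rcases z with _ | z
      · rw [qc1_sub_sn]; exact dvd_zero _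
      · rw [qc1_sub_some]; exact (h x).1 z
    · have h2 := (h x).2
      refine ⟨?_, fun z => ?_⟩
      · have := h2.1
        unfold Sw at this ⊢
        rw [Fintype.sum_option, qc1_sub_sn, Pi.zero_apply, N1_zero, zero_mul, zero_add]
        simpa only [qc1_sub_some] using this
      · rcases z with _ | z
        · rw [qc1_sub_sn, Pi.zero_apply, N1_zero]
          exact (N1_nonneg hr _).trans (h2.2 x)
        · rw [qc1_sub_some]; exact h2.2 z

/-- A row operation is one step. For a transvection write `v = t ^ κ • v₁` and pass through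
`P₁` (row `none` becomes `e - t ^ κ w P`), `P₂` (rows `some x` become `(g P) x - v₁ x • e`),
`P₃` (row `none` is `e` again, because `w (g P) = w P` and `w ⬝ v₁ = 0`) to `g P`. Bounds:
`RowB (w ᵥ* P) 12` (`RowB.vecMul`, `θ ≤ 1`), `r ^ κ N1 (v₁ x) ≤ N1 (v x)` (`N1_X_pow_mul_ge`). -/
theorem exec (hr : 0 < r) {W : Option ι → ℝ} (hW : ∀ x, 0 ≤ W x ∧ W x ≤ 1) {O : Option ι → ℕ}
    {θ : ℝ} (hθ0 : 0 ≤ θ) (hθ : θ ≤ 1) {κ : ℕ} (hκ : O none ≤ κ)
    (hκ' : 12 * N1 r (X ^ κ : RZ) ≤ θ * W none) {g : El ι RZ} {ε : ι → ℝ}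
    (hg : Exe r (fun x => W (some x)) (fun x => O (some x)) κ g ε)
    (hε : ∀ x, ε x ≤ r ^ κ * (θ / 2) * W (some x)) {P : Matrix ι ι RZ}
    (hP : InN r (fun x => W (some x)) (fun x => O (some x)) (θ / 2) P)
    (hP' : InN r (fun x => W (some x)) (fun x => O (some x)) (θ / 2) (mat g * P)) :
    Conn r W O θ (padM Function.Embedding.some P) (padM Function.Embedding.some (mat g * P)) := by
  have hWs : ∀ x, 0 ≤ W (some x) := fun x => (hW _).1
  have hin : ∀ {A : Matrix ι ι RZ},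
      InN r (fun x => W (some x)) (fun x => O (some x)) (θ / 2) A →
      InN r W O θ (padM Function.Embedding.some A) := fun hA =>
    InN.pad hr.le (hW _).1 hθ0 (hA.mono hWs (fun _ => le_rfl) (by linarith))
  obtain ⟨-, -, ⟨x, hx⟩ | ⟨v, w', hgv, hwv, hw', hv⟩⟩ := hg
  · refine Relation.ReflTransGen.single ⟨hin hP, hin hP', fun i => i = some x,
      padM Function.Embedding.some (mat g) - 1, fun i j hij => ?_, ?_⟩
    · rw [qc1_pad] at hij
      rcases i with _ | i <;> rcases j with _ | j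
      · exact absurd (qc1_sub_nn _ _ _) hij
      · exact absurd (qc1_sub_ns _ _ _ _) hij
      · exact absurd (qc1_sub_sn _ _ _ _) hij
      · rw [qc1_sub_some] at hij
        obtain ⟨h1, h2⟩ := hx _ _ hij
        exact ⟨by rw [h1], fun h => h2 (Option.some.inj h)⟩
    · rw [padM_mul, add_sub_cancel]
  choose q hq using fun x => (hv x).1
  set v₁ : ι → RZ := fun x => X ^ O (some x) * q x with hv₁
  have hvv : ∀ x, v x = X ^ κ * v₁ x := fun x => by rw [hq x, hv₁]; ring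
  have hb : ∀ x, X ^ O (some x) ∣ (-v₁) x ∧ N1 r ((-v₁) x) ≤ θ / 2 * W (some x) := fun x => by
    refine ⟨⟨-q x, by simp only [hv₁, Pi.neg_apply]; ring⟩, ?_⟩
    rw [Pi.neg_apply, N1_neg]
    have h1 := N1_X_pow_mul_ge hr.le κ (v₁ x)
    rw [← hvv] at h1
    have h2 := (h1.trans (hv x).2).trans (hε x)
    rw [mul_assoc] at h2
    exact le_of_mul_le_mul_left h2 (pow_pos hr κ)
  have hb0 : ∀ x, X ^ O (some x) ∣ (0 : ι → RZ) x ∧ N1 r ((0 : ι → RZ) x) ≤ θ / 2 * W (some x) :=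
    fun x => ⟨dvd_zero _, by
      rw [Pi.zero_apply, N1_zero]; exact mul_nonneg (by linarith) (hWs x)⟩
  set c : ι → RZ := -((X ^ κ : RZ) • (w' ᵥ* P)) with hc
  have hc1 : ∀ x, X ^ O none ∣ c x := fun x =>
    (pow_dvd_pow _ hκ).trans ⟨-(w' ᵥ* P) x, by
      simp only [hc, Pi.neg_apply, Pi.smul_apply, smul_eq_mul]; ring⟩
  have hc2 : RowB r (fun x => W (some x)) c (θ * W none) := by
    have h1 := RowB.vecMul hr.le hWs (θ := θ / 2) (by linarith) hw'.1 (fun z => (hP z).2)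
    have h2 := RowB.add hr.le hWs hw' h1
    have h3 : w' + w' ᵥ* (P - 1) = w' ᵥ* P := by
      rw [Matrix.vecMul_sub, Matrix.vecMul_one]; abel
    rw [h3] at h2
    refine (RowB.smul hr.le hWs (X ^ κ) h2).neg.mono (le_trans ?_ hκ')
    rw [mul_comm]
    exact mul_le_mul_of_nonneg_right (by linarith) (N1_nonneg hr.le _)
  have hc3 : ∀ x, X ^ O none ∣ (0 : ι → RZ) x := fun x => dvd_zero _
  have hc4 : RowB r (fun x => W (some x)) (0 : ι → RZ) (θ * W none) :=
    RowB.zero (mul_nonneg hθ0 (hW _).1)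
  have i0 := qc1_inN hr.le hW hθ0 hP hb0 hc3 hc4
  have i1 := qc1_inN hr.le hW hθ0 hP hb0 hc1 hc2
  have i2 := qc1_inN hr.le hW hθ0 hP' hb hc1 hc2
  have i3 := qc1_inN hr.le hW hθ0 hP' hb hc3 hc4
  have i4 := qc1_inN hr.le hW hθ0 hP' hb0 hc3 hc4
  have srow : ∀ (u : ι → RZ) (i j : Option ι), qc1_M 0 0 u 0 i j ≠ 0 → i = none ∧ ¬ j = none := by
    intro u i j hij
    rcases i with _ | i <;> rcases j with _ | j <;> simp_all
  have scol : ∀ (u : ι → RZ) (i j : Option ι), qc1_M 0 u 0 0 i j ≠ 0 →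
      i ≠ none ∧ ¬ j ≠ none := by
    intro u i j hij
    rcases i with _ | i <;> rcases j with _ | j <;> simp_all
  have hvs : v = (X ^ κ : RZ) • v₁ := funext fun x => hvv x
  have s1 : Stp r W O θ (qc1_M P 0 0 1) (qc1_M P 0 c 1) := by
    refine ⟨i0, i1, fun i => i = none, qc1_M 0 0 (-((X ^ κ : RZ) • w')) 0, srow _, ?_⟩
    rw [qc1_row, dotProduct_zero, add_zero, zero_add, Matrix.neg_vecMul, Matrix.smul_vecMul]
  have s2 : Stp r W O θ (qc1_M P 0 c 1) (qc1_M (mat g * P) (-v₁) c 1) := by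
    refine ⟨i1, i2, fun i => i ≠ none, qc1_M 0 (-v₁) 0 0, scol _, ?_⟩
    rw [qc1_col, zero_add, hgv, Matrix.add_mul, Matrix.one_mul, Matrix.vecMulVec_mul]
    congr 2
    ext1 x y
    simp only [hc, Matrix.vecMulVec_apply, Pi.neg_apply, Pi.smul_apply, smul_eq_mul, hvv x]
    ring
  have s3 : Stp r W O θ (qc1_M (mat g * P) (-v₁) c 1) (qc1_M (mat g * P) (-v₁) 0 1) := by
    refine ⟨i2, i3, fun i => i = none, qc1_M 0 0 ((X ^ κ : RZ) • w') 0, srow _, ?_⟩
    have h1 : ((X ^ κ : RZ) • w') ⬝ᵥ (-v₁) = 0 := by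
      rw [dotProduct_neg, smul_dotProduct, ← dotProduct_smul, ← hvs, hwv, neg_zero]
    have h2 : w' ᵥ* (mat g * P) = w' ᵥ* P := by
      rw [← Matrix.vecMul_vecMul, hgv, Matrix.vecMul_add, Matrix.vecMul_one,
        Matrix.vecMul_vecMulVec, hwv, zero_smul, add_zero]
    rw [qc1_row, h1, add_zero, Matrix.smul_vecMul, h2, hc, neg_add_cancel]
  have s4 : Stp r W O θ (qc1_M (mat g * P) (-v₁) 0 1) (qc1_M (mat g * P) 0 0 1) := by
    refine ⟨i3, i4, fun i => i ≠ none, qc1_M 0 v₁ 0 0, scol _, ?_⟩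
    rw [qc1_col, neg_add_cancel, Matrix.vecMulVec_zero, add_zero]
  rw [qc1_pad, qc1_pad]
  exact (((Relation.ReflTransGen.single s1).tail s2).tail s3).tail s4

end Pool.Agent.Lib.MP_71aad1_an.SS
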