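import Pool.Agent.Lib.MP_71aad1_an.QW2
import Pool.Agent.Lib.MP_71aad1_an.QA4

set_option autoImplicit false

namespace Pool.Agent.Lib.MP_71aad1_an.SS

open Polynomial Matrix Finset Sum

/-! The Newton step. -/

variable {ι : Type} [Fintype ι] [DecidableEq ι] {r : ℝ}

theorem qw10_letter {A : Type} [CommRing A] (x z : ι) (c : ι → A) :
    mat ((el ι A).x x z (c z)) =
      1 + vecMulVec (Pi.single x 1) (Pi.single z (Function.update c x 0 z)) := by
  by_cases h : x = z
  · subst h
    rw [(el ι A).diag, mat_one, Function.update_self, Pi.single_zero, vecMulVec_zero, add_zero]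
  · rw [mat_x h, Function.update_of_ne (Ne.symm h)]
    congr 1
    ext i j
    simp only [single_apply, vecMulVec_apply, Pi.single_apply, ite_mul, one_mul, zero_mul, ite_and,
      eq_comm]

theorem qw10_row {A : Type} [CommRing A] (x : ι) (c : ι → A) (l : List ι) :
    mat ((l.map fun z => (el ι A).x x z (c z)).prod) = 1 + vecMulVec (Pi.single x 1)
      (l.map fun z => (Pi.single z (Function.update c x 0 z) : ι → A)).sum := by
  induction l with
  | nil => simp
  | cons z l ih =>
    have h0 : (Pi.single z (Function.update c x 0 z) : ι → A) ⬝ᵥ Pi.single x 1 = 0 := by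
      rw [dotProduct_single, mul_one]
      by_cases h : x = z
      · subst h
        rw [Pi.single_eq_same, Function.update_self]
      · exact Pi.single_eq_of_ne h _
    rw [List.map_cons, List.prod_cons, mat_mul, ih, qw10_letter, List.map_cons, List.sum_cons,
      vecMulVec_add, mul_add, mul_one, add_mul, one_mul, vecMulVec_mul_vecMulVec, h0, zero_smul,
      vecMulVec_zero, add_zero, add_assoc]

theorem mat_rowE (x : ι) (c : ι → RZ) :
    mat (rowE x c) = 1 + vecMulVec (Pi.single x 1) (Function.update c x 0) := by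
  rw [rowE, prodL, qw10_row, Finset.sum_map_toList, Finset.univ_sum_single]

theorem rowE_mem {d : ℕ} (x : ι) {c : ι → RZ} (h : ∀ z, X ^ d ∣ c z) : rowE x c ∈ Ed ι d :=
  prodL_mem fun z _ => (el ι RZ).x_mem x z (mem_tI.2 (h z))

omit [Fintype ι] in
theorem qw10_nuc_dvd {a : RZ} (i0 : ι) {n : Matrix ι ι RZ} (x : ι) (h : ∀ z, a ∣ n x z)
    (h0 : x = i0 → ∀ z, a ∣ n z z) (z : ι) : a ∣ nuc i0 n x z := by
  unfold nuc
  split_ifs with h1 h2
  · exact dvd_add (h z).neg_right (h0 h1 z)
  · exact dvd_sub (h z).neg_right (h x)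
  · exact dvd_sub (h z).neg_right (dvd_zero a)

theorem NU_mem {d : ℕ} (i0 : ι) {n : Matrix ι ι RZ} (h : ∀ x z, X ^ d ∣ n x z) :
    NU i0 n ∈ Ed ι d := by
  refine mul_mem (list_prod_mem fun g hg => ?_) (list_prod_mem fun g hg => ?_)
  · obtain ⟨a, -, rfl⟩ := List.mem_map.1 hg
    exact (el ι RZ).z_mem a i0 (mem_tI.2 (h a a)) 1
  · obtain ⟨a, -, rfl⟩ := List.mem_map.1 hg
    exact rowE_mem a (qw10_nuc_dvd i0 a (h a) fun _ z => h z z)

omit [Fintype ι] in
theorem qw10_nuc_le (hr : 0 ≤ r) (i0 : ι) (n : Matrix ι ι RZ) (x z : ι) :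
    N1 r (nuc i0 n x z) ≤ N1 r (n x z) + (if x = i0 then N1 r (n z z) else 0) +
      if z = i0 then N1 r (n x x) else 0 := by
  have h1 := N1_nonneg hr (n x x)
  unfold nuc
  by_cases hx : x = i0
  · have h2 := N1_add_le hr (-n x z) (n z z)
    rw [N1_neg] at h2
    rw [if_pos hx, if_pos hx]
    split_ifs <;> linarith
  · rw [if_neg hx, if_neg hx]
    by_cases hz : z = i0
    · have h2 := N1_sub_le hr (-n x z) (n x x)
      rw [N1_neg] at h2
      rw [if_pos hz, if_pos hz]
      linarith
    · rw [if_neg hz, if_neg hz, sub_zero, N1_neg]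
      linarith

theorem NU_W0 (hr : 0 ≤ r) {k : ℕ} {δ : ℝ} (hδ : 0 ≤ δ) (i0 : ι) {n : Matrix ι ι RZ}
    (h : ∀ x z, X ^ k ∣ n x z) :
    ∃ τ, W0 r k δ (NU i0 n) (((Fintype.card ι : ℝ) + 3) * nm r n) τ := by
  obtain ⟨τ₁, h1⟩ := W0.list_prod (r := r) (k := k) (δ := δ) (univ : Finset ι).toList
    (F := fun a => (el ι RZ).z a i0 (n a a) 1) (f := fun a => N1 r (n a a)) fun a _ => by
      by_cases ha : a = i0
      · subst ha
        rw [St.z_diag]
        exact ⟨0, W0.one (N1_nonneg hr _)⟩
      · exact ⟨_, W0.z hδ ha (h a a) 1⟩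
  obtain ⟨τ₂, h2⟩ := W0.list_prod (r := r) (k := k) (δ := δ) (univ : Finset ι).toList
    (F := fun x => rowE x (nuc i0 n x)) (f := fun x => ∑ z, N1 r (nuc i0 n x z)) fun x _ => by
      rw [← Finset.sum_map_toList]
      exact W0.list_prod (univ : Finset ι).toList
        (F := fun z => (el ι RZ).x x z (nuc i0 n x z)) (f := fun z => N1 r (nuc i0 n x z))
        fun z _ => ⟨0, W0.x hr hδ x z (qw10_nuc_dvd i0 x (h x) (fun _ z => h z z) z)⟩
  refine ⟨_, (h1.mul h2).mono le_rfl le_rfl ?_⟩
  rw [Finset.sum_map_toList, Finset.sum_map_toList]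
  have hd : ∑ a, N1 r (n a a) ≤ nm r n := sum_le_sum fun a _ =>
    single_le_sum (f := fun z => N1 r (n a z)) (fun z _ => N1_nonneg hr _) (mem_univ a)
  have hn : ∑ x, ∑ z, N1 r (nuc i0 n x z) ≤ nm r n + ∑ a, N1 r (n a a) + ∑ a, N1 r (n a a) := by
    refine (sum_le_sum fun x _ => sum_le_sum fun z _ => qw10_nuc_le hr i0 n x z).trans (le_of_eq ?_)
    simp only [sum_add_distrib, sum_ite_irrel, sum_const_zero, sum_ite_eq', mem_univ, if_true, nm]
  have hc : (1 : ℝ) ≤ Fintype.card ι := by
    exact_mod_cast Fintype.card_pos_iff.2 ⟨i0⟩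
  have h0 := nm_nonneg hr n
  nlinarith [mul_le_mul_of_nonneg_right hc h0]

/-- The generators of `NU`, each with its row bounds. -/
noncomputable def nuList (r : ℝ) (w : ι → ℝ) (θ : ℝ) (i0 : ι) (n : Matrix ι ι RZ) :
    List (El ι RZ × (ι → ℝ)) :=
  ((univ : Finset ι).toList.map fun a => ((el ι RZ).z a i0 (n a a) 1,
      fun x => if a ≠ i0 ∧ (x = a ∨ x = i0) then 2 * N1 r (n a a) else 0)) ++
    (univ : Finset ι).toList.map fun a => (rowE a (nuc i0 n a),
      fun x => if x = a then (if a = i0 then θ * w a + ∑ z, N1 r (n z z) else 2 * θ * w a) else 0)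

theorem nuList_prod (w : ι → ℝ) (θ : ℝ) (i0 : ι) (n : Matrix ι ι RZ) :
    ((nuList r w θ i0 n).map Prod.fst).prod = NU i0 n := by
  rw [nuList, List.map_append, List.prod_append, List.map_map, List.map_map]
  rfl

theorem qw10_matz {A : Type} [CommRing A] (a b : ι) (p : A) : mat ((el ι A).z a b p 1) - 1 =
    vecMulVec (p • (Pi.single a 1 + Pi.single b 1 : ι → A))
      (Pi.single b 1 - Pi.single a 1 : ι → A) := by
  by_cases h : a = b
  · subst h
    rw [St.z_diag, mat_one, sub_self, sub_self, vecMulVec_zero]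
  · rw [mat_z h, add_sub_cancel_left]

theorem qw10_matrow (x : ι) (c : ι → RZ) (i : ι) :
    (mat (rowE x c) - 1) i = if i = x then Function.update c x 0 else 0 := by
  rw [mat_rowE, add_sub_cancel_left]
  funext j
  rw [vecMulVec_apply, Pi.single_apply]
  split_ifs
  · rw [one_mul]
  · rw [zero_mul, Pi.zero_apply]

/-- `mat_z`, `mat_rowE`. -/
theorem nuList_lin (w : ι → ℝ) (θ : ℝ) (i0 : ι) (n : Matrix ι ι RZ) :
    ((nuList r w θ i0 n).map fun x => mat x.1 - 1).sum = single i0 i0 (trace n) - n := by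
  rw [nuList, List.map_append, List.sum_append, List.map_map, List.map_map, Finset.sum_map_toList,
    Finset.sum_map_toList]
  ext1 x y
  have e1 : ∑ a, (mat ((el ι RZ).z a i0 (n a a) 1) - 1) x y =
      n x x * ((if y = i0 then 1 else 0) - if y = x then 1 else 0) +
      (if x = i0 then 1 else 0) * ((if y = i0 then 1 else 0) * trace n - n y y) := by
    have e : ∀ a, (mat ((el ι RZ).z a i0 (n a a) 1) - 1) x y =
        (if x = a then n a a * ((if y = i0 then 1 else 0) - if y = a then 1 else 0) else 0) +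
        (if x = i0 then 1 else 0) * ((if y = i0 then 1 else 0) * n a a -
          if y = a then n a a else 0) := by
      intro a
      rw [qw10_matz, vecMulVec_apply]
      simp only [Pi.smul_apply, Pi.add_apply, Pi.sub_apply, Pi.single_apply, smul_eq_mul]
      split_ifs <;> ring
    simp only [e]
    rw [sum_add_distrib, ← mul_sum, sum_sub_distrib, ← mul_sum, sum_ite_eq, sum_ite_eq,
      if_pos (mem_univ x), if_pos (mem_univ y)]
    rfl
  have e2 : ∑ a, (mat (rowE a (nuc i0 n a)) - 1) x y = Function.update (nuc i0 n x) x 0 y := by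
    have e : ∀ a, (mat (rowE a (nuc i0 n a)) - 1) x y =
        if x = a then Function.update (nuc i0 n a) a 0 y else 0 := by
      intro a
      rw [qw10_matrow]
      split_ifs <;> rfl
    simp only [e]
    rw [sum_ite_eq, if_pos (mem_univ x)]
  rw [Matrix.add_apply, Matrix.sum_apply, Matrix.sum_apply]
  simp only [Function.comp_apply]
  rw [e1, e2, Matrix.sub_apply, single_apply, Function.update_apply, nuc]
  by_cases hx : x = i0
  · subst hx
    by_cases hy : y = x
    · subst hy
      simp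
    · simp [hy, Ne.symm hy]
  · by_cases hy : y = x
    · subst hy
      simp only [hx, Ne.symm hx, if_true, if_false, false_and]
      ring
    · by_cases hy0 : y = i0
      · subst hy0
        simp [hx, Ne.symm hx]
      · simp [hx, Ne.symm hx, hy, hy0]

theorem nuList_sum (hr : 0 ≤ r) {w : ι → ℝ} {θ Ω w₀ : ℝ} (hw : ∀ x, 0 ≤ w x ∧ w x ≤ 1)
    (hΩ : ∑ x, w x ≤ Ω) {i0 : ι} (h0 : 0 < w₀) (hw0 : w₀ ≤ w i0) (hθ : 0 ≤ θ) {n : Matrix ι ι RZ}
    (hn : ∀ x, RowB r w (n x) (θ * w x)) (x : ι) :
    ((nuList r w θ i0 n).map fun y => y.2 x).sum ≤ (4 + 3 * Ω / w₀) * θ * w x := by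
  rw [nuList, List.map_append, List.sum_append, List.map_map, List.map_map, Finset.sum_map_toList,
    Finset.sum_map_toList]
  simp only [Function.comp_apply]
  rw [sum_ite_eq, if_pos (mem_univ x)]
  have hΩ0 : 0 ≤ Ω := (sum_nonneg fun x _ => (hw x).1).trans hΩ
  have hx0 : 0 ≤ θ * w x := mul_nonneg hθ (hw x).1
  have hq : 0 ≤ Ω / w₀ := div_nonneg hΩ0 h0.le
  have e : (4 + 3 * Ω / w₀) * θ * w x = 4 * (θ * w x) + 3 * (Ω / w₀ * (θ * w x)) := by ring
  rw [e]
  by_cases hx : x = i0
  · have hd : ∑ z, N1 r (n z z) ≤ θ * Ω := by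
      refine (sum_le_sum fun z _ => (hn z).2 z).trans ?_
      rw [← mul_sum]
      exact mul_le_mul_of_nonneg_left hΩ hθ
    have h1 : ∑ a, (if a ≠ i0 ∧ (x = a ∨ x = i0) then 2 * N1 r (n a a) else 0) ≤
        2 * ∑ z, N1 r (n z z) := by
      rw [mul_sum]
      refine sum_le_sum fun a _ => ?_
      have := N1_nonneg hr (n a a)
      split_ifs <;> linarith
    have h2 : θ * Ω ≤ Ω / w₀ * (θ * w x) := by
      have e2 : θ * Ω = Ω / w₀ * (θ * w₀) := by field_simp
      rw [e2]
      exact mul_le_mul_of_nonneg_left (mul_le_mul_of_nonneg_left (hx ▸ hw0) hθ) hq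
    rw [if_pos hx]
    linarith
  · have h1 : ∑ a, (if a ≠ i0 ∧ (x = a ∨ x = i0) then 2 * N1 r (n a a) else 0) =
        2 * N1 r (n x x) := by
      rw [sum_eq_single x, if_pos ⟨hx, Or.inl rfl⟩]
      · intro a _ ha
        exact if_neg fun h => h.2.elim (fun h' => ha h'.symm) hx
      · intro h
        exact absurd (mem_univ x) h
    have h2 := (hn x).2 x
    have h3 := mul_nonneg hq hx0
    rw [h1, if_neg hx]
    linarith

theorem qw10_update (hr : 0 ≤ r) {w : ι → ℝ} (hw : ∀ z, 0 ≤ w z) {c : ι → RZ} {ε : ℝ}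
    (h : RowB r w c ε) (a : ι) : RowB r w (Function.update c a 0) ε := by
  have h1 : ∀ z, N1 r (Function.update c a 0 z) ≤ N1 r (c z) := by
    intro z
    rw [Function.update_apply]
    split_ifs
    · rw [N1_zero]
      exact N1_nonneg hr _
    · exact le_rfl
  exact ⟨(sum_le_sum fun z _ => mul_le_mul_of_nonneg_right (h1 z) (hw z)).trans h.1,
    fun z => (h1 z).trans (h.2 z)⟩

/-- For `a = i0` the factor `z` is trivial (first alternative of `Exe`). -/
theorem nuList_exe (hr : 0 ≤ r) {w : ι → ℝ} {θ : ℝ} (hw : ∀ x, 0 ≤ w x ∧ w x ≤ 1) {o : ι → ℕ} {κ : ℕ}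
    {i0 : ι} {n : Matrix ι ι RZ} (hn : ∀ x, RowB r w (n x) (θ * w x))
    (ho : ∀ x z, X ^ (o x + κ) ∣ n x z) (ho0 : ∀ x z, X ^ (o i0 + κ) ∣ n x z) :
    ∀ y ∈ nuList r w θ i0 n, Exe r w o κ y.1 y.2 := by
  have hw0 : ∀ z, 0 ≤ w z := fun z => (hw z).1
  have hw1 : ∀ z, w z ≤ 1 := fun z => (hw z).2
  have hpow : ∀ x, (X : RZ) ^ o x ∣ X ^ (o x + κ) := fun x => pow_dvd_pow _ (Nat.le_add_right _ _)
  intro y hy
  rcases List.mem_append.1 hy with hy | hy
  · obtain ⟨a, -, rfl⟩ := List.mem_map.1 hy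
    show Exe r w o κ ((el ι RZ).z a i0 (n a a) 1)
      fun x => if a ≠ i0 ∧ (x = a ∨ x = i0) then 2 * N1 r (n a a) else 0
    by_cases ha : a = i0
    · subst ha
      rw [St.z_diag, Exe, mat_one, sub_self]
      refine ⟨fun x => ?_, fun x z => dvd_zero _, Or.inl ⟨a, fun x' z h => absurd rfl h⟩⟩
      rw [if_neg fun h => h.1 rfl]
      exact RowB.zero le_rfl
    · have hv : ∀ x, (n a a • (Pi.single a 1 + Pi.single i0 1 : ι → RZ)) x =
          if x = a ∨ x = i0 then n a a else 0 := by
        intro x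
        simp only [Pi.smul_apply, Pi.add_apply, Pi.single_apply, smul_eq_mul]
        by_cases h1 : x = a
        · subst h1
          simp [ha]
        · by_cases h2 : x = i0
          · subst h2
            simp [h1]
          · simp [h1, h2]
      have hw' : RowB r w (Pi.single i0 1 - Pi.single a 1 : ι → RZ) 2 := by
        have h := (RowB.single hr i0 (hw1 i0) (1 : RZ)).sub hr hw0 (RowB.single hr a (hw1 a) 1)
        rwa [N1_one, one_add_one_eq_two] at h
      have hN : ∀ x, N1 r ((n a a • (Pi.single a 1 + Pi.single i0 1 : ι → RZ)) x) * 2 =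
          if a ≠ i0 ∧ (x = a ∨ x = i0) then 2 * N1 r (n a a) else 0 := by
        intro x
        rw [hv]
        by_cases h : x = a ∨ x = i0
        · rw [if_pos h, if_pos ⟨ha, h⟩, mul_comm]
        · rw [if_neg h, if_neg fun h' => h h'.2, N1_zero, zero_mul]
      have hdv : ∀ x, X ^ (o x + κ) ∣ (n a a • (Pi.single a 1 + Pi.single i0 1 : ι → RZ)) x := by
        intro x
        rw [hv]
        split_ifs with h
        · rcases h with rfl | rfl
          · exact ho x x
          · exact ho0 a a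
        · exact dvd_zero _
      refine ⟨fun x => ?_, fun x z => ?_, Or.inr ⟨_, _, mat_z ha _ _, ?_,
        hw'.mono (by norm_num), fun x => ⟨hdv x, ?_⟩⟩⟩
      · beta_reduce
        rw [qw10_matz, ← hN x]
        exact hw'.smul hr hw0 _
      · rw [qw10_matz, vecMulVec_apply]
        exact ((hpow x).trans (hdv x)).mul_right _
      · rw [sub_dotProduct, single_dotProduct, single_dotProduct, hv, hv, if_pos (Or.inr rfl),
          if_pos (Or.inl rfl), sub_self]
      · have h1 := hN x
        have h2 := N1_nonneg hr ((n a a • (Pi.single a 1 + Pi.single i0 1 : ι → RZ)) x)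
        show _ ≤ if a ≠ i0 ∧ (x = a ∨ x = i0) then 2 * N1 r (n a a) else 0
        linarith
  · obtain ⟨a, -, rfl⟩ := List.mem_map.1 hy
    show Exe r w o κ (rowE a (nuc i0 n a))
      fun x => if x = a then (if a = i0 then θ * w a + ∑ z, N1 r (n z z) else 2 * θ * w a) else 0
    refine ⟨fun x => ?_, fun x z => ?_, Or.inl ⟨a, fun x z h => ?_⟩⟩
    · beta_reduce
      rw [qw10_matrow]
      by_cases hx : x = a
      · rw [if_pos hx, if_pos hx]
        refine qw10_update hr hw0 ?_ a
        by_cases ha : a = i0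
        · have e : nuc i0 n a = -n a + fun z => n z z := by
            funext z
            rw [nuc, if_pos ha]
            rfl
          rw [if_pos ha, e]
          exact (hn a).neg.add hr hw0 (RowB.of_sum hr hw1 le_rfl)
        · have e : nuc i0 n a = -n a - Pi.single i0 (n a a) := by
            funext z
            rw [nuc, if_neg ha, Pi.sub_apply, Pi.single_apply]
            rfl
          rw [if_neg ha, e]
          refine ((hn a).neg.sub hr hw0 (RowB.single hr i0 (hw1 i0) (n a a))).mono ?_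
          have := (hn a).2 a
          linarith
      · rw [if_neg hx, if_neg hx]
        exact RowB.zero le_rfl
    · rw [qw10_matrow]
      split_ifs with hx
      · subst hx
        rw [Function.update_apply]
        split_ifs
        · exact dvd_zero _
        · exact (hpow x).trans (qw10_nuc_dvd i0 x (ho x) (fun h z => h ▸ ho0 z z) z)
      · exact dvd_zero _
    · rw [qw10_matrow] at h
      by_cases hx : x = a
      · rw [if_pos hx] at h
        refine ⟨hx, fun hz => h ?_⟩
        rw [hz, Function.update_self]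
      · rw [if_neg hx] at h
        exact absurd rfl h

theorem qw10_ring {R : Type} [Ring R] (N Z S : R) :
    N * Z - 1 = (N - 1 - (S - (Z - 1))) + (N - 1) * (Z - 1) + S := by noncomm_ring

omit [DecidableEq ι] in
theorem qw10_dvd_mul {A : Type} [CommRing A] {a : A} {M N : Matrix ι ι A} (hM : ∀ i j, a ∣ M i j)
    (hN : ∀ i j, a ∣ N i j) (i j : ι) : a ^ 2 ∣ (M * N) i j := by
  rw [Matrix.mul_apply, sq]
  exact dvd_sum fun k _ => mul_dvd_mul (hM i k) (hN k j)

theorem qw10_prod {A σ : Type} [CommRing A] {a : A} (F : σ → El ι A) (l : List σ)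
    (h : ∀ x ∈ l, ∀ i j, a ∣ (mat (F x) - 1) i j) :
    (∀ i j, a ∣ (mat (l.map F).prod - 1) i j) ∧
      ∀ i j, a ^ 2 ∣ (mat (l.map F).prod - 1 - (l.map fun x => mat (F x) - 1).sum) i j := by
  induction l with
  | nil => simp
  | cons x l ih =>
    obtain ⟨h1, h2⟩ := ih fun y hy => h y (List.mem_cons_of_mem _ hy)
    have hx := h x List.mem_cons_self
    have h3 := qw10_dvd_mul hx h1
    rw [List.map_cons, List.prod_cons, mat_mul, List.map_cons, List.sum_cons]
    constructor
    · intro i j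
      have e : mat (F x) * mat (l.map F).prod - 1 = (mat (F x) - 1) + (mat (l.map F).prod - 1) +
          (mat (F x) - 1) * (mat (l.map F).prod - 1) := by noncomm_ring
      rw [e, Matrix.add_apply, Matrix.add_apply]
      exact dvd_add (dvd_add (hx i j) (h1 i j)) ((dvd_pow_self a two_ne_zero).trans (h3 i j))
    · intro i j
      have e : mat (F x) * mat (l.map F).prod - 1 -
          (mat (F x) - 1 + (l.map fun x => mat (F x) - 1).sum) =
          (mat (l.map F).prod - 1 - (l.map fun x => mat (F x) - 1).sum) +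
          (mat (F x) - 1) * (mat (l.map F).prod - 1) := by noncomm_ring
      rw [e, Matrix.add_apply]
      exact dvd_add (h2 i j) (h3 i j)

/-- The order of `mat (NU i0 n) * (1 + n) - 1`: modulo `t ^ (2 d)` the product of the generators is
`1 +` the sum of `nuList_lin`, and the trace vanishes by `detTr_dvd`. -/
theorem NU_cong {d : ℕ} (hd : 1 ≤ d) (i0 : ι) {Z : El ι RZ} (h : MCong (tI d) (mat Z)) :
    MCong (tI (d + 1)) (mat (NU i0 (mat Z - 1) * Z)) := by
  have hn : ∀ x z, X ^ d ∣ (mat Z - 1) x z := fun x z => mem_tI.1 (h x z)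
  obtain ⟨h1, h2⟩ := qw10_prod (a := (X : RZ) ^ d) Prod.fst (nuList 0 0 0 i0 (mat Z - 1))
    fun y hy i j => by
      refine mem_tI.1 (MCong.Zs (J := tI d) ?_ i j)
      rcases List.mem_append.1 hy with hy | hy
      · obtain ⟨a, -, rfl⟩ := List.mem_map.1 hy
        exact (el ι RZ).z_mem a i0 (mem_tI.2 (hn a a)) 1
      · obtain ⟨a, -, rfl⟩ := List.mem_map.1 hy
        exact rowE_mem a (qw10_nuc_dvd i0 a (hn a) fun _ z => hn z z)
  rw [nuList_prod] at h1
  rw [nuList_prod, nuList_lin] at h2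
  have h3 := qw10_dvd_mul h1 hn
  have h4 : ((X : RZ) ^ d) ^ 2 ∣ trace (mat Z - 1) := by
    have h5 := detTr_dvd (mat Z - 1) hn
    rw [add_sub_cancel, det_mat, sub_self, zero_sub] at h5
    exact dvd_neg.1 h5
  have h5 : (X : RZ) ^ (d + 1) ∣ (X ^ d) ^ 2 := by
    rw [← pow_mul]
    exact pow_dvd_pow _ (by omega)
  intro i j
  refine mem_tI.2 (h5.trans ?_)
  have e : mat (NU i0 (mat Z - 1) * Z) - 1 =
      (mat (NU i0 (mat Z - 1)) - 1 - (single i0 i0 (trace (mat Z - 1)) - (mat Z - 1))) +
      (mat (NU i0 (mat Z - 1)) - 1) * (mat Z - 1) + single i0 i0 (trace (mat Z - 1)) := by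
    rw [mat_mul]
    exact qw10_ring _ _ _
  rw [e, Matrix.add_apply, Matrix.add_apply]
  refine dvd_add (dvd_add (h2 i j) (h3 i j)) ?_
  rw [single_apply]
  split_ifs
  · exact h4
  · exact dvd_zero _

end Pool.Agent.Lib.MP_71aad1_an.SS
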