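import Pool.Agent.Lib.MP_71aad1_an.QC1
import Pool.Agent.Lib.MP_71aad1_an.QW10

set_option autoImplicit false

namespace Pool.Agent.Lib.MP_71aad1_an.SS

open Polynomial Matrix Finset Sum

/-! Executing lists of generators; the Newton step in the weighted norm. -/

variable {ι : Type} [Fintype ι] [DecidableEq ι] {r : ℝ}

theorem qc2_mat_prod (l : List (El ι RZ × (ι → ℝ))) :
    mat (l.map Prod.fst).prod = ((l.map fun y => (mat y.1, y.2)).map Prod.fst).prod := by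
  induction l with
  | nil => simp
  | cons y l ih => simp only [List.map_cons, List.prod_cons, mat_mul, ih]

theorem qc2_dvd_mul {o : ι → ℕ} {U P : Matrix ι ι RZ} (hU : ∀ x z, X ^ o x ∣ (U - 1) x z)
    (hP : ∀ x z, X ^ o x ∣ (P - 1) x z) (x z : ι) : X ^ o x ∣ (U * P - 1) x z := by
  have e : U * P - 1 = (U - 1) * P + (P - 1) := by
    simp only [sub_mul, one_mul]
    abel
  rw [e, Matrix.add_apply, Matrix.mul_apply]
  exact dvd_add (Finset.dvd_sum fun j _ => (hU x j).mul_right _) (hP x z)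

theorem qc2_dvd_prod {o : ι → ℕ} (l : List (El ι RZ × (ι → ℝ)))
    (hl : ∀ y ∈ l, ∀ x z, X ^ o x ∣ (mat y.1 - 1) x z) (x z : ι) :
    X ^ o x ∣ (mat (l.map Prod.fst).prod - 1) x z := by
  induction l generalizing x z with
  | nil => simp
  | cons y l ih =>
    rw [List.map_cons, List.prod_cons, mat_mul]
    exact qc2_dvd_mul (hl y List.mem_cons_self)
      (fun x z => ih (fun y' hy' => hl y' (List.mem_cons_of_mem _ hy')) x z) x z

theorem qc2_est (hr : 0 ≤ r) {w : ι → ℝ} (hw : ∀ x, 0 ≤ w x) {τ : ℝ} (h0 : 0 ≤ τ)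
    (h1 : τ ≤ 1 / 2) (l : List (El ι RZ × (ι → ℝ)))
    (hl : ∀ y ∈ l, ∀ x, RowB r w ((mat y.1 - 1) x) (y.2 x))
    (hs : ∀ x, (l.map fun y => y.2 x).sum ≤ τ * w x) (x : ι) :
    RowB r w ((mat (l.map Prod.fst).prod - 1) x) (2 * τ * w x) ∧
    RowB r w ((mat (l.map Prod.fst).prod - 1 - (l.map fun y => mat y.1 - 1).sum) x)
      (2 * τ * τ * w x) := by
  have key := prodEst (K := ℤ) hr hw h0 h1 (l.map fun y => (mat y.1, y.2))
    (by
      intro y hy i
      obtain ⟨y', hy', rfl⟩ := List.mem_map.1 hy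
      exact hl y' hy' i)
    (by
      intro i
      rw [List.map_map]
      exact hs i) x
  rw [← qc2_mat_prod, List.map_map, List.map_map] at key
  have hsx := hs x
  refine ⟨key.1.mono ?_, key.2.mono ?_⟩
  · change 2 * (l.map fun y => y.2 x).sum ≤ _
    linarith
  · change 2 * τ * (l.map fun y => y.2 x).sum ≤ _
    have := mul_le_mul_of_nonneg_left hsx (by linarith : 0 ≤ 2 * τ)
    linarith

omit [DecidableEq ι] in
theorem qc2_row_mul (A B : Matrix ι ι RZ) (x : ι) : (A * B) x = A x ᵥ* B := by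
  ext1 z
  rfl

theorem qc2_sum_nonneg (l : List (El ι RZ × (ι → ℝ))) (x : ι) (h : ∀ y ∈ l, 0 ≤ y.2 x) :
    0 ≤ (l.map fun y => y.2 x).sum := by
  refine List.sum_nonneg fun a ha => ?_
  obtain ⟨y, hy, rfl⟩ := List.mem_map.1 ha
  exact h y hy

/-- `prodEst`, and `(U P - 1) x = (U - 1) x + (P - 1) x + (U - 1) x ᵥ* (P - 1)`. -/
theorem prod_InN (hr : 0 ≤ r) {w : ι → ℝ} (hw : ∀ x, 0 ≤ w x) {o : ι → ℕ} {τ τ₀ : ℝ} (h0 : 0 ≤ τ)
    (h1 : τ ≤ 1 / 2) (h2 : 0 ≤ τ₀) (h3 : τ₀ ≤ 1) (l : List (El ι RZ × (ι → ℝ)))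
    (hl : ∀ y ∈ l, ∀ x, RowB r w ((mat y.1 - 1) x) (y.2 x) ∧ ∀ z, X ^ o x ∣ (mat y.1 - 1) x z)
    (hs : ∀ x, (l.map fun y => y.2 x).sum ≤ τ * w x) {P : Matrix ι ι RZ} (hP : InN r w o τ₀ P) :
    InN r w o (τ₀ + 4 * τ) (mat (l.map Prod.fst).prod * P) := by
  intro x
  refine ⟨qc2_dvd_mul (qc2_dvd_prod l fun y hy x z => (hl y hy x).2 z)
    (fun x z => (hP x).1 z) x, ?_⟩
  have hU := (qc2_est hr hw h0 h1 l (fun y hy x => (hl y hy x).1) hs x).1
  set U := mat (l.map Prod.fst).prod with hUdef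
  have e : U * P - 1 = (U - 1) + (P - 1) + (U - 1) * (P - 1) := by
    simp only [sub_mul, mul_sub, one_mul, mul_one]
    abel
  have e' : (U * P - 1) x = (U - 1) x + (P - 1) x + (U - 1) x ᵥ* (P - 1) := by
    rw [e, ← qc2_row_mul]
    rfl
  rw [e']
  have hV := RowB.vecMul hr hw h2 hU.1 (fun z => (hP z).2)
  refine ((hU.add hr hw (hP x).2).add hr hw hV).mono ?_
  have h4 : 0 ≤ 2 * τ * w x := mul_nonneg (by linarith) (hw x)
  have h5 := mul_le_mul_of_nonneg_right h3 h4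
  nlinarith

/-- Induction on the list with `exec` and `prod_InN`. -/
theorem execList (hr : 0 < r) (hr' : r ≤ 1) {W : Option ι → ℝ} (hW : ∀ x, 0 ≤ W x ∧ W x ≤ 1)
    {O : Option ι → ℕ} {θ τ : ℝ} (hθ : θ ≤ 1) {κ : ℕ} (hκ : O none ≤ κ)
    (hκ' : 12 * N1 r (X ^ κ : RZ) ≤ θ * W none) (h0 : 0 ≤ τ) (hτ : τ ≤ r ^ κ * θ / 16)
    (l : List (El ι RZ × (ι → ℝ)))
    (hl : ∀ y ∈ l, Exe r (fun x => W (some x)) (fun x => O (some x)) κ y.1 y.2)
    (hs : ∀ x, (l.map fun y => y.2 x).sum ≤ τ * W (some x)) {P : Matrix ι ι RZ}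
    (hP : InN r (fun x => W (some x)) (fun x => O (some x)) (θ / 4) P) :
    Conn r W O θ (padM Function.Embedding.some P)
      (padM Function.Embedding.some (mat (l.map Prod.fst).prod * P)) := by
  have hrk : 0 < r ^ κ := pow_pos hr κ
  have hrk1 : r ^ κ ≤ 1 := pow_le_one₀ hr.le hr'
  have hθ0 : 0 ≤ θ := by
    by_contra hneg
    have := mul_neg_of_pos_of_neg hrk (not_le.1 hneg)
    linarith
  have hτ' : τ ≤ θ / 16 := by
    have := mul_le_mul_of_nonneg_right hrk1 hθ0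
    linarith
  have hw : ∀ x : ι, 0 ≤ W (some x) := fun x => (hW (some x)).1
  have hIn : ∀ l' : List (El ι RZ × (ι → ℝ)),
      (∀ y ∈ l', Exe r (fun x => W (some x)) (fun x => O (some x)) κ y.1 y.2) →
      (∀ x, (l'.map fun y => y.2 x).sum ≤ τ * W (some x)) →
      InN r (fun x => W (some x)) (fun x => O (some x)) (θ / 2)
        (mat (l'.map Prod.fst).prod * P) := by
    intro l' h1 h2
    have := prod_InN hr.le hw h0 (by linarith) (by linarith) (by linarith) l'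
      (fun y hy x => ⟨(h1 y hy).1 x, (h1 y hy).2.1 x⟩) h2 hP
    exact this.mono hw (fun _ => le_rfl) (by linarith)
  induction l with
  | nil =>
    rw [List.map_nil, List.prod_nil, mat_one, Matrix.one_mul]
    exact Relation.ReflTransGen.refl
  | cons y l ih =>
    have hy := hl y List.mem_cons_self
    have hl' : ∀ y' ∈ l, Exe r (fun x => W (some x)) (fun x => O (some x)) κ y'.1 y'.2 :=
      fun y' hy' => hl y' (List.mem_cons_of_mem _ hy')
    have hy0 : ∀ x, 0 ≤ y.2 x := fun x => (hy.1 x).nonneg hr.le hw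
    have hl0 : ∀ x, 0 ≤ (l.map fun y => y.2 x).sum := fun x =>
      qc2_sum_nonneg l x fun y' hy' => ((hl' y' hy').1 x).nonneg hr.le hw
    have hsum : ∀ x, y.2 x + (l.map fun y => y.2 x).sum ≤ τ * W (some x) := fun x => by
      have := hs x
      rwa [List.map_cons, List.sum_cons] at this
    have hs' : ∀ x, (l.map fun y => y.2 x).sum ≤ τ * W (some x) := fun x => by
      have := hsum x
      have := hy0 x
      linarith
    have hA := hIn l hl' hs'
    have hB := hIn (y :: l) hl hs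
    rw [List.map_cons, List.prod_cons, mat_mul, Matrix.mul_assoc] at hB ⊢
    refine (ih hl' hs').trans (exec hr hW hθ0 hθ hκ hκ' hy (fun x => ?_) hA hB)
    have h1 := hsum x
    have h2 := hl0 x
    have h3 : τ ≤ r ^ κ * (θ / 2) := by
      have := mul_nonneg hrk.le hθ0
      linarith
    have h4 := mul_le_mul_of_nonneg_right h3 (hw x)
    linarith

/-- With `n = mat Z - 1`, `U = NU i0 n`, `c = 4 + 3 Ω / w₀`:
`U Z - 1 = trace n • E₀₀ + (U - 1 - (trace n • E₀₀ - n)) + (U - 1) n`; `prodEst` with `τ = c θ`,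
`nuList_lin`, `nuList_sum`, `nuList_exe` (with `κ = 0`), and `detTr` with `c x = θ w x`,
`γ = θ Ω`. Note `1 ≤ Ω / w₀`. -/
theorem newton_InN (hr : 0 ≤ r) {w : ι → ℝ} {θ Ω w₀ : ℝ} (hw : ∀ x, 0 ≤ w x ∧ w x ≤ 1)
    (hΩ : ∑ x, w x ≤ Ω) {i0 : ι} (h0 : 0 < w₀) (hw0 : w₀ ≤ w i0) (hθ : 0 ≤ θ)
    (hθ' : (4 + 3 * Ω / w₀) * θ ≤ 1 / 2) {o : ι → ℕ} {Z : El ι RZ} (hZ : InN r w o θ (mat Z))
    (ho0 : ∀ x z, X ^ o i0 ∣ (mat Z - 1) x z) :
    InN r w o (5 * (4 + 3 * Ω / w₀) ^ 2 * θ ^ 2) (mat (NU i0 (mat Z - 1) * Z)) := by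
  have hw' : ∀ x, 0 ≤ w x := fun x => (hw x).1
  set n := mat Z - 1 with hn
  have hnB : ∀ x, RowB r w (n x) (θ * w x) := fun x => (hZ x).2
  have hexe := nuList_exe (κ := 0) (i0 := i0) (o := o) hr hw hnB
    (fun x z => (hZ x).1 z) ho0
  have hsum := nuList_sum hr hw hΩ h0 hw0 hθ hnB
  have hΩ0 : 0 ≤ Ω := (Finset.sum_nonneg fun x _ => hw' x).trans hΩ
  have hw1 : w₀ ≤ 1 := hw0.trans (hw i0).2
  obtain ⟨q, hq⟩ : ∃ q, q = Ω / w₀ := ⟨_, rfl⟩
  have hq0 : 0 ≤ q := hq ▸ div_nonneg hΩ0 h0.le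
  have hΩq : Ω = q * w₀ := by rw [hq, div_mul_cancel₀ _ h0.ne']
  rw [mul_div_assoc, ← hq] at hθ' hsum ⊢
  have hτ0 : 0 ≤ (4 + 3 * q) * θ := mul_nonneg (by linarith) hθ
  intro x
  have hest := qc2_est hr hw' hτ0 hθ' (nuList r w θ i0 n) (fun y hy => (hexe y hy).1) hsum x
  have hdvd := qc2_dvd_prod (nuList r w θ i0 n) (fun y hy => (hexe y hy).2.1)
  rw [nuList_prod] at hest hdvd
  rw [nuList_lin] at hest
  rw [mat_mul]
  refine ⟨qc2_dvd_mul hdvd (fun x z => (hZ x).1 z) x, ?_⟩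
  set U := mat (NU i0 n) with hU
  have hZn : mat Z = 1 + n := by rw [hn, add_sub_cancel]
  have e : U * mat Z - 1 =
      single i0 i0 (trace n) + (U - 1 - (single i0 i0 (trace n) - n)) + (U - 1) * n := by
    rw [hZn]
    simp only [sub_mul, mul_add, one_mul, mul_one]
    abel
  have e' : (U * mat Z - 1) x = (single i0 i0 (trace n) : Matrix ι ι RZ) x +
      (U - 1 - (single i0 i0 (trace n) - n)) x + (U - 1) x ᵥ* n := by
    rw [e, ← qc2_row_mul]
    rfl
  rw [e']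
  have hV := RowB.vecMul hr hw' hθ hest.1.1 hnB
  have hΩle : Ω ≤ q := by
    rw [hΩq]
    exact mul_le_of_le_one_right hq0 hw1
  have htr : N1 r (trace n) ≤ 2 * (θ * Ω) ^ 2 := by
    have h1 := detTr (K := ℤ) hr n (c := fun x => θ * w x) (γ := θ * Ω)
      (fun x y => (hnB x).2 y)
      (by rw [← Finset.mul_sum]; exact mul_le_mul_of_nonneg_left hΩ hθ)
      (by nlinarith [mul_le_mul_of_nonneg_left hΩle hθ, mul_nonneg hθ hq0])
    rwa [← hZn, det_mat, sub_self, zero_sub, N1_neg] at h1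
  have hT : RowB r w ((single i0 i0 (trace n) : Matrix ι ι RZ) x) (2 * (θ * q) ^ 2 * w x) := by
    by_cases hx : x = i0
    · subst hx
      have e2 : (single x x (trace n) : Matrix ι ι RZ) x = Pi.single x (trace n) := by
        ext1 z
        simp [Matrix.single_apply, Pi.single_apply, eq_comm]
      rw [e2]
      refine (RowB.single hr x (hw x).2 _).mono (htr.trans ?_)
      rw [hΩq]
      have h2 : w₀ * w₀ ≤ w x := (mul_le_of_le_one_right h0.le hw1).trans hw0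
      have h3 := mul_le_mul_of_nonneg_left h2 (by positivity : 0 ≤ 2 * (θ * q) ^ 2)
      nlinarith
    · have e2 : (single i0 i0 (trace n) : Matrix ι ι RZ) x = 0 := by
        ext1 z
        simp [Ne.symm hx]
      rw [e2]
      exact RowB.zero (mul_nonneg (by positivity) (hw' x))
  refine ((hT.add hr hw' hest.2).add hr hw' hV).mono ?_
  have h5 : 0 ≤ θ ^ 2 * w x := mul_nonneg (by positivity) (hw' x)
  have h6 : 2 * q ^ 2 + 2 * (4 + 3 * q) ^ 2 + 2 * (4 + 3 * q) ≤ 5 * (4 + 3 * q) ^ 2 := by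
    nlinarith
  have h7 := mul_le_mul_of_nonneg_right h6 h5
  nlinarith

end Pool.Agent.Lib.MP_71aad1_an.SS
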