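import Pool.Agent.Lib.MP_71aad1_an.QDef2

set_option autoImplicit false

namespace Pool.Agent.Lib.MP_71aad1_an.SS

open Polynomial Matrix Finset Sum

/-! Statements of three intermediate theorems (used as hypotheses to keep imports flat). -/

/-- A small element of `Ed (2 k)` is a small product of standard generators. -/
def FinalStmt : Prop :=
  ∀ (ι : Type) [Fintype ι] [DecidableEq ι] (_ : Tri ι) (r : ℝ), 0 < r → r ≤ 1 / 4 → ∀ η : ℝ, 0 < η →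
    ∃ ε : ℝ, 0 < ε ∧ ∃ k₀ : ℕ, ∀ k, k₀ ≤ k → ∀ Z ∈ Ed ι (2 * k), nm r (mat Z - 1) ≤ ε →
      ∃ τ, W0 r k 1 Z η τ

/-- A small element of `Ed d` is connected with the identity by small row operations, with
constants that do not depend on the number of states. -/
def ThmCStmt : Prop :=
  ∀ (r θ₁ Ω w₀ : ℝ) (o₀ : ℕ), 0 < r → r ≤ 1 / 4 → 0 < θ₁ → θ₁ ≤ 1 → 0 < w₀ →
    ∃ (κ d₀ : ℕ) (θ : ℝ), 0 < θ ∧
      ∀ (ι : Type) [Fintype ι] [DecidableEq ι] (T : Tri ι) (W : Option ι → ℝ) (O : Option ι → ℕ),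
        (∀ x, 0 < W x ∧ W x ≤ 1) → ∑ x, W x ≤ Ω →
        w₀ ≤ W none → w₀ ≤ W (some T.i0) → w₀ ≤ W (some T.i1) →
        O none ≤ o₀ → O (some T.i0) ≤ o₀ → O (some T.i1) ≤ o₀ →
        ∀ d, d₀ ≤ d → ∀ Z ∈ Ed ι d, MCong (tI d) (mat Z) →
          InN r (fun x => W (some x)) (fun x => O (some x) + κ) θ (mat Z) →
          Conn r W O θ₁ 1 (padM Function.Embedding.some (mat Z))

/-- Two systems in normal form with the same loops and related presentations are equivalent. -/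
def JointStmt : Prop :=
  ∀ (r₀ r K Ω : ℝ) (ar : RZ) (sm s0 s : ℕ), 0 < r₀ → r₀ < r → r ≤ 1 / 7 → HubA r₀ ar → 1 ≤ s →
    1 ≤ s0 → 1 ≤ K → 1 ≤ Ω → ∃ θ : ℝ, 0 < θ ∧ ∃ M₀ : ℕ, ∀ M, M₀ ≤ M →
      ∀ (O O' P : Type) [Fintype O] [DecidableEq O] [Fintype O'] [DecidableEq O'] [Fintype P]
        [DecidableEq P] (a : P → ℕ × Bool) (BX : Matrix (J (O ⊕ P)) (J (O ⊕ P)) RZ)
        (BY : Matrix (J (O' ⊕ P)) (J (O' ⊕ P)) RZ),
        Side r M s θ K Ω ar sm s0 a BX → Side r M s θ K Ω ar sm s0 a BY →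
        (∀ p b, 1 ≤ p → p < M → p ≤ (univ.filter fun π => a π = (p, b)).card) →
        Rel (1 - BX) (1 - BY) → Sim BX BY

end Pool.Agent.Lib.MP_71aad1_an.SS
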