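import Pool.Agent.Lib.MP_71aad1_an.QS1

set_option autoImplicit false

namespace Pool.Agent.Lib.MP_71aad1_an.SS

open Polynomial Matrix Finset Sum

/-! Congruence subgroups and reading a normal form from its matrix. -/

variable {ι A : Type} [Fintype ι] [DecidableEq ι] [CommRing A]

theorem qs5_z {a b : ι} (h : a ≠ b) (p α : A) : mat ((el ι A).z a b p α) =
    1 + (single a b p + single b a (-(α ^ 2 * p)) +
      (single b b (p * α) + single a a (-(p * α)))) := by
  have e1 : (single b a (-α) : Matrix ι ι A) = -single b a α := (single_neg _ _ _).symm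
  have e2 : (single b a (α * p * -α) : Matrix ι ι A) = single b a (-(α ^ 2 * p)) := by
    congr 1; ring
  have e3 : (single a a (p * -α) : Matrix ι ι A) = single a a (-(p * α)) := by
    congr 1; ring
  simp only [St.z, mat_mul, mat_x h, mat_x h.symm, mul_add, add_mul, one_mul, mul_one,
    single_mul_single_same, single_mul_single_of_ne _ _ _ _ h, e3, mul_comm α p]
  rw [e1, mul_comm p α, e2]
  abel

theorem qs5_cong (J : Ideal A) (M : Matrix ι ι A) :
    MCong J M ↔ (Ideal.Quotient.mk J).mapMatrix M = 1 := by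
  rw [← sub_eq_zero, ← map_one (Ideal.Quotient.mk J).mapMatrix, ← map_sub]
  simp only [MCong, ← Matrix.ext_iff, RingHom.mapMatrix_apply, map_apply, Matrix.zero_apply,
    Ideal.Quotient.eq_zero_iff_mem]

theorem qs5_cong' (J : Ideal A) (g : El ι A) :
    MCong J (mat g) ↔ mapE (Ideal.Quotient.mk J) g = 1 := by
  rw [qs5_cong]
  exact ⟨fun h => mat_inj h, fun h => congrArg mat h⟩

theorem qs5_y {a b : ι} {p q : A} (h : p * q = 0) : (el ι A).y a b p q = 1 := by
  by_cases hab : a = b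
  · subst hab
    exact St.y_diag _ _ _ _
  have e : (el ι A).x a b p * (el ι A).x b a q = (el ι A).x b a q * (el ι A).x a b p := by
    apply mat_inj
    simp only [mat_mul, mat_x hab, mat_x (Ne.symm hab), mul_add, add_mul, one_mul, mul_one,
      single_mul_single_same, h, mul_comm q p, single_zero]
    abel
  rw [St.y, e, St.x_neg, St.x_neg]
  group

theorem mat_z {a b : ι} (h : a ≠ b) (p α : A) : mat ((el ι A).z a b p α) =
    1 + vecMulVec (p • (Pi.single a 1 + Pi.single b α : ι → A))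
      (Pi.single b 1 - Pi.single a α : ι → A) := by
  rw [qs5_z h]
  congr 1
  ext i j
  simp only [Matrix.add_apply, single_apply, vecMulVec_apply, Pi.smul_apply, Pi.add_apply,
    Pi.sub_apply, Pi.single_apply, smul_eq_mul]
  simp only [ite_and, @eq_comm _ i, @eq_comm _ j]
  split_ifs <;> ring

theorem MCong.one (J : Ideal A) : MCong J (1 : Matrix ι ι A) := (qs5_cong J _).2 (map_one _)
theorem MCong.mono {J J' : Ideal A} (h : J ≤ J') {M : Matrix ι ι A} (hM : MCong J M) :
    MCong J' M := fun i j => h (hM i j)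
theorem MCong.mul {J : Ideal A} {M N : Matrix ι ι A} (hM : MCong J M) (hN : MCong J N) :
    MCong J (M * N) := by
  rw [qs5_cong] at hM hN ⊢
  rw [map_mul, hM, hN, one_mul]
theorem MCong.inv {J : Ideal A} {g : El ι A} (h : MCong J (mat g)) : MCong J (mat g⁻¹) := by
  rw [qs5_cong'] at h ⊢
  rw [map_inv, h, inv_one]
theorem MCong.conj {J : Ideal A} {g : El ι A} (h : MCong J (mat g)) (γ : El ι A) :
    MCong J (mat (γ * g * γ⁻¹)) := by
  rw [qs5_cong'] at h ⊢
  rw [map_mul, map_mul, h, mul_one, ← map_mul, mul_inv_cancel, map_one]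
theorem MCong.x {J : Ideal A} (a b : ι) {p : A} (hp : p ∈ J) : MCong J (mat ((el ι A).x a b p)) := by
  rw [qs5_cong', mapE_cpt, Ideal.Quotient.eq_zero_iff_mem.2 hp, St.x_zero]
/-- The commutator is `[[1 + pq + p²q², -p²q], [pq², 1 - pq]]` on the two indices. -/
theorem MCong.y {J : Ideal A} (a b : ι) {p q : A} (h : p * q ∈ J) :
    MCong J (mat ((el ι A).y a b p q)) := by
  rw [qs5_cong', (mapE_cpt _).y]
  exact qs5_y (by rw [← map_mul, Ideal.Quotient.eq_zero_iff_mem.2 h])

/-- The congruence subgroup. -/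
def CG (ι : Type) [Fintype ι] [DecidableEq ι] (J : Ideal A) : Subgroup (El ι A) where
  carrier := {g | MCong J (mat g)}
  mul_mem' h h' := MCong.mul h h'
  one_mem' := MCong.one J
  inv_mem' h := MCong.inv h

theorem mem_CG {J : Ideal A} {g : El ι A} : g ∈ CG ι J ↔ MCong J (mat g) := Iff.rfl
theorem CG_normal (J : Ideal A) : (CG ι J).Normal := ⟨fun _ h γ => MCong.conj h γ⟩
theorem MCong.Zs {J : Ideal A} {g : El ι A} (h : g ∈ (el ι A).Zs J) : MCong J (mat g) := by
  refine (Subgroup.closure_le (CG ι J)).2 ?_ h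
  rintro _ ⟨a, b, p, α, hp, rfl⟩
  change MCong J _
  rw [qs5_cong', (mapE_cpt _).z, Ideal.Quotient.eq_zero_iff_mem.2 hp, St.z_zero_left]

/-- linear part over an ideal of square zero -/
def qs5_Lin (J : Ideal A) (g : El ι A) (L : Matrix ι ι A) : Prop :=
  mat g = 1 + L ∧ ∀ i j, L i j ∈ J

theorem qs5_mul {J : Ideal A} (hJ : ∀ p ∈ J, ∀ q ∈ J, p * q = 0) {g g' : El ι A}
    {L L' : Matrix ι ι A} (h : qs5_Lin J g L) (h' : qs5_Lin J g' L') :
    qs5_Lin J (g * g') (L + L') := by
  refine ⟨?_, fun i j => J.add_mem (h.2 i j) (h'.2 i j)⟩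
  have e : L * L' = 0 := by
    ext i j
    rw [mul_apply]
    exact Finset.sum_eq_zero fun k _ => hJ _ (h.2 i k) _ (h'.2 k j)
  rw [mat_mul, h.1, h'.1, mul_add, add_mul, add_mul, e]
  simp only [mul_one, one_mul]
  abel

omit [Fintype ι] in
theorem qs5_single {J : Ideal A} (a b : ι) {p : A} (hp : p ∈ J) (i j : ι) :
    (single a b p : Matrix ι ι A) i j ∈ J := by
  rw [single_apply]
  split_ifs
  · exact hp
  · exact J.zero_mem

theorem qs5_one (J : Ideal A) : qs5_Lin J (1 : El ι A) 0 :=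
  ⟨by simp, fun _ _ => J.zero_mem⟩

theorem qs5_x {J : Ideal A} {a b : ι} (h : a ≠ b) {p : A} (hp : p ∈ J) :
    qs5_Lin J ((el ι A).x a b p) (single a b p) := ⟨mat_x h p, qs5_single a b hp⟩

theorem qs5_fr {J : Ideal A} (hJ : ∀ p ∈ J, ∀ q ∈ J, p * q = 0) {a b : ι} (h : a ≠ b) {p : A}
    (hp : p ∈ J) (α : A) :
    qs5_Lin J ((el ι A).fr a b p α) (single b b (p * α) + single a a (-(p * α))) := by
  have h1 : α ^ 2 * p ∈ J := J.mul_mem_left _ hp
  have h2 : p * α ∈ J := J.mul_mem_right _ hp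
  have hz : qs5_Lin J ((el ι A).z a b p α) _ := ⟨qs5_z h p α, fun i j =>
    J.add_mem (J.add_mem (qs5_single _ _ hp i j) (qs5_single _ _ (J.neg_mem h1) i j))
      (J.add_mem (qs5_single _ _ h2 i j) (qs5_single _ _ (J.neg_mem h2) i j))⟩
  have h3 := qs5_mul hJ (qs5_mul hJ hz (qs5_x h (J.neg_mem hp))) (qs5_x h.symm h1)
  have e1 : (single a b (-p) : Matrix ι ι A) = -single a b p := (single_neg _ _ _).symm
  have e2 : (single b a (-(α ^ 2 * p)) : Matrix ι ι A) = -single b a (α ^ 2 * p) :=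
    (single_neg _ _ _).symm
  have e : (single a b p + single b a (-(α ^ 2 * p)) +
      (single b b (p * α) + single a a (-(p * α))) + single a b (-p) + single b a (α ^ 2 * p) :
      Matrix ι ι A) = single b b (p * α) + single a a (-(p * α)) := by
    rw [e1, e2]; abel
  rw [e] at h3
  exact h3

theorem qs5_sg {J : Ideal A} (hJ : ∀ p ∈ J, ∀ q ∈ J, p * q = 0) {a b : ι} (h : a ≠ b) {p : A}
    (hp : p ∈ J) (α : A) : (el ι A).sg a b p α = 1 := by
  have e : (el ι A).fr a b p α = (el ι A).fr a b (p * α) 1 := by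
    apply mat_inj
    rw [(qs5_fr hJ h hp α).1, (qs5_fr hJ h (J.mul_mem_right α hp) 1).1, mul_one]
  rw [St.sg, e, mul_inv_cancel]

theorem qs5_prodL {J : Ideal A} (hJ : ∀ p ∈ J, ∀ q ∈ J, p * q = 0) {σ : Type} (l : List σ)
    {F : σ → A → El ι A} {P : σ → A} {L : σ → Matrix ι ι A}
    (h : ∀ s, qs5_Lin J (F s (P s)) (L s)) : qs5_Lin J (prodL l F P) (l.map L).sum := by
  induction l with
  | nil => exact qs5_one J
  | cons s l ih => exact qs5_mul hJ (h s) ih

theorem qs5_read (T : Tri ι) {J : Ideal A} (hJ : ∀ p ∈ J, ∀ q ∈ J, p * q = 0) (g t : A)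
    {P : ι × ι → A} {s : ι → A} {τ γ : A} (hP : ∀ ab, P ab ∈ J) (hs : ∀ a, s a ∈ J) (hτ : τ ∈ J)
    (hγ : γ ∈ J) (h : (el ι A).nf2 T g t P s τ γ = 1) :
    (∀ a b, a ≠ b → P (a, b) = 0) ∧ ∀ a, a ≠ T.i0 → s a = 0 := by
  have h1 := qs5_prodL hJ (univ : Finset (ι × ι)).toList
    (F := fun ab p => (el ι A).x ab.1 ab.2 p) (P := P)
    (L := fun ab => if ab.1 = ab.2 then 0 else single ab.1 ab.2 (P ab)) fun ab => by
      split_ifs with hab
      · rw [hab, (el ι A).diag]; exact qs5_one J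
      · exact qs5_x hab (hP ab)
  have h2 := qs5_prodL hJ (univ : Finset ι).toList
    (F := fun a p => (el ι A).fr a T.i0 p 1) (P := s)
    (L := fun a => if a = T.i0 then 0 else single T.i0 T.i0 (s a * 1) + single a a (-(s a * 1)))
    fun a => by
      split_ifs with ha
      · rw [ha, St.fr_diag]; exact qs5_one J
      · exact qs5_fr hJ ha (hs a) 1
  have h3 := (qs5_mul hJ h1 h2).1
  rw [St.nf2, qs5_sg hJ T.h01 hτ, qs5_sg hJ T.h01 hγ, mul_one, mul_one] at h
  rw [h, mat_one, Finset.sum_map_toList, Finset.sum_map_toList, left_eq_add] at h3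
  constructor
  · intro a b hab
    have h4 := congrFun (congrFun h3 a) b
    rw [Matrix.add_apply, Matrix.sum_apply, Matrix.sum_apply, Finset.sum_eq_single (a, b),
      Finset.sum_eq_zero] at h4
    · simpa [hab] using h4
    · intro c _
      split_ifs
      · rfl
      · rw [Matrix.add_apply, single_apply, single_apply, if_neg, if_neg, add_zero]
        · rintro ⟨rfl, rfl⟩; exact hab rfl
        · rintro ⟨rfl, h5⟩; exact hab h5
    · rintro ⟨c, d⟩ _ hcd
      split_ifs
      · rfl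
      · rw [single_apply, if_neg]
        rintro ⟨rfl, rfl⟩
        exact hcd rfl
    · simp
  · intro a ha
    have h4 := congrFun (congrFun h3 a) a
    rw [Matrix.add_apply, Matrix.sum_apply, Matrix.sum_apply, Finset.sum_eq_zero,
      Finset.sum_eq_single a] at h4
    · simpa [ha, Ne.symm ha] using h4
    · intro c _ hc
      split_ifs
      · rfl
      · rw [Matrix.add_apply, single_apply, single_apply, if_neg, if_neg, add_zero]
        · exact fun h5 => hc h5.1
        · exact fun h5 => ha h5.1.symm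
    · simp
    · rintro ⟨c, d⟩ _
      split_ifs with hcd
      · rfl
      · rw [single_apply, if_neg]
        exact fun h5 => hcd (h5.1.trans h5.2.symm)

/-- Call `L` a linear part of `g` if `L` has entries in `J` and `mat g - 1 - L` has entries in `I`.
Linear parts add under products and change sign under inverses. `x a b p` has `p E a b`,
`fr a b p α` has `-(p α) (E a a - E b b)`, so `sg` has `0`. Read the entries `(a, b)` and `(a, a)`
of the linear part of `nf2`. -/
theorem nf2_read (T : Tri ι) {J I : Ideal A} (hJ : ∀ p ∈ J, ∀ q ∈ J, p * q ∈ I) (g t : A)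
    {P : ι × ι → A} {s : ι → A} {τ γ : A} (hP : ∀ ab, P ab ∈ J) (hs : ∀ a, s a ∈ J) (hτ : τ ∈ J)
    (hγ : γ ∈ J) (h : MCong I (mat ((el ι A).nf2 T g t P s τ γ))) :
    (∀ a b, a ≠ b → P (a, b) ∈ I) ∧ ∀ a, a ≠ T.i0 → s a ∈ I := by
  rw [qs5_cong', (mapE_cpt _).nf2] at h
  have hJ' : ∀ p ∈ J.map (Ideal.Quotient.mk I), ∀ q ∈ J.map (Ideal.Quotient.mk I), p * q = 0 := by
    intro p hp q hq
    obtain ⟨p, hp', rfl⟩ := (Ideal.mem_map_iff_of_surjective _ Ideal.Quotient.mk_surjective).1 hp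
    obtain ⟨q, hq', rfl⟩ := (Ideal.mem_map_iff_of_surjective _ Ideal.Quotient.mk_surjective).1 hq
    rw [← map_mul, Ideal.Quotient.eq_zero_iff_mem.2 (hJ p hp' q hq')]
  have h1 := qs5_read T hJ' _ _ (fun ab => Ideal.mem_map_of_mem _ (hP ab))
    (fun a => Ideal.mem_map_of_mem _ (hs a)) (Ideal.mem_map_of_mem _ hτ)
    (Ideal.mem_map_of_mem _ hγ) h
  exact ⟨fun a b hab => Ideal.Quotient.eq_zero_iff_mem.1 (h1.1 a b hab),
    fun a ha => Ideal.Quotient.eq_zero_iff_mem.1 (h1.2 a ha)⟩

end Pool.Agent.Lib.MP_71aad1_an.SS
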