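import Pool.Agent.Lib.MP_71aad1_an.QS2
import Pool.Agent.Lib.MP_71aad1_an.QS5

set_option autoImplicit false

namespace Pool.Agent.Lib.MP_71aad1_an.SS

open Polynomial Matrix Finset Sum

/-! Suslin's decomposition of a conjugate of an elementary matrix. -/

variable {ι A : Type} [Fintype ι] [DecidableEq ι] [CommRing A]

omit [Fintype ι] in
theorem qs6_single (a b : ι) (s t : A) :
    vecMulVec (Pi.single a s : ι → A) (Pi.single b t : ι → A) = single a b (s * t) := by
  ext i j
  rw [vecMulVec_apply, Pi.single_apply, Pi.single_apply, single_apply]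
  by_cases h1 : i = a
  · by_cases h2 : j = b
    · simp [h1, h2]
    · simp [h2, Ne.symm h2]
  · simp [h1, Ne.symm h1]

theorem qs6_mul_left {w w' u : ι → A} (h : u ⬝ᵥ w' = 0) :
    (1 + vecMulVec w u) * (1 + vecMulVec w' u) = 1 + vecMulVec (w + w') u := by
  rw [mul_add, add_mul, add_mul, vecMulVec_mul_vecMulVec, h, zero_smul, vecMulVec_zero,
    add_vecMulVec]
  simp only [mul_one, one_mul, add_zero, add_assoc]

theorem qs6_mul_right {w u u' : ι → A} (h : u ⬝ᵥ w = 0) :
    (1 + vecMulVec w u) * (1 + vecMulVec w u') = 1 + vecMulVec w (u + u') := by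
  rw [mul_add, add_mul, add_mul, vecMulVec_mul_vecMulVec, h, zero_smul, vecMulVec_zero,
    vecMulVec_add]
  simp only [mul_one, one_mul, add_zero, add_assoc]

theorem qs6_inv {g : El ι A} {N : Matrix ι ι A} (h : mat g = 1 + N) (hN : N * N = 0) :
    mat g⁻¹ = 1 - N := by
  have h1 : mat g * (1 - N) = 1 := by
    rw [h, mul_sub, add_mul, add_mul, hN]
    simp
  have h2 : mat g⁻¹ * (mat g * (1 - N)) = 1 - N := by rw [← mul_assoc, mat_inv_mul, one_mul]
  rwa [h1, mul_one] at h2

theorem qs6_ring {R : Type} [Ring R] {M N : R} (h1 : M * M = 0) (h2 : N * N = 0) (h3 : N * M = 0) :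
    (1 + M) * (1 + N) * (1 - M) * (1 - N) = 1 + M * N := by
  have a1 : (1 + N) * (1 - M) = 1 - M + N := by
    rw [add_mul, one_mul, mul_sub, h3, mul_one, sub_zero]
  have a2 : (1 + M) * (1 - M + N) = 1 + N + M * N := by
    rw [mul_add, mul_sub, add_mul, add_mul, add_mul, h1]
    simp only [mul_one, one_mul]
    abel
  rw [mul_assoc (1 + M), a1, a2, mul_sub, mul_one, add_mul, add_mul, mul_assoc, h2]
  simp only [one_mul, mul_zero]
  abel

theorem qs6_row {l i j : ι} (hi : l ≠ i) (hj : l ≠ j) (s a b : A) :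
    mat ((el ι A).x l i (s * a) * (el ι A).x l j (-(s * b))) =
      1 + vecMulVec (Pi.single l s : ι → A) (Pi.single i a - Pi.single j b : ι → A) := by
  rw [mat_mul, mat_x hi, mat_x hj, ← mul_neg, ← qs6_single, ← qs6_single,
    qs6_mul_right (by simp [hi.symm]), Pi.single_neg, sub_eq_add_neg]

theorem qs6_list {i j : ι} (s : ι → A) (a b : A) (L : List ι) (hL : ∀ l ∈ L, l ≠ i ∧ l ≠ j) :
    mat (L.map fun l => (el ι A).x l i (s l * a) * (el ι A).x l j (-(s l * b))).prod =
      1 + vecMulVec (L.map fun l => (Pi.single l (s l) : ι → A)).sum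
        (Pi.single i a - Pi.single j b : ι → A) ∧
    (Pi.single i a - Pi.single j b : ι → A) ⬝ᵥ
      (L.map fun l => (Pi.single l (s l) : ι → A)).sum = 0 := by
  induction L with
  | nil =>
    refine ⟨?_, dotProduct_zero _⟩
    ext k k'
    simp
  | cons l L ih =>
    obtain ⟨h1, h2⟩ := ih fun k hk => hL k (List.mem_cons_of_mem _ hk)
    obtain ⟨h3, h4⟩ := hL l List.mem_cons_self
    rw [List.map_cons, List.map_cons, List.prod_cons, List.sum_cons, mat_mul, h1, qs6_row h3 h4,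
      qs6_mul_left h2, dotProduct_add, h2]
    refine ⟨rfl, ?_⟩
    simp [h3, h4]

/-- Matrix computation with `vecMulVec`: for `X = 1 + v' eᵀ`, `Y = 1 + e uᵀ` with `u ⬝ v' = 0`,
`v' e = 0`, `u e = 0` one has `X Y X⁻¹ Y⁻¹ = 1 + v' uᵀ`; here `v' = p (v i e_i + v j e_j)` and
`u = v j e_i - v i e_j`. The remaining rows are added by letters. -/
theorem tv_formula {i j e : ι} (h : i ≠ j) (hi : e ≠ i) (hj : e ≠ j) (p : A) (v : ι → A) :
    mat ((el ι A).x i e (p * v i) * (el ι A).x j e (p * v j) *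
        ((el ι A).x e i (v j) * (el ι A).x e j (-v i)) *
        ((el ι A).x i e (p * v i) * (el ι A).x j e (p * v j))⁻¹ *
        ((el ι A).x e i (v j) * (el ι A).x e j (-v i))⁻¹ *
        (((univ : Finset ι).filter fun l => l ≠ i ∧ l ≠ j).toList.map fun l =>
          (el ι A).x l i (p * v l * v j) * (el ι A).x l j (-(p * v l * v i))).prod) =
      1 + vecMulVec (p • v) (Pi.single i (v j) - Pi.single j (v i) : ι → A) := by
  have hu : (Pi.single i (v j) - Pi.single j (v i) : ι → A) ⬝ᵥ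
      (Pi.single i (p * v i) + Pi.single j (p * v j) : ι → A) = 0 := by
    simp [h, h.symm]
    ring
  have h1 : mat ((el ι A).x i e (p * v i) * (el ι A).x j e (p * v j)) =
      1 + vecMulVec (Pi.single i (p * v i) + Pi.single j (p * v j) : ι → A)
        (Pi.single e 1 : ι → A) := by
    rw [mat_mul, mat_x hi.symm, mat_x hj.symm, ← qs6_mul_left (by simp [hj]), qs6_single,
      qs6_single, mul_one, mul_one]
  have h2 : mat ((el ι A).x e i (v j) * (el ι A).x e j (-v i)) =
      1 + vecMulVec (Pi.single e 1 : ι → A) (Pi.single i (v j) - Pi.single j (v i) : ι → A) := by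
    have h3 := qs6_row hi hj (1 : A) (v j) (v i)
    rwa [one_mul, one_mul] at h3
  have a1 : vecMulVec (Pi.single i (p * v i) + Pi.single j (p * v j) : ι → A)
      (Pi.single e 1 : ι → A) * vecMulVec (Pi.single i (p * v i) + Pi.single j (p * v j) : ι → A)
      (Pi.single e 1 : ι → A) = 0 := by
    rw [vecMulVec_mul_vecMulVec]
    simp [hi, hj]
  have a2 : vecMulVec (Pi.single e 1 : ι → A) (Pi.single i (v j) - Pi.single j (v i) : ι → A) *
      vecMulVec (Pi.single e 1 : ι → A) (Pi.single i (v j) - Pi.single j (v i) : ι → A) = 0 := by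
    rw [vecMulVec_mul_vecMulVec]
    simp [hi, hj]
  have a3 : vecMulVec (Pi.single e 1 : ι → A) (Pi.single i (v j) - Pi.single j (v i) : ι → A) *
      vecMulVec (Pi.single i (p * v i) + Pi.single j (p * v j) : ι → A)
        (Pi.single e 1 : ι → A) = 0 := by
    rw [vecMulVec_mul_vecMulVec, hu, zero_smul, vecMulVec_zero]
  obtain ⟨b1, b2⟩ := qs6_list (fun l => p * v l) (v j) (v i)
    ((univ : Finset ι).filter fun l => l ≠ i ∧ l ≠ j).toList
    fun l hl => (mem_filter.1 (mem_toList.1 hl)).2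
  rw [mat_mul, mat_mul, mat_mul, mat_mul, qs6_inv h1 a1, qs6_inv h2 a2, h1, h2, qs6_ring a1 a2 a3,
    b1, vecMulVec_mul_vecMulVec, single_dotProduct, Pi.single_eq_same, one_mul, one_smul,
    qs6_mul_left b2, Finset.sum_map_toList]
  refine congrArg (fun w => 1 + vecMulVec w _) (funext fun k => ?_)
  rw [Pi.add_apply, Pi.add_apply, Finset.sum_apply, Pi.smul_apply, smul_eq_mul]
  simp only [Pi.single_apply, sum_ite_eq, mem_filter, mem_univ, true_and]
  by_cases k1 : k = i
  · simp [k1, h]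
  · by_cases k2 : k = j
    · simp [k2, h.symm]
    · simp [k1, k2]

/-- The rows `u` orthogonal to `v` with `1 + v uᵀ` in the relative subgroup. -/
def qs6_T (J : Ideal A) (v : ι → A) : AddSubmonoid (ι → A) where
  carrier := {u | u ⬝ᵥ v = 0 ∧ ∃ g ∈ (el ι A).Zs J, mat g = 1 + vecMulVec v u}
  zero_mem' := ⟨zero_dotProduct _, 1, one_mem _, by rw [vecMulVec_zero, add_zero, mat_one]⟩
  add_mem' := by
    rintro u u' ⟨h1, g, hg, e⟩ ⟨h2, g', hg', e'⟩
    exact ⟨by rw [add_dotProduct, h1, h2, add_zero], g * g', mul_mem hg hg',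
      by rw [mat_mul, e, e', qs6_mul_right h1]⟩

theorem qs6_dot (i j : ι) (q : A) (v : ι → A) :
    (q • (Pi.single i (v j) - Pi.single j (v i) : ι → A)) ⬝ᵥ v = 0 := by
  rw [smul_dotProduct, sub_dotProduct, single_dotProduct, single_dotProduct, mul_comm, sub_self,
    smul_zero]

theorem qs6_rest {J : Ideal A} (i j : ι) (p : A) (v : ι → A)
    (h : ∀ l, l ≠ i → l ≠ j → p * v l ∈ J) :
    (((univ : Finset ι).filter fun l => l ≠ i ∧ l ≠ j).toList.map fun l =>
      (el ι A).x l i (p * v l * v j) * (el ι A).x l j (-(p * v l * v i))).prod ∈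
      (el ι A).Zs J := by
  refine Subgroup.list_prod_mem _ fun g hg => ?_
  obtain ⟨l, hl, rfl⟩ := List.mem_map.1 hg
  obtain ⟨h1, h2⟩ := (mem_filter.1 (mem_toList.1 hl)).2
  exact mul_mem (St.x_mem _ _ _ (J.mul_mem_right _ (h l h1 h2)))
    (St.x_mem _ _ _ (neg_mem (J.mul_mem_right _ (h l h1 h2))))

theorem qs6_mem (hT : Three ι) {J : Ideal A} (i j : ι) {q : A} (hq : q ∈ J) (v : ι → A) :
    q • (Pi.single i (v j) - Pi.single j (v i) : ι → A) ∈ qs6_T J v := by
  by_cases h : i = j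
  · rw [h, sub_self, smul_zero]
    exact zero_mem _
  obtain ⟨e, hi, hj⟩ := hT i j
  refine ⟨qs6_dot i j q v, _, ?_, (tv_formula h hi hj q v).trans
    (by rw [smul_vecMulVec, vecMulVec_smul])⟩
  have h1 : (el ι A).x i e (q * v i) * (el ι A).x j e (q * v j) ∈ (el ι A).Zs J :=
    mul_mem (St.x_mem _ _ _ (J.mul_mem_right _ hq)) (St.x_mem _ _ _ (J.mul_mem_right _ hq))
  refine mul_mem ?_ (qs6_rest i j q v fun l _ _ => J.mul_mem_right _ hq)
  rw [mul_assoc, mul_assoc, ← mul_assoc _ _ (_⁻¹)]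
  exact mul_mem h1 ((Zs_normal hT J).conj_mem _ (inv_mem h1) _)

theorem qs6_dec {v w z : ι → A} (hw : w ⬝ᵥ v = 0) (hz : z ⬝ᵥ v = 1) (p : A) :
    p • w = ∑ x : ι × ι, (p * w x.1 * z x.2) •
      (Pi.single x.1 (v x.2) - Pi.single x.2 (v x.1) : ι → A) := by
  funext k
  rw [Finset.sum_apply]
  simp only [Pi.smul_apply, Pi.sub_apply, smul_eq_mul, mul_sub, sum_sub_distrib, Pi.single_apply,
    mul_ite, mul_zero]
  rw [Fintype.sum_prod_type_right, Fintype.sum_prod_type]
  simp only [sum_ite_eq, mem_univ, if_true]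
  have h1 : ∑ j, p * w k * z j * v j = p * w k * (z ⬝ᵥ v) := by
    rw [dotProduct, mul_sum]
    exact sum_congr rfl fun j _ => mul_assoc _ _ _
  have h2 : ∑ i, p * w i * z k * v i = p * z k * (w ⬝ᵥ v) := by
    rw [dotProduct, mul_sum]
    exact sum_congr rfl fun j _ => by ring
  rw [h1, h2, hw, hz, mul_one, mul_zero, sub_zero]

theorem qs6_conj {γ γ' : Matrix ι ι A} (h : γ * γ' = 1) (a b : ι) (p : A) :
    γ * (1 + single a b p) * γ' = 1 + vecMulVec (fun k => γ k a) (p • γ' b) := by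
  rw [mul_add, add_mul, mul_one, h, ← one_mul p, ← qs6_single, mul_vecMulVec, vecMulVec_mul,
    mulVec_single_one, single_vecMul, one_mul]
  rfl

theorem qs6_dot_col {γ γ' : Matrix ι ι A} (h' : γ' * γ = 1) (a b : ι) :
    γ' b ⬝ᵥ (fun k => γ k a) = if b = a then 1 else 0 :=
  (congrFun (congrFun h' b) a).trans one_apply

/-- Let `v` be column `a` of `γ`, `w` row `b` and `z` row `a` of `γ'`; `w ⬝ v = 0`, `z ⬝ v = 1`, so
`w = ∑ i ≠ j, w i * z j • (v j e_i - v i e_j)`. The set of `u` with `u ⬝ v = 0` such that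
`1 + p v uᵀ` is the matrix of an element of `Zs (span {p})` is closed under addition; each summand
is covered by `tv_formula` (with `p * w i * z j`) and `Zs_normal`. -/
theorem suslin (hT : Three ι) {γ γ' : Matrix ι ι A} (h : γ * γ' = 1) (h' : γ' * γ = 1) {a b : ι}
    (hab : a ≠ b) (p : A) :
    ∃ g ∈ (el ι A).Zs (Ideal.span {p}), mat g = γ * (1 + single a b p) * γ' := by
  have h1 : p • γ' b ∈ qs6_T (Ideal.span {p}) fun k => γ k a := by
    rw [qs6_dec ((qs6_dot_col h' a b).trans (if_neg hab.symm))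
      ((qs6_dot_col h' a a).trans (if_pos rfl)) p]
    exact sum_mem fun x _ => qs6_mem hT _ _ (Ideal.mul_mem_right _ _ (Ideal.mul_mem_right _ _
      (Ideal.mem_span_singleton_self p))) _
  obtain ⟨-, g, hg, e⟩ := h1
  exact ⟨g, hg, by rw [e, qs6_conj h]⟩

omit [Fintype ι] in
theorem qs6_off {J : Ideal A} {M : Matrix ι ι A} (h : MCong J M) {a b : ι} (hab : a ≠ b) :
    M a b ∈ J := by
  have h1 := h a b
  rwa [Matrix.sub_apply, one_apply_ne hab, sub_zero] at h1

omit [Fintype ι] in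
theorem qs6_diag {J : Ideal A} {M : Matrix ι ι A} (h : MCong J M) (a : ι) : M a a - 1 ∈ J := by
  have h1 := h a a
  rwa [Matrix.sub_apply, one_apply_eq] at h1

theorem qs6_letter (hT : Three ι) {J : Ideal A} [((el ι A).Zs J).Normal] {Y : El ι A}
    (hY : MCong J (mat Y)) (c d : ι) (β : A) :
    QuotientGroup.mk' ((el ι A).Zs J) (Y * (el ι A).x c d β * Y⁻¹) =
      QuotientGroup.mk' ((el ι A).Zs J) ((el ι A).x c d β) := by
  by_cases hcd : c = d
  · rw [hcd, St.diag, mul_one, mul_inv_cancel]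
  set f := QuotientGroup.mk' ((el ι A).Zs J) with hf
  have f1 : ∀ g ∈ (el ι A).Zs J, f g = 1 := fun g hg => (QuotientGroup.eq_one_iff g).2 hg
  have f2 : ∀ a b (p q : A), p - q ∈ J → f ((el ι A).x a b p) = f ((el ι A).x a b q) := by
    intro a b p q h
    rw [← sub_add_cancel p q, St.add, map_mul, f1 _ (St.x_mem _ _ _ h), one_mul]
  have hY' := hY.inv
  obtain ⟨e, hd, hc⟩ := hT d c
  set v : ι → A := fun k => mat Y k c with hv
  set p := β * mat Y⁻¹ d d * mat Y⁻¹ c c with hp
  have h1 := qs6_dec (v := v) ((qs6_dot_col (mat_inv_mul Y) c d).trans (if_neg (Ne.symm hcd)))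
    ((qs6_dot_col (mat_inv_mul Y) c c).trans (if_pos rfl)) β
  rw [← add_sum_erase _ _ (mem_univ (d, c))] at h1
  have h2 : ∑ x ∈ univ.erase (d, c), (β * mat Y⁻¹ d x.1 * mat Y⁻¹ c x.2) •
      (Pi.single x.1 (v x.2) - Pi.single x.2 (v x.1) : ι → A) ∈ qs6_T J v := by
    refine sum_mem fun x hx => qs6_mem hT _ _ ?_ _
    by_cases h3 : d = x.1
    · refine J.mul_mem_left _ (qs6_off hY' fun h4 => (mem_erase.1 hx).1 ?_)
      exact Prod.ext h3.symm h4.symm
    · exact J.mul_mem_right _ (J.mul_mem_left _ (qs6_off hY' h3))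
  obtain ⟨-, g, hg, e2⟩ := h2
  have e1 := tv_formula (Ne.symm hcd) hd hc p v
  rw [smul_vecMulVec, ← vecMulVec_smul] at e1
  have e3 : Y * (el ι A).x c d β * Y⁻¹ = _ * g := mat_inj (by
    rw [mat_mul _ g, e1, e2, qs6_mul_right (qs6_dot d c p v), mat_mul, mat_mul, mat_x hcd,
      qs6_conj (mat_mul_inv Y), h1])
  have v1 : v d ∈ J := qs6_off hY (Ne.symm hcd)
  have v2 : v c - 1 ∈ J := qs6_diag hY c
  have v3 : p * v c - β ∈ J := by
    have a1 := qs6_diag hY' d
    have a2 := qs6_diag hY' c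
    have a3 : p * v c - β = p * (v c - 1) + β * mat Y⁻¹ d d * (mat Y⁻¹ c c - 1) +
        β * (mat Y⁻¹ d d - 1) := by
      rw [hp]
      ring
    rw [a3]
    exact add_mem (add_mem (J.mul_mem_left _ v2) (J.mul_mem_left _ a2)) (J.mul_mem_left _ a1)
  rw [e3, map_mul, f1 g hg, mul_one, map_mul,
    f1 _ (qs6_rest d c p v fun l _ hl => J.mul_mem_left _ (qs6_off hY hl)), mul_one]
  simp only [map_mul, map_inv]
  rw [f1 _ (St.x_mem _ d e (J.mul_mem_left p v1)), f1 _ (St.x_mem _ e c (neg_mem v1)),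
    f2 c e _ _ v3, f2 e d _ _ v2, one_mul, mul_one, ← map_mul,
    (el ι A).cmt c e d β 1 hc.symm hd hcd, mul_one, map_mul, map_mul]
  group

/-- Same decomposition for `Y * x c d β * Y⁻¹`: now `v ≡ e_c`, `z ≡ e_c`, `w ≡ e_d` modulo `J`. The
summands with `(i, j) ≠ (d, c)` have coefficient in `J` and lie in `Zs J`. In the quotient by the
normal subgroup `Zs J` a letter depends only on its argument modulo `J`, and the summand `(d, c)` of
`tv_formula` becomes `[x c e β, x e d 1] = x c d β`. Then `el_induction`. -/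
theorem central (hT : Three ι) {J : Ideal A} {Y : El ι A} (hY : MCong J (mat Y)) (g : El ι A) :
    Y * g * Y⁻¹ * g⁻¹ ∈ (el ι A).Zs J := by
  have := Zs_normal (A := A) hT J
  have h1 : QuotientGroup.mk' ((el ι A).Zs J) (Y * g * Y⁻¹) = QuotientGroup.mk' ((el ι A).Zs J) g := by
    induction g using el_induction with
    | h1 => rw [mul_one, mul_inv_cancel]
    | hs g a b p ih =>
      have e : Y * ((el ι A).x a b p * g) * Y⁻¹ = Y * (el ι A).x a b p * Y⁻¹ * (Y * g * Y⁻¹) := by
        group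
      rw [e, map_mul, ih, qs6_letter hT hY, ← map_mul]
  refine (QuotientGroup.eq_one_iff _).1 ?_
  show QuotientGroup.mk' ((el ι A).Zs J) (Y * g * Y⁻¹ * g⁻¹) = 1
  rw [map_mul, h1, ← map_mul, mul_inv_cancel, map_one]

end Pool.Agent.Lib.MP_71aad1_an.SS
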