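import Pool.Agent.Lib.MP_71aad1_an.QDef2
import Pool.Agent.Lib.MP_71aad1_an.QS6

set_option autoImplicit false

namespace Pool.Agent.Lib.MP_71aad1_an.SS

open Polynomial Matrix Finset Sum

/-! The symbols `y (p, t)` modulo `Ed (d + 1)`. Work in the quotient of `El ι RZ` by the normal
subgroup `Ed ι (d + 1)` with the system `(el ι RZ).map (QuotientGroup.mk' _)`. There letters of order
`d + 1` are trivial and `y a b p q` is central as soon as `t ^ (d + 1) ∣ p q` (`MCong.y`,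
`central`), hence additive in both slots (`y_add_left`, `y_add_right`). -/

section abstr
variable {ι A H : Type} [CommRing A] [Group H] {S : St ι A H} {I : Ideal A}

/-- Letters of level `I` are trivial and commutators with product in `I` are central. -/
structure Qs7Cen (S : St ι A H) (I : Ideal A) : Prop where
  hx : ∀ a b p, p ∈ I → S.x a b p = 1
  hc : ∀ a b p q, p * q ∈ I → ∀ g, S.y a b p q * g = g * S.y a b p q

theorem qs7_left (h : Qs7Cen S I) (a b : ι) {p : A} (hp : p ∈ I) (q : A) : S.y a b p q = 1 := by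
  rw [St.y, h.hx a b p hp, h.hx a b (-p) (neg_mem hp), one_mul, mul_one, ← S.add, add_neg_cancel,
    S.x_zero]

theorem qs7_right (h : Qs7Cen S I) (a b : ι) (p : A) {q : A} (hq : q ∈ I) : S.y a b p q = 1 := by
  rw [St.y, h.hx b a q hq, h.hx b a (-q) (neg_mem hq), mul_one, mul_one, ← S.add, add_neg_cancel,
    S.x_zero]

theorem qs7_add_right (h : Qs7Cen S I) (a b : ι) {p q' : A} (q : A) (hq : p * q' ∈ I) :
    S.y a b p (q + q') = S.y a b p q * S.y a b p q' := by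
  rw [S.y_add_right, ← h.hc a b p q' hq, mul_inv_cancel_right]

theorem qs7_add_left (h : Qs7Cen S I) (a b : ι) (p : A) {p' q : A} (hq : p' * q ∈ I) :
    S.y a b (p + p') q = S.y a b p q * S.y a b p' q := by
  rw [S.y_add_left, ← h.hc a b p' q hq, mul_inv_cancel_right, h.hc a b p' q hq]

theorem qs7_neg_right (h : Qs7Cen S I) (a b : ι) {p q : A} (hq : p * q ∈ I) :
    S.y a b p (-q) = (S.y a b p q)⁻¹ := by
  rw [eq_inv_iff_mul_eq_one, ← qs7_add_right h a b _ hq, neg_add_cancel, S.y_zero_right]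

theorem qs7_neg_left (h : Qs7Cen S I) (a b : ι) {p q : A} (hq : p * q ∈ I) :
    S.y a b (-p) q = (S.y a b p q)⁻¹ := by
  rw [eq_inv_iff_mul_eq_one, ← qs7_add_left h a b _ hq, neg_add_cancel, S.y_zero_left]

theorem qs7_leib (h : Qs7Cen S I) {a b c : ι} (hab : a ≠ b) (hbc : b ≠ c) (hac : a ≠ c)
    {p q β : A} (hI : β * p * q ∈ I) :
    S.y a c p (β * q) = S.y a b (p * q) β * S.y b c (β * p) q := by
  have mem : ∀ r s : A, s = r * (β * p * q) → s ∈ I := fun r s e => e ▸ I.mul_mem_left r hI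
  have h1 := S.R1peel hab hbc hac p q (-β)
  have h2 := S.conj2 hab hbc hac (p * q) (β * p)
  rw [h.hx a c _ (mem (-p) _ (by ring)), one_mul] at h2
  rw [h.hx c a _ (mem (β * q) _ (by ring)), h.hx b a _ (mem β _ (by ring)),
    h.hx c b _ (mem (-q) _ (by ring)), neg_mul, neg_mul, neg_neg, neg_neg,
    qs7_neg_left h a b (mem (-1) _ (by ring)), qs7_neg_right h a b (mem 1 _ (by ring)),
    qs7_neg_left h b c hI, inv_inv, inv_inv, mul_one, mul_one, mul_one] at h1
  have c1 := h.hc a b (p * q) β (mem 1 _ (by ring))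
  have c2 := h.hc b c (β * p) q hI
  have c3 : ∀ g, S.y a b (p * q) β * S.y b c (β * p) q * g =
      g * (S.y a b (p * q) β * S.y b c (β * p) q) := fun g => by
    rw [mul_assoc, c2, ← mul_assoc, c1, mul_assoc]
  rw [h1, c3, ← mul_assoc, ← mul_assoc, ← mul_assoc, h2, ← c3, mul_inv_cancel_right]

theorem qs7_indep {B : Type} (hT : Three ι) (F : ι → ι → B)
    (h1 : ∀ a b c, a ≠ b → b ≠ c → a ≠ c → F a c = F b c)
    (h2 : ∀ a b c, a ≠ b → b ≠ c → a ≠ c → F a c = F a b) {a b c d : ι} (hab : a ≠ b)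
    (hcd : c ≠ d) : F a b = F c d := by
  have g1 : ∀ a b c, b ≠ c → a ≠ c → F a c = F b c := fun a b c h h' => by
    by_cases e : a = b
    · rw [e]
    · exact h1 a b c e h h'
  have g2 : ∀ a b c, a ≠ b → a ≠ c → F a c = F a b := fun a b c h h' => by
    by_cases e : b = c
    · rw [e]
    · exact h2 a b c h e h'
  by_cases had : a = d
  · by_cases hbc : b = c
    · obtain ⟨e, hea, heb⟩ := hT a b
      subst had hbc
      rw [g1 a e b heb hab, g2 e a b hea heb, g1 e b a hcd hea]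
    · rw [g1 a c b (Ne.symm hbc) hab, g2 c d b hcd (Ne.symm hbc)]
  · rw [g2 a d b had hab, g1 a c d hcd had]

theorem qs7_idx (hT : Three ι) (h : Qs7Cen S I) {p t : A} (hp : p * t ∈ I) {a b c d : ι}
    (hab : a ≠ b) (hcd : c ≠ d) : S.y a b p t = S.y c d p t := by
  refine qs7_indep hT (fun a b => S.y a b p t) (fun a b c h1 h2 h3 => ?_)
    (fun a b c h1 h2 h3 => ?_) hab hcd
  · have e := qs7_leib h h1 h2 h3 (p := p) (q := t) (β := 1) (by rwa [one_mul])
    rwa [one_mul, one_mul, qs7_left h a b hp, one_mul] at e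
  · have hp' : t * p ∈ I := by rwa [mul_comm]
    have e := qs7_leib h h1 h2 h3 (p := p) (q := 1) (β := t) (by rwa [mul_one])
    rwa [mul_one, mul_one, qs7_left h b c hp', mul_one] at e

theorem qs7_red (hT : Three ι) (h : Qs7Cen S I) {p t : A} (hp : p * t ∈ I) (r : A) {a b c d : ι}
    (hab : a ≠ b) (hcd : c ≠ d) : S.y a b p (r * t) = S.y c d (r * p) t := by
  obtain ⟨e, hea, heb⟩ := hT a b
  have hp' : r * p * t ∈ I := by
    rw [mul_assoc]
    exact I.mul_mem_left r hp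
  rw [qs7_leib h hea.symm heb hab hp', qs7_left h a e hp, one_mul, qs7_idx hT h hp' heb hcd]

theorem qs7_nat (h : Qs7Cen S I) (a b : ι) {p t : A} (hp : p * t ∈ I) (n : ℕ) :
    S.y a b (n * p) t = S.y a b p t ^ n := by
  induction n with
  | zero => rw [Nat.cast_zero, zero_mul, pow_zero, S.y_zero_left]
  | succ n ih => rw [Nat.cast_succ, add_mul, one_mul, qs7_add_left h a b _ hp, ih, pow_succ]

theorem qs7_tors (hT : Three ι) (h : Qs7Cen S I) {t : A} {d : ℕ} (ht : t ^ (d + 1) ∈ I) (r : A)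
    {a b : ι} (hab : a ≠ b) : S.y a b (((d : A) + 1) * (t ^ d * r)) t = 1 := by
  have mem : ∀ s : A, s = r * t ^ (d + 1) → s ∈ I := fun s e => e ▸ I.mul_mem_left r ht
  have hp : t ^ d * r * t ∈ I := mem _ (by ring)
  have key : ∀ j i, i + j = d + 1 → ∀ a' b', a' ≠ b' →
      S.y a' b' (t ^ i * r) (t ^ j) = S.y a b (t ^ d * r) t ^ j := by
    intro j
    induction j with
    | zero =>
      intro i hi a' b' _
      rw [pow_zero (S.y a b _ _)]
      refine qs7_left h _ _ (mem _ ?_) _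
      rw [← hi]
      ring
    | succ j ih =>
      intro i hi a' b' hab'
      obtain ⟨e, hea, heb⟩ := hT a' b'
      have hd : d = i + j := by omega
      have e1 : t ^ j * (t ^ i * r) = t ^ d * r := by
        rw [hd]
        ring
      have e2 : t ^ i * r * t = t ^ (i + 1) * r := by ring
      rw [pow_succ, qs7_leib h hea.symm heb hab' (by rwa [e1]), e1, e2,
        ih (i + 1) (by omega) a' e hea.symm, qs7_idx hT h hp heb hab, pow_succ]
  have h1 := key (d + 1) 0 (by omega) a b hab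
  rw [qs7_right h a b _ ht] at h1
  rw [← Nat.cast_succ, qs7_nat h a b hp, ← h1]

end abstr

variable {ι : Type} [Fintype ι] [DecidableEq ι]

theorem Ed_normal (hT : Three ι) (d : ℕ) : (Ed ι d).Normal := Zs_normal hT _
theorem Ed_anti {d e : ℕ} (h : d ≤ e) : Ed ι e ≤ Ed ι d :=
  St.Zs_mono _ fun _ hp => mem_tI.2 ((pow_dvd_pow X h).trans (mem_tI.1 hp))

/-- The system in the quotient by `Ed ι e`. -/
noncomputable def qs7Sys (ι : Type) [Fintype ι] [DecidableEq ι] (e : ℕ) [(Ed ι e).Normal] :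
    St ι RZ (El ι RZ ⧸ Ed ι e) := (el ι RZ).map (QuotientGroup.mk' (Ed ι e))

theorem qs7_mk_y (e : ℕ) [(Ed ι e).Normal] (a b : ι) (p q : RZ) :
    QuotientGroup.mk' (Ed ι e) ((el ι RZ).y a b p q) = (qs7Sys ι e).y a b p q :=
  (St.cpt_map (el ι RZ) (QuotientGroup.mk' (Ed ι e))).y a b p q

theorem qs7_mem_iff (e : ℕ) [(Ed ι e).Normal] (g h : El ι RZ) :
    g * h⁻¹ ∈ Ed ι e ↔ QuotientGroup.mk' (Ed ι e) g = QuotientGroup.mk' (Ed ι e) h := by
  rw [QuotientGroup.mk'_apply, QuotientGroup.mk'_apply, QuotientGroup.eq_iff_div_mem,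
    div_eq_mul_inv]

theorem qs7_cen (hT : Three ι) (e : ℕ) [(Ed ι e).Normal] : Qs7Cen (qs7Sys ι e) (tI e) where
  hx a b p hp := (QuotientGroup.eq_one_iff _).2 ((el ι RZ).x_mem a b hp)
  hc a b p q hpq g := by
    obtain ⟨g, rfl⟩ := QuotientGroup.mk'_surjective (Ed ι e) g
    rw [← qs7_mk_y, ← map_mul, ← map_mul, ← qs7_mem_iff, _root_.mul_inv_rev, ← mul_assoc]
    exact central hT (MCong.y a b hpq) g

theorem qs7_mul_X {d : ℕ} {p : RZ} (hp : X ^ d ∣ p) : p * X ∈ tI (d + 1) := by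
  rw [mem_tI, pow_succ]
  exact mul_dvd_mul_right hp X

theorem y_add_Ed (T : Tri ι) {d : ℕ} {p p' : RZ} (hp : X ^ d ∣ p) (hp' : X ^ d ∣ p') :
    (el ι RZ).y T.i0 T.i1 (p + p') X *
      ((el ι RZ).y T.i0 T.i1 p X * (el ι RZ).y T.i0 T.i1 p' X)⁻¹ ∈ Ed ι (d + 1) := by
  have := Ed_normal T.three (d + 1)
  rw [qs7_mem_iff, map_mul, qs7_mk_y, qs7_mk_y, qs7_mk_y]
  exact qs7_add_left (qs7_cen T.three _) _ _ _ (qs7_mul_X hp')

/-- `R1peel` with `β = -c`, `q = X` gives `y a c p (c t) = y b c (c p) t` (so the first index is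
free), and with `β = -X`, `q = 1` gives `y a c p t = y a b p t` (the second index is free). -/
theorem y_red_Ed (T : Tri ι) {d : ℕ} {a b : ι} (h : a ≠ b) {p : RZ} (hp : X ^ d ∣ p) (c : RZ) :
    (el ι RZ).y a b p (c * X) * ((el ι RZ).y T.i0 T.i1 (c * p) X)⁻¹ ∈ Ed ι (d + 1) := by
  have := Ed_normal T.three (d + 1)
  rw [qs7_mem_iff, qs7_mk_y, qs7_mk_y]
  exact qs7_red T.three (qs7_cen T.three _) (qs7_mul_X hp) c h T.h01

/-- Let `p = c t ^ d`, `D a b j = y a b (c t ^ (d + 1 - j)) (t ^ j)`. `R1peel` with `β = -t ^ j`,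
`q = t` gives `D a c (j + 1) = D a b j * y b c p t` for `1 ≤ j ≤ d` (the leftover commutator
`[x b c, x a b]` has order at least `d + 1`), so `D a b j` is the `j`-th power of the symbol, and
`D a b (d + 1)` is trivial. -/
theorem y_tors_Ed (T : Tri ι) {d : ℕ} {p : RZ} (hp : X ^ d ∣ p) :
    (el ι RZ).y T.i0 T.i1 (((d : RZ) + 1) * p) X ∈ Ed ι (d + 1) := by
  have := Ed_normal T.three (d + 1)
  obtain ⟨r, rfl⟩ := hp
  rw [← QuotientGroup.eq_one_iff, ← QuotientGroup.mk'_apply, qs7_mk_y]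
  exact qs7_tors T.three (qs7_cen T.three _) (mem_tI.2 dvd_rfl) r T.h01

/-- The elements of this shape form a normal subgroup containing the generators of `Nd`. -/
theorem Nd_mem (T : Tri ι) {d : ℕ} {Z : El ι RZ} (h : Z ∈ Nd ι d) :
    ∃ p, X ^ d ∣ p ∧ Z * ((el ι RZ).y T.i0 T.i1 p X)⁻¹ ∈ Ed ι (d + 1) := by
  have := Ed_normal T.three (d + 1)
  have hC := qs7_cen T.three (d + 1)
  let K : Subgroup (El ι RZ) :=
    { carrier := {Z | ∃ p, X ^ d ∣ p ∧
        QuotientGroup.mk' (Ed ι (d + 1)) Z = (qs7Sys ι (d + 1)).y T.i0 T.i1 p X}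
      mul_mem' := by
        rintro _ _ ⟨p, hp, e⟩ ⟨p', hp', e'⟩
        exact ⟨p + p', dvd_add hp hp', by
          rw [map_mul, e, e', qs7_add_left hC _ _ _ (qs7_mul_X hp')]⟩
      one_mem' := ⟨0, dvd_zero _, by rw [map_one, St.y_zero_left]⟩
      inv_mem' := by
        rintro _ ⟨p, hp, e⟩
        exact ⟨-p, hp.neg_right, by rw [map_inv, e, qs7_neg_left hC _ _ (qs7_mul_X hp)]⟩ }
  have hK : K.Normal := ⟨by
    rintro n ⟨p, hp, e⟩ g
    exact ⟨p, hp, by
      rw [map_mul, map_mul, map_inv, e, ← hC.hc _ _ _ _ (qs7_mul_X hp), mul_inv_cancel_right]⟩⟩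
  have hle : Nd ι d ≤ K := by
    refine Subgroup.normalClosure_le_normal ?_
    rintro g (hg | ⟨a, b, p, q, hp, ⟨c, rfl⟩, rfl⟩)
    · exact ⟨0, dvd_zero _, by
        rw [St.y_zero_left]
        exact (QuotientGroup.eq_one_iff _).2 hg⟩
    · by_cases hab : a = b
      · subst hab
        rw [St.y_diag]
        exact K.one_mem
      · exact ⟨c * p, hp.mul_left c, by
          rw [qs7_mk_y, mul_comm X c]
          exact qs7_red T.three hC (qs7_mul_X hp) c hab T.h01⟩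
  obtain ⟨p, hp, e⟩ := hle h
  exact ⟨p, hp, by rw [qs7_mem_iff, e, qs7_mk_y]⟩

/-- Reduce `p` modulo `t ^ (d + 1)` and modulo `d + 1`. -/
theorem Nd_mem' (T : Tri ι) {d : ℕ} {Z : El ι RZ} (h : Z ∈ Nd ι d) :
    ∃ n₁ n₂ : ℕ, n₁ ≤ d ∧ n₂ ≤ d ∧
      Z * ((el ι RZ).y T.i0 T.i1 (((n₁ : RZ) + (n₂ : RZ) * gR) * X ^ d) X)⁻¹ ∈ Ed ι (d + 1) := by
  have := Ed_normal T.three (d + 1)
  have hC := qs7_cen T.three (d + 1)
  obtain ⟨p, ⟨r, rfl⟩, e⟩ := Nd_mem T h
  rw [qs7_mem_iff, qs7_mk_y] at e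
  have split : ∀ m : ℤ, ∃ (n : ℕ) (k : ℤ), n ≤ d ∧ m = n + (d + 1) * k := fun m => by
    have h0 : (0 : ℤ) < d + 1 := by positivity
    have h1 := Int.emod_nonneg m h0.ne'
    have h2 := Int.emod_lt_of_pos m h0
    refine ⟨(m % (d + 1)).toNat, m / (d + 1), by omega, ?_⟩
    rw [Int.toNat_of_nonneg h1, Int.emod_add_mul_ediv]
  obtain ⟨n₁, k₁, hn₁, e₁⟩ := split (r.coeff 0).re
  obtain ⟨n₂, k₂, hn₂, e₂⟩ := split (r.coeff 0).im
  have h0 : r.coeff 0 = ((n₁ : Lam ℤ) + (n₂ : Lam ℤ) * gL) +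
      ((d : Lam ℤ) + 1) * ((k₁ : Lam ℤ) + (k₂ : Lam ℤ) * gL) := by
    ext
    · simp [gL, e₁, QuadraticAlgebra.re_one, QuadraticAlgebra.im_one]
    · simp [gL, e₂, QuadraticAlgebra.re_one, QuadraticAlgebra.im_one]
  have h1 : X ^ d * r = ((n₁ : RZ) + (n₂ : RZ) * gR) * X ^ d +
      (((d : RZ) + 1) * (X ^ d * ((k₁ : RZ) + (k₂ : RZ) * gR)) + X ^ (d + 1) * r.divX) := by
    conv_lhs => rw [← X_mul_divX_add r, h0]
    simp only [gR, map_add, map_mul, map_natCast, map_intCast, map_one]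
    ring
  refine ⟨n₁, n₂, hn₁, hn₂, ?_⟩
  have m1 : X ^ (d + 1) * r.divX ∈ tI (d + 1) := mem_tI.2 (dvd_mul_right _ _)
  rw [qs7_mem_iff, qs7_mk_y, e, h1, qs7_add_left hC, qs7_add_left hC,
    qs7_tors T.three hC (mem_tI.2 dvd_rfl) _ T.h01, qs7_left hC _ _ m1, mul_one, mul_one]
  · exact Ideal.mul_mem_right _ _ m1
  · exact qs7_mul_X (dvd_add ((dvd_mul_right _ _).mul_left _)
      ((pow_dvd_pow X (Nat.le_succ d)).mul_right _))

end Pool.Agent.Lib.MP_71aad1_an.SS
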