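import Pool.Agent.Lib.MP_71aad1_an.QS4
import Pool.Agent.Lib.MP_71aad1_an.QS7
import Pool.Agent.Lib.MP_71aad1_an.QA3

set_option autoImplicit false

namespace Pool.Agent.Lib.MP_71aad1_an.SS

open Polynomial Matrix Finset Sum

/-! The symbol `τ dg` modulo `Nd`. Work in the quotient by the normal subgroup `Nd ι d` with the
system `S = (el ι RZ).map (QuotientGroup.mk' _)`, which satisfies `S.Ab2 (tI d) (tI d)` for
`1 ≤ d`; transfer with `St.cpt_map`, `St.Cpt.nf2`. -/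

variable {ι : Type} [Fintype ι] [DecidableEq ι]

theorem Ed_le_Nd (d : ℕ) : Ed ι (d + 1) ≤ Nd ι d :=
  fun _ hg => Subgroup.subset_normalClosure (Or.inl hg)
theorem Nd_le_Ed (hT : Three ι) (d : ℕ) : Nd ι d ≤ Ed ι d := by
  have := Ed_normal hT d
  refine Subgroup.normalClosure_le_normal ?_
  rintro g (hg | ⟨a, b, p, q, hp, _, rfl⟩)
  · exact Ed_anti (Nat.le_succ d) hg
  · exact (el ι RZ).y_mem a b (mem_tI.2 hp) q
theorem Nd_cong {d : ℕ} {Z : El ι RZ} (h : Z ∈ Nd ι d) : MCong (tI (d + 1)) (mat Z) := by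
  have := CG_normal (ι := ι) (tI (d + 1))
  have hle : Nd ι d ≤ CG ι (tI (d + 1)) := by
    refine Subgroup.normalClosure_le_normal ?_
    rintro g (hg | ⟨a, b, p, q, hp, hq, rfl⟩)
    · exact MCong.Zs hg
    · refine MCong.y a b (mem_tI.2 ?_)
      rw [pow_succ]
      exact mul_dvd_mul hp hq
  exact hle h

theorem qs8_quot (ι : Type) [Fintype ι] [DecidableEq ι] (d : ℕ) :
    ∃ (H : Type) (_ : Group H) (f : El ι RZ →* H), ∀ g, f g = 1 ↔ g ∈ Nd ι d := by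
  have : (Nd ι d).Normal := Subgroup.normalClosure_normal
  exact ⟨El ι RZ ⧸ Nd ι d, inferInstance, QuotientGroup.mk' _, fun g =>
    QuotientGroup.eq_one_iff g⟩

section quot
variable {H : Type} [Group H] {f : El ι RZ →* H} {d : ℕ}

theorem qs8_Ed (hf : ∀ g, f g = 1 ↔ g ∈ Nd ι d) {g : El ι RZ}
    (hg : g ∈ (el ι RZ).Zs (tI (d + 1))) : f g = 1 :=
  (hf g).2 (Ed_le_Nd d hg)

theorem qs8_x (hf : ∀ g, f g = 1 ↔ g ∈ Nd ι d) (a b : ι) {p : RZ} (hp : X ^ (d + 1) ∣ p) :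
    ((el ι RZ).map f).x a b p = 1 :=
  qs8_Ed hf ((el ι RZ).x_mem a b (mem_tI.2 hp))

theorem qs8_y (hf : ∀ g, f g = 1 ↔ g ∈ Nd ι d) (a b : ι) {p q : RZ} (hp : X ^ d ∣ p)
    (hq : X ∣ q) : ((el ι RZ).map f).y a b p q = 1 := by
  have h := (St.cpt_map (el ι RZ) f).y a b p q
  rw [RingHom.id_apply, RingHom.id_apply] at h
  rw [← h, hf]
  exact Subgroup.subset_normalClosure (Or.inr ⟨a, b, p, q, hp, hq, rfl⟩)

theorem qs8_fr (hf : ∀ g, f g = 1 ↔ g ∈ Nd ι d) (a b : ι) {p : RZ} (hp : X ^ (d + 1) ∣ p)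
    (α : RZ) : ((el ι RZ).map f).fr a b p α = 1 := by
  have h := (St.cpt_map (el ι RZ) f).fr a b p α
  rw [RingHom.id_apply, RingHom.id_apply] at h
  rw [← h]
  exact qs8_Ed hf ((el ι RZ).fr_mem a b (mem_tI.2 hp) α)

theorem qs8_sg (hf : ∀ g, f g = 1 ↔ g ∈ Nd ι d) (a b : ι) {p : RZ} (hp : X ^ (d + 1) ∣ p)
    (α : RZ) : ((el ι RZ).map f).sg a b p α = 1 := by
  have h := (St.cpt_map (el ι RZ) f).sg a b p α
  rw [RingHom.id_apply, RingHom.id_apply] at h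
  rw [← h]
  exact qs8_Ed hf ((el ι RZ).sg_mem a b (mem_tI.2 hp) α)

theorem qs8_Ab2 (hf : ∀ g, f g = 1 ↔ g ∈ Nd ι d) (hd : 1 ≤ d) :
    ((el ι RZ).map f).Ab2 (tI d) (tI d) := by
  intro a b p q hp hq
  have hq' : (X : RZ) ∣ q := (dvd_pow_self X (by omega)).trans (mem_tI.1 hq)
  refine ⟨qs8_x hf a b ?_, qs8_y hf a b (mem_tI.1 hp) hq'⟩
  rw [pow_succ]
  exact mul_dvd_mul (mem_tI.1 hp) hq'

theorem qs8_cl_iff (hf : ∀ g, f g = 1 ↔ g ∈ Nd ι d) (T : Tri ι) (Z : El ι RZ) (τ : RZ) :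
    Cl T d Z τ ↔ X ^ d ∣ τ ∧ ∃ (P : ι × ι → RZ) (s : ι → RZ), (∀ ab, X ^ d ∣ P ab) ∧
      (∀ a, X ^ d ∣ s a) ∧ f Z = ((el ι RZ).map f).nf2 T gR X P s 0 τ := by
  have h : ∀ (P : ι × ι → RZ) (s : ι → RZ),
      Z * ((el ι RZ).nf2 T gR X P s 0 τ)⁻¹ ∈ Nd ι d ↔
        f Z = ((el ι RZ).map f).nf2 T gR X P s 0 τ := by
    intro P s
    have h1 : f ((el ι RZ).nf2 T gR X P s 0 τ) = ((el ι RZ).map f).nf2 T gR X P s 0 τ :=
      (St.cpt_map (el ι RZ) f).nf2 T gR X P s 0 τ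
    rw [← hf, map_mul, map_inv, mul_inv_eq_one, h1]
  simp only [Cl, h]

theorem qs8_nf2 (T : Tri ι) (P : ι × ι → RZ) (s : ι → RZ) (τ : RZ) :
    ((el ι RZ).map f).nf2 T gR X P s 0 τ =
      ((el ι RZ).map f).nf2 T gR X P s 0 0 * ((el ι RZ).map f).sg T.i0 T.i1 τ gR := by
  rw [St.nf2_sg T gR X P s 0 τ, St.sg_zero, mul_one]

theorem qs8_sg_X (hf : ∀ g, f g = 1 ↔ g ∈ Nd ι d) (a b : ι) {p α : RZ} (hp : X ^ d ∣ p)
    (hα : X ∣ α) : ((el ι RZ).map f).sg a b p α = 1 := by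
  have h1 := qs8_y hf a b (dvd_neg.2 hp) hα
  rw [St.y_eq, neg_neg, St.x_neg, inv_mul_eq_one] at h1
  have h2 : X ^ (d + 1) ∣ p * α := by
    rw [pow_succ]
    exact mul_dvd_mul hp hα
  have h3 : X ^ (d + 1) ∣ α ^ 2 * p := by
    have e : α ^ 2 * p = p * α * α := by ring
    rw [e]
    exact h2.mul_right α
  rw [St.sg, qs8_fr hf a b h2, St.fr, ← h1, St.x_neg, qs8_x hf b a h3]
  simp

end quot

theorem qs8_C (c : Lam ℤ) : (C c : RZ) = (c.re : RZ) + (c.im : RZ) * gR := by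
  conv_lhs => rw [Lam_eq c]
  rw [map_add, map_mul, map_intCast, map_intCast]
  rfl

theorem qs8_split (β : RZ) :
    β = X * β.divX + ((β.coeff 0).re : RZ) + ((β.coeff 0).im : RZ) * gR := by
  rw [add_assoc, ← qs8_C, Polynomial.X_mul_divX_add]

theorem Cl.of_mem (T : Tri ι) {d : ℕ} {Z : El ι RZ} (h : Z ∈ Nd ι d) : Cl T d Z 0 := by
  refine ⟨dvd_zero _, 0, 0, fun _ => dvd_zero _, fun _ => dvd_zero _, ?_⟩
  rwa [St.nf2_zero, inv_one, mul_one]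
theorem Cl.mem_Ed {T : Tri ι} {d : ℕ} {Z : El ι RZ} {τ : RZ} (h : Cl T d Z τ) : Z ∈ Ed ι d := by
  obtain ⟨hτ, P, s, hP, hs, h⟩ := h
  have h1 : (el ι RZ).nf2 T gR X P s 0 τ ∈ Ed ι d :=
    St.nf2_mem T gR X (fun ab => mem_tI.2 (hP ab)) (fun a => mem_tI.2 (hs a)) (zero_mem _)
      (mem_tI.2 hτ)
  have h2 := mul_mem (Nd_le_Ed T.three d h) h1
  rwa [inv_mul_cancel_right] at h2
theorem Cl.mul {T : Tri ι} {d : ℕ} (hd : 1 ≤ d) {Z Z' : El ι RZ} {τ τ' : RZ} (h : Cl T d Z τ)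
    (h' : Cl T d Z' τ') : Cl T d (Z * Z') (τ + τ') := by
  obtain ⟨H, _, f, hf⟩ := qs8_quot ι d
  obtain ⟨hτ, P, s, hP, hs, h⟩ := (qs8_cl_iff hf T Z τ).1 h
  obtain ⟨hτ', P', s', hP', hs', h'⟩ := (qs8_cl_iff hf T Z' τ').1 h'
  refine (qs8_cl_iff hf T _ _).2 ⟨dvd_add hτ hτ', P + P', s + s', fun ab => dvd_add (hP ab) (hP' ab),
    fun a => dvd_add (hs a) (hs' a), ?_⟩
  rw [map_mul, h, h', St.nf2_mul T (qs8_Ab2 hf hd) gR X (fun ab => mem_tI.2 (hP ab))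
    (fun a => mem_tI.2 (hs a)) (zero_mem _) (mem_tI.2 hτ) (fun ab => mem_tI.2 (hP' ab))
    (fun a => mem_tI.2 (hs' a)) (zero_mem _) (mem_tI.2 hτ'), add_zero]
/-- `β = β₀ + t β'`; `sg p (t β') = 1` because `y a b (-p) (t β')` is trivial, and
`β₀ = re + im * g`. -/
theorem Cl.z (T : Tri ι) {d : ℕ} (hd : 1 ≤ d) {a b : ι} (hab : a ≠ b) {p : RZ} (hp : X ^ d ∣ p)
    (β : RZ) : Cl T d ((el ι RZ).z a b p β) (((β.coeff 0).im : RZ) * p) := by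
  obtain ⟨H, _, f, hf⟩ := qs8_quot ι d
  have hA := qs8_Ab2 hf hd
  have hp' : p ∈ tI d := mem_tI.2 hp
  obtain ⟨P, s, hP, hs, h⟩ := St.z_nf2 T hA gR X hab hp' β
  refine (qs8_cl_iff hf T _ _).2 ⟨hp.mul_left _, P, s, fun ab => mem_tI.1 (hP ab),
    fun a => mem_tI.1 (hs a), ?_⟩
  have h1 : f ((el ι RZ).z a b p β) = ((el ι RZ).map f).z a b p β :=
    (St.cpt_map (el ι RZ) f).z a b p β
  have h2 : ((el ι RZ).map f).sg T.i0 T.i1 p β =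
      ((el ι RZ).map f).sg T.i0 T.i1 (((β.coeff 0).im : RZ) * p) gR := by
    conv_lhs => rw [qs8_split β]
    rw [St.sg_add_right T.three hA _ _ hp', St.sg_add_right T.three hA _ _ hp',
      qs8_sg_X hf _ _ hp (dvd_mul_right _ _), one_mul, St.sg_intCast_mul T.three hA _ _ hp',
      ← mul_one ((β.coeff 0).re : RZ), St.sg_intCast_mul T.three hA _ _ hp', St.sg_one, one_mul]
  rw [h1, h, h2, qs8_nf2 T P s (((β.coeff 0).im : RZ) * p)]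
theorem Cl.x (T : Tri ι) {d : ℕ} (hd : 1 ≤ d) (a b : ι) {p : RZ} (hp : X ^ d ∣ p) :
    Cl T d ((el ι RZ).x a b p) 0 := by
  by_cases hab : a = b
  · rw [hab, (el ι RZ).diag]
    exact Cl.of_mem T (one_mem _)
  · have h := Cl.z T hd hab hp 0
    rw [St.z_zero_right] at h
    have e : ((((0 : RZ).coeff 0).im : ℤ) : RZ) * p = 0 := by simp
    rwa [e] at h
theorem Cl.of_Ed (T : Tri ι) {d : ℕ} (hd : 1 ≤ d) {Z : El ι RZ} (h : Z ∈ Ed ι d) :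
    ∃ τ, Cl T d Z τ := by
  obtain ⟨l, hl, rfl⟩ := (St.mem_Zs_iff_list (el ι RZ)).1 h
  clear h
  induction l with
  | nil => exact ⟨0, Cl.of_mem T (one_mem _)⟩
  | cons x l ih =>
    obtain ⟨τ, hτ⟩ := ih fun y hy => hl y (List.mem_cons_of_mem _ hy)
    rw [List.map_cons, List.prod_cons]
    by_cases hab : x.1 = x.2.1
    · rw [hab, St.z_diag, one_mul]
      exact ⟨τ, hτ⟩
    · exact ⟨_, (Cl.z T hd hab (mem_tI.1 (hl x List.mem_cons_self)) x.2.2.2).mul hd hτ⟩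
theorem Cl.congr {T : Tri ι} {d : ℕ} (hd : 1 ≤ d) {Z : El ι RZ} {τ τ' γ δ : RZ} (h : Cl T d Z τ)
    (hγ : X ^ d ∣ γ) (hδ : X ^ (d + 1) ∣ δ) (e : τ' = τ + 2 * γ + δ) : Cl T d Z τ' := by
  obtain ⟨H, _, f, hf⟩ := qs8_quot ι d
  have hA := qs8_Ab2 hf hd
  obtain ⟨hτ, P, s, hP, hs, h⟩ := (qs8_cl_iff hf T Z τ).1 h
  have hδ' : X ^ d ∣ δ := (pow_dvd_pow X (Nat.le_succ d)).trans hδ
  have h2 : X ^ d ∣ 2 * γ := hγ.mul_left 2
  refine (qs8_cl_iff hf T _ _).2 ⟨e ▸ dvd_add (dvd_add hτ h2) hδ', P, s, hP, hs, ?_⟩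
  rw [h, qs8_nf2 T P s τ, qs8_nf2 T P s τ', e,
    St.sg_add_left T.three hA _ _ (mem_tI.2 (dvd_add hτ h2)) (mem_tI.2 hδ'),
    St.sg_add_left T.three hA _ _ (mem_tI.2 hτ) (mem_tI.2 h2),
    St.sg_two T.three hA _ _ (mem_tI.2 hγ) gR_mul_gR, qs8_sg hf _ _ hδ, mul_one, mul_one]
theorem Cl.reduce {T : Tri ι} {d : ℕ} (hd : 1 ≤ d) {Z : El ι RZ} {τ : RZ} (h : Cl T d Z τ) :
    ∃ n₁ n₂ : ℕ, n₁ ≤ 1 ∧ n₂ ≤ 1 ∧ Cl T d Z (((n₁ : RZ) + (n₂ : RZ) * gR) * X ^ d) := by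
  obtain ⟨c, hc⟩ := h.1
  have key : ∀ m : ℤ, ∃ (n : ℕ) (k : ℤ), n ≤ 1 ∧ (m : RZ) = 2 * (k : RZ) + (n : RZ) := by
    intro m
    rcases Int.even_or_odd' m with ⟨k, hk | hk⟩
    · exact ⟨0, k, zero_le_one, by rw [hk]; push_cast; ring⟩
    · exact ⟨1, k, le_rfl, by rw [hk]; push_cast; ring⟩
  obtain ⟨n₁, k₁, h₁, e₁⟩ := key (c.coeff 0).re
  obtain ⟨n₂, k₂, h₂, e₂⟩ := key (c.coeff 0).im
  refine ⟨n₁, n₂, h₁, h₂, h.congr hd (γ := X ^ d * -((k₁ : RZ) + (k₂ : RZ) * gR))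
    (δ := X ^ (d + 1) * -c.divX) (dvd_mul_right _ _) (dvd_mul_right _ _) ?_⟩
  have e := qs8_split c
  rw [e₁, e₂] at e
  rw [hc]
  linear_combination (-(X ^ d : RZ)) * e
/-- `nf2_read` with `J = tI d`, `I = tI (d + 1)`. -/
theorem Cl.read {T : Tri ι} {d : ℕ} (hd : 1 ≤ d) {Z : El ι RZ} {τ : RZ} (h : Cl T d Z τ)
    (hZ : MCong (tI (d + 1)) (mat Z)) : Z * ((el ι RZ).sg T.i0 T.i1 τ gR)⁻¹ ∈ Nd ι d := by
  obtain ⟨H, _, f, hf⟩ := qs8_quot ι d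
  obtain ⟨hτ, P, s, hP, hs, h⟩ := h
  have h1 : (el ι RZ).nf2 T gR X P s 0 τ ∈ CG ι (tI (d + 1)) := by
    have h2 : Z * ((el ι RZ).nf2 T gR X P s 0 τ)⁻¹ ∈ CG ι (tI (d + 1)) := Nd_cong h
    have h3 := mul_mem (inv_mem h2) (mem_CG.2 hZ)
    rwa [_root_.mul_inv_rev, inv_inv, inv_mul_cancel_right] at h3
  have hJ : ∀ p ∈ tI d, ∀ q ∈ tI d, p * q ∈ tI (d + 1) := by
    intro p hp q hq
    rw [mem_tI, pow_succ]
    exact mul_dvd_mul (mem_tI.1 hp) ((dvd_pow_self X (by omega)).trans (mem_tI.1 hq))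
  obtain ⟨hP', hs'⟩ := nf2_read T hJ gR X (fun ab => mem_tI.2 (hP ab)) (fun a => mem_tI.2 (hs a))
    (zero_mem _) (mem_tI.2 hτ) h1
  have h4 : f ((el ι RZ).nf2 T gR X P s 0 τ) = ((el ι RZ).map f).nf2 T gR X P s 0 τ :=
    (St.cpt_map (el ι RZ) f).nf2 T gR X P s 0 τ
  have h5 : f ((el ι RZ).sg T.i0 T.i1 τ gR) = ((el ι RZ).map f).sg T.i0 T.i1 τ gR :=
    (St.cpt_map (el ι RZ) f).sg T.i0 T.i1 τ gR
  rw [← hf, map_mul, map_inv, mul_inv_eq_one, h4] at h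
  rw [← hf, map_mul, map_inv, mul_inv_eq_one, h5, h, St.nf2, St.sg_zero, prodL_eq_one,
    prodL_eq_one, one_mul, one_mul, one_mul]
  · intro a _
    by_cases ha : a = T.i0
    · rw [ha, St.fr_diag]
    · exact qs8_fr hf _ _ (mem_tI.1 (hs' a ha)) 1
  · rintro ⟨a, b⟩ _
    by_cases hab : a = b
    · rw [hab]
      exact ((el ι RZ).map f).diag b _
    · exact qs8_x hf _ _ (mem_tI.1 (hP' a b hab))

theorem qs8_N1 {r : ℝ} (hr : 0 ≤ r) (n₁ n₂ d : ℕ) :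
    N1 r (((n₁ : RZ) + (n₂ : RZ) * gR) * X ^ d) ≤ ((n₁ : ℝ) + n₂) * N1 r (X ^ d : RZ) := by
  have e : ((n₁ : RZ) + (n₂ : RZ) * gR) * X ^ d =
      (n₁ : RZ) * X ^ d + (n₂ : RZ) * (gR * X ^ d) := by ring
  have h1 : N1 r ((n₁ : RZ) * X ^ d) ≤ n₁ * N1 r (X ^ d : RZ) := N1_natCast_mul_le hr n₁ _
  have h2 : N1 r ((n₂ : RZ) * (gR * X ^ d)) ≤ n₂ * N1 r (gR * X ^ d : RZ) :=
    N1_natCast_mul_le hr n₂ _
  have h3 : N1 r ((n₁ : RZ) * X ^ d + (n₂ : RZ) * (gR * X ^ d)) ≤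
      N1 r ((n₁ : RZ) * X ^ d) + N1 r ((n₂ : RZ) * (gR * X ^ d)) := N1_add_le hr _ _
  rw [N1_gR_mul] at h2
  rw [e]
  linarith

/-- A generator on the two indices `i0`, `i1`. -/
noncomputable def zb (T : Tri ι) (x : Bool × RZ × RZ) : El ι RZ :=
  if x.1 then (el ι RZ).z T.i0 T.i1 x.2.1 x.2.2 else (el ι RZ).z T.i1 T.i0 x.2.1 x.2.2

/-- `Cl.of_Ed`, `Cl.reduce`, `Cl.read`, `Nd_mem'`; then write `sg⁻¹ * y⁻¹` as a product of eight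
generators (letters are `z _ _ _ 0`) and move it to the left by normality. -/
theorem round_Ed (T : Tri ι) {r : ℝ} (hr : 0 ≤ r) (hr' : r ≤ 1 / 2) {d : ℕ} (hd : 1 ≤ d)
    {Z : El ι RZ} (h : Z ∈ Ed ι d) (hZ : MCong (tI (d + 1)) (mat Z)) :
    ∃ l : List (Bool × RZ × RZ), (∀ x ∈ l, X ^ d ∣ x.2.1 ∧ N1 r x.2.2 ≤ 1) ∧
      (l.map fun x => N1 r x.2.1).sum ≤ 20 * ((d : ℝ) + 1) * N1 r (X ^ d : RZ) ∧
      (l.map (zb T)).prod * Z ∈ Ed ι (d + 1) := by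
  obtain ⟨τ₀, h₀⟩ := Cl.of_Ed T hd h
  obtain ⟨n₁, n₂, hn₁, hn₂, h₁⟩ := h₀.reduce hd
  obtain ⟨m₁, m₂, hm₁, hm₂, h₂⟩ := Nd_mem' T (h₁.read hd hZ)
  have b₁ := qs8_N1 hr n₁ n₂ d
  have b₂ := qs8_N1 hr m₁ m₂ d
  have d₁ : X ^ d ∣ ((n₁ : RZ) + (n₂ : RZ) * gR) * X ^ d := dvd_mul_left _ _
  have d₂ : X ^ d ∣ ((m₁ : RZ) + (m₂ : RZ) * gR) * X ^ d := dvd_mul_left _ _
  generalize ((n₁ : RZ) + (n₂ : RZ) * gR) * X ^ d = τ at b₁ d₁ h₂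
  generalize ((m₁ : RZ) + (m₂ : RZ) * gR) * X ^ d = p at b₂ d₂ h₂
  have hX : 0 ≤ N1 r (X ^ d : RZ) := N1_nonneg hr _
  have c₁ : N1 r τ ≤ 2 * N1 r (X ^ d : RZ) := by
    have h3 : (n₁ : ℝ) ≤ 1 := by exact_mod_cast hn₁
    have h4 : (n₂ : ℝ) ≤ 1 := by exact_mod_cast hn₂
    exact b₁.trans (mul_le_mul_of_nonneg_right (by linarith) hX)
  have c₂ : N1 r p ≤ 2 * d * N1 r (X ^ d : RZ) := by
    have h3 : (m₁ : ℝ) ≤ d := by exact_mod_cast hm₁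
    have h4 : (m₂ : ℝ) ≤ d := by exact_mod_cast hm₂
    exact b₂.trans (mul_le_mul_of_nonneg_right (by linarith) hX)
  have k0 : N1 r (0 : RZ) ≤ 1 := by
    have e : N1 r (0 : RZ) = 0 := N1_zero
    rw [e]
    exact zero_le_one
  have k1 : N1 r (1 : RZ) ≤ 1 := le_of_eq N1_one
  have kg : N1 r gR ≤ 1 := le_of_eq N1_gR
  have kX : N1 r (X : RZ) ≤ 1 := by
    have e : N1 r (X : RZ) = 2 * r := N1_X
    rw [e]
    linarith
  have dg : X ^ d ∣ gR * τ := d₁.mul_left _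
  refine ⟨[(true, gR * τ, 1), (true, -(gR * τ), 0), (false, gR * τ, 0), (false, -τ, 0),
    (true, τ, 0), (true, -τ, gR), (true, p, X), (true, -p, 0)], ?_, ?_, ?_⟩
  · intro x hx
    simp only [List.mem_cons, List.not_mem_nil, or_false] at hx
    rcases hx with rfl | rfl | rfl | rfl | rfl | rfl | rfl | rfl
    · exact ⟨dg, k1⟩
    · exact ⟨dvd_neg.2 dg, k0⟩
    · exact ⟨dg, k0⟩
    · exact ⟨dvd_neg.2 d₁, k0⟩
    · exact ⟨d₁, k0⟩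
    · exact ⟨dvd_neg.2 d₁, kg⟩
    · exact ⟨d₂, kX⟩
    · exact ⟨dvd_neg.2 d₂, k0⟩
  · have e1 : N1 r (-(gR * τ)) = N1 r τ := (N1_neg _).trans (N1_gR_mul τ)
    have e2 : N1 r (-τ) = N1 r τ := N1_neg _
    have e3 : N1 r (-p) = N1 r p := N1_neg _
    simp only [List.map_cons, List.map_nil, List.sum_cons, List.sum_nil, e1, e2, e3, N1_gR_mul]
    have h5 : 0 ≤ (d : ℝ) * N1 r (X ^ d : RZ) := mul_nonneg (Nat.cast_nonneg d) hX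
    nlinarith
  · have e : ([(true, gR * τ, 1), (true, -(gR * τ), 0), (false, gR * τ, 0), (false, -τ, 0),
        (true, τ, 0), (true, -τ, gR), (true, p, X), (true, -p, 0)].map (zb T)).prod =
        ((el ι RZ).sg T.i0 T.i1 τ gR)⁻¹ * ((el ι RZ).y T.i0 T.i1 p X)⁻¹ := by
      have e1 : gR ^ 2 * τ = τ := by rw [pow_two, gR_mul_gR, one_mul]
      simp only [List.map_cons, List.map_nil, List.prod_cons, List.prod_nil, zb, if_true,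
        Bool.false_eq_true, if_false, St.z_zero_right, St.sg, St.fr, St.y_eq, St.z_neg, St.x_neg,
        e1, one_pow, one_mul, mul_comm τ gR, _root_.mul_inv_rev, inv_inv, mul_one, mul_assoc]
    rw [e]
    refine (Ed_normal T.three (d + 1)).mem_comm ?_
    rwa [← mul_assoc]

end Pool.Agent.Lib.MP_71aad1_an.SS
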