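import Pool.Agent.Lib.MP_71aad1_an.QC2
import Pool.Agent.Lib.MP_71aad1_an.QS8
import Pool.Agent.Lib.MP_71aad1_an.QDef3

set_option autoImplicit false

namespace Pool.Agent.Lib.MP_71aad1_an.SS

open Polynomial Matrix Finset Sum

/-! The connectivity theorem. -/

variable {ι : Type} [Fintype ι] [DecidableEq ι] {r : ℝ}

theorem qc3_row {g : El ι RZ} {v w' : ι → RZ} (h : mat g = 1 + vecMulVec v w') (x : ι) :
    (mat g - 1) x = v x • w' := by
  funext z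
  rw [h, add_sub_cancel_left]
  simp [vecMulVec_apply]

/-- A transvection with small first vector is executable. -/
theorem qc3_exe (hr : 0 ≤ r) {w : ι → ℝ} (hw : ∀ x, 0 ≤ w x) {o : ι → ℕ} {κ : ℕ} {g : El ι RZ}
    {v w' : ι → RZ} {b : ℝ} {ε : ι → ℝ} (h : mat g = 1 + vecMulVec v w') (hd : w' ⬝ᵥ v = 0)
    (hb : RowB r w w' b) (hb1 : 1 ≤ b) (hb6 : b ≤ 6) (hv : ∀ x, X ^ (o x + κ) ∣ v x)
    (hε : ∀ x, N1 r (v x) * b ≤ ε x) :
    Exe r w o κ g ε ∧ ∀ x z, X ^ (o x + κ) ∣ (mat g - 1) x z := by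
  have hdv : ∀ x z, X ^ (o x + κ) ∣ (mat g - 1) x z := by
    intro x z
    rw [qc3_row h x, Pi.smul_apply, smul_eq_mul]
    exact (hv x).mul_right _
  refine ⟨⟨fun x => ?_, fun x z => (pow_dvd_pow _ (Nat.le_add_right _ _)).trans (hdv x z),
    Or.inr ⟨v, w', h, hd, hb.mono hb6, fun x => ⟨hv x, ?_⟩⟩⟩, hdv⟩
  · rw [qc3_row h x]
    exact (RowB.smul hr hw (v x) hb).mono (hε x)
  · have := N1_nonneg hr (v x)
    have := hε x
    nlinarith

/-- The generator `z a b p α` is executable. -/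
theorem qc3_exe_z (hr : 0 ≤ r) {w : ι → ℝ} (hw : ∀ x, 0 ≤ w x ∧ w x ≤ 1) {o : ι → ℕ} {κ d : ℕ}
    {a b : ι} (hab : a ≠ b) {p α : RZ} (hp : X ^ d ∣ p) (hα : N1 r α ≤ 1) (ha : o a + κ ≤ d)
    (hb : o b + κ ≤ d) {ε : ι → ℝ} (hε : ∀ x, (if x = a ∨ x = b then 2 * N1 r p else 0) ≤ ε x) :
    Exe r w o κ ((el ι RZ).z a b p α) ε ∧
      ∀ x z, X ^ (o x + κ) ∣ (mat ((el ι RZ).z a b p α) - 1) x z := by
  have hp0 := N1_nonneg hr p
  refine qc3_exe hr (fun x => (hw x).1) (b := 2) (mat_z hab p α) ?_ ?_ (by norm_num) (by norm_num)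
    ?_ ?_
  · rw [dotProduct_smul, sub_dotProduct, single_dotProduct, single_dotProduct]
    simp [hab, Ne.symm hab]
  · have h1 := RowB.single hr b (hw b).2 (1 : RZ)
    have h2 := RowB.single hr a (hw a).2 α
    refine (RowB.sub hr (fun x => (hw x).1) h1 h2).mono ?_
    rw [N1_one]
    linarith
  · intro x
    by_cases hxa : x = a
    · subst hxa
      exact (pow_dvd_pow _ ha).trans (by rw [Pi.smul_apply, smul_eq_mul]; exact hp.mul_right _)
    by_cases hxb : x = b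
    · subst hxb
      exact (pow_dvd_pow _ hb).trans (by rw [Pi.smul_apply, smul_eq_mul]; exact hp.mul_right _)
    · simp [hxa, hxb]
  · intro x
    refine le_trans ?_ (hε x)
    by_cases hxa : x = a
    · subst hxa
      have : (p • (Pi.single x 1 + Pi.single b α : ι → RZ)) x = p := by simp [hab]
      rw [this, if_pos (Or.inl rfl)]
      linarith
    by_cases hxb : x = b
    · subst hxb
      have : (p • (Pi.single a 1 + Pi.single x α : ι → RZ)) x = p * α := by simp [hxa]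
      rw [this, if_pos (Or.inr rfl)]
      have h1 := N1_mul_le hr p α
      nlinarith
    · have : (p • (Pi.single a 1 + Pi.single b α : ι → RZ)) x = 0 := by simp [hxa, hxb]
      rw [this, if_neg (by tauto), N1_zero, zero_mul]

theorem qc3_exe_zb (T : Tri ι) (hr : 0 ≤ r) {w : ι → ℝ} (hw : ∀ x, 0 ≤ w x ∧ w x ≤ 1) {o : ι → ℕ}
    {κ d : ℕ} (ha : o T.i0 + κ ≤ d) (hb : o T.i1 + κ ≤ d) (y : Bool × RZ × RZ)
    (hp : X ^ d ∣ y.2.1) (hα : N1 r y.2.2 ≤ 1) :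
    Exe r w o κ (zb T y) (fun x => if x = T.i0 ∨ x = T.i1 then 2 * N1 r y.2.1 else 0) ∧
      ∀ x z, X ^ (o x + κ) ∣ (mat (zb T y) - 1) x z := by
  unfold zb
  split_ifs
  · exact qc3_exe_z hr hw T.h01 hp hα ha hb fun x => le_rfl
  · refine qc3_exe_z hr hw T.h01.symm hp hα hb ha fun x => le_of_eq ?_
    simp only [or_comm]

omit [DecidableEq ι] in
theorem qc3_list_le {σ : Type} (l : List σ) (f : σ → ι → ℝ) (hf : ∀ s i, 0 ≤ f s i) (x : ι) :
    (l.map fun s => f s x).sum ≤ (l.map fun s => ∑ i, f s i).sum :=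
  List.sum_le_sum fun s _ => Finset.single_le_sum (fun i _ => hf s i) (mem_univ x)

/-- One level. `Z' = NU i0 (mat Z - 1) * Z` (`nuList_exe`, `execList`, `newton_InN`: the bound
becomes `θ / 2`; `NU_mem`, `NU_cong`), then the list of `round_Ed`: each `zb` is a transvection
(`mat_z`) with row bounds `2 * N1 p` on the rows `i0`, `i1` and `0` elsewhere, so the sum is at most
`40 (d + 1) N1 (t ^ d) ≤ (θ / 16) w₀`; `execList` and `prod_InN` (with `o = O + κ`) again. -/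
theorem level_step (T : Tri ι) (hr : 0 < r) (hr' : r ≤ 1 / 4) {W : Option ι → ℝ}
    (hW : ∀ x, 0 ≤ W x ∧ W x ≤ 1) {O : Option ι → ℕ} {θ₁ θ Ω w₀ : ℝ} (h1 : θ₁ ≤ 1) {κ : ℕ}
    (hκ : O none ≤ κ) (hκ' : 12 * N1 r (X ^ κ : RZ) ≤ θ₁ * W none)
    (hΩ : ∑ x, W (some x) ≤ Ω) (h0 : 0 < w₀) (hw0 : w₀ ≤ W (some T.i0)) (hw1 : w₀ ≤ W (some T.i1))
    (hθ : 0 ≤ θ) (hθ1 : (4 + 3 * Ω / w₀) * θ ≤ r ^ κ * θ₁ / 16)
    (hθ2 : 10 * (4 + 3 * Ω / w₀) ^ 2 * θ ≤ 1) {d : ℕ} (hd : 1 ≤ d)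
    (hd0 : O (some T.i0) + κ ≤ d) (hd1 : O (some T.i1) + κ ≤ d)
    (hdθ : 640 * ((d : ℝ) + 1) * N1 r (X ^ d : RZ) ≤ θ * w₀) {Z : El ι RZ} (hZ : Z ∈ Ed ι d)
    (hc : MCong (tI d) (mat Z))
    (hN : InN r (fun x => W (some x)) (fun x => O (some x) + κ) θ (mat Z)) :
    ∃ Z' ∈ Ed ι (d + 1), MCong (tI (d + 1)) (mat Z') ∧
      InN r (fun x => W (some x)) (fun x => O (some x) + κ) (3 / 4 * θ) (mat Z') ∧
      Conn r W O θ₁ (padM Function.Embedding.some (mat Z))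
        (padM Function.Embedding.some (mat Z')) := by
  have hw : ∀ x, 0 ≤ W (some x) ∧ W (some x) ≤ 1 := fun x => hW (some x)
  have hw' : ∀ x, 0 ≤ W (some x) := fun x => (hw x).1
  have hΩ0 : w₀ ≤ Ω := hw0.trans ((Finset.single_le_sum (f := fun x => W (some x))
    (fun x _ => hw' x) (mem_univ T.i0)).trans hΩ)
  have hc1 : 1 ≤ 4 + 3 * Ω / w₀ := by
    have : 0 ≤ 3 * Ω / w₀ := div_nonneg (by linarith) h0.le
    linarith
  have hrk : 0 < r ^ κ := pow_pos hr κ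
  have hrk1 : r ^ κ ≤ 1 := pow_le_one₀ hr.le (by linarith)
  have hcθ : θ ≤ (4 + 3 * Ω / w₀) * θ := le_mul_of_one_le_left hθ hc1
  have hθ₁ : 0 ≤ θ₁ := by
    by_contra hneg
    have := mul_neg_of_pos_of_neg hrk (not_le.mp hneg)
    linarith
  have hrθ : r ^ κ * θ₁ ≤ θ₁ := mul_le_of_le_one_left hθ₁ hrk1
  have hrθ0 : 0 ≤ r ^ κ * θ₁ := mul_nonneg hrk.le hθ₁
  have hdn : ∀ x z, X ^ d ∣ (mat Z - 1) x z := fun x z => mem_tI.mp (hc x z)
  have ho0 : ∀ x z, X ^ (O (some T.i0) + κ) ∣ (mat Z - 1) x z :=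
    fun x z => (pow_dvd_pow _ hd0).trans (hdn x z)
  have c1 := execList hr (by linarith) hW h1 hκ hκ' (hθ.trans hcθ) hθ1
    (nuList r (fun x => W (some x)) θ T.i0 (mat Z - 1))
    (nuList_exe hr.le hw (fun x => (hN x).2) (fun x => (hN x).1) ho0)
    (nuList_sum hr.le hw hΩ h0 hw0 hθ fun x => (hN x).2)
    (hN.mono hw' (fun x => Nat.le_add_right _ _) (by linarith))
  rw [nuList_prod, ← mat_mul] at c1
  have hN1 : InN r (fun x => W (some x)) (fun x => O (some x) + κ) (θ / 2)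
      (mat (NU T.i0 (mat Z - 1) * Z)) := by
    refine (newton_InN hr.le hw hΩ h0 hw0 hθ (by linarith) hN ho0).mono hw' (fun x => le_rfl) ?_
    have := mul_le_mul_of_nonneg_right hθ2 hθ
    nlinarith
  obtain ⟨l, hl, hs, hm⟩ := round_Ed T hr.le (by linarith) hd (mul_mem (NU_mem T.i0 hdn) hZ)
    (NU_cong hd T.i0 hc)
  obtain ⟨l₂, hl₂⟩ : ∃ l₂ : List (El ι RZ × (ι → ℝ)), l₂ = l.map fun y =>
    (zb T y, fun x => if x = T.i0 ∨ x = T.i1 then 2 * N1 r y.2.1 else 0) := ⟨_, rfl⟩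
  have hfst : l₂.map Prod.fst = l.map (zb T) := by
    rw [hl₂, List.map_map]
    rfl
  have hex : ∀ y ∈ l₂, Exe r (fun x => W (some x)) (fun x => O (some x)) κ y.1 y.2 ∧
      ∀ x z, X ^ (O (some x) + κ) ∣ (mat y.1 - 1) x z := by
    intro y hy
    rw [hl₂] at hy
    obtain ⟨y', hy', rfl⟩ := List.mem_map.mp hy
    exact qc3_exe_zb T hr.le hw (o := fun x => O (some x)) hd0 hd1 y' (hl y' hy').1 (hl y' hy').2
  have hsum : ∀ x, (l₂.map fun y => y.2 x).sum ≤ θ / 16 * W (some x) := by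
    intro x
    rw [hl₂, List.map_map]
    by_cases hx : x = T.i0 ∨ x = T.i1
    · have e : ((fun y : El ι RZ × (ι → ℝ) => y.2 x) ∘ fun y : Bool × RZ × RZ =>
          (zb T y, fun x => if x = T.i0 ∨ x = T.i1 then 2 * N1 r y.2.1 else 0)) =
          fun y => 2 * N1 r y.2.1 := by
        funext y
        simp only [Function.comp_apply, if_pos hx]
      have hwx : w₀ ≤ W (some x) := by
        rcases hx with rfl | rfl
        · exact hw0
        · exact hw1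
      rw [e, List.sum_map_mul_left]
      have := mul_le_mul_of_nonneg_left hwx hθ
      linarith
    · have e : ((fun y : El ι RZ × (ι → ℝ) => y.2 x) ∘ fun y : Bool × RZ × RZ =>
          (zb T y, fun x => if x = T.i0 ∨ x = T.i1 then 2 * N1 r y.2.1 else 0)) =
          fun _ => 0 := by
        funext y
        simp only [Function.comp_apply, if_neg hx]
      rw [e, List.map_const', List.sum_replicate, smul_zero]
      exact mul_nonneg (by linarith) (hw' x)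
  have c2 := execList hr (by linarith) hW h1 hκ hκ' (τ := θ / 16) (by linarith) (by linarith) l₂
    (fun y hy => (hex y hy).1) hsum (hN1.mono hw' (fun x => Nat.le_add_right _ _) (by linarith))
  have hN2 := prod_InN hr.le hw' (τ := θ / 16) (τ₀ := θ / 2) (by linarith) (by linarith)
    (by linarith) (by linarith) l₂ (fun y hy x => ⟨(hex y hy).1.1 x, (hex y hy).2 x⟩) hsum hN1
  rw [hfst, ← mat_mul] at c2 hN2
  exact ⟨_, hm, MCong.Zs hm, hN2.mono hw' (fun x => le_rfl) (by linarith), c1.trans c2⟩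

/-- `W0.transv`; row bounds `6 * N1 (v x)`; `execList` with base `1`. -/
theorem final_conn (hr : 0 < r) (hr' : r ≤ 1 / 4) {W : Option ι → ℝ}
    (hW : ∀ x, 0 ≤ W x ∧ W x ≤ 1) {O : Option ι → ℕ} {θ₁ η : ℝ} (h0 : 0 ≤ θ₁) (h1 : θ₁ ≤ 1) {κ k : ℕ}
    (hκ : O none ≤ κ) (hκ' : 12 * N1 r (X ^ κ : RZ) ≤ θ₁ * W none)
    (hk : ∀ x, O (some x) + κ ≤ k) (hη : ∀ x, 36 * η ≤ r ^ κ * θ₁ / 16 * W (some x))
    {Z : El ι RZ} {τ : RZ} (hZ : W0 r k 1 Z η τ) :
    Conn r W O θ₁ 1 (padM Function.Embedding.some (mat Z)) := by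
  have hw : ∀ x, 0 ≤ W (some x) ∧ W (some x) ≤ 1 := fun x => hW (some x)
  have hw' : ∀ x, 0 ≤ W (some x) := fun x => (hw x).1
  obtain ⟨l, hZl, hl, hs⟩ := hZ.transv hr.le (by linarith) le_rfl
  obtain ⟨l₂, hl₂⟩ : ∃ l₂ : List (El ι RZ × (ι → ℝ)), l₂ = l.map fun y =>
    (y.1, fun x => 6 * N1 r (y.2.1 x)) := ⟨_, rfl⟩
  have hfst : l₂.map Prod.fst = l.map Prod.fst := by
    rw [hl₂, List.map_map]
    rfl
  have hex : ∀ y ∈ l₂, Exe r (fun x => W (some x)) (fun x => O (some x)) κ y.1 y.2 := by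
    intro y hy
    rw [hl₂] at hy
    obtain ⟨y', hy', rfl⟩ := List.mem_map.mp hy
    obtain ⟨e1, e2, e3, e4⟩ := hl y' hy'
    exact (qc3_exe hr.le hw' (b := 6) e1 e2 (RowB.of_sum hr.le (fun x => (hw x).2) e4)
      (by norm_num) le_rfl (fun x => (pow_dvd_pow _ (hk x)).trans (e3 x))
      fun x => le_of_eq (mul_comm _ _)).1
  have hsum : ∀ x, (l₂.map fun y => y.2 x).sum ≤ r ^ κ * θ₁ / 16 * W (some x) := by
    intro x
    rw [hl₂, List.map_map]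
    have e : ((fun y : El ι RZ × (ι → ℝ) => y.2 x) ∘ fun y : El ι RZ × (ι → RZ) × (ι → RZ) =>
        (y.1, fun x => 6 * N1 r (y.2.1 x))) = fun y => 6 * N1 r (y.2.1 x) := rfl
    rw [e, List.sum_map_mul_left]
    have h2 := qc3_list_le l (fun y i => N1 r (y.2.1 i)) (fun _ _ => N1_nonneg hr.le _) x
    have h3 := hη x
    linarith
  have c := execList hr (by linarith) hW h1 hκ hκ' (τ := r ^ κ * θ₁ / 16) (by positivity) le_rfl l₂
    hex hsum (InN.one hw' _ (by linarith))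
  rwa [hfst, ← hZl, padM_one, mul_one] at c

/-- Choose `κ ≥ o₀` with `12 N1 (t ^ κ) ≤ θ₁ w₀`, then `θ`, then `d₀ ≥ o₀ + κ` such that
`640 (e + 1) N1 (t ^ e) ≤ θ (3 / 4) ^ (e - d) w₀` for all `e ≥ d ≥ d₀`
(`N1_X_pow_le`: it is enough that `640 (e + 1) (2 / 3) ^ e ≤ θ w₀`). Iterate `level_step` up to
level `2 k` with the bound `θ (3 / 4) ^ (2 k - d)`; for `k` large `nm (mat Z' - 1)` is below the `ε`
of `FinalStmt` (it is at most `card ι * Ω * θ (3 / 4) ^ (2 k - d)`); `final_conn`, `Conn.symm`. -/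
theorem thmC (hF : FinalStmt) : ThmCStmt := by
  intro r θ₁ Ω w₀ o₀ hr hr' hθ₁ h1 h0
  obtain ⟨M₁, hM₁⟩ := exists_theta hr.le (by linarith : r < 1)
    (by positivity : 0 < θ₁ * w₀ / 12)
  obtain ⟨κ, hκ1, hκ2⟩ : ∃ κ : ℕ, o₀ ≤ κ ∧ 12 * N1 r (X ^ κ : RZ) ≤ θ₁ * w₀ := by
    refine ⟨M₁ + o₀, Nat.le_add_left _ _, ?_⟩
    have h2 := hM₁ M₁ le_rfl (M₁ + o₀) (Nat.le_add_right _ _)
    rw [N1_X_pow]
    have h3 : 0 ≤ (((M₁ + o₀ : ℕ) : ℝ) + 1) * r ^ (M₁ + o₀) := by positivity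
    have h4 := mul_nonneg (Nat.cast_nonneg (α := ℝ) M₁) h3
    linarith
  obtain ⟨Ω', hΩ', hΩ0⟩ : ∃ Ω', Ω ≤ Ω' ∧ 0 ≤ Ω' := ⟨max Ω 0, le_max_left _ _, le_max_right _ _⟩
  have hc : 0 < 4 + 3 * Ω' / w₀ := by positivity
  obtain ⟨θ, hθ, hθ1, hθ2⟩ : ∃ θ : ℝ, 0 < θ ∧ (4 + 3 * Ω' / w₀) * θ ≤ r ^ κ * θ₁ / 16 ∧
      10 * (4 + 3 * Ω' / w₀) ^ 2 * θ ≤ 1 := by
    refine ⟨min (r ^ κ * θ₁ / 16 / (4 + 3 * Ω' / w₀)) (1 / (10 * (4 + 3 * Ω' / w₀) ^ 2)),
      lt_min (by positivity) (by positivity), ?_, ?_⟩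
    · rw [← le_div_iff₀' hc]
      exact min_le_left _ _
    · rw [← le_div_iff₀' (by positivity)]
      exact min_le_right _ _
  obtain ⟨M₂, hM₂⟩ := exists_theta (by norm_num : (0 : ℝ) ≤ 2 / 3) (by norm_num)
    (by positivity : 0 < θ * w₀ / 640)
  refine ⟨κ, M₂ + (o₀ + κ) + 1, θ, hθ, ?_⟩
  intro ι _ _ T W O hW hΩ hn hw0 hw1 hOn hO0 hO1 d hd Z hZ hcZ hN
  have hW' : ∀ x, 0 ≤ W x ∧ W x ≤ 1 := fun x => ⟨(hW x).1.le, (hW x).2⟩
  have hsum : ∑ x, W (some x) ≤ Ω' := by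
    rw [Fintype.sum_option] at hΩ
    have := (hW none).1
    linarith
  have hκ' : 12 * N1 r (X ^ κ : RZ) ≤ θ₁ * W none :=
    hκ2.trans (mul_le_mul_of_nonneg_left hn hθ₁.le)
  have iter : ∀ m : ℕ, ∃ Z' ∈ Ed ι (d + m), MCong (tI (d + m)) (mat Z') ∧
      InN r (fun x => W (some x)) (fun x => O (some x) + κ) ((3 / 4) ^ m * θ) (mat Z') ∧
      Conn r W O θ₁ (padM Function.Embedding.some (mat Z))
        (padM Function.Embedding.some (mat Z')) := by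
    intro m
    induction m with
    | zero => exact ⟨Z, hZ, hcZ, by simpa using hN, Relation.ReflTransGen.refl⟩
    | succ m ih =>
      obtain ⟨Z', hZ', hc', hN', hC⟩ := ih
      have q0 : (0 : ℝ) ≤ (3 / 4) ^ m := by positivity
      have q1 : ((3 : ℝ) / 4) ^ m ≤ 1 := pow_le_one₀ (by norm_num) (by norm_num)
      have q2 : (3 / 4) ^ m * θ ≤ θ := mul_le_of_le_one_left hθ.le q1
      have q3 : 640 * (((d + m : ℕ) : ℝ) + 1) * N1 r (X ^ (d + m) : RZ) ≤ (3 / 4) ^ m * θ * w₀ := by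
        have h2 := hM₂ M₂ le_rfl (d + m) (by omega)
        have h3 : 0 ≤ (((d + m : ℕ) : ℝ) + 1) * (2 / 3) ^ (d + m) := by positivity
        have h4 := mul_nonneg (Nat.cast_nonneg (α := ℝ) M₂) h3
        have h5 : (((d + m : ℕ) : ℝ) + 1) * (2 / 3) ^ (d + m) ≤ θ * w₀ / 640 := by linarith
        have h6 : N1 r (X ^ (d + m) : RZ) ≤ (2 / 3) ^ (d + m) * (3 / 4) ^ m := by
          refine (N1_X_pow_le hr.le hr' _).trans ?_
          have e : (1 : ℝ) / 2 ^ (d + m) = (2 / 3) ^ (d + m) * (3 / 4) ^ (d + m) := by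
            rw [← mul_pow, ← _root_.one_div_pow]
            norm_num
          rw [e]
          exact mul_le_mul_of_nonneg_left
            (pow_le_pow_of_le_one (by norm_num) (by norm_num) (Nat.le_add_left _ _))
            (by positivity)
        have h7 := mul_le_mul_of_nonneg_left h6
          (by positivity : (0 : ℝ) ≤ 640 * (((d + m : ℕ) : ℝ) + 1))
        have h8 := mul_le_mul_of_nonneg_right h5 q0
        linarith
      obtain ⟨Z'', h1', h2', h3', h4'⟩ := level_step T hr hr' hW' h1 (hOn.trans hκ1) hκ' hsum h0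
        hw0 hw1 (mul_nonneg q0 hθ.le) ((mul_le_mul_of_nonneg_left q2 hc.le).trans hθ1)
        ((mul_le_mul_of_nonneg_left q2 (by positivity)).trans hθ2) (d := d + m) (by omega)
        (by omega) (by omega) q3 hZ' hc' hN'
      refine ⟨Z'', h1', h2', ?_, hC.trans h4'⟩
      rw [pow_succ', mul_assoc]
      exact h3'
  have : Nonempty ι := ⟨T.i0⟩
  obtain ⟨x₀, hx₀⟩ := Finite.exists_min fun x => W (some x)
  have hx1 := (hW (some x₀)).1
  obtain ⟨ε, hε, k₀, hk₀⟩ := hF ι T r hr hr' (r ^ κ * θ₁ / 16 * W (some x₀) / 36) (by positivity)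
  obtain ⟨K, hK⟩ : ∃ K : ℕ, ∀ x, O (some x) ≤ K :=
    ⟨univ.sup fun x => O (some x), fun x => le_sup (f := fun x => O (some x)) (mem_univ x)⟩
  obtain ⟨m₀, hm₀⟩ := exists_pow_lt_of_lt_one
    (by positivity : 0 < ε / ((Fintype.card ι : ℝ) * θ * Ω' + 1)) (by norm_num : (3 : ℝ) / 4 < 1)
  obtain ⟨k, m, hkm, hk1, hk2, hk3⟩ : ∃ k m : ℕ, d + m = 2 * k ∧ k₀ ≤ k ∧ K + κ ≤ k ∧ m₀ ≤ m :=
    ⟨k₀ + K + κ + d + m₀, 2 * (k₀ + K + κ + d + m₀) - d, by omega, by omega, by omega, by omega⟩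
  obtain ⟨Z', hZ', -, hN', hC⟩ := iter m
  rw [hkm] at hZ'
  have hnm : nm r (mat Z' - 1) ≤ ε := by
    have q0 : (0 : ℝ) ≤ (3 / 4) ^ m := by positivity
    have q1 : ((3 : ℝ) / 4) ^ m ≤ (3 / 4) ^ m₀ :=
      pow_le_pow_of_le_one (by norm_num) (by norm_num) hk3
    have q2 : ((3 : ℝ) / 4) ^ m * ((Fintype.card ι : ℝ) * θ * Ω' + 1) ≤ ε := by
      rw [← le_div_iff₀ (by positivity)]
      exact q1.trans hm₀.le
    have q3 : nm r (mat Z' - 1) ≤ ∑ x, ∑ _z : ι, (3 / 4) ^ m * θ * W (some x) :=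
      sum_le_sum fun x _ => sum_le_sum fun z _ => (hN' x).2.2 z
    have q4 : ∑ x, ∑ _z : ι, (3 / 4) ^ m * θ * W (some x) =
        (Fintype.card ι : ℝ) * ((3 / 4) ^ m * θ) * ∑ x, W (some x) := by
      rw [mul_sum]
      refine sum_congr rfl fun x _ => ?_
      rw [sum_const, card_univ, nsmul_eq_mul]
      ring
    have q5 := mul_le_mul_of_nonneg_left hsum
      (by positivity : 0 ≤ (Fintype.card ι : ℝ) * ((3 / 4) ^ m * θ))
    linarith
  obtain ⟨τ, hτ⟩ := hk₀ k hk1 Z' hZ' hnm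
  refine (final_conn hr hr' hW' hθ₁.le h1 (hOn.trans hκ1) hκ' (k := k)
    (fun x => by have := hK x; omega) (fun x => ?_) hτ).trans hC.symm
  have := mul_le_mul_of_nonneg_left (hx₀ x) (by positivity : 0 ≤ r ^ κ * θ₁ / 16)
  linarith

end Pool.Agent.Lib.MP_71aad1_an.SS
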