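import Mathlib

set_option autoImplicit false

/-! Definitions for the proof of S05036: rings, norms, Steinberg systems, elementary groups. -/

namespace Pool.Agent.Lib.MP_71aad1_an.SS

open Polynomial Matrix Finset

/-- The group ring of the group of order two over `K`: `re + im * g` with `g * g = 1`. -/
abbrev Lam (K : Type) [CommRing K] : Type := QuadraticAlgebra K 1 0
/-- Polynomials in `t = X` over the group ring. -/
abbrev PR (K : Type) [CommRing K] : Type := Polynomial (Lam K)
abbrev RZ : Type := PR ℤ
abbrev RR : Type := PR ℝ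

def gL : Lam ℤ := ⟨0, 1⟩
def uL : Lam ℤ := ⟨1, 1⟩
noncomputable def gR : RZ := C gL
noncomputable def uR : RZ := C uL
/-- Integer polynomials inside `RZ`. -/
noncomputable def iZ : ℤ[X] →+* RZ := Polynomial.mapRingHom (Int.castRingHom (Lam ℤ))

def LPos (c : Lam ℤ) : Prop := 0 ≤ c.re ∧ 0 ≤ c.im
def Pos (p : RZ) : Prop := ∀ j, LPos (p.coeff j)

/-- Augmentation `g ↦ 1`. -/
def augZ : Lam ℤ →+* ℤ where
  toFun c := c.re + c.im
  map_one' := rfl
  map_mul' a b := by simp; ring
  map_zero' := rfl
  map_add' a b := by simp; ring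

/-- Evaluation `g ↦ 1`, `t ↦ ρ`. -/
noncomputable def ev (ρ : ℝ) : RZ →+* ℝ := eval₂RingHom ((Int.castRingHom ℝ).comp augZ) ρ

def toR : Lam ℤ →+* Lam ℝ where
  toFun c := ⟨c.re, c.im⟩
  map_one' := by ext <;> simp [QuadraticAlgebra.re_one, QuadraticAlgebra.im_one]
  map_mul' a b := by ext <;> simp
  map_zero' := by ext <;> simp
  map_add' a b := by ext <;> simp

/-- Dilation `t ↦ s t` into real coefficients. -/
noncomputable def dil (s : ℝ) : RZ →+* RR :=
  eval₂RingHom ((C : Lam ℝ →+* RR).comp toR) (C (⟨s, 0⟩ : Lam ℝ) * X)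

section norms
variable {K : Type} [NormedCommRing K]

/-- Weighted coefficient norm. -/
noncomputable def nw (v : ℕ → ℝ) (p : PR K) : ℝ := p.sum fun j c => v j * (‖c.re‖ + ‖c.im‖)
/-- Plain norm at radius `r`. -/
noncomputable def N0 (r : ℝ) (p : PR K) : ℝ := nw (fun j => r ^ j) p
/-- Norm at radius `r` with the extra weight `j + 1`. -/
noncomputable def N1 (r : ℝ) (p : PR K) : ℝ := nw (fun j => ((j : ℝ) + 1) * r ^ j) p

/-- Sum of the norms of all entries. -/
noncomputable def nm {ι κ : Type} [Fintype ι] [Fintype κ] (r : ℝ) (A : Matrix ι κ (PR K)) : ℝ :=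
  ∑ i, ∑ j, N1 r (A i j)

/-- Weighted sum of the norms of the entries of a row vector. -/
noncomputable def Sw {ι : Type} [Fintype ι] (r : ℝ) (w : ι → ℝ) (n : ι → PR K) : ℝ :=
  ∑ z, N1 r (n z) * w z

/-- A row vector is bounded by `ε` both in the weighted sum and entrywise. -/
def RowB {ι : Type} [Fintype ι] (r : ℝ) (w : ι → ℝ) (n : ι → PR K) (ε : ℝ) : Prop :=
  Sw r w n ≤ ε ∧ ∀ z, N1 r (n z) ≤ ε

end norms

/-- Signed unit monomials of degree `j`. -/
def UM (j : ℕ) (m : RZ) : Prop :=
  m = X ^ j ∨ m = -X ^ j ∨ m = gR * X ^ j ∨ m = -(gR * X ^ j)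
/-- Positive unit monomials of degree `j`. -/
def PM (j : ℕ) (m : RZ) : Prop := m = X ^ j ∨ m = gR * X ^ j
/-- The monomial of a given degree and group element. -/
noncomputable def mono (q : ℕ × Bool) : RZ := (if q.2 then gR else 1) * X ^ q.1
/-- The ideal generated by `t ^ k`. -/
noncomputable def tI (k : ℕ) : Ideal RZ := Ideal.span {X ^ k}
theorem mem_tI {k : ℕ} {p : RZ} : p ∈ tI k ↔ X ^ k ∣ p := Ideal.mem_span_singleton

/-- A family of group elements with the Steinberg relations (trivial on the diagonal). -/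
structure St (ι A H : Type) [CommRing A] [Group H] where
  x : ι → ι → A → H
  diag : ∀ a p, x a a p = 1
  add : ∀ a b p q, x a b (p + q) = x a b p * x a b q
  comm : ∀ a b c d p q, b ≠ c → a ≠ d → x a b p * x c d q = x c d q * x a b p
  cmt : ∀ a b c p q, a ≠ b → b ≠ c → a ≠ c →
    x a b p * x b c q = x a c (p * q) * (x b c q * x a b p)

/-- Three distinct indices. -/
structure Tri (ι : Type) where
  i0 : ι
  i1 : ι
  i2 : ι
  h01 : i0 ≠ i1
  h02 : i0 ≠ i2
  h12 : i1 ≠ i2

/-- For any two indices there is a third one. -/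
def Three (ι : Type) : Prop := ∀ a b : ι, ∃ c, c ≠ a ∧ c ≠ b

/-- Ordered product of a family of one parameter maps. -/
def prodL {σ A H : Type} [Group H] (l : List σ) (F : σ → A → H) (P : σ → A) : H :=
  (l.map fun s => F s (P s)).prod

/-- The standard second arguments `0, 1, -1, g, -g, t`. -/
def al {A : Type} [CommRing A] (g t : A) : Fin 6 → A := ![0, 1, -1, g, -g, t]

/-- The `dt` part of a slot vector. -/
def symT {ι A : Type} [Fintype ι] [DecidableEq ι] [CommRing A] (P : ι × ι × Fin 6 → A) : A :=
  ∑ a, ∑ b, if a = b then 0 else P (a, b, 5)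
/-- The `dg` part of a slot vector. -/
def symG {ι A : Type} [Fintype ι] [DecidableEq ι] [CommRing A] (P : ι × ι × Fin 6 → A) : A :=
  ∑ a, ∑ b, if a = b then 0 else P (a, b, 3) - P (a, b, 4)

namespace St
variable {ι A H : Type} [CommRing A] [Group H] (S : St ι A H)

def z (a b : ι) (p α : A) : H := S.x b a α * S.x a b p * S.x b a (-α)
def y (a b : ι) (p q : A) : H := S.x a b p * S.x b a q * S.x a b (-p) * S.x b a (-q)
/-- The relative elementary subgroup of level `J`. -/
def Zs (J : Ideal A) : Subgroup H := Subgroup.closure {h | ∃ a b p α, p ∈ J ∧ h = S.z a b p α}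
/-- The part of `z` that is diagonal to first order. -/
def fr (a b : ι) (p α : A) : H := S.z a b p α * S.x a b (-p) * S.x b a (α ^ 2 * p)
/-- The symbol `p dα`. -/
def sg (a b : ι) (p α : A) : H := S.fr a b p α * (S.fr a b (p * α) 1)⁻¹

def map {H' : Type} [Group H'] (f : H →* H') : St ι A H' where
  x a b p := f (S.x a b p)
  diag a p := by rw [S.diag, map_one]
  add a b p q := by rw [S.add, map_mul]
  comm a b c d p q h h' := by rw [← map_mul, S.comm a b c d p q h h', map_mul]
  cmt a b c p q h h' h'' := by rw [← map_mul, S.cmt a b c p q h h' h'', map_mul, map_mul]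

/-- Compatibility of two systems with a ring map and a group map. -/
def Cpt {A' H' : Type} [CommRing A'] [Group H'] (S' : St ι A' H') (ψ : A →+* A') (f : H →* H') :
    Prop := ∀ a b p, f (S.x a b p) = S'.x a b (ψ p)

/-- Products of the two ideals and mixed commutators are trivial. -/
def Ab2 (J₁ J₂ : Ideal A) : Prop :=
  ∀ a b p q, p ∈ J₁ → q ∈ J₂ → S.x a b (p * q) = 1 ∧ S.y a b p q = 1

variable [Fintype ι]

/-- First normal form: one factor for each slot. -/
noncomputable def nf1 (g t : A) (P : ι × ι × Fin 6 → A) : H :=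
  prodL (univ : Finset (ι × ι × Fin 6)).toList (fun s p => S.z s.1 s.2.1 p (al g t s.2.2)) P

/-- Second normal form: letters, diagonal parts, two symbols. -/
noncomputable def nf2 (T : Tri ι) (g t : A) (P : ι × ι → A) (s : ι → A) (τ γ : A) : H :=
  prodL (univ : Finset (ι × ι)).toList (fun ab p => S.x ab.1 ab.2 p) P *
    prodL (univ : Finset ι).toList (fun a p => S.fr a T.i0 p 1) s *
    S.sg T.i0 T.i1 τ t * S.sg T.i0 T.i1 γ g

end St

section groups
variable {ι ι' A A' : Type} [Fintype ι] [DecidableEq ι] [Fintype ι'] [DecidableEq ι']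
  [CommRing A] [CommRing A']

abbrev GLn (ι A : Type) [Fintype ι] [DecidableEq ι] [CommRing A] : Type := (Matrix ι ι A)ˣ

/-- Elementary matrix as a unit (the identity on the diagonal). -/
def xg (a b : ι) (p : A) : GLn ι A :=
  if h : a = b then 1 else
    ⟨transvection a b p, transvection a b (-p),
      by rw [transvection_mul_transvection_same _ _ h]; simp,
      by rw [transvection_mul_transvection_same _ _ h]; simp⟩

theorem val_xg {a b : ι} (h : a ≠ b) (p : A) :
    ((xg a b p : GLn ι A) : Matrix ι ι A) = 1 + single a b p := by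
  simp [xg, h, transvection]

theorem xg_diag (a : ι) (p : A) : xg a a p = 1 := by simp [xg]

/-- The elementary group. -/
def EG (ι A : Type) [Fintype ι] [DecidableEq ι] [CommRing A] : Subgroup (GLn ι A) :=
  Subgroup.closure {g | ∃ a b p, g = xg a b p}

abbrev El (ι A : Type) [Fintype ι] [DecidableEq ι] [CommRing A] : Type := ↥(EG ι A)

/-- The matrix of an element of the elementary group. -/
def mat (g : El ι A) : Matrix ι ι A := ((g : GLn ι A) : Matrix ι ι A)

@[simp] theorem mat_mul (g h : El ι A) : mat (g * h) = mat g * mat h := rfl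
@[simp] theorem mat_one : mat (1 : El ι A) = 1 := rfl
theorem mat_inj {g h : El ι A} (e : mat g = mat h) : g = h := Subtype.ext (Units.ext e)
@[simp] theorem mat_inv_mul (g : El ι A) : mat g⁻¹ * mat g = 1 := by
  rw [← mat_mul, inv_mul_cancel, mat_one]
@[simp] theorem mat_mul_inv (g : El ι A) : mat g * mat g⁻¹ = 1 := by
  rw [← mat_mul, mul_inv_cancel, mat_one]

theorem xg_add (a b : ι) (p q : A) : xg a b (p + q) = xg a b p * xg a b q := by
  by_cases h : a = b
  · subst h; simp [xg_diag]
  · ext1
    rw [Units.val_mul, val_xg h, val_xg h, val_xg h]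
    simp [mul_add, add_mul, single_mul_single_of_ne _ _ _ _ (Ne.symm h), single_add, add_assoc]

theorem xg_comm (a b c d : ι) (p q : A) (h : b ≠ c) (h' : a ≠ d) :
    xg a b p * xg c d q = xg c d q * xg a b p := by
  by_cases h1 : a = b
  · subst h1; simp [xg_diag]
  by_cases h2 : c = d
  · subst h2; simp [xg_diag]
  ext1
  rw [Units.val_mul, Units.val_mul, val_xg h1, val_xg h2]
  simp only [mul_add, add_mul, one_mul, mul_one, single_mul_single_of_ne _ _ _ _ h,
    single_mul_single_of_ne _ _ _ _ (Ne.symm h')]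
  abel

theorem xg_cmt (a b c : ι) (p q : A) (h : a ≠ b) (h' : b ≠ c) (h'' : a ≠ c) :
    xg a b p * xg b c q = xg a c (p * q) * (xg b c q * xg a b p) := by
  ext1
  rw [Units.val_mul, Units.val_mul, Units.val_mul, val_xg h, val_xg h', val_xg h'']
  simp only [mul_add, add_mul, one_mul, mul_one, single_mul_single_same,
    single_mul_single_of_ne _ _ _ _ (Ne.symm h''), single_mul_single_of_ne _ _ _ _ (Ne.symm h'),
    add_zero]
  abel

/-- The elementary matrices as a Steinberg system in the elementary group. -/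
def el (ι A : Type) [Fintype ι] [DecidableEq ι] [CommRing A] : St ι A (El ι A) where
  x a b p := ⟨xg a b p, Subgroup.subset_closure ⟨a, b, p, rfl⟩⟩
  diag a p := Subtype.ext (xg_diag a p)
  add a b p q := Subtype.ext (xg_add a b p q)
  comm a b c d p q h h' := Subtype.ext (xg_comm a b c d p q h h')
  cmt a b c p q h h' h'' := Subtype.ext (xg_cmt a b c p q h h' h'')

theorem mat_x {a b : ι} (h : a ≠ b) (p : A) : mat ((el ι A).x a b p) = 1 + single a b p :=
  val_xg h p

theorem map_xg (ψ : A →+* A') (a b : ι) (p : A) :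
    Units.map (RingHom.mapMatrix ψ : Matrix ι ι A →+* Matrix ι ι A').toMonoidHom (xg a b p) =
      xg a b (ψ p) := by
  by_cases h : a = b
  · subst h; simp [xg_diag]
  · ext1
    rw [Units.coe_map, val_xg h, val_xg h]
    ext i j
    simp only [RingHom.toMonoidHom_eq_coe, MonoidHom.coe_coe, RingHom.mapMatrix_apply, map_apply,
      Matrix.add_apply, map_add, one_apply, single_apply]
    split_ifs <;> simp

/-- Change of coefficients. -/
def mapE (ψ : A →+* A') : El ι A →* El ι A' :=
  ((Units.map (RingHom.mapMatrix ψ : Matrix ι ι A →+* Matrix ι ι A').toMonoidHom).comp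
    (EG ι A).subtype).codRestrict (EG ι A') fun g => by
      obtain ⟨g, hg⟩ := g
      simp only [MonoidHom.comp_apply, Subgroup.subtype_apply]
      induction hg using Subgroup.closure_induction with
      | mem g hg =>
        obtain ⟨a, b, p, rfl⟩ := hg
        rw [map_xg]
        exact Subgroup.subset_closure ⟨a, b, _, rfl⟩
      | one => rw [map_one]; exact one_mem _
      | mul g h _ _ hg hh => rw [map_mul]; exact mul_mem hg hh
      | inv g _ hg => rw [map_inv]; exact inv_mem hg

theorem mat_mapE (ψ : A →+* A') (g : El ι A) : mat (mapE ψ g) = (mat g).map ψ := rfl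

theorem mapE_cpt (ψ : A →+* A') : (el ι A).Cpt (el ι A') ψ (mapE ψ) :=
  fun a b p => Subtype.ext (map_xg ψ a b p)

/-- The matrix of an embedding of index sets. -/
def embM (A : Type) [CommRing A] (e : ι ↪ ι') : Matrix ι ι' A := fun a i => if e a = i then 1 else 0

omit [Fintype ι] in
theorem embM_mul (e : ι ↪ ι') : embM A e * (embM A e)ᵀ = 1 := by
  ext a b
  simp [embM, mul_apply, one_apply, eq_comm]

/-- Extension of a matrix by the identity along an embedding of index sets. -/
def padM (e : ι ↪ ι') (M : Matrix ι ι A) : Matrix ι' ι' A :=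
  1 + (embM A e)ᵀ * (M - 1) * embM A e

omit [Fintype ι'] in
theorem padM_one (e : ι ↪ ι') : padM e (1 : Matrix ι ι A) = 1 := by simp [padM]

theorem padM_mul (e : ι ↪ ι') (M N : Matrix ι ι A) : padM e (M * N) = padM e M * padM e N := by
  have h : (embM A e)ᵀ * (M - 1) * embM A e * ((embM A e)ᵀ * (N - 1) * embM A e) =
      (embM A e)ᵀ * ((M - 1) * (N - 1)) * embM A e := by
    simp only [Matrix.mul_assoc]
    rw [← Matrix.mul_assoc (embM A e) (embM A e)ᵀ, embM_mul, Matrix.one_mul]
  have h2 : M * N - 1 = (M - 1) + (N - 1) + (M - 1) * (N - 1) := by noncomm_ring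
  simp only [padM, mul_add, add_mul, one_mul, mul_one, h, h2, Matrix.mul_add, Matrix.add_mul]
  abel

def padH (e : ι ↪ ι') : Matrix ι ι A →* Matrix ι' ι' A where
  toFun := padM e
  map_one' := padM_one e
  map_mul' := padM_mul e

theorem pad_xg (e : ι ↪ ι') (a b : ι) (p : A) :
    Units.map (padH e) (xg a b p) = xg (e a) (e b) p := by
  by_cases h : a = b
  · subst h; simp [xg_diag]
  · ext1
    rw [Units.coe_map, val_xg h, val_xg (e.injective.ne h)]
    change padM e _ = _
    rw [padM, add_sub_cancel_left]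
    congr 1
    ext i j
    simp only [embM, mul_apply, transpose_apply, single_apply, ite_and, mul_ite, mul_one, mul_zero,
      ite_mul, one_mul, zero_mul]
    rw [Finset.sum_eq_single b, Finset.sum_eq_single a] <;>
      first | (intro c _ hc; simp [Ne.symm hc]) | (simp; try (split_ifs <;> rfl))

/-- Extension by the identity on the elementary group. -/
def padE (e : ι ↪ ι') : El ι A →* El ι' A :=
  ((Units.map (padH e)).comp (EG ι A).subtype).codRestrict (EG ι' A) fun g => by
      obtain ⟨g, hg⟩ := g
      simp only [MonoidHom.comp_apply, Subgroup.subtype_apply]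
      induction hg using Subgroup.closure_induction with
      | mem g hg =>
        obtain ⟨a, b, p, rfl⟩ := hg
        rw [pad_xg]
        exact Subgroup.subset_closure ⟨_, _, _, rfl⟩
      | one => rw [map_one]; exact one_mem _
      | mul g h _ _ hg hh => rw [map_mul]; exact mul_mem hg hh
      | inv g _ hg => rw [map_inv]; exact inv_mem hg

theorem mat_padE (e : ι ↪ ι') (g : El ι A) : mat (padE e g) = padM e (mat g) := rfl

theorem padE_x (e : ι ↪ ι') (a b : ι) (p : A) :
    padE e ((el ι A).x a b p) = (el ι' A).x (e a) (e b) p := Subtype.ext (pad_xg e a b p)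

/-- A matrix congruent to the identity modulo an ideal. -/
def MCong (J : Ideal A) (M : Matrix ι ι A) : Prop := ∀ i j, (M - 1) i j ∈ J

end groups

end Pool.Agent.Lib.MP_71aad1_an.SS
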