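import Pool.Agent.Lib.MP_71aad1_an.QDef

set_option autoImplicit false

/-! Definitions for the proof of S05036: size classes, systems, moves, normal forms. -/

namespace Pool.Agent.Lib.MP_71aad1_an.SS

open Polynomial Matrix Finset Sum

section quant
variable {ι : Type} [Fintype ι] [DecidableEq ι]

/-- Relative elementary group of level `t ^ d`. -/
noncomputable def Ed (ι : Type) [Fintype ι] [DecidableEq ι] (d : ℕ) : Subgroup (El ι RZ) :=
  (el ι RZ).Zs (tI d)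

/-- `Ed (d + 1)` together with the commutators of level `t ^ d` against level `t`. -/
noncomputable def Nd (ι : Type) [Fintype ι] [DecidableEq ι] (d : ℕ) : Subgroup (El ι RZ) :=
  Subgroup.normalClosure ((Ed ι (d + 1) : Set (El ι RZ)) ∪
    {h | ∃ a b p q, X ^ d ∣ p ∧ X ∣ q ∧ h = (el ι RZ).y a b p q})

/-- `Z` has the symbol `τ dg` modulo `Nd`, letters and diagonal parts. -/
def Cl (T : Tri ι) (d : ℕ) (Z : El ι RZ) (τ : RZ) : Prop :=
  X ^ d ∣ τ ∧ ∃ (P : ι × ι → RZ) (s : ι → RZ), (∀ ab, X ^ d ∣ P ab) ∧ (∀ a, X ^ d ∣ s a) ∧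
    Z * ((el ι RZ).nf2 T gR X P s 0 τ)⁻¹ ∈ Nd ι d

/-- An element and its inverse are within `B` of the identity. -/
def Bd (r B : ℝ) (γ : El ι RZ) : Prop := nm r (mat γ - 1) ≤ B ∧ nm r (mat γ⁻¹ - 1) ≤ B

/-- Products of bounded conjugates of letters of order `k`, with a bound for the total size. -/
inductive WB (r : ℝ) (k : ℕ) (B : ℝ) : El ι RZ → ℝ → Prop
  | one {ζ : ℝ} : 0 ≤ ζ → WB r k B 1 ζ
  | snoc {W γ : El ι RZ} {ζ : ℝ} {a b : ι} {p : RZ} : WB r k B W ζ → Bd r B γ → X ^ k ∣ p →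
      WB r k B (W * (γ * (el ι RZ).x a b p * γ⁻¹)) (ζ + N1 r p)

/-- Products of letters of order two, with a bound for the total size. -/
inductive Lt (r : ℝ) : El ι RZ → ℝ → Prop
  | one {δ : ℝ} : 0 ≤ δ → Lt r 1 δ
  | snoc {γ : El ι RZ} {δ : ℝ} {a b : ι} {q : RZ} : Lt r γ δ → X ^ 2 ∣ q →
      Lt r (γ * (el ι RZ).x a b q) (δ + N1 r q)

/-- Products of conjugates (by `Lt` words of size `δ`) of standard generators of order `k`,
with a bound for the total size and the total `dt` symbol. -/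
inductive W0 (r : ℝ) (k : ℕ) (δ : ℝ) : El ι RZ → ℝ → RZ → Prop
  | one {ζ : ℝ} : 0 ≤ ζ → W0 r k δ 1 ζ 0
  | snoc {W γ : El ι RZ} {ζ : ℝ} {τ : RZ} {a b : ι} {p : RZ} {i : Fin 6} : W0 r k δ W ζ τ →
      Lt r γ δ → a ≠ b → X ^ k ∣ p →
      W0 r k δ (W * (γ * (el ι RZ).z a b p (al gR X i) * γ⁻¹)) (ζ + N1 r p)
        (τ + if i = 5 then p else 0)

/-- Adding the combination `c` of the other rows to row `x`. -/
noncomputable def rowE (x : ι) (c : ι → RZ) : El ι RZ :=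
  prodL (univ : Finset ι).toList (fun z p => (el ι RZ).x x z p) c

/-- Row corrections of the Newton step. -/
noncomputable def nuc (i0 : ι) (n : Matrix ι ι RZ) (x z : ι) : RZ :=
  if x = i0 then -n x z + n z z else -n x z - if z = i0 then n x x else 0

/-- The Newton step: an elementary matrix equal to `1 - n + trace n • E₀₀` to first order. -/
noncomputable def NU (i0 : ι) (n : Matrix ι ι RZ) : El ι RZ :=
  ((univ : Finset ι).toList.map fun a => (el ι RZ).z a i0 (n a a) 1).prod *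
    ((univ : Finset ι).toList.map fun x => rowE x (nuc i0 n x)).prod

/-- Neighbourhood of the identity with row dependent orders and weights. -/
def InN (r : ℝ) (W : ι → ℝ) (O : ι → ℕ) (θ : ℝ) (P : Matrix ι ι RZ) : Prop :=
  ∀ x, (∀ z, X ^ O x ∣ (P - 1) x z) ∧ RowB r W ((P - 1) x) (θ * W x)

/-- One block of row operations inside the neighbourhood. -/
def Stp (r : ℝ) (W : ι → ℝ) (O : ι → ℕ) (θ : ℝ) (P P' : Matrix ι ι RZ) : Prop :=
  InN r W O θ P ∧ InN r W O θ P' ∧ ∃ (S : ι → Prop) (c : Matrix ι ι RZ),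
    (∀ x z, c x z ≠ 0 → S x ∧ ¬ S z) ∧ P' = (1 + c) * P

/-- Connected by row operations inside the neighbourhood. -/
def Conn (r : ℝ) (W : ι → ℝ) (O : ι → ℕ) (θ : ℝ) : Matrix ι ι RZ → Matrix ι ι RZ → Prop :=
  Relation.ReflTransGen (Stp r W O θ)

/-- An executable generator: a row operation, or a transvection `1 + v wᵀ`. -/
def Exe (r : ℝ) (w : ι → ℝ) (o : ι → ℕ) (κ : ℕ) (g : El ι RZ) (ε : ι → ℝ) : Prop :=
  (∀ x, RowB r w ((mat g - 1) x) (ε x)) ∧ (∀ x z, X ^ o x ∣ (mat g - 1) x z) ∧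
  ((∃ x, ∀ x' z, (mat g - 1) x' z ≠ 0 → x' = x ∧ z ≠ x) ∨
    ∃ v w' : ι → RZ, mat g = 1 + vecMulVec v w' ∧ w' ⬝ᵥ v = 0 ∧ RowB r w w' 6 ∧
      ∀ x, X ^ (o x + κ) ∣ v x ∧ N1 r (v x) ≤ ε x)

end quant

section systems
variable {V V' : Type} [Fintype V] [DecidableEq V] [Fintype V'] [DecidableEq V']

def MPos {V W : Type} (B : Matrix V W RZ) : Prop := ∀ i j, Pos (B i j)
def MLPos {V W : Type} (B : Matrix V W (Lam ℤ)) : Prop := ∀ i j, LPos (B i j)
def TD {V W : Type} (B : Matrix V W RZ) : Prop := ∀ i j, X ∣ B i j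
def PT {V W : Type} (B : Matrix V W RZ) : Prop := MPos B ∧ TD B
/-- Constant terms only go down in rank. -/
def RkOk {V : Type} (rk : V → ℕ) (B : Matrix V V RZ) : Prop :=
  ∀ i j, (B i j).coeff 0 ≠ 0 → rk j < rk i
/-- Nonnegative without cycles of length zero. -/
def Valid {V : Type} (B : Matrix V V RZ) : Prop := MPos B ∧ ∃ rk, RkOk rk B
/-- `t` times a constant matrix. -/
noncomputable def tM {V W : Type} (A : Matrix V W (Lam ℤ)) : Matrix V W RZ :=
  (X : RZ) • A.map (C : Lam ℤ → RZ)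

/-- Square matrices over the group ring. -/
abbrev FM : Type := Σ n : ℕ, Matrix (Fin n) (Fin n) (Lam ℤ)
/-- Elementary equivalence with entries satisfying `P`. -/
def ES (P : Lam ℤ → Prop) (A B : FM) : Prop :=
  ∃ (R : Matrix (Fin A.1) (Fin B.1) (Lam ℤ)) (S : Matrix (Fin B.1) (Fin A.1) (Lam ℤ)),
    (∀ i j, P (R i j)) ∧ (∀ i j, P (S i j)) ∧ A.2 = R * S ∧ B.2 = S * R
noncomputable def toFin (A : Matrix V V (Lam ℤ)) : FM :=
  ⟨Fintype.card V, reindex (Fintype.equivFin V) (Fintype.equivFin V) A⟩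
/-- Strong shift equivalence over the positive semiring. -/
def SSE (A : Matrix V V (Lam ℤ)) (B : Matrix V' V' (Lam ℤ)) : Prop :=
  Relation.EqvGen (ES LPos) (toFin A) (toFin B)

/-- The constant combination of rows that removes the constant part of `v`. -/
noncomputable def cres (B : Matrix V V RZ) (v : V → RZ) : V → Lam ℤ :=
  (fun z => (v z).coeff 0) ᵥ* (1 - B.map fun p => p.coeff 0)⁻¹
/-- One time step on polynomial vectors: resolve the constant part, then divide by `t`. -/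
noncomputable def Psi (B : Matrix V V RZ) (v : V → RZ) : V → RZ := fun y =>
  divX (v y - ((fun x => C (cres B v x)) ᵥ* (1 - B)) y)
/-- Vectors of bounded depth. -/
def Sp {V : Type} (D : V → ℕ) (v : V → RZ) : Prop := ∀ y, (v y).degree < D y
/-- Admissible depth. -/
def Val {V : Type} (B : Matrix V V RZ) (D : V → ℕ) : Prop := ∀ x y, (B x y).natDegree ≤ D y
/-- Matrix of a map between spaces of bounded depth. -/
noncomputable def matL (F : (V → RZ) → V' → RZ) (D : V → ℕ) (D' : V' → ℕ) :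
    Matrix (Σ y, Fin (D y)) (Σ y, Fin (D' y)) (Lam ℤ) :=
  fun a b => (F (Pi.single a.1 (X ^ (a.2 : ℕ))) b.1).coeff b.2
/-- Companion matrix. -/
noncomputable def cmpn (B : Matrix V V RZ) (D : V → ℕ) :
    Matrix (Σ y, Fin (D y)) (Σ y, Fin (D y)) (Lam ℤ) := matL (Psi B) D D
noncomputable def dp (B : Matrix V V RZ) : ℕ := univ.sup fun xy : V × V => (B xy.1 xy.2).natDegree
/-- The companion matrices are strong shift equivalent. -/
def Sim (B : Matrix V V RZ) (B' : Matrix V' V' RZ) : Prop :=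
  SSE (cmpn B fun _ => dp B) (cmpn B' fun _ => dp B')

/-- Active states and the three hub states. -/
abbrev J (V : Type) : Type := V ⊕ Fin 3
def Jm {V V' : Type} (e : V ↪ V') : J V ↪ J V' := e.sumMap (Function.Embedding.refl _)
/-- Allowed row operations. -/
noncomputable def UG (V : Type) [Fintype V] [DecidableEq V] : Subgroup (GLn (J V) RZ) :=
  Subgroup.closure {g | ∃ i j p, i ≠ inr 0 ∧ (j = inr 0 ∨ ∃ v, j = inl v) ∧ g = xg i j p}
/-- Allowed column operations. -/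
noncomputable def VG (V : Type) [Fintype V] [DecidableEq V] : Subgroup (GLn (J V) RZ) :=
  Subgroup.closure {g | ∃ v j p, g = xg (inl v) j p}
def Eqv (M M' : Matrix (J V) (J V) RZ) : Prop :=
  ∃ U ∈ UG V, ∃ U' ∈ VG V, U.val * M * U'.val = M'
/-- Stable equivalence of presentations with a common hub. -/
def Rel (M : Matrix (J V) (J V) RZ) (M' : Matrix (J V') (J V') RZ) : Prop :=
  ∃ (W : Type) (_ : Fintype W) (_ : DecidableEq W) (e : V ↪ W) (e' : V' ↪ W),
    Eqv (padM (Jm e) M) (padM (Jm e') M')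
/-- A positive move that respects the presentation. -/
def Mv (B : Matrix (J V) (J V) RZ) (B' : Matrix (J V') (J V') RZ) : Prop :=
  Sim B B' ∧ Rel (1 - B) (1 - B')
/-- A matrix with a trivial hub. -/
noncomputable def hb (α : Matrix V V RZ) : Matrix (J V) (J V) RZ := fromBlocks α 0 0 1
noncomputable def Del : RZ := 1 - 4 * uR * X
/-- Stable equivalence of `1 - t A` with `1 - 4 u t`. -/
def RelD (A : Matrix V V (Lam ℤ)) : Prop :=
  Rel (hb (1 - tM A)) (hb (of fun _ _ : Unit => Del))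

/-- Some power of `A` is `u r l`, and `l` is a left eigenvector for the eigenvalue eight. -/
structure RankOne (A : Matrix V V (Lam ℤ)) (m : ℕ) (rr l : V → ℕ) : Prop where
  pos : MLPos A
  one : 1 ≤ m
  rpos : ∀ i, 0 < rr i
  lpos : ∀ j, 0 < l j
  pow : ∀ i j, (A ^ m) i j = ((rr i * l j : ℕ) : Lam ℤ) * uL
  eig : ∀ j, ∑ i, (l i : ℤ) * augZ (A i j) = 8 * l j

/-- Paths from `w` that do not visit `w` at the intermediate times. -/
noncomputable def tv (A : Matrix V V (Lam ℤ)) (w : V) : ℕ → V → Lam ℤ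
  | 0 => Pi.single w 1
  | j + 1 => (if j = 0 then tv A w j else Function.update (tv A w j) w 0) ᵥ* A

noncomputable def eta {V : Type} (l : V → ℕ) : V → RZ := fun z => (l z : RZ) * uR
/-- Active part of the system with the exit at `w`. -/
noncomputable def BT (A : Matrix V V (Lam ℤ)) (w : V) (l : V → ℕ) (L c : ℕ) : Matrix V V RZ :=
  (tM A).updateRow w fun z =>
    (if z = w then ∑ j ∈ Ico 1 L, C (tv A w j w) * X ^ j else 0) +
      X ^ L * C (tv A w L z - ((c * l z : ℕ) : Lam ℤ) * uL)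
noncomputable def exi (w : V) (L c : ℕ) : V → RZ := Pi.single w ((c : RZ) * X ^ (L - 1))

/-- The row of the growing hub state. -/
noncomputable def arow {V : Type} (ar : RZ) : J V → RZ := Sum.elim 0 fun _ => ar
noncomputable def hav {V : Type} [DecidableEq V] (ar : RZ) : J V → RZ :=
  Pi.single (inr 0) 1 - arow ar
/-- The model presentation. -/
noncomputable def canon (c L sm : ℕ) (ar : RZ) : Matrix (J Unit) (J Unit) RZ :=
  fromBlocks (of fun _ _ => Del + (c : RZ) * uR * X ^ L)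
    (of fun _ _ => -((c : RZ) * uR * X ^ (L - 1)))
    (of fun h _ => -(![0, X - X ^ sm, X ^ sm] h)) (1 - of fun h _ => ![ar, -ar, 0] h)
/-- Truncated return series of the hub. -/
def IsA (c L j N : ℕ) (a : ℤ[X]) : Prop :=
  a.degree < N ∧ X ^ N ∣ (1 - 8 * X + 2 * (c : ℤ[X]) * X ^ L) * a -
    (c : ℤ[X]) * X ^ L * (1 - 2 * X ^ (j * L))
/-- The loops at the growing hub state are aperiodic with growth at least `1 / r`. -/
def HubA (r : ℝ) (ar : RZ) : Prop :=
  ∃ a : ℤ[X], ar = uR * iZ a ∧ (∀ i, 0 ≤ a.coeff i) ∧ a.coeff 0 = 0 ∧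
    (∃ L, 1 ≤ L ∧ 0 < a.coeff L ∧ 0 < a.coeff (L + 1)) ∧ 1 ≤ 2 * aeval r a

noncomputable def bud (s : ℕ) : RZ := 2 * uR * (X ^ s + X ^ (s + 1))

/-- Positive system with the three hub rows in standard shape. -/
structure Hub (ar : RZ) (sm s0 : ℕ) (B : Matrix (J V) (J V) RZ) : Prop where
  pt : PT B
  ha : B (inr 0) = arow ar
  ent : ∀ h, h ≠ 0 → ∀ z, Pos (B (inr h) (inl z) - X ^ sm)
  bud1 : Pos (B (inr 1) (inr 0) - gR * X ^ s0)

/-- Strictly superharmonic weights for the active part. -/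
def Sup (ρ : ℝ) (ω : V → ℝ) (B : Matrix V V RZ) : Prop :=
  (∀ x, 0 < ω x) ∧ ∀ x, ∑ z, ev ρ (B x z) * ω z < ω x

/-- A row with a budget of degree `s` or `s + 1` and a small signed part supported in `S`. -/
def Rz (r : ℝ) (s κ : ℕ) (ε : ℝ) (S : V → Prop) (ρ : J V → RZ) : Prop :=
  ∃ (ps n : J V → RZ) (s' : ℕ) (m : RZ), (s' = s ∨ s' = s + 1) ∧ PM s' m ∧ (∀ j, Pos (ps j)) ∧
    ρ = ps + Pi.single (inr 0) m + n ∧ (∀ j, X ^ (s + κ) ∣ n j ∧ N0 r (n j) ≤ ε * r ^ s) ∧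
    ∀ z, n (inl z) ≠ 0 → S z

/-- Small signed hub vectors are absorbed by a budget. -/
def P0Const (r : ℝ) (ar : RZ) (κ : ℕ) (θ : ℝ) : Prop :=
  ∀ (s : ℕ) (m : RZ) (n : Fin 3 → RZ), PM s m →
    (∀ h, X ^ (s + κ) ∣ n h ∧ N0 r (n h) ≤ θ * r ^ s) →
    ∃ q : RZ, X ^ s ∣ q ∧
      ∀ h, Pos ((if h = 0 then m else 0) + n h + q * (ar - if h = 0 then 1 else 0))

/-- Rows in `Rz` are positive modulo the rows of the growing state and of one entrance state. -/
def PConst (r : ℝ) (ar : RZ) (σ κ : ℕ) (θ : ℝ) : Prop :=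
  ∀ (V : Type) [Fintype V] [DecidableEq V] (ρ H : J V → RZ) (i : Fin 3) (S : V → Prop) (s : ℕ),
    i ≠ 0 → 1 ≤ s → (∀ j, Pos (H j)) → (∀ z, S z → ∃ σ' ≤ σ, Pos (H (inl z) - X ^ σ')) →
    Rz r s κ θ S ρ → ∃ q₁ q₂ : RZ, X ∣ q₁ ∧ X ∣ q₂ ∧
      ∀ j, Pos ((ρ + q₁ • (H - Pi.single (inr i) 1) - q₂ • hav ar : J V → RZ) j)

/-- `B` is a positive form of the signed active rows `ρ` with hub rows `H`, through hub state `i`. -/
def JSys (ρ : Matrix V (J V) RZ) (H : Fin 3 → J V → RZ) (i : Fin 3) (B : Matrix (J V) (J V) RZ) :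
    Prop :=
  MPos B ∧ (∀ h, B (inr h) = H h) ∧ ∀ x, ∃ q₁ q₂ : RZ, X ∣ q₁ ∧ X ∣ q₂ ∧
    B (inl x) = ρ x + q₁ • (H i - Pi.single (inr i) 1) + q₂ • (H 0 - Pi.single (inr 0) 1)
/-- Constant terms only go from `F` to active states outside `F`. -/
def Cst {V : Type} (F : V → Prop) (ρ : Matrix V (J V) RZ) : Prop :=
  ∀ x j, (ρ x j).coeff 0 ≠ 0 → F x ∧ ∃ z, j = inl z ∧ ¬ F z
/-- The active rows of `1 - B` for signed active rows `ρ`. -/
noncomputable def MA (ρ : Matrix V (J V) RZ) : Matrix V (J V) RZ :=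
  fun x => Pi.single (inl x) 1 - ρ x
/-- Active rows. -/
def act {V : Type} (M : Matrix (J V) (J V) RZ) : Matrix V (J V) RZ := M.submatrix inl id
/-- Extension of a row by zero. -/
noncomputable def extv (e : V ↪ V') (v : J V → RZ) : J V' → RZ := v ᵥ* embM RZ (Jm e)

end systems

section sides
variable {O P : Type} [Fintype O] [DecidableEq O] [Fintype P] [DecidableEq P]

noncomputable def lp {O P : Type} (a : P → ℕ × Bool) : O ⊕ P → RZ :=
  Sum.elim (fun _ => 0) fun π => mono (a π)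
def dg {O P : Type} (a : P → ℕ × Bool) : O ⊕ P → ℕ := Sum.elim (fun _ => 0) fun π => (a π).1
noncomputable def wt {O P : Type} (r : ℝ) (s : ℕ) (a : P → ℕ × Bool) : O ⊕ P → ℝ :=
  fun x => r ^ (dg a x + s)
/-- Matching the periodic states with multipliers. -/
noncomputable def sk (O O' : Type) {P : Type} [DecidableEq P] (μ : P → RZ) :
    Matrix (O' ⊕ P) (O ⊕ P) RZ := fromBlocks 0 0 0 (diagonal μ)

/-- The active part without the loops. -/
noncomputable def sml {O P : Type} [DecidableEq O] [DecidableEq P] (a : P → ℕ × Bool)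
    (B : Matrix (J (O ⊕ P)) (J (O ⊕ P)) RZ) : Matrix (O ⊕ P) (O ⊕ P) RZ :=
  B.toBlocks₁₁ - diagonal (lp a)

/-- The active part is diagonal up to a small matrix of high order; the hub part is bounded. -/
structure Core (r : ℝ) (M s : ℕ) (θ K Ω : ℝ) (a : P → ℕ × Bool)
    (B : Matrix (J (O ⊕ P)) (J (O ⊕ P)) RZ) : Prop where
  ord : ∀ x z, X ^ (dg a x + M) ∣ sml a B x z
  small : ∀ x, RowB r (wt r s a) (sml a B x) (θ * wt r s a x)
  hubn : ∀ x h, N0 r (B (inl x) (inr h)) ≤ K * wt r s a x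
  deg : ∀ π, 1 ≤ (a π).1 ∧ (a π).1 < M
  sum : ∑ x : O ⊕ P, wt r s a x ≤ Ω

/-- Normal form of one side before deflation. -/
structure Side (r : ℝ) (M s : ℕ) (θ K Ω : ℝ) (ar : RZ) (sm s0 : ℕ) (a : P → ℕ × Bool)
    (B : Matrix (J (O ⊕ P)) (J (O ⊕ P)) RZ) : Prop where
  hub : Hub ar sm s0 B
  core : Core r M s θ K Ω a B
  budO : ∀ o, Pos (B (inl (inl o)) (inr 0) - bud s)
  budP : ∀ π, Pos (B (inl (inr π)) (inr 0) - mono (a π) * bud s)
  ordP : ∀ π h, X ^ (a π).1 ∣ B (inl (inr π)) (inr h)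

/-- Normal form of one side after deflation: the exits of the periodic states are `b0`. -/
structure Side2 (r : ℝ) (M s : ℕ) (θ K Ω : ℝ) (ar : RZ) (sm s0 : ℕ) (a : P → ℕ × Bool)
    (b0 : P → RZ) (B : Matrix (J (O ⊕ P)) (J (O ⊕ P)) RZ) : Prop where
  hub : Hub ar sm s0 B
  core : Core r M s θ K Ω a B
  budO : ∀ o, Pos (B (inl (inl o)) (inr 0) - X ^ s)
  budP : ∀ π, Pos (B (inl (inr π)) (inr 0) - b0 π)
  per : ∀ π h, X ^ ((a π).1 + M) ∣ B (inl (inr π)) (inr h) - (if h = 0 then b0 π else 0) ∧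
    N0 r (B (inl (inr π)) (inr h) - if h = 0 then b0 π else 0) ≤ θ * r ^ ((a π).1 + s)

/-- The three rotations `1, g, t`. -/
noncomputable def rm : Fin 3 → RZ := ![1, gR, X]
/-- The loop divided by the rotation. -/
noncomputable def rn (q : ℕ × Bool) : Fin 3 → RZ := ![mono q, gR * mono q, mono (q.1 - 1, q.2)]
def RotOk {P : Type} (a : P → ℕ × Bool) (m : P → Fin 3) : Prop := ∀ π, m π = 2 → 2 ≤ (a π).1

/-- Weighted mass of a row, with the extra weight `κ` at the state `y`. -/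
noncomputable def phi {V : Type} [Fintype V] [DecidableEq V] (ρ κ oh : ℝ) (ω : V → ℝ) (y : V)
    (v : J V → RZ) : ℝ :=
  ∑ z, ev ρ (v (inl z)) * (ω z + if z = y then κ else 0) + oh * ∑ h, ev ρ (v (inr h))

/-- Constants of the elimination of short loops. -/
structure PC where
  ρ : ℝ
  κ : ℝ
  oh : ℝ
  ϑ : ℝ
  Ω : ℝ
  ar : RZ
  sm : ℕ
  s0 : ℕ
  s : ℕ

structure PC.Ok (c : PC) : Prop where
  ρ0 : 0 < c.ρ
  ρ1 : c.ρ ≤ 1
  κ0 : 0 < c.κ
  oh0 : 0 < c.oh
  ϑ0 : 0 < c.ϑ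
  ϑ1 : c.ϑ < 1
  κle : c.κ ≤ c.ϑ * (c.oh * ev c.ρ (bud c.s))

/-- Invariant of the elimination of short loops: ordinary rows have order `d` in the active
columns, the loops have degree at most `e`. -/
structure Inv (c : PC) (d e : ℕ) (a : P → ℕ × Bool) (par : P → O) (idx : P → ℕ) (ω : O ⊕ P → ℝ)
    (T : P → J (O ⊕ P) → RZ) (B : Matrix (J (O ⊕ P)) (J (O ⊕ P)) RZ) : Prop where
  hub : Hub c.ar c.sm c.s0 B
  om : ∀ z, 0 ≤ ω z
  sum : ∑ z, ω z ≤ c.Ω
  ordS : ∀ o y, phi c.ρ c.κ c.oh ω y (B (inl (inl o))) ≤ (1 - c.ϑ) * ω (inl o)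
  ordB : ∀ o, Pos (B (inl (inl o)) (inr 0) - bud c.s)
  ordD : ∀ o z, X ^ d ∣ B (inl (inl o)) (inl z)
  row : ∀ π, B (inl (inr π)) = mono (a π) • T π
  tpos : ∀ π j, Pos (T π j)
  tself : ∀ π, T π (inl (inr π)) = 1
  tpar : ∀ π, Pos (T π (inl (inl (par π))) - 1)
  ttri : ∀ π π', π' ≠ π → T π (inl (inr π')) ≠ 0 → idx π < idx π'
  perS : ∀ π y, c.ρ ^ (a π).1 * phi c.ρ c.κ c.oh ω y (T π) ≤ ω (inr π)
  perL : ∀ π, c.ρ ^ (a π).1 * c.κ ≤ ω (inr π)
  perU : ∀ π, ω (inr π) ≤ c.ρ ^ (a π).1 * (c.Ω + c.κ)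
  deg : ∀ π, 1 ≤ (a π).1 ∧ (a π).1 ≤ e

/-- The off-diagonal active entries of the ordinary rows have order `d`. -/
def OffD {O P : Type} (d : ℕ) (B : Matrix (J (O ⊕ P)) (J (O ⊕ P)) RZ) : Prop :=
  ∀ o z, z ≠ inl o → X ^ d ∣ B (inl (inl o)) (inl z)

end sides

section joint
variable {VX VY W : Type} [Fintype VX] [DecidableEq VX] [Fintype VY] [DecidableEq VY]
  [Fintype W] [DecidableEq W]

def eX (VX VY W : Type) : VX ↪ VX ⊕ VY ⊕ W := Function.Embedding.inl
def eY (VX VY W : Type) : VY ↪ VX ⊕ VY ⊕ W := Function.Embedding.inl.trans Function.Embedding.inr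

/-- Joint active rows: the first system, and the states of the second expressed in the first. -/
noncomputable def M1 (W : Type) [Fintype W] [DecidableEq W] (MX : Matrix (J VX) (J VX) RZ)
    (g : Matrix VY (J VX) RZ) : Matrix (VX ⊕ VY ⊕ W) (J (VX ⊕ VY ⊕ W)) RZ :=
  Sum.elim (fun x => extv (eX VX VY W) (MX (inl x)))
    (Sum.elim (fun y => Pi.single (inl (eY VX VY W y)) 1 - extv (eX VX VY W) (g y))
      fun w => Pi.single (inl (inr (inr w))) 1)
/-- Joint active rows: the second system, and the states of the first expressed in the second. -/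
noncomputable def M2 (W : Type) [Fintype W] [DecidableEq W] (MY : Matrix (J VY) (J VY) RZ)
    (f : Matrix VX (J VY) RZ) : Matrix (VX ⊕ VY ⊕ W) (J (VX ⊕ VY ⊕ W)) RZ :=
  Sum.elim (fun x => Pi.single (inl (eX VX VY W x)) 1 - extv (eY VX VY W) (f x))
    (Sum.elim (fun y => extv (eY VX VY W) (MY (inl y))) fun w => Pi.single (inl (inr (inr w))) 1)
noncomputable def A1 (W : Type) [DecidableEq W] (α : Matrix VX VX RZ) (g : Matrix VY VX RZ) :
    Matrix (VX ⊕ VY ⊕ W) (VX ⊕ VY ⊕ W) RZ :=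
  fromBlocks α 0 (fromRows (-g) (0 : Matrix W VX RZ)) 1
noncomputable def A2 (W : Type) [DecidableEq W] (α : Matrix VY VY RZ) (f : Matrix VX VY RZ) :
    Matrix (VX ⊕ VY ⊕ W) (VX ⊕ VY ⊕ W) RZ :=
  fromBlocks 1 (fromCols (-f) (0 : Matrix VX W RZ)) 0 (fromBlocks α 0 0 1)
/-- Lower block unipotent element. -/
noncomputable def Xm (W : Type) [Fintype W] [DecidableEq W] (Q : Matrix VY VX RZ) :
    El (VX ⊕ VY ⊕ W) RZ :=
  prodL (univ : Finset (VY × VX)).toList
    (fun yx p => (el _ RZ).x (eY VX VY W yx.1) (eX VX VY W yx.2) p) fun yx => Q yx.1 yx.2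
/-- Upper block unipotent element. -/
noncomputable def Xp (W : Type) [Fintype W] [DecidableEq W] (Q : Matrix VX VY RZ) :
    El (VX ⊕ VY ⊕ W) RZ :=
  prodL (univ : Finset (VX × VY)).toList
    (fun xy p => (el _ RZ).x (eX VX VY W xy.1) (eY VX VY W xy.2) p) fun xy => Q xy.1 xy.2

/-- The two joint presentations are related by the elementary matrix `N`. -/
def Lnk (ar : RZ) (MX : Matrix (J VX) (J VX) RZ) (MY : Matrix (J VY) (J VY) RZ)
    (g : Matrix VY (J VX) RZ) (f : Matrix VX (J VY) RZ) (N : El (VX ⊕ VY ⊕ W) RZ) : Prop :=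
  (∃ c, mat N * M1 W MX g = M2 W MY f + vecMulVec c (hav ar)) ∧
    ∀ h, h ≠ 0 → ∃ (c : VX ⊕ VY ⊕ W → RZ) (c' : RZ),
      extv (eX VX VY W) (MX (inr h)) - extv (eY VX VY W) (MY (inr h)) =
        c ᵥ* M1 W MX g + c' • hav ar

/-- The lift `g` of the states of `BA` respects the rows of `BA`. -/
def Resp (ar : RZ) (BA : Matrix (J VY) (J VY) RZ) (BB : Matrix (J VX) (J VX) RZ)
    (g : Matrix VY (J VX) RZ) : Prop :=
  ∀ y, ∃ (c : VX → RZ) (c' : RZ),
    g y - (fun y' => BA (inl y) (inl y')) ᵥ* g -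
      Sum.elim (0 : VX → RZ) (fun h => BA (inl y) (inr h)) = c ᵥ* act (1 - BB) + c' • hav ar

def eX' (VX VY W : Type) : VX ↪ Option (VX ⊕ VY ⊕ W) := (eX VX VY W).trans Function.Embedding.some
def eY' (VX VY W : Type) : VY ↪ Option (VX ⊕ VY ⊕ W) := (eY VX VY W).trans Function.Embedding.some

/-- Signed rows of the joint system at the start. -/
noncomputable def rho1 (sj : Option (VX ⊕ VY ⊕ W) → ℕ) (BX : Matrix (J VX) (J VX) RZ)
    (g : Matrix VY (J VX) RZ) : Matrix (Option (VX ⊕ VY ⊕ W)) (J (Option (VX ⊕ VY ⊕ W))) RZ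
  | some (inl x) => extv (eX' VX VY W) (BX (inl x))
  | some (inr (inl y)) => extv (eX' VX VY W) (g y)
  | i => Pi.single (inr 0) (X ^ sj i)
/-- Signed rows of the joint system at the end. -/
noncomputable def rho2 (sj : Option (VX ⊕ VY ⊕ W) → ℕ) (BY : Matrix (J VY) (J VY) RZ)
    (f : Matrix VX (J VY) RZ) : Matrix (Option (VX ⊕ VY ⊕ W)) (J (Option (VX ⊕ VY ⊕ W))) RZ
  | some (inl x) => extv (eY' VX VY W) (f x)
  | some (inr (inl y)) => extv (eY' VX VY W) (BY (inl y))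
  | i => Pi.single (inr 0) (X ^ sj i)

end joint

end Pool.Agent.Lib.MP_71aad1_an.SS
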