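import Pool.Agent.Lib.MP_71aad1_an.QDef3

set_option autoImplicit false

namespace Pool.Agent.Lib.MP_71aad1_an.SS

open Polynomial Matrix Finset Sum

/-! Further definitions for the joint system and the elimination of loops. -/

section
variable {V : Type} [Fintype V] [DecidableEq V]

/-- Signed rows at the position `P`. -/
noncomputable def rhoP (P : Matrix V V RZ) (ρ : Matrix V (J V) RZ) : Matrix V (J V) RZ :=
  fun x => Pi.single (inl x) 1 - (P * MA ρ) x

/-- `v` is a combination of the active rows, the row of the hub state `i` and `hav`. -/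
def Spn (ar : RZ) (ρ : Matrix V (J V) RZ) (H : J V → RZ) (i : Fin 3) (v : J V → RZ) : Prop :=
  ∃ (c : V → RZ) (q₁ q₂ : RZ), v = c ᵥ* MA ρ + q₁ • (H - Pi.single (inr i) 1) + q₂ • hav ar

/-- Combinations of the rows with bounded coefficients have bounded entries. -/
def CB (r : ℝ) (W : V → ℝ) (K : ℝ) (ρ : Matrix V (J V) RZ) : Prop :=
  ∀ (c : V → RZ) (η : ℝ), RowB r W c η → ∀ j, N0 r ((c ᵥ* ρ) j) ≤ K * η

/-- Admissible hub rows. -/
structure HubR {V : Type} (ar : RZ) (H : Fin 3 → J V → RZ) : Prop where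
  pos : ∀ h j, Pos (H h j)
  td : ∀ h j, X ∣ H h j
  ha : H 0 = arow ar

/-- The row `H` enters all states of `S` after at most `σ` steps. -/
def Cov {V : Type} (σ : ℕ) (S : V → Prop) (H : J V → RZ) : Prop :=
  ∀ z, S z → ∃ σ' ≤ σ, Pos (H (inl z) - X ^ σ')

/-- `B₀` is moved to a system with the invariant `Inv c d e`. -/
def InvE (c : PC) (d e : ℕ) {V₀ : Type} [Fintype V₀] [DecidableEq V₀] (O : Type) [Fintype O]
    [DecidableEq O] (B₀ : Matrix (J V₀) (J V₀) RZ) : Prop :=
  ∃ (P : Type) (_ : Fintype P) (_ : DecidableEq P) (a : P → ℕ × Bool) (par : P → O) (idx : P → ℕ)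
    (ω : O ⊕ P → ℝ) (T : P → J (O ⊕ P) → RZ) (B : Matrix (J (O ⊕ P)) (J (O ⊕ P)) RZ),
    Mv B₀ B ∧ Inv c d e a par idx ω T B

end

section
variable {O O' P W : Type} [Fintype O] [DecidableEq O] [Fintype O'] [DecidableEq O'] [Fintype P]
  [DecidableEq P] [Fintype W] [DecidableEq W]

/-- A lift of the states of one side into the other side that is close to the matching `μ`. -/
structure Lft (r : ℝ) (M s : ℕ) (ε K : ℝ) (a : P → ℕ × Bool) (μ : P → RZ)
    (g : Matrix (O' ⊕ P) (J (O ⊕ P)) RZ) : Prop where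
  ord : ∀ y z, X ^ (dg a y + M) ∣ (g.submatrix id inl - sk O O' μ) y z
  small : ∀ y, RowB r (wt r s a) ((g.submatrix id inl - sk O O' μ) y) (ε * wt r s a y)
  rz : ∀ κ, s + κ ≤ M → ∀ y, Rz r (dg a y + s) κ ε (fun _ => True) (g y)
  hubn : ∀ y h, N0 r (g y (inr h)) ≤ K * wt r s a y
  td : ∀ y h, X ∣ g y (inr h)

/-- Degrees of the budgets in the joint system. -/
noncomputable def sjF (O O' : Type) (s : ℕ) (a : P → ℕ × Bool) (e₃ : Fin 3 ↪ W) :
    Option ((O ⊕ P) ⊕ (O' ⊕ P) ⊕ W) → ℕ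
  | none => s
  | some (inl x) => dg a x + s
  | some (inr (inl y)) => dg a y + s
  | some (inr (inr w)) => if ∃ k, e₃ k = w then s else s + Fintype.card W

/-- Three of the extra states. -/
def triW (VX VY : Type) {W : Type} (e₃ : Fin 3 ↪ W) : Tri (VX ⊕ VY ⊕ W) where
  i0 := inr (inr (e₃ 0))
  i1 := inr (inr (e₃ 1))
  i2 := inr (inr (e₃ 2))
  h01 := by simp
  h02 := by simp
  h12 := by simp

end

/-- Translation of a coefficient function on the group of order two. -/
def cvL (c : Multiplicative (ZMod 2) → ℤ) : Lam ℤ := ⟨c 1, c (Multiplicative.ofAdd 1)⟩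
/-- Translation back. -/
def cvG (c : Lam ℤ) : Multiplicative (ZMod 2) → ℤ := fun g => if g = 1 then c.re else c.im
/-- Matrices in the format of the frozen statement. -/
abbrev GM : Type := Σ n : ℕ, (Fin n → Fin n → Multiplicative (ZMod 2) → ℤ)
def cvM (A : GM) : FM := ⟨A.1, of fun i j => cvL (A.2 i j)⟩
/-- The matrix `4 u` of size one. -/
def A0 : GM := ⟨1, fun _ _ _ => 4⟩
/-- Primitive matrices over the positive semiring. -/
def Prim (A : FM) : Prop :=
  0 < A.1 ∧ MLPos A.2 ∧ ∃ k : ℕ, ∀ i j, 0 < ((A.2 ^ (k + 1)) i j).re ∧ 0 < ((A.2 ^ (k + 1)) i j).im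

end Pool.Agent.Lib.MP_71aad1_an.SS
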