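import Pool.Agent.Lib.MP_71aad1_an.QA3
import Pool.Agent.Lib.MP_71aad1_an.QDef4

set_option autoImplicit false

namespace Pool.Agent.Lib.MP_71aad1_an.SS

open Polynomial Matrix Finset Sum

/-! Absorbing small signed vectors. -/

theorem qt8_Icc (g : ℕ → ℝ) (D : ℕ) : ∑ i ∈ Icc 1 D, g i = ∑ i ∈ range D, g (i + 1) := by
  induction D with
  | zero => simp
  | succ D ih => rw [sum_Icc_succ_top (by omega), sum_range_succ, ih]

/-- Renewal sequences. `b (i + j) ≥ b i * b j` by strong induction on `j` (or `i`); positivity of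
`b n` for `n ≥ L * L` because `n = x L + y (L + 1)`; the numbers `b n * r ^ n` satisfy
`β n = ∑ f i r ^ i β (n - i) ≥ min` of the previous `D` values for `n ≥ D`. -/
theorem renewal (f : ℕ → ℝ) (D : ℕ) (hf : ∀ i, 0 ≤ f i) (hD : ∀ i, D < i → f i = 0) {L : ℕ}
    (hL : 1 ≤ L) (h1 : 0 < f L) (h2 : 0 < f (L + 1)) {r : ℝ} (hr : 0 < r)
    (hs : 1 ≤ ∑ i ∈ Icc 1 D, f i * r ^ i) (b : ℕ → ℝ) (b0 : b 0 = 1)
    (hb : ∀ n, b (n + 1) = ∑ i ∈ range (n + 1), f (i + 1) * b (n - i)) :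
    (∀ n, 0 ≤ b n) ∧ (∀ i j, b i * b j ≤ b (i + j)) ∧
      ∃ (κ : ℕ) (c : ℝ), 0 < c ∧ ∀ n, κ ≤ n → c ≤ b n * r ^ n := by
  have p0 : ∀ n, 0 ≤ b n := fun n => by
    induction n using Nat.strong_induction_on with
    | _ n ih =>
      rcases n with _ | n
      · rw [b0]
        exact zero_le_one
      · rw [hb]
        exact sum_nonneg fun i _ => mul_nonneg (hf _) (ih _ (by omega))
  have p1 : ∀ i j, b i * b j ≤ b (i + j) := fun i j => by
    induction j using Nat.strong_induction_on with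
    | _ j ih =>
      rcases j with _ | j
      · rw [b0, mul_one, add_zero]
      · rw [← add_assoc, hb, hb, mul_sum]
        refine le_trans (sum_le_sum fun k hk => ?_) (sum_le_sum_of_subset_of_nonneg
          (range_mono (show j + 1 ≤ i + j + 1 by omega)) fun k _ _ => mul_nonneg (hf _) (p0 _))
        have hk' := mem_range.1 hk
        have e : i + j - k = i + (j - k) := by omega
        rw [e, mul_left_comm]
        exact mul_le_mul_of_nonneg_left (ih _ (by omega)) (hf _)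
  have p2 : ∀ n, 0 < f (n + 1) → 0 < b (n + 1) := fun n hn => by
    rw [hb, sum_range_succ, Nat.sub_self, b0, mul_one]
    exact add_pos_of_nonneg_of_pos (sum_nonneg fun i _ => mul_nonneg (hf _) (p0 _)) hn
  have p3 : ∀ k, 0 < b k → ∀ x, 0 < b (x * k) := fun k hk x => by
    induction x with
    | zero => rw [zero_mul, b0]; exact one_pos
    | succ x ih => rw [add_mul, one_mul]; exact (mul_pos ih hk).trans_le (p1 _ _)
  have p4 : ∀ n, L * L ≤ n → 0 < b n := fun n hn => by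
    obtain ⟨K, rfl⟩ : ∃ K, L = K + 1 := ⟨L - 1, by omega⟩
    have a1 : n % (K + 1) < K + 1 := Nat.mod_lt _ hL
    have a2 : K + 1 ≤ n / (K + 1) := (Nat.le_div_iff_mul_le hL).2 hn
    obtain ⟨x, hx⟩ : ∃ x, n / (K + 1) = x + n % (K + 1) := ⟨n / (K + 1) - n % (K + 1), by omega⟩
    have a3 : n = x * (K + 1) + n % (K + 1) * (K + 1 + 1) := by
      have a4 := Nat.div_add_mod n (K + 1)
      rw [hx] at a4
      linarith
    rw [a3]
    exact (mul_pos (p3 _ (p2 _ h1) _) (p3 _ (p2 _ h2) _)).trans_le (p1 _ _)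
  obtain ⟨n₀, hn₀, hmin⟩ := exists_min_image (Icc (L * L) (L * L + D)) (fun n => b n * r ^ n)
    ⟨L * L, by simp⟩
  have hc : 0 < b n₀ * r ^ n₀ := mul_pos (p4 _ (mem_Icc.1 hn₀).1) (pow_pos hr _)
  refine ⟨p0, p1, L * L, b n₀ * r ^ n₀, hc, fun n => ?_⟩
  rw [qt8_Icc] at hs
  induction n using Nat.strong_induction_on with
  | _ n ih =>
    intro hn
    by_cases h : n ≤ L * L + D
    · exact hmin n (mem_Icc.2 ⟨hn, h⟩)
    obtain ⟨n, rfl⟩ : ∃ k, n = k + 1 := ⟨n - 1, by omega⟩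
    rw [hb, sum_mul]
    refine le_trans ?_ (sum_le_sum_of_subset_of_nonneg (range_mono (show D ≤ n + 1 by omega))
      fun k _ _ => mul_nonneg (mul_nonneg (hf _) (p0 _)) (pow_pos hr _).le)
    refine (le_mul_of_one_le_left hc.le hs).trans ?_
    rw [sum_mul]
    refine sum_le_sum fun k hk => ?_
    have hk' := mem_range.1 hk
    have e : r ^ (n + 1) = r ^ (k + 1) * r ^ (n - k) := by
      rw [← pow_add]
      congr 1
      omega
    have a := mul_le_mul_of_nonneg_left (ih (n - k) (by omega) (by omega))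
      (mul_nonneg (hf (k + 1)) (pow_pos hr (k + 1)).le)
    rw [e]
    linarith

theorem qt8_part {r : ℝ} (hr : 0 ≤ r) (p : RZ) (s : Finset ℕ) :
    ∑ i ∈ s, r ^ i * (‖(p.coeff i).re‖ + ‖(p.coeff i).im‖) ≤ N0 r p := by
  rw [N0, nw_eq_sum _ p (subset_union_left (s₂ := s))]
  exact sum_le_sum_of_subset_of_nonneg subset_union_right fun i _ _ => by positivity

theorem qt8_seq {r : ℝ} (hr : 0 < r) {a : ℤ[X]} (ha : ∀ i, 0 ≤ a.coeff i) (ha0 : a.coeff 0 = 0)
    {L : ℕ} (hL : 1 ≤ L) (h1 : 0 < a.coeff L) (h2 : 0 < a.coeff (L + 1))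
    (hs : 1 ≤ 2 * aeval r a) : ∃ (κ : ℕ) (c : ℝ), 0 < c ∧ ∀ ν : ℕ → ℤ, (∀ i, 0 ≤ ν i) →
      (∀ i < κ, ν i = 0) → (∀ j, ∑ i ∈ range j, r ^ i * (ν i : ℝ) ≤ c) →
      ∃ Y : PowerSeries ℤ, (∀ j, 0 ≤ PowerSeries.coeff j Y) ∧
        (a : PowerSeries ℤ) + 2 * ((a : PowerSeries ℤ) * Y) - Y = PowerSeries.mk ν := by
  obtain ⟨B, hB⟩ : ∃ B : PowerSeries ℤ, (1 - 2 * (a : PowerSeries ℤ)) * B = 1 :=
    ⟨_, PowerSeries.mul_invOfUnit _ 1 (by simp [ha0])⟩
  have hB' : B = 1 + ((a : PowerSeries ℤ) * B + (a : PowerSeries ℤ) * B) := by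
    linear_combination hB
  have hc : ∀ (ν : ℕ → ℤ) (N : PowerSeries ℤ), (∀ i, PowerSeries.coeff i N = ν i) → ∀ j,
      PowerSeries.coeff j (N * B) = ∑ i ∈ range (j + 1), ν i * PowerSeries.coeff (j - i) B :=
    fun ν N hN j => by
      rw [PowerSeries.coeff_mul, Finset.Nat.sum_antidiagonal_eq_sum_range_succ
        (fun i k => PowerSeries.coeff i N * PowerSeries.coeff k B)]
      simp only [hN]
  have hA := hc a.coeff a fun i => Polynomial.coeff_coe _ _
  have b0 : PowerSeries.coeff 0 B = 1 := by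
    have e := congrArg (PowerSeries.coeff 0) hB'
    rw [map_add, map_add, hA] at e
    simpa [ha0] using e
  have b1 : ∀ n, PowerSeries.coeff (n + 1) B =
      2 * PowerSeries.coeff (n + 1) ((a : PowerSeries ℤ) * B) := fun n => by
    have e := congrArg (PowerSeries.coeff (n + 1)) hB'
    rw [map_add, map_add, PowerSeries.coeff_one, if_neg (Nat.succ_ne_zero n)] at e
    linarith
  obtain ⟨p0, p1, κ, c, hc0, p2⟩ := renewal (fun i => 2 * (a.coeff i : ℝ)) a.natDegree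
    (fun i => mul_nonneg zero_le_two (by exact_mod_cast ha i))
    (fun i hi => by rw [coeff_eq_zero_of_natDegree_lt hi]; simp) hL
    (mul_pos two_pos (by exact_mod_cast h1)) (mul_pos two_pos (by exact_mod_cast h2)) hr
    (by
      rw [aeval_eq_sum_range, sum_range_succ', ha0, zero_smul, add_zero, mul_sum] at hs
      rw [qt8_Icc]
      simpa only [zsmul_eq_mul, mul_assoc] using hs)
    (fun n => ((PowerSeries.coeff n B : ℤ) : ℝ)) (by rw [b0]; simp)
    (fun n => by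
      rw [b1, hA, sum_range_succ', ha0, zero_mul, add_zero]
      push_cast
      rw [mul_sum]
      refine sum_congr rfl fun i _ => ?_
      rw [mul_assoc])
  refine ⟨κ + 1, c / 2, by positivity, fun ν h0 hκ hν =>
    ⟨((a : PowerSeries ℤ) - PowerSeries.mk ν) * B, fun j => ?_, by
      linear_combination (PowerSeries.mk ν - (a : PowerSeries ℤ)) * hB⟩⟩
  rw [sub_mul, map_sub, hc ν _ fun i => PowerSeries.coeff_mk _ _]
  rcases j with _ | j
  · rw [hA]
    simp [ha0, hκ 0 (by omega)]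
  have a1 : c * ∑ i ∈ range (j + 1 + 1), (ν i : ℝ) * (PowerSeries.coeff (j + 1 - i) B : ℤ) ≤
      (∑ i ∈ range (j + 1 + 1), r ^ i * (ν i : ℝ)) * (PowerSeries.coeff (j + 1) B : ℤ) := by
    rw [mul_sum, sum_mul]
    refine sum_le_sum fun i hi => ?_
    have hi' := mem_range.1 hi
    by_cases hik : i < κ + 1
    · rw [hκ i hik]
      simp
    have a2 := p1 i (j + 1 - i)
    rw [show i + (j + 1 - i) = j + 1 by omega] at a2
    have a3 := mul_le_mul_of_nonneg_right (p2 i (by omega)) (p0 (j + 1 - i))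
    have a4 := mul_le_mul_of_nonneg_left a2 (pow_pos hr i).le
    have a5 : (0 : ℝ) ≤ ν i := by exact_mod_cast h0 i
    have a6 : c * ((PowerSeries.coeff (j + 1 - i) B : ℤ) : ℝ) ≤
        r ^ i * ((PowerSeries.coeff (j + 1) B : ℤ) : ℝ) := by linarith
    have a7 := mul_le_mul_of_nonneg_left a6 a5
    linarith
  have a2 := mul_le_mul_of_nonneg_right (hν (j + 1 + 1)) (p0 (j + 1))
  have a3 : 2 * ∑ i ∈ range (j + 1 + 1), (ν i : ℝ) * (PowerSeries.coeff (j + 1 - i) B : ℤ) ≤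
      (PowerSeries.coeff (j + 1) B : ℤ) := le_of_mul_le_mul_left (by linarith) hc0
  have a4 : 2 * ∑ i ∈ range (j + 1 + 1), ν i * PowerSeries.coeff (j + 1 - i) B ≤
      PowerSeries.coeff (j + 1) B := by exact_mod_cast a3
  linarith [b1 j]

theorem qt8_core {r : ℝ} (hr : 0 < r) {a : ℤ[X]} (ha : ∀ i, 0 ≤ a.coeff i) (ha0 : a.coeff 0 = 0)
    {L : ℕ} (hL : 1 ≤ L) (h1 : 0 < a.coeff L) (h2 : 0 < a.coeff (L + 1))
    (hs : 1 ≤ 2 * aeval r a) : ∃ (κ : ℕ) (θ : ℝ), 0 < θ ∧ ∀ n : Fin 3 → RZ, (∀ h, X ^ κ ∣ n h) →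
      (∀ h, N0 r (n h) ≤ θ) → ∃ y : ℤ[X], (∀ i, 0 ≤ y.coeff i) ∧
        ∀ h, Pos (n h + uR * iZ (a * (1 + 2 * y) - y)) := by
  obtain ⟨κ, c, hc, H⟩ := qt8_seq hr ha ha0 hL h1 h2 hs
  refine ⟨κ, c / 3, by positivity, fun n hd hn => ?_⟩
  obtain ⟨Y, hY, hE⟩ := H (fun i => ∑ h, (|((n h).coeff i).re| + |((n h).coeff i).im|))
    (fun i => sum_nonneg fun h _ => by positivity)
    (fun i hi => sum_eq_zero fun h _ => by rw [X_pow_dvd_iff.1 (hd h) i hi]; simp)
    (fun j => by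
      push_cast
      simp only [mul_sum]
      rw [sum_comm]
      refine (sum_le_sum fun h _ => le_trans ?_ ((qt8_part hr.le (n h) (range j)).trans
        (hn h))).trans (by simp; linarith)
      simp only [Int.norm_eq_abs]
      exact le_rfl)
  obtain ⟨T, hT⟩ : ∃ T, ∀ h j, T ≤ j → (n h).coeff j = 0 :=
    ⟨∑ h, (n h).natDegree + 1, fun h j hj => coeff_eq_zero_of_natDegree_lt (lt_of_le_of_lt
      (single_le_sum (f := fun h => (n h).natDegree) (fun _ _ => Nat.zero_le _) (mem_univ h)) hj)⟩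
  have hy : ∀ i, 0 ≤ (PowerSeries.trunc T Y).coeff i := fun i => by
    rw [PowerSeries.coeff_trunc]
    split_ifs
    · exact hY i
    · exact le_rfl
  refine ⟨PowerSeries.trunc T Y, hy, fun h j => ?_⟩
  have e : (a * (1 + 2 * PowerSeries.trunc T Y) - PowerSeries.trunc T Y).coeff j =
      a.coeff j + 2 * (a * PowerSeries.trunc T Y).coeff j - (PowerSeries.trunc T Y).coeff j := by
    rw [show a * (1 + 2 * PowerSeries.trunc T Y) =
      a + (a * PowerSeries.trunc T Y + a * PowerSeries.trunc T Y) by ring, coeff_sub, coeff_add,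
      coeff_add]
    ring
  rw [coeff_add, coeff_uR_mul_iZ, e]
  by_cases hj : j < T
  · have e1 := congrArg (PowerSeries.coeff j) hE
    rw [two_mul, map_sub, map_add, map_add, PowerSeries.coeff_mk, Polynomial.coeff_coe] at e1
    have e2 : (a * PowerSeries.trunc T Y).coeff j =
        PowerSeries.coeff j ((a : PowerSeries ℤ) * Y) := by
      rw [Polynomial.coeff_mul, PowerSeries.coeff_mul]
      refine sum_congr rfl fun x hx => ?_
      have := mem_antidiagonal.1 hx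
      rw [PowerSeries.coeff_trunc, if_pos (by omega), Polynomial.coeff_coe]
    have a1 := single_le_sum (f := fun h => |((n h).coeff j).re| + |((n h).coeff j).im|)
      (fun _ _ => by positivity) (mem_univ h)
    rw [e2, PowerSeries.coeff_trunc, if_pos hj]
    have a2 := neg_abs_le ((n h).coeff j).re
    have a3 := neg_abs_le ((n h).coeff j).im
    have a4 := abs_nonneg ((n h).coeff j).re
    have a5 := abs_nonneg ((n h).coeff j).im
    constructor
    · change 0 ≤ _ + _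
      linarith
    · change 0 ≤ _ + _
      linarith
  · have a1 : 0 ≤ (a * PowerSeries.trunc T Y).coeff j := by
      rw [Polynomial.coeff_mul]
      exact sum_nonneg fun x _ => mul_nonneg (ha _) (hy _)
    rw [hT h j (not_lt.1 hj), zero_add, PowerSeries.coeff_trunc, if_neg hj]
    have a2 := ha j
    constructor
    · change 0 ≤ _ - _
      linarith
    · change 0 ≤ _ - _
      linarith

/-- Let `ar = u a`, `b = 1 / (1 - 2 a)` as a power series (`renewal` with `f = 2 a`), `θ = c / 6`,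
`κ ≥ 1`. Let `ν j` be the sum over `h` of `|re| + |im|` of the coefficient `s + j` of `n h`, so
`∑ ν j r ^ j ≤ 3 θ` and `ν j = 0` for `j < κ`. The series `Y = (a - ν) b` has nonnegative
coefficients: `(a b) j = b j / 2` for `j ≥ 1`, and `ν i * b (j - i) ≤ ν i r ^ i b j / c`. Let `y` be
the truncation of `Y` below a degree `T` beyond the support of `ν`, and `q = m + t ^ s u y`. Then
`q ar = t ^ s u a (1 + 2 y)` (`PM.mul_uR`), and `a (1 + 2 y) - y` has the coefficient `ν j` for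
`j < T` and nonnegative coefficients for `j ≥ T`. One can avoid power series by defining the
coefficients of `Y` recursively. -/
theorem exists_P0Const {r : ℝ} (hr : 0 < r) {ar : RZ} (h : HubA r ar) :
    ∃ (κ : ℕ) (θ : ℝ), 0 < θ ∧ P0Const r ar κ θ := by
  obtain ⟨a, rfl, ha, ha0, ⟨L, hL, h1, h2⟩, hs⟩ := h
  obtain ⟨κ, θ, hθ, hc⟩ := qt8_core hr ha ha0 hL h1 h2 hs
  refine ⟨κ, θ, hθ, fun s m n hm hn => ?_⟩
  choose n' hn' using fun h => (hn h).1
  have e : ∀ h, n h = X ^ s * (X ^ κ * n' h) := fun h => by rw [hn', pow_add, mul_assoc]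
  obtain ⟨y, hy, hp⟩ := hc (fun h => X ^ κ * n' h) (fun h => Dvd.intro _ rfl) fun h => by
    have a1 := (hn h).2
    rw [e, N0_X_pow_mul, mul_comm] at a1
    exact le_of_mul_le_mul_right a1 (pow_pos hr s)
  refine ⟨m + X ^ s * (uR * iZ y), dvd_add hm.dvd (Dvd.intro _ rfl), fun h => ?_⟩
  have e1 := hm.mul_uR
  have e2 := uR_mul_uR
  have e3 : iZ (a * (1 + 2 * y) - y) = iZ a * (1 + 2 * iZ y) - iZ y := by
    rw [map_sub, map_mul, map_add, map_mul, map_one, map_ofNat]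
  have a1 := (pos_X_pow_mul s _).2 (hp h)
  have a2 := (pos_X_pow_mul s _).2 ((pos_uR_mul_iZ y).2 hy)
  rw [e3] at a1
  split_ifs
  · convert a1 using 1
    rw [e h]
    linear_combination iZ a * e1 + X ^ s * iZ y * iZ a * e2
  · convert a1.add a2 using 1
    rw [e h]
    linear_combination iZ a * e1 + X ^ s * iZ y * iZ a * e2

theorem qt8_q {r₀ r E : ℝ} (h0 : 0 < r₀) (h1 : r₀ < r) (hE : 0 ≤ E) (σ lo T : ℕ) :
    ∃ q : RZ, Pos q ∧ X ^ lo ∣ q ∧
      (∀ j, lo ≤ j → j < T → q.coeff j = ⟨⌊E / r ^ (j + σ)⌋, ⌊E / r ^ (j + σ)⌋⟩) ∧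
      N0 r₀ q ≤ 2 * E / r ^ σ * ((r₀ / r) ^ lo / (1 - r₀ / r)) := by
  have hr : 0 < r := h0.trans h1
  obtain ⟨Q, hQ⟩ : ∃ Q : ℤ[X], ∀ j, Q.coeff j = if j ∈ Ico lo T then ⌊E / r ^ (j + σ)⌋ else 0 :=
    ⟨∑ j ∈ Ico lo T, monomial j ⌊E / r ^ (j + σ)⌋, fun j => by
      simp only [finsetSum_coeff, coeff_monomial, sum_ite_eq']⟩
  have hf : ∀ j, 0 ≤ ⌊E / r ^ (j + σ)⌋ := fun j => Int.floor_nonneg.2 (by positivity)
  refine ⟨uR * iZ Q, (pos_uR_mul_iZ Q).2 fun j => ?_, X_pow_dvd_iff.2 fun j hj => ?_,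
    fun j a1 a2 => ?_, ?_⟩
  · rw [hQ]
    split_ifs
    · exact hf j
    · exact le_rfl
  · rw [coeff_uR_mul_iZ, hQ, if_neg fun hc => absurd (mem_Ico.1 hc).1 (by omega)]
    rfl
  · rw [coeff_uR_mul_iZ, hQ, if_pos (mem_Ico.2 ⟨a1, a2⟩)]
  · have hs : (uR * iZ Q).support ⊆ Ico lo T := fun j hj => by
      by_contra hc
      refine mem_support_iff.1 hj ?_
      rw [coeff_uR_mul_iZ, hQ, if_neg hc]
      rfl
    rw [N0, nw_eq_sum _ _ hs]
    refine le_trans ?_ (mul_le_mul_of_nonneg_left (geom_sum_Ico_le_of_lt_one (m := lo) (n := T)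
      (by positivity) ((div_lt_one hr).2 h1)) (by positivity))
    rw [mul_sum]
    refine sum_le_sum fun j hj => ?_
    rw [coeff_uR_mul_iZ, hQ, if_pos hj]
    have a1 : ‖⌊E / r ^ (j + σ)⌋‖ ≤ E / r ^ (j + σ) := by
      rw [Int.norm_eq_abs, abs_of_nonneg (by exact_mod_cast hf j)]
      exact Int.floor_le _
    refine (mul_le_mul_of_nonneg_left (add_le_add a1 a1) (pow_pos h0 j).le).trans (le_of_eq ?_)
    rw [div_pow, pow_add]
    field_simp
    ring

/-- Let `(κ₀, θ₀)` come from `exists_P0Const` for `r₀`; `κ = κ₀ + σ + 1`. Take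
`q₁ = u ∑_{s + κ - σ ≤ j < T} ⌊θ r ^ s / r ^ (j + σ)⌋₊ t ^ j` with `T` beyond all degrees: since
`|coeff| r ^ j ≤ θ r ^ s` (`coeff_le_N0`) and `r ≤ 1`, `q₁ t ^ σ' + n (inl z)` is positive for
`σ' ≤ σ`. Moreover `N0 r₀ q₁ ≤ 2 θ r₀ ^ s / (r ^ σ (1 - r₀ / r))` and
`N0 r₀ (n j) ≤ θ r₀ ^ s` (`nw_le_nw`). Apply `P0Const` with the degree `s'` of the budget to the hub
vector `n (inr h) - if h = i then q₁ else 0`; `θ` is chosen with
`θ (1 + 2 / (r ^ σ (1 - r₀ / r))) ≤ θ₀ r₀`. -/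
theorem exists_PConst {r₀ r : ℝ} (h0 : 0 < r₀) (h1 : r₀ < r) (h2 : r ≤ 1) {ar : RZ}
    (h : HubA r₀ ar) (σ : ℕ) : ∃ (κ : ℕ) (θ : ℝ), 0 < θ ∧ PConst r ar σ κ θ := by
  obtain ⟨κ₀, θ₀, hθ₀, hP⟩ := exists_P0Const h0 h
  have hr : 0 < r := h0.trans h1
  have hx0 : 0 < r₀ / r := by positivity
  have hx1 : r₀ / r < 1 := (div_lt_one hr).2 h1
  obtain ⟨G, hG⟩ : ∃ G, G = 2 / r ^ σ / (1 - r₀ / r) := ⟨_, rfl⟩
  have hG0 : 0 < G := by
    rw [hG]
    exact div_pos (by positivity) (by linarith)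
  obtain ⟨θ, hθe⟩ : ∃ θ, θ = θ₀ * r₀ / (1 + G) := ⟨_, rfl⟩
  have hθ : 0 < θ := by
    rw [hθe]
    positivity
  have hθ1 : θ * (1 + G) = θ₀ * r₀ := by
    rw [hθe, div_mul_cancel₀ _ (by positivity)]
  refine ⟨κ₀ + σ + 1, θ, hθ, fun V _ _ ρ H i S s hi hs hH hS hρ => ?_⟩
  obtain ⟨ps, n, s', m, hs', hm, hps, rfl, hn, hnS⟩ := hρ
  obtain ⟨T, hT⟩ : ∃ T, ∀ z j, T ≤ j → (n z).coeff j = 0 :=
    ⟨∑ z, (n z).natDegree + 1, fun z j hj => coeff_eq_zero_of_natDegree_lt (lt_of_le_of_lt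
      (single_le_sum (f := fun z => (n z).natDegree) (fun _ _ => Nat.zero_le _) (mem_univ z)) hj)⟩
  have hE : 0 ≤ θ * r ^ s := by positivity
  obtain ⟨q₁, c1, c2, c3, c4⟩ := qt8_q h0 h1 hE σ (s + κ₀ + 1) T
  have hxs : (r₀ / r) ^ s * r ^ s = r₀ ^ s := by
    rw [← mul_pow, div_mul_cancel₀ _ hr.ne']
  have c5 : N0 r₀ q₁ ≤ θ * G * r₀ ^ s := by
    refine c4.trans ?_
    have a1 : (r₀ / r) ^ (s + κ₀ + 1) ≤ (r₀ / r) ^ s :=
      pow_le_pow_of_le_one hx0.le hx1.le (by omega)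
    have a2 := mul_le_mul_of_nonneg_left a1 (mul_nonneg hE hG0.le)
    rw [← hxs]
    refine le_trans (le_of_eq ?_) (a2.trans (le_of_eq (by ring)))
    rw [hG]
    ring
  have c6 : ∀ j, N0 r₀ (n j) ≤ θ * r₀ ^ s := fun j => by
    have a1 : N0 r₀ (n j) ≤ nw (fun k => (r₀ / r) ^ s * r ^ k) (n j) := nw_le_nw _ fun k hk => by
      have a2 : s ≤ k := by
        by_contra hc
        exact hk (X_pow_dvd_iff.1 (hn j).1 k (by omega))
      have a3 : r₀ ^ k = (r₀ / r) ^ k * r ^ k := by rw [← mul_pow, div_mul_cancel₀ _ hr.ne']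
      rw [a3]
      exact mul_le_mul_of_nonneg_right (pow_le_pow_of_le_one hx0.le hx1.le a2) (pow_pos hr k).le
    rw [nw_smul_weight] at a1
    refine a1.trans ((mul_le_mul_of_nonneg_left (hn j).2 (pow_pos hx0 s).le).trans (le_of_eq ?_))
    rw [← hxs]
    ring
  have c7 : r₀ * r₀ ^ s ≤ r₀ ^ s' := by
    rw [← pow_succ']
    exact pow_le_pow_of_le_one h0.le (h1.le.trans h2) (by omega)
  obtain ⟨q₂, d1, d2⟩ := hP s' m (fun h => n (inr h) - if h = i then q₁ else 0) hm fun h => by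
    constructor
    · refine dvd_sub ((pow_dvd_pow X (by omega)).trans (hn _).1) ?_
      split_ifs
      · exact (pow_dvd_pow X (by omega)).trans c2
      · exact dvd_zero _
    · refine (N0_sub_le h0.le _ _).trans ?_
      have a1 : N0 r₀ (if h = i then q₁ else 0) ≤ θ * G * r₀ ^ s := by
        split_ifs
        · exact c5
        · rw [N0_zero]
          positivity
      have a2 := mul_le_mul_of_nonneg_left c7 hθ₀.le
      have a3 : θ * (1 + G) * r₀ ^ s = θ₀ * r₀ * r₀ ^ s := by rw [hθ1]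
      linarith [c6 (inr h)]
  refine ⟨q₁, q₂, (dvd_pow_self X (by omega)).trans c2, (dvd_pow_self X (by omega)).trans d1, ?_⟩
  rintro (z | h)
  · have e : ((ps + Pi.single (inr 0) m + n + q₁ • (H - Pi.single (inr i) 1) - q₂ • hav ar :
        J V → RZ) (inl z)) = ps (inl z) + (n (inl z) + q₁ * H (inl z)) := by
      simp [hav, arow, add_assoc]
    rw [e]
    refine (hps _).add ?_
    by_cases hz : n (inl z) = 0
    · rw [hz, zero_add]
      exact c1.mul (hH _)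
    obtain ⟨σ', hσ, hp⟩ := hS z (hnS z hz)
    have e2 : n (inl z) + q₁ * H (inl z) =
        (n (inl z) + X ^ σ' * q₁) + q₁ * (H (inl z) - X ^ σ') := by ring
    rw [e2]
    refine Pos.add (fun j => ?_) (c1.mul hp)
    rw [coeff_add]
    by_cases hj : (n (inl z)).coeff j = 0
    · rw [hj, zero_add]
      exact (Pos.X_pow σ').mul c1 j
    have a1 : s + (κ₀ + σ + 1) ≤ j := by
      by_contra hc
      exact hj (X_pow_dvd_iff.1 (hn _).1 j (by omega))
    have a2 : j < T := by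
      by_contra hc
      exact hj (hT _ j (by omega))
    obtain ⟨k, rfl⟩ : ∃ k, j = k + σ' := ⟨j - σ', by omega⟩
    rw [coeff_X_pow_mul, c3 k (by omega) (by omega)]
    have a3 := (coeff_le_N0 hr.le (n (inl z)) (k + σ')).trans (hn _).2
    have a4 : r ^ (k + σ) ≤ r ^ (k + σ') := pow_le_pow_of_le_one hr.le h2 (by omega)
    have a5 := (mul_le_mul_of_nonneg_right a4 (by positivity)).trans a3
    rw [mul_comm, ← le_div_iff₀ (pow_pos hr _), Int.norm_eq_abs, Int.norm_eq_abs] at a5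
    have a6 := neg_abs_le (((n (inl z)).coeff (k + σ')).re : ℝ)
    have a7 := neg_abs_le (((n (inl z)).coeff (k + σ')).im : ℝ)
    have a8 := abs_nonneg (((n (inl z)).coeff (k + σ')).re : ℝ)
    have a9 := abs_nonneg (((n (inl z)).coeff (k + σ')).im : ℝ)
    have b1 : -((n (inl z)).coeff (k + σ')).re ≤ ⌊θ * r ^ s / r ^ (k + σ)⌋ :=
      Int.le_floor.2 (by push_cast; linarith)
    have b2 : -((n (inl z)).coeff (k + σ')).im ≤ ⌊θ * r ^ s / r ^ (k + σ)⌋ :=
      Int.le_floor.2 (by push_cast; linarith)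
    constructor
    · change 0 ≤ _ + _
      linarith
    · change 0 ≤ _ + _
      linarith
  · have e : ((ps + Pi.single (inr 0) m + n + q₁ • (H - Pi.single (inr i) 1) - q₂ • hav ar :
        J V → RZ) (inr h)) = ps (inr h) + q₁ * H (inr h) + ((if h = 0 then m else 0) +
          (n (inr h) - if h = i then q₁ else 0) + q₂ * (ar - if h = 0 then 1 else 0)) := by
      simp only [hav, arow, Pi.add_apply, Pi.sub_apply, Pi.smul_apply, Pi.single_apply,
        smul_eq_mul, Sum.elim_inr, inr.injEq]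
      split_ifs <;> ring
    rw [e]
    exact ((hps _).add (c1.mul (hH _))).add (d2 h)

theorem Rz.mono {V : Type} [Fintype V] [DecidableEq V] {r : ℝ} (hr : 0 ≤ r) {s κ κ' : ℕ} {ε ε' : ℝ}
    {S S' : V → Prop} {ρ : J V → RZ} (h : Rz r s κ ε S ρ) (hκ : κ' ≤ κ) (hε : ε ≤ ε')
    (hS : ∀ z, S z → S' z) : Rz r s κ' ε' S' ρ := by
  obtain ⟨ps, n, s', m, h1, h2, h3, h4, h5, h6⟩ := h
  exact ⟨ps, n, s', m, h1, h2, h3, h4, fun j => ⟨(pow_dvd_pow X (by omega)).trans (h5 j).1,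
    (h5 j).2.trans (mul_le_mul_of_nonneg_right hε (pow_nonneg hr s))⟩, fun z hz => hS z (h6 z hz)⟩

end Pool.Agent.Lib.MP_71aad1_an.SS
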