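import Pool.Agent.Lib.MP_71aad1_an.QP6
import Pool.Agent.Lib.MP_71aad1_an.QT8
import Pool.Agent.Lib.MP_71aad1_an.QC1
import Pool.Agent.Lib.MP_71aad1_an.QDef4

set_option autoImplicit false

namespace Pool.Agent.Lib.MP_71aad1_an.SS

open Polynomial Matrix Finset Sum

/-! Positive forms of signed joint systems. -/

variable {V V' : Type} [Fintype V] [DecidableEq V] [Fintype V'] [DecidableEq V'] {ar : RZ}

theorem MA_rhoP (P : Matrix V V RZ) (ρ : Matrix V (J V) RZ) : MA (rhoP P ρ) = P * MA ρ := by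
  funext x
  exact sub_sub_cancel _ _

theorem rhoP_one (ρ : Matrix V (J V) RZ) : rhoP 1 ρ = ρ := by
  funext x
  change Pi.single (inl x) 1 - ((1 : Matrix V V RZ) * MA ρ) x = ρ x
  rw [Matrix.one_mul]
  exact sub_sub_cancel _ _

theorem qj1_c0 {p : RZ} (h : X ∣ p) : p.coeff 0 = 0 := X_dvd_iff.1 h

theorem qj1_c0_add {p q : RZ} (h : X ∣ q) : (p + q).coeff 0 = p.coeff 0 := by
  rw [coeff_add, qj1_c0 h, add_zero]

omit [Fintype V] in
theorem qj1_hav {H : Fin 3 → J V → RZ} (hH : HubR ar H) :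
    H 0 - Pi.single (inr 0) 1 = -hav ar := by
  rw [hH.ha, hav, neg_sub]

omit [Fintype V] in
theorem qj1_row (B : Matrix (J V) (J V) RZ) (a : J V) :
    (1 - B) a = Pi.single a 1 - B a := by
  funext b
  simp [one_apply, Pi.single_apply, eq_comm]

theorem qj1_single (M : Matrix (J V) (J V) RZ) (a : J V) (q : RZ) :
    Pi.single a q ᵥ* M = q • M a := by
  funext b
  simp [vecMul, dotProduct, Pi.single_apply]

/-- The rows of `MA ρ` in terms of the rows of `1 - B`. -/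
theorem qj1_T {ρ : Matrix V (J V) RZ} {H : Fin 3 → J V → RZ} {i : Fin 3}
    {B : Matrix (J V) (J V) RZ} (h : JSys ρ H i B) : ∃ T : Matrix V (J V) RZ,
      MA ρ = T * (1 - B) ∧ (∀ x z, T x (inl z) = (1 : Matrix V V RZ) x z) ∧
        ∀ x k, k ≠ i → k ≠ 0 → T x (inr k) = 0 := by
  choose q₁ q₂ _ _ hq using h.2.2
  refine ⟨fun x => Pi.single (inl x) 1 - Pi.single (inr i) (q₁ x) - Pi.single (inr 0) (q₂ x),
    ?_, fun x z => ?_, fun x k h1 h2 => ?_⟩
  · funext x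
    rw [mul_apply_eq_vecMul, sub_vecMul, sub_vecMul, qj1_single, qj1_single, qj1_single, qj1_row,
      qj1_row, qj1_row, hq x, h.2.1, h.2.1, MA]
    funext j
    simp only [Pi.sub_apply, Pi.add_apply, Pi.smul_apply, smul_eq_mul]
    ring
  · simp [one_apply, Pi.single_apply, eq_comm]
  · simp [h1, h2]

theorem qj1_extv (Q : RZ → Prop) (h0 : Q 0) (e : V ↪ V') {v : J V → RZ} (hv : ∀ j, Q (v j))
    (j : J V') : Q (extv e v j) := by
  rcases qr1_cases (Jm e) j with ⟨a, rfl⟩ | hj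
  · rw [extv, vecMul_embM_apply]
    exact hv a
  · rw [extv, vecMul_embM_of_not _ _ hj]
    exact h0

theorem qj1_rhoP (P : Matrix V V RZ) (ρ : Matrix V (J V) RZ) (x : V) :
    rhoP P ρ x = ρ x + ((P - 1) x ᵥ* ρ - Sum.elim ((P - 1) x) 0) := by
  have e1 : P * MA ρ = MA ρ + (P - 1) * MA ρ := by
    rw [Matrix.sub_mul, Matrix.one_mul, add_sub_cancel]
  have e2 : ∀ c : V → RZ, c ᵥ* MA ρ = Sum.elim c 0 - c ᵥ* ρ := by
    intro c
    funext j
    simp only [vecMul, dotProduct, MA, Pi.sub_apply, mul_sub, Finset.sum_sub_distrib]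
    congr 1
    rcases j with z | k
    · simp [Pi.single_apply]
    · simp
  change Pi.single (inl x) 1 - (P * MA ρ) x = _
  rw [e1]
  change Pi.single (inl x) 1 - (MA ρ x + ((P - 1) * MA ρ : Matrix V (J V) RZ) x) = _
  rw [mul_apply_eq_vecMul, e2, MA]
  abel


open Classical in
/-- Rank one on `F`, zero elsewhere. -/
noncomputable def rkF {V : Type} (F : V → Prop) : J V → ℕ :=
  Sum.elim (fun x => if F x then 1 else 0) fun _ => 0

theorem JSys.rkOk {ρ : Matrix V (J V) RZ} {H : Fin 3 → J V → RZ} {i : Fin 3}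
    {B : Matrix (J V) (J V) RZ} (h : JSys ρ H i B) (hH : HubR ar H) {F : V → Prop} (hF : Cst F ρ) :
    RkOk (rkF F) B := by
  rintro (x | k) j hj
  · obtain ⟨q₁, q₂, h1, h2, e⟩ := h.2.2 x
    rw [e] at hj
    simp only [Pi.add_apply, Pi.smul_apply, smul_eq_mul] at hj
    rw [qj1_c0_add (h2.mul_right _), qj1_c0_add (h1.mul_right _)] at hj
    obtain ⟨h3, z, rfl, h4⟩ := hF x j hj
    simp [rkF, h3, h4]
  · rw [h.2.1] at hj
    exact absurd (qj1_c0 (hH.td k j)) hj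

theorem TD.cst {ρ : Matrix V (J V) RZ} (h : TD ρ) (F : V → Prop) : Cst F ρ :=
  fun x j hj => absurd (qj1_c0 (h x j)) hj

/-- Choose `q₁`, `q₂` for each row with `PConst` (note `H 0 - e₀ = -hav ar`). -/
theorem JS_exists {r θ : ℝ} {σ κ : ℕ} (hP : PConst r ar σ κ θ) {ρ : Matrix V (J V) RZ}
    {H : Fin 3 → J V → RZ} (hH : HubR ar H) {i : Fin 3} (hi : i ≠ 0) {S : V → Prop}
    (hS : Cov σ S (H i)) (h : ∀ x, ∃ s, 1 ≤ s ∧ Rz r s κ θ S (ρ x)) : ∃ B, JSys ρ H i B := by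
  have key : ∀ x, ∃ q₁ q₂ : RZ, X ∣ q₁ ∧ X ∣ q₂ ∧
      ∀ j, Pos ((ρ x + q₁ • (H i - Pi.single (inr i) 1) - q₂ • hav ar : J V → RZ) j) := fun x => by
    obtain ⟨s, hs, hz⟩ := h x
    exact hP V (ρ x) (H i) i S s hi hs (hH.pos i) hS hz
  choose q₁ q₂ h1 h2 h3 using key
  refine ⟨Sum.elim (fun x => ρ x + q₁ x • (H i - Pi.single (inr i) 1) - q₂ x • hav ar) H,
    ?_, fun _ => rfl, fun x => ⟨q₁ x, q₂ x, h1 x, h2 x, ?_⟩⟩
  · rintro (x | k) j
    · exact h3 x j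
    · exact hH.pos k j
  · rw [qj1_hav hH, smul_neg, ← sub_eq_add_neg]
    rfl

/-- `sim_trm` with the ranks `rkF F` and the levels `0` on the hub, `1` outside `S`, `2` on `S`. -/
theorem JS_rows {ρ ρ' : Matrix V (J V) RZ} {H : Fin 3 → J V → RZ} (hH : HubR ar H) {i i' : Fin 3}
    {B B' : Matrix (J V) (J V) RZ} (h : JSys ρ H i B) (h' : JSys ρ' H i' B') {F : V → Prop}
    (hF : Cst F ρ) (hF' : Cst F ρ') (S : V → Prop) (C : Matrix V V RZ)
    (hC : ∀ x z, C x z ≠ 0 → S x ∧ ¬ S z) (c : V → RZ)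
    (e : MA ρ' = (1 + C) * MA ρ + vecMulVec c (hav ar)) : Sim B B' := by
  classical
  obtain ⟨T, hT, hT1, -⟩ := qj1_T h
  choose q₁ q₂ _ _ hq using h'.2.2
  have hrow : ∀ k, (1 - B) (inr k) = Pi.single (inr k) 1 - H k := fun k => by
    rw [qj1_row, h.2.1]
  obtain ⟨D, hD⟩ : ∃ D : Matrix V (J V) RZ, D = (1 + C) * T := ⟨_, rfl⟩
  obtain ⟨E, hE1, hE2⟩ : ∃ E : Matrix (J V) (J V) RZ,
      (∀ x, E (inl x) = D x + Pi.single (inr 0) (c x + q₂ x) + Pi.single (inr i') (q₁ x) -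
        Pi.single (inl x) 1) ∧ ∀ k, E (inr k) = 0 :=
    ⟨Sum.elim (fun x => D x + Pi.single (inr 0) (c x + q₂ x) + Pi.single (inr i') (q₁ x) -
      Pi.single (inl x) 1) fun _ => 0, fun _ => rfl, fun _ => rfl⟩
  refine sim_trm h.1 (h.rkOk hH hF) h'.1 (h'.rkOk hH hF')
    (Sum.elim (fun x => if S x then 2 else 1) fun _ => 0) E ?_ ?_
  · rintro (x | k) j hc
    · rcases j with z | k'
      · have e1 : D x (inl z) = (1 + C) x z := by
          simp [hD, mul_apply, hT1, one_apply]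
        have e2 : C x z ≠ 0 := by
          intro e3
          apply hc
          simp [hE1, e1, e3, one_apply, Pi.single_apply, eq_comm]
        simp [(hC x z e2).1, (hC x z e2).2]
      · simp only [Sum.elim_inl, Sum.elim_inr]
        split_ifs <;> omega
    · rw [hE2] at hc
      exact absurd rfl hc
  · funext a
    change B' a = B a - (E * (1 - B) : Matrix (J V) (J V) RZ) a
    rw [mul_apply_eq_vecMul]
    rcases a with x | k
    · have e1 : ρ' x = Pi.single (inl x) 1 - (D x ᵥ* (1 - B) + c x • hav ar) := by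
        rw [hT, ← Matrix.mul_assoc, ← hD] at e
        have e2 : Pi.single (inl x) 1 - ρ' x =
            (D * (1 - B) : Matrix V (J V) RZ) x + c x • hav ar := congrFun e x
        rw [mul_apply_eq_vecMul] at e2
        rw [← e2, sub_sub_cancel]
      have e4 : hav ar = Pi.single (inr 0) 1 - H 0 := by rw [hH.ha, hav]
      rw [hE1, sub_vecMul, add_vecMul, add_vecMul, qj1_single, qj1_single, qj1_single,
        hrow, hrow, qj1_row, hq x, e1, e4]
      funext j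
      simp only [Pi.sub_apply, Pi.add_apply, Pi.smul_apply, smul_eq_mul]
      ring
    · rw [hE2, zero_vecMul, sub_zero, h.2.1, h'.2.1]

/-- `sim_rm` at the state `inr k`: the rows of `MA ρ` are the rows of `1 - B` modulo the rows
`inr i` and `inr 0` of `1 - B`. -/
theorem JS_hen {ρ : Matrix V (J V) RZ} {H : Fin 3 → J V → RZ} (hH : HubR ar H) {i k : Fin 3}
    (hik : i ≠ k) (hk : k ≠ 0) {B : Matrix (J V) (J V) RZ} (h : JSys ρ H i B) {F : V → Prop}
    (hF : Cst F ρ) {v : J V → RZ} (hv : ∀ j, Pos (v j) ∧ X ∣ v j) (hs : Spn ar ρ (H i) i (v - H k)) :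
    HubR ar (Function.update H k v) ∧ JSys ρ (Function.update H k v) i (B.updateRow (inr k) v) ∧
      Sim B (B.updateRow (inr k) v) := by
  have hH' : HubR ar (Function.update H k v) := by
    refine ⟨fun a j => ?_, fun a j => ?_, by rw [Function.update_of_ne hk.symm, hH.ha]⟩
    · by_cases e : a = k
      · rw [e, Function.update_self]
        exact (hv j).1
      · rw [Function.update_of_ne e]
        exact hH.pos a j
    · by_cases e : a = k
      · rw [e, Function.update_self]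
        exact (hv j).2
      · rw [Function.update_of_ne e]
        exact hH.td a j
  have hJ : JSys ρ (Function.update H k v) i (B.updateRow (inr k) v) := by
    refine ⟨fun a j => ?_, fun a => ?_, fun x => ?_⟩
    · by_cases e : a = inr k
      · rw [e, updateRow_self]
        exact (hv j).1
      · rw [updateRow_ne e]
        exact h.1 a j
    · by_cases e : a = k
      · rw [e, updateRow_self, Function.update_self]
      · rw [updateRow_ne (by simpa using e), Function.update_of_ne e, h.2.1]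
    · rw [updateRow_ne (by simp), Function.update_of_ne hik, Function.update_of_ne hk.symm]
      exact h.2.2 x
  refine ⟨hH', hJ, ?_⟩
  obtain ⟨T, hT, -, hT2⟩ := qj1_T h
  obtain ⟨c, q₁, q₂, e⟩ := hs
  refine sim_rm ⟨h.1, _, h.rkOk hH hF⟩
    (c := Pi.single (inr i) q₁ - Pi.single (inr 0) q₂ - c ᵥ* T) ?_ ?_ ⟨hJ.1, _, hJ.rkOk hH' hF⟩
  · simp [hik.symm, hk, vecMul, dotProduct, hT2 _ k hik.symm hk]
  · have e4 : hav ar = Pi.single (inr 0) 1 - H 0 := by rw [hH.ha, hav]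
    rw [sub_vecMul, sub_vecMul, vecMul_vecMul, ← hT, qj1_single, qj1_single, qj1_row, qj1_row,
      h.2.1, h.2.1, h.2.1, sub_eq_iff_eq_add.1 e, e4]
    funext j
    simp only [Pi.sub_apply, Pi.add_apply, Pi.smul_apply, smul_eq_mul]
    ring

theorem Hub.hubR {sm s0 : ℕ} {B : Matrix (J V) (J V) RZ} (h : Hub ar sm s0 B) (e : V ↪ V') :
    HubR ar fun k => extv e (B (inr k)) :=
  ⟨fun k => qj1_extv Pos Pos.zero e (h.pt.1 (inr k)),
    fun k => qj1_extv (fun p => X ∣ p) (dvd_zero _) e (h.pt.2 (inr k)),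
    by rw [h.ha, extv_arow]⟩

theorem Hub.cov {sm s0 : ℕ} {B : Matrix (J V) (J V) RZ} (h : Hub ar sm s0 B) (e : V ↪ V')
    {k : Fin 3} (hk : k ≠ 0) : Cov sm (fun z => ∃ x, e x = z) (extv e (B (inr k))) := by
  rintro _ ⟨x, rfl⟩
  refine ⟨sm, le_rfl, ?_⟩
  rw [extv_inl]
  exact h.ent k hk x

/-- Keep the rows `e x` as they are (`q₁ = q₂ = 0`), use `PConst` for the other rows; the columns
outside the range of `e` vanish, so `sim_emb (Jm e)` applies. -/
theorem JS_start {r θ : ℝ} {κ sm s0 : ℕ} (hP : PConst r ar sm κ θ) (e : V ↪ V')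
    {B : Matrix (J V) (J V) RZ} (hB : Hub ar sm s0 B) {ρ : Matrix V' (J V') RZ}
    (h1 : ∀ x, ρ (e x) = extv e (B (inl x))) (h2 : ∀ i z, (∀ x, e x ≠ z) → ρ i (inl z) = 0)
    {F : V' → Prop} (hF : Cst F ρ) (h : ∀ i, ∃ s, 1 ≤ s ∧ Rz r s κ θ (fun z => ∃ x, e x = z) (ρ i)) :
    ∃ B', JSys ρ (fun k => extv e (B (inr k))) 2 B' ∧ Sim B B' := by
  have hH := hB.hubR e
  have key : ∀ i, ∃ q₁ q₂ : RZ, X ∣ q₁ ∧ X ∣ q₂ ∧
      (∀ j, Pos ((ρ i + q₁ • (extv e (B (inr 2)) - Pi.single (inr 2) 1) - q₂ • hav ar :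
        J V' → RZ) j)) ∧ ∀ x, e x = i → q₁ = 0 ∧ q₂ = 0 := fun i => by
    rcases qr1_cases e i with ⟨x, rfl⟩ | hi
    · refine ⟨0, 0, dvd_zero _, dvd_zero _, fun j => ?_, fun _ _ => ⟨rfl, rfl⟩⟩
      rw [zero_smul, zero_smul, add_zero, sub_zero, h1]
      exact qj1_extv Pos Pos.zero e (hB.pt.1 (inl x)) j
    · obtain ⟨s, hs, hz⟩ := h i
      obtain ⟨q₁, q₂, g1, g2, g3⟩ := hP V' (ρ i) _ 2 _ s (by decide) hs (hH.pos 2)
        (hB.cov e (by decide)) hz
      exact ⟨q₁, q₂, g1, g2, g3, fun x hx => absurd hx (hi x)⟩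
  choose q₁ q₂ g1 g2 g3 g4 using key
  have hJ : JSys ρ (fun k => extv e (B (inr k))) 2
      (Sum.elim (fun i => ρ i + q₁ i • (extv e (B (inr 2)) - Pi.single (inr 2) 1) - q₂ i • hav ar)
        fun k => extv e (B (inr k))) := by
    refine ⟨?_, fun _ => rfl, fun x => ⟨q₁ x, q₂ x, g1 x, g2 x, ?_⟩⟩
    · rintro (x | k) j
      · exact g3 x j
      · exact hH.pos k j
    · rw [qj1_hav hH, smul_neg, ← sub_eq_add_neg]
      rfl
  refine ⟨_, hJ, sim_emb (Jm e) ⟨hJ.1, _, hJ.rkOk hH hF⟩ ?_ ?_⟩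
  · rintro (x | k) b
    · rw [Jm_inl, Sum.elim_inl, (g4 _ x rfl).1, (g4 _ x rfl).2, zero_smul, zero_smul, add_zero,
        sub_zero, h1, extv, vecMul_embM_apply]
    · rw [Jm_inr, Sum.elim_inr, extv, vecMul_embM_apply]
  · rintro a (z | k) hy
    · have hz : ∀ x, e x ≠ z := fun x hx => hy (inl x) (by rw [Jm_inl, hx])
      rcases a with i | k
      · simp [h2 i z hz, extv_of_not e _ hz, hav, arow]
      · exact extv_of_not e _ hz
    · exact absurd rfl (hy (inr k))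

/-- `rhoP P ρ x = ρ x - (P - 1) x ᵥ* MA ρ`, and `c ᵥ* MA ρ = (c | 0) - c ᵥ* ρ`. -/
theorem rz_rhoP {r θ₁ ε K : ℝ} (hr : 0 ≤ r) (hK : 0 ≤ K) {sj : V → ℕ} {κ : ℕ} {P : Matrix V V RZ}
    (hP : InN r (fun x => r ^ sj x) (fun x => sj x + κ) θ₁ P) {ρ : Matrix V (J V) RZ}
    (hC : CB r (fun x => r ^ sj x) K ρ) (x : V) (h : Rz r (sj x) κ ε (fun _ => True) (ρ x)) :
    Rz r (sj x) κ (ε + (1 + K) * θ₁) (fun _ => True) (rhoP P ρ x) := by
  obtain ⟨ps, n, s', m, h1, h2, h3, h4, h5, -⟩ := h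
  obtain ⟨g1, g2⟩ := hP x
  refine ⟨ps, n + ((P - 1) x ᵥ* ρ - Sum.elim ((P - 1) x) 0), s', m, h1, h2, h3, ?_,
    fun j => ⟨?_, ?_⟩, fun _ _ => trivial⟩
  · rw [qj1_rhoP, h4]
    exact add_assoc _ _ _
  · refine (h5 j).1.add ((dvd_vecMul g1 ρ j).sub ?_)
    rcases j with z | k
    · exact g1 z
    · exact dvd_zero _
  · have a1 := N0_add_le hr (n j) (((P - 1) x ᵥ* ρ) j - Sum.elim ((P - 1) x) 0 j)
    have a2 := N0_sub_le hr (((P - 1) x ᵥ* ρ) j) (Sum.elim ((P - 1) x) (0 : Fin 3 → RZ) j)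
    have a3 := hC _ _ g2 j
    have a4 : N0 r (Sum.elim ((P - 1) x) (0 : Fin 3 → RZ) j) ≤ θ₁ * r ^ sj x := by
      rcases j with z | k
      · exact (N0_le_N1 hr _).trans (g2.2 z)
      · exact (N0_zero (r := r)).le.trans ((N1_nonneg hr _).trans (g2.2 x))
    have a5 := (h5 j).2
    change N0 r (n j + (((P - 1) x ᵥ* ρ) j - Sum.elim ((P - 1) x) 0 j)) ≤ _
    linarith

theorem cst_rhoP {r θ₁ : ℝ} {W : V → ℝ} {O : V → ℕ} (hO : ∀ x, 1 ≤ O x) {P : Matrix V V RZ}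
    (hP : InN r W O θ₁ P) {ρ : Matrix V (J V) RZ} {F : V → Prop} (hF : Cst F ρ) :
    Cst F (rhoP P ρ) := by
  intro x j hj
  have g1 : ∀ z, X ^ 1 ∣ (P - 1) x z := fun z => (pow_dvd_pow X (hO x)).trans ((hP x).1 z)
  have g2 : X ^ 1 ∣ ((P - 1) x ᵥ* ρ) j - Sum.elim ((P - 1) x) (0 : Fin 3 → RZ) j := by
    refine (dvd_vecMul g1 ρ j).sub ?_
    rcases j with z | k
    · exact g1 z
    · exact dvd_zero _
  rw [pow_one] at g2
  rw [qj1_rhoP, Pi.add_apply, Pi.sub_apply, qj1_c0_add g2] at hj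
  exact hF x j hj

end Pool.Agent.Lib.MP_71aad1_an.SS
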