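import Pool.Agent.Lib.MP_71aad1_an.QL1

set_option autoImplicit false

namespace Pool.Agent.Lib.MP_71aad1_an.SS

open Polynomial Matrix Finset Sum

/-! Elimination of short loops: decoupling the periodic states. -/

variable {O P : Type} [Fintype O] [DecidableEq O] [Fintype P] [DecidableEq P] {c : PC} {M e : ℕ}
  {a : P → ℕ × Bool} {par : P → O} {idx : P → ℕ} {ω : O ⊕ P → ℝ} {T : P → J (O ⊕ P) → RZ}
  {B : Matrix (J (O ⊕ P)) (J (O ⊕ P)) RZ}

theorem ql4_act {V : Type} [Fintype V] [DecidableEq V] (B : Matrix (J V) (J V) RZ) (q : V → RZ)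
    (j : J V) : (q ᵥ* act (1 - B)) j = Sum.elim q 0 j - ∑ z, q z * B (inl z) j := by
  simp only [vecMul, dotProduct, act, submatrix_apply, id, Matrix.sub_apply, mul_sub,
    sum_sub_distrib, one_apply]
  congr 1
  rcases j with z | k <;> simp

theorem ql4_elim {V : Type} [Fintype V] (N : Matrix (J V) (J V) RZ) (q : V → RZ) :
    Sum.elim q 0 ᵥ* N = q ᵥ* act N := by
  funext j
  simp [vecMul, dotProduct, act]

theorem ql4_expand (h : Inv c M e a par idx ω T B) (i : ℕ) {v : J (O ⊕ P) → RZ}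
    (hv : ∀ j, Pos (v j)) (hs : ∀ π, v (inl (inr π)) ≠ 0 → i < idx π) (n : ℕ) :
    ∃ (q : O ⊕ P → RZ) (A R : J (O ⊕ P) → RZ), (∀ z, Pos (q z)) ∧
      (∀ π, q (inr π) ≠ 0 → i < idx π) ∧ v - q ᵥ* act (1 - B) = A + R ∧ (∀ j, Pos (A j)) ∧
      (∀ j, Pos (R j)) ∧ (∀ z, X ^ M ∣ A (inl z)) ∧ (∀ z, X ^ n ∣ R (inl z)) ∧
      (∀ π, R (inl (inr π)) ≠ 0 → i < idx π) ∧ (1 ≤ n → ∀ z, Pos (q z - v (inl z))) ∧
      ∀ z, Pos (q z + R (inl z) - v (inl z)) := by
  induction n with
  | zero =>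
    refine ⟨0, 0, v, fun _ => Pos.zero, fun π h => absurd rfl h, by simp, fun _ => Pos.zero, hv,
      fun _ => dvd_zero _, fun _ => by simp, hs, fun h => absurd h (by omega), fun z => ?_⟩
    simpa using Pos.zero
  | succ n ih =>
    obtain ⟨q, A, R, h1, h2, h3, h4, h5, h6, h7, h8, -, h9⟩ := ih
    have hB := h.hub.pt
    have hR : ∀ j, Pos (Sum.elim (0 : O ⊕ P → RZ) (fun k => R (inr k)) j +
        ∑ π, R (inl (inr π)) * B (inl (inr π)) j) := fun j =>
      Pos.add (by rcases j with z | k; exacts [Pos.zero, h5 _])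
        (Pos.sum _ fun π _ => (h5 _).mul (hB.1 _ _))
    refine ⟨fun z => q z + R (inl z), fun j => A j + ∑ o, R (inl (inl o)) * B (inl (inl o)) j,
      fun j => Sum.elim (0 : O ⊕ P → RZ) (fun k => R (inr k)) j +
        ∑ π, R (inl (inr π)) * B (inl (inr π)) j,
      fun z => (h1 z).add (h5 _), fun π hπ => ?_, funext fun j => ?_,
      fun j => (h4 j).add (Pos.sum _ fun o _ => (h5 _).mul (hB.1 _ _)), hR,
      fun z => (h6 z).add (dvd_sum fun o _ => (h.ordD o z).mul_left _), fun z => ?_,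
      fun π hπ => ?_, fun _ => h9, fun z => ?_⟩
    · by_contra hc
      exact hπ (by
        beta_reduce
        rw [of_not_not (mt (h2 π) hc), of_not_not (mt (h8 π) hc), add_zero])
    · have h10 := congrFun h3 j
      simp only [Pi.sub_apply, Pi.add_apply, ql4_act, add_mul, sum_add_distrib,
        Fintype.sum_sum_type] at h10 ⊢
      rcases j with z | k
      · simp only [elim_inl, Pi.zero_apply] at h10 ⊢
        linear_combination h10
      · simp only [elim_inr, Pi.zero_apply] at h10 ⊢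
        linear_combination h10
    · beta_reduce
      rw [elim_inl, Pi.zero_apply, zero_add, pow_succ]
      exact dvd_sum fun π _ => mul_dvd_mul (h7 _) (hB.2 _ _)
    · beta_reduce at hπ
      rw [elim_inl, Pi.zero_apply, zero_add] at hπ
      obtain ⟨π', -, h10⟩ := exists_ne_zero_of_sum_ne_zero hπ
      have h11 := h8 π' (left_ne_zero_of_mul h10)
      by_cases h12 : π = π'
      · rwa [h12]
      · have h13 := right_ne_zero_of_mul h10
        rw [h.row, Pi.smul_apply, smul_eq_mul] at h13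
        exact h11.trans (h.ttri π' π h12 (right_ne_zero_of_mul h13))
    · have h10 := (h9 z).add (hR (inl z))
      rwa [sub_add_eq_add_sub] at h10

/-- Induction on `n`. Write the current vector as `A + R` and expand all active entries of `R`:
`R - R₁ ᵥ* act (1 - B) = (hub part of R) + R₁ ᵥ* act B` with `R₁` the active part of `R`. The
contribution of the ordinary states has order `M` in the active columns and goes to `A`; the
contribution of the periodic states has order `n + 1` and periodic support in `i < idx`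
(`row`, `ttri`). For the last claim carry the invariant `Pos (q z + R (inl z) - v (inl z))`. -/
theorem expand (h : Inv c M e a par idx ω T B) (i : ℕ) {v : J (O ⊕ P) → RZ} (hv : ∀ j, Pos (v j))
    (hs : ∀ π, v (inl (inr π)) ≠ 0 → i < idx π) (n : ℕ) :
    ∃ (q : O ⊕ P → RZ) (A R : J (O ⊕ P) → RZ), (∀ z, Pos (q z)) ∧
      (∀ π, q (inr π) ≠ 0 → i < idx π) ∧ v - q ᵥ* act (1 - B) = A + R ∧ (∀ j, Pos (A j)) ∧
      (∀ j, Pos (R j)) ∧ (∀ z, X ^ M ∣ A (inl z)) ∧ (∀ z, X ^ n ∣ R (inl z)) ∧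
      (∀ π, R (inl (inr π)) ≠ 0 → i < idx π) ∧ (1 ≤ n → ∀ z, Pos (q z - v (inl z))) := by
  obtain ⟨q, A, R, h1, h2, h3, h4, h5, h6, h7, h8, h9, -⟩ := ql4_expand h i hv hs n
  exact ⟨q, A, R, h1, h2, h3, h4, h5, h6, h7, h8, h9⟩

theorem ql4_single {ι : Type} [DecidableEq ι] (i j : ι) : Pos ((Pi.single i 1 : ι → RZ) j) := by
  rw [Pi.single_apply]
  split_ifs
  exacts [Pos.one, Pos.zero]

/-- `expand` for `v = T π - e_π`, `i = idx π`, `n = M + 1`. The hub entry is
`v (inr 0) + ∑ z, q z * B z (inr 0) ≥ q (inl (par π)) * bud ≥ bud`; `Inv.phi_exp`, `perS`, `perU`. -/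
theorem exists_V (hc : c.Ok) (h : Inv c M e a par idx ω T B) (π : P) :
    ∃ (q : O ⊕ P → RZ) (v : J (O ⊕ P) → RZ), (∀ π', q (inr π') ≠ 0 → idx π < idx π') ∧
      v = T π - Pi.single (inl (inr π)) 1 - q ᵥ* act (1 - B) ∧ (∀ j, Pos (v j)) ∧
      (∀ z, X ^ M ∣ v (inl z)) ∧ Pos (v (inr 0) - bud c.s) ∧
      ∀ y, phi c.ρ c.κ c.oh ω y v ≤ c.Ω + c.κ := by
  have hv : ∀ j, Pos ((T π - Pi.single (inl (inr π)) 1 : J (O ⊕ P) → RZ) j) := fun j => by
    by_cases hj : j = inl (inr π)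
    · rw [hj, Pi.sub_apply, Pi.single_eq_same, h.tself, sub_self]
      exact Pos.zero
    · rw [Pi.sub_apply, Pi.single_eq_of_ne hj, sub_zero]
      exact h.tpos π j
  obtain ⟨q, A, R, h1, h2, h3, h4, h5, h6, h7, -, h9⟩ := expand h (idx π) hv (fun π' h0 => by
    by_cases hj : π' = π
    · rw [hj, Pi.sub_apply, Pi.single_eq_same, h.tself, sub_self] at h0
      exact absurd rfl h0
    · rw [Pi.sub_apply, Pi.single_eq_of_ne (by simpa using hj), sub_zero] at h0
      exact h.ttri π π' hj h0) (M + 1)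
  refine ⟨q, _, h2, rfl, fun j => h3 ▸ (h4 j).add (h5 j),
    fun z => h3 ▸ (h6 z).add ((pow_dvd_pow X M.le_succ).trans (h7 z)), ?_, fun y => ?_⟩
  · have h10 := h9 (by omega) (inl (par π))
    rw [Pi.sub_apply, Pi.single_eq_of_ne (by simp), sub_zero] at h10
    have h11 := (((hv (inr 0)).add (Pos.sum (univ.erase (inl (par π))) fun z _ =>
      (h1 z).mul (h.hub.pt.1 (inl z) (inr 0)))).add
      (((h.tpar π).trans h10).mul (h.hub.pt.1 (inl (inl (par π))) (inr 0)))).add (h.ordB (par π))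
    convert h11 using 1
    rw [Pi.sub_apply, ql4_act, ← add_sum_erase _ _ (mem_univ (inl (par π))), elim_inr,
      Pi.zero_apply]
    ring
  · refine (h.phi_exp hc h1 _ y).trans ?_
    rw [phi_sub]
    have h10 := phi_nonneg (y := y) hc.ρ0.le hc.κ0.le hc.oh0.le h.om
      (ql4_single (inl (inr π) : J (O ⊕ P)))
    have h11 := le_of_mul_le_mul_left ((h.perS π y).trans (h.perU π)) (pow_pos hc.ρ0 _)
    linarith

/-- One `mv_trm` with the coefficients `mono (a π) • q π` in row `π`, level `0` on the hub and on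
the ordinary states, and `1 + (sup idx - idx π)` on `π`. -/
theorem decouple (hc : c.Ok) (h : Inv c M e a par idx ω T B) :
    ∃ (B' : Matrix (J (O ⊕ P)) (J (O ⊕ P)) RZ) (v : P → J (O ⊕ P) → RZ), Mv B B' ∧
      Hub c.ar c.sm c.s0 B' ∧ (∀ o, B' (inl (inl o)) = B (inl (inl o))) ∧
      ∀ π, B' (inl (inr π)) = mono (a π) • (Pi.single (inl (inr π)) 1 + v π) ∧ (∀ j, Pos (v π j)) ∧
        (∀ z, X ^ M ∣ v π (inl z)) ∧ Pos (v π (inr 0) - bud c.s) ∧
        ∀ y, phi c.ρ c.κ c.oh ω y (v π) ≤ c.Ω + c.κ := by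
  choose q v h1 h2 h3 h4 h5 h6 using exists_V hc h
  obtain ⟨cc, hcc⟩ : ∃ cc : Matrix (J (O ⊕ P)) (J (O ⊕ P)) RZ, cc =
      Sum.elim (Sum.elim (fun _ => (0 : J (O ⊕ P) → RZ)) fun π => mono (a π) • Sum.elim (q π) 0)
        fun _ => 0 := ⟨_, rfl⟩
  have r0 : ∀ i, (B - cc * (1 - B)) i = B i - cc i ᵥ* (1 - B) := fun i => rfl
  have r1 : ∀ o, (B - cc * (1 - B)) (inl (inl o)) = B (inl (inl o)) := fun o => by
    rw [r0, hcc, elim_inl, elim_inl, zero_vecMul, sub_zero]
  have r2 : ∀ k, (B - cc * (1 - B)) (inr k) = B (inr k) := fun k => by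
    rw [r0, hcc, elim_inr, zero_vecMul, sub_zero]
  have r3 : ∀ π, (B - cc * (1 - B)) (inl (inr π)) =
      mono (a π) • (Pi.single (inl (inr π)) 1 + v π) := fun π => by
    rw [r0, hcc, elim_inl, elim_inr, smul_vecMul, ql4_elim, h.row, h2]
    funext j
    simp only [Pi.sub_apply, Pi.add_apply, Pi.smul_apply, smul_eq_mul]
    ring
  have hpt : PT (B - cc * (1 - B)) := by
    refine ⟨?_, ?_⟩
    · rintro ((o | π) | k) j
      · exact r1 o ▸ h.hub.pt.1 _ j
      · rw [r3]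
        exact (Pos.mono _).mul ((ql4_single _ j).add (h3 π j))
      · exact r2 k ▸ h.hub.pt.1 _ j
    · rintro ((o | π) | k) j
      · exact r1 o ▸ h.hub.pt.2 _ j
      · rw [r3]
        exact ((dvd_pow_self X (Nat.one_le_iff_ne_zero.1 (h.deg π).1)).trans
          (PM.mono (a π)).dvd).mul_right _
      · exact r2 k ▸ h.hub.pt.2 _ j
  refine ⟨B - cc * (1 - B), v, mv_trm h.hub.pt hpt
    (Sum.elim (Sum.elim 0 fun π => 1 + (univ.sup idx - idx π)) 0) cc ?_ rfl,
    ⟨hpt, (r2 0).trans h.hub.ha, fun k hk z => r2 k ▸ h.hub.ent k hk z, r2 1 ▸ h.hub.bud1⟩, r1,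
    fun π => ⟨r3 π, h3 π, h4 π, h5 π, h6 π⟩⟩
  rw [hcc]
  rintro ((o | π) | k) j hj
  · exact absurd rfl hj
  · rcases j with (o | π') | k
    · exact ⟨by simp, by simp, Or.inr ⟨_, rfl⟩⟩
    · have h7 := h1 π π' (right_ne_zero_of_mul hj)
      have h8 : idx π' ≤ univ.sup idx := le_sup (mem_univ π')
      refine ⟨?_, by simp, Or.inr ⟨_, rfl⟩⟩
      simp only [elim_inl, elim_inr]
      omega
    · exact absurd (mul_zero _) hj
  · exact absurd rfl hj

end Pool.Agent.Lib.MP_71aad1_an.SS
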