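import Pool.Agent.Lib.MP_71aad1_an.QL3
import Pool.Agent.Lib.MP_71aad1_an.QL4
import Pool.Agent.Lib.MP_71aad1_an.QA3

set_option autoImplicit false

namespace Pool.Agent.Lib.MP_71aad1_an.SS

open Polynomial Matrix Finset Sum

/-! The normal form of one side. -/

section
variable {O P P' : Type} [Fintype O] [DecidableEq O] [Fintype P] [DecidableEq P] [Fintype P']
  [DecidableEq P'] {r θ K Ω : ℝ} {M s sm s0 : ℕ} {ar : RZ}

theorem wt_pos (hr : 0 < r) (s : ℕ) (a : P → ℕ × Bool) (x : O ⊕ P) : 0 < wt r s a x := pow_pos hr _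
theorem wt_le_one (hr : 0 ≤ r) (hr' : r ≤ 1) (s : ℕ) (a : P → ℕ × Bool) (x : O ⊕ P) :
    wt r s a x ≤ 1 := pow_le_one₀ hr hr'

theorem Core.mono (hr : 0 ≤ r) {a : P → ℕ × Bool} {B : Matrix (J (O ⊕ P)) (J (O ⊕ P)) RZ}
    (h : Core r M s θ K Ω a B) {θ' K' Ω' : ℝ} (hθ : θ ≤ θ') (hK : K ≤ K') (hΩ : Ω ≤ Ω') :
    Core r M s θ' K' Ω' a B := by
  have hw : ∀ x : O ⊕ P, 0 ≤ wt r s a x := fun x => pow_nonneg hr _
  refine ⟨h.ord, fun x => ?_, fun x k => ?_, h.deg, h.sum.trans hΩ⟩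
  · have h1 := mul_le_mul_of_nonneg_right hθ (hw x)
    exact ⟨(h.small x).1.trans h1, fun z => ((h.small x).2 z).trans h1⟩
  · exact (h.hubn x k).trans (mul_le_mul_of_nonneg_right hK (hw x))

theorem Side.mono (hr : 0 ≤ r) {a : P → ℕ × Bool} {B : Matrix (J (O ⊕ P)) (J (O ⊕ P)) RZ}
    (h : Side r M s θ K Ω ar sm s0 a B) {θ' K' Ω' : ℝ} (hθ : θ ≤ θ') (hK : K ≤ K') (hΩ : Ω ≤ Ω') :
    Side r M s θ' K' Ω' ar sm s0 a B :=
  ⟨h.hub, h.core.mono hr hθ hK hΩ, h.budO, h.budP, h.ordP⟩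

/-- `mv_equiv` along `Equiv.sumCongr (Equiv.refl O) σ.symm`; `B' = B.submatrix f f` with
`f = Sum.map (Sum.map id σ) id`. -/
theorem Side.reindex {a : P → ℕ × Bool} {a' : P' → ℕ × Bool}
    {B : Matrix (J (O ⊕ P')) (J (O ⊕ P')) RZ} (h : Side r M s θ K Ω ar sm s0 a' B) (σ : P ≃ P')
    (hσ : ∀ π, a' (σ π) = a π) :
    ∃ B' : Matrix (J (O ⊕ P)) (J (O ⊕ P)) RZ, Mv B B' ∧ Side r M s θ K Ω ar sm s0 a B' := by
  let e : O ⊕ P ≃ O ⊕ P' := Equiv.sumCongr (Equiv.refl O) σ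
  let f : J (O ⊕ P) → J (O ⊕ P') := Sum.map e id
  have hdg : ∀ x : O ⊕ P, dg a' (e x) = dg a x := by
    rintro (o | π)
    · rfl
    · exact congrArg Prod.fst (hσ π)
  have hlp : ∀ x : O ⊕ P, lp a' (e x) = lp a x := by
    rintro (o | π)
    · rfl
    · exact congrArg SS.mono (hσ π)
  have hwt : ∀ x : O ⊕ P, wt r s a' (e x) = wt r s a x := fun x => by
    unfold wt
    rw [hdg]
  have hsml : ∀ x z : O ⊕ P, sml a (B.submatrix f f) x z = sml a' B (e x) (e z) := by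
    intro x z
    unfold sml
    rw [Matrix.sub_apply, Matrix.sub_apply, diagonal_apply, diagonal_apply, hlp]
    simp only [e.injective.eq_iff]
    rfl
  refine ⟨B.submatrix f f, mv_equiv e.symm h.hub.pt ?_, ⟨⟨fun i j => h.hub.pt.1 _ _,
    fun i j => h.hub.pt.2 _ _⟩, ?_, fun k hk z => h.hub.ent k hk (e z), h.hub.bud1⟩,
    ⟨fun x z => ?_, fun x => ⟨?_, fun z => ?_⟩, fun x k => ?_, fun π => ?_, ?_⟩,
    h.budO, fun π => ?_, fun π k => ?_⟩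
  · have hf : ∀ i, f (Jm e.symm.toEmbedding i) = i := by
      rintro (x | k)
      · exact congrArg inl (e.apply_symm_apply x)
      · rfl
    intro i j
    rw [submatrix_apply, hf, hf]
  · funext j
    have h1 := congrFun h.hub.ha (f j)
    rcases j with x | k
    · exact h1
    · exact h1
  · rw [hsml, ← hdg]
    exact h.core.ord _ _
  · have h1 := (h.core.small (e x)).1
    rw [hwt] at h1
    refine le_trans (le_of_eq ?_) h1
    unfold Sw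
    exact Fintype.sum_equiv e _ _ fun z => by rw [hsml, hwt]
  · have h1 := (h.core.small (e x)).2 (e z)
    rw [hwt] at h1
    rw [hsml]
    exact h1
  · have h1 := h.core.hubn (e x) k
    rw [hwt] at h1
    exact h1
  · rw [← hσ]
    exact h.core.deg _
  · exact le_trans (le_of_eq (Fintype.sum_equiv e _ _ fun z => (hwt z).symm)) h.core.sum
  · rw [← hσ]
    exact h.budP (σ π)
  · rw [← hσ]
    exact h.ordP (σ π) k

theorem ql5_row {V : Type} [Fintype V] [DecidableEq V] {ρ κ oh D θ' : ℝ} (hr : 0 < r) (hρ : 0 < ρ)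
    (hκ : 0 < κ) (hoh : 0 ≤ oh) {ω w : V → ℝ} (hω : ∀ z, 0 ≤ ω z) (hw0 : ∀ z, 0 ≤ w z)
    (hw : ∀ z, w z * κ ≤ ω z) {d p : ℕ}
    (hθ' : ∀ j, d + 1 ≤ j → ((d : ℝ) + 1 + 1) * (((j : ℝ) + 1) * (r / ρ) ^ j) ≤ θ')
    {n : J V → RZ} (hn : ∀ j, Pos (n j)) (hd : ∀ z, X ^ (d + 1) ∣ n (inl z))
    (hD : ∀ y, phi ρ κ oh ω y n ≤ D) (x : V) {m : RZ} (hm : N1 r m ≤ ((d : ℝ) + 1 + 1) * r ^ p) :
    RowB r w (fun z => m * n (inl z)) (θ' * (D / κ) * r ^ p) := by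
  have hd2 : (0 : ℝ) < (d : ℝ) + 1 + 1 := by positivity
  have hθ0 : 0 ≤ θ' := le_trans (by positivity) (hθ' (d + 1) le_rfl)
  have hrp : 0 ≤ θ' * r ^ p := by positivity
  have h1 : ∀ z, N1 r (m * n (inl z)) ≤ θ' * r ^ p * ev ρ (n (inl z)) := by
    intro z
    have h2 := N1_le_ev (θ := θ' / ((d : ℝ) + 1 + 1)) hr.le hρ (hn (inl z)) (hd z) fun j hj => by
      rw [le_div_iff₀ hd2, mul_comm]
      exact hθ' j hj
    calc N1 r (m * n (inl z)) ≤ N1 r m * N1 r (n (inl z)) := N1_mul_le hr.le _ _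
      _ ≤ (((d : ℝ) + 1 + 1) * r ^ p) * (θ' / ((d : ℝ) + 1 + 1) * ev ρ (n (inl z))) :=
        mul_le_mul hm h2 (N1_nonneg hr.le _) (by positivity)
      _ = _ := by field_simp
  constructor
  · have h2 := (act_le_phi (y := x) hρ.le hκ.le hoh hω hn).1.trans (hD x)
    calc Sw r w (fun z => m * n (inl z)) ≤ ∑ z, θ' * r ^ p / κ * (ev ρ (n (inl z)) * ω z) := by
          refine sum_le_sum fun z _ => ?_
          have h3 : w z ≤ ω z / κ := (le_div_iff₀ hκ).2 (hw z)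
          calc N1 r (m * n (inl z)) * w z ≤ (θ' * r ^ p * ev ρ (n (inl z))) * (ω z / κ) :=
                mul_le_mul (h1 z) h3 (hw0 z) (mul_nonneg hrp (ev_nonneg hρ.le (hn _)))
            _ = _ := by ring
      _ = θ' * r ^ p / κ * ∑ z, ev ρ (n (inl z)) * ω z := by rw [mul_sum]
      _ ≤ θ' * r ^ p / κ * D := mul_le_mul_of_nonneg_left h2 (by positivity)
      _ = _ := by ring
  · intro z
    have h2 := (act_le_phi (y := z) hρ.le hκ.le hoh hω hn).2.trans (hD z)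
    calc N1 r (m * n (inl z)) ≤ θ' * r ^ p * ev ρ (n (inl z)) := h1 z
      _ ≤ θ' * r ^ p * (D / κ) := mul_le_mul_of_nonneg_left ((le_div_iff₀ hκ).2 h2) hrp
      _ = _ := by ring

theorem ql5_hub {V : Type} [Fintype V] [DecidableEq V] {ρ κ oh D : ℝ} (hr : 0 < r) (hρ : r ≤ ρ)
    (hκ : 0 ≤ κ) (hoh : 0 < oh) {ω : V → ℝ} (hω : ∀ z, 0 ≤ ω z) {n : J V → RZ}
    (hn : ∀ j, Pos (n j)) {y : V} (hD : phi ρ κ oh ω y n ≤ D) (k : Fin 3) :
    N0 r (n (inr k)) ≤ D / oh := by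
  rw [N0_eq_ev (hn _), le_div_iff₀ hoh, mul_comm]
  exact le_trans (mul_le_mul_of_nonneg_left (ev_mono_rad hr.le hρ (hn _)) hoh.le)
    ((hub_le_phi (hr.le.trans hρ) hκ hoh.le hω hn k).trans hD)

/-- From `decouple`. With `w = wt r c.s a` one has `w z ≤ r ^ s ω z / κ` (`perL`, `kappa_le`).
Row `o`: `N1 r (n z) ≤ θ' ev ρ (n z)` (`N1_le_ev`), `ev ρ (n z) κ ≤ Ω`, `∑ ev ρ (n z) ω z ≤ Ω`
(`act_le_phi`, `ordS`). Row `π` of degree `p < M`: `N1 r (mono * v z) ≤ (M + 1) r ^ p N1 r (v z)`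
(`N1_mul_le`, `UM.N1`, `N1_X_pow`). Hub entries: `N0_eq_ev`, `ev_mono_rad`, `hub_le_phi`. -/
theorem side_of_inv {c : PC} (hc : c.Ok) (hr : 0 < r) (hρ : r ≤ c.ρ) {a : P → ℕ × Bool}
    {par : P → O} {idx : P → ℕ} {ω : O ⊕ P → ℝ} {T : P → J (O ⊕ P) → RZ}
    {B : Matrix (J (O ⊕ P)) (J (O ⊕ P)) RZ} {d : ℕ} (h : Inv c (d + 1) d a par idx ω T B) {θ' : ℝ}
    (hθ' : ∀ j, d + 1 ≤ j → ((d : ℝ) + 1 + 1) * (((j : ℝ) + 1) * (r / c.ρ) ^ j) ≤ θ')
    (hθ : θ' * ((c.Ω + c.κ) / c.κ) ≤ θ * r ^ c.s) (hK : (c.Ω + c.κ) / c.oh ≤ K * r ^ c.s)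
    (hΩ : c.Ω / c.κ ≤ Ω) :
    ∃ B' : Matrix (J (O ⊕ P)) (J (O ⊕ P)) RZ, Mv B B' ∧
      Side r (d + 1) c.s θ K Ω c.ar c.sm c.s0 a B' := by
  obtain ⟨B', v, hmv, hhub, hO, hP⟩ := decouple hc h
  have hr1 : r ≤ 1 := hρ.trans hc.ρ1
  have hκ := hc.κ0
  have hw0 : ∀ z : O ⊕ P, 0 ≤ wt r c.s a z := fun z => (wt_pos hr _ _ z).le
  have hw : ∀ z : O ⊕ P, wt r c.s a z * c.κ ≤ ω z := by
    rintro (o | π)
    · have h1 := h.kappa_le hc o
      have h2 := h.om (inl o)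
      have h3 := hc.ϑ1
      have h4 := mul_le_mul_of_nonneg_right (wt_le_one hr.le hr1 c.s a (inl o : O ⊕ P)) hκ.le
      nlinarith
    · refine le_trans (mul_le_mul_of_nonneg_right ?_ hκ.le) (h.perL π)
      calc wt r c.s a (inr π : O ⊕ P) = r ^ (a π).1 * r ^ c.s := pow_add _ _ _
        _ ≤ r ^ (a π).1 := mul_le_of_le_one_right (by positivity) (pow_le_one₀ hr.le hr1)
        _ ≤ c.ρ ^ (a π).1 := pow_le_pow_left₀ hr.le hρ _
  have hDO : ∀ o y, phi c.ρ c.κ c.oh ω y (B (inl (inl o))) ≤ c.Ω + c.κ := by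
    intro o y
    have h1 := h.phi_row hc (inl o) y
    have h2 : ω (inl o) ≤ ∑ z, ω z := single_le_sum (fun z _ => h.om z) (mem_univ _)
    have h3 := h.sum
    linarith
  have hsO : ∀ o z, sml a B' (inl o) z = 1 * B (inl (inl o)) (inl z) := by
    intro o z
    unfold sml
    rw [Matrix.sub_apply, diagonal_apply, one_mul, ← hO]
    simp [lp, toBlocks₁₁]
  have hsP : ∀ π z, sml a B' (inr π) z = mono (a π) * v π (inl z) := by
    intro π z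
    unfold sml
    have h1 : B'.toBlocks₁₁ (inr π) z = B' (inl (inr π)) (inl z) := rfl
    rw [Matrix.sub_apply, diagonal_apply, h1, (hP π).1, Pi.smul_apply, Pi.add_apply, smul_eq_mul,
      Pi.single_apply]
    by_cases hz : inr π = z
    · subst hz
      rw [if_pos rfl, if_pos rfl]
      simp only [lp, Sum.elim_inr]
      ring
    · rw [if_neg hz, if_neg fun h' => hz (inl_injective h').symm]
      ring
  have hhP : ∀ π k, B' (inl (inr π)) (inr k) = mono (a π) * v π (inr k) := by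
    intro π k
    rw [(hP π).1, Pi.smul_apply, Pi.add_apply, smul_eq_mul, Pi.single_eq_of_ne (by simp), zero_add]
  have hθp : ∀ p : ℕ, θ' * ((c.Ω + c.κ) / c.κ) * r ^ p ≤ θ * r ^ (p + c.s) := fun p => by
    have h1 := mul_le_mul_of_nonneg_right hθ (pow_pos hr p).le
    rw [pow_add]
    linarith
  refine ⟨B', hmv, hhub, ⟨?_, ?_, ?_, fun π => ⟨(h.deg π).1, Nat.lt_succ_of_le (h.deg π).2⟩, ?_⟩,
    fun o => ?_, fun π => ?_, fun π k => ?_⟩
  · rintro (o | π) z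
    · rw [hsO, one_mul]
      simpa [dg] using h.ordD o z
    · rw [hsP]
      change X ^ ((a π).1 + (d + 1)) ∣ _
      rw [pow_add]
      exact mul_dvd_mul (PM.mono (a π)).dvd ((hP π).2.2.1 z)
  · rintro (o | π)
    · have h1 := ql5_row (p := 0) (m := 1) hr hc.ρ0 hκ hc.oh0.le h.om hw0 hw hθ'
        (fun j => h.hub.pt.1 (inl (inl o)) j) (h.ordD o) (hDO o) (inl o) (by
          rw [N1_one, pow_zero, mul_one]
          linarith [Nat.cast_nonneg (α := ℝ) d])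
      rw [funext (hsO o)]
      exact ⟨h1.1.trans (hθp 0), fun z => (h1.2 z).trans (hθp 0)⟩
    · have h1 := ql5_row (p := (a π).1) (m := mono (a π)) hr hc.ρ0 hκ hc.oh0.le h.om hw0 hw hθ'
        (hP π).2.1 (hP π).2.2.1 (hP π).2.2.2.2 (inr π) (by
          rw [(PM.mono (a π)).um.N1, N1_X_pow]
          have h2 : ((a π).1 : ℝ) ≤ d := by exact_mod_cast (h.deg π).2
          exact mul_le_mul_of_nonneg_right (by linarith) (pow_pos hr _).le)
      rw [funext (hsP π)]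
      exact ⟨h1.1.trans (hθp _), fun z => (h1.2 z).trans (hθp _)⟩
  · rintro (o | π) k
    · rw [hO]
      refine (ql5_hub hr hρ hκ.le hc.oh0 h.om (fun j => h.hub.pt.1 (inl (inl o)) j)
        (hDO o (inl o)) k).trans (hK.trans (le_of_eq ?_))
      simp [wt, dg]
    · rw [hhP, (PM.mono (a π)).um.N0_mul]
      have h1 := (ql5_hub hr hρ hκ.le hc.oh0 h.om (hP π).2.1 ((hP π).2.2.2.2 (inr π)) k).trans hK
      calc r ^ (a π).1 * N0 r (v π (inr k)) ≤ r ^ (a π).1 * (K * r ^ c.s) :=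
            mul_le_mul_of_nonneg_left h1 (pow_pos hr _).le
        _ = K * r ^ ((a π).1 + c.s) := by ring
  · refine le_trans ?_ hΩ
    rw [le_div_iff₀ hκ, sum_mul]
    exact (sum_le_sum fun z _ => hw z).trans h.sum
  · rw [hO]
    exact h.ordB o
  · rw [hhP, ← mul_sub]
    exact (Pos.mono _).mul (hP π).2.2.2.1
  · rw [hhP]
    exact (PM.mono (a π)).dvd.mul_right _

end

/-- `inv_init`, `inv_all`, `exists_theta`, `side_of_inv`. -/
theorem push {V : Type} [Fintype V] [DecidableEq V] {ar : RZ} {sm s0 s : ℕ}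
    {B : Matrix (J V) (J V) RZ} (hB : Hub ar sm s0 B) {r ρ : ℝ} (hr : 0 < r) (h0 : r < ρ)
    (h1 : ρ ≤ 1) {ω : V → ℝ} (hω : Sup ρ ω B.toBlocks₁₁) (hb : ∀ x, Pos (B (inl x) (inr 0) - bud s)) :
    ∃ K Ω : ℝ, 1 ≤ K ∧ 1 ≤ Ω ∧ ∀ θ : ℝ, 0 < θ → ∃ M₀ : ℕ, ∀ M, M₀ ≤ M →
      ∃ (P : Type) (_ : Fintype P) (_ : DecidableEq P) (a : P → ℕ × Bool)
        (B' : Matrix (J (V ⊕ P)) (J (V ⊕ P)) RZ), Mv B B' ∧ Side r M s θ K Ω ar sm s0 a B' := by
  have hρ : 0 < ρ := hr.trans h0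
  obtain ⟨c, hc, rfl, rfl, rfl, rfl, rfl, hinv⟩ := inv_init hB hρ h1 hω hb
  have hΩ : 0 ≤ c.Ω := by
    obtain ⟨P, _, _, a, par, idx, ω', T, B', -, h⟩ := hinv
    exact (sum_nonneg fun z _ => h.om z).trans h.sum
  have hκ := hc.κ0
  have hrs : 0 < r ^ c.s := pow_pos hr _
  refine ⟨max 1 ((c.Ω + c.κ) / c.oh / r ^ c.s), max 1 (c.Ω / c.κ), le_max_left _ _,
    le_max_left _ _, fun θ hθ => ?_⟩
  have hD : 0 < (c.Ω + c.κ) / c.κ := by positivity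
  obtain ⟨M₀, hM₀⟩ := exists_theta (q := r / c.ρ) (θ := θ * r ^ c.s / ((c.Ω + c.κ) / c.κ))
    (by positivity) ((div_lt_one hρ).2 h0) (by positivity)
  refine ⟨M₀ + 1, fun M hM => ?_⟩
  obtain ⟨d, rfl⟩ : ∃ d, M = d + 1 := ⟨M - 1, by omega⟩
  obtain ⟨P, _, _, a, par, idx, ω', T, B₁, hmv, h⟩ := inv_all hc hinv d
  obtain ⟨B', hmv', hS⟩ := side_of_inv (θ := θ) (K := max 1 ((c.Ω + c.κ) / c.oh / r ^ c.s))
    (Ω := max 1 (c.Ω / c.κ)) hc hr h0.le h (θ' := θ * r ^ c.s / ((c.Ω + c.κ) / c.κ))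
    (fun j hj => by
      have h2 := hM₀ (d + 1) (by omega) j hj
      rwa [Nat.cast_succ] at h2)
    (le_of_eq (div_mul_cancel₀ _ hD.ne')) ((div_le_iff₀ hrs).1 (le_max_right _ _))
    (le_max_right _ _)
  exact ⟨P, inferInstance, inferInstance, a, B', hmv.trans hmv' h.hub.ha0, hS⟩

end Pool.Agent.Lib.MP_71aad1_an.SS
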