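import Pool.Agent.Lib.MP_71aad1_an.QR6
import Pool.Agent.Lib.MP_71aad1_an.QL5
import Pool.Agent.Lib.MP_71aad1_an.QT8

set_option autoImplicit false
set_option linter.unusedSectionVars false

namespace Pool.Agent.Lib.MP_71aad1_an.SS

open Polynomial Matrix Finset Sum

/-! The signed rows at the two ends of the path. -/

section
variable {V V' : Type} [Fintype V] [DecidableEq V] [Fintype V'] [DecidableEq V']

theorem qj2_extv_cases (e : V ↪ V') (v : J V → RZ) {Q : RZ → Prop} (h0 : Q 0)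
    (h : ∀ j, Q (v j)) (j : J V') : Q (extv e v j) := by
  rcases j with y | k
  · rcases qr1_cases e y with ⟨x, rfl⟩ | hy
    · rw [extv_inl]; exact h _
    · rw [extv_of_not e v hy]; exact h0
  · rw [extv_inr]; exact h _

theorem qj2_one_sub (B : Matrix (J V) (J V) RZ) (i : J V) : (1 - B) i = Pi.single i 1 - B i := by
  funext j
  rw [Matrix.sub_apply, Pi.sub_apply, one_apply, Pi.single_apply]
  simp only [eq_comm]

theorem qj2_emb_mul {U : Type} (A : Matrix (Option V) U RZ) (i : V) :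
    (embM RZ (Function.Embedding.some : V ↪ Option V) * A : Matrix V U RZ) i = A (some i) := by
  funext j
  rw [mul_apply, Finset.sum_eq_single (some i)]
  · simp [embM]
  · intro b _ hb
    simp [embM, Ne.symm hb]
  · simp

theorem Rz.extv {r ε : ℝ} (hr : 0 ≤ r) {s κ : ℕ} {v : J V → RZ} (h : Rz r s κ ε (fun _ => True) v)
    (e : V ↪ V') : Rz r s κ ε (fun z => ∃ x, e x = z) (extv e v) := by
  obtain ⟨ps, n, s', m, h1, h2, h3, h4, h5, -⟩ := h
  have h0 : 0 ≤ ε * r ^ s := (N0_nonneg hr _).trans (h5 (inr 0)).2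
  refine ⟨SS.extv e ps, SS.extv e n, s', m, h1, h2, qj2_extv_cases e ps Pos.zero h3, ?_,
    qj2_extv_cases e n (Q := fun p => X ^ (s + κ) ∣ p ∧ N0 r p ≤ ε * r ^ s)
      ⟨dvd_zero _, N0_zero.le.trans h0⟩ h5, fun z hz => ?_⟩
  · rw [h4, extv_add, extv_add, extv_single]
    rfl
  · by_contra hne
    exact hz (extv_of_not e n fun x hx => hne ⟨x, hx⟩)

theorem Rz.single {r ε : ℝ} (hr : 0 ≤ r) (hε : 0 ≤ ε) (s κ : ℕ) (S : V → Prop) :
    Rz r s κ ε S (Pi.single (inr 0) (X ^ s)) :=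
  ⟨0, 0, s, X ^ s, Or.inl rfl, Or.inl rfl, fun _ => Pos.zero, by simp,
    fun _ => ⟨dvd_zero _, N0_zero.le.trans (by positivity)⟩, fun _ h => absurd rfl h⟩

/-- Multiply by the inverse matrix. -/
theorem spn_conv {ar : RZ} {ρ₁ ρ₂ : Matrix V (J V) RZ} {N N' : Matrix V V RZ} (hN : N' * N = 1)
    {c : V → RZ} (e : N * MA ρ₁ = MA ρ₂ + vecMulVec c (hav ar)) (q : V → RZ) :
    ∃ (q' : V → RZ) (p : RZ), q ᵥ* MA ρ₁ = q' ᵥ* MA ρ₂ + p • hav ar := by
  refine ⟨q ᵥ* N', (q ᵥ* N') ⬝ᵥ c, ?_⟩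
  rw [← vecMul_vecMulVec, ← vecMul_add, ← e, vecMul_vecMul, ← Matrix.mul_assoc, hN,
    Matrix.one_mul]

end

section
variable {VX VY W : Type} [Fintype VX] [DecidableEq VX] [Fintype VY] [DecidableEq VY]
  [Fintype W] [DecidableEq W] {ar : RZ} {BX : Matrix (J VX) (J VX) RZ} {BY : Matrix (J VY) (J VY) RZ}
  {g : Matrix VY (J VX) RZ} {f : Matrix VX (J VY) RZ} {N : El (VX ⊕ VY ⊕ W) RZ}

/-- The correction of the columns of the extra states. -/
noncomputable def qj2_Psi (sj : Option (VX ⊕ VY ⊕ W) → ℕ) :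
    Matrix (J (VX ⊕ VY ⊕ W)) (J (Option (VX ⊕ VY ⊕ W))) RZ :=
  Sum.elim (Sum.elim 0 (Sum.elim 0 fun w => Pi.single (inr 0) (X ^ sj (some (inr (inr w)))))) 0

/-- The transfer matrix. -/
noncomputable def qj2_Phi (sj : Option (VX ⊕ VY ⊕ W) → ℕ) :
    Matrix (J (VX ⊕ VY ⊕ W)) (J (Option (VX ⊕ VY ⊕ W))) RZ :=
  embM RZ (Jm Function.Embedding.some) - qj2_Psi sj

theorem qj2_vec (sj : Option (VX ⊕ VY ⊕ W) → ℕ) (v : J (VX ⊕ VY ⊕ W) → RZ)
    (h : ∀ w, v (inl (inr (inr w))) = 0) :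
    v ᵥ* qj2_Phi sj = extv Function.Embedding.some v := by
  have h0 : v ᵥ* qj2_Psi sj = 0 := by
    funext j
    simp [vecMul, dotProduct, Fintype.sum_sum_type, qj2_Psi, h]
  rw [qj2_Phi, vecMul_sub, h0, sub_zero]
  rfl

theorem qj2_X (sj : Option (VX ⊕ VY ⊕ W) → ℕ) (v : J VX → RZ) :
    extv (eX VX VY W) v ᵥ* qj2_Phi sj = extv (eX' VX VY W) v := by
  rw [qj2_vec sj _ fun w => extv_of_not _ _ fun x => by simp [qr6_eX], extv_extv]
  rfl

theorem qj2_Y (sj : Option (VX ⊕ VY ⊕ W) → ℕ) (v : J VY → RZ) :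
    extv (eY VX VY W) v ᵥ* qj2_Phi sj = extv (eY' VX VY W) v := by
  rw [qj2_vec sj _ fun w => extv_of_not _ _ fun x => by simp [qr6_eY], extv_extv]
  rfl

theorem qj2_hav (sj : Option (VX ⊕ VY ⊕ W) → ℕ) (ar : RZ) : hav ar ᵥ* qj2_Phi sj = hav ar := by
  rw [qj2_vec sj _ fun w => qr6_hav_inl ar _, extv_hav]

theorem qj2_single (sj : Option (VX ⊕ VY ⊕ W) → ℕ) (i : VX ⊕ VY ⊕ W) :
    Pi.single (inl i) 1 ᵥ* qj2_Phi sj = Pi.single (inl (some i)) 1 - qj2_Psi sj (inl i) := by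
  rw [qj2_Phi, vecMul_sub]
  congr 1
  · exact extv_single Function.Embedding.some (inl i) 1
  · rw [single_vecMul, one_smul]
    rfl

theorem qj2_M1 (sj : Option (VX ⊕ VY ⊕ W) → ℕ) :
    M1 W (1 - BX) g * qj2_Phi sj =
      embM RZ (Function.Embedding.some : VX ⊕ VY ⊕ W ↪ Option (VX ⊕ VY ⊕ W)) *
        MA (rho1 sj BX g) := by
  funext i
  rw [qj2_emb_mul]
  change M1 W (1 - BX) g i ᵥ* qj2_Phi sj = _
  rcases i with x | y | w
  · rw [qr6_M1x, qj2_X, qj2_one_sub, extv_sub, extv_single]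
    rfl
  · rw [qr6_M1y, sub_vecMul, qj2_X, qj2_single]
    exact congrArg (· - _) (sub_zero _)
  · rw [qr6_M1w, qj2_single]
    rfl

theorem qj2_M2 (sj : Option (VX ⊕ VY ⊕ W) → ℕ) :
    M2 W (1 - BY) f * qj2_Phi sj =
      embM RZ (Function.Embedding.some : VX ⊕ VY ⊕ W ↪ Option (VX ⊕ VY ⊕ W)) *
        MA (rho2 sj BY f) := by
  funext i
  rw [qj2_emb_mul]
  change M2 W (1 - BY) f i ᵥ* qj2_Phi sj = _
  rcases i with x | y | w
  · rw [qr6_M2x, sub_vecMul, qj2_Y, qj2_single]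
    exact congrArg (· - _) (sub_zero _)
  · rw [qr6_M2y, qj2_Y, qj2_one_sub, extv_sub, extv_single]
    rfl
  · rw [qr6_M2w, qj2_single]
    rfl

/-- Let `Φ : Matrix (J ι) (J (Option ι)) RZ` have the rows `e_(Jm some j)`, except that row
`inl (inr (inr w))` is `e_w - t ^ (sj w) e₀`. Then `(M1 * Φ) i = MA (rho1 ..) (some i)`,
`(M2 * Φ) i = MA (rho2 ..) (some i)`, `extv e v ᵥ* Φ = extv (e.trans some) v` for `e = eX, eY`, and
`hav ᵥ* Φ = hav`. Row `some i` of `padM some (mat N) * A` is `mat N i ᵥ* (A ∘ some)`, row `none` is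
`A none` (`padM_row`, `padM_of_row`). -/
theorem Lnk.rows (h : Lnk ar (1 - BX) (1 - BY) g f N) (sj : Option (VX ⊕ VY ⊕ W) → ℕ) :
    (∃ c, padM Function.Embedding.some (mat N) * MA (rho1 sj BX g) =
      MA (rho2 sj BY f) + vecMulVec c (hav ar)) ∧
    ∀ k, k ≠ 0 → ∃ (c : Option (VX ⊕ VY ⊕ W) → RZ) (p : RZ),
      extv (eY' VX VY W) (BY (inr k)) - extv (eX' VX VY W) (BX (inr k)) =
        c ᵥ* MA (rho1 sj BX g) + p • hav ar := by
  obtain ⟨⟨c, hc⟩, h2⟩ := h
  constructor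
  · have h1 := congrArg (· * qj2_Phi sj) hc
    simp only [Matrix.mul_assoc, Matrix.add_mul, vecMulVec_mul, qj2_M1, qj2_M2, qj2_hav] at h1
    refine ⟨fun i => i.elim 0 c, ?_⟩
    funext i
    change padM Function.Embedding.some (mat N) i ᵥ* MA (rho1 sj BX g) = _
    rcases i with _ | i
    · have h3 : padM Function.Embedding.some (mat N) none = Pi.single none 1 := by
        funext j
        rw [padM_of_row _ _ (by simp), one_apply, Pi.single_apply]
        simp only [eq_comm]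
      rw [h3, single_vecMul, one_smul]
      funext j
      rw [Matrix.add_apply, vecMulVec_apply, Option.elim_none, zero_mul, add_zero]
      rfl
    · have h3 := congrFun h1 i
      have h4 := padM_row Function.Embedding.some (mat N) i
      change padM Function.Embedding.some (mat N) (some i) = _ at h4
      rw [h4, vecMul_vecMul]
      refine h3.trans ?_
      funext j
      rw [Matrix.add_apply, Matrix.add_apply, qj2_emb_mul]
      rfl
  · intro k hk
    obtain ⟨c', p, hc'⟩ := h2 k hk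
    have h1 := congrArg (· ᵥ* qj2_Phi sj) hc'
    simp only [sub_vecMul, add_vecMul, smul_vecMul, vecMul_vecMul, qj2_X, qj2_Y, qj2_M1,
      qj2_hav] at h1
    refine ⟨c' ᵥ* embM RZ Function.Embedding.some, p, ?_⟩
    rw [vecMul_vecMul]
    refine Eq.trans ?_ h1
    rw [qj2_one_sub, qj2_one_sub, extv_sub, extv_sub, extv_single, extv_single, Jm_inr, Jm_inr]
    abel

theorem rho1_X (sj : Option (VX ⊕ VY ⊕ W) → ℕ) (x : VX) :
    rho1 sj BX g (eX' VX VY W x) = extv (eX' VX VY W) (BX (inl x)) := rfl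
theorem rho2_Y (sj : Option (VX ⊕ VY ⊕ W) → ℕ) (y : VY) :
    rho2 sj BY f (eY' VX VY W y) = extv (eY' VX VY W) (BY (inl y)) := rfl
theorem rho1_supp (sj : Option (VX ⊕ VY ⊕ W) → ℕ) (i z : Option (VX ⊕ VY ⊕ W))
    (h : ∀ x, eX' VX VY W x ≠ z) : rho1 sj BX g i (inl z) = 0 := by
  rcases i with _ | x | y | w
  · exact Pi.single_eq_of_ne inl_ne_inr _
  · exact extv_of_not _ _ h
  · exact extv_of_not _ _ h
  · exact Pi.single_eq_of_ne inl_ne_inr _
theorem rho2_supp (sj : Option (VX ⊕ VY ⊕ W) → ℕ) (i z : Option (VX ⊕ VY ⊕ W))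
    (h : ∀ y, eY' VX VY W y ≠ z) : rho2 sj BY f i (inl z) = 0 := by
  rcases i with _ | x | y | w
  · exact Pi.single_eq_of_ne inl_ne_inr _
  · exact extv_of_not _ _ h
  · exact extv_of_not _ _ h
  · exact Pi.single_eq_of_ne inl_ne_inr _
theorem qj2_td_single {U : Type} [DecidableEq U] {n : ℕ} (hn : 1 ≤ n) (j : J U) :
    X ∣ (Pi.single (inr 0) (X ^ n) : J U → RZ) j := by
  rw [Pi.single_apply]
  split_ifs
  · exact dvd_pow_self _ (by omega)
  · exact dvd_zero _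
theorem rho1_cst {sj : Option (VX ⊕ VY ⊕ W) → ℕ} (hs : ∀ i, 1 ≤ sj i) (hX : TD BX)
    (hg : ∀ y k, X ∣ g y (inr k)) : Cst (fun i => ∃ y, eY' VX VY W y = i) (rho1 sj BX g) := by
  intro i j hij
  rcases i with _ | x | y | w
  · exact absurd (X_dvd_iff.1 (qj2_td_single (hs _) j)) hij
  · exact absurd (X_dvd_iff.1 (qj2_extv_cases (eX' VX VY W) (BX (inl x)) (Q := fun p => X ∣ p)
      (dvd_zero _) (hX _) j)) hij
  · refine ⟨⟨y, rfl⟩, ?_⟩
    rcases j with z | k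
    · refine ⟨z, rfl, ?_⟩
      rintro ⟨y', rfl⟩
      apply hij
      rw [rho1_supp sj _ (eY' VX VY W y') fun x hx => inl_ne_inr (Option.some_injective _ hx),
        coeff_zero]
    · refine absurd (X_dvd_iff.1 ?_) hij
      change X ∣ extv (eX' VX VY W) (g y) (inr k)
      rw [extv_inr]
      exact hg y k
  · exact absurd (X_dvd_iff.1 (qj2_td_single (hs _) j)) hij
theorem rho2_td {sj : Option (VX ⊕ VY ⊕ W) → ℕ} (hs : ∀ i, 1 ≤ sj i) (hY : TD BY) (hf : TD f) :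
    TD (rho2 sj BY f) := by
  intro i j
  rcases i with _ | x | y | w
  · exact qj2_td_single (hs _) j
  · exact qj2_extv_cases (eY' VX VY W) (f x) (Q := fun p => X ∣ p) (dvd_zero _) (hf _) j
  · exact qj2_extv_cases (eY' VX VY W) (BY (inl y)) (Q := fun p => X ∣ p) (dvd_zero _) (hY _) j
  · exact qj2_td_single (hs _) j

theorem qj2_pad_ne {ι : Type} [Fintype ι] [DecidableEq ι] (A : Matrix ι ι RZ) (i j : Option ι)
    (h : (padM Function.Embedding.some A - 1) i j ≠ 0) :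
    ∃ a b, i = some a ∧ j = some b ∧ (A - 1) a b ≠ 0 := by
  rw [Matrix.sub_apply] at h
  rcases i with _ | a
  · exact absurd (by rw [padM_of_row _ _ (by simp), sub_self]) h
  rcases j with _ | b
  · exact absurd (by rw [padM_of_col _ _ _ (by simp), sub_self]) h
  refine ⟨a, b, rfl, rfl, fun h' => h ?_⟩
  have h1 := padM_apply Function.Embedding.some A a b
  change padM Function.Embedding.some A (some a) (some b) = _ at h1
  rw [h1, ← h', Matrix.sub_apply, one_apply, one_apply]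
  simp

/-- `mat_Xp`, `mat_Xm`: take `C₁ = padM some (mat (Xp n)) - 1`. -/
theorem pad_XpXm (n : Matrix VX VY RZ) (m : Matrix VY VX RZ) :
    ∃ C₁ C₂ : Matrix (Option (VX ⊕ VY ⊕ W)) (Option (VX ⊕ VY ⊕ W)) RZ,
      padM Function.Embedding.some (mat (Xp W n * Xm W m)) = (1 + C₁) * (1 + C₂) ∧
      (∀ i j, C₁ i j ≠ 0 → (¬ ∃ y, eY' VX VY W y = i) ∧ ∃ y, eY' VX VY W y = j) ∧
      ∀ i j, C₂ i j ≠ 0 → (∃ y, eY' VX VY W y = i) ∧ ¬ ∃ y, eY' VX VY W y = j := by
  refine ⟨padM Function.Embedding.some (mat (Xp W n)) - 1,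
    padM Function.Embedding.some (mat (Xm W m)) - 1, ?_, fun i j h => ?_, fun i j h => ?_⟩
  · rw [add_sub_cancel, add_sub_cancel, mat_mul, padM_mul]
  · obtain ⟨a, b, rfl, rfl, h'⟩ := qj2_pad_ne _ i j h
    rw [mat_Xp] at h'
    rcases a with x | y | w <;> rcases b with x' | y' | w' <;>
      first
      | exact ⟨fun ⟨y, hy⟩ => inr_ne_inl (Option.some_injective _ hy), y', rfl⟩
      | exact absurd (by simp [A2, one_apply]) h'
  · obtain ⟨a, b, rfl, rfl, h'⟩ := qj2_pad_ne _ i j h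
    rw [mat_Xm] at h'
    rcases a with x | y | w <;> rcases b with x' | y' | w' <;>
      first
      | exact ⟨⟨y, rfl⟩, fun ⟨y, hy⟩ => inr_ne_inl (Option.some_injective _ hy)⟩
      | exact absurd (by simp [A1, one_apply]) h'

end

variable {O O' P W : Type} [Fintype O] [DecidableEq O] [Fintype O'] [DecidableEq O'] [Fintype P]
  [DecidableEq P] [Fintype W] [DecidableEq W] {r θ ε K K' Ω : ℝ} {M s sm s0 : ℕ} {ar : RZ}
  {a : P → ℕ × Bool}

/-- The row is positive and contains a budget; take `n = 0`. -/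
theorem Side2.rz {b0 : P → RZ} {B : Matrix (J (O ⊕ P)) (J (O ⊕ P)) RZ}
    (h : Side2 r M s θ K Ω ar sm s0 a b0 B) (hr : 0 ≤ r) (hε : 0 ≤ ε)
    (hb : ∀ π, ∃ m, (PM ((a π).1 + s) m ∨ PM ((a π).1 + s + 1) m) ∧ Pos (b0 π - m)) (κ : ℕ)
    (x : O ⊕ P) : Rz r (dg a x + s) κ ε (fun _ => True) (B (inl x)) := by
  have key : ∀ (s' : ℕ) (m : RZ), (s' = dg a x + s ∨ s' = dg a x + s + 1) → PM s' m →
      Pos (B (inl x) (inr 0) - m) → Rz r (dg a x + s) κ ε (fun _ => True) (B (inl x)) := by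
    intro s' m h1 h2 h3
    refine ⟨B (inl x) - Pi.single (inr 0) m, 0, s', m, h1, h2, fun j => ?_, by simp,
      fun _ => ⟨dvd_zero _, N0_zero.le.trans (by positivity)⟩, fun _ _ => trivial⟩
    rw [Pi.sub_apply, Pi.single_apply]
    split_ifs with hj
    · rw [hj]; exact h3
    · rw [sub_zero]; exact h.hub.pt.1 _ _
  rcases x with o | π
  · exact key s (X ^ s) (Or.inl (zero_add s).symm) (Or.inl rfl) (h.budO o)
  · obtain ⟨m, hm | hm, hm'⟩ := hb π
    · exact key _ m (Or.inl rfl) hm (hm'.trans (h.budP π))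
    · exact key _ m (Or.inr rfl) hm (hm'.trans (h.budP π))

theorem Lft.mono {μ : P → RZ} {g : Matrix (O' ⊕ P) (J (O ⊕ P)) RZ} (h : Lft r M s ε K a μ g)
    (hr : 0 ≤ r) {ε' K' : ℝ} (hε : ε ≤ ε') (hK : K ≤ K') : Lft r M s ε' K' a μ g := by
  refine ⟨h.ord, fun y => ?_, fun κ hκ y => ?_, fun y k => ?_, h.td⟩
  · have h1 := mul_le_mul_of_nonneg_right hε (show 0 ≤ wt r s a y from pow_nonneg hr _)
    exact ⟨(h.small y).1.trans h1, fun z => ((h.small y).2 z).trans h1⟩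
  · obtain ⟨ps, n, s', m, h1, h2, h3, h4, h5, h6⟩ := h.rz κ hκ y
    exact ⟨ps, n, s', m, h1, h2, h3, h4, fun j => ⟨(h5 j).1, (h5 j).2.trans
      (mul_le_mul_of_nonneg_right hε (pow_nonneg hr _))⟩, h6⟩
  · exact (h.hubn y k).trans
      (mul_le_mul_of_nonneg_right hK (show 0 ≤ wt r s a y from pow_nonneg hr _))

theorem Lft.all_td {μ : P → RZ} {g : Matrix (O' ⊕ P) (J (O ⊕ P)) RZ} (h : Lft r M s ε K a μ g)
    (hM : 1 ≤ M) (hμ : ∀ π, X ∣ μ π) : TD g := by
  intro y j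
  rcases j with z | k
  · have h1 : X ∣ (g.submatrix id inl - sk O O' μ) y z :=
      (dvd_pow_self X (by omega)).trans (h.ord y z)
    have h2 : X ∣ sk O O' μ y z := by
      rcases y with o | π <;> rcases z with o' | π'
      · exact dvd_zero _
      · exact dvd_zero _
      · exact dvd_zero _
      · change X ∣ diagonal μ π π'
        rw [diagonal_apply]
        split_ifs
        · exact hμ π
        · exact dvd_zero _
    have h3 := h1.add h2
    rwa [Matrix.sub_apply, sub_add_cancel] at h3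
  · exact h.td y k

theorem sjF_one (hs : 1 ≤ s) (e₃ : Fin 3 ↪ W) (i : Option ((O ⊕ P) ⊕ (O' ⊕ P) ⊕ W)) :
    1 ≤ sjF O O' s a e₃ i := by
  rcases i with _ | x | y | w
  · exact hs
  · exact hs.trans (Nat.le_add_left _ _)
  · exact hs.trans (Nat.le_add_left _ _)
  · simp only [sjF]
    split_ifs
    · exact hs
    · exact hs.trans (Nat.le_add_right _ _)

/-- At most three extra states have the weight `r ^ s ≤ 1`, and `card W / 2 ^ card W ≤ 1`. -/
theorem sjF_sum (hr : 0 ≤ r) (hr' : r ≤ 1 / 2) (e₃ : Fin 3 ↪ W)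
    (hX : ∑ x : O ⊕ P, wt r s a x ≤ Ω) (hY : ∑ x : O' ⊕ P, wt r s a x ≤ Ω) :
    ∑ i, r ^ sjF O O' s a e₃ i ≤ 2 * Ω + 5 := by
  have hr1 : r ≤ 1 := by linarith
  have h1 : r ^ s ≤ 1 := pow_le_one₀ hr hr1
  have h2 : (Fintype.card W : ℝ) * r ^ Fintype.card W ≤ 1 := by
    have h3 : (Fintype.card W : ℝ) ≤ 2 ^ Fintype.card W := by
      exact_mod_cast (Nat.lt_two_pow_self).le
    calc (Fintype.card W : ℝ) * r ^ Fintype.card W ≤ 2 ^ Fintype.card W * (1 / 2) ^ Fintype.card W :=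
          mul_le_mul h3 (pow_le_pow_left₀ hr hr' _) (pow_nonneg hr _) (by positivity)
      _ = 1 := by rw [← mul_pow]; norm_num
  have h3 : ∑ w : W, r ^ sjF O O' s a e₃ (some (inr (inr w))) ≤ 4 := by
    calc ∑ w : W, r ^ sjF O O' s a e₃ (some (inr (inr w)))
        ≤ ∑ w : W, ((if w ∈ univ.map e₃ then (1 : ℝ) else 0) + r ^ Fintype.card W) := by
          refine sum_le_sum fun w _ => ?_
          simp only [sjF, mem_map, mem_univ, true_and]
          split_ifs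
          · linarith [pow_nonneg hr (Fintype.card W)]
          · rw [zero_add, pow_add]
            exact mul_le_of_le_one_left (pow_nonneg hr _) h1
      _ = 3 + (Fintype.card W : ℝ) * r ^ Fintype.card W := by
          rw [sum_add_distrib, sum_ite_mem, univ_inter, sum_const, sum_const, card_map, card_univ,
            card_univ, Fintype.card_fin, nsmul_eq_mul, nsmul_eq_mul]
          norm_num
      _ ≤ 4 := by linarith
  rw [Fintype.sum_option, Fintype.sum_sum_type, Fintype.sum_sum_type (α₁ := O' ⊕ P)]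
  change r ^ s + (∑ x : O ⊕ P, wt r s a x + (∑ x : O' ⊕ P, wt r s a x + _)) ≤ _
  linarith

theorem rho1_rz (hr : 0 ≤ r) (hε : 0 ≤ ε) (e₃ : Fin 3 ↪ W) {κ : ℕ}
    {BX : Matrix (J (O ⊕ P)) (J (O ⊕ P)) RZ} {g : Matrix (O' ⊕ P) (J (O ⊕ P)) RZ}
    (hX : ∀ x, Rz r (dg a x + s) κ ε (fun _ => True) (BX (inl x)))
    (hg : ∀ y, Rz r (dg a y + s) κ ε (fun _ => True) (g y)) (i : Option ((O ⊕ P) ⊕ (O' ⊕ P) ⊕ W)) :
    Rz r (sjF O O' s a e₃ i) κ ε (fun z => ∃ x, eX' _ _ W x = z) (rho1 (sjF O O' s a e₃) BX g i) := by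
  rcases i with _ | x | y | w
  · exact Rz.single hr hε _ _ _
  · exact (hX x).extv hr _
  · exact (hg y).extv hr _
  · exact Rz.single hr hε _ _ _

theorem rho2_rz (hr : 0 ≤ r) (hε : 0 ≤ ε) (e₃ : Fin 3 ↪ W) {κ : ℕ}
    {BY : Matrix (J (O' ⊕ P)) (J (O' ⊕ P)) RZ} {f : Matrix (O ⊕ P) (J (O' ⊕ P)) RZ}
    (hY : ∀ y, Rz r (dg a y + s) κ ε (fun _ => True) (BY (inl y)))
    (hf : ∀ x, Rz r (dg a x + s) κ ε (fun _ => True) (f x)) (i : Option ((O ⊕ P) ⊕ (O' ⊕ P) ⊕ W)) :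
    Rz r (sjF O O' s a e₃ i) κ ε (fun z => ∃ y, eY' _ _ W y = z) (rho2 (sjF O O' s a e₃) BY f i) := by
  rcases i with _ | x | y | w
  · exact Rz.single hr hε _ _ _
  · exact (hf x).extv hr _
  · exact (hY y).extv hr _
  · exact Rz.single hr hε _ _ _

end Pool.Agent.Lib.MP_71aad1_an.SS
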