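import Pool.Agent.Lib.MP_71aad1_an.QL5

set_option autoImplicit false

namespace Pool.Agent.Lib.MP_71aad1_an.SS

open Polynomial Matrix Finset Sum

/-! Lifting the states of one side into the other side. -/

variable {O O' P : Type} [Fintype O] [DecidableEq O] [Fintype O'] [DecidableEq O'] [Fintype P]
  [DecidableEq P] {r θ K Ω : ℝ} {M s sm s0 : ℕ} {ar : RZ} {a : P → ℕ × Bool}

omit [Fintype O] [DecidableEq O] [Fintype P] [DecidableEq P] in
theorem ql9_wt (hr : 0 ≤ r) (x : O ⊕ P) : 0 ≤ wt r s a x := pow_nonneg hr _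

theorem ql9_lp {B : Matrix (J (O ⊕ P)) (J (O ⊕ P)) RZ} (h : Core r M s θ K Ω a B)
    (hr : 0 ≤ r) (hr' : r ≤ 1 / 7) (x : O ⊕ P) : N1 r (lp a x) ≤ 2 / 7 := by
  rcases x with o | π
  · change N1 r (0 : RZ) ≤ _
    rw [N1_zero]
    norm_num
  · change N1 r (mono (a π)) ≤ _
    have := N1_mono_le hr (by linarith) (h.deg π).1
    linarith

omit [Fintype O] [Fintype P] in
theorem ql9_split (B : Matrix (J (O ⊕ P)) (J (O ⊕ P)) RZ) :
    B.toBlocks₁₁ = diagonal (lp a) + sml a B := by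
  simp [sml]

omit [Fintype O] [Fintype P] in
theorem ql9_row (B : Matrix (J (O ⊕ P)) (J (O ⊕ P)) RZ) (x : O ⊕ P) :
    B.toBlocks₁₁ x = Pi.single x (lp a x) + sml a B x := by
  rw [ql9_split (a := a) B]
  funext z
  simp only [Matrix.add_apply, Pi.add_apply, diagonal_apply, Pi.single_apply]
  by_cases hz : x = z
  · subst hz
    simp
  · simp [hz, Ne.symm hz]

/-- Row `x` is `lp a x • e_x + sml a B x`, and `N1 r (lp a x) ≤ 2 r ≤ 2 / 7` (`N1_mono_le`). -/
theorem Core.row_half {B : Matrix (J (O ⊕ P)) (J (O ⊕ P)) RZ} (h : Core r M s θ K Ω a B)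
    (hr : 0 ≤ r) (hr' : r ≤ 1 / 7) (hθ : θ ≤ 1 / 5) (x : O ⊕ P) :
    Sw r (wt r s a) (B.toBlocks₁₁ x) ≤ 1 / 2 * wt r s a x := by
  rw [ql9_row (a := a) B x]
  refine (Sw_add_le hr (ql9_wt hr) _ _).trans ?_
  rw [Sw_single]
  have h1 := ql9_lp h hr hr' x
  have h2 := (h.small x).1
  have h3 : 0 ≤ wt r s a x := ql9_wt hr x
  nlinarith [mul_le_mul_of_nonneg_right h1 h3, mul_le_mul_of_nonneg_right hθ h3]

/-- `n = v + n ᵥ* B₁₁`, so `Sw n ≤ ε + Sw n / 2`; entrywise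
`N1 (n z) ≤ ε + (2 / 7) N1 (n z) + θ Sw n` (`RowB.vecMul`; if `θ < 0` use that the index set is empty
or `RowB.nonneg`). -/
theorem Core.solve {B : Matrix (J (O ⊕ P)) (J (O ⊕ P)) RZ} (h : Core r M s θ K Ω a B)
    (hr : 0 ≤ r) (hr' : r ≤ 1 / 7) (hθ0 : 0 ≤ θ) (hθ : θ ≤ 1 / 5) {n v : O ⊕ P → RZ} {ε : ℝ}
    (e : n ᵥ* (1 - B.toBlocks₁₁) = v) (hv : RowB r (wt r s a) v ε) :
    RowB r (wt r s a) n (2 * ε) := by
  have hε : 0 ≤ ε := hv.nonneg hr (ql9_wt hr)
  have e1 : n = v + n ᵥ* B.toBlocks₁₁ := by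
    rw [← e, vecMul_sub, vecMul_one, sub_add_cancel]
  have h1 : Sw r (wt r s a) n ≤ 2 * ε := by
    have h2 := Sw_add_le hr (ql9_wt (s := s) (a := a) hr) v (n ᵥ* B.toBlocks₁₁)
    rw [← e1] at h2
    have h3 := Sw_vecMul_le hr (ql9_wt (s := s) (a := a) hr) n (h.row_half hr hr' hθ)
    have h4 := hv.1
    linarith
  refine ⟨h1, fun z => ?_⟩
  have e2 : n z = v z + (n z * lp a z + (n ᵥ* sml a B) z) := by
    conv_lhs => rw [e1, ql9_split (a := a) B, vecMul_add]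
    simp only [Pi.add_apply, vecMul_diagonal]
  have h2 := (RowB.vecMul hr (ql9_wt hr) hθ0 h1 h.small).2 z
  have h3 := N1_add_le hr (v z) (n z * lp a z + (n ᵥ* sml a B) z)
  rw [← e2] at h3
  have h4 := N1_add_le hr (n z * lp a z) ((n ᵥ* sml a B) z)
  have h5 := N1_mul_le hr (n z) (lp a z)
  have h6 := mul_le_mul_of_nonneg_left (ql9_lp h hr hr' z) (N1_nonneg hr (n z))
  have h7 := hv.2 z
  have h8 := mul_le_mul_of_nonneg_right hθ hε
  linarith

theorem ql9_pow {B : Matrix (J (O ⊕ P)) (J (O ⊕ P)) RZ} (h : Core r M s θ K Ω a B)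
    (hr : 0 ≤ r) (hr' : r ≤ 1 / 7) (hθ : θ ≤ 1 / 5) (k : ℕ) (y : O ⊕ P) :
    Sw r (wt r s a) ((B.toBlocks₁₁ ^ k) y) ≤ (1 / 2) ^ k * wt r s a y := by
  induction k with
  | zero =>
    have e : ((1 : Matrix (O ⊕ P) (O ⊕ P) RZ) y) = Pi.single y 1 := by
      funext z
      simp [one_apply, Pi.single_apply, eq_comm]
    rw [pow_zero, pow_zero, e, Sw_single, N1_one]
  | succ k ih =>
    rw [pow_succ, mul_apply_eq_vecMul]
    refine (Sw_vecMul_le hr (ql9_wt hr) _ (h.row_half hr hr' hθ)).trans ?_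
    rw [pow_succ]
    linarith

theorem ql9_geom {B : Matrix (J (O ⊕ P)) (J (O ⊕ P)) RZ} (h : Core r M s θ K Ω a B)
    (hr : 0 ≤ r) (hr' : r ≤ 1 / 7) (hθ : θ ≤ 1 / 5) (n : ℕ) (y : O ⊕ P) :
    Sw r (wt r s a) ((∑ k ∈ range n, B.toBlocks₁₁ ^ k) y) ≤ (2 - 2 * (1 / 2) ^ n) * wt r s a y := by
  induction n with
  | zero =>
    rw [sum_range_zero]
    change Sw r (wt r s a) (0 : O ⊕ P → RZ) ≤ _
    rw [Sw_zero]
    simp
  | succ n ih =>
    rw [sum_range_succ]
    refine (Sw_add_le hr (ql9_wt hr) ((∑ k ∈ range n, B.toBlocks₁₁ ^ k) y)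
      ((B.toBlocks₁₁ ^ n) y)).trans ?_
    have := ql9_pow h hr hr' hθ n y
    rw [pow_succ]
    linarith

theorem ql9_ord {B : Matrix (J (O' ⊕ P)) (J (O' ⊕ P)) RZ} (h : Core r M s θ K Ω a B) {W : Type}
    (E : Matrix (O' ⊕ P) W RZ) (ho : ∀ y j, X ^ (dg a y + M) ∣ E y j) (k : ℕ) :
    ∀ y j, X ^ (dg a y + M) ∣ (B.toBlocks₁₁ ^ k * E) y j := by
  induction k with
  | zero => simpa using ho
  | succ k ih =>
    intro y j
    rw [pow_succ', Matrix.mul_assoc]
    generalize B.toBlocks₁₁ ^ k * E = G at ih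
    rw [ql9_split (a := a) B, Matrix.add_mul, Matrix.add_apply, diagonal_mul]
    refine dvd_add (Dvd.dvd.mul_left (ih y j) _) ?_
    rw [mul_apply]
    exact dvd_sum fun z _ => Dvd.dvd.mul_right (h.ord y z) _

/-- With `A = B.toBlocks₁₁`: `Sw ((A ^ k) y) ≤ wt y / 2 ^ k` (`Core.row_half`, `Sw_vecMul_le`), then
`RowB.vecMul`, `N0_vecMul_le`. The rows of `Δ` are bounded by `C * wt y` for some `C`. Orders:
if the rows of `F` have order `dg + M`, so have the rows of `A * F`; `A ^ n` has order `n ≥ 2 M`. -/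
theorem neumann {B : Matrix (J (O' ⊕ P)) (J (O' ⊕ P)) RZ} (h : Core r M s θ K Ω a B) (hT : TD B)
    (hr : 0 < r) (hr' : r ≤ 1 / 7) (hθ : θ ≤ 1 / 5) (E Δ : Matrix (O' ⊕ P) (J (O ⊕ P)) RZ)
    {ε₁ ε₂ η : ℝ} (h₁ : 0 ≤ ε₁) (h₂ : 0 ≤ ε₂) (hη : 0 < η) (ho : ∀ y j, X ^ (dg a y + M) ∣ E y j)
    (hE : ∀ y, RowB r (wt r s a) (fun z => E y (inl z)) (ε₁ * wt r s a y))
    (hE' : ∀ y k, N0 r (E y (inr k)) ≤ ε₂ * wt r s a y) :
    ∃ (n : ℕ) (F : Matrix (O' ⊕ P) (J (O ⊕ P)) RZ),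
      F = (∑ k ∈ range n, B.toBlocks₁₁ ^ k) * E + B.toBlocks₁₁ ^ n * Δ ∧
      (∀ y j, X ^ (dg a y + M) ∣ F y j) ∧
      (∀ y, RowB r (wt r s a) (fun z => F y (inl z)) ((2 * ε₁ + η) * wt r s a y)) ∧
      ∀ y k, N0 r (F y (inr k)) ≤ (2 * ε₂ + η) * wt r s a y := by
  have hr0 := hr.le
  obtain ⟨C, hC0, hC⟩ : ∃ C : ℝ, 0 ≤ C ∧ ∀ y, ∑ j, N1 r (Δ y j) ≤ C * wt r s a y := by
    have hp : ∀ y : O' ⊕ P, 0 ≤ (∑ j, N1 r (Δ y j)) / wt r s a y := fun y =>
      div_nonneg (sum_nonneg fun j _ => N1_nonneg hr0 _) (ql9_wt hr0 y)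
    refine ⟨∑ y : O' ⊕ P, (∑ j, N1 r (Δ y j)) / wt r s a y, sum_nonneg fun y _ => hp y, fun y => ?_⟩
    rw [← div_le_iff₀ (wt_pos hr s a y)]
    exact single_le_sum (fun y _ => hp y) (mem_univ y)
  obtain ⟨n₀, hn₀⟩ := exists_pow_lt_of_lt_one (div_pos hη (by linarith : 0 < C + 1))
    (by norm_num : (1 / 2 : ℝ) < 1)
  have hn : C * (1 / 2 : ℝ) ^ (n₀ + 2 * M) ≤ η := by
    have h1 : (1 / 2 : ℝ) ^ (n₀ + 2 * M) ≤ (1 / 2) ^ n₀ :=
      pow_le_pow_of_le_one (by norm_num) (by norm_num) (Nat.le_add_right _ _)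
    rw [lt_div_iff₀ (by linarith)] at hn₀
    have h2 : (0 : ℝ) ≤ (1 / 2) ^ n₀ := by positivity
    nlinarith [mul_le_mul_of_nonneg_left h1 hC0]
  set n := n₀ + 2 * M with hnd
  have hS : ∀ y, Sw r (wt r s a) ((∑ k ∈ range n, B.toBlocks₁₁ ^ k) y) ≤ 2 * wt r s a y := by
    intro y
    have h1 := ql9_geom h hr0 hr' hθ n y
    have h2 : (0 : ℝ) ≤ (1 / 2) ^ n * wt r s a y := mul_nonneg (by positivity) (ql9_wt hr0 y)
    linarith
  have hP := ql9_pow h hr0 hr' hθ n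
  refine ⟨n, _, rfl, fun y j => ?_, fun y => ?_, fun y k => ?_⟩
  · rw [Matrix.add_apply, Matrix.sum_mul, Matrix.sum_apply]
    refine dvd_add (dvd_sum fun k _ => ql9_ord h E ho k y j) ?_
    rw [mul_apply]
    refine dvd_sum fun z _ => Dvd.dvd.mul_right ?_ _
    refine (pow_dvd_pow X ?_).trans (TD.pow_dvd (fun i j => hT (inl i) (inl j)) n y z)
    rcases y with o | π
    · change 0 + M ≤ n
      omega
    · change (a π).1 + M ≤ n
      have := (h.deg π).2
      omega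
  · have e : (fun z => ((∑ k ∈ range n, B.toBlocks₁₁ ^ k) * E + B.toBlocks₁₁ ^ n * Δ) y (inl z)) =
        (∑ k ∈ range n, B.toBlocks₁₁ ^ k) y ᵥ* (E.submatrix id inl) +
          (B.toBlocks₁₁ ^ n) y ᵥ* (Δ.submatrix id inl) := rfl
    rw [e]
    have h1 := RowB.vecMul hr0 (ql9_wt (O := O) (s := s) (a := a) hr0) h₁ (hS y)
      (C := E.submatrix id inl) hE
    have h2 := RowB.vecMul hr0 (ql9_wt (O := O) (s := s) (a := a) hr0) hC0 (hP y)
      (C := Δ.submatrix id inl) fun y' => RowB.of_sum hr0 (wt_le_one hr0 (by linarith) s a) (by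
        refine le_trans ?_ (hC y')
        rw [Fintype.sum_sum_type (fun j : J (O ⊕ P) => N1 r (Δ y' j))]
        exact le_add_of_nonneg_right (sum_nonneg fun j _ => N1_nonneg hr0 _))
    refine (h1.add hr0 (ql9_wt hr0) h2).mono ?_
    nlinarith [mul_le_mul_of_nonneg_right hn (ql9_wt (s := s) (a := a) hr0 y)]
  · have e : ((∑ k ∈ range n, B.toBlocks₁₁ ^ k) * E + B.toBlocks₁₁ ^ n * Δ) y (inr k) =
        ((∑ k ∈ range n, B.toBlocks₁₁ ^ k) y ᵥ* E) (inr k) +
          ((B.toBlocks₁₁ ^ n) y ᵥ* Δ) (inr k) := rfl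
    rw [e]
    have h1 := N0_vecMul_le hr0 ((∑ k ∈ range n, B.toBlocks₁₁ ^ k) y) (β := E) (inr k)
      (fun z => hE' z k)
    have h2 := N0_vecMul_le hr0 ((B.toBlocks₁₁ ^ n) y) (β := Δ) (inr k) (c := C) (w := wt r s a)
      (fun z => (N0_le_N1 hr0 _).trans ((single_le_sum (f := fun j => N1 r (Δ z j))
        (fun j _ => N1_nonneg hr0 _) (mem_univ (inr k))).trans (hC z)))
    refine (N0_add_le hr0 _ _).trans ?_
    nlinarith [mul_le_mul_of_nonneg_right hn (ql9_wt (s := s) (a := a) hr0 y),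
      mul_le_mul_of_nonneg_left (hS y) h₂, mul_le_mul_of_nonneg_left (hP y) hC0]

/-- The expected lift. -/
noncomputable def lift0 (O : Type) {O' P : Type} [DecidableEq P]
    (BA : Matrix (J (O' ⊕ P)) (J (O' ⊕ P)) RZ) (μ bd : P → RZ) : Matrix (O' ⊕ P) (J (O ⊕ P)) RZ :=
  fun y => Sum.elim (sk O O' μ y) fun k =>
    Sum.elim (fun o => BA (inl (inl o)) (inr k)) (fun π => if k = 0 then bd π else 0) y

omit [Fintype O] [DecidableEq O] [Fintype O'] [DecidableEq O'] [Fintype P] in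
theorem ql9_sk_l (μ : P → RZ) (o : O') : sk O O' μ (inl o) = 0 := by
  funext z
  rcases z with z | z <;> rfl

omit [Fintype O] [Fintype O'] [DecidableEq O'] [Fintype P] in
theorem ql9_sk_r (μ : P → RZ) (π : P) : sk O O' μ (inr π) = Pi.single (inr π) (μ π) := by
  funext z
  rcases z with z | z
  · simp [sk]
  · by_cases hz : π = z
    · subst hz
      simp [sk]
    · simp [sk, hz, Ne.symm hz]

omit [DecidableEq O'] in
theorem ql9_sk_row (hr : 0 ≤ r) {μ : P → RZ} (hμ : ∀ π, N1 r (μ π) ≤ 1) {n : O' ⊕ P → RZ} {ε : ℝ}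
    (hn : RowB r (wt r s a) n ε) : RowB r (wt r s a) (n ᵥ* sk O O' μ) ε := by
  have hε : 0 ≤ ε := hn.nonneg hr (ql9_wt hr)
  constructor
  · have h1 := Sw_vecMul_le hr (ql9_wt (O := O) (s := s) (a := a) hr) (w := wt r s a) (θ := 1) n
      (C := sk O O' μ) (by
        rintro (o | π)
        · rw [ql9_sk_l, Sw_zero, one_mul]
          exact ql9_wt hr _
        · rw [ql9_sk_r, Sw_single]
          exact mul_le_mul_of_nonneg_right (hμ π) (ql9_wt hr _))
    have h2 := hn.1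
    linarith
  · rintro (o | π)
    · have e : (n ᵥ* sk O O' μ) (inl o) = 0 := by
        simp [sk, vecMul, dotProduct]
      rw [e, N1_zero]
      exact hε
    · have e : (n ᵥ* sk O O' μ) (inr π) = n (inr π) * μ π := by
        simp [sk, vecMul, dotProduct, diagonal_apply]
      rw [e]
      have h1 := N1_mul_le hr (n (inr π)) (μ π)
      have h2 := mul_le_mul_of_nonneg_left (hμ π) (N1_nonneg hr (n (inr π)))
      have h3 := hn.2 (inr π)
      linarith

omit [Fintype O] [DecidableEq O] in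
theorem ql9_hub {bd μ : P → RZ} {BA : Matrix (J (O' ⊕ P)) (J (O' ⊕ P)) RZ}
    (hA : Core r M s θ K Ω a BA) (hr : 0 ≤ r) (hr' : r ≤ 1) (hK : 1 ≤ K)
    (hbd : ∀ π, PM ((a π).1 + s) (bd π) ∨ PM ((a π).1 + s + 1) (bd π)) (y : O' ⊕ P) (k : Fin 3) :
    N0 r (lift0 O BA μ bd y (inr k)) ≤ K * wt r s a y := by
  rcases y with o | π
  · exact hA.hubn (inl o) k
  · change N0 r (if k = 0 then bd π else 0) ≤ K * r ^ ((a π).1 + s)
    have h0 : 0 ≤ r ^ ((a π).1 + s) := pow_nonneg hr _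
    have h1 := mul_le_mul_of_nonneg_right hK h0
    split_ifs
    · rcases hbd π with h | h
      · rw [h.um.N0]
        linarith
      · rw [h.um.N0, pow_succ]
        nlinarith
    · rw [N0_zero]
      linarith

/-- The explicit part of the defect. -/
noncomputable def ql9_R (a : P → ℕ × Bool) (bA bB μ : P → RZ)
    (BA : Matrix (J (O' ⊕ P)) (J (O' ⊕ P)) RZ) (BB : Matrix (J (O ⊕ P)) (J (O ⊕ P)) RZ) :
    Matrix (O' ⊕ P) (J (O ⊕ P)) RZ :=
  Sum.elim (fun _ => 0) fun π => Sum.elim (fun z => -(μ π * sml a BB (inr π) z)) fun k =>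
    (BA (inl (inr π)) (inr k) - if k = 0 then bA π else 0) -
      μ π * (BB (inl (inr π)) (inr k) - if k = 0 then bB π else 0)

omit [Fintype O'] [DecidableEq O'] in
theorem ql9_key {bA bB μ bd : P → RZ} (BA : Matrix (J (O' ⊕ P)) (J (O' ⊕ P)) RZ)
    (BB : Matrix (J (O ⊕ P)) (J (O ⊕ P)) RZ)
    (hb : ∀ π, bA π - μ π * bB π = (1 - mono (a π)) * bd π) (y : O' ⊕ P) (j : J (O ⊕ P)) :
    Sum.elim (0 : O ⊕ P → RZ) (fun h => BA (inl y) (inr h)) j -
        (1 - lp a y) * lift0 O BA μ bd y j + (sk O O' μ y ᵥ* act (1 - BB)) j =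
      ql9_R a bA bB μ BA BB y j := by
  rcases y with o | π
  · rw [ql9_sk_l, zero_vecMul]
    rcases j with z | k
    · change (0 : RZ) - (1 - 0) * sk O O' μ (inl o) z + 0 = 0
      rw [ql9_sk_l]
      simp
    · change BA (inl (inl o)) (inr k) - (1 - 0) * BA (inl (inl o)) (inr k) + 0 = 0
      ring
  · rw [ql9_sk_r, single_vecMul]
    rcases j with z | k
    · change (0 : RZ) - (1 - mono (a π)) * sk O O' μ (inr π) z +
        μ π * ((1 : Matrix (J (O ⊕ P)) (J (O ⊕ P)) RZ) (inl (inr π)) (inl z) -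
          BB (inl (inr π)) (inl z)) =
        -(μ π * (BB (inl (inr π)) (inl z) - diagonal (lp a) (inr π) z))
      rw [ql9_sk_r]
      by_cases hz : inr π = z
      · subst hz
        rw [Pi.single_eq_same, one_apply_eq, diagonal_apply_eq]
        change _ = -(μ π * (BB (inl (inr π)) (inl (inr π)) - mono (a π)))
        ring
      · rw [Pi.single_eq_of_ne (Ne.symm hz), one_apply_ne (fun e => hz (inl_injective e)),
          diagonal_apply_ne _ hz]
        ring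
    · change BA (inl (inr π)) (inr k) - (1 - mono (a π)) * (if k = 0 then bd π else 0) +
        μ π * ((1 : Matrix (J (O ⊕ P)) (J (O ⊕ P)) RZ) (inl (inr π)) (inr k) -
          BB (inl (inr π)) (inr k)) =
        (BA (inl (inr π)) (inr k) - if k = 0 then bA π else 0) -
          μ π * (BB (inl (inr π)) (inr k) - if k = 0 then bB π else 0)
      rw [one_apply_ne inl_ne_inr]
      split_ifs
      · linear_combination hb π
      · ring

/-- `E = (0 | β_A) - (1 - A) lift0 + sk μ * act (1 - BB)`. Row `inl o` is `sml BA o ᵥ* lift0`; row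
`inr π` is `(0 | β_A π - b_A e₀) - μ (0 | β_B π - b_B e₀) + sml BA π ᵥ* lift0 - μ (sml BB π | 0)`.
The active part of `n ᵥ* lift0` is `n (inr π) * μ π` at `inr π` and `0` at `inl o`; the hub entries
of row `y` of `lift0` have `N0 ≤ K wt y`. -/
theorem lift_defect {bA bB μ bd : P → RZ} {BA : Matrix (J (O' ⊕ P)) (J (O' ⊕ P)) RZ}
    {BB : Matrix (J (O ⊕ P)) (J (O ⊕ P)) RZ} (hA : Side2 r M s θ K Ω ar sm s0 a bA BA)
    (hB : Side2 r M s θ K Ω ar sm s0 a bB BB) (hr : 0 ≤ r) (hr' : r ≤ 1) (hθ : 0 ≤ θ) (hK : 1 ≤ K)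
    (hμ : ∀ π, N1 r (μ π) ≤ 1) (hbd : ∀ π, PM ((a π).1 + s) (bd π) ∨ PM ((a π).1 + s + 1) (bd π))
    (hb : ∀ π, bA π - μ π * bB π = (1 - mono (a π)) * bd π) {g : Matrix (O' ⊕ P) (J (O ⊕ P)) RZ}
    (hg : Resp ar BA BB g) :
    ∃ (E : Matrix (O' ⊕ P) (J (O ⊕ P)) RZ) (Q : Matrix (O' ⊕ P) (O ⊕ P) RZ) (c : O' ⊕ P → RZ),
      (1 - BA.toBlocks₁₁) * (g - lift0 O BA μ bd) = E + Q * act (1 - BB) + vecMulVec c (hav ar) ∧
      (∀ y j, X ^ (dg a y + M) ∣ E y j) ∧
      (∀ y, RowB r (wt r s a) (fun z => E y (inl z)) (2 * θ * wt r s a y)) ∧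
      ∀ y k, N0 r (E y (inr k)) ≤ (K + 2) * θ * wt r s a y := by
  choose Q c hQ using hg
  refine ⟨sml a BA * lift0 O BA μ bd + ql9_R a bA bB μ BA BB, of Q - sk O O' μ, c, ?_, ?_, ?_, ?_⟩
  · refine Matrix.ext fun y j => ?_
    have h1 := congrFun (hQ y) j
    have h2 := ql9_key (O := O) BA BB hb y j
    have h3 : (BA.toBlocks₁₁ * lift0 O BA μ bd) y j =
        lp a y * lift0 O BA μ bd y j + (sml a BA * lift0 O BA μ bd) y j := by
      rw [ql9_split (a := a) BA, Matrix.add_mul, Matrix.add_apply, diagonal_mul]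
    have h4 : ((1 - BA.toBlocks₁₁) * (g - lift0 O BA μ bd) : Matrix (O' ⊕ P) (J (O ⊕ P)) RZ) y j =
        g y j - lift0 O BA μ bd y j - (((fun y' => BA (inl y) (inl y')) ᵥ* g) j -
          (BA.toBlocks₁₁ * lift0 O BA μ bd) y j) := by
      rw [Matrix.sub_mul, Matrix.one_mul, Matrix.mul_sub]
      rfl
    have h5 : (sml a BA * lift0 O BA μ bd + ql9_R a bA bB μ BA BB +
        (of Q - sk O O' μ) * act (1 - BB) + vecMulVec c (hav ar) :
          Matrix (O' ⊕ P) (J (O ⊕ P)) RZ) y j =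
        (sml a BA * lift0 O BA μ bd) y j + ql9_R a bA bB μ BA BB y j +
          ((Q y ᵥ* act (1 - BB)) j - (sk O O' μ y ᵥ* act (1 - BB)) j) + c y * hav ar j := by
      rw [Matrix.sub_mul]
      rfl
    simp only [Pi.sub_apply, Pi.add_apply, Pi.smul_apply, smul_eq_mul] at h1
    rw [h4, h5, h3]
    linear_combination h1 + h2
  · intro y j
    rw [Matrix.add_apply, mul_apply]
    refine dvd_add (dvd_sum fun z _ => Dvd.dvd.mul_right (hA.core.ord y z) _) ?_
    rcases y with o | π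
    · exact dvd_zero _
    · rcases j with z | k
      · change _ ∣ -(μ π * sml a BB (inr π) z)
        exact Dvd.dvd.neg_right (Dvd.dvd.mul_left (hB.core.ord (inr π) z) _)
      · exact dvd_sub (hA.per π k).1 (Dvd.dvd.mul_left (hB.per π k).1 _)
  · intro y
    have e : (fun z => (sml a BA * lift0 O BA μ bd + ql9_R a bA bB μ BA BB) y (inl z)) =
        sml a BA y ᵥ* sk O O' μ + fun z => ql9_R a bA bB μ BA BB y (inl z) := rfl
    rw [e]
    have h1 := ql9_sk_row (O := O) hr hμ (hA.core.small y)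
    have h2 : RowB r (wt r s a) (fun z => ql9_R a bA bB μ BA BB y (inl z)) (θ * wt r s a y) := by
      rcases y with o | π
      · exact RowB.zero (mul_nonneg hθ (ql9_wt hr _))
      · have h3 := ((hB.core.small (inr π)).smul hr (ql9_wt hr) (μ π)).neg
        refine RowB.mono h3 ?_
        have h4 : 0 ≤ θ * wt r s a (inr π : O ⊕ P) := mul_nonneg hθ (ql9_wt hr _)
        exact (mul_le_mul_of_nonneg_right (hμ π) h4).trans_eq (one_mul _)
    refine (h1.add hr (ql9_wt hr) h2).mono (le_of_eq ?_)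
    ring
  · intro y k
    have e : (sml a BA * lift0 O BA μ bd + ql9_R a bA bB μ BA BB) y (inr k) =
        (sml a BA y ᵥ* lift0 O BA μ bd) (inr k) + ql9_R a bA bB μ BA BB y (inr k) := rfl
    rw [e]
    have h1 := N0_vecMul_le hr (sml a BA y) (β := lift0 O BA μ bd) (inr k)
      (fun z => ql9_hub hA.core hr hr' hK hbd z k)
    have h2 := mul_le_mul_of_nonneg_left (hA.core.small y).1 (by linarith : 0 ≤ K)
    have h3 : N0 r (ql9_R a bA bB μ BA BB y (inr k)) ≤ 2 * θ * wt r s a y := by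
      rcases y with o | π
      · change N0 r (0 : RZ) ≤ _
        rw [N0_zero]
        exact mul_nonneg (by linarith) (ql9_wt hr _)
      · refine (N0_sub_le hr _ _).trans ?_
        have h4 := (hA.per π k).2
        have h5 := (hB.per π k).2
        have h6 := N0_mul_le' hr (μ π) (BB (inl (inr π)) (inr k) - if k = 0 then bB π else 0)
        have h7 := mul_le_mul_of_nonneg_right (hμ π)
          (N0_nonneg hr (BB (inl (inr π)) (inr k) - if k = 0 then bB π else 0))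
        change _ ≤ 2 * θ * r ^ ((a π).1 + s)
        linarith
    refine (N0_add_le hr _ _).trans ?_
    linarith

theorem ql9_alg {A V W U : Type} [CommRing A] [Fintype U] {g L E D : Matrix V W A}
    {Q : Matrix V U A} {N : Matrix U W A} {c : V → A} {v : W → A}
    (h : g - L - D = E + Q * N + vecMulVec c v) :
    g + -Q * N + vecMulVec (-c) v = L + (E + D) := by
  rw [neg_vecMulVec, Matrix.neg_mul, sub_sub, sub_eq_iff_eq_add] at *
  rw [h]
  abel

/-- `lift_defect`, `neumann` with `Δ = g - lift0`, `η = θ`; the new lift is `lift0 + F`, and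
`F - Δ = (∑ A ^ k) (E - (1 - A) Δ)` (`geom_sum_mul_neg`). For `Rz` take `n = F y`, and the budget
`t ^ s` (ordinary states, `budO`) or `bd π`. -/
theorem lift {bA bB μ bd : P → RZ} {BA : Matrix (J (O' ⊕ P)) (J (O' ⊕ P)) RZ}
    {BB : Matrix (J (O ⊕ P)) (J (O ⊕ P)) RZ} (hA : Side2 r M s θ K Ω ar sm s0 a bA BA)
    (hB : Side2 r M s θ K Ω ar sm s0 a bB BB) (hr : 0 < r) (hr' : r ≤ 1 / 7) (hθ0 : 0 < θ)
    (hθ : θ ≤ 1 / 5) (hK : 1 ≤ K) (hM : 1 ≤ M) (hμ : ∀ π, Pos (μ π) ∧ N1 r (μ π) ≤ 1)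
    (hbd : ∀ π, PM ((a π).1 + s) (bd π) ∨ PM ((a π).1 + s + 1) (bd π))
    (hb : ∀ π, bA π - μ π * bB π = (1 - mono (a π)) * bd π) {g : Matrix (O' ⊕ P) (J (O ⊕ P)) RZ}
    (hg : Resp ar BA BB g) :
    ∃ (Q : Matrix (O' ⊕ P) (O ⊕ P) RZ) (c : O' ⊕ P → RZ),
      Lft r M s ((2 * K + 5) * θ) (2 * K + 1) a μ (g + Q * act (1 - BB) + vecMulVec c (hav ar)) := by
  have hr0 := hr.le
  have hr1 : r ≤ 1 := by linarith
  obtain ⟨E, Q, c, hE, ho, h1, h2⟩ := lift_defect hA hB hr0 hr1 hθ0.le hK (fun π => (hμ π).2) hbd hb hg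
  obtain ⟨n, F, hF, hFo, hF1, hF2⟩ := neumann hA.core hA.hub.pt.2 hr hr' hθ E (g - lift0 O BA μ bd)
    (by linarith) (by positivity) hθ0 ho h1 h2
  refine ⟨-((∑ k ∈ range n, BA.toBlocks₁₁ ^ k) * Q), -((∑ k ∈ range n, BA.toBlocks₁₁ ^ k) *ᵥ c), ?_⟩
  have e : g + -((∑ k ∈ range n, BA.toBlocks₁₁ ^ k) * Q) * act (1 - BB) +
      vecMulVec (-((∑ k ∈ range n, BA.toBlocks₁₁ ^ k) *ᵥ c)) (hav ar) = lift0 O BA μ bd + F := by
    have h3 := congrArg (fun Z => (∑ k ∈ range n, BA.toBlocks₁₁ ^ k) * Z) hE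
    beta_reduce at h3
    rw [← Matrix.mul_assoc, geom_sum_mul_neg, Matrix.sub_mul, Matrix.one_mul, Matrix.mul_add,
      Matrix.mul_add, mul_vecMulVec, ← Matrix.mul_assoc] at h3
    rw [hF]
    exact ql9_alg h3
  rw [e]
  have e2 : (lift0 O BA μ bd + F).submatrix id inl - sk O O' μ = F.submatrix id inl := by
    refine Matrix.ext fun y z => ?_
    change sk O O' μ y z + F y (inl z) - sk O O' μ y z = F y (inl z)
    ring
  have hKθ : 0 ≤ K * θ := by positivity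
  have hs : ∀ y, RowB r (wt r s a) (fun z => F y (inl z)) ((2 * K + 5) * θ * wt r s a y) :=
    fun y => (hF1 y).mono (mul_le_mul_of_nonneg_right (by linarith) (ql9_wt hr0 y))
  have hh : ∀ y k, N0 r (F y (inr k)) ≤ (2 * K + 5) * θ * wt r s a y :=
    fun y k => (hF2 y k).trans_eq (by ring)
  refine ⟨?_, ?_, ?_, ?_, ?_⟩
  · rw [e2]
    exact fun y z => hFo y (inl z)
  · rw [e2]
    exact hs
  · intro κ hκ y
    have hn : ∀ j, X ^ (dg a y + s + κ) ∣ F y j ∧
        N0 r (F y j) ≤ (2 * K + 5) * θ * r ^ (dg a y + s) := by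
      intro j
      refine ⟨(pow_dvd_pow X (by omega)).trans (hFo y j), ?_⟩
      rcases j with z | k
      · exact (N0_le_N1 hr0 _).trans ((hs y).2 z)
      · exact hh y k
    have key : ∀ (s' : ℕ) (m : RZ), (s' = dg a y + s ∨ s' = dg a y + s + 1) → PM s' m →
        (∀ j, Pos ((lift0 O BA μ bd y - Pi.single (inr 0) m : J (O ⊕ P) → RZ) j)) →
        Rz r (dg a y + s) κ ((2 * K + 5) * θ) (fun _ => True) ((lift0 O BA μ bd + F) y) :=
      fun s' m h3 h4 h5 => ⟨lift0 O BA μ bd y - Pi.single (inr 0) m, F y, s', m, h3, h4, h5,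
        by rw [sub_add_cancel]; rfl, hn, fun _ _ => trivial⟩
    rcases y with o | π
    · refine key s (X ^ s) (Or.inl (Nat.zero_add s).symm) (Or.inl rfl) ?_
      rintro (z | k)
      · rw [Pi.sub_apply, Pi.single_eq_of_ne inl_ne_inr, sub_zero]
        change Pos (sk O O' μ (inl o) z)
        rw [ql9_sk_l]
        exact Pos.zero
      · by_cases hk : k = 0
        · subst hk
          rw [Pi.sub_apply, Pi.single_eq_same]
          exact hA.budO o
        · rw [Pi.sub_apply, Pi.single_eq_of_ne (fun e => hk (inr_injective e)), sub_zero]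
          exact hA.hub.pt.1 (inl (inl o)) (inr k)
    · have hp : ∀ j, Pos ((lift0 O BA μ bd (inr π) - Pi.single (inr 0) (bd π) :
          J (O ⊕ P) → RZ) j) := by
        rintro (z | k)
        · rw [Pi.sub_apply, Pi.single_eq_of_ne inl_ne_inr, sub_zero]
          change Pos (sk O O' μ (inr π) z)
          rw [ql9_sk_r, Pi.single_apply]
          split_ifs
          · exact (hμ π).1
          · exact Pos.zero
        · rw [Pi.sub_apply]
          change Pos ((if k = 0 then bd π else 0) - _)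
          by_cases hk : k = 0
          · subst hk
            rw [Pi.single_eq_same, if_pos rfl, sub_self]
            exact Pos.zero
          · rw [Pi.single_eq_of_ne (fun e => hk (inr_injective e)), if_neg hk, sub_zero]
            exact Pos.zero
      rcases hbd π with h | h
      · exact key _ _ (Or.inl rfl) h hp
      · exact key _ _ (Or.inr rfl) h hp
  · intro y k
    rw [Matrix.add_apply]
    refine (N0_add_le hr0 _ _).trans ?_
    have h3 := ql9_hub (O := O) (μ := μ) hA.core hr0 hr1 hK hbd y k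
    have h4 := hh y k
    have h5 : (2 * K + 5) * θ ≤ K + 1 := by nlinarith
    have h6 := mul_le_mul_of_nonneg_right h5 (ql9_wt (s := s) (a := a) hr0 y)
    linarith
  · intro y k
    rw [Matrix.add_apply]
    refine dvd_add ?_ ((dvd_pow_self X (by omega)).trans (hFo y (inr k)))
    rcases y with o | π
    · exact hA.hub.pt.2 (inl (inl o)) (inr k)
    · change X ∣ if k = 0 then bd π else 0
      have := (hA.core.deg π).1
      split_ifs
      · rcases hbd π with h | h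
        · exact (dvd_pow_self X (by omega)).trans h.dvd
        · exact (dvd_pow_self X (by omega)).trans h.dvd
      · exact dvd_zero _

end Pool.Agent.Lib.MP_71aad1_an.SS
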