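import Pool.Agent.Lib.MP_71aad1_an.QS8

set_option autoImplicit false

namespace Pool.Agent.Lib.MP_71aad1_an.SS

open Polynomial Matrix Finset Sum

/-! Removing the obstructions in low degrees by rotating short orbits. -/

variable {ι : Type} [Fintype ι] [DecidableEq ι]

/-- By `el_induction`, `Z * (Z(0))⁻¹ ∈ Ed 1`, where `Z(0)` is the image under the ring map
`C.comp constantCoeff`; and `Z(0) = 1` here. -/
theorem mem_Ed_one (hT : Three ι) {Z : El ι RZ} (h : MCong (tI 1) (mat Z)) : Z ∈ Ed ι 1 := by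
  have hn := Ed_normal hT 1
  obtain ⟨ψ, hψ⟩ : ∃ ψ : RZ →+* RZ, ∀ p, ψ p = C (p.coeff 0) :=
    ⟨(C : Lam ℤ →+* RZ).comp constantCoeff, fun p => rfl⟩
  have key : ∀ g : El ι RZ, g * (mapE ψ g)⁻¹ ∈ Ed ι 1 := fun g => by
    induction g using el_induction with
    | h1 => simp
    | hs g a b p hg =>
      have h1 : (el ι RZ).x a b (p - ψ p) ∈ Ed ι 1 := by
        refine St.x_mem _ _ _ (mem_tI.2 ?_)
        rw [pow_one, hψ]
        exact X_dvd_sub_C
      have h2 := mul_mem (hn.conj_mem _ hg ((el ι RZ).x a b p)) h1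
      rw [sub_eq_add_neg, St.add, St.x_neg] at h2
      rw [map_mul, mapE_cpt ψ a b p]
      convert h2 using 1
      group
  have h1 : mapE ψ Z = 1 := by
    refine mat_inj ?_
    rw [mat_mapE, mat_one]
    ext i j : 2
    have h2 := mem_tI.1 (h i j)
    rw [pow_one, X_dvd_iff] at h2
    have h3 : mat Z i j = (mat Z - 1) i j + (1 : Matrix ι ι RZ) i j := by simp
    rw [map_apply, h3, map_add, hψ ((mat Z - 1) i j), h2, map_zero, zero_add, one_apply]
    split_ifs <;> simp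
  simpa [h1] using key Z

/-- The truncated geometric series of a loop. -/
noncomputable def geo (M : ℕ) (q : ℕ × Bool) : RZ := ∑ j ∈ range M, mono q ^ j

/-- The change of the obstruction caused by the rotation `i` of a loop `q`. -/
noncomputable def Lw (x y : ι) (M : ℕ) (q : ℕ × Bool) (i : Fin 3) : El ι RZ :=
  (el ι RZ).x x y (rn q i) * (el ι RZ).x y x (-rm i) *
    (el ι RZ).x x y ((mono q - rn q i) * geo M q) * (el ι RZ).x y x 1 *
    (el ι RZ).x x y (-mono q) * (el ι RZ).x y x ((rm i - 1) * geo M q)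

theorem qs9_dvd (q : ℕ × Bool) : X ^ q.1 ∣ mono q := Dvd.intro_left _ rfl

theorem qs9_geo {M : ℕ} (hM : 1 ≤ M) (q : ℕ × Bool) : X ^ q.1 ∣ geo M q - 1 := by
  obtain ⟨M, rfl⟩ := Nat.exists_eq_add_of_le' hM
  rw [geo, sum_range_succ', pow_zero, add_sub_cancel_right]
  exact dvd_sum fun j _ => (qs9_dvd q).trans (dvd_pow_self _ (by omega))

theorem qs9_succ (d : ℕ) (b : Bool) : mono (d + 1, b) = mono (d, b) * X := by
  simp only [mono, pow_succ, mul_assoc]

theorem qs9_eq {G : Type} [Group G] {N : Subgroup G} [N.Normal] {u v : G} :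
    u * v⁻¹ ∈ N ↔ QuotientGroup.mk' N u = QuotientGroup.mk' N v := by
  rw [← QuotientGroup.eq_one_iff, ← mul_inv_eq_one (a := QuotientGroup.mk' N u), ← map_inv,
    ← map_mul]
  rfl

theorem qs9_one {G : Type} [Group G] {N : Subgroup G} [N.Normal] {u : G} :
    u ∈ N ↔ QuotientGroup.mk' N u = 1 := (QuotientGroup.eq_one_iff u).symm

theorem qs9_word {A H H' : Type} [CommRing A] [Group H] [Group H'] (S : St ι A H) (f : H →* H')
    (x y : ι) (n t : A) {r₁ r₂ r₃ : A} (h₁ : f (S.x x y r₁) = 1) (h₂ : f (S.x x y r₂) = 1)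
    (h₃ : f (S.x y x r₃) = 1) :
    f (S.x x y n * S.x y x (-t) * S.x x y (-n + r₁) * S.x y x 1 * S.x x y r₂ *
      S.x y x (-1 + (t + r₃))) = f (S.y x y n (-t)) := by
  rw [St.add, St.add, St.add, St.y, neg_neg, St.x_neg _ y x 1]
  simp only [map_mul, map_inv, h₁, h₂, h₃]
  group

/-- Modulo `Ed (d + 1)` the word is `y x y n (-t)` with `n = mono (d, b)`; use `y_red_Ed` with
`c = -1` and `y_add_Ed`. -/
theorem Lw_t (T : Tri ι) {x y : ι} (h : x ≠ y) {M d : ℕ} (hM : 1 ≤ M) (b : Bool) :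
    Lw x y M (d + 1, b) 2 * (el ι RZ).y T.i0 T.i1 (mono (d, b)) X ∈ Ed ι (d + 1) := by
  have hn := Ed_normal T.three (d + 1)
  have hd : X ^ d ∣ mono (d, b) := qs9_dvd (d, b)
  have hd' : X ^ (d + 1) ∣ mono (d + 1, b) := qs9_dvd (d + 1, b)
  have hg : X ^ (d + 1) ∣ geo M (d + 1, b) - 1 := qs9_geo hM (d + 1, b)
  have hx : ∀ (u v : ι) (p : RZ), X ^ (d + 1) ∣ p →
      QuotientGroup.mk' (Ed ι (d + 1)) ((el ι RZ).x u v p) = 1 := fun u v p hp =>
    qs9_one.1 (St.x_mem _ _ _ (mem_tI.2 hp))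
  have e1 : (mono (d + 1, b) - mono (d, b)) * geo M (d + 1, b) = -mono (d, b) +
      (mono (d + 1, b) * geo M (d + 1, b) - mono (d, b) * (geo M (d + 1, b) - 1)) := by ring
  have e2 : ((X : RZ) - 1) * geo M (d + 1, b) = -1 + (X + (X - 1) * (geo M (d + 1, b) - 1)) := by
    ring
  have k1 := qs9_eq.1 (y_red_Ed T h hd (-1))
  have k2 := qs9_eq.1 (y_add_Ed T hd.neg_right hd)
  rw [neg_add_cancel, St.y_zero_left, map_one, map_mul] at k2
  rw [show (-1 : RZ) * X = -X by ring, show (-1 : RZ) * mono (d, b) = -mono (d, b) by ring] at k1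
  have e : Lw x y M (d + 1, b) 2 = (el ι RZ).x x y (mono (d, b)) * (el ι RZ).x y x (-X) *
      (el ι RZ).x x y ((mono (d + 1, b) - mono (d, b)) * geo M (d + 1, b)) * (el ι RZ).x y x 1 *
      (el ι RZ).x x y (-mono (d + 1, b)) * (el ι RZ).x y x ((X - 1) * geo M (d + 1, b)) := rfl
  rw [e1, e2] at e
  rw [qs9_one, map_mul, k2, ← k1, e, qs9_word _ _ _ _ _ _
    (hx x y _ (dvd_sub (hd'.mul_right _) (hg.mul_left _))) (hx x y _ hd'.neg_right)
    (hx y x _ (hg.mul_left _))]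

/-- The word equals `x (g a) * z q₁ (-g) * z (-a) (1 - g) * x' (q - (g - 1))`; add the symbols with
`Cl.mul`, `Cl.z`, `Cl.x` and adjust with `Cl.congr`. -/
theorem Lw_g (T : Tri ι) {x y : ι} (h : x ≠ y) {M d : ℕ} (hM : 1 ≤ M) (hd : 1 ≤ d) (b : Bool) :
    Cl T d (Lw x y M (d, b) 1) (gR * mono (d, b)) := by
  have hq : X ^ d ∣ mono (d, b) := qs9_dvd (d, b)
  have hg : X ^ d ∣ geo M (d, b) - 1 := qs9_geo hM (d, b)
  have hq' : X ^ d ∣ mono (d, b) - gR * mono (d, b) := dvd_sub hq (hq.mul_left _)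
  have c := Cl.mul hd (Cl.mul hd (Cl.mul hd (Cl.x T hd x y (hq.mul_left gR))
    (Cl.z T hd h (hq'.mul_right (geo M (d, b))) (-gR))) (Cl.z T hd h hq.neg_right (1 - gR)))
    (Cl.x T hd y x (hg.mul_left (gR - 1)))
  have e : Lw x y M (d, b) 1 = (el ι RZ).x x y (gR * mono (d, b)) *
      (el ι RZ).z x y ((mono (d, b) - gR * mono (d, b)) * geo M (d, b)) (-gR) *
      (el ι RZ).z x y (-mono (d, b)) (1 - gR) *
      (el ι RZ).x y x ((gR - 1) * (geo M (d, b) - 1)) := by
    show (el ι RZ).x x y (gR * mono (d, b)) * (el ι RZ).x y x (-gR) *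
      (el ι RZ).x x y ((mono (d, b) - gR * mono (d, b)) * geo M (d, b)) * (el ι RZ).x y x 1 *
      (el ι RZ).x x y (-mono (d, b)) * (el ι RZ).x y x ((gR - 1) * geo M (d, b)) = _
    have e1 : (gR - 1) * geo M (d, b) = -(1 - gR) + (gR - 1) * (geo M (d, b) - 1) := by ring
    have e2 : (el ι RZ).x y x 1 = (el ι RZ).x y x (- -gR) * (el ι RZ).x y x (1 - gR) := by
      rw [← St.add]
      congr 1
      ring
    rw [e1, e2, St.add, St.z, St.z]
    simp only [mul_assoc]
  rw [e]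
  refine Cl.congr hd c (dvd_zero _)
    (δ := (mono (d, b) - gR * mono (d, b)) * (geo M (d, b) - 1)) ?_ ?_
  · rw [pow_succ]
    exact mul_dvd_mul hq' ((dvd_pow_self X (by omega)).trans hg)
  · have i1 : ((-gR).coeff 0).im = -1 := by simp [gR, gL]
    have i2 : ((1 - gR).coeff 0).im = -1 := by simp [gR, gL, QuadraticAlgebra.im_one]
    rw [i1, i2]
    push_cast
    ring

/-- Induction on `d` from `1` to `M - 1` with the invariant: `RotOk a m`, `Zf m ∈ Ed d`,
`m π = 0` whenever `d < (a π).1`, and for each `b` some `π` with `a π = (d, b)` has `m π = 0`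
(if `d < M`). Step, for `d + 1 < M`: by `central`, modulo `Ed (d + 1)` an update multiplies `Zf m`
on the left by `Lw`. First remove the symbol `(n₁ + n₂ g) t ^ d` of `Cl.reduce` with the rotation
`1` (that is `g`) of at most one unused orbit of each type `(d, b)` (`Lw_g`, `Cl.congr`,
`Cl.read`, `St.sg_zero`); then remove the symbol of `Nd_mem'` with the rotation `2` of `n₁` orbits of type
`(d + 1, false)` and `n₂` orbits of type `(d + 1, true)` (`Lw_t`, `y_add_Ed`; induction on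
`n₁ + n₂`, keeping the number of unused orbits of each type above `n₁`, `n₂`). -/
theorem lowAbs (T : Tri ι) {P : Type} [Fintype P] [DecidableEq P] {M : ℕ} (hM : 2 ≤ M)
    (a : P → ℕ × Bool) (iX iY : P → ι) (hi : ∀ π, iX π ≠ iY π)
    (hc : ∀ p b, 1 ≤ p → p < M → p ≤ (univ.filter fun π => a π = (p, b)).card)
    (Zf : (P → Fin 3) → El ι RZ) (h1 : ∀ m, RotOk a m → MCong (tI M) (mat (Zf m)))
    (h2 : ∀ m π i, RotOk a m → m π = 0 → RotOk a (Function.update m π i) →
      Zf (Function.update m π i) * (Lw (iX π) (iY π) M (a π) i *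
        (((el ι RZ).x (iY π) (iX π) ((rm i - 1) * geo M (a π)))⁻¹ * Zf m *
          (el ι RZ).x (iY π) (iX π) ((rm i - 1) * geo M (a π))))⁻¹ ∈ Ed ι M) :
    ∃ m, RotOk a m ∧ Zf m ∈ Ed ι (M - 1) := by
  have hT := T.three
  have hcong : ∀ d, d ≤ M → ∀ m, RotOk a m → MCong (tI d) (mat (Zf m)) := fun d hd m hm =>
    (h1 m hm).mono fun p hp => mem_tI.2 ((pow_dvd_pow X hd).trans (mem_tI.1 hp))
  have upd : ∀ d, d ≤ M → ∀ m π i, RotOk a m → m π = 0 → RotOk a (Function.update m π i) →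
      Zf (Function.update m π i) * (Lw (iX π) (iY π) M (a π) i * Zf m)⁻¹ ∈ Ed ι d := by
    intro d hd m π i hm h0 hm'
    have hn := Ed_normal hT d
    have k1 := qs9_eq.1 (Ed_anti hd (h2 m π i hm h0 hm'))
    have k2 : _ ∈ Ed ι d := central hT (hcong d hd m hm)
      ((el ι RZ).x (iY π) (iX π) ((rm i - 1) * geo M (a π)))
    rw [mul_assoc (_ * _), ← _root_.mul_inv_rev, qs9_eq] at k2
    rw [qs9_eq, k1]
    simp only [map_mul, map_inv] at k2 ⊢
    rw [mul_assoc (_)⁻¹, k2]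
    group
  have stepA : ∀ d, 1 ≤ d → d + 1 ≤ M → ∀ (b : Bool) (n : ℕ), n ≤ 1 → ∀ m π (τ : RZ), RotOk a m →
      a π = (d, b) → m π = 0 → Cl T d (Zf m) (n * (gR * mono (d, b)) + τ) →
      ∃ m', RotOk a m' ∧ Cl T d (Zf m') τ ∧ ∀ π', a π' ≠ (d, b) → m' π' = m π' := by
    intro d hd hdM b n hn m π τ hm hπ h0 hcl
    rcases Nat.le_one_iff_eq_zero_or_eq_one.1 hn with rfl | rfl
    · exact ⟨m, hm, by simpa using hcl, fun _ _ => rfl⟩
    have hm' : RotOk a (Function.update m π 1) := fun π' h' => by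
      rcases eq_or_ne π' π with rfl | hne
      · simp at h'
      · rw [Function.update_of_ne hne] at h'
        exact hm π' h'
    refine ⟨_, hm', ?_, fun π' h' => Function.update_of_ne (fun e => h' (by rw [e, hπ])) _ _⟩
    have k1 := Cl.of_mem T (Ed_le_Nd d (upd (d + 1) hdM m π 1 hm h0 hm'))
    have k2 := Lw_g T (hi π) (M := M) (by omega) hd b
    rw [← hπ] at k2
    have k3 := Cl.mul hd k1 (Cl.mul hd k2 hcl)
    rw [inv_mul_cancel_right, hπ] at k3
    refine Cl.congr hd k3 (γ := -(gR * mono (d, b))) ((qs9_dvd (d, b)).mul_left _).neg_right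
      (dvd_zero _) ?_
    push_cast
    ring
  have stepB : ∀ d, 1 ≤ d → d + 1 ≤ M → ∀ (b : Bool) (p : RZ), X ^ d ∣ p → ∀ (n : ℕ) m, RotOk a m →
      Zf m * ((el ι RZ).y T.i0 T.i1 (n * mono (d, b) + p) X)⁻¹ ∈ Ed ι (d + 1) →
      n < (univ.filter fun π => a π = (d + 1, b) ∧ m π = 0).card →
      ∃ m', RotOk a m' ∧ Zf m' * ((el ι RZ).y T.i0 T.i1 p X)⁻¹ ∈ Ed ι (d + 1) ∧
        (∀ π, a π ≠ (d + 1, b) → m' π = m π) ∧ ∃ π, a π = (d + 1, b) ∧ m' π = 0 := by
    intro d hd hdM b p hp n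
    have hn := Ed_normal hT (d + 1)
    induction n with
    | zero =>
      intro m hm hZ hc
      obtain ⟨π, hπ⟩ := card_pos.1 hc
      exact ⟨m, hm, by simpa using hZ, fun _ _ => rfl, π, (mem_filter.1 hπ).2⟩
    | succ n ih =>
      intro m hm hZ hc
      obtain ⟨π, hπ⟩ := card_pos.1 ((Nat.zero_le _).trans_lt hc)
      obtain ⟨ha, h0⟩ := (mem_filter.1 hπ).2
      have hm' : RotOk a (Function.update m π 2) := fun π' h' => by
        rcases eq_or_ne π' π with rfl | hne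
        · rw [ha]
          show 2 ≤ d + 1
          omega
        · rw [Function.update_of_ne hne] at h'
          exact hm π' h'
      have k1 := qs9_eq.1 (upd (d + 1) hdM m π 2 hm h0 hm')
      have k2 := qs9_one.1 (Lw_t T (hi π) (M := M) (d := d) (by omega) b)
      have k3 := qs9_eq.1 (y_add_Ed T (qs9_dvd (d, b)) (p' := n * mono (d, b) + p)
        (dvd_add ((qs9_dvd (d, b)).mul_left _) hp))
      have e : ((n + 1 : ℕ) : RZ) * mono (d, b) + p = mono (d, b) + (n * mono (d, b) + p) := by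
        push_cast
        ring
      rw [qs9_eq, e, k3] at hZ
      obtain ⟨m', q1, q2, q3, q4⟩ := ih (Function.update m π 2) hm' (by
        rw [qs9_eq, k1, map_mul, hZ, map_mul, ← mul_assoc, ← map_mul, ha, k2, one_mul]) (by
        have k4 : (univ.filter fun π' => a π' = (d + 1, b) ∧ m π' = 0).erase π ⊆
            univ.filter fun π' => a π' = (d + 1, b) ∧ Function.update m π 2 π' = 0 := by
          intro π' h'
          obtain ⟨hne, h'⟩ := mem_erase.1 h'
          rw [mem_filter, Function.update_of_ne hne]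
          exact mem_filter.1 h'
        have k5 := card_le_card k4
        rw [card_erase_of_mem hπ] at k5
        omega)
      exact ⟨m', q1, q2, fun π' h' => (q3 π' h').trans
        (Function.update_of_ne (fun e => h' (by rw [e, ha])) _ _), q4⟩
  have main : ∀ d, 1 ≤ d → d < M → ∃ m, RotOk a m ∧ Zf m ∈ Ed ι d ∧
      (∀ π, d < (a π).1 → m π = 0) ∧ ∀ b, ∃ π, a π = (d, b) ∧ m π = 0 := by
    intro d hd
    induction d, hd using Nat.le_induction with
    | base =>
      intro hM'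
      have h0 : RotOk a 0 := fun π h => by simp at h
      refine ⟨0, h0, mem_Ed_one hT (hcong 1 hM'.le 0 h0), fun _ _ => rfl, fun b => ?_⟩
      obtain ⟨π, hπ⟩ := card_pos.1 (hc 1 b le_rfl hM')
      exact ⟨π, (mem_filter.1 hπ).2, rfl⟩
    | succ d hd ih =>
      intro hM'
      obtain ⟨m, hm, hZ, hz, hb⟩ := ih (by omega)
      obtain ⟨τ, hτ⟩ := Cl.of_Ed T hd hZ
      obtain ⟨n₁, n₂, hn₁, hn₂, hcl⟩ := Cl.reduce hd hτ
      obtain ⟨π₁, a₁, z₁⟩ := hb true
      obtain ⟨π₂, a₂, z₂⟩ := hb false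
      have e1 : ((n₁ : RZ) + (n₂ : RZ) * gR) * X ^ d =
          (n₁ : RZ) * (gR * mono (d, true)) + ((n₂ : RZ) * (gR * mono (d, false)) + 0) := by
        simp only [mono, if_true, Bool.false_eq_true, if_false]
        linear_combination (-(n₁ : RZ) * X ^ d) * gR_mul_gR
      rw [e1] at hcl
      obtain ⟨m₁, r₁, c₁, s₁⟩ := stepA d hd hM'.le true n₁ hn₁ m π₁ _ hm a₁ z₁ hcl
      obtain ⟨m₂, r₂, c₂, s₂⟩ := stepA d hd hM'.le false n₂ hn₂ m₁ π₂ _ r₁ a₂
        ((s₁ π₂ (by simp [a₂])).trans z₂) c₁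
      have hN := Cl.read hd c₂ (hcong (d + 1) hM'.le m₂ r₂)
      rw [St.sg_zero, inv_one, mul_one] at hN
      have hz₂ : ∀ π, d < (a π).1 → m₂ π = 0 := fun π hπ =>
        (s₂ π fun e => by simp [e] at hπ).trans ((s₁ π fun e => by simp [e] at hπ).trans (hz π hπ))
      obtain ⟨l₁, l₂, hl₁, hl₂, hy⟩ := Nd_mem' T hN
      have e2 : ((l₁ : RZ) + (l₂ : RZ) * gR) * X ^ d =
          (l₁ : RZ) * mono (d, false) + ((l₂ : RZ) * mono (d, true) + 0) := by
        simp only [mono, if_true, Bool.false_eq_true, if_false]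
        ring
      rw [e2] at hy
      have hcard : ∀ (b : Bool) (m' : P → Fin 3), (∀ π, a π = (d + 1, b) → m' π = 0) →
          d < (univ.filter fun π => a π = (d + 1, b) ∧ m' π = 0).card := fun b m' h' =>
        (hc (d + 1) b (by omega) hM').trans (card_le_card fun π hπ =>
          mem_filter.2 ⟨mem_univ _, (mem_filter.1 hπ).2, h' π (mem_filter.1 hπ).2⟩)
      obtain ⟨m₃, r₃, y₃, s₃, π₃, a₃, z₃⟩ := stepB d hd hM'.le false _
        (dvd_add ((qs9_dvd (d, true)).mul_left _) (dvd_zero _)) l₁ m₂ r₂ hy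
        (hl₁.trans_lt (hcard false m₂ fun π hπ => hz₂ π (by simp [hπ])))
      obtain ⟨m₄, r₄, y₄, s₄, π₄, a₄, z₄⟩ := stepB d hd hM'.le true 0 (dvd_zero _) l₂ m₃ r₃ y₃
        (hl₂.trans_lt (hcard true m₃ fun π hπ =>
          (s₃ π (by simp [hπ])).trans (hz₂ π (by simp [hπ]))))
      rw [St.y_zero_left, inv_one, mul_one] at y₄
      refine ⟨m₄, r₄, y₄, fun π hπ => (s₄ π fun e => by simp [e] at hπ).trans
        ((s₃ π fun e => by simp [e] at hπ).trans (hz₂ π (by omega))), fun b => ?_⟩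
      cases b
      · exact ⟨π₃, a₃, (s₄ π₃ (by simp [a₃])).trans z₃⟩
      · exact ⟨π₄, a₄, z₄⟩
  obtain ⟨m, hm, hZ, -⟩ := main (M - 1) (by omega) (by omega)
  exact ⟨m, hm, hZ⟩

end Pool.Agent.Lib.MP_71aad1_an.SS
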