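import Pool.Agent.Lib.MP_71aad1_an.QR6
import Pool.Agent.Lib.MP_71aad1_an.QL9
import Pool.Agent.Lib.MP_71aad1_an.QS9

set_option autoImplicit false

namespace Pool.Agent.Lib.MP_71aad1_an.SS

open Polynomial Matrix Finset Sum

/-! The elementary matrix between the two normal forms is close to the identity. -/

variable {O O' P W : Type} [Fintype O] [DecidableEq O] [Fintype O'] [DecidableEq O'] [Fintype P]
  [DecidableEq P] [Fintype W] [DecidableEq W] {r θ ε K K' Ω : ℝ} {M s : ℕ} {a : P → ℕ × Bool}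

theorem sk_mul_sk {O'' : Type} (μ ν : P → RZ) :
    sk O' O'' μ * sk O O' ν = sk O O'' fun π => μ π * ν π := by
  simp only [sk, fromBlocks_multiply, Matrix.mul_zero, Matrix.zero_mul, add_zero, zero_add,
    diagonal_mul_diagonal]
theorem sk_mono : sk O O (fun π => mono (a π)) = diagonal (lp a) := by
  rw [lp, ← fromBlocks_diagonal, diagonal_zero, sk]
theorem rm_mul_rn {q : ℕ × Bool} (hq : 1 ≤ q.1) (i : Fin 3) : rm i * rn q i = mono q := by
  fin_cases i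
  · exact one_mul _
  · change gR * (gR * mono q) = mono q
    rw [← mul_assoc, gR_mul_gR, one_mul]
  · change X * mono (q.1 - 1, q.2) = mono q
    obtain ⟨n, hn⟩ : ∃ n, q.1 = n + 1 := ⟨q.1 - 1, by omega⟩
    simp only [mono, hn, Nat.add_sub_cancel]
    ring
theorem rm_bd {r : ℝ} (hr : 0 ≤ r) (hr' : r ≤ 1 / 2) (i : Fin 3) : Pos (rm i) ∧ N1 r (rm i) ≤ 1 := by
  fin_cases i
  · exact ⟨Pos.one, N1_one.le⟩
  · exact ⟨Pos.gR, N1_gR.le⟩
  · refine ⟨Pos.X, ?_⟩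
    change N1 r (X : RZ) ≤ 1
    rw [N1_X]
    linarith
theorem qj3_mono_le {r : ℝ} (hr : 0 ≤ r) (hr' : r ≤ 1 / 2) (q : ℕ × Bool) : N1 r (mono q) ≤ 1 := by
  rw [(PM.mono q).um.N1]
  refine (N1_X_pow_anti hr hr' (Nat.zero_le _)).trans ?_
  rw [pow_zero, N1_one]
theorem rn_bd {r : ℝ} (hr : 0 ≤ r) (hr' : r ≤ 1 / 2) (q : ℕ × Bool) (i : Fin 3) :
    Pos (rn q i) ∧ N1 r (rn q i) ≤ 1 := by
  fin_cases i
  · exact ⟨Pos.mono q, qj3_mono_le hr hr' q⟩
  · exact ⟨Pos.gR.mul (Pos.mono q), (N1_gR_mul _).le.trans (qj3_mono_le hr hr' q)⟩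
  · exact ⟨Pos.mono _, qj3_mono_le hr hr' _⟩
theorem qj3_td {q : ℕ × Bool} (hq : 1 ≤ q.1) : X ∣ mono q :=
  (dvd_pow_self X (by omega)).trans (PM.mono q).dvd
theorem rn_td {q : ℕ × Bool} (hq : 1 ≤ q.1) {i : Fin 3} (h : i = 2 → 2 ≤ q.1) : X ∣ rn q i := by
  fin_cases i
  · exact qj3_td hq
  · exact (qj3_td hq).mul_left gR
  · have := h rfl
    exact qj3_td (q := (q.1 - 1, q.2)) (by dsimp only; omega)
theorem rm_pm (q : ℕ × Bool) (s : ℕ) (i : Fin 3) :
    PM (q.1 + s) (rm i * mono q * X ^ s) ∨ PM (q.1 + s + 1) (rm i * mono q * X ^ s) := by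
  have h : PM (q.1 + s) (mono q * X ^ s) := (PM.mono q).mul (Or.inl rfl)
  rw [mul_assoc]
  fin_cases i
  · refine Or.inl ?_
    change PM _ (1 * _)
    rwa [one_mul]
  · have h1 : PM 0 gR := Or.inr (by rw [pow_zero, mul_one])
    have h2 := h1.mul h
    rw [zero_add] at h2
    exact Or.inl h2
  · have h1 : PM 1 X := Or.inl (pow_one _).symm
    have h2 := h1.mul h
    rw [add_comm] at h2
    exact Or.inr h2
theorem qj3_pos {p q t : RZ} (hp : Pos p) (hq : Pos q) (ht : Pos t) :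
    Pos (p * (q + q + (t + t))) := hp.mul ((hq.add hq).add (ht.add ht))
theorem bud_X (q : ℕ × Bool) (s : ℕ) : Pos (mono q * bud s - mono q * X ^ s - mono q * X ^ s) := by
  convert qj3_pos (Pos.mono q) (Pos.gR.mul (Pos.X_pow s)) (Pos.uR.mul (Pos.X_pow (s + 1))) using 1
  rw [bud, uR_eq]
  ring
theorem bud_Y (q : ℕ × Bool) (s : ℕ) (i : Fin 3) :
    Pos (mono q * bud s - 2 * (rm i * mono q * X ^ s) - 0) := by
  fin_cases i
  · change Pos (mono q * bud s - 2 * (1 * mono q * X ^ s) - 0)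
    convert qj3_pos (Pos.mono q) (Pos.gR.mul (Pos.X_pow s)) (Pos.uR.mul (Pos.X_pow (s + 1))) using 1
    rw [bud, uR_eq]
    ring
  · change Pos (mono q * bud s - 2 * (gR * mono q * X ^ s) - 0)
    convert qj3_pos (Pos.mono q) (Pos.X_pow s) (Pos.uR.mul (Pos.X_pow (s + 1))) using 1
    rw [bud, uR_eq]
    ring
  · change Pos (mono q * bud s - 2 * (X * mono q * X ^ s) - 0)
    convert qj3_pos (Pos.mono q) (Pos.uR.mul (Pos.X_pow s)) (Pos.gR.mul (Pos.X_pow (s + 1))) using 1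
    rw [bud, uR_eq]
    ring

/-- The algebraic identity behind the estimate. With `U = mat (Xp n * Xm (-m))`, `skel_A` gives
`(mat Z - 1) * A1 α g = U * (A2 β f - A2 (1 - m n) n) - (A1 α g - A1 (1 - n m) m)`; read off the three
column blocks. -/
theorem Z_blocks {VX VY : Type} [Fintype VX] [DecidableEq VX] [Fintype VY] [DecidableEq VY]
    {m γ : Matrix VY VX RZ} {n φ : Matrix VX VY RZ} {SX : Matrix VX VX RZ} {SY : Matrix VY VY RZ}
    {N : El (VX ⊕ VY ⊕ W) RZ}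
    (h : mat N * A1 W (1 - n * m - SX) (m + γ) = A2 W (1 - m * n - SY) (n + φ)) :
    ∃ (ZXX : Matrix VX VX RZ) (ZYX : Matrix VY VX RZ) (ZWX : Matrix W VX RZ),
      mat (Xp W n * Xm W (-m) * N) - 1 =
        fromBlocks ZXX (fromCols (-((1 - n * m) * φ) - n * SY) 0) (fromRows ZYX ZWX)
          (fromBlocks (m * φ - SY) 0 0 0) ∧
      ZXX * (1 - n * m - SX) = SX + (-((1 - n * m) * φ) - n * SY) * (m + γ) ∧
      ZYX * (1 - n * m - SX) = γ + (m * φ - SY) * (m + γ) ∧ ZWX * (1 - n * m - SX) = 0 := by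
  have hU : mat (Xp W n * Xm W (-m)) * A2 W (1 - m * n - SY) (n + φ) =
      fromBlocks (1 - n * m) (fromCols (-((1 - n * m) * φ) - n * SY) 0) (fromRows (-m) 0)
        (fromBlocks (1 + (m * φ - SY)) 0 0 1) := by
    have h1 : mat (Xp W n * Xm W (-m)) = fromBlocks (1 - n * m) (fromCols n (0 : Matrix VX W RZ))
        (fromRows (-m) (0 : Matrix W VX RZ)) 1 := by
      rw [mat_mul, mat_Xp, mat_Xm, neg_neg]
      simp only [A1, A2, fromBlocks_multiply, Matrix.mul_zero, add_zero,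
        Matrix.one_mul, Matrix.mul_one, fromCols_mul_fromRows, Matrix.mul_neg,
        neg_neg, zero_add, fromBlocks_one, ← sub_eq_add_neg]
    have e1 : (1 - n * m) * -(n + φ) + n * (1 - m * n - SY) = -((1 - n * m) * φ) - n * SY := by
      simp only [Matrix.mul_neg, Matrix.mul_add, Matrix.mul_sub, Matrix.sub_mul, Matrix.one_mul,
        Matrix.mul_one, Matrix.mul_assoc]
      abel
    have e2 : -m * -(n + φ) + (1 - m * n - SY) = 1 + (m * φ - SY) := by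
      simp only [Matrix.mul_neg, Matrix.neg_mul, Matrix.mul_add]
      abel
    rw [h1, A2, fromBlocks_multiply, fromRows_mul_fromCols, mul_fromCols, fromCols_mul_fromBlocks]
    simp only [Matrix.mul_zero, Matrix.zero_mul, add_zero, Matrix.one_mul, Matrix.mul_one,
      fromBlocks_add, zero_add]
    rw [e2, ← e1]
    congr 1
    refine Matrix.ext fun x j => ?_
    rcases j with y | w <;> simp only [Matrix.add_apply, fromCols_apply_inl, fromCols_apply_inr,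
      Matrix.zero_apply, add_zero]
  rw [← h, ← Matrix.mul_assoc, ← mat_mul] at hU
  generalize mat (Xp W n * Xm W (-m) * N) = T at hU ⊢
  obtain ⟨T₁, T₂, T₃, T₄, rfl⟩ : ∃ T₁ T₂ T₃ T₄, T = fromBlocks T₁ T₂ T₃ T₄ :=
    ⟨_, _, _, _, (fromBlocks_toBlocks T).symm⟩
  obtain ⟨ZY, ZW, rfl⟩ : ∃ ZY ZW, T₃ = fromRows ZY ZW := ⟨_, _, (fromRows_toRows T₃).symm⟩
  simp only [A1, fromBlocks_multiply, Matrix.mul_zero, zero_add, Matrix.mul_one] at hU
  obtain ⟨h1, rfl, h3, rfl⟩ := fromBlocks_inj.1 hU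
  rw [fromCols_mul_fromRows, Matrix.mul_zero, add_zero] at h1
  rw [fromRows_mul, fromBlocks_mul_fromRows] at h3
  simp only [Matrix.mul_zero, Matrix.zero_mul, add_zero] at h3
  refine ⟨T₁ - 1, ZY, ZW, ?_, ?_, ?_, ?_⟩
  · rw [← fromBlocks_one (l := VX), ← fromBlocks_one (l := VY)]
    refine Matrix.ext fun i j => ?_
    rcases i with x | y | w <;> rcases j with x' | y' | w' <;>
      simp only [Matrix.sub_apply, Matrix.add_apply, fromBlocks_apply₁₁, fromBlocks_apply₁₂,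
        fromBlocks_apply₂₁, fromBlocks_apply₂₂, Matrix.zero_apply, sub_zero, sub_self,
        add_sub_cancel_left]
  · rw [Matrix.sub_mul, eq_sub_of_add_eq h1, Matrix.mul_neg, Matrix.one_mul]
    abel
  · have h4 : ZY * (1 - n * m - SX) + (1 + (m * φ - SY)) * -(m + γ) = -m :=
      Matrix.ext fun y x => congrFun (congrFun h3 (inl y)) x
    rw [eq_sub_of_add_eq h4, Matrix.mul_neg, Matrix.add_mul, Matrix.one_mul]
    abel
  · have h4 : ZW * (1 - n * m - SX) + 0 = 0 :=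
      Matrix.ext fun y x => congrFun (congrFun h3 (inr y)) x
    rwa [add_zero] at h4

omit [Fintype O] [DecidableEq O] [Fintype O'] [DecidableEq O'] [Fintype P] [DecidableEq P] in
theorem qj3_wt (hr : 0 ≤ r) (x : O ⊕ P) : 0 ≤ wt r s a x := pow_nonneg hr _

omit [DecidableEq O] [DecidableEq O'] in
theorem qj3_vecMul_sk (hr : 0 ≤ r) {μ : P → RZ} (hμ : ∀ π, N1 r (μ π) ≤ 1) {v : O' ⊕ P → RZ}
    {e : ℝ} (hv : RowB r (wt r s a) v e) : RowB r (wt r s a) (v ᵥ* sk O O' μ) e := by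
  have he := hv.nonneg hr (qj3_wt hr)
  have h1 : ∀ o, (v ᵥ* sk O O' μ) (inl o) = 0 := fun o => by
    simp [sk, vecMul, dotProduct, Fintype.sum_sum_type]
  have h2 : ∀ π, (v ᵥ* sk O O' μ) (inr π) = v (inr π) * μ π := fun π => by
    simp [sk, vecMul, dotProduct, Fintype.sum_sum_type, diagonal_apply]
  have h3 : ∀ π, N1 r ((v ᵥ* sk O O' μ) (inr π)) ≤ N1 r (v (inr π)) := fun π => by
    rw [h2]
    exact (N1_mul_le hr _ _).trans (mul_le_of_le_one_right (N1_nonneg hr _) (hμ π))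
  refine ⟨le_trans ?_ hv.1, ?_⟩
  · simp only [Sw, Fintype.sum_sum_type, h1, N1_zero, zero_mul, Finset.sum_const_zero]
    refine add_le_add (Finset.sum_nonneg fun o _ => mul_nonneg (N1_nonneg hr _) (qj3_wt hr _))
      (Finset.sum_le_sum fun π _ => ?_)
    exact mul_le_mul_of_nonneg_right (h3 π) (qj3_wt hr (inr π : O ⊕ P))
  · rintro (o | π)
    · rwa [h1, N1_zero]
    · exact (h3 π).trans (hv.2 _)

omit [DecidableEq O] [DecidableEq O'] [Fintype O'] in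
theorem qj3_sk_row {V : Type} (μ : P → RZ) (S : Matrix (O ⊕ P) V RZ) (y : O' ⊕ P) :
    (sk O O' μ * S) y = Sum.elim (fun _ => 0) (fun π => μ π • S (inr π)) y := by
  funext z
  rcases y with o | π
  · simp [sk, mul_apply, Fintype.sum_sum_type]
  · simp [sk, mul_apply, Fintype.sum_sum_type, diagonal_apply]

omit [DecidableEq O] [DecidableEq O'] [Fintype O'] in
theorem qj3_sk_rowB {V : Type} [Fintype V] (hr : 0 ≤ r) {w : V → ℝ} (hw : ∀ z, 0 ≤ w z) {μ : P → RZ}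
    (hμ : ∀ π, N1 r (μ π) ≤ 1) {S : Matrix (O ⊕ P) V RZ} (hε : 0 ≤ ε)
    (hS : ∀ x, RowB r w (S x) (ε * wt r s a x)) (y : O' ⊕ P) :
    RowB r w ((sk O O' μ * S) y) (ε * wt r s a y) := by
  rw [qj3_sk_row]
  rcases y with o | π
  · exact RowB.zero (mul_nonneg hε (qj3_wt hr _))
  · exact ((hS (inr π)).smul hr hw (μ π)).mono
      (mul_le_of_le_one_left (mul_nonneg hε (qj3_wt hr _)) (hμ π))

omit [DecidableEq O] [DecidableEq O'] [Fintype O'] in
theorem qj3_sk_dvd {V : Type} (μ : P → RZ) {S : Matrix (O ⊕ P) V RZ}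
    (hS : ∀ x z, X ^ (dg a x + M) ∣ S x z) (y : O' ⊕ P) (z : V) :
    X ^ (dg a y + M) ∣ (sk O O' μ * S) y z := by
  rw [qj3_sk_row]
  rcases y with o | π
  · exact dvd_zero _
  · exact (hS (inr π) z).mul_left (μ π)

omit [DecidableEq W] in
theorem qj3_glue {VX VY : Type} [Fintype VX] [Fintype VY] (hr : 0 ≤ r) {w : VX ⊕ VY ⊕ W → ℝ}
    (hw : ∀ z, 0 ≤ w z) {v : VX ⊕ VY ⊕ W → RZ} {e₁ e₂ : ℝ}
    (h₁ : RowB r (fun x => w (inl x)) (fun x => v (inl x)) e₁)
    (h₂ : RowB r (fun y => w (inr (inl y))) (fun y => v (inr (inl y))) e₂)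
    (h₃ : ∀ u, v (inr (inr u)) = 0) : RowB r w v (e₁ + e₂) := by
  have p₁ := h₁.nonneg hr fun x => hw _
  have p₂ := h₂.nonneg hr fun x => hw _
  refine ⟨?_, ?_⟩
  · have := add_le_add h₁.1 h₂.1
    simpa only [Sw, Fintype.sum_sum_type, h₃, N1_zero, zero_mul, Finset.sum_const_zero,
      add_zero] using this
  · rintro (x | y | u)
    · exact (h₁.2 x).trans (le_add_of_nonneg_right p₂)
    · exact (h₂.2 y).trans (le_add_of_nonneg_left p₁)
    · rw [h₃, N1_zero]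
      exact add_nonneg p₁ p₂

omit [DecidableEq O] [DecidableEq O'] [DecidableEq P] in
theorem qj3_row (hr : 0 ≤ r) (e₃ : Fin 3 ↪ W) {u : O ⊕ P → RZ} {v : O' ⊕ P → RZ} {e₁ e₂ : ℝ}
    (h₁ : RowB r (wt r s a) u e₁) (h₂ : RowB r (wt r s a) v e₂) :
    RowB r (fun i => r ^ sjF O O' s a e₃ (some i)) (Sum.elim u (Sum.elim v fun _ => 0)) (e₁ + e₂) :=
  qj3_glue (w := fun i => r ^ sjF O O' s a e₃ (some i))
    (v := Sum.elim u (Sum.elim v fun _ => 0)) hr (fun _ => pow_nonneg hr _) h₁ h₂ fun _ => rfl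

theorem qj3_fin (hr : 0 ≤ r) (hε0 : 0 ≤ ε) (e₃ : Fin 3 ↪ W) {κ : ℕ} (hκ : s + κ ≤ M)
    {T : Matrix ((O ⊕ P) ⊕ (O' ⊕ P) ⊕ W) ((O ⊕ P) ⊕ (O' ⊕ P) ⊕ W) RZ}
    {ZX : Matrix (O ⊕ P) (O ⊕ P) RZ} {ZY : Matrix (O' ⊕ P) (O ⊕ P) RZ} {ZW : Matrix W (O ⊕ P) RZ}
    {C : Matrix (O ⊕ P) (O' ⊕ P) RZ} {D : Matrix (O' ⊕ P) (O' ⊕ P) RZ}
    (hZ : T - 1 = fromBlocks ZX (fromCols C 0) (fromRows ZY ZW) (fromBlocks D 0 0 0))
    (kX : ∀ x, (∀ z, X ^ (dg a x + M) ∣ ZX x z) ∧ RowB r (wt r s a) (ZX x) (14 * ε * wt r s a x))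
    (kY : ∀ y, (∀ z, X ^ (dg a y + M) ∣ ZY y z) ∧ RowB r (wt r s a) (ZY y) (14 * ε * wt r s a y))
    (kW : ∀ u k, (∀ z, X ^ k ∣ ZW u z) ∧ RowB r (wt r s a) (ZW u) 0)
    (Co : ∀ x z, X ^ (dg a x + M) ∣ C x z)
    (Cs : ∀ x, RowB r (wt r s a) (C x) (3 * ε * wt r s a x))
    (Do : ∀ y z, X ^ (dg a y + M) ∣ D y z)
    (Ds : ∀ y, RowB r (wt r s a) (D y) (3 * ε * wt r s a y)) :
    InN r (fun i => r ^ sjF O O' s a e₃ (some i)) (fun i => sjF O O' s a e₃ (some i) + κ) (17 * ε)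
      T := by
  intro i
  rw [hZ]
  rcases i with x | y | u
  · have e : fromBlocks ZX (fromCols C (0 : Matrix _ W RZ)) (fromRows ZY ZW) (fromBlocks D 0 0 0)
        (inl x) = Sum.elim (ZX x) (Sum.elim (C x) fun _ => 0) := by
      funext z
      rcases z with z | z | z <;> rfl
    have hk : X ^ (dg a x + s + κ) ∣ (X : RZ) ^ (dg a x + M) := pow_dvd_pow _ (by omega)
    rw [e]
    refine ⟨?_, RowB.mono (qj3_row hr e₃ (kX x).2 (Cs x)) ?_⟩
    · rintro (z | z | z)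
      · exact hk.trans ((kX x).1 z)
      · exact hk.trans (Co x z)
      · exact dvd_zero _
    · change _ ≤ 17 * ε * wt r s a x
      linarith
  · have e : fromBlocks ZX (fromCols C (0 : Matrix _ W RZ)) (fromRows ZY ZW) (fromBlocks D 0 0 0)
        (inr (inl y)) = Sum.elim (ZY y) (Sum.elim (D y) fun _ => 0) := by
      funext z
      rcases z with z | z | z <;> rfl
    have hk : X ^ (dg a y + s + κ) ∣ (X : RZ) ^ (dg a y + M) := pow_dvd_pow _ (by omega)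
    rw [e]
    refine ⟨?_, RowB.mono (qj3_row hr e₃ (kY y).2 (Ds y)) ?_⟩
    · rintro (z | z | z)
      · exact hk.trans ((kY y).1 z)
      · exact hk.trans (Do y z)
      · exact dvd_zero _
    · change _ ≤ 17 * ε * wt r s a y
      linarith
  · have e : fromBlocks ZX (fromCols C (0 : Matrix _ W RZ)) (fromRows ZY ZW) (fromBlocks D 0 0 0)
        (inr (inr u)) = Sum.elim (ZW u) (Sum.elim (0 : O' ⊕ P → RZ) fun _ => 0) := by
      funext z
      rcases z with z | z | z <;> rfl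
    rw [e]
    refine ⟨?_, RowB.mono (qj3_row hr e₃ (kW u 0).2 (RowB.zero le_rfl)) ?_⟩
    · rintro (z | z | z)
      · exact (kW u _).1 z
      · exact dvd_zero _
      · exact dvd_zero _
    · rw [add_zero]
      exact mul_nonneg (by linarith) (pow_nonneg hr _)

/-- `Z_blocks` with `m = sk μ`, `n = sk ν`, `SX = sml a BX`, `SY = sml a BY`. The rows of the `VY`
columns satisfy `RowB ≤ 3 ε wt`; the right hand sides of the two equations satisfy
`RowB ≤ (1 + 3 + 3) ε wt` (multiplication by `sk μ` on the right does not increase `RowB`);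
`Core.solve` gives `14 ε wt` (and `0` for the rows of `ZWX`), and `dvd_of_vecMul_one_sub` gives the orders. -/
theorem Zest (hr : 0 ≤ r) (hr' : r ≤ 1 / 7) (hθ0 : 0 ≤ θ) (hθ : θ ≤ 1 / 5) (hθε : θ ≤ ε) (hε : ε ≤ 1)
    {BX : Matrix (J (O ⊕ P)) (J (O ⊕ P)) RZ} {BY : Matrix (J (O' ⊕ P)) (J (O' ⊕ P)) RZ}
    (hX : Core r M s θ K Ω a BX) (hY : Core r M s θ K Ω a BY) (hT : TD BX) {μ ν : P → RZ}
    (hμ : ∀ π, N1 r (μ π) ≤ 1) (hν : ∀ π, N1 r (ν π) ≤ 1) (hμν : ∀ π, μ π * ν π = mono (a π))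
    {g : Matrix (O' ⊕ P) (J (O ⊕ P)) RZ} {f : Matrix (O ⊕ P) (J (O' ⊕ P)) RZ}
    (hg : Lft r M s ε K' a μ g) (hf : Lft r M s ε K' a ν f) {N : El ((O ⊕ P) ⊕ (O' ⊕ P) ⊕ W) RZ}
    (h : mat N * A1 W (1 - BX).toBlocks₁₁ (g.submatrix id inl) =
      A2 W (1 - BY).toBlocks₁₁ (f.submatrix id inl))
    (e₃ : Fin 3 ↪ W) {κ : ℕ} (hκ : s + κ ≤ M) :
    InN r (fun i => r ^ sjF O O' s a e₃ (some i)) (fun i => sjF O O' s a e₃ (some i) + κ) (17 * ε)
      (mat (Xp W (sk O' O ν) * Xm W (-sk O O' μ) * N)) := by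
  have hε0 : 0 ≤ ε := hθ0.trans hθε
  have hnm : sk O' O ν * sk O O' μ = diagonal (lp a) := by
    rw [sk_mul_sk, ← sk_mono]
    exact congrArg _ (funext fun π => by rw [mul_comm, hμν])
  have hmn : sk O O' μ * sk O' O ν = diagonal (lp a) := by
    rw [sk_mul_sk, ← sk_mono]
    exact congrArg _ (funext hμν)
  have eX : 1 - sk O' O ν * sk O O' μ - sml a BX = 1 - BX.toBlocks₁₁ := by
    rw [hnm, sml]
    abel
  have eY : 1 - sk O O' μ * sk O' O ν - sml a BY = 1 - BY.toBlocks₁₁ := by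
    rw [hmn, sml]
    abel
  have eX' : (1 - BX).toBlocks₁₁ = 1 - BX.toBlocks₁₁ :=
    Matrix.ext fun i j => by
      simp only [toBlocks₁₁, Matrix.sub_apply, of_apply, one_apply, inl.injEq]
  have eY' : (1 - BY).toBlocks₁₁ = 1 - BY.toBlocks₁₁ :=
    Matrix.ext fun i j => by
      simp only [toBlocks₁₁, Matrix.sub_apply, of_apply, one_apply, inl.injEq]
  have go := hg.ord
  have gs := hg.small
  have fo := hf.ord
  have fs := hf.small
  rw [eX', eY', ← eX, ← eY, ← add_sub_cancel (sk O O' μ) (g.submatrix id inl),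
    ← add_sub_cancel (sk O' O ν) (f.submatrix id inl)] at h
  generalize g.submatrix id inl - sk O O' μ = γ at h go gs
  generalize f.submatrix id inl - sk O' O ν = φ at h fo fs
  obtain ⟨ZX, ZY, ZW, hZ, h1, h2, h3⟩ := Z_blocks h
  rw [eX] at h1 h2 h3
  have hT' : TD BX.toBlocks₁₁ := fun i j => hT _ _
  have wX : ∀ x : O ⊕ P, 0 ≤ wt r s a x := qj3_wt hr
  have wY : ∀ y : O' ⊕ P, 0 ≤ wt r s a y := qj3_wt hr
  have sX : ∀ x, RowB r (wt r s a) (sml a BX x) (ε * wt r s a x) := fun x =>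
    (hX.small x).mono (mul_le_mul_of_nonneg_right hθε (wX x))
  have sY : ∀ y, RowB r (wt r s a) (sml a BY y) (ε * wt r s a y) := fun y =>
    (hY.small y).mono (mul_le_mul_of_nonneg_right hθε (wY y))
  have hd : ∀ x, ((1 - sk O' O ν * sk O O' μ) * φ : Matrix (O ⊕ P) (O' ⊕ P) RZ) x =
      (1 - lp a x) • φ x := fun x => by
    rw [hnm, ← diagonal_one, diagonal_sub]
    funext z
    rw [diagonal_mul]
    rfl
  have hlp : ∀ x : O ⊕ P, N1 r (1 - lp a x) ≤ 2 := fun x => by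
    refine (N1_sub_le hr _ _).trans ?_
    rw [N1_one]
    rcases x with o | π
    · change 1 + N1 r (0 : RZ) ≤ 2
      rw [N1_zero]
      norm_num
    · have := qj3_mono_le hr (by linarith) (a π)
      change 1 + N1 r (mono (a π)) ≤ 2
      linarith
  obtain ⟨C, hC⟩ : ∃ C, C = -((1 - sk O' O ν * sk O O' μ) * φ) - sk O' O ν * sml a BY := ⟨_, rfl⟩
  obtain ⟨D, hD⟩ : ∃ D, D = sk O O' μ * φ - sml a BY := ⟨_, rfl⟩
  have Cs : ∀ x, RowB r (wt r s a) (C x) (3 * ε * wt r s a x) := fun x => by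
    have t1 := ((fs x).smul hr wY (1 - lp a x)).mono
      (mul_le_mul_of_nonneg_right (hlp x) (mul_nonneg hε0 (wX x)))
    rw [← hd] at t1
    have t2 := t1.neg.sub hr wY (qj3_sk_rowB hr wY hν hε0 sY x)
    rw [hC]
    refine RowB.mono t2 ?_
    linarith
  have Co : ∀ x z, X ^ (dg a x + M) ∣ C x z := fun x z => by
    rw [hC, Matrix.sub_apply, Matrix.neg_apply, hd]
    exact dvd_sub (((fo x z).mul_left _).neg_right) (qj3_sk_dvd ν hY.ord x z)
  have Ds : ∀ y, RowB r (wt r s a) (D y) (3 * ε * wt r s a y) := fun y => by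
    have t2 := (qj3_sk_rowB hr wY hμ hε0 fs y).sub hr wY (sY y)
    rw [hD]
    refine RowB.mono t2 ?_
    linarith [mul_nonneg hε0 (wY y)]
  have Do : ∀ y z, X ^ (dg a y + M) ∣ D y z := fun y z => by
    rw [hD, Matrix.sub_apply]
    exact dvd_sub (qj3_sk_dvd μ fo y z) (hY.ord y z)
  rw [← hC] at hZ h1
  rw [← hD] at hZ h2
  have key : ∀ (n u : O ⊕ P → RZ) (v : O' ⊕ P → RZ) (ω : ℝ) (k : ℕ), 0 ≤ ω →
      n ᵥ* (1 - BX.toBlocks₁₁) = u + v ᵥ* (sk O O' μ + γ) → RowB r (wt r s a) u (ε * ω) →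
      RowB r (wt r s a) v (3 * ε * ω) → (∀ z, X ^ k ∣ u z) → (∀ z, X ^ k ∣ v z) →
      (∀ z, X ^ k ∣ n z) ∧ RowB r (wt r s a) n (14 * ε * ω) := by
    intro n u v ω k hω e hu hv ou ov
    refine ⟨dvd_of_vecMul_one_sub hT' fun z => ?_, ?_⟩
    · rw [e]
      exact dvd_add (ou z) (dvd_vecMul ov _ z)
    · rw [vecMul_add] at e
      have t := hu.add hr wX ((qj3_vecMul_sk hr hμ hv).add hr wX (RowB.vecMul hr wX hε0 hv.1 gs))
      refine (hX.solve hr hr' hθ0 hθ e t).mono ?_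
      nlinarith [mul_nonneg hε0 hω, mul_nonneg (mul_nonneg hε0 hω) (sub_nonneg.2 hε)]
  refine qj3_fin hr hε0 e₃ hκ hZ (fun x => ?_) (fun y => ?_) (fun u k => ?_) Co Cs Do Ds
  · exact key (ZX x) (sml a BX x) (C x) (wt r s a x) (dg a x + M) (wX x)
      (congrFun h1 x) (sX x) (Cs x) (hX.ord x) (Co x)
  · exact key (ZY y) (γ y) (D y) (wt r s a y) (dg a y + M) (wY y)
      (congrFun h2 y) (gs y) (Ds y) (go y) (Do y)
  · have := key (ZW u) 0 0 0 k le_rfl
      ((congrFun h3 u).trans (by rw [zero_vecMul, add_zero]; rfl)) (RowB.zero (by simp))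
      (RowB.zero (by simp)) (fun _ => dvd_zero _) fun _ => dvd_zero _
    rwa [mul_zero] at this

end Pool.Agent.Lib.MP_71aad1_an.SS
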