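import Pool.Agent.Lib.MP_71aad1_an.QJ1

set_option autoImplicit false

namespace Pool.Agent.Lib.MP_71aad1_an.SS

open Polynomial Matrix Finset Sum

/-! The three parts of the path through joint systems. -/

variable {V V' : Type} [Fintype V] [DecidableEq V] [Fintype V'] [DecidableEq V'] {ar : RZ}

theorem qj4_same {ρ : Matrix V (J V) RZ} {H : Fin 3 → J V → RZ} (hH : HubR ar H) {i i' : Fin 3}
    {B B' : Matrix (J V) (J V) RZ} (h : JSys ρ H i B) (h' : JSys ρ H i' B') {F : V → Prop}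
    (hF : Cst F ρ) : Sim B B' :=
  JS_rows hH h h' hF hF (fun _ => True) 0 (fun _ _ e => absurd rfl e) 0 (by
    rw [add_zero, Matrix.one_mul, zero_vecMulVec, add_zero])

open Classical in
/-- Let `H k = extv e (B (inr k))`, `1_X` the indicator vector of the range of `e` and `1_N` of its
complement among the active states. Apply `PConst` (with `H 2`, `i = 2`, degree `s0`) to
`H 1 - t ^ sm 1_X - t ^ σ ∑_{i ∉ range} ρ i`, which is in `Rz` with the budget `g t ^ s0` (`ent`,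
`bud1`); add `t ^ sm 1_X + t ^ σ 1_N` to the resulting positive vector to get `H₁`. Then
`H₁ - H 1 = t ^ σ 1_N ᵥ* MA ρ + q₁ (H 2 - e₂) - q₂ hav`. Use `JS_start`, `JS_hen` (`i = 2`, `k = 1`)
and `JS_rows` with `C = 0`. -/
theorem JT_start {r θ K₂ : ℝ} {κ sm s0 σ : ℕ} (hr : 0 ≤ r) (hP : PConst r ar sm κ θ) (e : V ↪ V')
    {B : Matrix (J V) (J V) RZ} (hB : Hub ar sm s0 B) {ρ : Matrix V' (J V') RZ}
    (h1 : ∀ x, ρ (e x) = extv e (B (inl x))) (h2 : ∀ i z, (∀ x, e x ≠ z) → ρ i (inl z) = 0)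
    {F : V' → Prop} (hF : Cst F ρ) (h : ∀ i, ∃ s, 1 ≤ s ∧ Rz r s κ θ (fun z => ∃ x, e x = z) (ρ i))
    (hs0 : 1 ≤ s0) (hσ : s0 + κ ≤ σ) (hσ' : sm ≤ σ)
    (hcol : ∀ j, N0 r (∑ i ∈ univ.filter fun i => ∀ x, e x ≠ i, ρ i j) ≤ K₂)
    (hK : r ^ σ * K₂ ≤ θ * r ^ s0) :
    ∃ H₁ : J V' → RZ, HubR ar (Function.update (fun k => extv e (B (inr k))) 1 H₁) ∧
      Cov σ (fun _ => True) H₁ ∧ Spn ar ρ (extv e (B (inr 2))) 2 (H₁ - extv e (B (inr 1))) ∧
      ∀ B', JSys ρ (Function.update (fun k => extv e (B (inr k))) 1 H₁) 1 B' → Sim B B' := by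
  let H : Fin 3 → J V' → RZ := fun k => extv e (B (inr k))
  have hH : HubR ar H := hB.hubR e
  let oX : J V' → RZ := Sum.elim (fun z => if ∃ x, e x = z then 1 else 0) 0
  let oN : V' → RZ := fun i => if ∀ x, e x ≠ i then 1 else 0
  let R : J V' → RZ := fun j => ∑ i ∈ univ.filter fun i => ∀ x, e x ≠ i, ρ i j
  have pX : ∀ j, Pos (X ^ sm * oX j) := by
    refine fun j => (Pos.X_pow sm).mul ?_
    rcases j with z | k
    · show Pos (if ∃ x, e x = z then 1 else 0)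
      split_ifs
      · exact Pos.one
      · exact Pos.zero
    · exact Pos.zero
  have pN : ∀ j : J V', Pos (X ^ σ * Sum.elim oN 0 j) := by
    refine fun j => (Pos.X_pow σ).mul ?_
    rcases j with z | k
    · show Pos (if ∀ x, e x ≠ z then 1 else 0)
      split_ifs
      · exact Pos.one
      · exact Pos.zero
    · exact Pos.zero
  have hw : Rz r s0 κ θ (fun z => ∃ x, e x = z)
      (fun j => H 1 j - X ^ sm * oX j - X ^ σ * R j) := by
    refine ⟨fun j => H 1 j - X ^ sm * oX j - (Pi.single (inr 0) (gR * X ^ s0) : J V' → RZ) j,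
      fun j => -(X ^ σ * R j), s0, gR * X ^ s0, Or.inl rfl, Or.inr rfl, ?_, ?_, ?_, ?_⟩
    · rintro (z | k)
      · show Pos (extv e (B (inr 1)) (inl z) - X ^ sm * (if ∃ x, e x = z then 1 else 0) -
          (Pi.single (inr 0) (gR * X ^ s0) : J V' → RZ) (inl z))
        rw [Pi.single_eq_of_ne inl_ne_inr, sub_zero]
        split_ifs with hz
        · obtain ⟨x, rfl⟩ := hz
          rw [extv_inl, mul_one]
          exact hB.ent 1 (by decide) x
        · rw [extv_of_not e _ (fun x hx => hz ⟨x, hx⟩), mul_zero, sub_zero]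
          exact Pos.zero
      · show Pos (extv e (B (inr 1)) (inr k) - X ^ sm * 0 -
          (Pi.single (inr 0) (gR * X ^ s0) : J V' → RZ) (inr k))
        rw [extv_inr, mul_zero, sub_zero]
        by_cases hk : k = 0
        · rw [hk, Pi.single_eq_same]
          exact hB.bud1
        · rw [Pi.single_eq_of_ne (fun hh => hk (inr_injective hh)), sub_zero]
          exact hB.pt.1 _ _
    · funext j
      simp only [Pi.add_apply]
      ring
    · intro j
      beta_reduce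
      refine ⟨?_, ?_⟩
      · rw [show -(X ^ σ * R j) = X ^ σ * -R j by ring]
        exact (pow_dvd_pow X hσ).mul_right _
      rw [N0_neg, N0_X_pow_mul]
      exact (mul_le_mul_of_nonneg_left (hcol j) (pow_nonneg hr σ)).trans hK
    · intro z hz
      by_contra hn
      apply hz
      have h0 : R (inl z) = 0 := sum_eq_zero fun i _ => h2 i z fun x hx => hn ⟨x, hx⟩
      show -(X ^ σ * R (inl z)) = 0
      rw [h0, mul_zero, neg_zero]
  obtain ⟨q₁, q₂, d₁, d₂, hq⟩ := hP V' _ (H 2) 2 _ s0 (by decide) hs0 (hH.pos 2)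
    (hB.cov e (by decide)) hw
  let u : J V' → RZ := (fun j => H 1 j - X ^ sm * oX j - X ^ σ * R j) +
    q₁ • (H 2 - Pi.single (inr 2) 1) - q₂ • hav ar
  let H₁ : J V' → RZ := fun j => u j + X ^ sm * oX j + X ^ σ * Sum.elim oN 0 j
  have hM : ∀ j, ((fun i => X ^ σ * oN i) ᵥ* MA ρ) j = X ^ σ * Sum.elim oN 0 j - X ^ σ * R j := by
    intro j
    have e1 : ∑ i, oN i * ρ i j = R j := by
      simp only [oN, R, sum_filter, ite_mul, one_mul, zero_mul]
    have e2 : ∑ i, oN i * (Pi.single (inl i) 1 : J V' → RZ) j = Sum.elim oN 0 j := by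
      rcases j with z | k
      · rw [sum_eq_single z]
        · rw [Pi.single_eq_same, mul_one]
          rfl
        · intro i _ hi
          rw [Pi.single_eq_of_ne (fun hh => hi (inl_injective hh).symm), mul_zero]
        · intro hz
          exact absurd (mem_univ z) hz
      · exact sum_eq_zero fun i _ => by rw [Pi.single_eq_of_ne inr_ne_inl, mul_zero]
    rw [← e1, ← e2, mul_sum, mul_sum, ← sum_sub_distrib]
    refine sum_congr rfl fun i _ => ?_
    show X ^ σ * oN i * ((Pi.single (inl i) 1 : J V' → RZ) j - ρ i j) = _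
    ring
  have hS : Spn ar ρ (H 2) 2 (H₁ - H 1) := by
    refine ⟨fun i => X ^ σ * oN i, q₁, -q₂, funext fun j => ?_⟩
    simp only [Pi.add_apply, Pi.sub_apply, Pi.smul_apply, smul_eq_mul, hM, H₁, u]
    ring
  have hv : ∀ j, Pos (H₁ j) ∧ X ∣ H₁ j := by
    refine fun j => ⟨((hq j).add (pX j)).add (pN j), ?_⟩
    have hX : (X : RZ) ∣ X ^ σ := dvd_pow_self X (by omega)
    have e1 : H₁ j = H 1 j + X ^ σ * (Sum.elim oN 0 j - R j) +
        q₁ * (H 2 - Pi.single (inr 2) 1 : J V' → RZ) j - q₂ * hav ar j := by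
      simp only [Pi.add_apply, Pi.sub_apply, Pi.smul_apply, smul_eq_mul, H₁, u]
      ring
    rw [e1]
    exact dvd_sub (dvd_add (dvd_add (hH.td 1 j) (hX.mul_right _)) (d₁.mul_right _))
      (d₂.mul_right _)
  obtain ⟨B₁, j₁, s₁⟩ := JS_start hP e hB h1 h2 hF h
  obtain ⟨hH', j₂, s₂⟩ := JS_hen hH (i := 2) (k := 1) (by decide) (by decide) j₁ hF hv hS
  refine ⟨H₁, hH', fun z _ => ?_, hS, fun B' hB' => (s₁.trans s₂).trans (qj4_same hH' j₂ hB' hF)⟩
  by_cases hz : ∃ x, e x = z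
  · refine ⟨sm, hσ', ?_⟩
    have e1 : H₁ (inl z) - X ^ sm = u (inl z) + X ^ σ * Sum.elim oN 0 (inl z : J V') := by
      show u (inl z) + X ^ sm * (if ∃ x, e x = z then 1 else 0) + _ - _ = _
      rw [if_pos hz]
      ring
    rw [e1]
    exact (hq _).add (pN _)
  · refine ⟨σ, le_rfl, ?_⟩
    have e1 : H₁ (inl z) - X ^ σ = u (inl z) + X ^ sm * oX (inl z) := by
      show u (inl z) + _ + X ^ σ * (if ∀ x, e x ≠ z then 1 else 0) - _ = _
      rw [if_pos fun x hx => hz ⟨x, hx⟩]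
      ring
    rw [e1]
    exact (hq _).add (pX _)

/-- Every `P` in the neighbourhood gives rows `rhoP P ρ₁` with a positive form (`rz_rhoP`,
`Rz.mono`, `JS_exists`, `cst_rhoP`), and each step `Stp` is a `JS_rows` move (`MA_rhoP`). Induction on
`Conn` (carry `InN` of the end point; `InN.one`). Then pass through the rows
`fun i => if F i then rhoP Z ρ₁ i else ρ₂ i` with two more `JS_rows` moves. -/
theorem JT_mid {r θ θ₁ ε K : ℝ} {σ κ : ℕ} (hr : 0 ≤ r) (hK : 0 ≤ K) (hθ₁ : 0 ≤ θ₁)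
    (hP : PConst r ar σ κ θ) {H : Fin 3 → J V → RZ} (hH : HubR ar H)
    (hc : Cov σ (fun _ => True) (H 1)) {sj : V → ℕ} (hs : ∀ i, 1 ≤ sj i) {ρ₁ ρ₂ : Matrix V (J V) RZ}
    (h₁ : ∀ i, Rz r (sj i) κ ε (fun _ => True) (ρ₁ i)) (hC : CB r (fun x => r ^ sj x) K ρ₁)
    (hε : ε + (1 + K) * θ₁ ≤ θ) (h₂ : ∀ i, Rz r (sj i) κ θ (fun _ => True) (ρ₂ i)) {F : V → Prop}
    (hF : Cst F ρ₁) (hT : TD ρ₂) {Z : Matrix V V RZ}
    (hZ : Conn r (fun x => r ^ sj x) (fun x => sj x + κ) θ₁ 1 Z) {C₁ C₂ : Matrix V V RZ}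
    (hC₁ : ∀ i j, C₁ i j ≠ 0 → ¬ F i ∧ F j) (hC₂ : ∀ i j, C₂ i j ≠ 0 → F i ∧ ¬ F j) {c : V → RZ}
    (e : Z * MA ρ₁ = (1 + C₁) * (1 + C₂) * MA ρ₂ + vecMulVec c (hav ar)) :
    ∃ B B', JSys ρ₁ H 1 B ∧ JSys ρ₂ H 1 B' ∧ Sim B B' := by
  classical
  have hO : ∀ x, 1 ≤ sj x + κ := fun x => (hs x).trans (Nat.le_add_right _ _)
  have hR : ∀ P : Matrix V V RZ, InN r (fun x => r ^ sj x) (fun x => sj x + κ) θ₁ P →
      ∀ x, Rz r (sj x) κ θ (fun _ => True) (rhoP P ρ₁ x) := fun P hPn x =>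
    (rz_rhoP hr hK hPn hC x (h₁ x)).mono hr le_rfl hε fun _ h => h
  have hE : ∀ ρ : Matrix V (J V) RZ, (∀ x, Rz r (sj x) κ θ (fun _ => True) (ρ x)) →
      ∃ B, JSys ρ H 1 B := fun ρ hρ =>
    JS_exists hP hH (by decide) hc fun x => ⟨sj x, hs x, hρ x⟩
  have h1n : InN r (fun x => r ^ sj x) (fun x => sj x + κ) θ₁ (1 : Matrix V V RZ) :=
    InN.one (fun x => pow_nonneg hr _) _ hθ₁
  have key : ∀ P : Matrix V V RZ, Conn r (fun x => r ^ sj x) (fun x => sj x + κ) θ₁ 1 P →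
      InN r (fun x => r ^ sj x) (fun x => sj x + κ) θ₁ P ∧
        ∀ B B', JSys ρ₁ H 1 B → JSys (rhoP P ρ₁) H 1 B' → Sim B B' := by
    intro P hPc
    unfold Conn at hPc
    induction hPc with
    | refl =>
      refine ⟨h1n, fun B B' j j' => ?_⟩
      rw [rhoP_one] at j'
      exact qj4_same hH j j' hF
    | tail _ hst ih =>
      obtain ⟨n₁, n₂, S, C, hCS, eP⟩ := hst
      refine ⟨n₂, fun B B' j j' => ?_⟩
      obtain ⟨Bm, jm⟩ := hE _ (hR _ n₁)
      refine (ih.2 B Bm j jm).trans (JS_rows hH jm j' (cst_rhoP hO n₁ hF) (cst_rhoP hO n₂ hF) S C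
        hCS 0 ?_)
      rw [MA_rhoP, MA_rhoP, eP, zero_vecMulVec, add_zero, Matrix.mul_assoc]
  obtain ⟨nZ, hZ'⟩ := key Z hZ
  let ρ₃ : Matrix V (J V) RZ := fun i => if F i then rhoP Z ρ₁ i else ρ₂ i
  have hF₃ : Cst F ρ₃ := by
    intro x j hx
    by_cases hf : F x
    · rw [show ρ₃ x = rhoP Z ρ₁ x from if_pos hf] at hx
      exact cst_rhoP hO nZ hF x j hx
    · rw [show ρ₃ x = ρ₂ x from if_neg hf] at hx
      exact hT.cst F x j hx
  have hrow : ∀ (C : Matrix V V RZ) (M : Matrix V (J V) RZ) (i : V), (∀ z, C i z = 0) →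
      ((1 + C) * M : Matrix V (J V) RZ) i = M i := by
    intro C M i h0
    funext j
    rw [Matrix.add_mul, Matrix.one_mul, Matrix.add_apply, mul_apply,
      sum_eq_zero (fun z _ => by rw [h0 z, zero_mul]), add_zero]
  have e₃ : MA ρ₃ = (1 + C₂) * MA ρ₂ + vecMulVec (fun i => if F i then c i else 0) (hav ar) := by
    funext i j
    by_cases hf : F i
    · have a1 : MA ρ₃ i = MA (rhoP Z ρ₁) i := by
        unfold MA
        rw [show ρ₃ i = rhoP Z ρ₁ i from if_pos hf]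
      rw [a1, MA_rhoP, e, Matrix.mul_assoc, Matrix.add_apply, Matrix.add_apply,
        hrow C₁ _ i (fun z => by_contra fun hz => (hC₁ i z hz).1 hf), vecMulVec_apply,
        vecMulVec_apply, if_pos hf]
    · have a1 : MA ρ₃ i = MA ρ₂ i := by
        unfold MA
        rw [show ρ₃ i = ρ₂ i from if_neg hf]
      rw [a1, Matrix.add_apply, hrow C₂ _ i (fun z => by_contra fun hz => hf (hC₂ i z hz).1),
        vecMulVec_apply, if_neg hf, zero_mul, add_zero]
  have eZ : MA (rhoP Z ρ₁) = (1 + C₁) * MA ρ₃ +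
      vecMulVec (c - (1 + C₁) *ᵥ fun i => if F i then c i else 0) (hav ar) := by
    rw [MA_rhoP, e, e₃, Matrix.mul_assoc, Matrix.mul_add, mul_vecMulVec, sub_vecMulVec]
    abel
  obtain ⟨B, jB⟩ := hE _ (hR _ h1n)
  rw [rhoP_one] at jB
  obtain ⟨B', jB'⟩ := hE ρ₂ h₂
  obtain ⟨BZ, jZ⟩ := hE _ (hR _ nZ)
  obtain ⟨B₃, j₃⟩ := hE ρ₃ fun x => by
    by_cases hf : F x
    · rw [show ρ₃ x = rhoP Z ρ₁ x from if_pos hf]
      exact hR _ nZ x
    · rw [show ρ₃ x = ρ₂ x from if_neg hf]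
      exact h₂ x
  refine ⟨B, B', jB, jB', (hZ' B BZ jB jZ).trans (Sim.symm (Sim.trans
    (JS_rows hH jB' j₃ (hT.cst F) hF₃ F C₂ hC₂ _ e₃)
    (JS_rows hH j₃ jZ hF₃ (cst_rhoP hO nZ hF) (fun x => ¬ F x) C₁
      (fun x z hxz => ⟨(hC₁ x z hxz).1, not_not.2 (hC₁ x z hxz).2⟩) _ eZ)))⟩

/-- `JS_hen` (`i = 1`, `k = 2`) replaces `H 2`; on the other side `JS_start` and `JS_hen`
(`i = 2`, `k = 1`) lead to the same hub rows; `JS_rows` with `C = 0` joins the two. -/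
theorem JT_end {r θ : ℝ} {κ sm s0 : ℕ} (hP : PConst r ar sm κ θ) (e : V ↪ V')
    {B : Matrix (J V) (J V) RZ} (hB : Hub ar sm s0 B) {ρ : Matrix V' (J V') RZ}
    (h1 : ∀ x, ρ (e x) = extv e (B (inl x))) (h2 : ∀ i z, (∀ x, e x ≠ z) → ρ i (inl z) = 0)
    (hT : TD ρ) (h : ∀ i, ∃ s, 1 ≤ s ∧ Rz r s κ θ (fun z => ∃ x, e x = z) (ρ i))
    {H : Fin 3 → J V' → RZ} (hH : HubR ar H)
    (hs₂ : Spn ar ρ (H 1) 1 (extv e (B (inr 2)) - H 2))
    (hs₁ : Spn ar ρ (extv e (B (inr 2))) 2 (H 1 - extv e (B (inr 1)))) {B' : Matrix (J V') (J V') RZ}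
    (hB' : JSys ρ H 1 B') : Sim B' B := by
  have hH₀ : HubR ar fun k => extv e (B (inr k)) := hB.hubR e
  have hF : Cst (fun _ => True) ρ := hT.cst _
  obtain ⟨a₁, a₂, a₃⟩ := JS_hen hH (i := 1) (k := 2) (by decide) (by decide) hB' hF
    (fun j => ⟨hH₀.pos 2 j, hH₀.td 2 j⟩) hs₂
  obtain ⟨B₁, j₁, s₁⟩ := JS_start hP e hB h1 h2 hF h
  obtain ⟨-, b₂, b₃⟩ := JS_hen hH₀ (i := 2) (k := 1) (by decide) (by decide) j₁ hF
    (fun j => ⟨hH.pos 1 j, hH.td 1 j⟩) hs₁
  have e1 : Function.update (fun k => extv e (B (inr k))) 1 (H 1) =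
      Function.update H 2 (extv e (B (inr 2))) := by
    funext k
    have hk : k = 0 ∨ k = 1 ∨ k = 2 := by revert k; decide
    rcases hk with rfl | rfl | rfl
    · rw [Function.update_of_ne (by decide), Function.update_of_ne (by decide), hH.ha]
      exact hH₀.ha
    · rw [Function.update_self, Function.update_of_ne (by decide)]
    · rw [Function.update_self, Function.update_of_ne (by decide)]
  rw [e1] at b₂
  exact (a₃.trans (qj4_same a₁ a₂ b₂ hF)).trans (s₁.trans b₃).symm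

end Pool.Agent.Lib.MP_71aad1_an.SS
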