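import Pool.Agent.Lib.MP_71aad1_an.QJ3

set_option autoImplicit false

namespace Pool.Agent.Lib.MP_71aad1_an.SS

open Polynomial Matrix Finset Sum

/-! Choice of the rotations. -/

section
variable {U₁ U₂ U₃ : Type} {k : ℕ}

/-- All entries are divisible by `t ^ k`. -/
def qj5DV (k : ℕ) (B : Matrix U₁ U₂ RZ) : Prop := ∀ i j, X ^ k ∣ B i j

theorem qj5_add {B C : Matrix U₁ U₂ RZ} (h : qj5DV k B) (h' : qj5DV k C) : qj5DV k (B + C) :=
  fun i j => dvd_add (h i j) (h' i j)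

theorem qj5_sub {B C : Matrix U₁ U₂ RZ} (h : qj5DV k B) (h' : qj5DV k C) : qj5DV k (B - C) :=
  fun i j => dvd_sub (h i j) (h' i j)

theorem qj5_zero : qj5DV k (0 : Matrix U₁ U₂ RZ) := fun _ _ => dvd_zero _

theorem qj5_neg {B : Matrix U₁ U₂ RZ} (h : qj5DV k B) : qj5DV k (-B) := by
  have := qj5_sub (qj5_zero (k := k)) h
  rwa [zero_sub] at this

theorem qj5_mul_r [Fintype U₂] {B : Matrix U₁ U₂ RZ} (h : qj5DV k B) (C : Matrix U₂ U₃ RZ) :
    qj5DV k (B * C) := fun i j => by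
  rw [mul_apply]
  exact Finset.dvd_sum fun z _ => (h i z).mul_right _

theorem qj5_mul_l [Fintype U₂] (B : Matrix U₁ U₂ RZ) {C : Matrix U₂ U₃ RZ} (h : qj5DV k C) :
    qj5DV k (B * C) := fun i j => by
  rw [mul_apply]
  exact Finset.dvd_sum fun z _ => (h z j).mul_left _

theorem qj5_cancel [Fintype U₂] [DecidableEq U₂] {A : Matrix U₂ U₂ RZ} (hA : TD A)
    {B : Matrix U₁ U₂ RZ} (h : qj5DV k (B * (1 - A))) : qj5DV k B := fun i j =>
  dvd_of_vecMul_one_sub hA (n := B i) (fun z => h i z) j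

theorem qj5_single [DecidableEq U₁] [DecidableEq U₂] (i : U₁) (j : U₂) {p : RZ} (h : X ^ k ∣ p) :
    qj5DV k (single i j p) := fun i' j' => by
  rw [single_apply]
  split_ifs
  · exact h
  · exact dvd_zero _

end

section
variable {VX VY W : Type} [Fintype VX] [DecidableEq VX] [Fintype VY] [DecidableEq VY]
  [Fintype W] [DecidableEq W]

/-- `Q = (t - g) ∑_{k < M} A ^ k` (`TD.pow_dvd`). -/
theorem exists_Q {A : Matrix VX VX RZ} (hA : TD A) (M : ℕ) (g t : Matrix VY VX RZ) :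
    ∃ Q : Matrix VY VX RZ, ∀ y x, X ^ M ∣ (g + Q * (1 - A) - t : Matrix VY VX RZ) y x := by
  refine ⟨(t - g) * ∑ k ∈ range M, A ^ k, ?_⟩
  have e : g + (t - g) * (∑ k ∈ range M, A ^ k) * (1 - A) - t = (g - t) * A ^ M := by
    rw [Matrix.mul_assoc, geom_sum_mul_neg, Matrix.mul_sub, Matrix.mul_one, Matrix.sub_mul,
      Matrix.sub_mul]
    abel
  rw [e]
  exact qj5_mul_l _ (hA.pow_dvd M)

theorem unique_Q {A : Matrix VX VX RZ} (hA : TD A) {M : ℕ} {g t Q Q' : Matrix VY VX RZ}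
    (h : ∀ y x, X ^ M ∣ (g + Q * (1 - A) - t : Matrix VY VX RZ) y x)
    (h' : ∀ y x, X ^ M ∣ (g + Q' * (1 - A) - t : Matrix VY VX RZ) y x)
    (y : VY) (x : VX) : X ^ M ∣ (Q - Q') y x := by
  refine qj5_cancel hA ?_ y x
  have e : (Q - Q') * (1 - A) = (g + Q * (1 - A) - t) - (g + Q' * (1 - A) - t) := by
    rw [Matrix.sub_mul]
    abel
  rw [e]
  exact qj5_sub h h'

/-- `Xm_add`, `Xp_add`, `Xm_mem`, `Xp_mem`, normality of `Ed` (`Ed_normal`). -/
theorem Z_congr (hT : Three (VX ⊕ VY ⊕ W)) {M : ℕ} (U N : El (VX ⊕ VY ⊕ W) RZ)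
    {Q₁ Q₂ : Matrix VY VX RZ} {R₁ R₂ : Matrix VX VY RZ} (hQ : ∀ y x, X ^ M ∣ (Q₁ - Q₂) y x)
    (hR : ∀ x y, X ^ M ∣ (R₁ - R₂) x y) :
    U * (Xp W (-R₁) * N * Xm W Q₁) * (U * (Xp W (-R₂) * N * Xm W Q₂))⁻¹ ∈ Ed _ M := by
  have hn := Ed_normal hT M
  have e1 : QuotientGroup.mk' (Ed _ M) (Xm W Q₁) = QuotientGroup.mk' (Ed _ M) (Xm W Q₂) := by
    rw [← qs9_eq, ← Xm_neg, ← Xm_add, ← sub_eq_add_neg]
    exact Xm_mem hQ
  have e2 : QuotientGroup.mk' (Ed _ M) (Xp W (-R₁)) = QuotientGroup.mk' (Ed _ M) (Xp W (-R₂)) := by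
    rw [← qs9_eq, ← Xp_neg, ← Xp_add, ← neg_add, ← sub_eq_add_neg]
    exact Xp_mem (qj5_neg hR)
  rw [qs9_eq]
  simp only [map_mul, e1, e2]

end

variable {O O' P W : Type} [Fintype O] [DecidableEq O] [Fintype O'] [DecidableEq O'] [Fintype P]
  [DecidableEq P] [Fintype W] [DecidableEq W] {M : ℕ} {a : P → ℕ × Bool}

theorem qj5_comm {VX VY : Type} [Fintype VX] [DecidableEq VX] [Fintype VY] [DecidableEq VY]
    {n : Matrix VX VY RZ} {m : Matrix VY VX RZ} (h : n * m = 0) (h' : m * n = 0) :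
    Xp W n * Xm W m = Xm W m * Xp W n := by
  refine mat_inj ?_
  rw [mat_mul, mat_mul, mat_Xp, mat_Xm]
  simp only [A1, A2, neg_neg, fromBlocks_multiply, Matrix.mul_zero, Matrix.zero_mul, add_zero,
    zero_add, Matrix.one_mul, Matrix.mul_one, fromBlocks_one, fromCols_mul_fromRows,
    fromRows_mul_fromCols, h, h', fromBlocks_zero]

omit [Fintype O] [Fintype O'] [Fintype P] in
theorem qj5_sk (μ : P → RZ) (π : P) (p : RZ) :
    sk O O' (Function.update μ π p) =
      sk O O' (Function.update μ π 0) + single (inr π) (inr π) p := by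
  ext1 y x
  rcases y with y | y <;> rcases x with x | x <;>
    simp only [sk, Matrix.add_apply, fromBlocks_apply₁₁, fromBlocks_apply₁₂, fromBlocks_apply₂₁,
      fromBlocks_apply₂₂, Matrix.zero_apply, single_apply, reduceCtorEq, false_and, and_false,
      if_false, add_zero, inr.injEq, diagonal_apply]
  by_cases h1 : y = x
  · subst h1
    by_cases h2 : π = y
    · subst h2
      simp
    · simp [h2, Function.update_of_ne (Ne.symm h2)]
  · rw [if_neg h1, if_neg h1, if_neg, add_zero]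
    rintro ⟨rfl, rfl⟩
    exact h1 rfl

omit [Fintype O'] [DecidableEq O'] in
theorem qj5_sk_single {O'' : Type} [DecidableEq O''] (μ : P → RZ) (π : P) (p : RZ) :
    sk O O' (Function.update μ π 0) * (single (inr π) (inr π) p : Matrix (O ⊕ P) (O'' ⊕ P) RZ) =
      0 := by
  ext1 y x
  by_cases hx : x = inr π
  · subst hx
    rw [mul_single_apply_same]
    rcases y with y | y
    · simp [sk]
    · by_cases h : y = π
      · subst h
        simp [sk]
      · simp [sk, diagonal_apply_ne _ h]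
  · rw [mul_single_apply_of_ne _ _ _ _ _ hx]
    rfl

omit [Fintype O] [DecidableEq O] in
theorem qj5_single_sk {O'' : Type} [DecidableEq O''] (μ : P → RZ) (π : P) (p : RZ) :
    (single (inr π) (inr π) p : Matrix (O'' ⊕ P) (O' ⊕ P) RZ) * sk O O' (Function.update μ π 0) =
      0 := by
  ext1 y x
  by_cases hy : y = inr π
  · subst hy
    rw [single_mul_apply_same]
    rcases x with x | x
    · simp [sk]
    · by_cases h : π = x
      · subst h
        simp [sk]
      · simp [sk, diagonal_apply_ne _ h]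
  · rw [single_mul_apply_of_ne _ _ _ _ _ hy]
    rfl

theorem qj5_grp {G : Type} [Group G] (u v x₁ x₂ x₃ x₄ y₁ y₂ y₃ Z₀ : G)
    (h2 : u * x₂ = x₂ * u) (h3 : u * y₁ = y₁ * u) (h4 : u * y₂ = y₂ * u)
    (k2 : v * x₂ = x₂ * v) (k3 : v * y₁ = y₁ * v) (k4 : v * y₂ = y₂ * v)
    (e : x₄ * x₃ = 1) :
    x₁ * u * (v * y₁) * (x₂ * Z₀ * y₃) =
      x₁ * y₁ * x₂ * y₂ * x₄ * (x₃ * u * (v * y₂⁻¹) * Z₀) * y₃ := by
  have c1 : u * v * y₂⁻¹ = y₂⁻¹ * (u * v) :=
    (Commute.mul_left (show Commute u y₂ from h4) (show Commute v y₂ from k4)).inv_right.eq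
  have c2 : u * v * y₁ = y₁ * (u * v) :=
    (Commute.mul_left (show Commute u y₁ from h3) (show Commute v y₁ from k3)).eq
  have c3 : u * v * x₂ = x₂ * (u * v) :=
    (Commute.mul_left (show Commute u x₂ from h2) (show Commute v x₂ from k2)).eq
  calc x₁ * u * (v * y₁) * (x₂ * Z₀ * y₃) = x₁ * (u * v * y₁) * (x₂ * Z₀ * y₃) := by group
    _ = x₁ * y₁ * (u * v * x₂) * Z₀ * y₃ := by rw [c2]; group
    _ = x₁ * y₁ * x₂ * y₂ * (y₂⁻¹ * (u * v)) * Z₀ * y₃ := by rw [c3]; group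
    _ = x₁ * y₁ * x₂ * y₂ * (x₄ * x₃) * (u * v * y₂⁻¹) * Z₀ * y₃ := by rw [c1, e]; group
    _ = _ := by group

/-- An identity in the elementary group. Write `x p`, `x' p` for the letters between
`eX (inr π)` and `eY (inr π)` (`Xp_single`, `Xm_single`), and `n₀`, `m₀` for the matchings with the
entry at `π` removed. `Xp n₀` and `Xm (-m₀)` commute with `x p` and `x' p` (check with `mat_inj`,
`mat_Xp`, `mat_Xm`, or with the Steinberg relation `comm`). -/
theorem Z_update (μ ν : P → RZ) (π : P) (μ' ν' δ δ' : RZ) (N : El ((O ⊕ P) ⊕ (O' ⊕ P) ⊕ W) RZ)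
    (Q : Matrix (O' ⊕ P) (O ⊕ P) RZ) (R : Matrix (O ⊕ P) (O' ⊕ P) RZ) :
    Xp W (sk O' O (Function.update ν π ν')) * Xm W (-sk O O' (Function.update μ π μ')) *
        (Xp W (-(R + single (inr π) (inr π) δ')) * N * Xm W (Q + single (inr π) (inr π) δ)) =
      (el _ RZ).x (eX _ _ W (inr π)) (eY _ _ W (inr π)) ν' *
        (el _ RZ).x (eY _ _ W (inr π)) (eX _ _ W (inr π)) (-μ') *
        (el _ RZ).x (eX _ _ W (inr π)) (eY _ _ W (inr π)) (-δ') *
        (el _ RZ).x (eY _ _ W (inr π)) (eX _ _ W (inr π)) (μ π) *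
        (el _ RZ).x (eX _ _ W (inr π)) (eY _ _ W (inr π)) (-ν π) *
        (Xp W (sk O' O ν) * Xm W (-sk O O' μ) * (Xp W (-R) * N * Xm W Q)) *
        (el _ RZ).x (eY _ _ W (inr π)) (eX _ _ W (inr π)) δ := by
  have hs : ∀ p : RZ, (-single (inr π) (inr π) p : Matrix (O' ⊕ P) (O ⊕ P) RZ) =
      single (inr π) (inr π) (-p) := fun p => by
    ext1 y x
    rw [Matrix.neg_apply, single_apply, single_apply]
    split_ifs
    · rfl
    · exact neg_zero
  have hs' : ∀ p : RZ, (-single (inr π) (inr π) p : Matrix (O ⊕ P) (O' ⊕ P) RZ) =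
      single (inr π) (inr π) (-p) := fun p => by
    ext1 y x
    rw [Matrix.neg_apply, single_apply, single_apply]
    split_ifs
    · rfl
    · exact neg_zero
  have e1 : ∀ p : RZ, Xp W (sk O' O (Function.update ν π p)) =
      Xp W (single (inr π) (inr π) p) * Xp W (sk O' O (Function.update ν π 0)) := fun p => by
    rw [qj5_sk, add_comm, Xp_add]
  have e2 : ∀ p : RZ, Xm W (-sk O O' (Function.update μ π p)) =
      Xm W (-sk O O' (Function.update μ π 0)) * Xm W (single (inr π) (inr π) (-p)) := fun p => by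
    rw [qj5_sk, neg_add, Xm_add, hs]
  have e3 := e1 (ν π)
  have e4 := e2 (μ π)
  rw [Function.update_eq_self] at e3 e4
  have e5 : Xp W (-(R + single (inr π) (inr π) δ')) =
      Xp W (single (inr π) (inr π) (-δ')) * Xp W (-R) := by
    rw [← Xp_add, ← hs', neg_add, add_comm]
  have cPP : ∀ A B : Matrix (O ⊕ P) (O' ⊕ P) RZ, Xp W A * Xp W B = Xp W B * Xp W A :=
    fun A B => by rw [← Xp_add, ← Xp_add, add_comm]
  have cMM : ∀ A B : Matrix (O' ⊕ P) (O ⊕ P) RZ, Xm W A * Xm W B = Xm W B * Xm W A :=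
    fun A B => by rw [← Xm_add, ← Xm_add, add_comm]
  have cPM : ∀ p : RZ, Xp W (sk O' O (Function.update ν π 0)) * Xm W (single (inr π) (inr π) p) =
      Xm W (single (inr π) (inr π) p) * Xp W (sk O' O (Function.update ν π 0)) := fun p =>
    qj5_comm (qj5_sk_single _ _ _) (qj5_single_sk _ _ _)
  have cMP : ∀ p : RZ, Xm W (-sk O O' (Function.update μ π 0)) * Xp W (single (inr π) (inr π) p) =
      Xp W (single (inr π) (inr π) p) * Xm W (-sk O O' (Function.update μ π 0)) := fun p =>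
    (qj5_comm (by rw [Matrix.mul_neg, qj5_single_sk, neg_zero])
      (by rw [Matrix.neg_mul, qj5_sk_single, neg_zero])).symm
  simp only [← Xp_single, ← Xm_single]
  rw [e1 ν', e2 μ', e3, e4, e5, Xm_add, ← hs (μ π), Xm_neg (single _ _ _)]
  have := qj5_grp (Xp W (sk O' O (Function.update ν π 0))) (Xm W (-sk O O' (Function.update μ π 0)))
    (Xp W (single (inr π) (inr π) ν')) (Xp W (single (inr π) (inr π) (-δ')))
    (Xp W (single (inr π) (inr π) (ν π))) (Xp W (single (inr π) (inr π) (-ν π)))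
    (Xm W (single (inr π) (inr π) (-μ'))) (Xm W (single (inr π) (inr π) (μ π)))
    (Xm W (single (inr π) (inr π) δ)) (Xp W (-R) * N * Xm W Q)
    (cPP _ _) (cPM _) (cPM _) (cMP _) (cMM _ _) (cMM _ _)
    (by rw [← hs', Xp_neg, inv_mul_cancel])
  rw [← this]
  group

theorem qj5_X_mono {q : ℕ × Bool} (hq : 1 ≤ q.1) : X ∣ mono q :=
  (dvd_pow_self X (by omega)).trans (qs9_dvd q)

omit [Fintype O] [Fintype P] in
theorem qj5_td (hM : 1 ≤ M) (ha : ∀ π, 1 ≤ (a π).1) {A : Matrix (O ⊕ P) (O ⊕ P) RZ}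
    (h : qj5DV M (A - diagonal (lp a))) : TD A := by
  intro x z
  have e : A x z = (A - diagonal (lp a) : Matrix _ _ RZ) x z + diagonal (lp a) x z := by
    rw [Matrix.sub_apply, sub_add_cancel]
  rw [e]
  refine dvd_add ((dvd_pow_self X (by omega)).trans (h x z)) ?_
  rw [diagonal_apply]
  split_ifs
  · rcases x with x | π
    · exact dvd_zero _
    · exact qj5_X_mono (ha π)
  · exact dvd_zero _

omit [Fintype O'] in
theorem qj5_adm (ha : ∀ π, 1 ≤ (a π).1) {A : Matrix (O ⊕ P) (O ⊕ P) RZ}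
    (hA : qj5DV M (A - diagonal (lp a))) {g Q : Matrix (O' ⊕ P) (O ⊕ P) RZ} {μ : P → RZ}
    (h : qj5DV M (g + Q * (1 - A) - sk O O' μ)) (π : P) (c : RZ) :
    qj5DV M (g + (Q + single (inr π) (inr π) (c * geo M (a π))) * (1 - A) -
      sk O O' (Function.update μ π (μ π + c))) := by
  have e1 : sk O O' (Function.update μ π (μ π + c)) = sk O O' μ + single (inr π) (inr π) c := by
    have := qj5_sk (O := O) (O' := O') μ π (μ π)
    rw [Function.update_eq_self] at this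
    rw [qj5_sk, single_add, ← add_assoc, ← this]
  have e2 : (single (inr π) (inr π) (c * geo M (a π)) : Matrix (O' ⊕ P) (O ⊕ P) RZ) *
      (1 - diagonal (lp a) : Matrix (O ⊕ P) (O ⊕ P) RZ) =
      single (inr π) (inr π) c - single (inr π) (inr π) (c * mono (a π) ^ M) := by
    rw [← diagonal_one, diagonal_sub]
    ext1 y x
    rw [mul_diagonal, Matrix.sub_apply, single_apply, single_apply, single_apply]
    split_ifs with h
    · obtain ⟨-, rfl⟩ := h
      have := geom_sum_mul_neg (mono (a π)) M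
      change c * geo M (a π) * (1 - mono (a π)) = _
      rw [mul_assoc, geo, this]
      ring
    · rw [zero_mul, sub_zero]
  have e3 : g + (Q + single (inr π) (inr π) (c * geo M (a π))) * (1 - A) -
      sk O O' (Function.update μ π (μ π + c)) = (g + Q * (1 - A) - sk O O' μ) -
        single (inr π) (inr π) (c * mono (a π) ^ M) -
        (single (inr π) (inr π) (c * geo M (a π)) : Matrix (O' ⊕ P) (O ⊕ P) RZ) *
          (A - diagonal (lp a) : Matrix (O ⊕ P) (O ⊕ P) RZ) := by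
    have e4 : (1 - A : Matrix (O ⊕ P) (O ⊕ P) RZ) = (1 - diagonal (lp a)) - (A - diagonal (lp a)) := by
      abel
    rw [e1, Matrix.add_mul]
    conv_lhs => rw [e4, Matrix.mul_sub (single _ _ _), e2, ← e4]
    abel
  rw [e3]
  exact qj5_sub (qj5_sub h (qj5_single _ _
    ((pow_dvd_pow_of_dvd (qj5_X_mono (ha π)) M).mul_left _))) (qj5_mul_l _ hA)

theorem qj5_cong (hM : 1 ≤ M) (ha : ∀ π, 1 ≤ (a π).1)
    {AX : Matrix (O ⊕ P) (O ⊕ P) RZ} {AY : Matrix (O' ⊕ P) (O' ⊕ P) RZ}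
    (hX : qj5DV M (AX - diagonal (lp a))) (hY : qj5DV M (AY - diagonal (lp a)))
    {g Q : Matrix (O' ⊕ P) (O ⊕ P) RZ} {f R : Matrix (O ⊕ P) (O' ⊕ P) RZ}
    {N : El ((O ⊕ P) ⊕ (O' ⊕ P) ⊕ W) RZ} (h : mat N * A1 W (1 - AX) g = A2 W (1 - AY) f)
    {μ ν : P → RZ} (hμν : ∀ π, μ π * ν π = mono (a π))
    (hQ : qj5DV M (g + Q * (1 - AX) - sk O O' μ)) (hR : qj5DV M (f + R * (1 - AY) - sk O' O ν)) :
    MCong (tI M) (mat (Xp W (sk O' O ν) * Xm W (-sk O O' μ) * (Xp W (-R) * N * Xm W Q))) := by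
  have e1 : sk O' O ν * sk O O' μ = diagonal (lp a) := by
    rw [sk_mul_sk, ← sk_mono]
    congr 1
    funext π
    rw [mul_comm, hμν]
  have e2 : sk O O' μ * sk O' O ν = diagonal (lp a) := by
    rw [sk_mul_sk, ← sk_mono]
    congr 1
    funext π
    rw [hμν]
  have e3 : 1 - sk O' O ν * sk O O' μ - (AX - diagonal (lp a)) = 1 - AX := by
    rw [e1]
    abel
  have e4 : 1 - sk O O' μ * sk O' O ν - (AY - diagonal (lp a)) = 1 - AY := by
    rw [e2]
    abel
  obtain ⟨ZXX, ZYX, ZWX, k0, k1, k2, k3⟩ := Z_blocks (W := W) (m := sk O O' μ) (n := sk O' O ν)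
    (γ := g + Q * (1 - AX) - sk O O' μ) (φ := f + R * (1 - AY) - sk O' O ν)
    (SX := AX - diagonal (lp a)) (SY := AY - diagonal (lp a)) (N := Xp W (-R) * N * Xm W Q) (by
      rw [e3, e4, add_sub_cancel, add_sub_cancel, mat_mul, mat_mul, Matrix.mul_assoc, Xm_A1,
        Matrix.mul_assoc, h, Xp_A2])
  rw [e3] at k1 k2 k3
  have hT := qj5_td hM ha hX
  have b1 := qj5_sub (qj5_neg (qj5_mul_l (1 - sk O' O ν * sk O O' μ) hR)) (qj5_mul_l (sk O' O ν) hY)
  have b2 := qj5_sub (qj5_mul_l (sk O O' μ) hR) hY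
  have d1 : qj5DV M ZXX := qj5_cancel hT (k1 ▸ qj5_add hX (qj5_mul_r b1 _))
  have d2 : qj5DV M ZYX := qj5_cancel hT (k2 ▸ qj5_add hQ (qj5_mul_r b2 _))
  have d3 : qj5DV M ZWX := qj5_cancel hT (k3 ▸ qj5_zero)
  intro i j
  rw [k0, mem_tI]
  rcases i with x | y | w <;> rcases j with x' | y' | w'
  · exact d1 x x'
  · exact b1 x y'
  · exact dvd_zero _
  · exact d2 y x'
  · exact b2 y y'
  · exact dvd_zero _
  · exact d3 w x'
  · exact dvd_zero _
  · exact dvd_zero _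

/-- `lowAbs` with `T = triW _ _ e₃` and `Zf m = Xp (sk ν) * Xm (-sk μ) * (Xp (-R m) * N * Xm (Q m))`
for `Q m`, `R m` chosen by `exists_Q`. Congruence modulo `t ^ M`: `Xm_A1`, `Xp_A2`, `Z_blocks`,
`dvd_of_vecMul_one_sub`. Update: `Q m + single π π ((rm i - 1) * geo M (a π))` and
`R m + single π π ((rn (a π) i - mono (a π)) * geo M (a π))` are admissible for the updated
rotation, because row `π` of `1 - AX` is `(1 - mono) e_π` modulo `t ^ M`; use `unique_Q`,
`Z_congr`, `Z_update`. -/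
theorem lowDeg (hM : 2 ≤ M) (ha : ∀ π, 1 ≤ (a π).1)
    (hc : ∀ p b, 1 ≤ p → p < M → p ≤ (univ.filter fun π => a π = (p, b)).card) (e₃ : Fin 3 ↪ W)
    {AX : Matrix (O ⊕ P) (O ⊕ P) RZ} {AY : Matrix (O' ⊕ P) (O' ⊕ P) RZ}
    (hX : ∀ x z, X ^ M ∣ (AX - diagonal (lp a) : Matrix _ _ RZ) x z)
    (hY : ∀ y z, X ^ M ∣ (AY - diagonal (lp a) : Matrix _ _ RZ) y z)
    {g : Matrix (O' ⊕ P) (O ⊕ P) RZ} {f : Matrix (O ⊕ P) (O' ⊕ P) RZ}
    {N : El ((O ⊕ P) ⊕ (O' ⊕ P) ⊕ W) RZ} (h : mat N * A1 W (1 - AX) g = A2 W (1 - AY) f) :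
    ∃ m : P → Fin 3, RotOk a m ∧
      ∀ (Q : Matrix (O' ⊕ P) (O ⊕ P) RZ) (R : Matrix (O ⊕ P) (O' ⊕ P) RZ),
        (∀ y x, X ^ M ∣ (g + Q * (1 - AX) - sk O O' fun π => rm (m π) : Matrix _ _ RZ) y x) →
        (∀ x y, X ^ M ∣ (f + R * (1 - AY) - sk O' O fun π => rn (a π) (m π) : Matrix _ _ RZ) x y) →
        Xp W (sk O' O fun π => rn (a π) (m π)) * Xm W (-sk O O' fun π => rm (m π)) *
          (Xp W (-R) * N * Xm W Q) ∈ Ed ((O ⊕ P) ⊕ (O' ⊕ P) ⊕ W) (M - 1) := by
  have hM1 : 1 ≤ M := by omega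
  have tX := qj5_td hM1 ha hX
  have tY := qj5_td hM1 ha hY
  have hT := (triW (O ⊕ P) (O' ⊕ P) e₃).three
  choose Qf hQf using fun m : P → Fin 3 => exists_Q tX M g (sk O O' fun π => rm (m π))
  choose Rf hRf using fun m : P → Fin 3 => exists_Q tY M f (sk O' O fun π => rn (a π) (m π))
  obtain ⟨m, hm, hZ⟩ := lowAbs (triW (O ⊕ P) (O' ⊕ P) e₃) hM a (fun π => eX _ _ W (inr π))
    (fun π => eY _ _ W (inr π)) (fun π => by simp [qr6_eX, qr6_eY]) hc
    (fun m => Xp W (sk O' O fun π => rn (a π) (m π)) * Xm W (-sk O O' fun π => rm (m π)) *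
      (Xp W (-Rf m) * N * Xm W (Qf m)))
    (fun m _ => qj5_cong hM1 ha hX hY h (fun π => rm_mul_rn (ha π) _) (hQf m) (hRf m))
    (fun m π i _ h0 _ => by
      have r0 : rm (m π) = 1 := by rw [h0]; rfl
      have r1 : rn (a π) (m π) = mono (a π) := by rw [h0]; rfl
      have u1 : (fun π' => rm (Function.update m π i π')) =
          Function.update (fun π' => rm (m π')) π (rm i) := by
        funext π'
        by_cases e : π' = π
        · subst e
          simp
        · simp [Function.update_of_ne e]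
      have u2 : (fun π' => rn (a π') (Function.update m π i π')) =
          Function.update (fun π' => rn (a π') (m π')) π (rn (a π) i) := by
        funext π'
        by_cases e : π' = π
        · subst e
          simp
        · simp [Function.update_of_ne e]
      have a1 := qj5_adm ha hX (hQf m) π (rm i - 1)
      have a2 := qj5_adm ha hY (hRf m) π (rn (a π) i - mono (a π))
      rw [r0, add_sub_cancel, ← u1] at a1
      rw [r1, add_sub_cancel, ← u2] at a2
      have k := Z_congr hT (Xp W (sk O' O fun π' => rn (a π') (Function.update m π i π')) *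
        Xm W (-sk O O' fun π' => rm (Function.update m π i π'))) N
        (unique_Q tX (hQf _) a1) (unique_Q tY (hRf _) a2)
      convert k using 3
      rw [u1, u2, Z_update, r0, r1, Lw]
      have e : -((rn (a π) i - mono (a π)) * geo M (a π)) = (mono (a π) - rn (a π) i) * geo M (a π) := by
        ring
      rw [e]
      group)
  refine ⟨m, hm, fun Q R hQ hR => ?_⟩
  have k := Ed_anti (Nat.sub_le M 1) (Z_congr hT (Xp W (sk O' O fun π => rn (a π) (m π)) *
    Xm W (-sk O O' fun π => rm (m π))) N (unique_Q tX hQ (hQf m)) (unique_Q tY hR (hRf m)))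
  have := mul_mem k hZ
  rwa [inv_mul_cancel_right] at this

end Pool.Agent.Lib.MP_71aad1_an.SS
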