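import Pool.Agent.Lib.MP_71aad1_an.QJ2

set_option autoImplicit false

namespace Pool.Agent.Lib.MP_71aad1_an.SS

open Polynomial Matrix Finset Sum

/-! Bounds for combinations of the rows at the start of the path. -/

variable {O O' P W : Type} [Fintype O] [DecidableEq O] [Fintype O'] [DecidableEq O'] [Fintype P]
  [DecidableEq P] [Fintype W] [DecidableEq W] {r θ ε K Ω Ω' : ℝ} {M s : ℕ} {a : P → ℕ × Bool}
  {μ : P → RZ} {BX : Matrix (J (O ⊕ P)) (J (O ⊕ P)) RZ} {g : Matrix (O' ⊕ P) (J (O ⊕ P)) RZ}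

theorem qj8_sum {A : Type} [AddCommMonoid A] (f : Option ((O ⊕ P) ⊕ (O' ⊕ P) ⊕ W) → A) :
    ∑ i, f i = f none + (∑ x, f (some (inl x)) +
      (∑ y, f (some (inr (inl y))) + ∑ w, f (some (inr (inr w))))) := by
  rw [Fintype.sum_option, Fintype.sum_sum_type, Fintype.sum_sum_type (α₂ := W)]

theorem qj8_single {V : Type} [DecidableEq V] (hr : 0 ≤ r) (hK : 1 ≤ K) (k : ℕ) (h : Fin 3) :
    N0 r ((Pi.single (inr 0) (X ^ k) : J V → RZ) (inr h)) ≤ K * r ^ k := by
  have p : 0 ≤ r ^ k := pow_nonneg hr k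
  rw [Pi.single_apply]
  split_ifs
  · rw [N0_X_pow]
    exact le_mul_of_one_le_left p hK
  · rw [N0_zero]
    exact mul_nonneg (by linarith) p

theorem qj8_hub (hr : 0 ≤ r) (hK : 1 ≤ K) (hg : Lft r M s ε K a μ g) (e₃ : Fin 3 ↪ W)
    (i : Option ((O ⊕ P) ⊕ (O' ⊕ P) ⊕ W)) (h : Fin 3)
    (hi : ∀ x, i = some (inl x) → N0 r (BX (inl x) (inr h)) ≤ K * wt r s a x) :
    N0 r (rho1 (sjF O O' s a e₃) BX g i (inr h)) ≤ K * r ^ sjF O O' s a e₃ i := by
  rcases i with _ | x | y | w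
  · exact qj8_single hr hK _ h
  · change N0 r (extv _ _ _) ≤ _
    rw [extv_inr]
    exact hi x rfl
  · change N0 r (extv _ _ _) ≤ _
    rw [extv_inr]
    exact hg.hubn y h
  · exact qj8_single hr hK _ h

omit [Fintype O] [DecidableEq O] [DecidableEq O'] in
theorem qj8_sk (hr : 0 ≤ r) (hμ : ∀ π, N1 r (μ π) ≤ 1) {c : O' ⊕ P → RZ} {η : ℝ} (hη : 0 ≤ η)
    (hc : ∀ y, N1 r (c y) ≤ η) (x : O ⊕ P) : N0 r ((c ᵥ* sk O O' μ) x) ≤ η := by
  rcases x with o | π
  · have : (c ᵥ* sk O O' μ) (inl o) = 0 := by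
      simp [sk, vecMul, dotProduct, Fintype.sum_sum_type]
    rw [this, N0_zero]
    exact hη
  · have : (c ᵥ* sk O O' μ) (inr π) = c (inr π) * μ π := by
      simp [sk, vecMul, dotProduct, Fintype.sum_sum_type, diagonal_apply]
    rw [this]
    refine (N0_mul_le' hr _ _).trans ?_
    calc _ ≤ η * 1 := mul_le_mul (hc _) ((N0_le_N1 hr _).trans (hμ π)) (N0_nonneg hr _) hη
      _ = η := mul_one η

omit [Fintype O'] [DecidableEq O'] in
theorem qj8_small (hr : 0 ≤ r) (hε : ε ≤ 1) (hg : Lft r M s ε K a μ g) (y : O' ⊕ P) (x : O ⊕ P) :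
    N0 r ((g.submatrix id inl - sk O O' μ : Matrix _ _ RZ) y x) ≤ 1 * wt r s a y :=
  ((N0_le_N1 hr _).trans ((hg.small y).2 x)).trans
    (mul_le_mul_of_nonneg_right hε (pow_nonneg hr _))

theorem qj8_Y (sj : Option ((O ⊕ P) ⊕ (O' ⊕ P) ⊕ W) → ℕ) (y : O' ⊕ P) (x : O ⊕ P) :
    rho1 sj BX g (some (inr (inl y))) (inl (eX' (O ⊕ P) (O' ⊕ P) W x)) = g y (inl x) :=
  extv_inl _ _ _

theorem qj8_X (sj : Option ((O ⊕ P) ⊕ (O' ⊕ P) ⊕ W) → ℕ) (x' x : O ⊕ P) :
    rho1 sj BX g (some (inl x')) (inl (eX' (O ⊕ P) (O' ⊕ P) W x)) = BX (inl x') (inl x) :=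
  extv_inl _ _ _

theorem qj8_z {V : Type} [DecidableEq V] (p : RZ) (z : V) :
    (Pi.single (inr 0) p : J V → RZ) (inl z) = 0 := Pi.single_eq_of_ne (by simp) _

theorem qj8_none (sj : Option ((O ⊕ P) ⊕ (O' ⊕ P) ⊕ W) → ℕ) (z : Option ((O ⊕ P) ⊕ (O' ⊕ P) ⊕ W)) :
    rho1 sj BX g none (inl z) = 0 := qj8_z _ _

theorem qj8_W (sj : Option ((O ⊕ P) ⊕ (O' ⊕ P) ⊕ W) → ℕ) (w : W)
    (z : Option ((O ⊕ P) ⊕ (O' ⊕ P) ⊕ W)) :
    rho1 sj BX g (some (inr (inr w))) (inl z) = 0 := qj8_z _ _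

/-- Hub columns: every row `i` has `N0 ≤ K * weight i` (`N0_vecMul_le`). Active column `eX' x`: the
entry is `c (eX' x) * lp a x + (c (eY' ·) ᵥ* sk μ) x` plus the combination of the small rows, which
have entries `N1 ≤ weight`; so it is at most `η + η + η`. The other active columns vanish
(`rho1_supp`). -/
theorem rho1_cb (hr : 0 ≤ r) (hr' : r ≤ 1 / 2) (hθ : θ ≤ 1) (hε : ε ≤ 1) (hK : 3 ≤ K)
    (hX : Core r M s θ K Ω a BX) (hg : Lft r M s ε K a μ g) (hμ : ∀ π, N1 r (μ π) ≤ 1)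
    (e₃ : Fin 3 ↪ W) : CB r (fun i => r ^ sjF O O' s a e₃ i) K (rho1 (sjF O O' s a e₃) BX g) := by
  intro c η hc j
  have hη : 0 ≤ η := hc.nonneg hr fun i => pow_nonneg hr _
  rcases j with z | h
  · by_cases hz : ∃ x, eX' (O ⊕ P) (O' ⊕ P) W x = z
    · obtain ⟨x, rfl⟩ := hz
      have e : (c ᵥ* rho1 (sjF O O' s a e₃) BX g) (inl (eX' (O ⊕ P) (O' ⊕ P) W x)) =
          (((fun x' => c (some (inl x'))) ᵥ* sml a BX) x +
            ((fun y => c (some (inr (inl y)))) ᵥ* (g.submatrix id inl - sk O O' μ)) x) +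
          (c (some (inl x)) * lp a x + ((fun y => c (some (inr (inl y)))) ᵥ* sk O O' μ) x) := by
        rw [sml, vecMul_sub, vecMul_sub, Pi.sub_apply, Pi.sub_apply, vecMul_diagonal]
        change ∑ i, c i * rho1 (sjF O O' s a e₃) BX g i _ =
          ∑ x', c (some (inl x')) * BX (inl x') (inl x) - _ +
            (∑ y, c (some (inr (inl y))) * g y (inl x) - _) + _
        rw [qj8_sum]
        simp only [qj8_X, qj8_Y, qj8_none, qj8_W, mul_zero, sum_const_zero]
        ring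
      have b1 := N0_vecMul_le hr (w := wt r s a) (c := 1) (fun x' => c (some (inl x'))) x
        (β := sml a BX) fun x' => ((N0_le_N1 hr _).trans ((hX.small x').2 x)).trans
          (mul_le_mul_of_nonneg_right hθ (pow_nonneg hr _))
      have b2 := N0_vecMul_le hr (w := wt r s a) (c := 1) (fun y => c (some (inr (inl y)))) x
        fun y => qj8_small hr hε hg y x
      have b3 : Sw r (wt r s a) (fun x' => c (some (inl x'))) +
          Sw r (wt r s a) (fun y => c (some (inr (inl y)))) ≤ η := by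
        refine le_trans ?_ hc.1
        rw [Sw, Sw, Sw, qj8_sum]
        have p1 : 0 ≤ N1 r (c none) * r ^ sjF O O' s a e₃ none :=
          mul_nonneg (N1_nonneg hr _) (pow_nonneg hr _)
        have p2 : 0 ≤ ∑ w, N1 r (c (some (inr (inr w)))) * r ^ sjF O O' s a e₃ (some (inr (inr w))) :=
          sum_nonneg fun w _ => mul_nonneg (N1_nonneg hr _) (pow_nonneg hr _)
        have q1 : ∑ x', N1 r (c (some (inl x'))) * wt r s a x' =
          ∑ x', N1 r (c (some (inl x'))) * r ^ sjF O O' s a e₃ (some (inl x')) := rfl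
        have q2 : ∑ y, N1 r (c (some (inr (inl y)))) * wt r s a y =
          ∑ y, N1 r (c (some (inr (inl y)))) * r ^ sjF O O' s a e₃ (some (inr (inl y))) := rfl
        linarith
      have b4 : N0 r (c (some (inl x)) * lp a x) ≤ η := by
        refine (N0_mul_le' hr _ _).trans ?_
        have : N0 r (lp a x) ≤ 1 := by
          rcases x with o | π
          · exact (N0_zero (K := ℤ)).le.trans zero_le_one
          · exact ((N0_le_N1 hr _).trans (N1_mono_le hr hr' (hX.deg π).1)).trans (by linarith)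
        calc _ ≤ η * 1 := mul_le_mul (hc.2 _) this (N0_nonneg hr _) hη
          _ = η := mul_one η
      have b5 := qj8_sk (O := O) hr hμ hη (c := fun y => c (some (inr (inl y)))) (fun y => hc.2 _) x
      rw [e]
      refine (N0_add_le hr _ _).trans ((add_le_add (N0_add_le hr _ _) (N0_add_le hr _ _)).trans ?_)
      nlinarith
    · have : (c ᵥ* rho1 (sjF O O' s a e₃) BX g) (inl z) = 0 :=
        sum_eq_zero fun i _ => by
          change c i * rho1 _ BX g i (inl z) = 0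
          rw [rho1_supp _ _ _ fun x hx => hz ⟨x, hx⟩, mul_zero]
      rw [this, N0_zero]
      exact mul_nonneg (by linarith) hη
  · exact (N0_vecMul_le hr c (inr h) fun i =>
      qj8_hub hr (by linarith) hg e₃ i h fun x _ => hX.hubn x h).trans
        (mul_le_mul_of_nonneg_left hc.1 (by linarith))

open Classical in
/-- Hub columns: at most `K * ∑ weights`. Active column `eX' x`: at most one entry `μ π` and small
entries with `N1 ≤ weight`. -/
theorem rho1_col (hr : 0 ≤ r) (hε : ε ≤ 1) (hK : 1 ≤ K) (hg : Lft r M s ε K a μ g)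
    (hμ : ∀ π, N1 r (μ π) ≤ 1) (e₃ : Fin 3 ↪ W) (hΩ : ∑ i, r ^ sjF O O' s a e₃ i ≤ Ω')
    (j : J (Option ((O ⊕ P) ⊕ (O' ⊕ P) ⊕ W))) :
    N0 r (∑ i ∈ univ.filter fun i => ∀ x, eX' (O ⊕ P) (O' ⊕ P) W x ≠ i,
      rho1 (sjF O O' s a e₃) BX g i j) ≤ K * Ω' + 1 := by
  have p0 : ∀ i, 0 ≤ r ^ sjF O O' s a e₃ i := fun i => pow_nonneg hr _
  have hΩ0 : 0 ≤ Ω' := (sum_nonneg fun i _ => p0 i).trans hΩ
  have hKΩ : Ω' ≤ K * Ω' := le_mul_of_one_le_left hΩ0 hK
  rcases j with z | h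
  · by_cases hz : ∃ x, eX' (O ⊕ P) (O' ⊕ P) W x = z
    · obtain ⟨x, rfl⟩ := hz
      have e : ∑ i ∈ univ.filter fun i => ∀ x, eX' (O ⊕ P) (O' ⊕ P) W x ≠ i,
          rho1 (sjF O O' s a e₃) BX g i (inl (eX' (O ⊕ P) (O' ⊕ P) W x)) =
          ∑ y, (g.submatrix id inl - sk O O' μ : Matrix _ _ RZ) y x +
            ((fun _ => 1) ᵥ* sk O O' μ) x := by
        have e1 : ∀ x' : O ⊕ P, ¬ ∀ x, eX' (O ⊕ P) (O' ⊕ P) W x ≠ some (inl x') :=
          fun x' h => h x' rfl
        have e2 : ∀ y : O' ⊕ P, ∀ x, eX' (O ⊕ P) (O' ⊕ P) W x ≠ some (inr (inl y)) :=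
          fun y x h => by cases h
        rw [sum_filter, qj8_sum]
        simp only [if_neg (e1 _), if_pos (e2 _), qj8_Y, qj8_none, qj8_W, ite_self, sum_const_zero,
          zero_add, add_zero]
        change _ = _ + ∑ y, 1 * sk O O' μ y x
        rw [← sum_add_distrib]
        refine sum_congr rfl fun y _ => ?_
        rw [Matrix.sub_apply, one_mul, sub_add_cancel]
        rfl
      rw [e]
      have b1 := (N0_sum_le hr univ _).trans (sum_le_sum fun y _ => qj8_small hr hε hg y x)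
      have b2 := qj8_sk (O := O) (O' := O') hr hμ zero_le_one (c := fun _ => 1)
        (fun _ => (N1_one (K := ℤ)).le) x
      have b3 : ∑ y : O' ⊕ P, 1 * wt r s a y ≤ Ω' := by
        refine le_trans ?_ hΩ
        rw [qj8_sum]
        have q : ∑ y : O' ⊕ P, 1 * wt r s a y = ∑ y, r ^ sjF O O' s a e₃ (some (inr (inl y))) :=
          sum_congr rfl fun y _ => one_mul _
        have p1 := p0 none
        have p2 : 0 ≤ ∑ x, r ^ sjF O O' s a e₃ (some (inl x)) := sum_nonneg fun _ _ => p0 _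
        have p3 : 0 ≤ ∑ w, r ^ sjF O O' s a e₃ (some (inr (inr w))) := sum_nonneg fun _ _ => p0 _
        linarith
      refine (N0_add_le hr _ _).trans ?_
      linarith
    · rw [sum_eq_zero fun i _ => rho1_supp _ _ _ fun x hx => hz ⟨x, hx⟩, N0_zero]
      linarith
  · have b1 := (N0_sum_le hr (univ.filter fun i => ∀ x, eX' (O ⊕ P) (O' ⊕ P) W x ≠ i) _).trans
      (sum_le_sum fun i hi => qj8_hub (BX := BX) hr hK hg e₃ i h fun x hx =>
        absurd hx.symm ((mem_filter.1 hi).2 x))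
    have b2 := mul_le_mul_of_nonneg_left ((sum_le_sum_of_subset_of_nonneg
      (filter_subset (fun i => ∀ x, eX' (O ⊕ P) (O' ⊕ P) W x ≠ i) univ) fun i _ _ => p0 i).trans hΩ)
      (show 0 ≤ K by linarith)
    rw [mul_sum] at b2
    linarith

end Pool.Agent.Lib.MP_71aad1_an.SS
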