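import Pool.Agent.Lib.MP_71aad1_an.QL5

set_option autoImplicit false

namespace Pool.Agent.Lib.MP_71aad1_an.SS

open Polynomial Matrix Finset Sum

/-! Deflation: prescribing the exits of the periodic states. -/

section
variable {V : Type} [Fintype V] [DecidableEq V]

omit [DecidableEq V] in
theorem ql8_mul (B : Matrix (J V) (J V) RZ) (E : Matrix V (Fin 3) RZ) :
    B * fromBlocks 0 E 0 0 = fromBlocks 0 (B.toBlocks₁₁ * E) 0 (B.toBlocks₂₁ * E) := by
  conv_lhs => rw [← fromBlocks_toBlocks B]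
  rw [fromBlocks_multiply]
  simp only [Matrix.mul_zero, add_zero]

omit [DecidableEq V] in
theorem ql8_dd (E E' : Matrix V (Fin 3) RZ) :
    (fromBlocks 0 E 0 0 : Matrix (J V) (J V) RZ) * fromBlocks 0 E' 0 0 = 0 := by
  rw [fromBlocks_multiply]
  simp only [Matrix.mul_zero, Matrix.zero_mul, add_zero, fromBlocks_zero]

theorem ql8_exp (B D : Matrix (J V) (J V) RZ) : 1 - (1 - B) * (1 + D) = B - D + B * D := by
  simp only [mul_add, sub_mul, mul_one, one_mul]
  abel

/-- The system after a deflation with the hub parts `E`. -/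
noncomputable def dfB (B : Matrix (J V) (J V) RZ) (E : Matrix V (Fin 3) RZ) :
    Matrix (J V) (J V) RZ := 1 - (1 - B) * (1 + fromBlocks 0 E 0 0)

theorem ql8_11 (B : Matrix (J V) (J V) RZ) (E : Matrix V (Fin 3) RZ) (i : J V) (z : V) :
    dfB B E i (inl z) = B i (inl z) := by
  rw [dfB, ql8_exp, ql8_mul, Matrix.add_apply, Matrix.sub_apply]
  cases i <;> simp

theorem ql8_12 (B : Matrix (J V) (J V) RZ) (E : Matrix V (Fin 3) RZ) (x : V) (h : Fin 3) :
    dfB B E (inl x) (inr h) =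
      B (inl x) (inr h) - E x h + (B.toBlocks₁₁ * E : Matrix V (Fin 3) RZ) x h := by
  rw [dfB, ql8_exp, ql8_mul, Matrix.add_apply, Matrix.sub_apply]
  simp

theorem ql8_22 (B : Matrix (J V) (J V) RZ) (E : Matrix V (Fin 3) RZ) (k h : Fin 3) :
    dfB B E (inr k) (inr h) =
      B (inr k) (inr h) + (B.toBlocks₂₁ * E : Matrix (Fin 3) (Fin 3) RZ) k h := by
  rw [dfB, ql8_exp, ql8_mul, Matrix.add_apply, Matrix.sub_apply]
  simp

omit [Fintype V] [DecidableEq V] in
theorem ql8_supp (E : Matrix V (Fin 3) RZ) (i j : J V)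
    (h : (fromBlocks 0 E 0 0 : Matrix (J V) (J V) RZ) i j ≠ 0) :
    (∃ v, i = inl v) ∧ ∃ k, j = inr k := by
  rcases i with v | k <;> rcases j with z | l
  · simp at h
  · exact ⟨⟨v, rfl⟩, l, rfl⟩
  · simp at h
  · simp at h

theorem ql8_mv {B : Matrix (J V) (J V) RZ} (hB : PT B) {E : Matrix V (Fin 3) RZ} (hE : MPos E)
    (h : ∀ x k, Pos (B (inl x) (inr k) - E x k)) :
    Mv B (dfB B E) := by
  have e : dfB B E = (B - fromBlocks 0 E 0 0) * (1 + fromBlocks 0 E 0 0) := by
    rw [dfB, ql8_exp]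
    simp only [mul_add, sub_mul, mul_one, ql8_dd, sub_zero]
  rw [e]
  refine mv_defl hB ?_ ?_ (ql8_supp E)
  · rintro (v | k) (z | l)
    · exact Pos.zero
    · exact hE v l
    · exact Pos.zero
    · exact Pos.zero
  · rintro (v | k) (z | l)
    · simpa using hB.1 (inl v) (inl z)
    · simpa using h v l
    · simpa using hB.1 (inr k) (inl z)
    · simpa using hB.1 (inr k) (inr l)

omit [DecidableEq V] in
theorem ql8_dvd {U W : Type} {A : Matrix U V RZ} {p : RZ} {x : U} (h : ∀ z, p ∣ A x z)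
    (E : Matrix V W RZ) (k : W) : p ∣ (A * E : Matrix U W RZ) x k := by
  rw [mul_apply]
  exact Finset.dvd_sum fun z _ => (h z).mul_right _

end

variable {O P : Type} [Fintype O] [DecidableEq O] [Fintype P] [DecidableEq P]

omit [Fintype O] [DecidableEq O] [Fintype P] [DecidableEq P] in
theorem ql8_lp (a : P → ℕ × Bool) (x : O ⊕ P) : Pos (lp a x) := by
  cases x
  · exact Pos.zero
  · exact Pos.mono _

/-- The total hub parts after `n` steps. -/
noncomputable def dfE (a : P → ℕ × Bool) (b R : Matrix (O ⊕ P) (Fin 3) RZ) (n : ℕ) :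
    Matrix (O ⊕ P) (Fin 3) RZ := b + diagonal (fun x => ∑ i ∈ range n, lp a x ^ i) * R

theorem ql8_E (a : P → ℕ × Bool) (b R : Matrix (O ⊕ P) (Fin 3) RZ) (n : ℕ) (x : O ⊕ P) (k : Fin 3) :
    dfE a b R n x k = b x k + (∑ i ∈ range n, lp a x ^ i) * R x k := by
  exact congrArg (fun t => b x k + t) (diagonal_mul (fun x => ∑ i ∈ range n, lp a x ^ i) R x k)

theorem ql8_Epos (a : P → ℕ × Bool) {b R : Matrix (O ⊕ P) (Fin 3) RZ} (hb : MPos b) (hR : MPos R)
    (n : ℕ) : MPos (dfE a b R n) := fun x k => by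
  rw [ql8_E]
  exact (hb x k).add ((Pos.sum _ fun i _ => (ql8_lp a x).pow i).mul (hR x k))

theorem ql8_ent (a : P → ℕ × Bool) (B : Matrix (J (O ⊕ P)) (J (O ⊕ P)) RZ)
    (b R : Matrix (O ⊕ P) (Fin 3) RZ) (n : ℕ) (x : O ⊕ P) (k : Fin 3) :
    dfB B (dfE a b R n) (inl x) (inr k) =
      (B (inl x) (inr k) - b x k - R x k) + lp a x * b x k + lp a x ^ n * R x k +
        (sml a B * dfE a b R n : Matrix (O ⊕ P) (Fin 3) RZ) x k := by
  have e : B.toBlocks₁₁ = sml a B + diagonal (lp a) := by rw [sml, sub_add_cancel]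
  rw [ql8_12, e, Matrix.add_mul, Matrix.add_apply, diagonal_mul, ql8_E]
  have g := mul_neg_geom_sum (lp a x) n
  linear_combination (-R x k) * g

/-- Repeated `mv_defl`. First move `D₀` (row `inl x` has the hub part `b x`), then for
`k = 0, .., n - 1` the matrix with the hub parts `lp a x ^ k • R x`. All these matrices have product
zero, so `1 - B_k = (1 - B) (1 + D_k)` with `D_k` having the hub parts
`b x + (∑_{i < k} lp a x ^ i) • R x`; the hub part of row `x` of `B_k = 1 - (1 - B) (1 + D_k)` is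
`(β x - b x - R x) + lp a x • b x + lp a x ^ k • R x + (sml a B * D_k) x`. -/
theorem defl_iter {a : P → ℕ × Bool} {B : Matrix (J (O ⊕ P)) (J (O ⊕ P)) RZ} (hB : PT B)
    (h0 : ∀ v, B (inr 0) (inl v) = 0) (hs : MPos (sml a B)) (b R : Matrix (O ⊕ P) (Fin 3) RZ)
    (hb : MPos b) (hR : MPos R) (h : MPos (B.toBlocks₁₂ - b - R)) (n : ℕ) :
    PT (1 - (1 - B) * (1 + fromBlocks 0 (b + diagonal (fun x => ∑ i ∈ range n, lp a x ^ i) * R) 0 0)) ∧
    Mv B (1 - (1 - B) *
      (1 + fromBlocks 0 (b + diagonal (fun x => ∑ i ∈ range n, lp a x ^ i) * R) 0 0)) := by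
  have h' : ∀ x k, Pos (B (inl x) (inr k) - b x k - R x k) := fun x k => h x k
  change PT (dfB B (dfE a b R n)) ∧ Mv B (dfB B (dfE a b R n))
  have hpt : ∀ n : ℕ, PT (dfB B (dfE a b R n)) := by
    intro n
    have hE := ql8_Epos a hb hR n
    refine ⟨?_, ?_⟩
    · rintro i (z | l)
      · rw [ql8_11]; exact hB.1 _ _
      · rcases i with x | k
        · rw [ql8_ent]
          exact (((h' x l).add ((ql8_lp a x).mul (hb x l))).add
            (((ql8_lp a x).pow n).mul (hR x l))).add (hs.mul hE x l)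
        · rw [ql8_22]
          exact (hB.1 _ _).add (MPos.mul (A := B.toBlocks₂₁) (fun i j => hB.1 _ _) hE k l)
    · rintro i (z | l)
      · rw [ql8_11]; exact hB.2 _ _
      · rcases i with x | k
        · have hx : X ^ 1 ∣ B (inl x) (inr l) := by rw [pow_one]; exact hB.2 _ _
          have h1 : X ^ 1 ∣ b x l := (hb x l).dvd_of_le (by
            have := (h' x l).add (hR x l)
            rwa [sub_add_cancel] at this) hx
          have h2 : X ^ 1 ∣ R x l := (hR x l).dvd_of_le (by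
            have := (h' x l).add (hb x l)
            rwa [sub_right_comm, sub_add_cancel] at this) hx
          rw [pow_one] at h1 h2
          rw [ql8_12, ql8_E]
          exact ((hB.2 _ _).sub (h1.add (h2.mul_left _))).add
            (ql8_dvd (A := B.toBlocks₁₁) (fun z => hB.2 _ _) _ _)
        · rw [ql8_22]
          exact (hB.2 _ _).add (ql8_dvd (A := B.toBlocks₂₁) (fun z => hB.2 _ _) _ _)
  refine ⟨hpt n, ?_⟩
  induction n with
  | zero =>
    refine ql8_mv hB (ql8_Epos a hb hR 0) fun x k => ?_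
    rw [ql8_E, sum_range_zero, zero_mul, add_zero]
    have := (h' x k).add (hR x k)
    rwa [sub_add_cancel] at this
  | succ n ih =>
    have hE' : MPos (of fun x k => lp a x ^ n * R x k) := fun x k =>
      ((ql8_lp a x).pow n).mul (hR x k)
    have hm := ql8_mv (hpt n) hE' fun x k => by
      rw [ql8_ent, of_apply, add_right_comm, add_sub_cancel_right]
      exact ((h' x k).add ((ql8_lp a x).mul (hb x k))).add (hs.mul (ql8_Epos a hb hR n) x k)
    have e : dfE a b R (n + 1) = dfE a b R n + of fun x k => lp a x ^ n * R x k := by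
      ext1 x k
      rw [Matrix.add_apply, ql8_E, ql8_E, of_apply, sum_range_succ]
      ring
    have e2 : ∀ E E' : Matrix (O ⊕ P) (Fin 3) RZ,
        (1 + fromBlocks 0 (E + E') 0 0 : Matrix (J (O ⊕ P)) (J (O ⊕ P)) RZ) =
          (1 + fromBlocks 0 E 0 0) * (1 + fromBlocks 0 E' 0 0) := by
      intro E E'
      simp only [mul_add, add_mul, mul_one, one_mul, ql8_dd, add_zero, add_assoc, fromBlocks_add]
    have e3 : ∀ E E' : Matrix (O ⊕ P) (Fin 3) RZ, dfB (dfB B E) E' = dfB B (E + E') := by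
      intro E E'
      rw [dfB, dfB, dfB, sub_sub_cancel, Matrix.mul_assoc, ← e2]
    rw [e3, ← e] at hm
    refine ih.trans hm fun v => ?_
    rw [Matrix.sub_apply, ql8_11, h0, one_apply_ne (by simp), sub_zero]

/-- The small matrix is positive: on the diagonal `B π π - mono (a π)` has order above the degree
of the loop, so `B π π` has the same low coefficients as `mono (a π)`. -/
theorem Core.sml_pos {r θ K Ω : ℝ} {M s : ℕ} {a : P → ℕ × Bool}
    {B : Matrix (J (O ⊕ P)) (J (O ⊕ P)) RZ} (h : Core r M s θ K Ω a B) (hB : MPos B) :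
    MPos (sml a B) := by
  intro x z
  have e : sml a B x z = B (inl x) (inl z) - diagonal (lp a) x z := rfl
  by_cases hxz : x = z
  · subst hxz
    rcases x with o | π
    · rw [e, diagonal_apply_eq]
      simpa [lp] using hB _ _
    · intro j
      by_cases hj : j < dg a (inr π : O ⊕ P) + M
      · rw [X_pow_dvd_iff.1 (h.ord (inr π) (inr π)) j hj]
        exact LPos.zero
      · have hd := h.deg π
        have hj' : j ≠ (a π).1 := by
          simp only [dg, Sum.elim_inr] at hj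
          omega
        have hc : (lp a (inr π : O ⊕ P)).coeff j = 0 := by
          change (SS.mono (a π)).coeff j = 0
          rcases PM.mono (a π) with e' | e'
          · rw [e', coeff_X_pow, if_neg hj']
          · rw [e', gR, coeff_C_mul, coeff_X_pow, if_neg hj', mul_zero]
        rw [e, diagonal_apply_eq, coeff_sub, hc, sub_zero]
        exact hB _ _ j
  · rw [e, diagonal_apply_ne _ hxz, sub_zero]
    exact hB _ _

theorem ql8_N0_le {r : ℝ} (hr : 0 ≤ r) {p q : RZ} (hp : Pos p) (h : Pos (q - p)) :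
    N0 r p ≤ N0 r q := by
  rw [N0_eq_ev hp, N0_eq_ev (h.of_sub hp)]
  exact ev_le hr h

theorem ql8_UM_pow {j : ℕ} {m : RZ} (h : UM j m) (n : ℕ) : UM (j * n) (m ^ n) := by
  induction n with
  | zero => simpa using UM.X_pow 0
  | succ n ih => rw [pow_succ, Nat.mul_succ]; exact ih.mul h

theorem ql8_bud (s : ℕ) : Pos (bud s - X ^ s) := by
  have e : bud s - X ^ s = X ^ s + (gR * X ^ s + gR * X ^ s) +
      (uR * X ^ (s + 1) + uR * X ^ (s + 1)) := by
    rw [bud, uR_eq]; ring
  rw [e]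
  exact ((Pos.X_pow s).add ((Pos.gR.mul (Pos.X_pow s)).add (Pos.gR.mul (Pos.X_pow s)))).add
    ((Pos.uR.mul (Pos.X_pow _)).add (Pos.uR.mul (Pos.X_pow _)))

/-- `defl_iter` with `n = M`, `b π = b₂ π e₀`, `R π = β π - (b₁ π + b₂ π) e₀`, and `b = R = 0` on the
ordinary states. `N0 (D π h) ≤ 3 K wt π` (`N0_eq_ev`, `ev_le`, `N0_geom_le`),
`N0 ((sml * D) x h) ≤ 3 K θ wt x` (`N0_vecMul_le`), `N0 (mono ^ M * R π h) ≤ r ^ M K wt π`. -/
theorem defl {r θ θ' K Ω : ℝ} {M s sm s0 : ℕ} {ar : RZ} {a : P → ℕ × Bool}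
    {B : Matrix (J (O ⊕ P)) (J (O ⊕ P)) RZ} (h : Side r M s θ K Ω ar sm s0 a B) (hr : 0 < r)
    (hr' : r ≤ 1 / 2) (hθ0 : 0 ≤ θ) (hθ : θ ≤ 1 / 2) (hK : 0 ≤ K)
    (hθ' : θ + r ^ M * K + 3 * K * θ ≤ θ') (b₁ b₂ : P → RZ)
    (h₁ : ∀ π, Pos (b₁ π) ∧ X ^ (a π).1 ∣ b₁ π) (h₂ : ∀ π, Pos (b₂ π) ∧ X ^ (a π).1 ∣ b₂ π)
    (hb : ∀ π, Pos (mono (a π) * bud s - b₁ π - b₂ π)) :
    ∃ B' D : Matrix (J (O ⊕ P)) (J (O ⊕ P)) RZ,
      (∀ i j, D i j ≠ 0 → (∃ v, i = inl v) ∧ ∃ k, j = inr k) ∧ 1 - B' = (1 - B) * (1 + D) ∧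
      Mv B B' ∧ Side2 r M s θ' (5 * K) Ω ar sm s0 a (fun π => b₁ π + mono (a π) * b₂ π) B' := by
  have hP := h.hub.pt
  have hs := h.core.sml_pos hP.1
  have hr1 : r ≤ 1 := by linarith
  have hw : ∀ x : O ⊕ P, 0 < wt r s a x := fun x => pow_pos hr _
  have h0 : ∀ v, B (inr 0) (inl v) = 0 := fun v => by rw [h.hub.ha]; rfl
  obtain ⟨b, hbo, hbp⟩ : ∃ b : Matrix (O ⊕ P) (Fin 3) RZ, (∀ o k, b (inl o) k = 0) ∧
      ∀ π k, b (inr π) k = if k = 0 then b₂ π else 0 :=
    ⟨Sum.elim (fun _ _ => 0) fun π k => if k = 0 then b₂ π else 0, fun _ _ => rfl, fun _ _ => rfl⟩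
  obtain ⟨R, hRo, hRp⟩ : ∃ R : Matrix (O ⊕ P) (Fin 3) RZ, (∀ o k, R (inl o) k = 0) ∧
      ∀ π k, R (inr π) k = B (inl (inr π)) (inr k) - if k = 0 then b₁ π + b₂ π else 0 :=
    ⟨Sum.elim (fun _ _ => 0) fun π k => B (inl (inr π)) (inr k) - if k = 0 then b₁ π + b₂ π else 0,
      fun _ _ => rfl, fun _ _ => rfl⟩
  have hbP : MPos b := by
    rintro (o | π) k
    · rw [hbo]; exact Pos.zero
    · rw [hbp]
      split_ifs
      · exact (h₂ π).1
      · exact Pos.zero
  have hRP : MPos R := by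
    rintro (o | π) k
    · rw [hRo]; exact Pos.zero
    · rw [hRp]
      split_ifs with hk
      · subst hk
        have := (h.budP π).add (hb π)
        rwa [sub_sub, sub_add_sub_cancel] at this
      · rw [sub_zero]; exact hP.1 _ _
  have hd : ∀ π k, B (inl (inr π)) (inr k) - b (inr π) k - R (inr π) k =
      if k = 0 then b₁ π else 0 := by
    intro π k
    rw [hbp, hRp]
    split_ifs <;> ring
  have hD : ∀ x k, Pos (B (inl x) (inr k) - b x k - R x k) := by
    rintro (o | π) k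
    · rw [hbo, hRo, sub_zero, sub_zero]; exact hP.1 _ _
    · rw [hd]
      split_ifs
      · exact (h₁ π).1
      · exact Pos.zero
  obtain ⟨hpt, hmv⟩ : PT (dfB B (dfE a b R M)) ∧ Mv B (dfB B (dfE a b R M)) :=
    defl_iter hP h0 hs b R hbP hRP (fun x k => hD x k) M
  have hEP := ql8_Epos a hbP hRP M
  have hent := ql8_ent a B b R M
  have hEe := ql8_E a b R M
  generalize dfE a b R M = E at hpt hmv hEP hent hEe
  have nb : ∀ x k, N0 r (b x k) ≤ K * wt r s a x := fun x k =>
    (ql8_N0_le hr.le (hbP x k) (by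
      have := (hD x k).add (hRP x k)
      rwa [sub_add_cancel] at this)).trans (h.core.hubn x k)
  have nR : ∀ x k, N0 r (R x k) ≤ K * wt r s a x := fun x k =>
    (ql8_N0_le hr.le (hRP x k) (by
      have := (hD x k).add (hbP x k)
      rwa [sub_right_comm, sub_add_cancel] at this)).trans (h.core.hubn x k)
  have nD : ∀ x k, N0 r (B (inl x) (inr k) - b x k - R x k) ≤ K * wt r s a x := fun x k =>
    (ql8_N0_le hr.le (hD x k) (by
      have := (hbP x k).add (hRP x k)
      rwa [sub_sub, sub_sub_cancel])).trans (h.core.hubn x k)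
  have nl : ∀ x : O ⊕ P, N0 r (lp a x) ≤ 1 / 2 := by
    rintro (o | π)
    · change N0 r (0 : RZ) ≤ 1 / 2
      rw [N0_zero]; norm_num
    · change N0 r (mono (a π)) ≤ 1 / 2
      rw [(PM.mono (a π)).um.N0]
      exact (pow_le_of_le_one hr.le hr1 (by have := (h.core.deg π).1; omega)).trans hr'
  have nE : ∀ x k, N0 r (E x k) ≤ 3 * K * wt r s a x := by
    intro x k
    rw [hEe]
    have h1 := N0_add_le hr.le (b x k) ((∑ i ∈ range M, lp a x ^ i) * R x k)
    have h2 := N0_mul_le hr.le (∑ i ∈ range M, lp a x ^ i) (R x k)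
    have h3 := mul_le_mul (N0_geom_le hr.le (nl x) M) (nR x k) (N0_nonneg hr.le _) zero_le_two
    have h4 := nb x k
    linarith
  have nS : ∀ x k, N0 r ((sml a B * E : Matrix (O ⊕ P) (Fin 3) RZ) x k) ≤
      3 * K * θ * wt r s a x := by
    intro x k
    have h1 := N0_vecMul_le hr.le (w := wt r s a) (c := 3 * K) (sml a B x) (β := E) k
      fun z => nE z k
    have h2 := mul_le_mul_of_nonneg_left (h.core.small x).1 (by positivity : 0 ≤ 3 * K)
    calc N0 r ((sml a B * E : Matrix (O ⊕ P) (Fin 3) RZ) x k)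
        = N0 r ((sml a B x ᵥ* E) k) := rfl
      _ ≤ 3 * K * (θ * wt r s a x) := h1.trans h2
      _ = _ := by ring
  have nM : ∀ x k, N0 r (lp a x ^ M * R x k) ≤ r ^ M * K * wt r s a x := by
    rintro (o | π) k
    · rw [hRo, mul_zero, N0_zero]
      have := hw (inl o)
      positivity
    · change N0 r (mono (a π) ^ M * _) ≤ _
      rw [(ql8_UM_pow (PM.mono (a π)).um M).N0_mul, mul_assoc]
      exact mul_le_mul (pow_le_pow_of_le_one hr.le hr1
        (Nat.le_mul_of_pos_left _ (h.core.deg π).1)) (nR _ k) (N0_nonneg hr.le _) (by positivity)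
  have hsm : sml a (dfB B E) = sml a B := by
    ext1 x z
    exact congrArg (fun t => t - diagonal (lp a) x z) (ql8_11 B E (inl x) z)
  have hrM : 0 ≤ r ^ M * K := by positivity
  have hrM' : r ^ M * K ≤ K := mul_le_of_le_one_left hK (pow_le_one₀ hr.le hr1)
  have hKθ : 0 ≤ 3 * K * θ := by positivity
  have hKθ' : 3 * K * θ ≤ 2 * K := by nlinarith
  have hper : ∀ π k, dfB B E (inl (inr π)) (inr k) -
      (if k = 0 then b₁ π + mono (a π) * b₂ π else 0) =
        lp a (inr π : O ⊕ P) ^ M * R (inr π) k +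
          (sml a B * E : Matrix (O ⊕ P) (Fin 3) RZ) (inr π) k := by
    intro π k
    rw [hent, hd, hbp]
    change _ + mono (a π) * _ + _ + _ - _ = _
    split_ifs <;> ring
  refine ⟨dfB B E, fromBlocks 0 E 0 0, ql8_supp E, sub_sub_cancel _ _, hmv, ⟨hpt, ?_, ?_, ?_⟩,
    ⟨?_, ?_, ?_, h.core.deg, h.core.sum⟩, ?_, ?_, ?_⟩
  · rw [← h.hub.ha]
    funext j
    rcases j with z | k
    · exact ql8_11 B E _ z
    · rw [ql8_22, mul_apply, Finset.sum_eq_zero, add_zero]
      intro z _
      change B (inr 0) (inl z) * _ = 0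
      rw [h0, zero_mul]
  · intro k hk z
    rw [ql8_11]
    exact h.hub.ent k hk z
  · rw [ql8_22, add_sub_right_comm]
    exact h.hub.bud1.add (MPos.mul (A := B.toBlocks₂₁) (fun i j => hP.1 _ _) hEP 1 0)
  · rw [hsm]; exact h.core.ord
  · intro x
    rw [hsm]
    have : θ * wt r s a x ≤ θ' * wt r s a x :=
      mul_le_mul_of_nonneg_right (by linarith) (hw x).le
    exact ⟨(h.core.small x).1.trans this, fun z => ((h.core.small x).2 z).trans this⟩
  · intro x k
    rw [hent]
    have h1 := N0_add_le hr.le (B (inl x) (inr k) - b x k - R x k) (lp a x * b x k)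
    have h2 := N0_add_le hr.le (B (inl x) (inr k) - b x k - R x k + lp a x * b x k)
      (lp a x ^ M * R x k)
    have h3 := N0_add_le hr.le (B (inl x) (inr k) - b x k - R x k + lp a x * b x k +
      lp a x ^ M * R x k) ((sml a B * E : Matrix (O ⊕ P) (Fin 3) RZ) x k)
    have h4 := N0_mul_le hr.le (lp a x) (b x k)
    have h5 := mul_le_mul (nl x) (nb x k) (N0_nonneg hr.le _) (by norm_num)
    have h6 := nD x k
    have h7 := nM x k
    have h8 := nS x k
    have h9 := mul_le_mul_of_nonneg_right hrM' (hw x).le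
    have h10 := mul_le_mul_of_nonneg_right hKθ' (hw x).le
    have h11 := mul_nonneg hK (hw x).le
    nlinarith
  · intro o
    rw [hent, hbo, hRo, mul_zero, mul_zero, sub_zero, sub_zero, add_zero, add_zero,
      add_sub_right_comm]
    exact ((ql8_bud s).trans (h.budO o)).add (hs.mul hEP _ _)
  · intro π
    have := hper π 0
    rw [if_pos rfl] at this
    rw [this]
    exact (((ql8_lp a _).pow M).mul (hRP _ _)).add (hs.mul hEP _ _)
  · intro π k
    rw [hper]
    refine ⟨Dvd.dvd.add ?_ (ql8_dvd (fun z => h.core.ord (inr π) z) _ _), ?_⟩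
    · rw [pow_add, mul_comm]
      refine mul_dvd_mul ?_ ?_
      · exact (pow_dvd_pow _ (Nat.le_mul_of_pos_left _ (h.core.deg π).1)).trans
          (ql8_UM_pow (PM.mono (a π)).um M).dvd
      · rw [hRp]
        refine (h.ordP π k).sub ?_
        split_ifs
        · exact (h₁ π).2.add (h₂ π).2
        · exact dvd_zero _
    · have h1 := N0_add_le hr.le (lp a (inr π : O ⊕ P) ^ M * R (inr π) k)
        ((sml a B * E : Matrix (O ⊕ P) (Fin 3) RZ) (inr π) k)
      have h2 := nM (inr π) k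
      have h3 := nS (inr π) k
      have h4 : (r ^ M * K + 3 * K * θ) * wt r s a (inr π : O ⊕ P) ≤
          θ' * wt r s a (inr π : O ⊕ P) := mul_le_mul_of_nonneg_right (by linarith) (hw _).le
      change _ ≤ θ' * wt r s a (inr π : O ⊕ P)
      linarith

end Pool.Agent.Lib.MP_71aad1_an.SS
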