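import Pool.Agent.Lib.MP_71aad1_an.QR5
import Pool.Agent.Lib.MP_71aad1_an.QL8
import Pool.Agent.Lib.MP_71aad1_an.QJ4
import Pool.Agent.Lib.MP_71aad1_an.QJ5
import Pool.Agent.Lib.MP_71aad1_an.QJ8
import Pool.Agent.Lib.MP_71aad1_an.QC1

set_option autoImplicit false

namespace Pool.Agent.Lib.MP_71aad1_an.SS

open Polynomial Matrix Finset Sum

/-! The joint statement. -/

section
variable {V U : Type} [Fintype V] [DecidableEq V]

theorem qj6_blk (B : Matrix (J V) (J V) RZ) : (1 - B).toBlocks₁₁ = 1 - B.toBlocks₁₁ := by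
  ext i j : 2
  simp [toBlocks₁₁, one_apply]

theorem qj6_defl {B B' D : Matrix (J V) (J V) RZ}
    (hD : ∀ i j, D i j ≠ 0 → (∃ v, i = inl v) ∧ ∃ k, j = inr k) (e : 1 - B' = (1 - B) * (1 + D)) :
    B'.toBlocks₁₁ = B.toBlocks₁₁ := by
  have h0 : ∀ i z, D i (inl z) = 0 := by
    intro i z
    by_contra h
    obtain ⟨-, k, hk⟩ := hD _ _ h
    exact inl_ne_inr hk
  have : (1 - B').toBlocks₁₁ = (1 - B).toBlocks₁₁ := by
    rw [e, Matrix.mul_add, Matrix.mul_one]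
    funext i j
    simp only [toBlocks₁₁, of_apply, Matrix.add_apply, mul_apply, h0,
      mul_zero, Finset.sum_const_zero, add_zero]
  rw [qj6_blk, qj6_blk] at this
  exact sub_right_injective this

theorem qj6_act (ar : RZ) (g : Matrix U (J V) RZ) (Q : Matrix U V RZ) (B : Matrix (J V) (J V) RZ)
    (c : U → RZ) : (g + Q * act (1 - B) + vecMulVec c (hav ar)).submatrix id inl =
      g.submatrix id inl + Q * (1 - B.toBlocks₁₁) := by
  rw [← qj6_blk]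
  ext i j : 2
  simp [act, toBlocks₁₁, mul_apply, vecMulVec_apply, hav, arow]

theorem qj6_spn {ar : RZ} {ρ₁ ρ₂ : Matrix V (J V) RZ}
    (hc : ∀ q : V → RZ, ∃ (q' : V → RZ) (p : RZ), q ᵥ* MA ρ₁ = q' ᵥ* MA ρ₂ + p • hav ar)
    {H : J V → RZ} {i : Fin 3} {v : J V → RZ} (h : Spn ar ρ₁ H i v) : Spn ar ρ₂ H i v := by
  obtain ⟨c, q₁, q₂, e⟩ := h
  obtain ⟨q', p, e'⟩ := hc c
  refine ⟨q', q₁, q₂ + p, ?_⟩
  rw [e, e', add_smul]
  abel

end

theorem qj6_pow {r c : ℝ} (hr : 0 < r) (hr' : r < 1) (hc : 0 < c) (K : ℝ) :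
    ∃ n₀ : ℕ, ∀ n, n₀ ≤ n → r ^ n * K ≤ c := by
  have h := (tendsto_pow_atTop_nhds_zero_of_lt_one hr.le hr').mul_const K
  rw [zero_mul] at h
  exact Filter.eventually_atTop.1 (h.eventually (ge_mem_nhds hc))

set_option synthInstance.maxSize 1024 in
/-- The path through the joint systems, for sides after deflation. -/
theorem joint_path {O O' P W : Type} [Fintype O] [DecidableEq O] [Fintype O'] [DecidableEq O']
    [Fintype P] [DecidableEq P] [Fintype W] [DecidableEq W] {r θ' θa θb θ₁ ε K K₁ Ω : ℝ}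
    {M s sm s0 κ₁ κ₂ σ : ℕ} {ar : RZ} {a : P → ℕ × Bool} {bX bY μ ν : P → RZ}
    {BX : Matrix (J (O ⊕ P)) (J (O ⊕ P)) RZ} {BY : Matrix (J (O' ⊕ P)) (J (O' ⊕ P)) RZ}
    {g : Matrix (O' ⊕ P) (J (O ⊕ P)) RZ} {f : Matrix (O ⊕ P) (J (O' ⊕ P)) RZ}
    {N : El ((O ⊕ P) ⊕ (O' ⊕ P) ⊕ W) RZ} (e₃ : Fin 3 ↪ W) (hr : 0 < r) (hr' : r ≤ 1 / 7)
    (hs : 1 ≤ s) (hs0 : 1 ≤ s0) (hP₁ : PConst r ar sm κ₁ θa) (hP₂ : PConst r ar σ κ₂ θb)
    (hσ1 : s0 + κ₁ ≤ σ) (hσ2 : sm ≤ σ) (hσ3 : r ^ σ * (K₁ * (2 * Ω + 5) + 1) ≤ θa * r ^ s0)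
    (hX : Side2 r M s θ' K Ω ar sm s0 a bX BX) (hY : Side2 r M s θ' K Ω ar sm s0 a bY BY)
    (hbX : ∀ π, ∃ m, (PM ((a π).1 + s) m ∨ PM ((a π).1 + s + 1) m) ∧ Pos (bX π - m))
    (hbY : ∀ π, ∃ m, (PM ((a π).1 + s) m ∨ PM ((a π).1 + s + 1) m) ∧ Pos (bY π - m))
    (hg : Lft r M s ε K₁ a μ g) (hf : Lft r M s ε K₁ a ν f) (hμ : ∀ π, N1 r (μ π) ≤ 1)
    (hν : ∀ π, X ∣ ν π) (hθ' : θ' ≤ 1) (hε0 : 0 ≤ ε) (hε1 : ε ≤ 1) (hεa : ε ≤ θa) (hθ₁ : 0 ≤ θ₁)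
    (hεb : ε + (1 + K₁) * θ₁ ≤ θb) (hK : K ≤ K₁) (hK₁ : 3 ≤ K₁) (hM₁ : s + κ₁ ≤ M)
    (hM₂ : s + κ₂ ≤ M) (hL : Lnk ar (1 - BX) (1 - BY) g f N)
    (hZ : Conn r (fun i => r ^ sjF O O' s a e₃ i) (fun i => sjF O O' s a e₃ i + κ₂) θ₁ 1
      (padM Function.Embedding.some (mat (Xp W (sk O' O ν) * Xm W (-sk O O' μ) * N)))) :
    Sim BX BY := by
  set sj := sjF O O' s a e₃ with hsj
  have hsj1 : ∀ i, 1 ≤ sj i := sjF_one hs e₃
  obtain ⟨⟨c, hrow⟩, hhub⟩ := hL.rows sj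
  have hsum := sjF_sum hr.le (by linarith) e₃ hX.core.sum hY.core.sum
  have hcst := rho1_cst (W := W) hsj1 hX.hub.pt.2 hg.td
  have htd := rho2_td (W := W) hsj1 hY.hub.pt.2 (hf.all_td (by omega) hν)
  have hθb : ε ≤ θb := by nlinarith
  have rz1 : ∀ κ, s + κ ≤ M → ∀ i, Rz r (sj i) κ ε (fun z => ∃ x, eX' _ _ W x = z)
      (rho1 sj BX g i) := fun κ hκ =>
    rho1_rz hr.le hε0 e₃ (hX.rz hr.le hε0 hbX κ) (hg.rz κ hκ)
  have rz2 : ∀ κ, s + κ ≤ M → ∀ i, Rz r (sj i) κ ε (fun z => ∃ x, eY' _ _ W x = z)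
      (rho2 sj BY f i) := fun κ hκ =>
    rho2_rz hr.le hε0 e₃ (hY.rz hr.le hε0 hbY κ) (hf.rz κ hκ)
  obtain ⟨H₁, hH, hcov, hspn, hst⟩ := JT_start hr.le hP₁ (eX' _ _ W) hX.hub (rho1_X sj)
    (rho1_supp sj) hcst (fun i => ⟨sj i, hsj1 i, (rz1 κ₁ hM₁ i).mono hr.le le_rfl hεa fun _ h => h⟩)
    hs0 hσ1 hσ2
    (fun j => by convert rho1_col (BX := BX) hr.le hε1 (by linarith) hg hμ e₃ hsum j) hσ3
  obtain ⟨C₁, C₂, hC, hC₁, hC₂⟩ := pad_XpXm (W := W) (sk O' O ν) (-sk O O' μ)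
  have hcb := rho1_cb hr.le (by linarith) hθ' hε1 hK₁ (hX.core.mono hr.le le_rfl hK le_rfl) hg hμ e₃
  obtain ⟨B, B', hB, hB', hS⟩ := JT_mid hr.le (by linarith) hθ₁ hP₂ hH
    (by rwa [Function.update_self]) hsj1
    (fun i => (rz1 κ₂ hM₂ i).mono hr.le le_rfl le_rfl fun _ _ => trivial) hcb hεb
    (fun i => (rz2 κ₂ hM₂ i).mono hr.le le_rfl hθb fun _ _ => trivial) hcst htd hZ hC₁ hC₂
    (c := ((1 + C₁) * (1 + C₂)) *ᵥ c) (by
      rw [mat_mul, padM_mul, hC, Matrix.mul_assoc, hrow, Matrix.mul_add, mul_vecMulVec])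
  have hconv := spn_conv (N' := padM Function.Embedding.some (mat N⁻¹))
    (by rw [← padM_mul, mat_inv_mul, padM_one]) hrow
  obtain ⟨c₁, p₁, e₁⟩ := hhub 1 (by decide)
  obtain ⟨c₂, p₂, e₂⟩ := hhub 2 (by decide)
  have hE := JT_end hP₁ (eY' _ _ W) hY.hub (rho2_Y sj) (rho2_supp sj) htd
    (fun i => ⟨sj i, hsj1 i, (rz2 κ₁ hM₁ i).mono hr.le le_rfl hεa fun _ h => h⟩) hH
    (qj6_spn hconv ⟨c₂, 0, p₂, by
      rw [Function.update_of_ne (by decide), e₂, zero_smul, add_zero]⟩)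
    (qj6_spn hconv (by
      obtain ⟨c₀, q₁, q₂, e₀⟩ := hspn
      refine ⟨c₀ - q₁ • c₂ - c₁, q₁, q₂ - q₁ * p₂ - p₁, ?_⟩
      rw [Function.update_self, sub_vecMul, sub_vecMul, smul_vecMul]
      have f₁ := eq_sub_of_add_eq e₁.symm
      have f₂ := eq_sub_of_add_eq e₂.symm
      rw [f₁, f₂, eq_add_of_sub_eq e₀]
      module)) hB'
  exact (hst B hB).trans (hS.trans hE)

theorem jointStmt (hC : ThmCStmt) : JointStmt := by
  intro r₀ r K Ω ar sm s0 s h0 h1 h2 hA hs hs0 hK hΩ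
  have hr : 0 < r := by linarith
  have hr1 : r < 1 := by linarith
  obtain ⟨κ₁, θa, hθa, hP₁⟩ := exists_PConst h0 h1 hr1.le hA sm
  obtain ⟨σ₀, hσ₀⟩ := qj6_pow hr hr1 (mul_pos hθa (pow_pos hr s0))
    ((2 * (5 * K) + 1) * (2 * Ω + 5) + 1)
  obtain ⟨κ₂, θb, hθb, hP₂⟩ := exists_PConst h0 h1 hr1.le hA (max σ₀ (max (s0 + κ₁) sm))
  set θ₁ : ℝ := min 1 (θb / (2 * (1 + (2 * (5 * K) + 1)))) with hθ₁def
  have hθ₁ : 0 < θ₁ := lt_min one_pos (by positivity)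
  obtain ⟨κC, d₀, θC, hθC, HC⟩ := hC r θ₁ (2 * Ω + 5) (r ^ s) (s + κ₂) hr (by linarith) hθ₁
    (min_le_left _ _) (pow_pos hr s)
  set ε : ℝ := min (min θa (θb / 2)) (min (θC / 17) 1) with hεdef
  have hε : 0 < ε := lt_min (lt_min hθa (by positivity)) (lt_min (by positivity) one_pos)
  have hεa : ε ≤ θa := (min_le_left _ _).trans (min_le_left _ _)
  have hεb : ε ≤ θb / 2 := (min_le_left _ _).trans (min_le_right _ _)
  have hεC : ε ≤ θC / 17 := (min_le_right _ _).trans (min_le_left _ _)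
  have hε1 : ε ≤ 1 := (min_le_right _ _).trans (min_le_right _ _)
  set θ' : ℝ := ε / (2 * (5 * K) + 5) with hθ'def
  have hθ' : 0 < θ' := by positivity
  have hεθ : (2 * (5 * K) + 5) * θ' = ε := by rw [hθ'def]; field_simp
  have hθ'5 : θ' ≤ 1 / 5 := by nlinarith
  have hθ'ε : θ' ≤ ε := by nlinarith
  set θ : ℝ := θ' / (2 * (1 + 3 * K)) with hθdef
  have hθ : 0 < θ := by positivity
  have hθθ : (2 * (1 + 3 * K)) * θ = θ' := by rw [hθdef]; field_simp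
  obtain ⟨M₁, hM₁⟩ := qj6_pow hr hr1 (half_pos hθ') K
  refine ⟨θ, hθ, M₁ + d₀ + 2 + s + κ₁ + κ₂ + κC, fun M hM => ?_⟩
  intro O O' P _ _ _ _ _ _ a BX BY hX hY hcnt hRel
  obtain ⟨W, _, _, e₃, g₀, f₀, N, hL⟩ := ext_lnk hRel hX.hub.hav hY.hub.hav
  have hact := hL.act
  rw [qj6_blk, qj6_blk] at hact
  have ha1 : ∀ π, 1 ≤ (a π).1 := fun π => (hX.core.deg π).1
  obtain ⟨m, hrot, hlow⟩ := lowDeg (by omega) ha1 hcnt e₃
    (fun x z => (pow_dvd_pow X (Nat.le_add_left _ _)).trans (hX.core.ord x z))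
    (fun x z => (pow_dvd_pow X (Nat.le_add_left _ _)).trans (hY.core.ord x z)) hact
  have hdef : θ + r ^ M * K + 3 * K * θ ≤ θ' := by
    have := hM₁ M (by omega)
    nlinarith
  have hpX : ∀ π, Pos (mono (a π) * X ^ s) ∧ X ^ (a π).1 ∣ mono (a π) * X ^ s := fun π =>
    ⟨(Pos.mono _).mul (Pos.X_pow _), (PM.mono _).dvd.mul_right _⟩
  have hpm : ∀ π, PM ((a π).1 + s) (mono (a π) * X ^ s) := fun π => (PM.mono _).mul (Or.inl rfl)
  have hpY : ∀ π, Pos (rm (m π) * mono (a π) * X ^ s) := fun π =>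
    ((rm_bd hr.le (by linarith) _).1.mul (Pos.mono _)).mul (Pos.X_pow _)
  obtain ⟨BX', DX, hDX, eX₁, hMX, hX'⟩ := defl hX hr (by linarith) hθ.le (by nlinarith) (by linarith)
    hdef (fun π => mono (a π) * X ^ s) (fun π => mono (a π) * X ^ s) hpX hpX fun π => bud_X _ _
  obtain ⟨BY', DY, hDY, eY₁, hMY, hY'⟩ := defl hY hr (by linarith) hθ.le (by nlinarith) (by linarith)
    hdef (fun π => 2 * (rm (m π) * mono (a π) * X ^ s)) (fun _ => 0)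
    (fun π => ⟨by rw [two_mul]; exact (hpY π).add (hpY π),
      (((PM.mono _).dvd.mul_left _).mul_right _).mul_left _⟩)
    (fun π => ⟨Pos.zero, dvd_zero _⟩) fun π => bud_Y _ _ _
  obtain ⟨g', f', eg, ef, hL'⟩ := hL.defl hDX hDY
  rw [← eX₁, ← eY₁] at hL'
  have hmn : ∀ π, rm (m π) * rn (a π) (m π) = mono (a π) := fun π => rm_mul_rn (ha1 π) _
  obtain ⟨Q, c, hg⟩ := lift (μ := fun π => rm (m π)) (bd := fun π => rm (m π) * mono (a π) * X ^ s)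
    hY' hX' hr h2 hθ' hθ'5 (by linarith) (by omega) (fun π => rm_bd hr.le (by linarith) _)
    (fun π => rm_pm _ _ _) (fun π => by ring) hL'.respG
  obtain ⟨Q', c', hf⟩ := lift (μ := fun π => rn (a π) (m π)) (bd := fun π => mono (a π) * X ^ s)
    hX' hY' hr h2 hθ' hθ'5 (by linarith) (by omega) (fun π => rn_bd hr.le (by linarith) _ _)
    (fun π => Or.inl (hpm π))
    (fun π => by linear_combination (-2 * mono (a π) * X ^ s) * hmn π) hL'.respF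
  rw [hεθ] at hg hf
  have hL'' := hL'.change Q c Q' c'
  have hZ := hlow Q Q'
    (fun y x => by
      have := hg.ord y x
      rw [qj6_act, eg, qj6_defl hDX eX₁] at this
      exact (pow_dvd_pow X (Nat.le_add_left _ _)).trans this)
    (fun x y => by
      have := hf.ord x y
      rw [qj6_act, ef, qj6_defl hDY eY₁] at this
      exact (pow_dvd_pow X (Nat.le_add_left _ _)).trans this)
  have hest := Zest hr.le h2 hθ'.le hθ'5 hθ'ε hε1 hX'.core hY'.core hX'.hub.pt.2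
    (fun π => (rm_bd hr.le (by linarith) (m π)).2) (fun π => (rn_bd hr.le (by linarith) _ (m π)).2)
    hmn hg hf hL''.act e₃ (κ := κ₂ + κC) (by omega)
  have hsum := sjF_sum hr.le (by linarith) e₃ hX'.core.sum hY'.core.sum
  have hW3 : ∀ k, sjF O O' s a e₃ (some (inr (inr (e₃ k)))) = s := fun k => by
    simp only [sjF]
    rw [if_pos ⟨k, rfl⟩]
  have hconn := HC _ (triW (O ⊕ P) (O' ⊕ P) e₃) (fun i => r ^ sjF O O' s a e₃ i)
    (fun i => sjF O O' s a e₃ i + κ₂) (fun i => ⟨pow_pos hr _, pow_le_one₀ hr.le hr1.le⟩) hsum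
    le_rfl (le_of_eq (congrArg (r ^ ·) (hW3 0)).symm) (le_of_eq (congrArg (r ^ ·) (hW3 1)).symm)
    le_rfl (le_of_eq (congrArg (· + κ₂) (hW3 0))) (le_of_eq (congrArg (· + κ₂) (hW3 1))) (M - 1)
    (by omega) _ hZ (MCong.Zs hZ)
    (hest.mono (fun _ => (pow_pos hr _).le) (fun _ => le_of_eq (Nat.add_assoc _ _ _)) (by linarith))
  have hθ₁b : (1 + (2 * (5 * K) + 1)) * θ₁ ≤ θb / 2 := by
    have : θ₁ ≤ θb / (2 * (1 + (2 * (5 * K) + 1))) := min_le_right _ _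
    rw [le_div_iff₀ (by positivity)] at this
    linarith
  have hS := joint_path e₃ hr h2 hs hs0 hP₁ hP₂ ((le_max_left _ _).trans (le_max_right _ _))
    ((le_max_right _ _).trans (le_max_right _ _)) (hσ₀ _ (le_max_left _ _)) hX' hY'
    (fun π => ⟨_, Or.inl (hpm π), by
      rw [add_sub_cancel_left]; exact (Pos.mono _).mul (hpX π).1⟩)
    (fun π => ⟨_, rm_pm (a π) s (m π), by
      rw [mul_zero, add_zero, two_mul, add_sub_cancel_right]; exact hpY π⟩)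
    hg hf (fun π => (rm_bd hr.le (by linarith) (m π)).2) (fun π => rn_td (ha1 π) (hrot π))
    (by linarith) hε.le hε1 hεa hθ₁.le (by linarith) (by linarith) (by linarith) (by omega)
    (by omega) hL'' hconn
  exact hMX.1.trans (hS.trans hMY.1.symm)

end Pool.Agent.Lib.MP_71aad1_an.SS
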