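import Pool.Agent.Lib.MP_71aad1_an.QP5

set_option autoImplicit false

namespace Pool.Agent.Lib.MP_71aad1_an.SS

open Polynomial Matrix Finset Sum

/-! Triangular families of row moves, factorisation moves, splitting and deflation. -/

variable {V W : Type} [Fintype V] [DecidableEq V] [Fintype W] [DecidableEq W]

theorem qp6_blocks {V W V' W' : Type} {Q : RZ → Prop} {A : Matrix V V' RZ} {B : Matrix V W' RZ}
    {C : Matrix W V' RZ} {D : Matrix W W' RZ} (hA : ∀ i j, Q (A i j)) (hB : ∀ i j, Q (B i j))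
    (hC : ∀ i j, Q (C i j)) (hD : ∀ i j, Q (D i j)) (i : V ⊕ W) (j : V' ⊕ W') :
    Q (fromBlocks A B C D i j) := by
  rcases i with i | i <;> rcases j with j | j
  exacts [hA i j, hB i j, hC i j, hD i j]

theorem qp6_td_left {U V W : Type} [Fintype V] {A : Matrix U V RZ} (h : TD A) (B : Matrix V W RZ) :
    TD (A * B) := fun i _ => Finset.dvd_sum fun k _ => (h i k).mul_right _

theorem qp6_td_right {U V W : Type} [Fintype V] (A : Matrix U V RZ) {B : Matrix V W RZ}
    (h : TD B) : TD (A * B) := fun _ j => Finset.dvd_sum fun k _ => (h k j).mul_left _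

theorem qp6_rk {V W : Type} {A : Matrix V V RZ} (B : Matrix V W RZ) {C : Matrix W V RZ}
    {D : Matrix W W RZ} (hA : TD A) (hC : TD C) (hD : TD D) :
    RkOk (Sum.elim (fun _ => 1) fun _ => 0) (fromBlocks A B C D) := by
  rintro (i | i) (j | j) h
  exacts [absurd (X_dvd_iff.1 (hA i j)) h, one_pos, absurd (X_dvd_iff.1 (hC i j)) h,
    absurd (X_dvd_iff.1 (hD i j)) h]

theorem qp6_sub {A A' : Matrix V V RZ} {B B' : Matrix V W RZ} {C C' : Matrix W V RZ}
    {D D' : Matrix W W RZ} : fromBlocks A B C D - fromBlocks A' B' C' D' * (1 - fromBlocks A B C D) =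
      fromBlocks (A - (A' * (1 - A) - B' * C)) (B - (B' * (1 - D) - A' * B))
        (C - (C' * (1 - A) - D' * C)) (D - (D' * (1 - D) - C' * B)) := by
  rw [← fromBlocks_one]
  simp only [sub_eq_add_neg, fromBlocks_neg, fromBlocks_add, fromBlocks_multiply, zero_add,
    Matrix.mul_neg]
  congr 1 <;> abel

/-- Update the rows in the order of decreasing `d`: the hybrid matrices take the rows of a finite
set from `B'`; when row `i` is updated all rows with smaller `d` are still those of `B`. -/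
theorem trm_gen (Rl : Matrix V V RZ → Matrix V V RZ → Prop) (hrefl : ∀ B, Rl B B)
    (htrans : ∀ A B C, Rl A B → Rl B C → Rl A C) (Ok : V → (V → RZ) → Prop) (al : V → V → Prop)
    (hstep : ∀ (B : Matrix V V RZ) (i : V) (c : V → RZ), (∀ x, Ok x (B x)) →
      Ok i (B i - c ᵥ* (1 - B)) → (∀ j, c j ≠ 0 → j ≠ i ∧ al i j) →
      Rl B (B.updateRow i (B i - c ᵥ* (1 - B))))
    {B B' : Matrix V V RZ} (hB : ∀ x, Ok x (B x)) (hB' : ∀ x, Ok x (B' x)) (d : V → ℕ)
    (c : Matrix V V RZ) (hc : ∀ i j, c i j ≠ 0 → d j < d i ∧ al i j) (h : B' = B - c * (1 - B)) :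
    Rl B B' := by
  have key : ∀ S : Finset V, Rl B (of fun x => if x ∈ S then B' x else B x) := fun S => by
    induction S using Finset.induction_on_min_value d with
    | empty => exact hrefl B
    | insert a S ha hS ih =>
      obtain ⟨H, hH⟩ : ∃ H : Matrix V V RZ, H = of fun x => if x ∈ S then B' x else B x := ⟨_, rfl⟩
      have h1 : ∀ x, H x = if x ∈ S then B' x else B x := fun x => by rw [hH]; rfl
      have h2 : H a - c a ᵥ* (1 - H) = B' a := by
        rw [h1, if_neg ha, h]
        funext y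
        rw [Matrix.sub_apply, Pi.sub_apply, mul_apply]
        refine congrArg _ (Finset.sum_congr rfl fun j _ => ?_)
        by_cases hj : c a j = 0
        · rw [hj, zero_mul, zero_mul]
        · have h3 : j ∉ S := fun h4 => (hc a j hj).1.not_ge (hS j h4)
          change c a j * (1 - H) j y = _
          rw [Matrix.sub_apply, Matrix.sub_apply, h1, if_neg h3]
      have h3 := hstep H a (c a) (fun x => by rw [h1]; split_ifs; exacts [hB' x, hB x])
        (h2 ▸ hB' a) fun j hj => ⟨fun e => (hc a j hj).1.ne (congrArg d e), (hc a j hj).2⟩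
      rw [h2] at h3
      refine htrans _ _ _ (hH ▸ ih) (Eq.mp (congrArg _ ?_) h3)
      ext1 x y
      by_cases hx : x = a
      · simp [hx]
      · simp [hx, h1]
  have h0 := key univ
  simp only [mem_univ, if_true] at h0
  exact h0

theorem sim_trm {B B' : Matrix V V RZ} {rk : V → ℕ} (hp : MPos B) (hrk : RkOk rk B) (hp' : MPos B')
    (hrk' : RkOk rk B') (d : V → ℕ) (c : Matrix V V RZ) (hc : ∀ i j, c i j ≠ 0 → d j < d i)
    (h : B' = B - c * (1 - B)) : Sim B B' := by
  refine trm_gen Sim Sim.refl (fun _ _ _ => Sim.trans)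
    (fun x v => (∀ j, Pos (v j)) ∧ ∀ j, (v j).coeff 0 ≠ 0 → rk j < rk x) (fun _ _ => True)
    (fun B i c h₁ h₂ h₃ => ?_) (fun x => ⟨hp x, hrk x⟩) (fun x => ⟨hp' x, hrk' x⟩) d c
    (fun i j e => ⟨hc i j e, trivial⟩) h
  have h₄ : ∀ x, (∀ j, Pos (B.updateRow i (B i - c ᵥ* (1 - B)) x j)) ∧
      ∀ j, (B.updateRow i (B i - c ᵥ* (1 - B)) x j).coeff 0 ≠ 0 → rk j < rk x := fun x => by
    by_cases hx : x = i
    · rw [hx, updateRow_self]; exact h₂
    · rw [updateRow_ne hx]; exact h₁ x
  exact sim_rm ⟨fun x => (h₁ x).1, rk, fun x => (h₁ x).2⟩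
    (by_contra fun e => (h₃ i e).1 rfl) rfl ⟨fun x => (h₄ x).1, rk, fun x => (h₄ x).2⟩

/-- On `V ⊕ W`: `[[F G, 0], [G, 0]]`, then `[[0, F], [G, 0]]`, then `[[0, F], [0, G F]]`
(`sim_emb`, `sim_trm`, rank one on `V`). -/
theorem sim_psse {F : Matrix V W RZ} {G : Matrix W V RZ} (hF : MPos F) (hG : PT G) :
    Sim (F * G) (G * F) := by
  have p1 : MPos (fromBlocks (F * G) (0 : Matrix V W RZ) G 0) := qp6_blocks (hF.mul hG.1)
    (fun _ _ => Pos.zero) hG.1 fun _ _ => Pos.zero
  have p2 : MPos (fromBlocks (0 : Matrix V V RZ) F G 0) := qp6_blocks (fun _ _ => Pos.zero) hF hG.1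
    fun _ _ => Pos.zero
  have p3 : MPos (fromBlocks (0 : Matrix V V RZ) F 0 (G * F)) := qp6_blocks (fun _ _ => Pos.zero) hF
    (fun _ _ => Pos.zero) (hG.1.mul hF)
  have r1 := qp6_rk (D := 0) 0 (qp6_td_right F hG.2) hG.2 fun _ _ => dvd_zero _
  have r2 := qp6_rk (A := 0) (D := 0) F (fun _ _ => dvd_zero _) hG.2 fun _ _ => dvd_zero _
  have r3 := qp6_rk (A := 0) (C := 0) F (fun _ _ => dvd_zero _) (fun _ _ => dvd_zero _)
    (qp6_td_left hG.2 F)
  have s1 : Sim (F * G) (fromBlocks (F * G) (0 : Matrix V W RZ) G 0) :=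
    sim_emb Function.Embedding.inl ⟨p1, _, r1⟩ (fun _ _ => rfl) (by
      rintro (x | x) (y | y) h
      exacts [absurd rfl (h y), rfl, absurd rfl (h y), rfl])
  have s3 : Sim (G * F) (fromBlocks (0 : Matrix V V RZ) F 0 (G * F)) :=
    sim_emb Function.Embedding.inr ⟨p3, _, r3⟩ (fun _ _ => rfl) (by
      rintro (x | x) (y | y) h
      exacts [rfl, absurd rfl (h y), rfl, absurd rfl (h y)])
  have s2 := sim_trm p2 r2 p1 r1 (Sum.elim (fun _ => 1) fun _ => 0) (fromBlocks 0 F 0 0) (by
    rintro (x | x) (y | y) h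
    exacts [absurd rfl h, one_pos, absurd rfl h, absurd rfl h]) (by simp [qp6_sub])
  have s4 := sim_trm p2 r2 p3 r3 (Sum.elim (fun _ => 0) fun _ => 1) (fromBlocks 0 0 G 0) (by
    rintro (x | x) (y | y) h
    exacts [absurd rfl h, absurd rfl h, one_pos, absurd rfl h]) (by simp [qp6_sub])
  exact (s1.trans (s2.symm.trans s4)).trans s3.symm

/-- On `V ⊕ V`: split each row into `B - D` and `D` with `sim_psse` (`F = [1, 1]`,
`G = [B - D; D]`). The new states `inr x` with `D x = 0` have zero rows; the rows `D x` only enter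
states `y` with `D y = 0`. Expand the columns `inr` with `sim_trm` (first in the rows `inr x`,
then in the rows `inl x`) and delete them with `sim_emb`. -/
theorem sim_defl {B D : Matrix V V RZ} (hB : PT B) (hD : MPos D) (h : MPos (B - D))
    (hD2 : ∀ x y, D x y ≠ 0 → D y = 0) : Sim B ((B - D) * (1 + D)) := by
  have t1 : TD D := fun i j => by
    simpa using Pos.dvd_of_le (k := 1) (hD i j) (h i j) (by simpa using hB.2 i j)
  have t2 : TD (B - D) := fun i j => (hB.2 i j).sub (t1 i j)
  have hDD : D * D = 0 := by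
    ext1 x z
    rw [mul_apply]
    refine Finset.sum_eq_zero fun y _ => ?_
    by_cases e : D x y = 0
    · rw [e, zero_mul]
    · rw [hD2 x y e, Pi.zero_apply, mul_zero]
  have s1 := sim_psse (F := fromCols (1 : Matrix V V RZ) (1 : Matrix V V RZ))
    (G := fromRows (B - D) D) (by rintro i (j | j) <;> exact MPos.one i j)
    ⟨by rintro (i | i) j; exacts [h i j, hD i j], by rintro (i | i) j; exacts [t2 i j, t1 i j]⟩
  rw [fromCols_mul_fromRows, fromRows_mul_fromCols] at s1
  simp only [Matrix.one_mul, Matrix.mul_one, sub_add_cancel] at s1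
  have p2 : MPos (fromBlocks ((B - D) * (1 + D)) (0 : Matrix V V RZ) D 0) := qp6_blocks
    (h.mul fun i j => (MPos.one i j).add (hD i j)) (fun _ _ => Pos.zero) hD fun _ _ => Pos.zero
  have r2 := qp6_rk (D := 0) 0 (qp6_td_left t2 (1 + D)) t1 fun _ _ => dvd_zero _
  have s2 := sim_trm (qp6_blocks h h hD hD) (qp6_rk (B - D) t2 t1 t1) p2 r2
    (Sum.elim (fun _ => 2) fun x => if D x = 0 then 0 else 1)
    (fromBlocks 0 ((B - D) * (1 + D)) 0 D) (by
      rintro (x | x) (y | y) e
      · exact absurd rfl e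
      · change (if D y = 0 then 0 else 1) < 2
        split_ifs <;> omega
      · exact absurd rfl e
      · change (if D y = 0 then 0 else 1) < (if D x = 0 then 0 else 1)
        rw [if_pos (hD2 x y e), if_neg fun e' => e (congrFun e' y)]
        exact one_pos) (by
      generalize B - D = E
      rw [qp6_sub]
      simp [mul_add, add_mul, mul_sub, mul_assoc, hDD])
  refine (s1.trans s2).trans (Sim.symm ?_)
  refine sim_emb Function.Embedding.inl ⟨p2, _, r2⟩ (fun _ _ => rfl) ?_
  rintro (x | x) (y | y) e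
  exacts [absurd rfl (e y), rfl, absurd rfl (e y), rfl]

end Pool.Agent.Lib.MP_71aad1_an.SS
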