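import Pool.Agent.Lib.MP_71aad1_an.QR2
import Pool.Agent.Lib.MP_71aad1_an.QP6
import Pool.Agent.Lib.MP_71aad1_an.QA4

set_option autoImplicit false

namespace Pool.Agent.Lib.MP_71aad1_an.SS

open Polynomial Matrix Finset Sum

/-! Moves that respect the presentation; elementary equivalences over the ring; determinants. -/

variable {U V W : Type} [Fintype U] [DecidableEq U] [Fintype V] [DecidableEq V] [Fintype W]
  [DecidableEq W]

theorem Hub.ha0 {ar : RZ} {sm s0 : ℕ} {B : Matrix (J V) (J V) RZ} (h : Hub ar sm s0 B) (v : V) :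
    (1 - B) (inr 0) (inl v) = 0 := by
  rw [Matrix.sub_apply, h.ha, one_apply_ne (by simp)]
  simp [arow]
theorem Hub.hav {ar : RZ} {sm s0 : ℕ} {B : Matrix (J V) (J V) RZ} (h : Hub ar sm s0 B) :
    (1 - B) (inr 0) = hav ar := by
  funext j
  rw [Matrix.sub_apply, h.ha, SS.hav, Pi.sub_apply, one_apply, Pi.single_apply]
  simp only [eq_comm]

theorem Mv.refl (B : Matrix (J V) (J V) RZ) : Mv B B := ⟨Sim.refl _, Rel.refl _⟩
theorem Mv.trans {A : Matrix (J U) (J U) RZ} {B : Matrix (J V) (J V) RZ} {C : Matrix (J W) (J W) RZ}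
    (h : Mv A B) (h' : Mv B C) (hB : ∀ v, (1 - B) (inr 0) (inl v) = 0) : Mv A C :=
  ⟨h.1.trans h'.1, h.2.trans h'.2 hB⟩

theorem qr3_updateRow {ι : Type} [Fintype ι] [DecidableEq ι] (B : Matrix ι ι RZ) (i : ι)
    (c : ι → RZ) : 1 - B.updateRow i (B i - c ᵥ* (1 - B)) =
      (1 + (0 : Matrix ι ι RZ).updateRow i c) * (1 - B) := by
  rw [add_mul, one_mul]
  ext1 x y
  by_cases e : x = i
  · subst e
    simp only [Matrix.sub_apply, Matrix.add_apply, updateRow_self, Pi.sub_apply, mul_apply,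
      vecMul, dotProduct]
    ring
  · simp [mul_apply, updateRow_ne e]

/-- `trm_gen` with `Rl A B = Eqv (1 - A) (1 - B)`, `eqv_left`. -/
theorem eqv_trm {B B' : Matrix (J V) (J V) RZ} (d : J V → ℕ) (c : Matrix (J V) (J V) RZ)
    (hc : ∀ i j, c i j ≠ 0 → d j < d i ∧ i ≠ inr 0 ∧ (j = inr 0 ∨ ∃ v, j = inl v))
    (h : B' = B - c * (1 - B)) : Eqv (1 - B) (1 - B') := by
  refine trm_gen (fun A B => Eqv (1 - A) (1 - B)) (fun _ => Eqv.refl _)
    (fun _ _ _ => Eqv.trans) (fun _ _ => True)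
    (fun i j => i ≠ inr 0 ∧ (j = inr 0 ∨ ∃ v, j = inl v)) ?_ (fun _ => trivial)
    (fun _ => trivial) d c hc h
  intro B i c _ _ hc
  rw [qr3_updateRow]
  refine eqv_left _ (fun x => x = i) _ fun x y hxy => ?_
  by_cases e : x = i
  · subst e
    rw [updateRow_self] at hxy
    exact ⟨rfl, (hc y hxy).1, (hc y hxy).2⟩
  · rw [updateRow_ne e] at hxy
    exact absurd rfl hxy

theorem mv_trm {B B' : Matrix (J V) (J V) RZ} (hB : PT B) (hB' : PT B') (d : J V → ℕ)
    (c : Matrix (J V) (J V) RZ)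
    (hc : ∀ i j, c i j ≠ 0 → d j < d i ∧ i ≠ inr 0 ∧ (j = inr 0 ∨ ∃ v, j = inl v))
    (h : B' = B - c * (1 - B)) : Mv B B' :=
  ⟨sim_trm hB.1 (hB.2.rkOk fun _ => 0) hB'.1 (hB'.2.rkOk _) d c (fun i j e => (hc i j e).1) h,
    (eqv_trm d c hc h).rel⟩

theorem qr3_surj (e : V ≃ W) (i : J W) : ∃ a, Jm e.toEmbedding a = i := by
  rcases i with w | k
  · exact ⟨inl (e.symm w), by rw [Jm_inl]; simp⟩
  · exact ⟨inr k, rfl⟩

theorem mv_equiv (e : V ≃ W) {B : Matrix (J V) (J V) RZ} (hB : PT B) {B' : Matrix (J W) (J W) RZ}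
    (h : ∀ i j, B' (Jm e.toEmbedding i) (Jm e.toEmbedding j) = B i j) : Mv B B' := by
  have hB' : PT B' := by
    constructor <;> intro i j <;> obtain ⟨a, rfl⟩ := qr3_surj e i <;>
      obtain ⟨b, rfl⟩ := qr3_surj e j <;> rw [h]
    · exact hB.1 a b
    · exact hB.2 a b
  refine ⟨sim_emb (Jm e.toEmbedding) hB'.valid (fun a b => (h a b).symm) fun x y hy => ?_, ?_⟩
  · obtain ⟨b, rfl⟩ := qr3_surj e y
    exact absurd rfl (hy b)
  · have : 1 - B' = padM (Jm e.toEmbedding) (1 - B) := by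
      ext1 i j
      obtain ⟨a, rfl⟩ := qr3_surj e i
      obtain ⟨b, rfl⟩ := qr3_surj e j
      rw [padM_apply, Matrix.sub_apply, Matrix.sub_apply, h, one_apply, one_apply]
      simp only [EmbeddingLike.apply_eq_iff_eq]
    rw [this]
    exact rel_pad _ _

section emb
variable {ι ι' κ : Type} [Fintype ι] [DecidableEq ι] [Fintype ι'] [DecidableEq ι']

omit [Fintype ι] [DecidableEq ι] in
theorem qr3_emb_mul (e : ι ↪ ι') (Y : Matrix ι' κ RZ) (a : ι) (j : κ) :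
    (embM RZ e * Y) a j = Y (e a) j := by
  simp [embM, mul_apply]

omit [Fintype ι] [DecidableEq ι] in
theorem qr3_mul_embT (e : ι ↪ ι') (Y : Matrix κ ι' RZ) (i : κ) (a : ι) :
    (Y * (embM RZ e)ᵀ) i a = Y i (e a) := by
  simp [embM, mul_apply]

omit [Fintype ι'] [DecidableEq ι] in
theorem qr3_mul_emb (e : ι ↪ ι') (Y : Matrix κ ι RZ) (i : κ) {j : ι'} (h : ∀ a, e a ≠ j) :
    (Y * embM RZ e) i j = 0 := by
  simp [embM, mul_apply, h]

omit [Fintype ι'] [DecidableEq ι] in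
theorem qr3_embT_mul (e : ι ↪ ι') (Y : Matrix ι κ RZ) {i : ι'} (j : κ) (h : ∀ a, e a ≠ i) :
    ((embM RZ e)ᵀ * Y) i j = 0 := by
  simp [embM, mul_apply, h]

omit [Fintype ι'] in
theorem qr3_embT_mul' (e : ι ↪ ι') (Y : Matrix ι κ RZ) (a : ι) (j : κ) :
    ((embM RZ e)ᵀ * Y) (e a) j = Y a j := by
  simp [embM, mul_apply]

theorem qr3_alg (E F : Matrix ι ι' RZ) (E' G : Matrix ι' ι RZ) (h1 : E * E' = 1)
    (h2 : F * E' = 1) :
    (1 + -(E' * (F - E))) * ((1 + E' * (1 - F * G - 1) * E) * (1 + -((1 - E' * E) * G * E))) *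
      (1 + E' * (F - E)) = 1 - G * F := by
  have a1 : ∀ Y : Matrix ι ι' RZ, E * (E' * Y) = Y := fun Y => by
    rw [← Matrix.mul_assoc, h1, Matrix.one_mul]
  have a2 : ∀ Y : Matrix ι ι' RZ, F * (E' * Y) = Y := fun Y => by
    rw [← Matrix.mul_assoc, h2, Matrix.one_mul]
  simp only [sub_sub_cancel_left, Matrix.mul_add, Matrix.add_mul, Matrix.mul_sub, Matrix.sub_mul,
    Matrix.mul_neg, Matrix.neg_mul, Matrix.mul_one, Matrix.one_mul, Matrix.mul_assoc, a1, a2]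
  abel
end emb

/-- Splitting states along `ψ`. `sim_psse` with `F i j' = if Sum.map ψ id j' = i then 1 else 0`.
For the presentation start from `padM (Jm e) (1 - B)`: column operations turn the row of a new
state `n` into `e_n - G n`; subtract these rows from the row `e (ψ n)`; add column `e (ψ n)` to
column `n`. -/
theorem mv_split (e : V ↪ W) (ψ : W → V) (hψ : ∀ v, ψ (e v) = v) {G : Matrix (J W) (J V) RZ}
    (hG : PT G) {B : Matrix (J V) (J V) RZ} {B' : Matrix (J W) (J W) RZ}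
    (hB : ∀ i, B i = ∑ i', if Sum.map ψ id i' = i then G i' else 0)
    (hB' : ∀ i j, B' i j = G i (Sum.map ψ id j)) : Mv B B' := by
  obtain ⟨F, hF⟩ : ∃ F : Matrix (J V) (J W) RZ,
      ∀ i j, F i j = if Sum.map ψ id j = i then 1 else 0 := ⟨fun _ _ => _, fun _ _ => rfl⟩
  have e1 : B = F * G := by
    ext1 i j
    rw [hB, Finset.sum_apply, mul_apply]
    refine Finset.sum_congr rfl fun k _ => ?_
    rw [hF]
    split_ifs <;> simp
  have e2 : B' = G * F := by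
    ext1 i j
    rw [hB', mul_apply]
    simp [hF]
  have hψ' : ∀ a : J V, Sum.map ψ id (Jm e a) = a := by
    rintro (v | k)
    · rw [Jm_inl, Sum.map_inl, hψ]
    · rfl
  have hFE : F * (embM RZ (Jm e))ᵀ = 1 := by
    ext1 a b
    rw [qr3_mul_embT, hF, hψ', one_apply]
    simp only [eq_comm]
  have hEE : embM RZ (Jm e) * (embM RZ (Jm e))ᵀ = 1 := embM_mul _
  have hnew : ∀ i : J W, (¬ ∃ a, Jm e a = i) → ∃ w, i = inl w := by
    rintro (w | k) hi
    · exact ⟨w, rfl⟩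
    · exact absurd ⟨inr k, rfl⟩ hi
  have hK : ∀ i j, ((embM RZ (Jm e))ᵀ * (F - embM RZ (Jm e))) i j ≠ 0 →
      (∃ a, Jm e a = i) ∧ (¬ ∃ a, Jm e a = j) ∧ (∃ v, i = inl v) ∧ ∃ w, j = inl w := by
    intro i j hij
    have hi : ∃ a, Jm e a = i := by
      by_contra hc
      exact hij (qr3_embT_mul _ _ _ fun a ha => hc ⟨a, ha⟩)
    obtain ⟨a, rfl⟩ := hi
    rw [qr3_embT_mul'] at hij
    have hj : ¬ ∃ b, Jm e b = j := by
      rintro ⟨b, rfl⟩
      apply hij
      rw [← qr3_mul_embT (Jm e) (F - embM RZ (Jm e)), Matrix.sub_mul, hFE, hEE, sub_self, Matrix.zero_apply]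
    obtain ⟨w, rfl⟩ := hnew j hj
    refine ⟨⟨a, rfl⟩, hj, ⟨e (ψ w), ?_⟩, w, rfl⟩
    by_contra hc
    apply hij
    rw [Matrix.sub_apply, hF, embM, if_neg, if_neg, sub_self]
    · exact fun h => hj ⟨a, h⟩
    · rintro rfl
      exact hc rfl
  refine ⟨?_, ?_⟩
  · rw [e1, e2]
    refine sim_psse (fun i j => ?_) hG
    rw [hF]
    split_ifs
    · exact Pos.one
    · exact Pos.zero
  · refine ⟨W, inferInstance, inferInstance, e, Function.Embedding.refl W, ?_⟩
    rw [Jm_refl, padM_refl, e1, e2, ← qr3_alg _ F _ G hEE hFE, padM]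
    refine ((eqv_right _ (fun i => ¬ ∃ a, Jm e a = i) _ fun i j hij => ?_).trans
      (eqv_left _ (fun i => ∃ a, Jm e a = i) _ fun i j hij => ?_)).trans
      (eqv_right _ (fun i => ∃ a, Jm e a = i) _ fun i j hij => ?_)
    · rw [Matrix.neg_apply, neg_ne_zero] at hij
      have hi : ¬ ∃ a, Jm e a = i := by
        rintro ⟨a, rfl⟩
        apply hij
        rw [← qr3_emb_mul (Jm e) (_ * _), ← Matrix.mul_assoc, ← Matrix.mul_assoc, Matrix.mul_sub,
          ← Matrix.mul_assoc, hEE, Matrix.one_mul, Matrix.mul_one, sub_self, Matrix.zero_mul,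
          Matrix.zero_mul, Matrix.zero_apply]
      refine ⟨hi, fun hj => hij (qr3_mul_emb _ _ _ fun a ha => hj ⟨a, ha⟩), hnew i hi⟩
    · rw [Matrix.neg_apply, neg_ne_zero] at hij
      obtain ⟨h1, h2, ⟨v, h3⟩, h4⟩ := hK i j hij
      exact ⟨h1, h2, by rw [h3]; simp, Or.inr h4⟩
    · obtain ⟨h1, h2, h3, -⟩ := hK i j hij
      exact ⟨h1, h2, h3⟩

/-- `sim_defl`, and `1 - (B - D) (1 + D) = (1 - B) (1 + D)` since `D * D = 0`. -/
theorem mv_defl {B D : Matrix (J V) (J V) RZ} (hB : PT B) (hD : MPos D) (h : MPos (B - D))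
    (hD2 : ∀ i j, D i j ≠ 0 → (∃ v, i = inl v) ∧ ∃ k, j = inr k) : Mv B ((B - D) * (1 + D)) := by
  have h0 : ∀ x y, D x y ≠ 0 → D y = 0 := by
    intro x y hxy
    obtain ⟨k, rfl⟩ := (hD2 x y hxy).2
    funext z
    by_contra hz
    obtain ⟨v, hv⟩ := (hD2 _ z hz).1
    cases hv
  have hDD : D * D = 0 := by
    ext1 x z
    rw [mul_apply]
    refine Finset.sum_eq_zero fun y _ => ?_
    by_cases hxy : D x y = 0
    · rw [hxy, zero_mul]
    · rw [h0 x y hxy, Pi.zero_apply, mul_zero]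
  refine ⟨sim_defl hB hD h h0, ?_⟩
  have e : 1 - (B - D) * (1 + D) = (1 - B) * (1 + D) := by
    simp only [mul_add, sub_mul, mul_one, one_mul, hDD]
    abel
  rw [e]
  refine (eqv_right _ (fun i => ∃ v, i = inl v) _ fun i j hij => ?_).rel
  obtain ⟨h1, k, rfl⟩ := hD2 i j hij
  exact ⟨h1, by simp, h1⟩

omit [DecidableEq V] in
theorem qr3_hb_mul (α β : Matrix V V RZ) : hb (α * β) = hb α * hb β := by
  simp [hb, fromBlocks_multiply]

theorem qr3_eqv_hb (α : Matrix V V RZ) (g g' : El V RZ) :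
    Eqv (hb α) (hb (mat g * α * mat g')) := by
  obtain ⟨u, hu, hu'⟩ := UG_of_El g
  obtain ⟨v, hv, hv'⟩ := VG_of_El g'
  exact ⟨u, hu, v, hv, by rw [hu', hv', qr3_hb_mul, qr3_hb_mul]⟩

theorem qr3_upper (A : Matrix V W RZ) : ∃ g : El (V ⊕ W) RZ, mat g = fromBlocks 1 A 0 1 := by
  obtain ⟨g, hg⟩ := block_el (fun i : V ⊕ W => i.isLeft = true) (fromBlocks 0 A 0 0) (by
    rintro (i | i) (j | j) h <;> simp_all)
  refine ⟨g, ?_⟩
  rw [hg, ← fromBlocks_one, fromBlocks_add]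
  simp

theorem qr3_lower (A : Matrix W V RZ) : ∃ g : El (V ⊕ W) RZ, mat g = fromBlocks 1 0 A 1 := by
  obtain ⟨g, hg⟩ := block_el (fun i : V ⊕ W => i.isRight = true) (fromBlocks 0 0 A 0) (by
    rintro (i | i) (j | j) h <;> simp_all)
  refine ⟨g, ?_⟩
  rw [hg, ← fromBlocks_one, fromBlocks_add]
  simp

/-- On `V ⊕ W`, `[[1, t R], [S, 1]]` is equivalent to both `(1 - t R S) ⊕ 1` and `1 ⊕ (1 - t S R)`. -/
theorem rel_esse (R : Matrix V W (Lam ℤ)) (S : Matrix W V (Lam ℤ)) :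
    Rel (hb (1 - tM (R * S))) (hb (1 - tM (S * R))) := by
  have e1 : tM (R * S) = tM R * S.map (C : Lam ℤ → RZ) := by
    rw [tM, tM, Matrix.smul_mul, Matrix.map_mul]
  have e2 : tM (S * R) = S.map (C : Lam ℤ → RZ) * tM R := by
    rw [tM, tM, Matrix.mul_smul, Matrix.map_mul]
  rw [e1, e2]
  generalize tM R = A
  generalize S.map (C : Lam ℤ → RZ) = T
  obtain ⟨g, hg⟩ := qr3_upper A
  obtain ⟨g', hg'⟩ := qr3_lower T
  refine ⟨V ⊕ W, inferInstance, inferInstance, Function.Embedding.inl, Function.Embedding.inr, ?_⟩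
  rw [padM_hb, padM_hb, padM_inl, padM_inr]
  refine (qr3_eqv_hb _ g g').trans (Eqv.symm ?_)
  have := qr3_eqv_hb (fromBlocks 1 0 0 (1 - T * A)) g' g
  convert this using 2
  rw [hg, hg']
  simp [fromBlocks_multiply]

theorem rel_eqvGen {A B : FM} (h : Relation.EqvGen (ES fun _ => True) A B) :
    Rel (hb (1 - tM A.2)) (hb (1 - tM B.2)) := by
  induction h with
  | rel A B h =>
    obtain ⟨R, S, -, -, h1, h2⟩ := h
    rw [h1, h2]
    exact rel_esse R S
  | refl A => exact Rel.refl _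
  | symm A B _ ih => exact ih.symm
  | trans A B C _ _ ih ih' => exact ih.trans ih' fun _ => rfl

theorem Rel.det {M : Matrix (J V) (J V) RZ} {M' : Matrix (J W) (J W) RZ} (h : Rel M M')
    (hM : ∀ v, M (inr 0) (inl v) = 0) : M.toBlocks₁₁.det = M'.toBlocks₁₁.det := by
  obtain ⟨Z, _, _, e, e', h⟩ := h
  have hM' : ∀ z, padM (Jm e) M (inr 0) (inl z) = 0 := by
    intro z
    by_cases hz : ∃ a, Jm e a = inl z
    · obtain ⟨a | k, ha⟩ := hz
      · rw [← ha, ← Jm_inr e, padM_apply, hM]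
      · cases ha
    · rw [padM_of_col _ _ _ fun a ha => hz ⟨a, ha⟩, one_apply_ne (by simp)]
  obtain ⟨g, g', hg⟩ := h.blocks hM'
  have := congrArg Matrix.det hg
  rwa [det_mul, det_mul, det_mat, det_mat, one_mul, mul_one, toBlocks_padM, toBlocks_padM,
    det_padM, det_padM] at this

end Pool.Agent.Lib.MP_71aad1_an.SS
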