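import Pool.Agent.Lib.MP_71aad1_an.QL6
import Pool.Agent.Lib.MP_71aad1_an.QR3

set_option autoImplicit false

namespace Pool.Agent.Lib.MP_71aad1_an.SS

open Polynomial Matrix Finset Sum

/-! There are enough loops of each type. -/

/-- The recursively defined sequence. -/
def ql7_e (c L : ℕ) : ℕ → ℤ
  | 0 => 1
  | j + 1 => 8 * ql7_e c L j - if L ≤ j + 1 then 2 * (c : ℤ) * ql7_e c L (j - (L - 1)) else 0
termination_by j => j
decreasing_by all_goals omega

theorem ql7_grow {e : ℕ → ℤ} {j : ℕ} (h : ∀ i, i < j → 7 * e i ≤ e (i + 1)) (k i : ℕ)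
    (hk : i + k ≤ j) : 7 ^ k * e i ≤ e (i + k) := by
  induction k with
  | zero => simp
  | succ k ih =>
    have h1 := ih (by omega)
    have h2 := h (i + k) (by omega)
    rw [pow_succ, ← Nat.add_assoc]
    linarith

/-- The sequence with generating function `1 / (1 - 8 t + 2 c t ^ L)`: strong induction gives
`7 e j ≤ e (j + 1) ≤ 8 e j`, since `7 ^ (L - 1) e (j + 1 - L) ≤ e j`. -/
theorem exists_e {c L : ℕ} (hL : 1 ≤ L) (hc : 2 * c ≤ 7 ^ (L - 1)) : ∃ e : ℕ → ℤ, e 0 = 1 ∧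
    (∀ j, e (j + 1) = 8 * e j - if L ≤ j + 1 then 2 * (c : ℤ) * e (j + 1 - L) else 0) ∧
    ∀ j, 7 * e j ≤ e (j + 1) ∧ e (j + 1) ≤ 8 * e j ∧ 0 < e j := by
  have h0 : ql7_e c L 0 = 1 := by rw [ql7_e]
  have hs : ∀ j, ql7_e c L (j + 1) = 8 * ql7_e c L j -
      if L ≤ j + 1 then 2 * (c : ℤ) * ql7_e c L (j + 1 - L) else 0 := fun j => by
    rw [ql7_e, show j - (L - 1) = j + 1 - L by omega]
  refine ⟨ql7_e c L, h0, hs, fun j => ?_⟩
  generalize ql7_e c L = e at h0 hs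
  induction j using Nat.strong_induction_on with
  | _ j ih =>
    have hg := ql7_grow (e := e) (j := j) (fun i hi => (ih i hi).1)
    have hpos : ∀ i, i ≤ j → 0 < e i := fun i hi => by
      have h1 := hg i 0 (by omega)
      rw [h0, Nat.zero_add] at h1
      have h2 : (0 : ℤ) < 7 ^ i := by positivity
      linarith
    have hj := hpos j le_rfl
    rw [hs j]
    split_ifs with hLj
    · have h1 := hg (L - 1) (j + 1 - L) (by omega)
      rw [show j + 1 - L + (L - 1) = j by omega] at h1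
      have h2 := hpos (j + 1 - L) (by omega)
      have h3 : (2 * c : ℤ) ≤ 7 ^ (L - 1) := by exact_mod_cast hc
      have h4 : 2 * (c : ℤ) * e (j + 1 - L) ≤ 7 ^ (L - 1) * e (j + 1 - L) :=
        mul_le_mul_of_nonneg_right h3 h2.le
      have h5 : 0 ≤ 2 * (c : ℤ) * e (j + 1 - L) := by positivity
      exact ⟨by linarith, by linarith, hj⟩
    · exact ⟨by linarith, by linarith, hj⟩

theorem ql7_iZ_X : iZ X = X := by simp [iZ]

theorem ql7_ident (c L : ℕ) (hL : 1 ≤ L) (σ : ℤ[X]) :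
    (Del + (c : RZ) * uR * X ^ L) * (uR * iZ σ) + X * derivative (Del + (c : RZ) * uR * X ^ L) =
      uR * iZ ((1 - 8 * X + 2 * (c : ℤ[X]) * X ^ L) * σ - (4 * X - (c : ℤ[X]) * (L : ℤ[X]) * X ^ L)) := by
  obtain ⟨k, rfl⟩ : ∃ k, L = k + 1 := ⟨L - 1, by omega⟩
  have hu : derivative uR = 0 := by rw [uR, derivative_C]
  have hd : derivative (Del + (c : RZ) * uR * X ^ (k + 1)) =
      -(4 * uR) + (c : RZ) * uR * (((k + 1 : ℕ) : RZ) * X ^ k) := by
    have h4 : derivative (4 : RZ) = 0 := derivative_ofNat 4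
    rw [Del, derivative_add, derivative_sub, derivative_one, derivative_mul, derivative_mul,
      derivative_mul, derivative_mul, hu, h4, derivative_X, derivative_natCast, derivative_X_pow]
    simp only [Nat.add_sub_cancel, map_natCast]
    ring
  rw [hd, Del]
  simp only [map_sub, map_mul, map_add, map_one, map_pow, map_natCast, map_ofNat, ql7_iZ_X]
  have h2 := uR_mul_uR
  linear_combination (-4 * X * iZ σ + (c : RZ) * X ^ (k + 1) * iZ σ) * h2

/-- `σ = (4 t - c L t ^ L) e`, truncated; `σ p = 4 e (p - 1) - c L e (p - L)` lies between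
`7 ^ p / 2` and `8 ^ p / 2`. With `F = Del + c u t ^ L`:
`F (u σ) + t F' = u ((1 - 8 t + 2 c t ^ L) σ - 4 t + c L t ^ L)`. -/
theorem exists_sigma {c L : ℕ} (hL : 2 ≤ L) (hc : 2 * c * L ≤ 7 ^ (L - 1)) (M : ℕ) :
    ∃ σ : ℤ[X], (∀ p, 1 ≤ p → p < M → (7 : ℤ) ^ p ≤ 2 * σ.coeff p ∧ 2 * σ.coeff p ≤ 8 ^ p) ∧
      X ^ M ∣ (Del + (c : RZ) * uR * X ^ L) * (uR * iZ σ) +
        X * derivative (Del + (c : RZ) * uR * X ^ L) := by
  have hc' : 2 * c ≤ 7 ^ (L - 1) := le_trans (Nat.le_mul_of_pos_right _ (by omega)) hc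
  obtain ⟨e, h0, hs, hb⟩ := exists_e (c := c) (L := L) (by omega) hc'
  set E : ℤ[X] := ∑ j ∈ range M, monomial j (e j) with hE
  have hEc : ∀ d, d < M → E.coeff d = e d := fun d hd => by
    rw [hE, finsetSum_coeff, Finset.sum_eq_single d]
    · simp
    · intro b _ hb
      rw [coeff_monomial, if_neg hb]
    · intro h
      exact absurd (mem_range.2 hd) h
  have hup : ∀ j, e j ≤ 8 ^ j := fun j => by
    induction j with
    | zero => simp [h0]
    | succ j ih =>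
      have := (hb j).2.1
      rw [pow_succ]
      linarith
  have hg := fun k i => ql7_grow (e := e) (j := i + k) (fun i _ => (hb i).1) k i le_rfl
  have hlo : ∀ j, 7 ^ j ≤ e j := fun j => by
    have := hg j 0
    rwa [h0, mul_one, Nat.zero_add] at this
  refine ⟨(4 * X - (c : ℤ[X]) * (L : ℤ[X]) * X ^ L) * E, fun p hp hM => ?_, ?_⟩
  · obtain ⟨q, rfl⟩ : ∃ q, p = q + 1 := ⟨p - 1, by omega⟩
    have hco : ((4 * X - (c : ℤ[X]) * (L : ℤ[X]) * X ^ L) * E).coeff (q + 1) =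
        4 * e q - if L ≤ q + 1 then (c : ℤ) * L * e (q + 1 - L) else 0 := by
      have h1 : (4 * X - (c : ℤ[X]) * (L : ℤ[X]) * X ^ L) * E =
          C 4 * (X * E) - C ((c : ℤ) * L) * (X ^ L * E) := by
        simp only [map_mul, map_natCast, map_ofNat]
        ring
      rw [h1, coeff_sub, coeff_C_mul, coeff_C_mul, coeff_X_mul, coeff_X_pow_mul', hEc q (by omega)]
      split_ifs with h
      · rw [hEc _ (by omega)]
      · rw [mul_zero]
    rw [hco, pow_succ, pow_succ]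
    have h1 := hup q
    have h2 := hlo q
    split_ifs with h
    · have h3 := hg (L - 1) (q + 1 - L)
      rw [show q + 1 - L + (L - 1) = q by omega] at h3
      have h4 := (hb (q + 1 - L)).2.2
      have h5 : (2 * c * L : ℤ) ≤ 7 ^ (L - 1) := by exact_mod_cast hc
      have h6 : (2 * c * L : ℤ) * e (q + 1 - L) ≤ 7 ^ (L - 1) * e (q + 1 - L) :=
        mul_le_mul_of_nonneg_right h5 h4.le
      have h7 : 0 ≤ (c : ℤ) * L * e (q + 1 - L) := by positivity
      constructor <;> linarith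
    · have h3 := (hb q).2.2
      constructor <;> linarith
  · rw [ql7_ident c L (by omega)]
    have h1 : (X : ℤ[X]) ^ M ∣ (1 - 8 * X + 2 * (c : ℤ[X]) * X ^ L) * E - 1 := by
      rw [X_pow_dvd_iff]
      intro d hd
      have h2 : (1 - 8 * X + 2 * (c : ℤ[X]) * X ^ L) * E - 1 =
          E - C 8 * (X * E) + C (2 * (c : ℤ)) * (X ^ L * E) - 1 := by
        simp only [map_mul, map_natCast, map_ofNat]
        ring
      rw [h2, coeff_sub, coeff_add, coeff_sub, coeff_C_mul, coeff_C_mul, coeff_X_pow_mul', hEc d hd]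
      cases d with
      | zero =>
        rw [if_neg (by omega), h0]
        simp
      | succ d =>
        rw [coeff_X_mul, hEc d (by omega), hs d, coeff_one, if_neg (Nat.succ_ne_zero d)]
        split_ifs with h
        · rw [hEc _ (by omega)]
          ring
        · ring
    obtain ⟨w, hw⟩ := h1
    have h3 : (1 - 8 * X + 2 * (c : ℤ[X]) * X ^ L) * ((4 * X - (c : ℤ[X]) * (L : ℤ[X]) * X ^ L) * E) -
        (4 * X - (c : ℤ[X]) * (L : ℤ[X]) * X ^ L) = X ^ M * ((4 * X - (c : ℤ[X]) * (L : ℤ[X]) * X ^ L) * w) := by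
      linear_combination (4 * X - (c : ℤ[X]) * (L : ℤ[X]) * X ^ L) * hw
    rw [h3, map_mul, map_pow, ql7_iZ_X]
    exact Dvd.dvd.mul_left (dvd_mul_right _ _) _

theorem ql7_gpow (k : ℕ) : (0 ≤ (gL ^ k).re ∧ 0 ≤ (gL ^ k).im) ∧ (gL ^ k).re + (gL ^ k).im = 1 := by
  induction k with
  | zero => exact ⟨⟨zero_le_one, le_rfl⟩, rfl⟩
  | succ k ih =>
    have h1 : (gL ^ (k + 1)).re = (gL ^ k).im := by rw [pow_succ]; simp [gL]
    have h2 : (gL ^ (k + 1)).im = (gL ^ k).re := by rw [pow_succ]; simp [gL]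
    rw [h1, h2]
    exact ⟨⟨ih.1.2, ih.1.1⟩, by rw [add_comm]; exact ih.2⟩

theorem ql7_term_re (m n k : ℕ) :
    ((m : Lam ℤ) + (n : Lam ℤ) * gL ^ k).re = m + n * (gL ^ k).re := by simp
theorem ql7_term_im (m n k : ℕ) :
    ((m : Lam ℤ) + (n : Lam ℤ) * gL ^ k).im = n * (gL ^ k).im := by simp

theorem ql7_re_sum (s : Finset ℕ) (f : ℕ → Lam ℤ) : (∑ d ∈ s, f d).re = ∑ d ∈ s, (f d).re := by
  induction s using Finset.induction_on with
  | empty => rfl
  | insert a s ha ih => rw [sum_insert ha, sum_insert ha, ← ih]; rfl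
theorem ql7_im_sum (s : Finset ℕ) (f : ℕ → Lam ℤ) : (∑ d ∈ s, f d).im = ∑ d ∈ s, (f d).im := by
  induction s using Finset.induction_on with
  | empty => rfl
  | insert a s ha ih => rw [sum_insert ha, sum_insert ha, ← ih]; rfl

theorem ql7_sq (q : ℕ) : (q + 1) ^ 2 ≤ 3 ^ (q + 1) := by
  induction q with
  | zero => norm_num
  | succ q ih =>
    have h1 : q + 1 < 3 ^ (q + 1) := Nat.lt_pow_self (by norm_num)
    rw [pow_succ 3 (q + 1)]
    nlinarith

theorem ql7_lin (q : ℕ) : 2 * (q + 1) * 3 ^ (q + 1) ≤ 7 ^ (q + 1) := by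
  induction q with
  | zero => norm_num
  | succ q ih =>
    rw [pow_succ 3 (q + 1), pow_succ 7 (q + 1)]
    generalize 3 ^ (q + 1) = A at ih ⊢
    generalize 7 ^ (q + 1) = B at ih ⊢
    calc 2 * (q + 1 + 1) * (A * 3) ≤ 2 * (q + 1 + 1) * (A * 3) + (8 * q + 2) * A :=
          Nat.le_add_right _ _
      _ = (2 * (q + 1) * A) * 7 := by ring
      _ ≤ B * 7 := Nat.mul_le_mul_right _ ih

theorem ql7_num (p : ℕ) (hp : 1 ≤ p) :
    2 * (p : ℤ) ^ 2 + 2 * ∑ d ∈ p.properDivisors, (8 : ℤ) ^ d ≤ 7 ^ p := by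
  have h1 : ∑ d ∈ p.properDivisors, (8 : ℕ) ^ d ≤ (p - 1) * 3 ^ p := by
    have h2 : p.properDivisors.card ≤ p - 1 := by
      have : p.properDivisors ⊆ Ico 1 p := fun d hd => by
        rw [Nat.mem_properDivisors] at hd
        exact mem_Ico.2 ⟨Nat.pos_of_dvd_of_pos hd.1 hp, hd.2⟩
      simpa using card_le_card this
    refine le_trans (sum_le_card_nsmul _ _ (3 ^ p) fun d hd => ?_) ?_
    · rw [Nat.mem_properDivisors] at hd
      obtain ⟨⟨k, hk⟩, hlt⟩ := hd
      have hk2 : 2 ≤ k := by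
        by_contra hk2
        have : k = 0 ∨ k = 1 := by omega
        rcases this with rfl | rfl <;> omega
      have h3 : 2 * d ≤ p := by rw [hk, mul_comm]; exact Nat.mul_le_mul_left d hk2
      calc 8 ^ d ≤ (3 ^ 2) ^ d := Nat.pow_le_pow_left (by norm_num) d
        _ = 3 ^ (2 * d) := (pow_mul 3 2 d).symm
        _ ≤ 3 ^ p := Nat.pow_le_pow_right (by norm_num) h3
    · rw [smul_eq_mul]
      exact Nat.mul_le_mul_right _ h2
  obtain ⟨q, rfl⟩ : ∃ q, p = q + 1 := ⟨p - 1, by omega⟩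
  have h2 := ql7_sq q
  have h3 := ql7_lin q
  rw [Nat.add_sub_cancel] at h1
  have h4 : 2 * (q + 1) ^ 2 + 2 * ∑ d ∈ (q + 1).properDivisors, (8 : ℕ) ^ d ≤ 7 ^ (q + 1) := by
    nlinarith
  exact_mod_cast h4

/-- By `psum_unique` and `psum_coeff`, both the real and the `g` part of
`∑_{d ∣ p} d (n (d, false) + n (d, true) g ^ (p / d))` equal `σ p`. So `d n (d, b) ≤ σ d`, and
`p n (p, b) ≥ σ p - ∑_{1 ≤ d ≤ p / 2} 2 σ d ≥ 7 ^ p / 2 - ∑_{1 ≤ d ≤ p / 2} 8 ^ d ≥ p ^ 2`. -/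
theorem count_ge {P : Type} [Fintype P] [DecidableEq P] {c L M : ℕ} (hL : 2 ≤ L)
    (hc : 2 * c * L ≤ 7 ^ (L - 1)) {a : P → ℕ × Bool} (ha : ∀ π, 1 ≤ (a π).1)
    (h : X ^ M ∣ ∏ π, (1 - mono (a π)) - (Del + (c : RZ) * uR * X ^ L)) (p : ℕ) (b : Bool)
    (hp : 1 ≤ p) (hM : p < M) : p ≤ (univ.filter fun π => a π = (p, b)).card := by
  obtain ⟨σ, hσ, hG⟩ := exists_sigma hL hc M
  have hF : X ∣ Del + (c : RZ) * uR * X ^ L - 1 := by
    obtain ⟨k, rfl⟩ : ∃ k, L = k + 1 := ⟨L - 1, by omega⟩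
    exact ⟨-(4 * uR) + (c : RZ) * uR * X ^ k, by rw [Del]; ring⟩
  have hu := psum_unique ha hF h hG
  rw [X_pow_dvd_iff] at hu
  set u : ℕ → ℤ := fun d => ((d * cnt a (d, false) : ℕ) : ℤ) with hud
  set v : ℕ → ℤ := fun d => ((d * cnt a (d, true) : ℕ) : ℤ) with hvd
  have hu0 : ∀ d, 0 ≤ u d := fun d => Int.natCast_nonneg _
  have hv0 : ∀ d, 0 ≤ v d := fun d => Int.natCast_nonneg _
  have key : ∀ q, 1 ≤ q → q < M →
      u q + ∑ d ∈ q.properDivisors, (u d + v d * (gL ^ (q / d)).re) = σ.coeff q ∧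
      v q + ∑ d ∈ q.properDivisors, v d * (gL ^ (q / d)).im = σ.coeff q := fun q hq hqM => by
    have h1 := hu q hqM
    rw [coeff_sub, sub_eq_zero, psum_coeff ha hq hqM.le, coeff_uR_mul_iZ,
      ← Nat.insert_self_properDivisors (by omega), sum_insert Nat.self_notMem_properDivisors,
      Nat.div_self hq, pow_one] at h1
    have h2 := congrArg QuadraticAlgebra.re h1
    have h3 := congrArg QuadraticAlgebra.im h1
    rw [QuadraticAlgebra.re_add, ql7_re_sum] at h2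
    rw [QuadraticAlgebra.im_add, ql7_im_sum] at h3
    simp only [ql7_term_re, ql7_term_im] at h2 h3
    refine ⟨?_, ?_⟩
    · rw [← h2]
      congr 1
    · rw [← h3]
      congr 1
      simp [gL, hvd]
  have hnn : ∀ q d, 0 ≤ u d + v d * (gL ^ (q / d)).re ∧ 0 ≤ v d * (gL ^ (q / d)).im ∧
      u d + v d * (gL ^ (q / d)).re ≤ u d + v d ∧ v d * (gL ^ (q / d)).im ≤ u d + v d :=
    fun q d => by
      obtain ⟨⟨h1, h2⟩, h3⟩ := ql7_gpow (q / d)
      have h4 := hu0 d
      have h5 := hv0 d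
      have h6 := mul_nonneg h5 h1
      have h7 := mul_nonneg h5 h2
      have h8 : v d * (gL ^ (q / d)).re + v d * (gL ^ (q / d)).im = v d := by
        rw [← mul_add, h3, mul_one]
      exact ⟨by linarith, h7, by linarith, by linarith⟩
  have hup : ∀ d ∈ p.properDivisors, u d + v d ≤ 8 ^ d := fun d hd => by
    rw [Nat.mem_properDivisors] at hd
    have hd1 : 1 ≤ d := Nat.pos_of_dvd_of_pos hd.1 hp
    have hd2 : d < M := lt_trans hd.2 hM
    obtain ⟨h1, h2⟩ := key d hd1 hd2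
    have h3 : 0 ≤ ∑ i ∈ d.properDivisors, (u i + v i * (gL ^ (d / i)).re) :=
      sum_nonneg fun i _ => (hnn d i).1
    have h4 : 0 ≤ ∑ i ∈ d.properDivisors, v i * (gL ^ (d / i)).im :=
      sum_nonneg fun i _ => (hnn d i).2.1
    have h5 := (hσ d hd1 hd2).2
    linarith
  obtain ⟨h1, h2⟩ := key p hp hM
  have h3 : ∑ d ∈ p.properDivisors, (u d + v d * (gL ^ (p / d)).re) ≤
      ∑ d ∈ p.properDivisors, (8 : ℤ) ^ d :=
    sum_le_sum fun d hd => le_trans (hnn p d).2.2.1 (hup d hd)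
  have h4 : ∑ d ∈ p.properDivisors, v d * (gL ^ (p / d)).im ≤
      ∑ d ∈ p.properDivisors, (8 : ℤ) ^ d :=
    sum_le_sum fun d hd => le_trans (hnn p d).2.2.2 (hup d hd)
  have h5 := (hσ p hp hM).1
  have h6 := ql7_num p hp
  have h7 : (p : ℤ) ^ 2 ≤ ((p * cnt a (p, b) : ℕ) : ℤ) := by
    cases b
    · change _ ≤ u p
      linarith
    · change _ ≤ v p
      linarith
  have h8 : p * p ≤ p * cnt a (p, b) := by
    rw [← sq]
    exact_mod_cast h7
  exact Nat.le_of_mul_le_mul_left h8 hp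

theorem ql7_det_dvd {ι A : Type} [Fintype ι] [DecidableEq ι] [CommRing A] (q : A)
    (N N' : Matrix ι ι A) (h : ∀ x z, q ∣ N x z - N' x z) : q ∣ N.det - N'.det := by
  rw [← Ideal.mem_span_singleton, ← Ideal.Quotient.eq, RingHom.map_det, RingHom.map_det]
  congr 1
  ext x z
  rw [RingHom.mapMatrix_apply, RingHom.mapMatrix_apply, map_apply, map_apply, Ideal.Quotient.eq,
    Ideal.mem_span_singleton]
  exact h x z

/-- `Rel.det`, `Hub.ha0`; modulo `t ^ M` (map to the quotient ring, `RingHom.map_det`) the active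
block of `1 - B` is diagonal. -/
theorem Side.det {O P : Type} [Fintype O] [DecidableEq O] [Fintype P] [DecidableEq P]
    {r θ K Ω : ℝ} {M s sm s0 c L sm' : ℕ} {ar ar' : RZ} {a : P → ℕ × Bool}
    {B : Matrix (J (O ⊕ P)) (J (O ⊕ P)) RZ} (h : Side r M s θ K Ω ar sm s0 a B)
    (hR : Rel (1 - B) (canon c L sm' ar')) :
    X ^ M ∣ ∏ π, (1 - mono (a π)) - (Del + (c : RZ) * uR * X ^ L) := by
  have h1 := hR.det h.hub.ha0
  have h2 : (canon c L sm' ar').toBlocks₁₁.det = Del + (c : RZ) * uR * X ^ L := by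
    rw [canon, toBlocks_fromBlocks₁₁, det_unique, of_apply]
  have h3 : (diagonal fun x : O ⊕ P => 1 - lp a x).det = ∏ π, (1 - mono (a π)) := by
    rw [det_diagonal, Fintype.prod_sum_type]
    simp [lp]
  rw [← h2, ← h1, ← h3]
  refine ql7_det_dvd _ _ _ fun x z => ?_
  have h4 : (diagonal fun x : O ⊕ P => 1 - lp a x) x z - (1 - B).toBlocks₁₁ x z = sml a B x z := by
    simp only [sml, toBlocks₁₁, of_apply, Matrix.sub_apply, diagonal_apply, one_apply, inl.injEq]
    split_ifs <;> ring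
  rw [h4]
  exact (pow_dvd_pow X (Nat.le_add_left _ _)).trans (h.core.ord x z)

end Pool.Agent.Lib.MP_71aad1_an.SS
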