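import Pool.Agent.Lib.MP_71aad1_an.QT4

set_option autoImplicit false

namespace Pool.Agent.Lib.MP_71aad1_an.SS

open Polynomial Matrix Finset Sum

/-! Strictly superharmonic weights. -/

variable {V : Type} [Fintype V] [DecidableEq V]

/-- Replace `v` by `(v + P v) / 2`: the defect `v - P v` is replaced by `(1 + P) / 2` times the
defect. Induction on `n`: there is a positive superharmonic `v` whose defect is positive at `w` and
at all `x` with `d x < n`. -/
theorem exists_strict (P : Matrix V V ℝ) (hP : ∀ x z, 0 ≤ P x z) (v : V → ℝ) (hv : ∀ x, 0 < v x)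
    (h : ∀ x, ∑ z, P x z * v z ≤ v x) (w : V) (hw : ∑ z, P w z * v z < v w) (d : V → ℕ)
    (hd : ∀ x, x ≠ w → ∃ z, d z < d x ∧ 0 < P x z) :
    ∃ ω : V → ℝ, (∀ x, 0 < ω x) ∧ ∀ x, ∑ z, P x z * ω z < ω x := by
  have key : ∀ n : ℕ, ∃ u : V → ℝ, (∀ x, 0 < u x) ∧ (∀ x, ∑ z, P x z * u z ≤ u x) ∧
      ∑ z, P w z * u z < u w ∧ ∀ x, d x < n → ∑ z, P x z * u z < u x := by
    intro n
    induction n with
    | zero => exact ⟨v, hv, h, hw, fun x hx => absurd hx (Nat.not_lt_zero _)⟩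
    | succ n ih =>
      obtain ⟨u, h1, h2, h3, h4⟩ := ih
      have e : ∀ x, ∑ z, P x z * (u z + ∑ y, P z y * u y) =
          ∑ z, P x z * u z + ∑ z, P x z * ∑ y, P z y * u y := fun x => by
        rw [← Finset.sum_add_distrib]
        exact Finset.sum_congr rfl fun z _ => mul_add _ _ _
      have le : ∀ x, ∑ z, P x z * ∑ y, P z y * u y ≤ ∑ z, P x z * u z := fun x =>
        Finset.sum_le_sum fun z _ => mul_le_mul_of_nonneg_left (h2 z) (hP x z)
      have hw' : ∑ z, P w z * (u z + ∑ y, P z y * u y) < u w + ∑ y, P w y * u y := by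
        rw [e]
        linarith [le w]
      refine ⟨fun x => u x + ∑ y, P x y * u y, fun x => add_pos_of_pos_of_nonneg (h1 x)
        (Finset.sum_nonneg fun y _ => mul_nonneg (hP x y) (h1 y).le), fun x => ?_, hw',
        fun x hx => ?_⟩
      · rw [e]
        linarith [le x, h2 x]
      · by_cases hxw : x = w
        · subst hxw
          exact hw'
        · obtain ⟨z, hz, hp⟩ := hd x hxw
          have lt : ∑ z, P x z * ∑ y, P z y * u y < ∑ z, P x z * u z :=
            Finset.sum_lt_sum (fun z _ => mul_le_mul_of_nonneg_left (h2 z) (hP x z))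
              ⟨z, Finset.mem_univ z, mul_lt_mul_of_pos_left (h4 z (by omega)) hp⟩
          rw [e]
          linarith [h2 x]
  obtain ⟨u, h1, -, -, h4⟩ := key (univ.sup d + 1)
  exact ⟨u, h1, fun x => h4 x (Nat.lt_succ_of_le (Finset.le_sup (f := d) (Finset.mem_univ x)))⟩

theorem Sup.mono {ρ ρ' : ℝ} {ω : V → ℝ} {B : Matrix V V RZ} (hB : MPos B) (h : Sup ρ ω B)
    (h0 : 0 ≤ ρ') (h1 : ρ' ≤ ρ) : Sup ρ' ω B :=
  ⟨h.1, fun x => lt_of_le_of_lt (Finset.sum_le_sum fun z _ =>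
    mul_le_mul_of_nonneg_right (ev_mono_rad h0 h1 (hB x z)) (h.1 z).le) (h.2 x)⟩

/-- `continuous_ev`. -/
theorem Sup.open {ρ : ℝ} {ω : V → ℝ} {B : Matrix V V RZ} (h : Sup ρ ω B) :
    ∃ ρ', ρ < ρ' ∧ Sup ρ' ω B := by
  have hev : ∀ᶠ t in nhdsWithin ρ (Set.Ioi ρ), ∀ x, ∑ z, ev t (B x z) * ω z < ω x := by
    refine Filter.eventually_all.2 fun x => ?_
    refine Filter.Eventually.filter_mono nhdsWithin_le_nhds ?_
    have hc : Continuous fun t : ℝ => ∑ z, ev t (B x z) * ω z :=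
      continuous_finsetSum _ fun z _ => (continuous_ev _).mul continuous_const
    exact ContinuousAt.eventually_lt hc.continuousAt continuousAt_const (h.2 x)
  obtain ⟨t, ht, ht0⟩ := (hev.and self_mem_nhdsWithin).exists
  exact ⟨t, ht0, h.1, ht⟩

/-- `BT_harm`, `RankOne.dist`, `BT_ne`, `ev_pos`. -/
theorem BT_sup {A : Matrix V V (Lam ℤ)} {m L c : ℕ} {rr l : V → ℕ} (h : RankOne A m rr l) {w : V}
    (hL : 1 ≤ L) (hc : 1 ≤ c) (ht : ∀ z, LPos (tv A w L z - (((c + 2) * l z : ℕ) : Lam ℤ) * uL)) :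
    ∃ ρ : ℝ, 1 / 8 < ρ ∧ ∃ ω, Sup ρ ω (BT A w l L c) := by
  obtain ⟨d, hd⟩ := h.dist w
  obtain ⟨h1, h2⟩ := BT_harm (w := w) h hL hc
  have hpt := BT_pt (w := w) h.pos hL ht
  obtain ⟨ω, hω⟩ := exists_strict (of fun x z => ev (1 / 8) (BT A w l L c x z))
    (fun x z => ev_nonneg (by norm_num) (hpt.1 x z)) (fun x => (rr x : ℝ))
    (fun x => Nat.cast_pos.2 (h.rpos x)) h1 w h2 d fun x hx => by
      obtain ⟨z, hz, hne⟩ := hd x hx
      refine ⟨z, hz, ev_pos (by norm_num) (hpt.1 x z) ?_⟩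
      rw [BT_ne l L c hx]
      change X * C (A x z) ≠ 0
      intro h0
      apply hne
      have := congrArg (fun p : RZ => p.coeff 1) h0
      simpa using this
  obtain ⟨ρ, hρ, hs⟩ := Sup.open (ρ := 1 / 8) (B := BT A w l L c) hω
  exact ⟨ρ, hρ, ω, hs⟩

end Pool.Agent.Lib.MP_71aad1_an.SS
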