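import Pool.Agent.Lib.MP_71aad1_an.QR3
import Pool.Agent.Lib.MP_71aad1_an.QA3

set_option autoImplicit false

namespace Pool.Agent.Lib.MP_71aad1_an.SS

open Polynomial Matrix Finset Sum

/-! Budgets: every active state gets an exit of degree `s` and `s + 1`. -/

variable {V : Type} [Fintype V] [DecidableEq V]

theorem qt9_PM {p : RZ} (hp : Pos p) (hX : X ∣ p) (h0 : p ≠ 0) :
    ∃ j m, 1 ≤ j ∧ PM j m ∧ Pos (p - m) := by
  obtain ⟨j, hj⟩ : ∃ j, p.coeff j ≠ 0 := by
    by_contra h
    push Not at h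
    exact h0 (Polynomial.ext fun j => by rw [h j, coeff_zero])
  obtain ⟨m, hm, hm'⟩ := hp.exists_PM hj
  refine ⟨j, m, ?_, hm, hm'⟩
  rcases Nat.eq_zero_or_pos j with e | e
  · subst e
    exact absurd (X_dvd_iff.1 hX) hj
  · exact e

theorem qt9_vec (B : Matrix (J V) (J V) RZ) (c : V → RZ) (j : J V) :
    (c ᵥ* act (1 - B)) j = ∑ z, c z * (1 - B) (inl z) j := rfl

theorem qt9_bud {r : ℝ} (s : ℕ) : N0 r (bud s) = 4 * (r ^ s + r ^ (s + 1)) := by
  rw [N0_eq_ev (Pos.bud s), bud]
  simp only [map_mul, map_add, map_pow, ev_X, ev_uR, map_ofNat]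
  ring

theorem qt9_bud_dvd (s : ℕ) : X ^ s ∣ bud s := ⟨2 * uR * (1 + X), by rw [bud]; ring⟩

/-- Strong induction on `d x`. If `B (inl x) (inr 0) ≠ 0` take `c = 0` and `Pos.exists_PM`.
Otherwise take a unit monomial `m₁ ≤ B (inl x) (inl z)` and `c = m₁ • (e_z + c_z)`. -/
theorem exists_exit {B : Matrix (J V) (J V) RZ} (hB : PT B) (d : V → ℕ)
    (hd : ∀ x, B (inl x) (inr 0) ≠ 0 ∨ ∃ z, d z < d x ∧ B (inl x) (inl z) ≠ 0) (x : V) :
    ∃ (c : V → RZ) (p : ℕ) (m : RZ), (∀ z, Pos (c z) ∧ X ∣ c z) ∧ (∀ z, c z ≠ 0 → d z < d x) ∧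
      1 ≤ p ∧ PM p m ∧
      ∀ j, Pos ((B (inl x) - c ᵥ* act (1 - B) - Pi.single (inr 0) m : J V → RZ) j) := by
  induction h : d x using Nat.strong_induction_on generalizing x with
  | _ n ih =>
    rcases hd x with h0 | ⟨z, hz, h0⟩
    · obtain ⟨p, m, hp, hm, hm'⟩ := qt9_PM (hB.1 _ _) (hB.2 _ _) h0
      refine ⟨0, p, m, fun _ => ⟨Pos.zero, dvd_zero _⟩, fun z hz => absurd rfl hz, hp, hm, ?_⟩
      intro j
      rw [zero_vecMul, sub_zero, Pi.sub_apply]
      by_cases e : j = inr 0
      · subst e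
        rw [Pi.single_eq_same]
        exact hm'
      · rw [Pi.single_eq_of_ne e, sub_zero]
        exact hB.1 _ _
    · obtain ⟨p₁, m₁, hp₁, hm₁, hm₁'⟩ := qt9_PM (hB.1 _ _) (hB.2 _ _) h0
      obtain ⟨c, p, m, hc, hc', hp, hm, hpos⟩ := ih (d z) (h ▸ hz) z rfl
      have hX : X ∣ m₁ := (dvd_pow_self X (by omega)).trans hm₁.dvd
      refine ⟨fun y => m₁ * ((if y = z then 1 else 0) + c y), p₁ + p, m₁ * m, ?_, ?_, by omega,
        hm₁.mul hm, ?_⟩
      · intro y
        refine ⟨hm₁.pos.mul (Pos.add ?_ (hc y).1), hX.mul_right _⟩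
        split_ifs
        · exact Pos.one
        · exact Pos.zero
      · intro y hy
        by_cases e : y = z
        · subst e
          exact h ▸ hz
        · have : c y ≠ 0 := by
            intro e'
            apply hy
            simp only [if_neg e, e', add_zero, mul_zero]
          exact h ▸ (hc' y this).trans hz
      · intro j
        have e1 : ((fun y => m₁ * ((if y = z then 1 else 0) + c y)) ᵥ* act (1 - B)) j =
            m₁ * ((1 - B) (inl z) j + (c ᵥ* act (1 - B)) j) := by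
          rw [qt9_vec, qt9_vec, mul_add, Finset.mul_sum]
          have : ∀ y, m₁ * ((if y = z then 1 else 0) + c y) * (1 - B) (inl y) j =
              (if y = z then m₁ * (1 - B) (inl y) j else 0) + m₁ * (c y * (1 - B) (inl y) j) := by
            intro y
            split_ifs <;> ring
          rw [Finset.sum_congr rfl fun y _ => this y, Finset.sum_add_distrib, Finset.sum_ite_eq']
          simp
        have e2 : (Pi.single (inr 0) (m₁ * m) : J V → RZ) j =
            m₁ * (Pi.single (inr 0) m : J V → RZ) j := by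
          by_cases e : j = inr 0
          · subst e
            rw [Pi.single_eq_same, Pi.single_eq_same]
          · rw [Pi.single_eq_of_ne e, Pi.single_eq_of_ne e, mul_zero]
        have h1 := hm₁.pos.mul (hpos j)
        have h2 : Pos (B (inl x) j - m₁ * (1 : Matrix (J V) (J V) RZ) (inl z) j) := by
          by_cases e : inl z = j
          · subst e
            rw [one_apply_eq, mul_one]
            exact hm₁'
          · rw [one_apply_ne e, mul_zero, sub_zero]
            exact hB.1 _ _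
        have h3 := h2.add h1
        rw [Pi.sub_apply, Pi.sub_apply] at h3
        rw [Pi.sub_apply, Pi.sub_apply, e1, e2, Matrix.sub_apply]
        have e3 : ∀ a b u v w y : RZ, a - b * (u - v + w) - b * y = a - b * u + b * (v - w - y) := by
          intros
          ring
        rw [e3]
        exact h3

/-- `exists_exit` for each `x`, then `P0Const` with `n = fun h => if h = 0 then -bud s else 0`
(`N0 r (bud s) = 4 (r ^ s + r ^ (s + 1)) ≤ θ r ^ p` for large `s`). One `mv_trm` with the levels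
`0` on the hub and `d x + 1` on `inl x`; the new row is
`B (inl x) - c x ᵥ* act (1 - B) - q x • hav ar`. The weights stay superharmonic because `c ≥ 0`. -/
theorem budgets {ar : RZ} {sm s0 : ℕ} {B : Matrix (J V) (J V) RZ} (hB : Hub ar sm s0 B) {ρ : ℝ}
    (hρ : 0 ≤ ρ) {ω : V → ℝ} (hω : Sup ρ ω B.toBlocks₁₁) (d : V → ℕ)
    (hd : ∀ x, B (inl x) (inr 0) ≠ 0 ∨ ∃ z, d z < d x ∧ B (inl x) (inl z) ≠ 0) {r θ : ℝ} {κ : ℕ}
    (hr : 0 < r) (hr' : r < 1) (hθ : 0 < θ) (hP : P0Const r ar κ θ) :
    ∃ s₁ : ℕ, ∀ s, s₁ ≤ s → ∃ B' : Matrix (J V) (J V) RZ, Mv B B' ∧ Hub ar sm s0 B' ∧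
      Sup ρ ω B'.toBlocks₁₁ ∧ ∀ x, Pos (B' (inl x) (inr 0) - bud s) := by
  choose c p m hc hcd hp hm hpos using exists_exit hB.pt d hd
  have hlim : ∀ x, ∃ s₁ : ℕ, ∀ s, s₁ ≤ s → p x + κ ≤ s ∧ 8 * r ^ s ≤ θ * r ^ p x := by
    intro x
    have h1 : 0 < θ * r ^ p x / 8 := by positivity
    obtain ⟨n, hn⟩ := exists_pow_lt_of_lt_one h1 hr'
    refine ⟨max n (p x + κ), fun s hs => ⟨le_trans (le_max_right _ _) hs, ?_⟩⟩
    have := pow_le_pow_of_le_one hr.le hr'.le (le_trans (le_max_left _ _) hs)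
    linarith
  choose s₁ hs₁ using hlim
  refine ⟨univ.sup s₁, fun s hs => ?_⟩
  have hs' : ∀ x, p x + κ ≤ s ∧ 8 * r ^ s ≤ θ * r ^ p x := fun x =>
    hs₁ x s (le_trans (Finset.le_sup (mem_univ x)) hs)
  have hq : ∀ x, ∃ q : RZ, X ^ p x ∣ q ∧ ∀ h : Fin 3, Pos ((if h = 0 then m x else 0) +
      (if h = 0 then -bud s else 0) + q * (ar - if h = 0 then 1 else 0)) := by
    intro x
    refine hP (p x) (m x) (fun h => if h = 0 then -bud s else 0) (hm x) fun h => ?_
    by_cases e : h = 0
    · simp only [if_pos e]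
      refine ⟨((pow_dvd_pow X (hs' x).1).trans (qt9_bud_dvd s)).neg_right, ?_⟩
      rw [N0_neg, qt9_bud, pow_succ]
      have h1 := (hs' x).2
      have h2 : 0 < r ^ s := by positivity
      nlinarith
    · simp only [if_neg e]
      refine ⟨dvd_zero _, ?_⟩
      rw [N0_zero]
      positivity
  choose q hqd hq using hq
  obtain ⟨cm, hcm1, hcm2, hcm3⟩ : ∃ cm : Matrix (J V) (J V) RZ,
      (∀ x z, cm (inl x) (inl z) = c x z) ∧
      (∀ x h, cm (inl x) (inr h) = if h = 0 then q x else 0) ∧ ∀ h j, cm (inr h) j = 0 :=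
    ⟨fromBlocks (of c) (of fun x h => if h = 0 then q x else 0) 0 0, fun _ _ => rfl,
      fun _ _ => rfl, fun h j => by rcases j with j | j <;> rfl⟩
  obtain ⟨B', hB'⟩ : ∃ B', B' = B - cm * (1 - B) := ⟨_, rfl⟩
  have r1 : ∀ h, B' (inr h) = B (inr h) := by
    intro h
    funext j
    rw [hB', Matrix.sub_apply, mul_apply]
    simp only [hcm3, zero_mul, Finset.sum_const_zero, sub_zero]
  have r2 : ∀ x j, B' (inl x) j =
      B (inl x) j - (c x ᵥ* act (1 - B)) j - q x * (hav ar : J V → RZ) j := by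
    intro x j
    rw [hB', Matrix.sub_apply, mul_apply, Fintype.sum_sum_type, qt9_vec, ← hB.hav]
    simp only [hcm1, hcm2, ite_mul, zero_mul, Finset.sum_ite_eq', mem_univ, if_true]
    ring
  have r3 : ∀ x z, B' (inl x) (inl z) = B (inl x) (inl z) - (c x ᵥ* act (1 - B)) (inl z) := by
    intro x z
    rw [r2, ← hB.hav, hB.ha0, mul_zero, sub_zero]
  have r4 : ∀ x h, Pos (B' (inl x) (inr h) - if h = 0 then bud s else 0) := by
    intro x h
    have h1 := (hpos x (inr h)).add (hq x h)
    rw [Pi.sub_apply, Pi.sub_apply] at h1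
    rw [r2, SS.hav, Pi.sub_apply]
    have e1 : (arow ar : J V → RZ) (inr h) = ar := rfl
    rw [e1]
    by_cases e : h = 0
    · subst e
      simp only [Pi.single_eq_same, if_true] at h1 ⊢
      have e3 : ∀ a b u v w y : RZ,
          a - b - u * (1 - v) - w = a - b - y + (y + -w + u * (v - 1)) := by
        intros
        ring
      rw [e3 _ _ _ _ _ (m x)]
      exact h1
    · have e2 : (inr h : J V) ≠ inr 0 := fun e' => e (Sum.inr_injective e')
      simp only [Pi.single_eq_of_ne e2, if_neg e] at h1 ⊢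
      have e3 : ∀ a b u v : RZ,
          a - b - u * (0 - v) - 0 = a - b - 0 + (0 + 0 + u * (v - 0)) := by
        intros
        ring
      rw [e3]
      exact h1
  have hpt : PT B' := by
    constructor
    · rintro (x | h) j
      · rcases j with z | h
        · have h1 := hpos x (inl z)
          rw [Pi.sub_apply, Pi.sub_apply, Pi.single_eq_of_ne (by simp), sub_zero] at h1
          rw [r3]
          exact h1
        · refine (r4 x h).of_sub ?_
          split_ifs
          · exact Pos.bud s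
          · exact Pos.zero
      · rw [r1]
        exact hB.pt.1 _ _
    · rintro (x | h) j
      · rw [r2, qt9_vec]
        refine ((hB.pt.2 _ _).sub (Finset.dvd_sum fun z _ => (hc x z).2.mul_right _)).sub
          (Dvd.dvd.mul_right ?_ _)
        exact (dvd_pow_self X (by have := hp x; omega)).trans (hqd x)
      · rw [r1]
        exact hB.pt.2 _ _
  refine ⟨B', mv_trm hB.pt hpt (Sum.elim (fun x => d x + 1) fun _ => 0) cm ?_ hB',
    ⟨hpt, by rw [r1, hB.ha], fun h hh z => by rw [r1]; exact hB.ent h hh z,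
      by rw [r1]; exact hB.bud1⟩, ⟨hω.1, fun x => ?_⟩, fun x => by simpa using r4 x 0⟩
  · rintro (x | h) j hj
    · rcases j with z | h
      · rw [hcm1] at hj
        exact ⟨by simpa using hcd x z hj, by simp, Or.inr ⟨z, rfl⟩⟩
      · rw [hcm2] at hj
        have e : h = 0 := by
          by_contra e
          exact hj (if_neg e)
        subst e
        exact ⟨by simp, by simp, Or.inl rfl⟩
    · exact absurd (hcm3 h j) hj
  · have h1 := hω.2 x
    have e1 : ∀ z, ev ρ (B'.toBlocks₁₁ x z) * ω z = ev ρ (B.toBlocks₁₁ x z) * ω z -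
        ∑ y, ev ρ (c x y) * ((if y = z then ω z else 0) - ev ρ (B.toBlocks₁₁ y z) * ω z) := by
      intro z
      have e2 : B'.toBlocks₁₁ x z = B' (inl x) (inl z) := rfl
      have e3 : ∀ y, B.toBlocks₁₁ y z = B (inl y) (inl z) := fun _ => rfl
      rw [e2, r3, qt9_vec, map_sub, map_sum, sub_mul, Finset.sum_mul, e3]
      refine congrArg _ (Finset.sum_congr rfl fun y _ => ?_)
      rw [map_mul, Matrix.sub_apply, map_sub, e3, one_apply]
      by_cases e : y = z
      · rw [if_pos e, if_pos (by rw [e]), map_one]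
        ring
      · rw [if_neg e, if_neg (fun e' => e (Sum.inl_injective e')), map_zero]
        ring
    rw [Finset.sum_congr rfl fun z _ => e1 z, Finset.sum_sub_distrib, Finset.sum_comm]
    have h2 : 0 ≤ ∑ y, ∑ z, ev ρ (c x y) *
        ((if y = z then ω z else 0) - ev ρ (B.toBlocks₁₁ y z) * ω z) := by
      refine Finset.sum_nonneg fun y _ => ?_
      rw [← Finset.mul_sum, Finset.sum_sub_distrib, Finset.sum_ite_eq]
      refine mul_nonneg (ev_nonneg hρ (hc x y).1) ?_
      have := hω.2 y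
      simp only [mem_univ, if_true]
      linarith
    linarith

end Pool.Agent.Lib.MP_71aad1_an.SS
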