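import Pool.Agent.Lib.MP_71aad1_an.QT6
import Pool.Agent.Lib.MP_71aad1_an.QT7
import Pool.Agent.Lib.MP_71aad1_an.QT8
import Pool.Agent.Lib.MP_71aad1_an.QT9
import Pool.Agent.Lib.MP_71aad1_an.QL5

set_option autoImplicit false

namespace Pool.Agent.Lib.MP_71aad1_an.SS

open Polynomial Matrix Finset Sum

/-! The normal form of one side, from a matrix with a power of rank one. -/

theorem side_one {V : Type} [Fintype V] [DecidableEq V] {A : Matrix V V (Lam ℤ)} {m L c : ℕ}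
    {rr l : V → ℕ} (h : RankOne A m rr l) (hD : RelD A) {w : V} (hL : 2 ≤ L) (hc : 1 ≤ c)
    (ht : ∀ z, LPos (tv A w L z - (((c + 2) * l z : ℕ) : Lam ℤ) * uL)) :
    ∃ ρ : ℝ, 1 / 8 < ρ ∧ ∀ r₀ r : ℝ, 0 < r₀ → r₀ < r → r < ρ → r < 1 →
      ∀ (j N : ℕ) (a : ℤ[X]), 1 ≤ j → IsA (c * l w) L j N a → HubA r₀ (uR * iZ a) →
      ∃ s₁ : ℕ, ∀ s, s₁ ≤ s → ∃ K Ω : ℝ, 1 ≤ K ∧ 1 ≤ Ω ∧ ∀ θ : ℝ, 0 < θ → ∃ M₀ : ℕ, ∀ M, M₀ ≤ M →
        ∃ (P : Type) (_ : Fintype P) (_ : DecidableEq P) (a' : P → ℕ × Bool)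
          (B : Matrix (J (V ⊕ P)) (J (V ⊕ P)) RZ), Sim (tM A) B ∧
          Rel (1 - B) (canon (c * l w) L (1 + j * L) (uR * iZ a)) ∧
          Side r M s θ K Ω (uR * iZ a) (1 + j * L) (j * L + L) a' B := by
  obtain ⟨ρ, hρ, ω, hω⟩ := BT_sup h (w := w) (by omega) hc ht
  refine ⟨ρ, hρ, fun r₀ r h0 h1 h2 h3 j N a hj ha hA => ?_⟩
  obtain ⟨B, hS, hR, hH, hB⟩ := start h hD hL hc ht hj ha
  have hblk : B.toBlocks₁₁ = BT A w l L c := by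
    ext x z : 2
    simp [toBlocks₁₁, hB x]
  have hpt := BT_pt h.pos (show 1 ≤ L by omega) ht
  have hω' : Sup (min ρ 1) ω B.toBlocks₁₁ := by
    rw [hblk]
    exact hω.mono hpt.1 (le_min (by linarith) zero_le_one) (min_le_left _ _)
  obtain ⟨d, hd⟩ := h.dist w
  have hd' : ∀ x, B (inl x) (inr 0) ≠ 0 ∨ ∃ z, d z < d x ∧ B (inl x) (inl z) ≠ 0 := by
    intro x
    by_cases hx : x = w
    · left
      subst hx
      rw [hB]
      simp only [Sum.elim_inr, exi, Pi.single_eq_same]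
      intro e
      have e' := congrArg (ev 1) e
      rw [map_mul, map_pow, ev_X, map_natCast, map_zero, one_pow, mul_one] at e'
      have : (c : ℝ) ≠ 0 := by positivity
      exact this e'
    · right
      obtain ⟨z, hz, hz'⟩ := hd x hx
      refine ⟨z, hz, ?_⟩
      rw [hB, Sum.elim_inl, BT_ne l L c hx]
      intro e
      apply hz'
      have e' := congrArg (fun p : RZ => p.coeff 1) e
      simpa [tM, coeff_X_mul] using e'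
  obtain ⟨κ, θ₀, hθ₀, hP⟩ := exists_P0Const h0 hA
  obtain ⟨s₁, hs₁⟩ := budgets hH (le_min (by linarith) zero_le_one) hω' d hd' h0 (by linarith) hθ₀ hP
  refine ⟨s₁, fun s hs => ?_⟩
  obtain ⟨B₄, hM₄, hH₄, hω₄, hb₄⟩ := hs₁ s hs
  obtain ⟨K, Ω, hK, hΩ, hp⟩ := push hH₄ (show 0 < r by linarith) (lt_min h2 h3) (min_le_right _ _)
    hω₄ hb₄
  refine ⟨K, Ω, hK, hΩ, fun θ hθ => ?_⟩
  obtain ⟨M₀, hM₀⟩ := hp θ hθ
  refine ⟨M₀, fun M hM => ?_⟩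
  obtain ⟨P, i1, i2, a', B₅, hM₅, hSd⟩ := hM₀ M hM
  have hMv := hM₄.trans hM₅ hH₄.ha0
  exact ⟨P, i1, i2, a', B₅, hS.trans hMv.1, hMv.2.symm.trans hR hH.ha0, hSd⟩

end Pool.Agent.Lib.MP_71aad1_an.SS
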