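import Pool.Agent.Lib.MP_71aad1_an.QT1

set_option autoImplicit false

namespace Pool.Agent.Lib.MP_71aad1_an.SS

open Polynomial Matrix Finset Sum

/-! Edge graphs: few short paths between any two states. -/

variable {V : Type} [Fintype V] [DecidableEq V] {A : Matrix V V (Lam ℤ)} {m : ℕ} {rr l : V → ℕ}

theorem qt2_pow {E : Type} [Fintype E] [DecidableEq E] (R : Matrix V E (Lam ℤ))
    (S : Matrix E V (Lam ℤ)) (j : ℕ) : (S * R) ^ (j + 1) = S * (R * S) ^ j * R := by
  induction j with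
  | zero => simp
  | succ j ih => rw [pow_succ, ih, pow_succ]; simp only [Matrix.mul_assoc]

theorem qt2_edges (hA : MLPos A) : ∃ (E : Type) (_ : Fintype E) (_ : DecidableEq E) (s t : E → V)
    (lab : E → Lam ℤ), (∀ e, LPos (lab e)) ∧ (∀ e, augZ (lab e) = 1) ∧
      ∀ x y, A x y = ∑ e, (if s e = x then 1 else 0) * (if t e = y then lab e else 0) := by
  refine ⟨Σ p : V × V, Fin (A p.1 p.2).re.toNat ⊕ Fin (A p.1 p.2).im.toNat, inferInstance,
    inferInstance, fun e => e.1.1, fun e => e.1.2,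
    fun e => Sum.elim (fun _ => 1) (fun _ => gL) e.2, ?_, ?_, fun x y => ?_⟩
  · rintro ⟨p, k | k⟩
    · exact LPos.one
    · exact LPos.gL
  · rintro ⟨p, k | k⟩
    · exact map_one augZ
    · exact augZ_gL
  · rw [Fintype.sum_sigma, Finset.sum_eq_single (x, y)]
    · simp only [if_true, one_mul, Fintype.sum_sum_type, Sum.elim_inl, Sum.elim_inr, sum_const,
        card_univ, Fintype.card_fin, nsmul_eq_mul, mul_one]
      have h1 : (((A x y).re.toNat : ℕ) : Lam ℤ) = ((A x y).re : Lam ℤ) := by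
        rw [← Int.cast_natCast, Int.toNat_of_nonneg (hA x y).1]
      have h2 : (((A x y).im.toNat : ℕ) : Lam ℤ) = ((A x y).im : Lam ℤ) := by
        rw [← Int.cast_natCast, Int.toNat_of_nonneg (hA x y).2]
      rw [h1, h2]
      exact Lam_eq _
    · rintro ⟨a, b⟩ _ hp
      refine Finset.sum_eq_zero fun k _ => ?_
      by_cases ha : a = x
      · have hb : b ≠ y := fun hb => hp (by rw [ha, hb])
        simp [hb]
      · simp [ha]
    · simp

/-- `E = Σ x y, Fin (A x y).re.toNat ⊕ Fin (A x y).im.toNat` with source `s`, target `t` and label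
`1` or `gL`. `A = R S` with `R x e = if s e = x then 1 else 0`,
`S e y = if t e = y then label e else 0`, and `C = S R`, `C ^ (j + 1) = S A ^ j R`.
Use `SSE.of_mul`, `rel_esse`, `Rel.trans`, `Rel.symm`. -/
theorem edge_step [Nonempty V] (h : RankOne A m rr l) (hD : RelD A) :
    ∃ (E : Type) (_ : Fintype E) (_ : DecidableEq E) (_ : Nonempty E) (C : Matrix E E (Lam ℤ))
      (s t : E → V), SSE A C ∧ RelD C ∧ RankOne C (m + 1) (rr ∘ t) (l ∘ s) ∧
      ∀ j e e', augZ ((C ^ (j + 1)) e e') = augZ ((A ^ j) (t e) (s e')) := by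
  obtain ⟨E, _, _, s, t, lab, hl, hl1, hA⟩ := qt2_edges h.pos
  set R : Matrix V E (Lam ℤ) := of fun x e => if s e = x then 1 else 0 with hR
  set S : Matrix E V (Lam ℤ) := of fun e y => if t e = y then lab e else 0 with hS
  have hRS : A = R * S := by
    ext1 x y
    rw [hA, mul_apply]
    rfl
  have hRp : MLPos R := fun x e => by
    rw [hR, of_apply]
    split_ifs
    · exact LPos.one
    · exact LPos.zero
  have hSp : MLPos S := fun e y => by
    rw [hS, of_apply]
    split_ifs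
    · exact hl e
    · exact LPos.zero
  have hmR : ∀ (M : Matrix E V (Lam ℤ)) e e', (M * R) e e' = M e (s e') := by
    intro M e e'
    simp [hR, mul_apply]
  have hSm : ∀ (M : Matrix V V (Lam ℤ)) e y, (S * M) e y = lab e * M (t e) y := by
    intro M e y
    simp [hS, mul_apply]
  have hpow : ∀ j e e', ((S * R) ^ (j + 1)) e e' = lab e * (A ^ j) (t e) (s e') := by
    intro j e e'
    rw [qt2_pow, ← hRS, hmR, hSm]
  have hE : Nonempty E := by
    by_contra hE
    rw [not_nonempty_iff] at hE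
    obtain ⟨x⟩ := ‹Nonempty V›
    have h0 : A = 0 := by
      ext1 a b
      rw [hA]
      simp
    have h1 := congrArg augZ (h.pow x x)
    rw [h0, zero_pow (by have := h.one; omega), Matrix.zero_apply, map_zero, map_mul, map_natCast,
      augZ_uL] at h1
    have h2 := Nat.mul_pos (h.rpos x) (h.lpos x)
    omega
  refine ⟨E, inferInstance, inferInstance, hE, S * R, s, t, ?_, ?_,
    ⟨hSp.mul hRp, by omega, fun e => h.rpos _, fun e => h.lpos _, fun e e' => ?_, fun e' => ?_⟩,
    fun j e e' => ?_⟩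
  · rw [hRS]
    exact SSE.of_mul hRp hSp
  · rw [RelD, hRS] at hD
    exact (rel_esse S R).trans hD fun v => by simp [hb]
  · rw [hpow, h.pow, mul_left_comm, mul_uL (lab e), hl1, Int.cast_one, one_mul]
    rfl
  · have h1 := h.eig (s e')
    rw [Function.comp_apply, ← h1]
    simp only [hmR, Function.comp_apply]
    conv_rhs => rw [hRS]
    simp only [mul_apply, map_sum, map_mul, Finset.mul_sum]
    rw [Finset.sum_comm]
    refine Finset.sum_congr rfl fun e _ => ?_
    rw [Finset.sum_eq_single (s e)]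
    · simp [hR]
    · intro b _ hb
      simp [hR, hb.symm]
    · simp
  · rw [hpow, map_mul, hl1, one_mul]

/-- Induction on `g` with `edge_step`; the case `g = 0` is `RankOne.bound`. -/
theorem edge_iter [Nonempty V] (h : RankOne A m rr l) (hD : RelD A) (g : ℕ) :
    ∃ (E : Type) (_ : Fintype E) (_ : DecidableEq E) (_ : Nonempty E) (C : Matrix E E (Lam ℤ))
      (rr' l' : E → ℕ), SSE A C ∧ RelD C ∧ RankOne C (m + g) rr' l' ∧ (∀ y, l' y ≤ ∑ z, l z) ∧
      (∀ j x y, j ≤ g → augZ ((C ^ j) x y) ≤ 1) ∧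
      ∀ i x y, augZ ((C ^ (g + i)) x y) ≤ (∑ z, l z : ℕ) * 8 ^ i := by
  have h0 : ∀ (E : Type) [Fintype E] [DecidableEq E] (C : Matrix E E (Lam ℤ)) (x y : E),
      augZ ((C ^ 0) x y) ≤ 1 := by
    intro E _ _ C x y
    rw [pow_zero, one_apply]
    split_ifs
    · rw [map_one]
    · rw [map_zero]; exact zero_le_one
  induction g with
  | zero =>
    refine ⟨V, inferInstance, inferInstance, inferInstance, A, rr, l, SSE.refl A, hD, h,
      fun y => Finset.single_le_sum (fun _ _ => Nat.zero_le _) (mem_univ y), fun j x y hj => ?_,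
      fun i x y => ?_⟩
    · obtain rfl : j = 0 := by omega
      exact h0 V A x y
    · rw [zero_add]
      exact h.bound i x y
  | succ g ih =>
    obtain ⟨E, _, _, _, C, rr', l', h1, h2, h3, h4, h5, h6⟩ := ih
    obtain ⟨E', _, _, _, C', s, t, k1, k2, k3, k4⟩ := edge_step h3 h2
    refine ⟨E', inferInstance, inferInstance, inferInstance, C', rr' ∘ t, l' ∘ s, h1.trans k1, k2,
      k3, fun y => h4 _, fun j x y hj => ?_, fun i x y => ?_⟩
    · rcases j with _ | j
      · exact h0 E' C' x y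
      · rw [k4]
        exact h5 j _ _ (by omega)
    · rw [show g + 1 + i = g + i + 1 by ring, k4]
      exact h6 i _ _

/-- Exponential growth in `g` beats linear growth. -/
theorem exists_girth (m K : ℕ) (hm : 1 ≤ m) : ∃ g : ℕ, 14 * (2 * (m + g)) * K ≤ 3 * 8 ^ g ∧
    2 * (K + 2) ≤ 8 ^ (m + g) ∧ 2 * (K * K) * (2 * (m + g)) ≤ 7 ^ (2 * (m + g) - 1) := by
  obtain ⟨g, hg⟩ : ∃ g, g = m + K + 5 := ⟨_, rfl⟩
  have h1 : g ≤ 2 ^ g := Nat.lt_two_pow_self.le
  have h2 : 2 ^ 5 ≤ 2 ^ g := Nat.pow_le_pow_right (by norm_num) (by omega)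
  have h8 : ∀ n : ℕ, 8 ^ n = 2 ^ n * 2 ^ n * 2 ^ n := fun n => by
    rw [← mul_pow, ← mul_pow]
    norm_num
  refine ⟨g, ?_, ?_, ?_⟩
  · rw [h8]
    generalize 2 ^ g = y at h1 h2
    have h3 : (m + g) * K ≤ 2 * y * y := Nat.mul_le_mul (by omega) (by omega)
    have h4 : 32 * (y * y) ≤ y * (y * y) := Nat.mul_le_mul_right _ h2
    nlinarith
  · have h3 : 2 ^ g * 2 ≤ 2 ^ g * 2 ^ g * 2 ^ g := by
      rw [mul_assoc]
      exact Nat.mul_le_mul_left _ (by nlinarith)
    have h4 : 8 ^ g ≤ 8 ^ (m + g) := Nat.pow_le_pow_right (by norm_num) (by omega)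
    rw [h8 g] at h4
    omega
  · obtain ⟨n, hn⟩ : ∃ n, m + g = n + 2 := ⟨m + g - 2, by omega⟩
    have h3 : m + g ≤ 2 ^ (m + g) := Nat.lt_two_pow_self.le
    have h4 : K * K * (m + g) ≤ 8 ^ (m + g) := by
      rw [h8]
      exact Nat.mul_le_mul (Nat.mul_le_mul (by omega) (by omega)) h3
    have h5 : 8 ^ n ≤ 49 ^ n := Nat.pow_le_pow_left (by norm_num) n
    have h6 : 7 ^ (2 * (m + g) - 1) = 343 * 49 ^ n := by
      rw [hn, show 2 * (n + 2) - 1 = 3 + 2 * n by omega, pow_add, pow_mul]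
      norm_num
    have h7 : 8 ^ (m + g) = 64 * 8 ^ n := by rw [hn, pow_add]; ring
    rw [h6]
    nlinarith

end Pool.Agent.Lib.MP_71aad1_an.SS
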