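import Pool.Agent.Lib.MP_71aad1_an.QA1

set_option autoImplicit false

namespace Pool.Agent.Lib.MP_71aad1_an.SS

open Polynomial Matrix Finset Sum

/-! The return series of the hub. -/

theorem qt5_ex (E T : ℤ[X]) (N : ℕ) : ∃ a : ℤ[X], a.degree < N ∧ X ^ N ∣ (1 - X * E) * a - T := by
  refine ⟨((∑ k ∈ range N, (X * E) ^ k) * T) %ₘ X ^ N, ?_, ?_⟩
  · have := degree_modByMonic_lt ((∑ k ∈ range N, (X * E) ^ k) * T) (monic_X_pow (R := ℤ) N)
    rwa [degree_X_pow] at this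
  · have h1 := modByMonic_add_div ((∑ k ∈ range N, (X * E) ^ k) * T) (X ^ N : ℤ[X])
    have h2 := mul_neg_geom_sum (X * E) N
    refine ⟨-((1 - X * E) * (((∑ k ∈ range N, (X * E) ^ k) * T) /ₘ X ^ N)) - E ^ N * T, ?_⟩
    rw [eq_sub_of_add_eq h1, mul_sub, ← mul_assoc, h2, mul_pow]
    ring

theorem qt5_coeff (c L j : ℕ) (a : ℤ[X]) (d : ℕ) :
    ((1 - 8 * X + 2 * (c : ℤ[X]) * X ^ L) * a - (c : ℤ[X]) * X ^ L * (1 - 2 * X ^ (j * L))).coeff d =
      a.coeff d - 8 * (if 1 ≤ d then a.coeff (d - 1) else 0) +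
        2 * c * (if L ≤ d then a.coeff (d - L) else 0) - c * (if d = L then 1 else 0) +
        2 * c * (if d = L + j * L then 1 else 0) := by
  have e : (1 - 8 * X + 2 * (c : ℤ[X]) * X ^ L) * a - (c : ℤ[X]) * X ^ L * (1 - 2 * X ^ (j * L)) =
      a - C 8 * (X ^ 1 * a) + C (2 * (c : ℤ)) * (X ^ L * a) - C (c : ℤ) * X ^ L +
        C (2 * (c : ℤ)) * X ^ (L + j * L) := by
    simp only [map_mul, map_ofNat, map_natCast]
    ring
  rw [e]
  simp only [coeff_add, coeff_sub, coeff_C_mul, coeff_X_pow_mul', coeff_X_pow]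

theorem qt5_nonneg {p : ℤ[X]} (h : ∀ i, 0 ≤ p.coeff i) {x : ℝ} (hx : 0 ≤ x) : 0 ≤ aeval x p := by
  rw [aeval_eq_sum_range]
  refine sum_nonneg fun i _ => ?_
  rw [zsmul_eq_mul]
  exact mul_nonneg (by exact_mod_cast h i) (pow_nonneg hx _)

theorem qt5_mono {p : ℤ[X]} (h : ∀ i, 0 ≤ p.coeff i) {x y : ℝ} (hx : 0 ≤ x) (hxy : x ≤ y) :
    aeval x p ≤ aeval y p := by
  rw [aeval_eq_sum_range, aeval_eq_sum_range]
  refine sum_le_sum fun i _ => ?_
  rw [zsmul_eq_mul, zsmul_eq_mul]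
  exact mul_le_mul_of_nonneg_left (pow_le_pow_left₀ hx hxy _) (by exact_mod_cast h i)

theorem qt5_sub {p : ℤ[X]} (h : ∀ i, 0 ≤ p.coeff i) (n i : ℕ) :
    0 ≤ (p - C (p.coeff n) * X ^ n).coeff i := by
  rw [coeff_sub, coeff_C_mul, coeff_X_pow]
  split_ifs with e
  · rw [e, mul_one, sub_self]
  · rw [mul_zero, sub_zero]
    exact h i

/-- Induction on `N`, or truncate a power series quotient. -/
theorem exA (c j N : ℕ) {L : ℕ} (hL : 1 ≤ L) : ∃ a, IsA c L j N a := by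
  obtain ⟨L, rfl⟩ := Nat.exists_eq_add_of_le' hL
  obtain ⟨a, h1, h2⟩ := qt5_ex (8 - 2 * (c : ℤ[X]) * X ^ L)
    ((c : ℤ[X]) * X ^ (L + 1) * (1 - 2 * X ^ (j * (L + 1)))) N
  refine ⟨a, h1, ?_⟩
  convert h2 using 3
  ring

/-- The coefficient recursion `a (i + 1) = 8 a i - 2 c a (i + 1 - L) + ..` gives `a i = 0` for
`i < L`, `a L = c`, `a (L + 1) = 8 c`. -/
theorem IsA.low {c L j N : ℕ} {a : ℤ[X]} (h : IsA c L j N a) (hL : 2 ≤ L) (hj : 1 ≤ j)
    (hN : L + 1 < N) : a.coeff 0 = 0 ∧ a.coeff L = c ∧ a.coeff (L + 1) = 8 * c := by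
  have hc := fun d hd => (qt5_coeff c L j a d).symm.trans (X_pow_dvd_iff.1 h.2 d hd)
  have hjL : L ≤ j * L := Nat.le_mul_of_pos_left _ hj
  have h0 : ∀ i, i < L → a.coeff i = 0 := by
    intro i
    induction i with
    | zero =>
      intro _
      have := hc 0 (by omega)
      rw [if_neg (by omega), if_neg (by omega), if_neg (by omega), if_neg (by omega)] at this
      linarith
    | succ i ih =>
      intro hi
      have := hc (i + 1) (by omega)
      rw [if_pos (by omega), if_neg (by omega), if_neg (by omega), if_neg (by omega),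
        Nat.add_sub_cancel, ih (by omega)] at this
      linarith
  have h1 := hc L (by omega)
  rw [if_pos (by omega), if_pos le_rfl, if_pos rfl, if_neg (by omega), h0 (L - 1) (by omega),
    Nat.sub_self, h0 0 (by omega)] at h1
  have h2 := hc (L + 1) (by omega)
  rw [if_pos (by omega), if_pos (by omega), if_neg (by omega), if_neg (by omega),
    Nat.add_sub_cancel, Nat.add_sub_cancel_left, h0 1 (by omega)] at h2
  exact ⟨h0 0 (by omega), by linarith, by linarith⟩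

/-- For `N > L + j L` the polynomial `D a - c t ^ L (1 - 2 t ^ (j L))` (with `D = 1 - 8 t + 2 c t ^ L`)
is divisible by `t ^ N`, hence equal to its part of degree `≥ N`, which is
`-8 a (N - 1) t ^ N + 2 c ∑_{i + L ≥ N} a i t ^ (i + L)`. Evaluate at `1 / 8`, where
`D = 2 c / 8 ^ L`. -/
theorem IsA.eval {c L j N : ℕ} {a : ℤ[X]} (h : IsA c L j (N + 1) a) (hN : L + j * L ≤ N)
    (h0 : ∀ i, 0 ≤ a.coeff i) :
    (c : ℝ) * (1 / 8) ^ L * (1 - 2 * (1 / 8) ^ (j * L)) - (a.coeff N : ℝ) * (1 / 8) ^ N ≤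
      2 * c * (1 / 8) ^ L * aeval (1 / 8 : ℝ) a := by
  have hd : ∀ d, N + 1 ≤ d → a.coeff d = 0 := fun d hd =>
    coeff_eq_zero_of_degree_lt (h.1.trans_le (by exact_mod_cast hd))
  have key : ∀ d, 0 ≤ ((1 - 8 * X + 2 * (c : ℤ[X]) * X ^ L) * a -
      (c : ℤ[X]) * X ^ L * (1 - 2 * X ^ (j * L)) + C (8 * a.coeff N) * X ^ (N + 1)).coeff d := by
    intro d
    rw [coeff_add, coeff_C_mul, coeff_X_pow]
    rcases lt_trichotomy d (N + 1) with e | e | e
    · rw [X_pow_dvd_iff.1 h.2 d e, if_neg e.ne, mul_zero, add_zero]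
    · rw [qt5_coeff, if_pos (by omega), if_pos (by omega), if_neg (by omega), if_neg (by omega),
        if_pos e, hd d e.ge, e, Nat.add_sub_cancel]
      have := mul_nonneg (Int.natCast_nonneg c) (h0 (N + 1 - L))
      linarith
    · rw [qt5_coeff, if_pos (by omega), if_pos (by omega), if_neg (by omega), if_neg (by omega),
        if_neg e.ne', hd d e.le, hd (d - 1) (by omega)]
      have := mul_nonneg (Int.natCast_nonneg c) (h0 (d - L))
      linarith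
  have k := qt5_nonneg key (show (0 : ℝ) ≤ 1 / 8 by norm_num)
  simp only [map_add, map_sub, map_mul, map_pow, aeval_X, map_one, map_ofNat, map_natCast,
    eq_intCast, map_intCast, pow_succ] at k
  nlinarith

/-- Choose `j` with `(1 / 8) ^ (j L) < δ / 2`, `δ = r₀ ^ L - (1 / 8) ^ L`. Take `N` large and `a` from
`exA` for `N + 1`. If `2 a (r₀) < 1` then `a N * r₀ ^ N ≤ 1 / 2`, so the error in `IsA.eval` is at most
`(1 / (8 r₀)) ^ N / 2`, and `2 a (r₀) ≥ 2 a (1 / 8) + 2 c δ > 1`. -/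
theorem chooseA {c L : ℕ} (hc : 1 ≤ c) (hL : 2 ≤ L) {r₀ : ℝ} (hr : 1 / 8 < r₀) :
    ∃ j, 1 ≤ j ∧ ((∀ N a, IsA c L j N a → ∀ i, 0 ≤ a.coeff i) →
      ∃ N a, IsA c L j N a ∧ HubA r₀ (uR * iZ a)) := by
  have hr0 : 0 < r₀ := lt_trans (by norm_num) hr
  have hy : (0 : ℝ) < (1 / 8) ^ L := by positivity
  have hδ : 0 < r₀ ^ L - (1 / 8) ^ L :=
    sub_pos.2 (pow_lt_pow_left₀ hr (by norm_num) (by omega))
  obtain ⟨j, hj⟩ := exists_pow_lt_of_lt_one (half_pos hδ) (show (1 / 8 : ℝ) < 1 by norm_num)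
  have hw : (1 / 8 : ℝ) ^ ((j + 1) * L) < (r₀ ^ L - (1 / 8) ^ L) / 2 :=
    lt_of_le_of_lt (pow_le_pow_of_le_one (by norm_num) (by norm_num) (by nlinarith)) hj
  refine ⟨j + 1, by omega, fun H => ?_⟩
  have hq0 : 0 < 1 / 8 / r₀ := by positivity
  have hq1 : 1 / 8 / r₀ < 1 := (div_lt_one hr0).2 hr
  obtain ⟨N₀, hN₀⟩ := exists_pow_lt_of_lt_one (mul_pos hδ hy) hq1
  obtain ⟨N, hN1, hN2⟩ : ∃ N, N₀ ≤ N ∧ L + (j + 1) * L + 1 ≤ N :=
    ⟨_, le_max_left _ _, le_max_right _ _⟩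
  have hN3 : (1 / 8 / r₀) ^ N < (r₀ ^ L - (1 / 8) ^ L) * (1 / 8) ^ L :=
    lt_of_le_of_lt (pow_le_pow_of_le_one hq0.le hq1.le hN1) hN₀
  obtain ⟨a, ha⟩ := exA c (j + 1) (N + 1) (show 1 ≤ L by omega)
  have h0 := H _ _ ha
  obtain ⟨l0, l1, l2⟩ := ha.low hL (by omega) (by omega)
  have hc' : (1 : ℤ) ≤ c := by exact_mod_cast hc
  refine ⟨N + 1, a, ha, a, rfl, h0, l0, ⟨L, by omega, by omega, by omega⟩, ?_⟩
  by_contra hlt
  rw [not_le] at hlt
  have k1 := ha.eval (by omega) h0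
  have k2 := qt5_nonneg (qt5_sub h0 N) hr0.le
  have k3 := qt5_mono (qt5_sub h0 L) (show (0 : ℝ) ≤ 1 / 8 by norm_num) hr.le
  rw [l1] at k3
  simp only [map_sub, map_mul, map_pow, aeval_X, eq_intCast, map_intCast, map_natCast] at k2 k3
  have hc'' : (1 : ℝ) ≤ c := by exact_mod_cast hc
  have e : (a.coeff N : ℝ) * (1 / 8) ^ N = a.coeff N * r₀ ^ N * (1 / 8 / r₀) ^ N := by
    rw [mul_assoc, ← mul_pow, mul_div_cancel₀ _ hr0.ne']
  have k4 : (a.coeff N : ℝ) * (1 / 8) ^ N ≤ (r₀ ^ L - (1 / 8) ^ L) * (1 / 8) ^ L := by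
    rw [e]
    have p : (0 : ℝ) ≤ (1 / 8 / r₀) ^ N := by positivity
    have := mul_le_mul_of_nonneg_right (show (a.coeff N : ℝ) * r₀ ^ N ≤ 1 by linarith) p
    linarith
  generalize (1 / 8 : ℝ) ^ ((j + 1) * L) = w at hw k1
  generalize (a.coeff N : ℝ) * (1 / 8) ^ N = u at k1 k4
  generalize aeval (1 / 8 : ℝ) a = s at k1 k3
  generalize aeval r₀ a = s' at k3 hlt
  generalize (1 / 8 : ℝ) ^ L = y at *
  generalize r₀ ^ L = z at *
  have k5 : 2 * s < 1 - 2 * (z - y) := by nlinarith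
  have k6 : c * y * (2 * s) < c * y * (1 - 2 * (z - y)) :=
    mul_lt_mul_of_pos_left k5 (by positivity)
  have k7 : c * y * (2 * w) ≤ c * y * (z - y) :=
    mul_le_mul_of_nonneg_left (by linarith) (by positivity)
  have k8 : (z - y) * y ≤ c * y * (z - y) := by nlinarith [mul_pos hδ hy]
  nlinarith

end Pool.Agent.Lib.MP_71aad1_an.SS
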