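import Pool.Agent.Lib.MP_71aad1_an.QT0
import Pool.Agent.Lib.MP_71aad1_an.QT2
import Pool.Agent.Lib.MP_71aad1_an.QT5
import Pool.Agent.Lib.MP_71aad1_an.QT10
import Pool.Agent.Lib.MP_71aad1_an.QL7

set_option autoImplicit false

namespace Pool.Agent.Lib.MP_71aad1_an.SS

open Polynomial Matrix Finset Sum

/-! The main theorem from the joint statement. -/

theorem canon_ha0 (c L sm : ℕ) (ar : RZ) (v : Unit) : canon c L sm ar (inr 0) (inl v) = 0 := by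
  simp [canon]

theorem main_sse (hJ : JointStmt) {V V' : Type} [Fintype V] [DecidableEq V] [Nonempty V]
    [Fintype V'] [DecidableEq V'] [Nonempty V'] {A : Matrix V V (Lam ℤ)} {A' : Matrix V' V' (Lam ℤ)}
    {m : ℕ} {rr l : V → ℕ} {rr' l' : V' → ℕ} (h : RankOne A m rr l) (h' : RankOne A' m rr' l')
    (hD : RelD A) (hD' : RelD A') : SSE A A' := by
  set K₀ : ℕ := max (∑ z, l z) (∑ z, l' z) with hK₀
  obtain ⟨g, hg1, hg2, hg3⟩ := exists_girth m K₀ h.one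
  obtain ⟨E, i1, i2, i3, C, r₁, l₁, hS, hDC, hC, hl, hs, hb⟩ := edge_iter h hD g
  obtain ⟨E', i1', i2', i3', C', r₂, l₂, hS', hDC', hC', hl', hs', hb'⟩ := edge_iter h' hD' g
  obtain ⟨w, -, hw⟩ := Finset.exists_min_image univ l₁ univ_nonempty
  obtain ⟨w', -, hw'⟩ := Finset.exists_min_image univ l₂ univ_nonempty
  have hlw : l₁ w ≤ K₀ := (hl w).trans (le_max_left _ _)
  have hlw' : l₂ w' ≤ K₀ := (hl' w').trans (le_max_right _ _)
  have hm := h.one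
  have hL : 2 ≤ 2 * (m + g) := by omega
  have ht := taboo (K := K₀) (c := l₂ w') hC (fun z => hw z (mem_univ _)) hs
    (fun i x y => (hb i x y).trans (by gcongr; exact_mod_cast le_max_left _ _)) hg1
    (le_trans (by omega) hg2)
  have ht' := taboo (K := K₀) (c := l₁ w) hC' (fun z => hw' z (mem_univ _)) hs'
    (fun i x y => (hb' i x y).trans (by gcongr; exact_mod_cast le_max_right _ _)) hg1
    (le_trans (by omega) hg2)
  set L := 2 * (m + g) with hLdef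
  have hp := hC.lpos w
  have hp' := hC'.lpos w'
  obtain ⟨ρ, hρ, H⟩ := side_one hC hDC hL hp' ht
  obtain ⟨ρ', hρ', H'⟩ := side_one hC' hDC' hL hp ht'
  obtain ⟨r, hr1, hr2⟩ := exists_between (show (1 / 8 : ℝ) < min (min ρ ρ') (1 / 7) from
    lt_min (lt_min hρ hρ') (by norm_num))
  obtain ⟨r₀, hr01, hr02⟩ := exists_between hr1
  have hrρ : r < ρ := hr2.trans_le ((min_le_left _ _).trans (min_le_left _ _))
  have hrρ' : r < ρ' := hr2.trans_le ((min_le_left _ _).trans (min_le_right _ _))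
  have hr7 : r < 1 / 7 := hr2.trans_le (min_le_right _ _)
  have hcc : 1 ≤ l₂ w' * l₁ w := Nat.mul_pos hp' hp
  obtain ⟨j, hj, hch⟩ := chooseA hcc hL hr01
  obtain ⟨N, a, ha, hA⟩ := hch fun N a ha => (hub_form hC hL ht hj ha).1
  have ha' : IsA (l₁ w * l₂ w') L j N a := by rwa [Nat.mul_comm]
  obtain ⟨s₁, H1⟩ := H r₀ r (by linarith) hr02 hrρ (by linarith) j N a hj ha hA
  obtain ⟨s₂, H2⟩ := H' r₀ r (by linarith) hr02 hrρ' (by linarith) j N a hj ha' hA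
  set s := max 1 (max s₁ s₂) with hsdef
  obtain ⟨K₁, Ω₁, hK₁, hΩ₁, H1⟩ := H1 s ((le_max_left _ _).trans (le_max_right _ _))
  obtain ⟨K₂, Ω₂, hK₂, hΩ₂, H2⟩ := H2 s ((le_max_right _ _).trans (le_max_right _ _))
  obtain ⟨θ, hθ, M₀, HJ⟩ := hJ r₀ r (max K₁ K₂) (max Ω₁ Ω₂) (uR * iZ a) (1 + j * L) (j * L + L) s
    (by linarith) hr02 hr7.le hA (le_max_left _ _) (by omega) (hK₁.trans (le_max_left _ _))
    (hΩ₁.trans (le_max_left _ _))
  obtain ⟨M₁, H1⟩ := H1 θ hθ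
  obtain ⟨M₂, H2⟩ := H2 θ hθ
  set M := max M₀ (max M₁ M₂) with hMdef
  obtain ⟨P, j1, j2, a₁, B₁, hS₁, hR₁, hd₁⟩ := H1 M ((le_max_left _ _).trans (le_max_right _ _))
  obtain ⟨P', j1', j2', a₂, B₂, hS₂, hR₂, hd₂⟩ := H2 M ((le_max_right _ _).trans (le_max_right _ _))
  rw [Nat.mul_comm (l₁ w)] at hR₂
  have hdet₁ := hd₁.det hR₁
  have hdet₂ := hd₂.det hR₂
  obtain ⟨σ, hσ⟩ := matching (M := M) hd₁.core.deg hd₂.core.deg (by
    have := dvd_sub hdet₁ hdet₂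
    rwa [sub_sub_sub_cancel_right] at this)
  obtain ⟨B₃, hM₃, hd₃⟩ := hd₂.reindex σ hσ
  have hr0 : 0 ≤ r := by linarith
  have hcnt := count_ge hL (c := l₂ w' * l₁ w)
    (le_trans (by gcongr) hg3) (fun π => (hd₁.core.deg π).1) hdet₁
  have hRel : Rel (1 - B₁) (1 - B₃) :=
    (hR₁.trans hR₂.symm (canon_ha0 _ _ _ _)).trans hM₃.2 hd₂.hub.ha0
  have hSim : Sim B₁ B₃ := HJ M (le_max_left _ _) E E' P a₁ B₁ B₃
    (hd₁.mono hr0 le_rfl (le_max_left _ _) (le_max_left _ _))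
    (hd₃.mono hr0 le_rfl (le_max_right _ _) (le_max_right _ _)) hcnt hRel
  have hfin : Sim (tM C) (tM C') := hS₁.trans (hSim.trans (hM₃.1.symm.trans hS₂.symm))
  exact hS.trans (((sim_tM hC.pos hC'.pos).1 hfin).trans hS'.symm)

theorem mainStmt (hJ : JointStmt) : MainStmt := by
  intro A B hA hB eA eB
  obtain ⟨m, rr, l, h⟩ := rankOne_of_prim hA eA
  obtain ⟨m', rr', l', h'⟩ := rankOne_of_prim hB eB
  have : Nonempty (Fin A.1) := ⟨⟨0, hA.1⟩⟩
  have : Nonempty (Fin B.1) := ⟨⟨0, hB.1⟩⟩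
  have h1 := h.mono m'
  have h2 := h'.mono m
  rw [Nat.add_comm m' m] at h2
  exact SSE.fin hA.2.1 hB.2.1 (main_sse hJ h1 h2 (relD_of_eqvGen eA) (relD_of_eqvGen eB))

end Pool.Agent.Lib.MP_71aad1_an.SS
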