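import Pool.Agent.Lib.MP_71aad1_an.QR3
import Pool.Agent.Lib.MP_71aad1_an.QDef4

set_option autoImplicit false

namespace Pool.Agent.Lib.MP_71aad1_an.SS

open Polynomial Matrix Finset Sum

/-! Elimination of short loops, step A: raising the order of the off-diagonal entries. -/

section
variable {V : Type} [Fintype V] [DecidableEq V] {ρ κ oh : ℝ} {ω : V → ℝ} {y : V}

theorem phi_zero : phi ρ κ oh ω y (0 : J V → RZ) = 0 := by simp [phi]
theorem phi_add (v w : J V → RZ) : phi ρ κ oh ω y (v + w) = phi ρ κ oh ω y v + phi ρ κ oh ω y w := by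
  simp only [phi, Pi.add_apply, map_add, add_mul, Finset.sum_add_distrib]
  ring
theorem phi_sub (v w : J V → RZ) : phi ρ κ oh ω y (v - w) = phi ρ κ oh ω y v - phi ρ κ oh ω y w := by
  simp only [phi, Pi.sub_apply, map_sub, sub_mul, Finset.sum_sub_distrib]
  ring
theorem phi_smul (p : RZ) (v : J V → RZ) : phi ρ κ oh ω y (p • v) = ev ρ p * phi ρ κ oh ω y v := by
  simp only [phi, Pi.smul_apply, smul_eq_mul, map_mul, mul_assoc, ← Finset.mul_sum]
  ring
theorem phi_single (z : V) (p : RZ) :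
    phi ρ κ oh ω y (Pi.single (inl z) p) = ev ρ p * (ω z + if z = y then κ else 0) := by
  rw [phi, Finset.sum_eq_single z, Pi.single_eq_same]
  · simp
  · intro b _ hb
    rw [Pi.single_eq_of_ne fun e => hb (Sum.inl_injective e), map_zero, zero_mul]
  · simp
theorem phi_vecMul {U : Type} [Fintype U] (c : U → RZ) (B : Matrix U (J V) RZ) :
    phi ρ κ oh ω y (c ᵥ* B) = ∑ u, ev ρ (c u) * phi ρ κ oh ω y (B u) := by
  classical
  have h : ∀ s : Finset U, phi ρ κ oh ω y (∑ u ∈ s, c u • B u) =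
      ∑ u ∈ s, ev ρ (c u) * phi ρ κ oh ω y (B u) := by
    intro s
    induction s using Finset.induction_on with
    | empty => rw [Finset.sum_empty, Finset.sum_empty, phi_zero]
    | insert u s hu ih => rw [Finset.sum_insert hu, Finset.sum_insert hu, phi_add, phi_smul, ih]
  rw [← h]
  congr 1
  funext j
  simp [vecMul, dotProduct]
omit [Fintype V] in
theorem ql1_act (hρ : 0 ≤ ρ) (hκ : 0 ≤ κ) (hω : ∀ z, 0 ≤ ω z) {v : J V → RZ}
    (hv : ∀ j, Pos (v j)) (z : V) : 0 ≤ ev ρ (v (inl z)) * (ω z + if z = y then κ else 0) :=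
  mul_nonneg (ev_nonneg hρ (hv _)) (add_nonneg (hω z) (by split_ifs; exacts [hκ, le_rfl]))
theorem ql1_hub {V : Type} (hρ : 0 ≤ ρ) (hoh : 0 ≤ oh) {v : J V → RZ} (hv : ∀ j, Pos (v j)) :
    0 ≤ oh * ∑ h, ev ρ (v (inr h)) :=
  mul_nonneg hoh (Finset.sum_nonneg fun _ _ => ev_nonneg hρ (hv _))
theorem phi_nonneg (hρ : 0 ≤ ρ) (hκ : 0 ≤ κ) (hoh : 0 ≤ oh) (hω : ∀ z, 0 ≤ ω z) {v : J V → RZ}
    (hv : ∀ j, Pos (v j)) : 0 ≤ phi ρ κ oh ω y v :=
  add_nonneg (Finset.sum_nonneg fun z _ => ql1_act hρ hκ hω hv z) (ql1_hub hρ hoh hv)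
theorem hub_le_phi (hρ : 0 ≤ ρ) (hκ : 0 ≤ κ) (hoh : 0 ≤ oh) (hω : ∀ z, 0 ≤ ω z) {v : J V → RZ}
    (hv : ∀ j, Pos (v j)) (h : Fin 3) : oh * ev ρ (v (inr h)) ≤ phi ρ κ oh ω y v :=
  le_add_of_nonneg_of_le (Finset.sum_nonneg fun z _ => ql1_act hρ hκ hω hv z)
    (mul_le_mul_of_nonneg_left (Finset.single_le_sum (f := fun h => ev ρ (v (inr h)))
      (fun _ _ => ev_nonneg hρ (hv _)) (Finset.mem_univ h)) hoh)
theorem act_le_phi (hρ : 0 ≤ ρ) (hκ : 0 ≤ κ) (hoh : 0 ≤ oh) (hω : ∀ z, 0 ≤ ω z) {v : J V → RZ}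
    (hv : ∀ j, Pos (v j)) : ∑ z, ev ρ (v (inl z)) * ω z ≤ phi ρ κ oh ω y v ∧
      ev ρ (v (inl y)) * κ ≤ phi ρ κ oh ω y v := by
  refine ⟨le_add_of_le_of_nonneg (Finset.sum_le_sum fun z _ => ?_) (ql1_hub hρ hoh hv),
    le_add_of_le_of_nonneg (le_trans ?_ (Finset.single_le_sum
      (fun z _ => ql1_act (y := y) hρ hκ hω hv z) (Finset.mem_univ y))) (ql1_hub hρ hoh hv)⟩
  · exact mul_le_mul_of_nonneg_left (le_add_of_nonneg_right (by split_ifs; exacts [hκ, le_rfl]))
      (ev_nonneg hρ (hv _))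
  · rw [if_pos rfl]
    exact mul_le_mul_of_nonneg_left (le_add_of_nonneg_left (hω y)) (ev_nonneg hρ (hv _))

end

variable {O P : Type} [Fintype O] [DecidableEq O] [Fintype P] [DecidableEq P] {c : PC} {d e : ℕ}
  {a : P → ℕ × Bool} {par : P → O} {idx : P → ℕ} {ω : O ⊕ P → ℝ} {T : P → J (O ⊕ P) → RZ}
  {B : Matrix (J (O ⊕ P)) (J (O ⊕ P)) RZ}

theorem Inv.mono (h : Inv c d e a par idx ω T B) {d' e' : ℕ} (hd : d' ≤ d) (he : e ≤ e') :
    Inv c d' e' a par idx ω T B :=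
  { h with
    ordD := fun o z => (pow_dvd_pow _ hd).trans (h.ordD o z)
    deg := fun π => ⟨(h.deg π).1, (h.deg π).2.trans he⟩ }

/-- All active rows are superharmonic (`ordS`, `row`, `perS`). -/
theorem Inv.phi_row (hc : c.Ok) (h : Inv c d e a par idx ω T B) (x y : O ⊕ P) :
    phi c.ρ c.κ c.oh ω y (B (inl x)) ≤ ω x := by
  rcases x with o | π
  · refine (h.ordS o y).trans ?_
    have := mul_nonneg hc.ϑ0.le (h.om (inl o))
    linarith
  · rw [h.row, phi_smul, (PM.mono (a π)).ev]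
    exact h.perS π y

/-- `κ ≤ ϑ oh ev (bud) ≤ ϑ phi (row) ≤ ϑ (1 - ϑ) ω`. -/
theorem Inv.kappa_le (hc : c.Ok) (h : Inv c d e a par idx ω T B) (o : O) :
    c.κ ≤ c.ϑ * ω (inl o) := by
  refine hc.κle.trans (mul_le_mul_of_nonneg_left ?_ hc.ϑ0.le)
  refine (mul_le_mul_of_nonneg_left (ev_le hc.ρ0.le (h.ordB o)) hc.oh0.le).trans ?_
  exact (hub_le_phi (y := inl o) hc.ρ0.le hc.κ0.le hc.oh0.le h.om (h.hub.pt.1 _) 0).trans
    (h.phi_row hc _ _)

theorem ql1_act_row {V : Type} [Fintype V] [DecidableEq V] (B : Matrix (J V) (J V) RZ) (z : V) :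
    act (1 - B) z = Pi.single (inl z) 1 - B (inl z) := by
  funext j
  change (1 - B) (inl z) j = _
  rw [Matrix.sub_apply, one_apply, Pi.sub_apply, Pi.single_apply]
  exact congrArg (· - B (inl z) j) (if_congr eq_comm rfl rfl)

theorem ql1_entry {V : Type} [Fintype V] [DecidableEq V] (B : Matrix (J V) (J V) RZ) (q : V → RZ)
    (v : J V → RZ) (j : J V) : (v - q ᵥ* act (1 - B) : J V → RZ) j =
      v j - Sum.elim q 0 j + ∑ z, q z * B (inl z) j := by
  have : (q ᵥ* act (1 - B)) j = ∑ z, q z * act (1 - B) z j := rfl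
  rw [Pi.sub_apply, this]
  simp only [ql1_act_row, Pi.sub_apply, mul_sub, Finset.sum_sub_distrib]
  rcases j with z | k
  · simp [Pi.single_apply]
    ring
  · simp

/-- Expanding a positive combination of active rows does not increase `phi`. -/
theorem Inv.phi_exp (hc : c.Ok) (h : Inv c d e a par idx ω T B) {q : O ⊕ P → RZ}
    (hq : ∀ z, Pos (q z)) (v : J (O ⊕ P) → RZ) (y : O ⊕ P) :
    phi c.ρ c.κ c.oh ω y (v - q ᵥ* act (1 - B)) ≤ phi c.ρ c.κ c.oh ω y v := by
  rw [phi_sub, phi_vecMul, sub_le_self_iff]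
  refine Finset.sum_nonneg fun z _ => mul_nonneg (ev_nonneg hc.ρ0.le (hq z)) ?_
  rw [ql1_act_row, phi_sub, phi_single, map_one, one_mul, sub_nonneg]
  exact (h.phi_row hc z y).trans
    (le_add_of_nonneg_right (by split_ifs; exacts [hc.κ0.le, le_rfl]))

theorem ql1_dvd {k : ℕ} (d : ℕ) {p : RZ} (h : X ^ k ∣ p) : X ^ k ∣ monomial d (p.coeff d) := by
  rw [X_pow_dvd_iff] at h ⊢
  intro j hj
  rw [coeff_monomial]
  split_ifs with e
  · exact h d (e ▸ hj)
  · rfl

theorem ql1_dvd' {d : ℕ} {p : RZ} (h : X ^ d ∣ p) : X ^ (d + 1) ∣ p - monomial d (p.coeff d) := by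
  rw [X_pow_dvd_iff] at h ⊢
  intro j hj
  rw [coeff_sub, coeff_monomial]
  split_ifs with e
  · rw [e, sub_self]
  · rw [sub_zero]
    exact h j (by omega)

/-- One row: `q z = monomial d ((B o z).coeff d)` for active `z ≠ inl o`, `q (inl o) = 0`; the new
row is `B o - q ᵥ* act (1 - B)`; `mv_trm` with level `1` at `inl (inl o)` and `0` elsewhere. -/
theorem stepA_row (hc : c.Ok) (h : Inv c d e a par idx ω T B) (o : O) :
    ∃ v : J (O ⊕ P) → RZ, Mv B (B.updateRow (inl (inl o)) v) ∧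
      Inv c d e a par idx ω T (B.updateRow (inl (inl o)) v) ∧
      (∀ z, z ≠ inl o → X ^ (d + 1) ∣ v (inl z)) ∧
      (v (inl (inl o))).coeff d = (B (inl (inl o)) (inl (inl o))).coeff d := by
  obtain ⟨q, hq0, hq⟩ : ∃ q : O ⊕ P → RZ, q (inl o) = 0 ∧ ∀ z, z ≠ inl o →
      q z = monomial d ((B (inl (inl o)) (inl z)).coeff d) :=
    ⟨fun z => if z = inl o then 0 else monomial d ((B (inl (inl o)) (inl z)).coeff d),
      if_pos rfl, fun z hz => if_neg hz⟩
  have hB := h.hub.pt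
  have hq1 : ∀ z, Pos (q z) ∧ Pos (B (inl (inl o)) (inl z) - q z) ∧ X ∣ q z ∧ X ^ d ∣ q z := by
    intro z
    rcases eq_or_ne z (inl o) with rfl | hz
    · rw [hq0, sub_zero]
      exact ⟨Pos.zero, hB.1 _ _, dvd_zero _, dvd_zero _⟩
    · rw [hq z hz]
      refine ⟨qa1_pos_monomial d (hB.1 _ _ d), qa1_pos_sub_monomial (hB.1 _ _) ?_, ?_,
        ql1_dvd d (h.ordD o z)⟩
      · rw [sub_self]
        exact LPos.zero
      · have := ql1_dvd (k := 1) d (p := B (inl (inl o)) (inl z)) (by rw [pow_one]; exact hB.2 _ _)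
        rwa [pow_one] at this
  have hs : ∀ j, Pos (∑ z, q z * B (inl z) j) ∧ X ^ (d + 1) ∣ ∑ z, q z * B (inl z) j := fun j =>
    ⟨Pos.sum _ fun z _ => (hq1 z).1.mul (hB.1 _ _), Finset.dvd_sum fun z _ => by
      rw [pow_succ]
      exact mul_dvd_mul (hq1 z).2.2.2 (hB.2 _ _)⟩
  have hv := ql1_entry B q (B (inl (inl o)))
  have hφ := h.phi_exp hc (fun z => (hq1 z).1) (B (inl (inl o)))
  have hM : B.updateRow (inl (inl o)) (B (inl (inl o)) - q ᵥ* act (1 - B)) =
      B - (0 : Matrix _ _ RZ).updateRow (inl (inl o)) (Sum.elim q 0) * (1 - B) := by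
    ext1 i j
    rw [Matrix.sub_apply, mul_apply, updateRow_apply]
    split_ifs with e
    · subst e
      rw [Pi.sub_apply, Fintype.sum_sum_type]
      simp only [updateRow_self, Sum.elim_inl, Sum.elim_inr, Pi.zero_apply, zero_mul,
        Finset.sum_const_zero, add_zero]
      rfl
    · simp [updateRow_ne e]
  generalize B (inl (inl o)) - q ᵥ* act (1 - B) = v at hv hφ hM
  have hX : (X : RZ) ∣ X ^ (d + 1) := dvd_pow_self _ (by omega)
  have hv1 : ∀ j, Pos (v j) ∧ X ∣ v j := by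
    intro j
    rw [hv]
    rcases j with z | k
    · exact ⟨(hq1 z).2.1.add (hs _).1,
        ((hB.2 _ _).sub (hq1 z).2.2.1).add (hX.trans (hs _).2)⟩
    · rw [Sum.elim_inr, Pi.zero_apply, sub_zero]
      exact ⟨(hB.1 _ _).add (hs _).1, (hB.2 _ _).add (hX.trans (hs _).2)⟩
  have hB' : PT (B.updateRow (inl (inl o)) v) := by
    constructor <;> intro i j <;> rw [updateRow_apply] <;> split_ifs
    exacts [(hv1 j).1, hB.1 i j, (hv1 j).2, hB.2 i j]
  have hr : ∀ k, B.updateRow (inl (inl o)) v (inr k) = B (inr k) := fun k =>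
    updateRow_ne Sum.inr_ne_inl
  have ho : ∀ o', o' ≠ o → B.updateRow (inl (inl o)) v (inl (inl o')) = B (inl (inl o')) :=
    fun o' e => updateRow_ne fun e' => e (Sum.inl_injective (Sum.inl_injective e'))
  refine ⟨v, mv_trm hB hB' (fun i => if i = inl (inl o) then 1 else 0) _ ?_ hM,
    { h with
      hub := ⟨hB', by rw [hr]; exact h.hub.ha, by simp only [hr]; exact h.hub.ent,
        by rw [hr]; exact h.hub.bud1⟩
      ordS := fun o' y => ?_
      ordB := fun o' => ?_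
      ordD := fun o' z => ?_
      row := fun π => ?_ }, fun z hz => ?_, ?_⟩
  · intro i j hij
    rw [updateRow_apply] at hij
    split_ifs at hij with e
    · subst e
      rcases j with z | k
      · have hz : (inl z : J (O ⊕ P)) ≠ inl (inl o) := fun e =>
          hij (by rw [e, Sum.elim_inl, hq0])
        exact ⟨by rw [if_neg hz, if_pos rfl]; exact zero_lt_one, Sum.inl_ne_inr, Or.inr ⟨z, rfl⟩⟩
      · exact absurd rfl hij
    · exact absurd rfl hij
  · rcases eq_or_ne o' o with rfl | e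
    · rw [updateRow_self]
      exact (hφ y).trans (h.ordS _ y)
    · rw [ho o' e]
      exact h.ordS o' y
  · rcases eq_or_ne o' o with rfl | e
    · rw [updateRow_self, hv, Sum.elim_inr, Pi.zero_apply, sub_zero, add_sub_right_comm]
      exact (h.ordB _).add (hs _).1
    · rw [ho o' e]
      exact h.ordB o'
  · rcases eq_or_ne o' o with rfl | e
    · rw [updateRow_self, hv]
      exact ((h.ordD _ z).sub (hq1 z).2.2.2).add ((pow_dvd_pow _ d.le_succ).trans (hs _).2)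
    · rw [ho o' e]
      exact h.ordD o' z
  · rw [updateRow_ne fun e => Sum.inr_ne_inl (Sum.inl_injective e)]
    exact h.row π
  · rw [hv, Sum.elim_inl, hq z hz]
    exact (ql1_dvd' (h.ordD o z)).add (hs _).2
  · rw [hv, Sum.elim_inl, hq0, sub_zero, coeff_add, X_pow_dvd_iff.1 (hs _).2 d d.lt_succ_self,
      add_zero]

/-- Induction over the finite set of rows (`Mv.trans`, `Hub.ha0`). -/
theorem stepA (hc : c.Ok) (h : Inv c d e a par idx ω T B) :
    ∃ B' : Matrix (J (O ⊕ P)) (J (O ⊕ P)) RZ, Mv B B' ∧ Inv c d e a par idx ω T B' ∧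
      OffD (d + 1) B' ∧
      ∀ o, (B' (inl (inl o)) (inl (inl o))).coeff d = (B (inl (inl o)) (inl (inl o))).coeff d := by
  have key : ∀ s : Finset O, ∃ B' : Matrix (J (O ⊕ P)) (J (O ⊕ P)) RZ, Mv B B' ∧
      Inv c d e a par idx ω T B' ∧
      (∀ o ∈ s, ∀ z, z ≠ inl o → X ^ (d + 1) ∣ B' (inl (inl o)) (inl z)) ∧
      ∀ o, (B' (inl (inl o)) (inl (inl o))).coeff d = (B (inl (inl o)) (inl (inl o))).coeff d := by
    intro s
    induction s using Finset.induction_on with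
    | empty => exact ⟨B, Mv.refl B, h, fun _ ho => absurd ho (Finset.notMem_empty _), fun _ => rfl⟩
    | insert o s _ ih =>
      obtain ⟨B', h1, h2, h3, h4⟩ := ih
      obtain ⟨v, k1, k2, k3, k4⟩ := stepA_row hc h2 o
      have ho : ∀ o', o' ≠ o → B'.updateRow (inl (inl o)) v (inl (inl o')) = B' (inl (inl o')) :=
        fun o' e => updateRow_ne fun e' => e (Sum.inl_injective (Sum.inl_injective e'))
      refine ⟨_, h1.trans k1 h2.hub.ha0, k2, fun o' ho' z hz => ?_, fun o' => ?_⟩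
      · rcases eq_or_ne o' o with rfl | e
        · rw [updateRow_self]
          exact k3 z hz
        · rw [ho o' e]
          exact h3 o' ((Finset.mem_insert.1 ho').resolve_left e) z hz
      · rcases eq_or_ne o' o with rfl | e
        · rw [updateRow_self, k4, h4]
        · rw [ho o' e, h4]
  obtain ⟨B', h1, h2, h3, h4⟩ := key univ
  exact ⟨B', h1, h2, fun o => h3 o (Finset.mem_univ o), h4⟩

end Pool.Agent.Lib.MP_71aad1_an.SS
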