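import Pool.Agent.Lib.MP_71aad1_an.QL1

set_option autoImplicit false

namespace Pool.Agent.Lib.MP_71aad1_an.SS

open Polynomial Matrix Finset Sum

/-! Elimination of short loops, step B: a loop becomes a periodic state. -/

variable {O P : Type} [Fintype O] [DecidableEq O] [Fintype P] [DecidableEq P] {c : PC} {d : ℕ}
  {a : P → ℕ × Bool} {par : P → O} {idx : P → ℕ} {ω : O ⊕ P → ℝ} {T : P → J (O ⊕ P) → RZ}
  {B : Matrix (J (O ⊕ P)) (J (O ⊕ P)) RZ}

/-- The collapse of the new periodic state onto the ordinary state `x`. -/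
def colp {O P : Type} (x : O) : O ⊕ Option P → O ⊕ P :=
  Sum.elim inl fun π => π.elim (inl x) inr

/-- If the new weights split the weight of `x`, then `phi` of a lifted vector is unchanged. -/
theorem phi_lift (x : O) {ρ κ oh : ℝ} {ω : O ⊕ P → ℝ} {ω' : O ⊕ Option P → ℝ}
    (h1 : ∀ o, o ≠ x → ω' (inl o) = ω (inl o)) (h2 : ∀ π, ω' (inr (some π)) = ω (inr π))
    (h3 : ω' (inl x) + ω' (inr none) = ω (inl x)) (y : O ⊕ Option P) (v : J (O ⊕ P) → RZ) :
    phi ρ κ oh ω' y (fun j => v (Sum.map (colp x) id j)) = phi ρ κ oh ω (colp x y) v := by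
  have e1 : ∑ z, ev ρ (v (inl (colp x z))) * ω' z = ∑ z, ev ρ (v (inl z)) * ω z := by
    simp only [Fintype.sum_sum_type, Fintype.sum_option, colp, Sum.elim_inl, Sum.elim_inr,
      Option.elim_none, Option.elim_some, h2]
    rw [← add_assoc, ← Finset.add_sum_erase _ _ (mem_univ x),
      ← Finset.add_sum_erase _ (fun o => ev ρ (v (inl (inl o))) * ω (inl o)) (mem_univ x), ← h3,
      Finset.sum_congr rfl fun o ho => by rw [h1 o (mem_erase.1 ho).1]]
    ring
  simp only [phi, Sum.map_inl, Sum.map_inr, id, mul_add, sum_add_distrib, mul_ite, mul_zero,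
    sum_ite_eq', mem_univ, if_true, e1]

omit [DecidableEq P] in
theorem ql2_sum (x : O) {ω : O ⊕ P → ℝ} {ω' : O ⊕ Option P → ℝ}
    (h1 : ∀ o, o ≠ x → ω' (inl o) = ω (inl o)) (h2 : ∀ π, ω' (inr (some π)) = ω (inr π))
    (h3 : ω' (inl x) + ω' (inr none) = ω (inl x)) : ∑ z, ω' z = ∑ z, ω z := by
  simp only [Fintype.sum_sum_type, Fintype.sum_option, h2]
  rw [← add_assoc, ← Finset.add_sum_erase _ _ (mem_univ x),
    ← Finset.add_sum_erase _ (fun o => ω (inl o)) (mem_univ x), ← h3,
    Finset.sum_congr rfl fun o ho => h1 o (mem_erase.1 ho).1]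
  ring

/-- The rows of the split system, with unsplit columns. -/
noncomputable def ql2_G (B : Matrix (J (O ⊕ P)) (J (O ⊕ P)) RZ) (x : O) (m : RZ) :
    Matrix (J (O ⊕ Option P)) (J (O ⊕ P)) RZ
  | inl (inl o) => B (inl (inl o)) - if o = x then Pi.single (inl (inl x)) m else 0
  | inl (inr none) => Pi.single (inl (inl x)) m
  | inl (inr (some π)) => B (inl (inr π))
  | inr k => B (inr k)

theorem ql2_G_sum (B : Matrix (J (O ⊕ P)) (J (O ⊕ P)) RZ) (x : O) (m : RZ) (i : J (O ⊕ P)) :
    B i = ∑ i', if Sum.map (colp x) id i' = i then ql2_G B x m i' else 0 := by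
  simp only [Fintype.sum_sum_type, Fintype.sum_option, colp, Sum.elim_inl, Sum.elim_inr,
    Option.elim_none, Option.elim_some, Sum.map_inl, Sum.map_inr, id, ql2_G]
  rcases i with (o | π) | k
  · by_cases ho : o = x
    · subst ho; simp
    · simp [ho, Ne.symm ho]
  · simp
  · simp

theorem ql2_single_pos {ι : Type} [DecidableEq ι] (i j : ι) {m : RZ} (hm : Pos m) :
    Pos ((Pi.single i m : ι → RZ) j) := by
  rw [Pi.single_apply]
  split_ifs
  exacts [hm, Pos.zero]

theorem ql2_single_dvd {ι : Type} [DecidableEq ι] (i j : ι) {m q : RZ} (hm : q ∣ m) :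
    q ∣ (Pi.single i m : ι → RZ) j := by
  rw [Pi.single_apply]
  split_ifs
  exacts [hm, dvd_zero _]

omit [Fintype O] [Fintype P] in
theorem ql2_G_pt (hB : PT B) (x : O) {m : RZ} (hm : Pos m) (hX : X ∣ m)
    (h : Pos (B (inl (inl x)) (inl (inl x)) - m)) : PT (ql2_G B x m) := by
  constructor
  · rintro ((o | _ | π) | k) j
    · simp only [ql2_G]
      split_ifs with ho
      · subst ho
        rw [Pi.sub_apply, Pi.single_apply]
        split_ifs with hj
        · subst hj; exact h
        · rw [sub_zero]; exact hB.1 _ _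
      · rw [sub_zero]; exact hB.1 _ _
    · exact ql2_single_pos _ _ hm
    · exact hB.1 _ _
    · exact hB.1 _ _
  · rintro ((o | _ | π) | k) j
    · simp only [ql2_G]
      split_ifs with ho
      · exact dvd_sub (hB.2 _ _) (ql2_single_dvd _ _ hX)
      · rw [sub_zero]; exact hB.2 _ _
    · exact ql2_single_dvd _ _ hX
    · exact hB.2 _ _
    · exact hB.2 _ _

/-- `mv_split` with `e = Sum.map id some`, `ψ = colp x`, and the rows `G`: `B x - m e_x` for `x`,
`m e_x` for the new state (`m = mono (d, b)`), the old rows otherwise. New data: `a' none = (d, b)`,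
`par' none = x`, `idx' none = 1 + sup idx`, `ω' (inr none) = ρ ^ d (ω x + κ)`,
`ω' (inl x) = ω x - ω' (inr none)`, `T'` the lifts of `T` and of `e_x`. For `ordS` at `x` with
`colp x y ≠ inl x` use `Inv.kappa_le`; `0 ≤ ω' (inl x)` follows from `ordS` and `phi_nonneg`. -/
theorem stepB_split (hc : c.Ok) (hd : 1 ≤ d) (h : Inv c d d a par idx ω T B) (x : O) (b : Bool)
    (hm : Pos (B (inl (inl x)) (inl (inl x)) - mono (d, b))) :
    ∃ (a' : Option P → ℕ × Bool) (par' : Option P → O) (idx' : Option P → ℕ)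
      (ω' : O ⊕ Option P → ℝ) (T' : Option P → J (O ⊕ Option P) → RZ)
      (B' : Matrix (J (O ⊕ Option P)) (J (O ⊕ Option P)) RZ),
      Mv B B' ∧ Inv c d d a' par' idx' ω' T' B' ∧
      ∀ o, B' (inl (inl o)) (inl (inl o)) =
        B (inl (inl o)) (inl (inl o)) - if o = x then mono (d, b) else 0 := by
  have hPM : PM d (mono (d, b)) := PM.mono (d, b)
  have hX : X ∣ mono (d, b) := (dvd_pow_self X (by omega)).trans hPM.dvd
  have hG := ql2_G_pt h.hub.pt x hPM.pos hX hm
  have hρd : 0 < c.ρ ^ d := pow_pos hc.ρ0 d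
  have hox := h.om (inl x)
  have hκ := hc.κ0
  have hϑ0 := hc.ϑ0
  have hϑ1 := hc.ϑ1
  obtain ⟨w, hw⟩ : ∃ w, w = c.ρ ^ d * (ω (inl x) + c.κ) := ⟨_, rfl⟩
  obtain ⟨ω', h0, h1, h2, h3⟩ : ∃ ω' : O ⊕ Option P → ℝ, ω' (inr none) = w ∧
      (∀ o, o ≠ x → ω' (inl o) = ω (inl o)) ∧ (∀ π, ω' (inr (some π)) = ω (inr π)) ∧
      ω' (inl x) + ω' (inr none) = ω (inl x) :=
    ⟨Sum.elim (fun o => if o = x then ω (inl x) - w else ω (inl o))
      fun π => π.elim w fun π => ω (inr π), rfl, fun o ho => by simp [ho], fun π => rfl, by simp⟩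
  have hrow : ∀ y, phi c.ρ c.κ c.oh ω y (ql2_G B x (mono (d, b)) (inl (inl x))) =
      phi c.ρ c.κ c.oh ω y (B (inl (inl x))) -
        c.ρ ^ d * (ω (inl x) + if inl x = y then c.κ else 0) := by
    intro y
    simp only [ql2_G, if_true]
    rw [phi_sub, phi_single, hPM.ev]
  have hw0 : 0 ≤ w := by rw [hw]; positivity
  have hwle : w ≤ ω (inl x) := by
    have e1 := phi_nonneg (y := inl x) hc.ρ0.le hc.κ0.le hc.oh0.le h.om (hG.1 (inl (inl x)))
    have e2 := h.ordS x (inl x)
    rw [hrow, if_pos rfl, ← hw] at e1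
    nlinarith [mul_nonneg hϑ0.le hox]
  refine ⟨fun π => π.elim (d, b) a, fun π => π.elim x par,
    fun π => π.elim (1 + univ.sup idx) idx, ω',
    fun π j => π.elim (Pi.single (inl (inl x)) 1 : J (O ⊕ P) → RZ) T (Sum.map (colp x) id j),
    fun i j => ql2_G B x (mono (d, b)) i (Sum.map (colp x) id j),
    mv_split ((Function.Embedding.refl O).sumMap Function.Embedding.some) (colp x)
      (by rintro (o | π) <;> rfl) hG (ql2_G_sum B x _) fun _ _ => rfl, ?_, fun o => ?_⟩
  · refine ⟨⟨⟨fun i j => hG.1 _ _, fun i j => hG.2 _ _⟩, ?_, fun k hk z => h.hub.ent k hk _,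
      h.hub.bud1⟩, ?_, (ql2_sum x h1 h2 h3).le.trans h.sum, fun o y => ?_, fun o => ?_,
      fun o z => ?_, ?_, ?_, ?_, ?_, ?_, ?_, ?_, ?_, ?_⟩
    · funext j
      simp only [ql2_G, h.hub.ha]
      rcases j with j | j <;> rfl
    · rintro (o | _ | π)
      · by_cases ho : o = x
        · subst ho; linarith
        · rw [h1 o ho]; exact h.om _
      · rw [h0]; exact hw0
      · rw [h2]; exact h.om _
    · refine (phi_lift x h1 h2 h3 y _).le.trans ?_
      by_cases ho : o = x
      · subst ho
        have e2 := h.ordS o (colp o y)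
        have e3 := h.kappa_le hc o
        have e4 : (1 - c.ϑ) * (ω (inl o) + c.κ) ≤
            ω (inl o) + if inl o = colp o y then c.κ else 0 := by
          split_ifs <;> nlinarith [mul_nonneg hϑ0.le hox, mul_nonneg hϑ0.le hκ.le]
        have e5 := mul_le_mul_of_nonneg_left e4 hρd.le
        have e6 : ω' (inl o) = ω (inl o) - w := by linarith
        rw [hrow, e6, hw]
        linarith
      · simp only [ql2_G, if_neg ho, sub_zero, h1 o ho]
        exact h.ordS o _
    · have : ql2_G B x (mono (d, b)) (inl (inl o)) (inr 0) = B (inl (inl o)) (inr 0) := by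
        simp only [ql2_G]
        split_ifs <;> simp
      exact this ▸ h.ordB o
    · simp only [ql2_G, Sum.map_inl]
      split_ifs
      · exact dvd_sub (h.ordD _ _) (ql2_single_dvd _ _ hPM.dvd)
      · rw [sub_zero]; exact h.ordD _ _
    · rintro (_ | π) <;> funext j
      · simp only [ql2_G, Option.elim_none, Pi.smul_apply, smul_eq_mul, Pi.single_apply]
        split_ifs <;> simp
      · simp only [ql2_G, Option.elim_some, Pi.smul_apply, h.row π]
    · rintro (_ | π) j
      · exact ql2_single_pos _ _ Pos.one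
      · exact h.tpos _ _
    · rintro (_ | π)
      · simp [colp]
      · exact h.tself π
    · rintro (_ | π)
      · simpa [colp] using Pos.zero
      · exact h.tpar π
    · rintro (_ | π) (_ | π') hne hT
      · exact absurd rfl hne
      · simp [colp] at hT
      · have : idx π ≤ univ.sup idx := Finset.le_sup (mem_univ π)
        simp only [Option.elim_none, Option.elim_some]
        omega
      · exact h.ttri π π' (fun e => hne (congrArg _ e)) hT
    · rintro (_ | π) y
      · simp only [Option.elim_none]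
        rw [phi_lift x h1 h2 h3 y, phi_single, map_one, one_mul, h0, hw]
        refine mul_le_mul_of_nonneg_left ?_ hρd.le
        split_ifs <;> linarith
      · simp only [Option.elim_some]
        rw [phi_lift x h1 h2 h3 y, h2]
        exact h.perS π _
    · rintro (_ | π)
      · simp only [Option.elim_none]
        rw [h0, hw]
        exact mul_le_mul_of_nonneg_left (by linarith) hρd.le
      · rw [h2]; exact h.perL π
    · rintro (_ | π)
      · simp only [Option.elim_none]
        have := (Finset.single_le_sum (fun z _ => h.om z) (mem_univ (inl x))).trans h.sum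
        rw [h0, hw]
        exact mul_le_mul_of_nonneg_left (by linarith) hρd.le
      · rw [h2]; exact h.perU π
    · rintro (_ | π)
      · exact ⟨hd, le_rfl⟩
      · exact h.deg π
  · simp only [ql2_G, Sum.map_inl, colp, Sum.elim_inl]
    split_ifs with ho
    · subst ho; simp
    · simp

theorem ql2_aug_mono (d : ℕ) (b : Bool) : augZ ((mono (d, b)).coeff d) = 1 := by
  cases b
  · simp [mono]
  · simp [mono, gR, augZ_gL]

theorem ql2_level (hc : c.Ok) (hd : 1 ≤ d) (n : ℕ) : ∀ (P : Type) [Fintype P] [DecidableEq P]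
    (a : P → ℕ × Bool) (par : P → O) (idx : P → ℕ) (ω : O ⊕ P → ℝ) (T : P → J (O ⊕ P) → RZ)
    (B : Matrix (J (O ⊕ P)) (J (O ⊕ P)) RZ), Inv c d d a par idx ω T B →
    ∑ o, (augZ ((B (inl (inl o)) (inl (inl o))).coeff d)).toNat < n → InvE c (d + 1) d O B := by
  induction n with
  | zero => intro _ _ _ _ _ _ _ _ _ _ hn; omega
  | succ n ih =>
    intro P _ _ a par idx ω T B h hn
    by_cases h0 : ∀ o, (B (inl (inl o)) (inl (inl o))).coeff d = 0
    · obtain ⟨B', hM, hI, hO, hD⟩ := stepA hc h
      refine ⟨P, _, _, a, par, idx, ω, T, B', hM, { hI with ordD := fun o z => ?_ }⟩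
      by_cases hz : z = inl o
      · subst hz
        refine X_pow_dvd_iff.2 fun j hj => ?_
        rcases (Nat.lt_succ_iff.1 hj).eq_or_lt with rfl | hj
        · rw [hD, h0]
        · exact X_pow_dvd_iff.1 (hI.ordD o _) j hj
      · exact hO o z hz
    · obtain ⟨x, hx⟩ := not_forall.1 h0
      obtain ⟨m, hm, hp⟩ := (h.hub.pt.1 _ _).exists_PM hx
      obtain ⟨b, rfl⟩ := hm.eq_mono
      obtain ⟨a', par', idx', ω', T', B', hM, hI, hD⟩ := stepB_split hc hd h x b hp
      have hlt : ∑ o, (augZ ((B' (inl (inl o)) (inl (inl o))).coeff d)).toNat <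
          ∑ o, (augZ ((B (inl (inl o)) (inl (inl o))).coeff d)).toNat := by
        refine Finset.sum_lt_sum (fun o _ => ?_) ⟨x, mem_univ _, ?_⟩
        · rw [hD]
          split_ifs
          · rw [coeff_sub, map_sub, ql2_aug_mono]; omega
          · rw [sub_zero]
        · have := (h.hub.pt.1 _ _ d).aug_pos hx
          rw [hD, if_pos rfl, coeff_sub, map_sub, ql2_aug_mono]
          omega
      obtain ⟨P', i1, i2, a'', par'', idx'', ω'', T'', B'', hM', hI'⟩ :=
        ih _ a' par' idx' ω' T' B' hI (by omega)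
      exact ⟨P', i1, i2, a'', par'', idx'', ω'', T'', B'', hM.trans hM' hI.hub.ha0, hI'⟩

/-- Induction on `n = ∑ o, (augZ ((B o o).coeff d)).toNat` (generalising `P` and all data). If
`n = 0`, apply `stepA`: now all active entries of the ordinary rows have order `d + 1`. Otherwise
`Pos.exists_PM`, `PM.eq_mono`, `stepB_split`. -/
theorem level_up (hc : c.Ok) (hd : 1 ≤ d) (h : Inv c d d a par idx ω T B) :
    InvE c (d + 1) d O B :=
  ql2_level hc hd _ P a par idx ω T B h (Nat.lt_succ_self _)

end Pool.Agent.Lib.MP_71aad1_an.SS
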