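import Pool.Agent.Lib.MP_71aad1_an.QL2

set_option autoImplicit false

namespace Pool.Agent.Lib.MP_71aad1_an.SS

open Polynomial Matrix Finset Sum

/-! Elimination of short loops: start and iteration. -/

variable {V : Type} [Fintype V] [DecidableEq V]

/-- Choose `oh`, then `ϑ`, then `κ` small: finitely many strict inequalities
`∑ z, ev ρ (B x z) ω z < ω x` persist (use `Filter.Eventually` in `nhdsWithin 0 (Set.Ioi 0)`, or
explicit minima). Take `P = Empty`, `mv_equiv` along `(Equiv.sumEmpty V Empty).symm`,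
`Ω = ∑ ω`. -/
theorem inv_init {ar : RZ} {sm s0 s : ℕ} {B : Matrix (J V) (J V) RZ} (hB : Hub ar sm s0 B) {ρ : ℝ}
    (h0 : 0 < ρ) (h1 : ρ ≤ 1) {ω : V → ℝ} (hω : Sup ρ ω B.toBlocks₁₁)
    (hb : ∀ x, Pos (B (inl x) (inr 0) - bud s)) :
    ∃ c : PC, c.Ok ∧ c.ρ = ρ ∧ c.ar = ar ∧ c.sm = sm ∧ c.s0 = s0 ∧ c.s = s ∧ InvE c 1 0 V B := by
  have hbud : 0 < ev ρ (bud s) := by
    unfold bud
    rw [map_mul, map_mul, map_add, map_pow, map_pow, ev_X, ev_uR, map_ofNat]
    positivity
  have hev : ∀ᶠ t in nhdsWithin (0 : ℝ) (Set.Ioi 0), ∀ x y,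
      phi ρ (t * (t * ev ρ (bud s))) t ω y (B (inl x)) < (1 - t) * ω x := by
    refine Filter.eventually_all.2 fun x => Filter.eventually_all.2 fun y => ?_
    refine Filter.Eventually.filter_mono nhdsWithin_le_nhds ?_
    have hc1 : Continuous fun t : ℝ => phi ρ (t * (t * ev ρ (bud s))) t ω y (B (inl x)) := by
      unfold phi
      refine Continuous.add (continuous_finsetSum _ fun z _ => continuous_const.mul
        (continuous_const.add ?_)) (by fun_prop)
      split_ifs <;> fun_prop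
    refine ContinuousAt.eventually_lt hc1.continuousAt (by fun_prop) ?_
    have := hω.2 x
    simpa [phi, toBlocks₁₁] using this
  have hlt : ∀ᶠ t in nhdsWithin (0 : ℝ) (Set.Ioi 0), t < 1 :=
    Filter.Eventually.filter_mono nhdsWithin_le_nhds (eventually_lt_nhds zero_lt_one)
  obtain ⟨t, ht, ht1, ht0⟩ := (hev.and (hlt.and self_mem_nhdsWithin)).exists
  have ht0' : 0 < t := ht0
  let e : V ⊕ Empty ≃ V := Equiv.sumEmpty V Empty
  refine ⟨⟨ρ, t * (t * ev ρ (bud s)), t, t, ∑ x, ω x, ar, sm, s0, s⟩,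
    ⟨h0, h1, by positivity, ht0', ht0', ht1, le_rfl⟩, rfl, rfl, rfl, rfl, rfl, Empty, inferInstance,
    inferInstance, Empty.elim, Empty.elim, Empty.elim, fun z => ω (e z), Empty.elim,
    fun i j => B (Sum.map e id i) (Sum.map e id j), ?_, ?_⟩
  · refine mv_equiv e.symm hB.pt fun i j => ?_
    rcases i with i | i <;> rcases j with j | j <;> rfl
  · refine ⟨⟨⟨fun i j => hB.pt.1 _ _, fun i j => hB.pt.2 _ _⟩, ?_, fun h hh z => hB.ent h hh _,
      hB.bud1⟩, fun z => (hω.1 _).le, (Equiv.sum_comp e ω).le, fun o y => ?_, fun o => hb o,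
      fun o z => ?_, fun π => π.elim, fun π => π.elim, fun π => π.elim, fun π => π.elim,
      fun π => π.elim, fun π => π.elim, fun π => π.elim, fun π => π.elim, fun π => π.elim⟩
    · funext j
      change B (inr 0) _ = _
      rw [hB.ha]
      rcases j with j | j <;> rfl
    · refine le_trans (le_of_eq ?_) (ht o (e y)).le
      unfold phi
      congr 1
      refine Fintype.sum_equiv e _ _ fun z => ?_
      simp only [EmbeddingLike.apply_eq_iff_eq]
      rfl
    · rw [pow_one]
      exact hB.pt.2 _ _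

/-- Induction on `d` with `Inv.mono`, `level_up`, `Mv.trans`. -/
theorem inv_all {c : PC} (hc : c.Ok) {V₀ : Type} [Fintype V₀] [DecidableEq V₀]
    {B : Matrix (J V₀) (J V₀) RZ} (h : InvE c 1 0 V B) (d : ℕ) : InvE c (d + 1) d V B := by
  induction d with
  | zero => exact h
  | succ d ih =>
    obtain ⟨P, _, _, a, par, idx, ω, T, B', hm, hi⟩ := ih
    obtain ⟨P', _, _, a', par', idx', ω', T', B'', hm', hi'⟩ :=
      level_up hc (Nat.le_add_left 1 d) (hi.mono le_rfl (Nat.le_succ d))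
    exact ⟨P', inferInstance, inferInstance, a', par', idx', ω', T', B'',
      hm.trans hm' hi.hub.ha0, hi'⟩

end Pool.Agent.Lib.MP_71aad1_an.SS
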