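import Pool.Agent.Lib.MP_71aad1_an.QA1
import Pool.Agent.Lib.MP_71aad1_an.QDef4

set_option autoImplicit false

namespace Pool.Agent.Lib.MP_71aad1_an.SS

open Polynomial Matrix Finset Sum

/-! Counting loops from the determinant. -/

variable {P P' : Type} [Fintype P] [DecidableEq P] [Fintype P'] [DecidableEq P']

/-- The truncated logarithmic derivative of `∏ (1 - mono (a π))⁻¹`. -/
noncomputable def psum (M : ℕ) (a : P → ℕ × Bool) : RZ :=
  ∑ π, ((a π).1 : RZ) * ∑ k ∈ Icc 1 M, mono (a π) ^ k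

/-- The number of loops of a given type. -/
def cnt (a : P → ℕ × Bool) (q : ℕ × Bool) : ℕ := (univ.filter fun π => a π = q).card

theorem ql6_mono (q : ℕ × Bool) : mono q = C (if q.2 then gL else 1) * X ^ q.1 := by
  unfold mono
  split_ifs <;> simp [gR]

theorem ql6_X_deriv_pow (n : ℕ) : (X : RZ) * derivative (X ^ n) = (n : RZ) * X ^ n := by
  rw [derivative_X_pow, map_natCast]
  rcases n with _ | n
  · simp
  · rw [Nat.add_sub_cancel]; ring

theorem ql6_X_deriv (q : ℕ × Bool) : X * derivative (mono q) = (q.1 : RZ) * mono q := by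
  rw [ql6_mono, derivative_C_mul, mul_left_comm, ql6_X_deriv_pow]
  ring

theorem ql6_geom (m : RZ) (M : ℕ) : (1 - m) * ∑ k ∈ Icc 1 M, m ^ k = m - m ^ (M + 1) := by
  induction M with
  | zero => simp
  | succ M ih => rw [Finset.sum_Icc_succ_top (by omega), mul_add, ih]; ring

theorem ql6_X_dvd {q : ℕ × Bool} (h : 1 ≤ q.1) : X ∣ mono q :=
  (dvd_pow_self X (by omega)).trans (PM.mono q).dvd

omit [Fintype P] in
theorem ql6_spec (M : ℕ) {a : P → ℕ × Bool} (ha : ∀ π, 1 ≤ (a π).1) (s : Finset P) :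
    X ^ M ∣ (∏ π ∈ s, (1 - mono (a π))) * (∑ π ∈ s, ((a π).1 : RZ) * ∑ k ∈ Icc 1 M, mono (a π) ^ k) +
      X * derivative (∏ π ∈ s, (1 - mono (a π))) := by
  induction s using Finset.induction_on with
  | empty => simp
  | insert π s hπ ih =>
    rw [prod_insert hπ, sum_insert hπ, derivative_mul, derivative_sub, derivative_one]
    have h1 := ql6_X_deriv (a π)
    have h2 := ql6_geom (mono (a π)) M
    have h3 : X ^ M ∣ mono (a π) ^ (M + 1) :=
      (pow_dvd_pow X (Nat.le_succ M)).trans (pow_dvd_pow_of_dvd (ql6_X_dvd (ha π)) _)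
    obtain ⟨u, hu⟩ := ih
    obtain ⟨w, hw⟩ := h3
    refine ⟨(1 - mono (a π)) * u - (∏ π ∈ s, (1 - mono (a π))) * ((a π).1 : RZ) * w, ?_⟩
    linear_combination (1 - mono (a π)) * hu - (∏ π ∈ s, (1 - mono (a π))) * h1 +
      (∏ π ∈ s, (1 - mono (a π))) * ((a π).1 : RZ) * (h2 - hw)

omit [Fintype P] in
theorem ql6_prod_one {a : P → ℕ × Bool} (ha : ∀ π, 1 ≤ (a π).1) (s : Finset P) :
    X ∣ ∏ π ∈ s, (1 - mono (a π)) - 1 := by
  induction s using Finset.induction_on with
  | empty => simp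
  | insert π s hπ ih =>
    obtain ⟨u, hu⟩ := ih
    obtain ⟨w, hw⟩ := ql6_X_dvd (ha π)
    rw [prod_insert hπ]
    exact ⟨(1 - mono (a π)) * u - w, by linear_combination (1 - mono (a π)) * hu - hw⟩

theorem ql6_coeff {M p : ℕ} (q : ℕ × Bool) (hq : 1 ≤ q.1) (hp : 1 ≤ p) (hM : p ≤ M) :
    ((q.1 : RZ) * ∑ k ∈ Icc 1 M, mono q ^ k).coeff p =
      if q.1 ∣ p then (q.1 : Lam ℤ) * (if q.2 then gL else 1) ^ (p / q.1) else 0 := by
  rw [← map_natCast (C : Lam ℤ →+* RZ), coeff_C_mul, finsetSum_coeff]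
  simp only [ql6_mono, mul_pow, ← C_pow, ← pow_mul, coeff_C_mul, coeff_X_pow, mul_ite, mul_one,
    mul_zero]
  by_cases h : q.1 ∣ p
  · obtain ⟨k, rfl⟩ := h
    have hk : 1 ≤ k := Nat.pos_of_ne_zero fun e => by simp [e] at hp
    rw [if_pos (dvd_mul_right _ _), Nat.mul_div_cancel_left _ hq, Finset.sum_eq_single k, if_pos rfl]
    · intro j _ hj
      exact if_neg fun e => hj (Nat.eq_of_mul_eq_mul_left hq e).symm
    · intro hk'
      exact absurd (mem_Icc.2 ⟨hk, (Nat.le_mul_of_pos_left k hq).trans hM⟩) hk'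
  · rw [if_neg h, Finset.sum_eq_zero, mul_zero]
    intro j _
    exact if_neg fun e => h ⟨j, e⟩

/-- Induction over the finite set of factors: `t (1 - m)' = -p m` for `m = mono (p, b)`, and
`(1 - m) ∑_{1 ≤ k ≤ M} m ^ k = m - m ^ (M + 1)`. -/
theorem psum_spec (M : ℕ) {a : P → ℕ × Bool} (ha : ∀ π, 1 ≤ (a π).1) :
    X ^ M ∣ (∏ π, (1 - mono (a π))) * psum M a + X * derivative (∏ π, (1 - mono (a π))) :=
  ql6_spec M ha univ

/-- If `t ^ M ∣ F - F₀` then `t ^ M ∣ t F' - t F₀'`; cancel `F₀`, which has the constant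
coefficient `1` (`dvd_of_vecMul_one_sub` on `Unit`, or `IsCoprime`). -/
theorem psum_unique {M : ℕ} {a : P → ℕ × Bool} (ha : ∀ π, 1 ≤ (a π).1) {F G : RZ}
    (hF : X ∣ F - 1) (h : X ^ M ∣ ∏ π, (1 - mono (a π)) - F) (hG : X ^ M ∣ F * G + X * derivative F) :
    X ^ M ∣ psum M a - G := by
  obtain ⟨u, hu⟩ := hF
  have hc : IsCoprime (X ^ M : RZ) F := IsCoprime.pow_left ⟨-u, 1, by linear_combination hu⟩
  refine hc.dvd_of_dvd_mul_left ?_
  obtain ⟨H, hH⟩ := h
  obtain ⟨v, hv⟩ := hG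
  obtain ⟨w, hw⟩ := psum_spec M ha
  have h1 := congrArg (fun p => X * derivative p) hH
  simp only [derivative_sub, derivative_mul] at h1
  have h2 := ql6_X_deriv_pow M
  refine ⟨w - v - H * psum M a - (M : RZ) * H - X * derivative H, ?_⟩
  linear_combination hw - hv - psum M a * hH - h1 - H * h2

/-- The coefficient of `t ^ p`: a loop of degree `d ∣ p` contributes `d g ^ (b p / d)`. -/
theorem psum_coeff {M p : ℕ} {a : P → ℕ × Bool} (ha : ∀ π, 1 ≤ (a π).1) (hp : 1 ≤ p) (hM : p ≤ M) :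
    (psum M a).coeff p = ∑ d ∈ p.divisors,
      (((d * cnt a (d, false) : ℕ) : Lam ℤ) + ((d * cnt a (d, true) : ℕ) : Lam ℤ) * gL ^ (p / d)) := by
  rw [psum, finsetSum_coeff, Finset.sum_congr rfl fun π _ => ql6_coeff _ (ha π) hp hM]
  simp only [cnt, card_filter, Nat.cast_mul, Nat.cast_sum, mul_sum, sum_mul, ← sum_add_distrib]
  rw [Finset.sum_comm]
  refine Finset.sum_congr rfl fun π _ => ?_
  rcases a π with ⟨d, b⟩
  have hp0 : p ≠ 0 := by omega
  cases b <;> simp [hp0]

/-- Strong induction on `p` with `psum_unique`, `psum_spec`, `psum_coeff` gives equal counts for all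
types (types of degree `0` or `≥ M` do not occur); then `Equiv.ofFiberEquiv` and
`Fintype.equivOfCardEq`. -/
theorem matching {M : ℕ} {a : P → ℕ × Bool} {a' : P' → ℕ × Bool}
    (ha : ∀ π, 1 ≤ (a π).1 ∧ (a π).1 < M) (ha' : ∀ π, 1 ≤ (a' π).1 ∧ (a' π).1 < M)
    (h : X ^ M ∣ ∏ π, (1 - mono (a π)) - ∏ π, (1 - mono (a' π))) :
    ∃ σ : P ≃ P', ∀ π, a' (σ π) = a π := by
  have hd := psum_unique (fun π => (ha π).1) (ql6_prod_one (fun π => (ha' π).1) univ) h
    (psum_spec M fun π => (ha' π).1)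
  have key : ∀ p, cnt a (p, false) = cnt a' (p, false) ∧ cnt a (p, true) = cnt a' (p, true) := by
    intro p
    induction p using Nat.strong_induction_on with
    | _ p ih =>
      by_cases hp : 1 ≤ p ∧ p < M
      · have h1 := X_pow_dvd_iff.1 hd p hp.2
        rw [coeff_sub, psum_coeff (fun π => (ha π).1) hp.1 hp.2.le,
          psum_coeff (fun π => (ha' π).1) hp.1 hp.2.le, ← sum_sub_distrib,
          Finset.sum_eq_single p, Nat.div_self hp.1, pow_one, sub_eq_zero] at h1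
        · have h2 := congrArg QuadraticAlgebra.re h1
          have h3 := congrArg QuadraticAlgebra.im h1
          have hp0 : p ≠ 0 := by omega
          simp [gL, hp0] at h2 h3
          exact ⟨h2, h3⟩
        · intro d hd hne
          have := ih d (lt_of_le_of_ne (Nat.divisor_le hd) hne)
          rw [this.1, this.2, sub_self]
        · intro hn
          exact absurd (Nat.mem_divisors_self p (by omega)) hn
      · have e : ∀ b, cnt a (p, b) = 0 ∧ cnt a' (p, b) = 0 := fun b =>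
          ⟨card_eq_zero.2 (filter_eq_empty_iff.2 fun π _ e => hp (by simpa [e] using ha π)),
            card_eq_zero.2 (filter_eq_empty_iff.2 fun π _ e => hp (by simpa [e] using ha' π))⟩
        simp [e]
  have key' : ∀ q, Fintype.card {π // a π = q} = Fintype.card {π // a' π = q} := by
    rintro ⟨p, b⟩
    rw [Fintype.card_subtype, Fintype.card_subtype]
    cases b
    exacts [(key p).1, (key p).2]
  exact ⟨Equiv.ofFiberEquiv fun q => Fintype.equivOfCardEq (key' q), Equiv.ofFiberEquiv_map _⟩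

end Pool.Agent.Lib.MP_71aad1_an.SS
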