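import Pool.Agent.Lib.MP_71aad1_an.QA1

set_option autoImplicit false
set_option linter.unusedSectionVars false

namespace Pool.Agent.Lib.MP_71aad1_an.SS

open Polynomial Matrix Finset Sum

/-! Strong shift equivalence on arbitrary finite index types, and the time step `Psi`. -/

variable {U V W : Type} [Fintype U] [DecidableEq U] [Fintype V] [DecidableEq V] [Fintype W]
  [DecidableEq W]

theorem SSE.refl (A : Matrix V V (Lam ℤ)) : SSE A A := Relation.EqvGen.refl _
theorem SSE.symm {A : Matrix V V (Lam ℤ)} {B : Matrix W W (Lam ℤ)} (h : SSE A B) : SSE B A :=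
  Relation.EqvGen.symm _ _ h
theorem SSE.trans {A : Matrix U U (Lam ℤ)} {B : Matrix V V (Lam ℤ)} {C : Matrix W W (Lam ℤ)}
    (h : SSE A B) (h' : SSE B C) : SSE A C := Relation.EqvGen.trans _ _ _ h h'
theorem SSE.of_mul {R : Matrix V W (Lam ℤ)} {S : Matrix W V (Lam ℤ)} (hR : MLPos R) (hS : MLPos S) :
    SSE (R * S) (S * R) := by
  refine Relation.EqvGen.rel _ _
    ⟨R.submatrix (Fintype.equivFin V).symm (Fintype.equivFin W).symm,
      S.submatrix (Fintype.equivFin W).symm (Fintype.equivFin V).symm,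
      fun i j => hR _ _, fun i j => hS _ _, ?_, ?_⟩
  · exact (Matrix.submatrix_mul_equiv R S _ (Fintype.equivFin W).symm _).symm
  · exact (Matrix.submatrix_mul_equiv S R _ (Fintype.equivFin V).symm _).symm

omit [DecidableEq W] in
theorem qp1_mul₁ (A : Matrix V V (Lam ℤ)) (e : V ≃ W) :
    A.submatrix id e.symm * (1 : Matrix V V (Lam ℤ)).submatrix e.symm id = A := by
  rw [Matrix.submatrix_mul_equiv A 1 id e.symm id, Matrix.mul_one, Matrix.submatrix_id_id]

omit [Fintype W] [DecidableEq W] in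
theorem qp1_mul₂ (A : Matrix V V (Lam ℤ)) (e : V ≃ W) :
    (1 : Matrix V V (Lam ℤ)).submatrix e.symm id * A.submatrix id e.symm = reindex e e A := by
  have h := Matrix.submatrix_mul_equiv (1 : Matrix V V (Lam ℤ)) A e.symm (Equiv.refl V) e.symm
  rw [Matrix.one_mul] at h
  exact h

theorem SSE.reindex {A : Matrix V V (Lam ℤ)} (hA : MLPos A) (e : V ≃ W) : SSE A (reindex e e A) := by
  have h := SSE.of_mul (R := A.submatrix id e.symm)
    (S := (1 : Matrix V V (Lam ℤ)).submatrix e.symm id) (fun i j => hA _ _)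
    (fun i j => MLPos.one _ _)
  rwa [qp1_mul₁, qp1_mul₂] at h

theorem qp1_es {n : ℕ} {A : Matrix (Fin n) (Fin n) (Lam ℤ)} (hA : MLPos A) :
    ES LPos ⟨n, A⟩ (toFin A) :=
  ⟨A.submatrix id (Fintype.equivFin (Fin n)).symm,
    (1 : Matrix (Fin n) (Fin n) (Lam ℤ)).submatrix (Fintype.equivFin (Fin n)).symm id,
    fun _ _ => hA _ _, fun _ _ => MLPos.one _ _, (qp1_mul₁ A _).symm, (qp1_mul₂ A _).symm⟩

theorem SSE.fin {n m : ℕ} {A : Matrix (Fin n) (Fin n) (Lam ℤ)} {B : Matrix (Fin m) (Fin m) (Lam ℤ)}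
    (hA : MLPos A) (hB : MLPos B) (h : SSE A B) : Relation.EqvGen (ES LPos) ⟨n, A⟩ ⟨m, B⟩ :=
  Relation.EqvGen.trans _ _ _ (Relation.EqvGen.rel _ _ (qp1_es hA))
    (Relation.EqvGen.trans _ _ _ h (Relation.EqvGen.symm _ _ (Relation.EqvGen.rel _ _ (qp1_es hB))))

theorem qp1_pow_rk {A : Matrix V V (Lam ℤ)} {rk : V → ℕ} (h : ∀ i j, A i j ≠ 0 → rk j < rk i)
    (k : ℕ) : ∀ i j, (A ^ k) i j ≠ 0 → rk j + k ≤ rk i := by
  induction k with
  | zero =>
    intro i j hij
    rw [pow_zero] at hij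
    by_cases e : i = j
    · rw [e]; exact le_rfl
    · exact absurd (Matrix.one_apply_ne e) hij
  | succ k ih =>
    intro i j hij
    rw [pow_succ, Matrix.mul_apply] at hij
    obtain ⟨z, -, hz⟩ := Finset.exists_ne_zero_of_sum_ne_zero hij
    have h1 := ih i z (left_ne_zero_of_mul hz)
    have h2 := h z j (right_ne_zero_of_mul hz)
    omega

/-- The constant part `B₀` is nilpotent (rank function), so `1 - B₀` is invertible with the
nonnegative inverse `∑ B₀ ^ i`. -/
theorem Valid.inv {B : Matrix V V RZ} (h : Valid B) :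
    IsUnit (1 - B.map fun p => p.coeff 0).det ∧ MLPos (1 - B.map fun p => p.coeff 0)⁻¹ := by
  obtain ⟨hp, rk, hrk⟩ := h
  set A : Matrix V V (Lam ℤ) := B.map fun p => p.coeff 0 with hA
  have hAp : MLPos A := fun i j => hp i j 0
  have h0 : A ^ (univ.sup rk + 1) = 0 := by
    ext1 i j
    by_contra hne
    have h1 := qp1_pow_rk (A := A) (rk := rk) hrk _ i j hne
    have h2 : rk i ≤ univ.sup rk := Finset.le_sup (Finset.mem_univ i)
    omega
  have h1 : (1 - A) * ∑ i ∈ range (univ.sup rk + 1), A ^ i = 1 := by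
    rw [mul_neg_geom_sum, h0, sub_zero]
  refine ⟨Matrix.isUnit_det_of_right_inverse h1, ?_⟩
  rw [Matrix.inv_eq_right_inv h1]
  intro i j
  rw [Matrix.sum_apply]
  exact LPos.sum _ fun k _ => hAp.pow k i j

theorem qp1_coeff_zero (B : Matrix V V RZ) (c : V → Lam ℤ) (y : V) :
    (((fun x => C (c x)) ᵥ* (1 - B)) y).coeff 0 = (c ᵥ* (1 - B.map fun p => p.coeff 0)) y := by
  simp only [vecMul, dotProduct, finsetSum_coeff, coeff_C_mul, Matrix.sub_apply, coeff_sub,
    Matrix.map_apply, Matrix.one_apply]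
  refine Finset.sum_congr rfl fun x _ => ?_
  split_ifs <;> simp

theorem qp1_coeff_succ (B : Matrix V V RZ) (c : V → Lam ℤ) (y : V) (j : ℕ) :
    (((fun x => C (c x)) ᵥ* (1 - B)) y).coeff (j + 1) = -∑ x, c x * (B x y).coeff (j + 1) := by
  simp only [vecMul, dotProduct, finsetSum_coeff, coeff_C_mul, Matrix.sub_apply, coeff_sub,
    Matrix.one_apply]
  rw [← Finset.sum_neg_distrib]
  refine Finset.sum_congr rfl fun x _ => ?_
  split_ifs <;> simp [coeff_one]

theorem qp1_coeff_Psi (B : Matrix V V RZ) (v : V → RZ) (y : V) (j : ℕ) :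
    (Psi B v y).coeff j = (v y).coeff (j + 1) + ∑ x, cres B v x * (B x y).coeff (j + 1) := by
  rw [Psi, coeff_divX, coeff_sub, qp1_coeff_succ, sub_neg_eq_add]

theorem qp1_cres_add (B : Matrix V V RZ) (v w : V → RZ) :
    cres B (v + w) = cres B v + cres B w := by
  rw [cres, cres, cres, ← Matrix.add_vecMul]
  congr 1

theorem qp1_cres_smul (B : Matrix V V RZ) (c : Lam ℤ) (v : V → RZ) :
    cres B (c • v) = c • cres B v := by
  rw [cres, cres, ← Matrix.smul_vecMul]
  congr 1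

theorem Psi_linear (B : Matrix V V RZ) : IsLinearMap (Lam ℤ) (Psi B) := by
  constructor
  · intro v w
    funext y
    ext1 j
    simp only [Pi.add_apply, coeff_add, qp1_coeff_Psi, qp1_cres_add, add_mul,
      Finset.sum_add_distrib]
    abel
  · intro c v
    funext y
    ext1 j
    simp only [Pi.smul_apply, coeff_smul, qp1_coeff_Psi, qp1_cres_smul, smul_eq_mul, mul_add,
      Finset.mul_sum, mul_assoc]

theorem Psi_spec {B : Matrix V V RZ} (h : Valid B) (v : V → RZ) :
    (X : RZ) • Psi B v = v - (fun x => C (cres B v x)) ᵥ* (1 - B) := by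
  funext y
  have h0 : (v y - ((fun x => C (cres B v x)) ᵥ* (1 - B)) y).coeff 0 = 0 := by
    rw [coeff_sub, qp1_coeff_zero, cres, Matrix.vecMul_vecMul,
      Matrix.nonsing_inv_mul _ h.inv.1, Matrix.vecMul_one, sub_self]
  have h1 := X_mul_divX_add (v y - ((fun x => C (cres B v x)) ᵥ* (1 - B)) y)
  rw [h0, map_zero, add_zero] at h1
  exact h1

theorem cres_unique {B : Matrix V V RZ} (h : Valid B) {v v' : V → RZ} {c : V → Lam ℤ}
    (e : (X : RZ) • v' = v - (fun x => C (c x)) ᵥ* (1 - B)) : c = cres B v := by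
  have h1 : (fun z => (v z).coeff 0) = c ᵥ* (1 - B.map fun p => p.coeff 0) := by
    funext y
    have h2 := congrArg (fun w : V → RZ => (w y).coeff 0) e
    simp only [Pi.smul_apply, smul_eq_mul, coeff_X_mul_zero, Pi.sub_apply, coeff_sub,
      qp1_coeff_zero] at h2
    exact sub_eq_zero.1 h2.symm
  rw [cres, h1, Matrix.vecMul_vecMul, Matrix.mul_nonsing_inv _ h.inv.1, Matrix.vecMul_one]

theorem Psi_unique {B : Matrix V V RZ} (h : Valid B) {v v' : V → RZ} {c : V → Lam ℤ}
    (e : (X : RZ) • v' = v - (fun x => C (c x)) ᵥ* (1 - B)) : Psi B v = v' := by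
  have h1 := Psi_spec h v
  rw [← cres_unique h e, ← e] at h1
  funext y
  ext1 j
  have h2 := congrArg (fun w : V → RZ => (w y).coeff (j + 1)) h1
  simpa only [Pi.smul_apply, smul_eq_mul, coeff_X_mul] using h2

/-- `t Psi v = (v - v₀) + c (B - B₀)` with `c = cres B v ≥ 0`. -/
theorem Psi_pos {B : Matrix V V RZ} (h : Valid B) {v : V → RZ} (hv : ∀ y, Pos (v y)) (y : V) :
    Pos (Psi B v y) := by
  intro j
  rw [qp1_coeff_Psi]
  refine (hv y _).add (LPos.sum _ fun x _ => LPos.mul ?_ (h.1 x y _))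
  exact LPos.sum _ fun z _ => (hv z 0).mul (h.inv.2 z x)

theorem Psi_sp {B : Matrix V V RZ} {D : V → ℕ} (hD : Val B D) {v : V → RZ}
    (hv : Sp (fun y => D y + 1) v) : Sp D (Psi B v) := by
  intro y
  rw [degree_lt_iff_coeff_zero]
  intro m hm
  rw [qp1_coeff_Psi, (degree_lt_iff_coeff_zero _ _).1 (hv y) (m + 1) (by simpa using hm), zero_add]
  refine Finset.sum_eq_zero fun x _ => ?_
  rw [coeff_eq_zero_of_natDegree_lt ((hD x y).trans_lt (Nat.lt_succ_of_le hm)), mul_zero]

theorem Sp.mono {D D' : V → ℕ} (h : ∀ y, D y ≤ D' y) {v : V → RZ} (hv : Sp D v) : Sp D' v :=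
  fun y => (hv y).trans_le (by exact_mod_cast h y)

omit [Fintype V] in
theorem qp1_sp_single {D : V → ℕ} (a : Σ y, Fin (D y)) :
    Sp D (Pi.single a.1 (X ^ (a.2 : ℕ))) := by
  intro y
  by_cases e : y = a.1
  · subst e
    rw [Pi.single_eq_same]
    exact (degree_X_pow_le _).trans_lt (by exact_mod_cast a.2.2)
  · rw [Pi.single_eq_of_ne e, degree_zero]
    exact WithBot.bot_lt_coe _

omit [Fintype V] in
theorem qp1_pos_single (a : V) (k : ℕ) (y : V) : Pos ((Pi.single a (X ^ k) : V → RZ) y) := by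
  by_cases e : y = a
  · subst e
    rw [Pi.single_eq_same]
    exact Pos.X_pow k
  · rw [Pi.single_eq_of_ne e]
    exact Pos.zero

theorem matL_congr {F G : (V → RZ) → W → RZ} {D : V → ℕ} (D' : W → ℕ)
    (h : ∀ v, Sp D v → F v = G v) : matL F D D' = matL G D D' := by
  funext a b
  rw [matL, matL, h _ (qp1_sp_single a)]

theorem qp1_expand {D : V → ℕ} {w : V → RZ} (hw : Sp D w) :
    w = ∑ b : (Σ y, Fin (D y)), (w b.1).coeff b.2 • (Pi.single b.1 (X ^ (b.2 : ℕ)) : V → RZ) := by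
  funext y
  rw [Finset.sum_apply, Fintype.sum_sigma, Finset.sum_eq_single y]
  · ext1 n
    simp only [Pi.smul_apply, Pi.single_eq_same, finsetSum_coeff, coeff_smul, coeff_X_pow,
      smul_eq_mul, mul_ite, mul_one, mul_zero]
    by_cases hn : n < D y
    · rw [Finset.sum_eq_single ⟨n, hn⟩]
      · simp
      · intro j _ hj
        exact if_neg fun e => hj (Fin.ext e.symm)
      · intro hh
        exact absurd (Finset.mem_univ _) hh
    · rw [(degree_lt_iff_coeff_zero _ _).1 (hw y) n (not_lt.1 hn)]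
      refine (Finset.sum_eq_zero fun j _ => if_neg fun e => hn ?_).symm
      rw [e]
      exact j.2
  · intro z _ hz
    refine Finset.sum_eq_zero fun j _ => ?_
    rw [Pi.smul_apply, Pi.single_eq_of_ne (Ne.symm hz), smul_zero]
  · intro hh
    exact absurd (Finset.mem_univ _) hh

/-- Expand `F (single y (t ^ j))` in the basis of `Sp D'`. -/
theorem matL_comp {F : (U → RZ) → V → RZ} {G : (V → RZ) → W → RZ} (hG : IsLinearMap (Lam ℤ) G)
    {D : U → ℕ} {D' : V → ℕ} (D'' : W → ℕ) (hF : ∀ v, Sp D v → Sp D' (F v)) :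
    matL F D D' * matL G D' D'' = matL (G ∘ F) D D'' := by
  funext a c
  have h1 := congrArg (IsLinearMap.mk' G hG) (qp1_expand (hF _ (qp1_sp_single a)))
  rw [map_sum] at h1
  simp only [map_smul, IsLinearMap.mk'_apply] at h1
  rw [Matrix.mul_apply]
  simp only [matL, Function.comp_apply]
  rw [h1, Finset.sum_apply, finsetSum_coeff]
  rfl

theorem esse_of_maps {B : Matrix V V RZ} {B' : Matrix W W RZ} {D : V → ℕ} {D' : W → ℕ}
    {F : (V → RZ) → W → RZ} {G : (W → RZ) → V → RZ} (hF : IsLinearMap (Lam ℤ) F)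
    (hG : IsLinearMap (Lam ℤ) G) (hFp : ∀ v, (∀ y, Pos (v y)) → ∀ y, Pos (F v y))
    (hGp : ∀ v, (∀ y, Pos (v y)) → ∀ y, Pos (G v y)) (hFs : ∀ v, Sp D v → Sp D' (F v))
    (hGs : ∀ v, Sp D' v → Sp D (G v)) (h₁ : ∀ v, Sp D v → G (F v) = Psi B v)
    (h₂ : ∀ v, Sp D' v → F (G v) = Psi B' v) : SSE (cmpn B D) (cmpn B' D') := by
  have h := SSE.of_mul (R := matL F D D') (S := matL G D' D)
    (fun a b => hFp _ (qp1_pos_single _ _) _ _) (fun a b => hGp _ (qp1_pos_single _ _) _ _)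
  rw [matL_comp hG D hFs, matL_comp hF D' hGs, matL_congr (F := G ∘ F) (G := Psi B) D h₁,
    matL_congr (F := F ∘ G) (G := Psi B') D' h₂] at h
  exact h

end Pool.Agent.Lib.MP_71aad1_an.SS
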