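import Pool.Agent.Lib.MP_71aad1_an.QP1
import Pool.Agent.Lib.MP_71aad1_an.QR1

set_option autoImplicit false

namespace Pool.Agent.Lib.MP_71aad1_an.SS

open Polynomial Matrix Finset Sum

/-! Independence of the depth; constant moves; adding and deleting states without entrance. -/

variable {U V W : Type} [Fintype U] [DecidableEq U] [Fintype V] [DecidableEq V] [Fintype W]
  [DecidableEq W]

theorem val_dp (B : Matrix V V RZ) : Val B fun _ => dp B := by
  intro x y
  exact Finset.le_sup (f := fun xy : V × V => (B xy.1 xy.2).natDegree) (mem_univ (x, y))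

theorem qp2_step {B : Matrix V V RZ} (h : Valid B) {D D' : V → ℕ} (hD : Val B D)
    (h1 : ∀ y, D y ≤ D' y) (h2 : ∀ y, D' y ≤ D y + 1) : SSE (cmpn B D) (cmpn B D') :=
  esse_of_maps (F := id) (G := Psi B) ⟨fun _ _ => rfl, fun _ _ => rfl⟩ (Psi_linear B)
    (fun _ hv => hv) (fun _ hv => Psi_pos h hv) (fun _ hv => hv.mono h1)
    (fun _ hv => Psi_sp hD (hv.mono h2)) (fun _ _ => rfl) (fun _ _ => rfl)

theorem qp2_up {B : Matrix V V RZ} (h : Valid B) (n : ℕ) : ∀ {D D' : V → ℕ}, Val B D →
    (∀ y, D y ≤ D' y) → (∀ y, D' y ≤ D y + n) → SSE (cmpn B D) (cmpn B D') := by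
  induction n with
  | zero => exact fun hD h1 h2 => qp2_step h hD h1 fun y => (h2 y).trans (by omega)
  | succ n ih =>
    intro D D' hD h1 h2
    have h3 : ∀ y, D y ≤ min (D y + 1) (D' y) := fun y => le_min (by omega) (h1 y)
    refine (qp2_step (D' := fun y => min (D y + 1) (D' y)) h hD h3 fun y => min_le_left _ _).trans
      (ih (fun x y => (hD x y).trans (h3 y)) (fun y => min_le_right _ _) fun y => ?_)
    have := h2 y
    omega

/-- If `D ≤ D' ≤ D + 1`, use `esse_of_maps` with `F = id`, `G = Psi B`. In general go up from both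
`D` and `D'` to a common constant bound `N` through `fun y => min (D y + n) N`. -/
theorem cmpn_depth {B : Matrix V V RZ} (h : Valid B) {D D' : V → ℕ} (hD : Val B D) (hD' : Val B D') :
    SSE (cmpn B D) (cmpn B D') := by
  have h1 : ∀ y, D y ≤ univ.sup D := fun y => Finset.le_sup (mem_univ y)
  have h2 : ∀ y, D' y ≤ univ.sup D' := fun y => Finset.le_sup (mem_univ y)
  refine (qp2_up h (univ.sup D') (D' := fun y => D y + D' y) hD (fun y => by omega)
    fun y => ?_).trans
    (qp2_up h (univ.sup D) (D' := fun y => D y + D' y) hD' (fun y => by omega) fun y => ?_).symm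
  · have := h2 y
    omega
  · have := h1 y
    omega

theorem sim_iff {B : Matrix V V RZ} {B' : Matrix W W RZ} (h : Valid B) (h' : Valid B') {D : V → ℕ}
    {D' : W → ℕ} (hD : Val B D) (hD' : Val B' D') : Sim B B' ↔ SSE (cmpn B D) (cmpn B' D') := by
  have a := cmpn_depth h (val_dp B) hD
  have b := cmpn_depth h' (val_dp B') hD'
  exact ⟨fun e => (a.symm.trans e).trans b, fun e => (a.trans e).trans b.symm⟩

theorem Sim.refl (B : Matrix V V RZ) : Sim B B := SSE.refl _
theorem Sim.symm {B : Matrix V V RZ} {B' : Matrix W W RZ} (h : Sim B B') : Sim B' B :=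
  SSE.symm h
theorem Sim.trans {A : Matrix U U RZ} {B : Matrix V V RZ} {C : Matrix W W RZ} (h : Sim A B)
    (h' : Sim B C) : Sim A C := SSE.trans h h'

omit [Fintype V] [DecidableEq V] in
theorem qp2_val_tM (A : Matrix V V (Lam ℤ)) : Val (tM A) fun _ => 1 := by
  intro x y
  change ((X : RZ) * C (A x y)).natDegree ≤ 1
  rw [mul_comm]
  exact (natDegree_C_mul_le _ _).trans natDegree_X_le

theorem qp2_sse_tM {A : Matrix V V (Lam ℤ)} (h : MLPos A) : SSE A (cmpn (tM A) fun _ => 1) := by
  have key : ∀ a : V, Psi (tM A) (Pi.single a 1) = fun y => C (A a y) := by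
    intro a
    refine Psi_unique (tM_pt h).valid (c := Pi.single a 1) ?_
    have e1 : (fun x => C ((Pi.single a 1 : V → Lam ℤ) x)) = (Pi.single a 1 : V → RZ) := by
      funext x
      by_cases hx : x = a
      · subst hx
        simp
      · simp [hx]
    rw [e1, vecMul_sub, vecMul_one, sub_sub_cancel, single_one_vecMul]
    rfl
  have e : (cmpn (tM A) fun _ => 1) =
      reindex (Equiv.sigmaUnique V fun _ => Fin 1).symm (Equiv.sigmaUnique V fun _ => Fin 1).symm A := by
    ext1 ⟨a, i⟩ ⟨b, j⟩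
    have hi : (i : ℕ) = 0 := by omega
    have hj : (j : ℕ) = 0 := by omega
    change (Psi (tM A) (Pi.single a (X ^ (i : ℕ))) b).coeff j = A a b
    rw [hi, hj, pow_zero, key, coeff_C_zero]
  rw [e]
  exact SSE.reindex h _

/-- With depth one the companion matrix of `tM A` is `A` reindexed. -/
theorem sim_tM {A : Matrix V V (Lam ℤ)} {A' : Matrix W W (Lam ℤ)} (h : MLPos A) (h' : MLPos A') :
    Sim (tM A) (tM A') ↔ SSE A A' := by
  rw [sim_iff (tM_pt h).valid (tM_pt h').valid (qp2_val_tM A) (qp2_val_tM A')]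
  have a := qp2_sse_tM h
  have b := qp2_sse_tM h'
  exact ⟨fun e => (a.trans e).trans b.symm, fun e => (a.symm.trans e).trans b⟩

omit [DecidableEq V] [Fintype W] [DecidableEq W] in
theorem qp2_C_vecMul (c : V → Lam ℤ) (K : Matrix V W (Lam ℤ)) :
    (fun x => (C (c x) : RZ)) ᵥ* K.map (C : Lam ℤ → RZ) = fun y => C ((c ᵥ* K) y) := by
  funext y
  simp only [vecMul, dotProduct, map_apply, map_sum, map_mul]

/-- `Psi B' = Psi B` by `Psi_unique`. -/
theorem sim_const {B B' : Matrix V V RZ} (h : Valid B) (h' : Valid B') (K : Matrix V V (Lam ℤ))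
    (e : 1 - B' = K.map (C : Lam ℤ → RZ) * (1 - B)) : Sim B B' := by
  have hP : Psi B = Psi B' := by
    funext v
    refine Psi_unique h (c := cres B' v ᵥ* K) ?_
    rw [Psi_spec h', e, ← vecMul_vecMul, qp2_C_vecMul]
  rw [sim_iff h h' (D := fun _ => max (dp B) (dp B')) (D' := fun _ => max (dp B) (dp B'))
    (fun x y => (val_dp B x y).trans (le_max_left _ _))
    (fun x y => (val_dp B' x y).trans (le_max_right _ _))]
  have e2 : (cmpn B' fun _ => max (dp B) (dp B')) = cmpn B fun _ => max (dp B) (dp B') := by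
    unfold cmpn
    rw [hP]
  rw [e2]
  exact SSE.refl _

/-- Depth `dp B'` on the range of `e` and `0` elsewhere; `esse_of_maps` with `F v = v ᵥ* embM RZ e`
and `G v = Psi B' v ∘ e`. -/
theorem sim_emb (e : V ↪ W) {B : Matrix V V RZ} {B' : Matrix W W RZ} (h' : Valid B')
    (hB : ∀ a b, B a b = B' (e a) (e b)) (h0 : ∀ x y, (∀ a, e a ≠ y) → B' x y = 0) : Sim B B' := by
  classical
  have h : Valid B := by
    obtain ⟨hp, rk, hrk⟩ := h'
    refine ⟨fun a b => by rw [hB]; exact hp _ _, fun a => rk (e a), fun a b hab => ?_⟩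
    rw [hB] at hab
    exact hrk _ _ hab
  obtain ⟨D', hD1, hD2⟩ : ∃ D' : W → ℕ, (∀ a, D' (e a) = dp B') ∧
      ∀ y, (∀ a, e a ≠ y) → D' y = 0 :=
    ⟨fun y => if ∃ a, e a = y then dp B' else 0, fun a => if_pos ⟨a, rfl⟩,
      fun y hy => if_neg fun ⟨a, ha⟩ => hy a ha⟩
  have hc : ∀ y, (∃ a, e a = y) ∨ ∀ a, e a ≠ y := fun y => by
    by_cases hy : ∃ a, e a = y
    · exact Or.inl hy
    · exact Or.inr fun a ha => hy ⟨a, ha⟩
  have hV : Val B fun _ => dp B' := fun a b => by
    rw [hB]
    exact val_dp B' _ _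
  have hV' : Val B' D' := fun x y => by
    rcases hc y with ⟨a, rfl⟩ | hy
    · rw [hD1]
      exact val_dp B' _ _
    · rw [h0 x y hy, natDegree_zero]
      exact Nat.zero_le _
  have hS : ∀ v, Sp D' v → Sp D' (Psi B' v) := fun v hv =>
    Psi_sp hV' (hv.mono fun y => Nat.le_succ _)
  have hM : (1 - B : Matrix V V RZ) * embM RZ e = embM RZ e * (1 - B' : Matrix W W RZ) := by
    ext1 a y
    have e1 : ((1 - B : Matrix V V RZ) * embM RZ e : Matrix V W RZ) a y =
        ((1 - B : Matrix V V RZ) a ᵥ* embM RZ e) y := rfl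
    have e2 : (embM RZ e * (1 - B' : Matrix W W RZ) : Matrix V W RZ) a y =
        (1 - B' : Matrix W W RZ) (e a) y := by
      simp [embM, mul_apply]
    rw [e1, e2]
    rcases hc y with ⟨b, rfl⟩ | hy
    · rw [vecMul_embM_apply]
      simp [one_apply, hB]
    · rw [vecMul_embM_of_not e _ hy, Matrix.sub_apply, h0 _ y hy, one_apply_ne (hy a), sub_zero]
  have hE : embM RZ e = (embM (Lam ℤ) e).map (C : Lam ℤ → RZ) := by
    ext1 a y
    simp only [embM, map_apply]
    split_ifs <;> simp
  have hP : ∀ v, Psi B' (v ᵥ* embM RZ e) = Psi B v ᵥ* embM RZ e := by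
    intro v
    refine Psi_unique h' (c := cres B v ᵥ* embM (Lam ℤ) e) ?_
    rw [← qp2_C_vecMul, ← hE, vecMul_vecMul, ← hM, ← vecMul_vecMul, ← sub_vecMul, ← Psi_spec h,
      smul_vecMul]
  rw [sim_iff h h' hV hV']
  refine esse_of_maps (F := fun v => v ᵥ* embM RZ e) (G := fun v => Psi B' v ∘ e)
    ⟨fun v w => add_vecMul _ _ _, fun c v => smul_vecMul _ _ _⟩
    ⟨fun v w => ?_, fun c v => ?_⟩ (fun v hv y => ?_) (fun v hv a => Psi_pos h' hv _)
    (fun v hv y => ?_) (fun v hv a => ?_) (fun v _ => ?_) (fun v hv => ?_)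
  · rw [(Psi_linear B').map_add]
    rfl
  · rw [(Psi_linear B').map_smul]
    rfl
  · rcases hc y with ⟨a, rfl⟩ | hy
    · rw [vecMul_embM_apply]
      exact hv a
    · rw [vecMul_embM_of_not e _ hy]
      exact Pos.zero
  · rcases hc y with ⟨a, rfl⟩ | hy
    · rw [vecMul_embM_apply, hD1]
      exact hv a
    · rw [vecMul_embM_of_not e _ hy, degree_zero]
      exact WithBot.bot_lt_coe _
  · have := hS v hv (e a)
    rw [hD1] at this
    exact this
  · funext a
    rw [hP, Function.comp_apply, vecMul_embM_apply]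
  · funext y
    rcases hc y with ⟨a, rfl⟩ | hy
    · rw [vecMul_embM_apply]
      rfl
    · rw [vecMul_embM_of_not e _ hy]
      have := hS v hv y
      rw [hD2 y hy] at this
      by_contra hne
      have h3 := zero_le_degree_iff.2 (Ne.symm hne)
      exact absurd this (not_lt.2 (by exact_mod_cast h3))

end Pool.Agent.Lib.MP_71aad1_an.SS
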