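import Pool.Agent.Lib.MP_71aad1_an.QP2

set_option autoImplicit false

namespace Pool.Agent.Lib.MP_71aad1_an.SS

open Polynomial Matrix Finset Sum

/-! Time shift at a state without a loop. -/

variable {V : Type} [Fintype V] [DecidableEq V]

/-- multiplication of the entry `a` by `t` -/
noncomputable def qp3_D (a : V) (v : V → RZ) : V → RZ := fun y => if y = a then X * v y else v y

/-- the map from vectors for `B'` to vectors for `B` -/
noncomputable def qp3_F (B' : Matrix V V RZ) (a : V) (v : V → RZ) : V → RZ := fun y =>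
  if y = a then divX (v y) else v y + C ((v a).coeff 0) * B' a y

omit [Fintype V] in
theorem qp3_D_linear (a : V) : IsLinearMap (Lam ℤ) (qp3_D a) := by
  constructor
  · intro v w
    funext y
    simp only [qp3_D, Pi.add_apply]
    split_ifs
    · rw [mul_add]
    · rfl
  · intro c v
    funext y
    simp only [qp3_D, Pi.smul_apply]
    split_ifs
    · rw [mul_smul_comm]
    · rfl

omit [Fintype V] in
theorem qp3_F_linear (B' : Matrix V V RZ) (a : V) : IsLinearMap (Lam ℤ) (qp3_F B' a) := by
  constructor
  · intro v w
    funext y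
    simp only [qp3_F, Pi.add_apply]
    split_ifs
    · rw [divX_add]
    · rw [coeff_add, C_add]
      ring
  · intro c v
    funext y
    simp only [qp3_F, Pi.smul_apply]
    split_ifs
    · ext1 n
      simp only [coeff_divX, coeff_smul]
    · rw [coeff_smul, smul_eq_mul, C_mul, smul_eq_C_mul, smul_eq_C_mul]
      ring

omit [Fintype V] in
theorem qp3_D_inj (a : V) {v w : V → RZ} (h : qp3_D a v = qp3_D a w) : v = w := by
  funext y
  have := congrFun h y
  simp only [qp3_D] at this
  split_ifs at this
  · ext1 n
    have h2 := congrArg (fun p => p.coeff (n + 1)) this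
    simpa only [coeff_X_mul] using h2
  · exact this

omit [Fintype V] in
theorem qp3_DF {B' : Matrix V V RZ} {a : V} (ha' : B' a a = 0) (v : V → RZ) (y : V) :
    qp3_D a (qp3_F B' a v) y = v y - C ((v a).coeff 0) * (1 - B') a y := by
  simp only [qp3_D, qp3_F, Matrix.sub_apply, Matrix.one_apply]
  by_cases hy : y = a
  · subst hy
    simp only [if_true, ha', sub_zero, mul_one]
    exact eq_sub_of_add_eq (X_mul_divX_add _)
  · simp only [if_neg hy, if_neg (Ne.symm hy)]
    ring

theorem qp3_vecMul_update (M : Matrix V V RZ) (c : V → Lam ℤ) (a : V) (d : Lam ℤ) (y : V) :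
    ((fun x => C (Function.update c a d x)) ᵥ* M) y =
      ((fun x => C (c x)) ᵥ* M) y + (C d - C (c a)) * M a y := by
  simp only [vecMul, dotProduct]
  rw [← Finset.add_sum_erase _ _ (Finset.mem_univ a), ← Finset.add_sum_erase _ _ (Finset.mem_univ a),
    Function.update_self, Finset.sum_congr rfl fun x hx => by
      rw [Function.update_of_ne (Finset.ne_of_mem_erase hx)]]
  ring

/-- One elementary equivalence (`esse_of_maps`, from `B'` to `B`, with a common constant depth).
Let `Dg = diagonal (t at a, 1 elsewhere)`, `M = 1 - B`, `M' = 1 - B'`, so `M Dg = Dg M'`.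
`F v' = ` the vector `v' - C ((v' a).coeff 0) • M' a` with its `a`-th entry divided by `t`
(`divX`), `G v = Psi B' (v ᵥ* Dg)`. Then `G (F v') = Psi B' v'` because the two arguments differ by a
constant multiple of a row of `M'` (`Psi_unique`). For `F (G v) = Psi B v` use `Psi_unique` for `B`:
the coefficient `c' = cres B' (v ᵥ* Dg)` has `c' a = 0`, since column `a` of `B'` and the entry
`(v ᵥ* Dg) a` have no constant term (read the constant term of `Psi_spec` at `a`). -/
theorem sim_shift {B B' : Matrix V V RZ} (h : Valid B) (h' : Valid B') (a : V) (ha : B a a = 0)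
    (ha' : B' a a = 0) (hc : ∀ x, x ≠ a → B' x a = X * B x a) (hr : ∀ y, y ≠ a → B a y = X * B' a y)
    (ho : ∀ x y, x ≠ a → y ≠ a → B' x y = B x y) : Sim B B' := by
  have hD : Val B fun _ => dp B + dp B' := fun x y => (val_dp B x y).trans (Nat.le_add_right _ _)
  have hD' : Val B' fun _ => dp B + dp B' := fun x y => (val_dp B' x y).trans (Nat.le_add_left _ _)
  have key : ∀ x y, qp3_D a ((1 - B) x) y = if x = a then X * (1 - B') x y else (1 - B') x y := by
    intro x y
    simp only [qp3_D, Matrix.sub_apply, Matrix.one_apply]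
    by_cases hx : x = a <;> by_cases hy : y = a
    · subst hx; subst hy; simp [ha, ha']
    · subst hx
      rw [if_neg hy, if_pos rfl, if_neg (Ne.symm hy), hr y hy]
      ring
    · subst hy
      rw [if_pos rfl, if_neg hx, if_neg hx, hc x hx]
      ring
    · simp [hx, hy, ho x y hx hy]
  refine (sim_iff h h' hD hD').2 (SSE.symm ?_)
  refine esse_of_maps (F := qp3_F B' a) (G := fun v => Psi B' (qp3_D a v)) (qp3_F_linear B' a)
    ⟨fun v w => ?_, fun c v => ?_⟩ (fun v hv y => ?_) (fun v hv y => ?_) (fun v hv y => ?_)
    (fun v hv => ?_) (fun v _ => ?_) (fun v _ => ?_)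
  · rw [(qp3_D_linear a).map_add, (Psi_linear B').map_add]
  · rw [(qp3_D_linear a).map_smul, (Psi_linear B').map_smul]
  · simp only [qp3_F]
    split_ifs
    · exact (hv y).divX
    · exact (hv y).add ((Pos.C (hv a 0)).mul (h'.1 a y))
  · refine Psi_pos h' (fun z => ?_) y
    simp only [qp3_D]
    split_ifs
    · exact Pos.X.mul (hv z)
    · exact hv z
  · have hv' := fun z => (degree_lt_iff_coeff_zero _ _).1 (hv z)
    refine (degree_lt_iff_coeff_zero _ _).2 fun m hm => ?_
    simp only [qp3_F]
    split_ifs with hy
    · rw [coeff_divX]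
      exact hv' y _ (Nat.le_succ_of_le hm)
    · have h1 : (B' a y).coeff m = 0 := by
        rw [← coeff_X_mul, ← hr y hy]
        exact coeff_eq_zero_of_natDegree_lt (Nat.lt_succ_of_le ((hD a y).trans hm))
      rw [coeff_add, coeff_C_mul, h1, hv' y m hm, mul_zero, add_zero]
  · refine Psi_sp hD' fun y => ?_
    have hv' := fun z => (degree_lt_iff_coeff_zero _ _).1 (hv z)
    refine (degree_lt_iff_coeff_zero _ _).2 fun m hm => ?_
    have hm' : dp B + dp B' + 1 ≤ m := hm
    simp only [qp3_D]
    split_ifs with hy
    · obtain ⟨k, rfl⟩ : ∃ k, m = k + 1 := ⟨m - 1, by omega⟩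
      rw [coeff_X_mul]
      exact hv' y k (Nat.le_of_succ_le_succ hm')
    · exact hv' y m (Nat.le_of_succ_le hm')
  · refine Psi_unique h' (c := Function.update (cres B' v) a (cres B' v a - (v a).coeff 0)) ?_
    funext y
    rw [Psi_spec h', Pi.sub_apply, Pi.sub_apply, qp3_vecMul_update, qp3_DF ha', C_sub]
    ring
  · symm
    set u := qp3_D a v with hu
    set w := Psi B' u with hw
    have hs := Psi_spec h' u
    rw [← hw] at hs
    have hca : cres B' u a = 0 := by
      have h1 := congrArg (fun p => p.coeff 0) (congrFun hs a)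
      simp only [Pi.smul_apply, smul_eq_mul, coeff_X_mul_zero, Pi.sub_apply, coeff_sub, vecMul,
        dotProduct, finsetSum_coeff, coeff_C_mul] at h1
      rw [Finset.sum_eq_single a] at h1
      · simpa [hu, qp3_D, ha', coeff_X_mul_zero] using h1
      · intro x _ hx
        simp [Matrix.one_apply_ne hx, hc x hx]
      · simp
    refine Psi_unique h (c := Function.update (cres B' u) a ((w a).coeff 0)) (qp3_D_inj a ?_)
    funext y
    have e1 : qp3_D a ((X : RZ) • qp3_F B' a w) y = X * qp3_D a (qp3_F B' a w) y := by
      simp only [qp3_D, Pi.smul_apply, smul_eq_mul]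
      split_ifs <;> rfl
    have e2 : ∀ c : V → Lam ℤ, qp3_D a (v - (fun x => C (c x)) ᵥ* (1 - B)) y =
        u y - ∑ x, C (c x) * qp3_D a ((1 - B) x) y := by
      intro c
      simp only [hu, qp3_D, Pi.sub_apply, vecMul, dotProduct]
      split_ifs
      · rw [mul_sub, Finset.mul_sum]
        congr 1
        exact Finset.sum_congr rfl fun x _ => by ring
      · rfl
    have e3 := congrFun hs y
    simp only [Pi.smul_apply, smul_eq_mul, Pi.sub_apply, vecMul, dotProduct] at e3
    have e4 : ∑ x ∈ univ.erase a, C (Function.update (cres B' u) a ((w a).coeff 0) x) *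
        qp3_D a ((1 - B) x) y = ∑ x ∈ univ.erase a, C (cres B' u x) * (1 - B') x y :=
      Finset.sum_congr rfl fun x hx => by
        rw [Function.update_of_ne (Finset.ne_of_mem_erase hx), key,
          if_neg (Finset.ne_of_mem_erase hx)]
    rw [e1, e2, qp3_DF ha', mul_sub, e3, ← Finset.add_sum_erase _ _ (Finset.mem_univ a),
      ← Finset.add_sum_erase _ _ (Finset.mem_univ a), hca, Function.update_self, key, if_pos rfl,
      e4, map_zero]
    ring

end Pool.Agent.Lib.MP_71aad1_an.SS
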