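import Pool.Agent.Lib.MP_71aad1_an.QP3

set_option autoImplicit false

namespace Pool.Agent.Lib.MP_71aad1_an.SS

open Polynomial Matrix Finset Sum

/-! Expanding monomials of one row through the other rows. -/

variable {V : Type} [Fintype V] [DecidableEq V]

theorem qp4_row {W : Type} [Fintype W] [DecidableEq W] {B B' : Matrix W W RZ} (h : Valid B)
    (h' : Valid B') (a b : W) (c : Lam ℤ) (hr : ∀ x y, x ≠ a → B' x y = B x y)
    (ha : ∀ y, B' a y = B a y - C c * (1 - B) b y) : Sim B B' := by
  refine sim_const h h' (1 + single a b c) ?_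
  have h1 : (1 + single a b c : Matrix W W (Lam ℤ)).map (C : Lam ℤ → RZ) =
      1 + single a b (C c) := by
    refine Matrix.ext fun x y => ?_
    simp only [map_apply, Matrix.add_apply, one_apply, single_apply, map_add]
    split_ifs <;> simp
  rw [h1, Matrix.add_mul, Matrix.one_mul]
  refine Matrix.ext fun x y => ?_
  by_cases hx : x = a
  · subst hx
    rw [Matrix.add_apply, single_mul_apply_same, Matrix.sub_apply, ha, Matrix.sub_apply 1 B x y]
    ring
  · rw [Matrix.add_apply, single_mul_apply_of_ne _ _ _ _ _ hx, add_zero, Matrix.sub_apply,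
      Matrix.sub_apply, hr x y hx]

theorem qp4_coeff {p q : RZ} (hp : Pos p) (h : Pos (q - p)) (h0 : p.coeff 0 ≠ 0) :
    q.coeff 0 ≠ 0 := by
  intro hq
  refine h0 ((hp 0).eq_zero_of_add (h 0) ?_)
  rw [coeff_sub, hq]
  ring

theorem qp4_entry (B : Matrix V V RZ) (i : V) (c : V → RZ) (y : V) :
    (B i - c ᵥ* (1 - B) : V → RZ) y = B i y - c y + ∑ x, c x * B x y := by
  rw [vecMul_sub, vecMul_one]
  simp only [Pi.sub_apply, vecMul, dotProduct]
  ring

theorem qp4_exp_pos {B : Matrix V V RZ} {rk : V → ℕ} (hp : MPos B) (hrk : RkOk rk B) {i : V}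
    {c : V → RZ} (h0 : ∀ j, Pos (c j)) (h1 : ∀ j, Pos (B i j - c j)) :
    MPos (B.updateRow i (B i - c ᵥ* (1 - B))) ∧ RkOk rk (B.updateRow i (B i - c ᵥ* (1 - B))) := by
  constructor
  · intro x y
    by_cases hx : x = i
    · rw [hx, updateRow_self, qp4_entry]
      exact (h1 y).add (Pos.sum _ fun x _ => (h0 x).mul (hp x y))
    · rw [updateRow_ne hx]
      exact hp x y
  · intro x y hxy
    by_cases hx : x = i
    · rw [hx, updateRow_self, qp4_entry, coeff_add] at hxy
      rw [hx]
      by_cases h2 : (B i y - c y).coeff 0 = 0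
      · rw [h2, zero_add, finsetSum_coeff] at hxy
        obtain ⟨z, -, hz⟩ := Finset.exists_ne_zero_of_sum_ne_zero hxy
        rw [mul_coeff_zero] at hz
        exact (hrk z y (right_ne_zero_of_mul hz)).trans
          (hrk i z (qp4_coeff (h0 z) (h1 z) (left_ne_zero_of_mul hz)))
      · exact hrk i y (qp4_coeff (h1 y) (by simpa using h0 y) h2)
    · rw [updateRow_ne hx] at hxy
      exact hrk x y hxy

/-- The matrix with one new state. -/
noncomputable def qp4_E (A : Matrix V V RZ) (i : V) (p : RZ) (u : V → RZ) :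
    Matrix (Option V) (Option V) RZ :=
  fun x y => x.elim (y.elim 0 u) fun x => y.elim (if x = i then p else 0) (A x)

theorem qp4_valid {A : Matrix V V RZ} {rk : V → ℕ} (hp : MPos A) (hrk : RkOk rk A) (i : V) {p : RZ}
    {u : V → RZ} (h1 : Pos p) (h2 : ∀ y, Pos (u y)) (h3 : X ∣ p ∨ ∀ y, X ∣ u y) :
    Valid (qp4_E A i p u) := by
  constructor
  · rintro (_ | x) (_ | y)
    · exact Pos.zero
    · exact h2 y
    · change Pos (if x = i then p else 0)
      split_ifs
      · exact h1
      · exact Pos.zero
    · exact hp x y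
  · rcases h3 with h3 | h3
    · refine ⟨fun x => x.elim (univ.sup rk + 1) rk, ?_⟩
      rintro (_ | x) (_ | y) h
      · exact absurd (coeff_zero 0) h
      · exact Nat.lt_succ_of_le (Finset.le_sup (f := rk) (mem_univ y))
      · refine absurd ?_ h
        change (if x = i then p else 0).coeff 0 = 0
        split_ifs
        · exact X_dvd_iff.1 h3
        · exact coeff_zero 0
      · exact hrk x y h
    · refine ⟨fun x => x.elim 0 fun x => rk x + 1, ?_⟩
      rintro (_ | x) (_ | y) h
      · exact absurd (coeff_zero 0) h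
      · exact absurd (X_dvd_iff.1 (h3 y)) h
      · exact Nat.succ_pos _
      · exact Nat.succ_lt_succ (hrk x y h)

theorem qp4_collapse {A : Matrix V V RZ} {rk : V → ℕ} (hp : MPos A) (hrk : RkOk rk A) (i : V)
    {u : V → RZ} (h2 : ∀ y, Pos (u y)) (h3 : ∀ y, X ∣ u y) :
    Sim (A.updateRow i (A i + u)) (qp4_E A i 1 u) := by
  have hp' : MPos (A.updateRow i (A i + u)) := by
    intro x y
    by_cases hx : x = i
    · rw [hx, updateRow_self]
      exact (hp i y).add (h2 y)
    · rw [updateRow_ne hx]
      exact hp x y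
  have hrk' : RkOk rk (A.updateRow i (A i + u)) := by
    intro x y hxy
    by_cases hx : x = i
    · rw [hx, updateRow_self, Pi.add_apply, coeff_add, X_dvd_iff.1 (h3 y), add_zero] at hxy
      rw [hx]
      exact hrk i y hxy
    · rw [updateRow_ne hx] at hxy
      exact hrk x y hxy
  have hv := qp4_valid hp' hrk' i Pos.zero h2 (Or.inr h3)
  refine (sim_emb Function.Embedding.some hv (fun a b => rfl) ?_).trans
    (qp4_row hv (qp4_valid hp hrk i Pos.one h2 (Or.inr h3)) (some i) none (-1) ?_ ?_)
  · rintro x (_ | y) hy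
    · rcases x with _ | x
      · rfl
      · exact ite_self _
    · exact absurd rfl (hy y)
  · rintro (_ | x) (_ | y) hx
    · rfl
    · rfl
    · have h4 : x ≠ i := fun h => hx (congrArg some h)
      simp [qp4_E, h4]
    · have h4 : x ≠ i := fun h => hx (congrArg some h)
      simp [qp4_E, updateRow_ne h4]
  · rintro (_ | y)
    · simp [qp4_E]
    · simp [qp4_E]
      ring

theorem qp4_shift {A : Matrix V V RZ} {rk : V → ℕ} (hp : MPos A) (hrk : RkOk rk A) (i : V)
    {u : V → RZ} (h2 : ∀ y, Pos (u y)) (k l : ℕ) :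
    Sim (qp4_E A i (X ^ l) fun y => X ^ k * u y) (qp4_E A i (X ^ (l + k)) u) := by
  induction k generalizing l with
  | zero => simpa using Sim.refl _
  | succ k ih =>
    refine Sim.trans ?_ (by rw [← add_assoc, add_right_comm]; exact ih (l + 1))
    refine sim_shift (qp4_valid hp hrk i (Pos.X_pow l) (fun y => (Pos.X_pow _).mul (h2 y))
      (Or.inr fun y => (dvd_pow_self _ k.succ_ne_zero).mul_right _))
      (qp4_valid hp hrk i (Pos.X_pow _) (fun y => (Pos.X_pow _).mul (h2 y))
      (Or.inl (dvd_pow_self _ l.succ_ne_zero))) none rfl rfl ?_ ?_ ?_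
    · rintro (_ | x) hx
      · exact absurd rfl hx
      · simp only [qp4_E, Option.elim]
        split_ifs
        · rw [pow_succ']
        · rw [mul_zero]
    · rintro (_ | y) hy
      · exact absurd rfl hy
      · simp only [qp4_E, Option.elim]
        rw [pow_succ', mul_assoc]
    · rintro (_ | x) (_ | y) hx hy
      · rfl
      · exact absurd rfl hx
      · exact absurd rfl hy
      · rfl

omit [Fintype V] in
theorem qp4_single {j : V} {m : RZ} (hm : Pos m) (y : V) : Pos ((Pi.single j m : V → RZ) y) := by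
  by_cases hy : y = j
  · rw [hy, Pi.single_eq_same]
    exact hm
  · rw [Pi.single_eq_of_ne hy]
    exact Pos.zero

/-- Let `m = γ t ^ k`. For `k = 0` use `sim_const`. For `k ≥ 1` add a new state `none` on
`Option V` with row `m e_j` (`sim_emb`), replace `m e_j` by `e_none` in row `i` (`sim_const`, ranks
`2 rk + 2` on old states except that only the relation `none < i` is needed: the new row has no
constant term, so give `none` the rank `0` and the old states `rk + 1`), shift `k` times
(`sim_shift`; column `none` is `t ^ l` in row `i` only, row `none` is `t ^ (k - l) γ v`; for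
`l ≥ 1` give `none` the largest rank), with `v = e_j`; change `v` to `B j` (`sim_const`), shift
back `k` times, expand `e_none` in row `i` (`sim_const`) and delete `none`. It is convenient to prove
the `k` shifts for a general nonnegative `v`. -/
theorem sim_exp_mono {B : Matrix V V RZ} {rk : V → ℕ} (hp : MPos B) (hrk : RkOk rk B) {i j : V}
    (hij : j ≠ i) {k : ℕ} {m : RZ} (hm : PM k m) (h : Pos (B i j - m)) :
    Sim B (B.updateRow i (B i - m • (1 - B) j)) := by
  obtain ⟨γ, hγ, rfl⟩ : ∃ γ : Lam ℤ, LPos γ ∧ m = X ^ k * C γ := by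
    rcases hm with rfl | rfl
    · exact ⟨1, LPos.one, by simp⟩
    · exact ⟨gL, LPos.gL, mul_comm _ _⟩
  have hγ' : Pos (C γ) := Pos.C hγ
  have hle : ∀ y, Pos (B i y - (Pi.single j (X ^ k * C γ) : V → RZ) y) := by
    intro y
    by_cases hy : y = j
    · rw [hy, Pi.single_eq_same]
      exact h
    · rw [Pi.single_eq_of_ne hy, sub_zero]
      exact hp i y
  rcases Nat.eq_zero_or_pos k with rfl | hk
  · have h1 := qp4_exp_pos hp hrk (i := i) (qp4_single (j := j) hm.pos) hle
    rw [single_vecMul] at h1
    refine qp4_row ⟨hp, rk, hrk⟩ ⟨h1.1, rk, h1.2⟩ i j γ (fun x y hx => ?_) fun y => ?_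
    · rw [updateRow_ne hx]
    · simp
  obtain ⟨A, hA⟩ : ∃ A, A = B.updateRow i (B i - Pi.single j (X ^ k * C γ)) := ⟨_, rfl⟩
  have hAi : A i = B i - Pi.single j (X ^ k * C γ) := by rw [hA, updateRow_self]
  have hAj : A j = B j := by rw [hA, updateRow_ne hij]
  have hpA : MPos A := by
    intro x y
    by_cases hx : x = i
    · rw [hx, hAi]
      exact hle y
    · rw [hA, updateRow_ne hx]
      exact hp x y
  have hrkA : RkOk rk A := by
    intro x y hxy
    by_cases hx : x = i
    · rw [hx, hAi] at hxy
      rw [hx]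
      exact hrk i y (qp4_coeff (hle y) (by simpa using qp4_single (j := j) hm.pos y) hxy)
    · rw [hA, updateRow_ne hx] at hxy
      exact hrk x y hxy
  have hX : (X : RZ) ∣ X ^ k := dvd_pow_self _ hk.ne'
  have key : ∀ u : V → RZ, (∀ y, Pos (u y)) →
      Sim (A.updateRow i (A i + fun y => X ^ k * u y)) (qp4_E A i (X ^ k) u) := by
    intro u hu
    have h1 := qp4_shift hpA hrkA i hu k 0
    rw [pow_zero, zero_add] at h1
    exact (qp4_collapse hpA hrkA i (fun y => (Pos.X_pow k).mul (hu y))
      fun y => hX.mul_right _).trans h1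
  have hu1 := qp4_single (j := j) hγ'
  have hu2 : ∀ y, Pos (C γ * B j y) := fun y => hγ'.mul (hp j y)
  have e1 : A.updateRow i (A i + fun y => X ^ k * (Pi.single j (C γ) : V → RZ) y) = B := by
    rw [hAi, hA, updateRow_idem]
    refine Eq.trans (congrArg _ (funext fun y => ?_)) (updateRow_eq_self B i)
    simp only [Pi.add_apply, Pi.sub_apply, Pi.single_apply]
    split_ifs <;> ring
  have e2 : A.updateRow i (A i + fun y => X ^ k * (C γ * B j y)) =
      B.updateRow i (B i - (X ^ k * C γ) • (1 - B) j) := by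
    rw [hAi, hA, updateRow_idem]
    refine congrArg _ (funext fun y => ?_)
    simp only [Pi.add_apply, Pi.sub_apply, Pi.single_apply, Pi.smul_apply, Matrix.sub_apply,
      one_apply, smul_eq_mul, eq_comm (a := j)]
    split_ifs <;> ring
  have k1 := key _ hu1
  have k2 := key _ hu2
  rw [e1] at k1
  rw [e2] at k2
  refine (k1.trans ?_).trans k2.symm
  refine qp4_row (qp4_valid hpA hrkA i (Pos.X_pow k) hu1 (Or.inl hX))
    (qp4_valid hpA hrkA i (Pos.X_pow k) hu2 (Or.inl hX)) none (some j) γ ?_ ?_
  · rintro (_ | x) y hx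
    · exact absurd rfl hx
    · rfl
  · rintro (_ | y)
    · simp [qp4_E, hij]
    · simp only [qp4_E, Option.elim, Matrix.sub_apply, one_apply, Option.some.injEq,
        Pi.single_apply, hAj, eq_comm (a := j)]
      split_ifs <;> ring

theorem exp_pos {B : Matrix V V RZ} {rk : V → ℕ} (hp : MPos B) (hrk : RkOk rk B) {i : V}
    {c : V → RZ} (h0 : ∀ j, Pos (c j)) (h1 : ∀ j, Pos (B i j - c j)) :
    MPos (B.updateRow i (B i - c ᵥ* (1 - B))) ∧ RkOk rk (B.updateRow i (B i - c ᵥ* (1 - B))) :=
  qp4_exp_pos hp hrk h0 h1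

/-- Induction over the unit monomials of `c` (`Pos.induction` for each entry, or induction on
`∑ j, ev 1 (c j)`); the rows `j ≠ i` do not change. -/
theorem sim_exp {B : Matrix V V RZ} {rk : V → ℕ} (hp : MPos B) (hrk : RkOk rk B) {i : V}
    {c : V → RZ} (hi : c i = 0) (h0 : ∀ j, Pos (c j)) (h1 : ∀ j, Pos (B i j - c j)) :
    Sim B (B.updateRow i (B i - c ᵥ* (1 - B))) := by
  obtain ⟨n, hn⟩ := exists_nat_gt (∑ j, ev 1 (c j))
  induction n generalizing c with
  | zero =>
    exact absurd (Finset.sum_nonneg fun j _ => ev_nonneg zero_le_one (h0 j))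
      (not_le.2 (by simpa using hn))
  | succ n ih =>
    by_cases hc : c = 0
    · rw [hc, zero_vecMul, sub_zero, updateRow_eq_self]
      exact Sim.refl B
    obtain ⟨j, hj⟩ := Function.ne_iff.1 hc
    obtain ⟨l, hl⟩ : ∃ l, (c j).coeff l ≠ 0 := by
      by_contra h2
      push Not at h2
      exact hj (Polynomial.ext fun l => by simpa using h2 l)
    obtain ⟨m, hm, hm'⟩ := (h0 j).exists_PM hl
    have hij : j ≠ i := fun h => hj (by rw [h, hi]; rfl)
    obtain ⟨c', hc'⟩ : ∃ c' : V → RZ, c' = c - Pi.single j m := ⟨_, rfl⟩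
    have k0 : ∀ y, Pos (c' y) := by
      intro y
      rw [hc', Pi.sub_apply]
      by_cases hy : y = j
      · rw [hy, Pi.single_eq_same]
        exact hm'
      · rw [Pi.single_eq_of_ne hy, sub_zero]
        exact h0 y
    have k1 : ∀ y, Pos (B i y - c' y) := by
      intro y
      have h2 := (h1 y).add (qp4_single (j := j) hm.pos y)
      rw [hc', Pi.sub_apply]
      convert h2 using 1
      ring
    have k2 : c' i = 0 := by rw [hc', Pi.sub_apply, hi, Pi.single_eq_of_ne hij.symm, sub_zero]
    have k3 : ∑ y, ev 1 (c' y) < n := by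
      have h2 : ∑ y, ev 1 ((Pi.single j m : V → RZ) y) = 1 := by
        rw [← map_sum, Finset.sum_pi_single', if_pos (mem_univ j), hm.ev, one_pow]
      simp only [hc', Pi.sub_apply, map_sub, Finset.sum_sub_distrib, h2]
      push_cast at hn
      linarith
    obtain ⟨k4, k5⟩ := qp4_exp_pos hp hrk k0 k1
    have k6 := sim_exp_mono k4 k5 (i := i) hij hm (by
      rw [updateRow_self, qp4_entry]
      have h2 := (h1 j).add (Pos.sum univ fun x _ => (k0 x).mul (hp x j))
      convert h2 using 1
      rw [hc', Pi.sub_apply, Pi.single_eq_same]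
      ring)
    refine (ih k2 k0 k1 k3).trans ?_
    convert k6 using 1
    rw [updateRow_idem, updateRow_self]
    refine congrArg _ (funext fun y => ?_)
    have h2 : c = c' + Pi.single j m := by rw [hc', sub_add_cancel]
    conv_lhs => rw [h2, add_vecMul, single_vecMul]
    simp only [Pi.sub_apply, Pi.add_apply, Pi.smul_apply, Matrix.sub_apply, updateRow_ne hij,
      Matrix.row]
    ring

end Pool.Agent.Lib.MP_71aad1_an.SS
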