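import Pool.Agent.Lib.MP_71aad1_an.QP4

set_option autoImplicit false

namespace Pool.Agent.Lib.MP_71aad1_an.SS

open Polynomial Matrix Finset Sum

/-! The row move: a row may be replaced by any positive row congruent modulo the other rows. -/

variable {V : Type} [Fintype V] [DecidableEq V]

theorem qp5_vecMul_upd (B : Matrix V V RZ) {i : V} (v : V → RZ) {c : V → RZ} (hi : c i = 0) :
    c ᵥ* (1 - B.updateRow i v) = c ᵥ* (1 - B) := by
  funext y
  simp only [vecMul, dotProduct]
  refine Finset.sum_congr rfl fun x _ => ?_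
  by_cases hx : x = i
  · rw [hx, hi, zero_mul, zero_mul]
  · rw [Matrix.sub_apply, Matrix.sub_apply, updateRow_ne hx]

theorem qp5_apply (B : Matrix V V RZ) (c : V → RZ) (j : V) :
    (c ᵥ* (1 - B)) j = c j - ∑ x, c x * B x j := by
  rw [vecMul_sub, vecMul_one, Pi.sub_apply]
  rfl

theorem qp5_coeff {p : RZ} {l : ℕ} (h : X ^ l ∣ p) (q : RZ) :
    (p * q).coeff l = p.coeff l * q.coeff 0 := by
  obtain ⟨r, rfl⟩ := h
  have h1 := coeff_X_pow_mul (r * q) l 0
  have h2 := coeff_X_pow_mul r l 0
  rw [zero_add] at h1 h2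
  rw [mul_assoc, h1, h2, mul_coeff_zero]

theorem qp5_upd2 (B : Matrix V V RZ) {i : V} (c : V → RZ) {c' : V → RZ} (hi : c' i = 0) :
    (B.updateRow i (B i - c ᵥ* (1 - B))) i - c' ᵥ* (1 - B.updateRow i (B i - c ᵥ* (1 - B))) =
      B i - (c + c') ᵥ* (1 - B) := by
  rw [qp5_vecMul_upd B _ hi, updateRow_self, add_vecMul, sub_sub]

theorem qp5_step {B : Matrix V V RZ} {rk : V → ℕ} (hp : MPos B) (hrk : RkOk rk B) (i : V)
    (L N k : ℕ) (h1 : ∀ j, j ≠ i → X ^ L ∣ B i j)
    (h2 : ∀ j, j ≠ i → (B i j).coeff L ≠ 0 → rk j + k < N) :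
    ∃ c : V → RZ, c i = 0 ∧ (∀ j, (c j).degree < (L + 1 : ℕ)) ∧
      MPos (B.updateRow i (B i - c ᵥ* (1 - B))) ∧ RkOk rk (B.updateRow i (B i - c ᵥ* (1 - B))) ∧
      (∀ j, j ≠ i → X ^ L ∣ (B i - c ᵥ* (1 - B) : V → RZ) j) ∧
      (∀ j, j ≠ i → ((B i - c ᵥ* (1 - B) : V → RZ) j).coeff L ≠ 0 → rk j + (k + 1) < N) ∧
      Sim B (B.updateRow i (B i - c ᵥ* (1 - B))) := by
  set c : V → RZ := fun j => if j = i then 0 else monomial L ((B i j).coeff L) with hc
  have hi : c i = 0 := by simp [hc]
  have hne : ∀ j, j ≠ i → c j = monomial L ((B i j).coeff L) := fun j hj => by simp [hc, hj]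
  have hd : ∀ j, X ^ L ∣ c j := fun j => by
    by_cases hj : j = i
    · rw [hj, hi]
      exact dvd_zero _
    · rw [hne j hj, ← C_mul_X_pow_eq_monomial]
      exact dvd_mul_left _ _
  have h0 : ∀ j, Pos (c j) := fun j => by
    by_cases hj : j = i
    · rw [hj, hi]
      exact Pos.zero
    · rw [hne j hj, ← C_mul_X_pow_eq_monomial]
      exact (Pos.C (hp i j L)).mul (Pos.X_pow L)
  have h3 : ∀ j, Pos (B i j - c j) := fun j => by
    by_cases hj : j = i
    · rw [hj, hi, sub_zero]
      exact hp i i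
    · intro n
      rw [hne j hj, coeff_sub, coeff_monomial]
      split_ifs with hn
      · rw [hn, sub_self]
        exact LPos.zero
      · rw [sub_zero]
        exact hp i j n
  obtain ⟨h4, h5⟩ := exp_pos hp hrk h0 h3
  refine ⟨c, hi, fun j => ?_, h4, h5, fun j hj => ?_, fun j hj hn => ?_, sim_exp hp hrk hi h0 h3⟩
  · by_cases hj : j = i
    · rw [hj, hi, degree_zero]
      exact WithBot.bot_lt_coe _
    · rw [hne j hj]
      refine (degree_monomial_le _ _).trans_lt ?_
      exact_mod_cast Nat.lt_succ_self L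
  · exact dvd_sub (h1 j hj) (dvd_vecMul hd _ j)
  · rw [Pi.sub_apply, qp5_apply, coeff_sub, coeff_sub, hne j hj, coeff_monomial, if_pos rfl,
      sub_sub_cancel, finsetSum_coeff] at hn
    obtain ⟨x, -, hx⟩ := Finset.exists_ne_zero_of_sum_ne_zero hn
    rw [qp5_coeff (hd x)] at hx
    have hx1 := left_ne_zero_of_mul hx
    have hx2 := hrk x j (right_ne_zero_of_mul hx)
    have hxi : x ≠ i := by
      rintro rfl
      rw [hi, coeff_zero] at hx1
      exact hx1 rfl
    rw [hne x hxi, coeff_monomial, if_pos rfl] at hx1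
    have := h2 x hxi hx1
    omega

/-- Induction on `L`; at level `L` expand the coefficients of `t ^ L` at the states `j ≠ i` with
`sim_exp`, by descending induction on a bound for the rank of the states where such a coefficient
is nonzero. -/
theorem exists_frontier {B : Matrix V V RZ} {rk : V → ℕ} (hp : MPos B) (hrk : RkOk rk B) (i : V)
    (L : ℕ) : ∃ c : V → RZ, c i = 0 ∧ (∀ j, (c j).degree < L) ∧
      MPos (B.updateRow i (B i - c ᵥ* (1 - B))) ∧ RkOk rk (B.updateRow i (B i - c ᵥ* (1 - B))) ∧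
      (∀ j, j ≠ i → X ^ L ∣ (B i - c ᵥ* (1 - B) : V → RZ) j) ∧
      Sim B (B.updateRow i (B i - c ᵥ* (1 - B))) := by
  induction L with
  | zero =>
    have e : B.updateRow i (B i - (0 : V → RZ) ᵥ* (1 - B)) = B := by
      rw [zero_vecMul, sub_zero, updateRow_eq_self]
    refine ⟨0, rfl, fun j => ?_, ?_, ?_, fun j _ => ?_, ?_⟩
    · rw [Pi.zero_apply, degree_zero]
      exact WithBot.bot_lt_coe _
    · rwa [e]
    · rwa [e]
    · rw [pow_zero]
      exact one_dvd _
    · rw [e]
      exact Sim.refl B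
  | succ L ih =>
    have key : ∀ k, ∃ c : V → RZ, c i = 0 ∧ (∀ j, (c j).degree < (L + 1 : ℕ)) ∧
        MPos (B.updateRow i (B i - c ᵥ* (1 - B))) ∧
        RkOk rk (B.updateRow i (B i - c ᵥ* (1 - B))) ∧
        (∀ j, j ≠ i → X ^ L ∣ (B i - c ᵥ* (1 - B) : V → RZ) j) ∧
        (∀ j, j ≠ i → ((B i - c ᵥ* (1 - B) : V → RZ) j).coeff L ≠ 0 →
          rk j + k < univ.sup rk + 1) ∧
        Sim B (B.updateRow i (B i - c ᵥ* (1 - B))) := by
      intro k
      induction k with
      | zero =>
        obtain ⟨c, h1, h2, h3, h4, h5, h6⟩ := ih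
        refine ⟨c, h1, fun j => (h2 j).trans ?_, h3, h4, h5, fun j _ _ => ?_, h6⟩
        · exact_mod_cast Nat.lt_succ_self L
        · have := Finset.le_sup (f := rk) (mem_univ j)
          omega
      | succ k ihk =>
        obtain ⟨c, h1, h2, h3, h4, h5, h6, h7⟩ := ihk
        obtain ⟨c', g1, g2, g3, g4, g5, g6, g7⟩ := qp5_step h3 h4 i L (univ.sup rk + 1) k
          (by rwa [updateRow_self]) (by rwa [updateRow_self])
        rw [qp5_upd2 B c g1] at g3 g4 g5 g6 g7
        rw [updateRow_idem] at g3 g4 g7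
        refine ⟨c + c', by rw [Pi.add_apply, h1, g1, add_zero], fun j => ?_, g3, g4, g5, g6,
          h7.trans g7⟩
        exact (degree_add_le _ _).trans_lt (max_lt (h2 j) (g2 j))
    obtain ⟨c, h1, h2, h3, h4, h5, h6, h7⟩ := key (univ.sup rk + 1)
    refine ⟨c, h1, h2, h3, h4, fun j hj => X_pow_dvd_iff.2 fun d hd => ?_, h7⟩
    rcases Nat.lt_succ_iff_lt_or_eq.1 hd with hd | rfl
    · exact X_pow_dvd_iff.1 (h5 j hj) d hd
    · by_contra hn
      have := h6 j hj hn
      omega

/-- Look at the lowest degree `l < L` in which `e` has a nonzero coefficient and at a state of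
maximal rank among those where it is nonzero. -/
theorem frontier_unique {B : Matrix V V RZ} {rk : V → ℕ} (hrk : RkOk rk B) {i : V} {L : ℕ}
    {e : V → RZ} (hi : e i = 0) (hd : ∀ j, (e j).degree < L)
    (h : ∀ j, j ≠ i → X ^ L ∣ (e ᵥ* (1 - B)) j) : e = 0 := by
  have key : ∀ l, ∀ j, (e j).coeff l = 0 := by
    intro l
    induction l using Nat.strong_induction_on with
    | _ l ih =>
      by_cases hl : l < L
      · have hx : ∀ j, X ^ l ∣ e j := fun j => X_pow_dvd_iff.2 fun d hd => ih d hd j
        have k2 : ∀ k j, univ.sup rk < rk j + k → (e j).coeff l = 0 := by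
          intro k
          induction k with
          | zero =>
            intro j hj
            have := Finset.le_sup (f := rk) (mem_univ j)
            omega
          | succ k ihk =>
            intro j hj
            by_cases hji : j = i
            · rw [hji, hi, coeff_zero]
            have h1 := X_pow_dvd_iff.1 (h j hji) l hl
            rw [qp5_apply, coeff_sub, finsetSum_coeff, Finset.sum_eq_zero, sub_zero] at h1
            · exact h1
            intro x _
            rw [qp5_coeff (hx x)]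
            by_cases h0 : (B x j).coeff 0 = 0
            · rw [h0, mul_zero]
            · have := hrk x j h0
              rw [ihk x (by omega), zero_mul]
        exact fun j => k2 (univ.sup rk + 1) j (by omega)
      · intro j
        refine coeff_eq_zero_of_degree_lt ((hd j).trans_le ?_)
        exact_mod_cast not_lt.1 hl
  funext j
  ext1 l
  rw [key l j, Pi.zero_apply, coeff_zero]

/-- Bring both rows to the frontier `L > deg c`. -/
theorem sim_rm {B : Matrix V V RZ} (h : Valid B) {i : V} {v c : V → RZ} (hi : c i = 0)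
    (hv : v = B i - c ᵥ* (1 - B)) (h' : Valid (B.updateRow i v)) : Sim B (B.updateRow i v) := by
  obtain ⟨hp, rk, hrk⟩ := h
  obtain ⟨hp', rk', hrk'⟩ := h'
  subst hv
  set L := (univ.sup fun j => (c j).natDegree) + 1 with hL
  have hc : ∀ j, (c j).degree < L := fun j => by
    refine degree_le_natDegree.trans_lt ?_
    have := Finset.le_sup (f := fun j => (c j).natDegree) (mem_univ j)
    exact_mod_cast Nat.lt_succ_of_le this
  obtain ⟨c1, h1, h2, -, -, h5, h6⟩ := exists_frontier hp hrk i L
  obtain ⟨c2, g1, g2, -, -, g5, g6⟩ := exists_frontier hp' hrk' i L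
  rw [qp5_upd2 B c g1] at g5 g6
  rw [updateRow_idem] at g6
  have he : c + c2 - c1 = 0 := by
    refine frontier_unique hrk (i := i) (L := L) (by simp [hi, h1, g1]) (fun j => ?_) fun j hj => ?_
    · exact (degree_sub_le _ _).trans_lt
        (max_lt ((degree_add_le _ _).trans_lt (max_lt (hc j) (g2 j))) (h2 j))
    · have := dvd_sub (h5 j hj) (g5 j hj)
      rw [sub_vecMul]
      simpa only [Pi.sub_apply, sub_sub_sub_cancel_left] using this
  rw [sub_eq_zero.1 he] at g6
  exact h6.trans g6.symm

end Pool.Agent.Lib.MP_71aad1_an.SS
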