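import Pool.Agent.Lib.MP_71aad1_an.QR1

set_option autoImplicit false

namespace Pool.Agent.Lib.MP_71aad1_an.SS

open Polynomial Matrix Finset Sum

/-! `Rel` is an equivalence relation. -/

variable {U V W : Type} [Fintype U] [DecidableEq U] [Fintype V] [DecidableEq V] [Fintype W]
  [DecidableEq W]

theorem Eqv.refl (M : Matrix (J V) (J V) RZ) : Eqv M M := by
  exact ⟨1, one_mem _, 1, one_mem _, by simp⟩
theorem Eqv.symm {M M' : Matrix (J V) (J V) RZ} (h : Eqv M M') : Eqv M' M := by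
  obtain ⟨g, hg, g', hg', rfl⟩ := h
  refine ⟨g⁻¹, inv_mem hg, g'⁻¹, inv_mem hg', ?_⟩
  rw [← mul_assoc, ← mul_assoc, Units.inv_mul, one_mul, Units.mul_inv_cancel_right]
theorem Eqv.trans {M M' M'' : Matrix (J V) (J V) RZ} (h : Eqv M M') (h' : Eqv M' M'') :
    Eqv M M'' := by
  obtain ⟨g, hg, g', hg', rfl⟩ := h
  obtain ⟨k, hk, k', hk', rfl⟩ := h'
  refine ⟨k * g, mul_mem hk hg, g' * k', mul_mem hg' hk', ?_⟩
  simp only [Units.val_mul, mul_assoc]
theorem Eqv.pad (e : V ↪ W) {M M' : Matrix (J V) (J V) RZ} (h : Eqv M M') :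
    Eqv (padM (Jm e) M) (padM (Jm e) M') := by
  obtain ⟨g, hg, g', hg', rfl⟩ := h
  refine ⟨_, UG_pad e hg, _, VG_pad e hg', ?_⟩
  rw [padM_mul, padM_mul]
  rfl
/-- Block of allowed row operations (`block_mem`). -/
theorem eqv_left (M : Matrix (J V) (J V) RZ) (S : J V → Prop) (C : Matrix (J V) (J V) RZ)
    (h : ∀ i j, C i j ≠ 0 → S i ∧ ¬ S j ∧ i ≠ inr 0 ∧ (j = inr 0 ∨ ∃ v, j = inl v)) :
    Eqv M ((1 + C) * M) := by
  obtain ⟨g, hg, hgv⟩ := block_mem (UG V) S C (fun i j hij => ⟨(h i j hij).1, (h i j hij).2.1⟩)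
    fun i j hij => Subgroup.subset_closure ⟨i, j, _, (h i j hij).2.2.1, (h i j hij).2.2.2, rfl⟩
  exact ⟨g, hg, 1, one_mem _, by rw [hgv, Units.val_one, mul_one]⟩
/-- Block of allowed column operations. -/
theorem eqv_right (M : Matrix (J V) (J V) RZ) (S : J V → Prop) (C : Matrix (J V) (J V) RZ)
    (h : ∀ i j, C i j ≠ 0 → S i ∧ ¬ S j ∧ ∃ v, i = inl v) : Eqv M (M * (1 + C)) := by
  obtain ⟨g, hg, hgv⟩ := block_mem (VG V) S C (fun i j hij => ⟨(h i j hij).1, (h i j hij).2.1⟩)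
    fun i j hij => by
      obtain ⟨v, rfl⟩ := (h i j hij).2.2
      exact Subgroup.subset_closure ⟨v, j, _, rfl⟩
  exact ⟨1, one_mem _, g, hg, by rw [hgv, Units.val_one, one_mul]⟩

theorem qr2_swap_alg {n p q R : Type} [Fintype n] [DecidableEq n] [Fintype p] [DecidableEq p]
    [Fintype q] [CommRing R] (A A' : Matrix p n R) (H : Matrix q n R) (At At' : Matrix n p R)
    (Ht : Matrix n q R) (h11 : A * At = 1) (h22 : A' * At' = 1) (h12 : A * At' = 0)
    (h21 : A' * At = 0) (h13 : A * Ht = 0) (h23 : A' * Ht = 0) (h31 : H * At = 0)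
    (h32 : H * At' = 0) (a : Matrix p p R) (b : Matrix p q R) (c : Matrix q p R)
    (d : Matrix q q R) :
    (1 + Ht * (-c) * A) * ((1 + At * (-1 : Matrix p p R) * A') *
      ((1 + At' * (1 : Matrix p p R) * A) * ((1 + At * a * A') *
        ((1 + At * a * A + At * b * H + Ht * c * A + Ht * d * H) *
          (1 + At' * (-1 : Matrix p p R) * A))))) * (1 + At * (1 : Matrix p p R) * A') =
      1 + At' * a * A' + At' * b * H + Ht * c * A' + Ht * d * H := by
  have k11 : ∀ X : Matrix p n R, A * (At * X) = X := fun X => by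
    rw [← Matrix.mul_assoc, h11, Matrix.one_mul]
  have k22 : ∀ X : Matrix p n R, A' * (At' * X) = X := fun X => by
    rw [← Matrix.mul_assoc, h22, Matrix.one_mul]
  have k12 : ∀ X : Matrix p n R, A * (At' * X) = 0 := fun X => by
    rw [← Matrix.mul_assoc, h12, Matrix.zero_mul]
  have k21 : ∀ X : Matrix p n R, A' * (At * X) = 0 := fun X => by
    rw [← Matrix.mul_assoc, h21, Matrix.zero_mul]
  have k13 : ∀ X : Matrix q n R, A * (Ht * X) = 0 := fun X => by
    rw [← Matrix.mul_assoc, h13, Matrix.zero_mul]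
  have k23 : ∀ X : Matrix q n R, A' * (Ht * X) = 0 := fun X => by
    rw [← Matrix.mul_assoc, h23, Matrix.zero_mul]
  have k31 : ∀ X : Matrix p n R, H * (At * X) = 0 := fun X => by
    rw [← Matrix.mul_assoc, h31, Matrix.zero_mul]
  have k32 : ∀ X : Matrix p n R, H * (At' * X) = 0 := fun X => by
    rw [← Matrix.mul_assoc, h32, Matrix.zero_mul]
  have s1 : (1 + At * a * A + At * b * H + Ht * c * A + Ht * d * H) *
      (1 + At' * (-1 : Matrix p p R) * A) =
      1 + At * a * A + At * b * H + Ht * c * A + Ht * d * H + -(At' * A) := by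
    simp only [Matrix.mul_add, Matrix.add_mul, Matrix.mul_assoc, Matrix.one_mul, Matrix.mul_one,
      Matrix.neg_mul, Matrix.mul_neg, k12, k32, Matrix.mul_zero, add_zero]
  have s2 : (1 + At * a * A') *
      (1 + At * a * A + At * b * H + Ht * c * A + Ht * d * H + -(At' * A)) =
      1 + At * a * A' + At * b * H + Ht * c * A + Ht * d * H + -(At' * A) := by
    simp only [Matrix.mul_add, Matrix.add_mul, Matrix.mul_assoc, Matrix.one_mul, Matrix.mul_one,
      Matrix.mul_neg, k21, k22, k23, Matrix.mul_zero, add_zero]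
    abel
  have s3 : (1 + At' * (1 : Matrix p p R) * A) *
      (1 + At * a * A' + At * b * H + Ht * c * A + Ht * d * H + -(At' * A)) =
      1 + At * a * A' + At * b * H + Ht * c * A + Ht * d * H + At' * a * A' + At' * b * H := by
    simp only [Matrix.mul_add, Matrix.add_mul, Matrix.mul_assoc, Matrix.one_mul, Matrix.mul_one,
      Matrix.mul_neg, k11, k12, k13, Matrix.mul_zero, add_zero]
    abel
  have s4 : (1 + At * (-1 : Matrix p p R) * A') *
      (1 + At * a * A' + At * b * H + Ht * c * A + Ht * d * H + At' * a * A' + At' * b * H) =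
      1 + -(At * A') + Ht * c * A + Ht * d * H + At' * a * A' + At' * b * H := by
    simp only [Matrix.mul_add, Matrix.add_mul, Matrix.mul_assoc, Matrix.one_mul, Matrix.mul_one,
      Matrix.neg_mul, Matrix.mul_neg, k21, k22, k23, Matrix.mul_zero, neg_zero, add_zero]
    abel
  have s5 : (1 + Ht * (-c) * A) *
      (1 + -(At * A') + Ht * c * A + Ht * d * H + At' * a * A' + At' * b * H) =
      1 + -(At * A') + Ht * c * A' + Ht * d * H + At' * a * A' + At' * b * H := by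
    simp only [Matrix.mul_add, Matrix.add_mul, Matrix.mul_assoc, Matrix.one_mul, Matrix.mul_one,
      Matrix.neg_mul, Matrix.mul_neg, k11, k12, k13, Matrix.mul_zero, neg_zero, add_zero]
    abel
  rw [s1, s2, s3, s4, s5]
  simp only [Matrix.mul_add, Matrix.add_mul, Matrix.mul_assoc, Matrix.one_mul, Matrix.mul_one,
    Matrix.neg_mul, k21, k31, Matrix.mul_zero, neg_zero, add_zero]
  abel

theorem qr2_supp {ι κ n A : Type} [Fintype ι] [Fintype κ] [DecidableEq n] [CommRing A]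
    (f : ι ↪ n) (g : κ ↪ n) (X : Matrix ι κ A) {i j : n}
    (h : ((embM A f)ᵀ * X * embM A g) i j ≠ 0) : ∃ x y, f x = i ∧ g y = j ∧ X x y ≠ 0 := by
  rw [mul_apply] at h
  obtain ⟨y, -, hy⟩ := Finset.exists_ne_zero_of_sum_ne_zero h
  have h1 := left_ne_zero_of_mul hy
  have h2 := right_ne_zero_of_mul hy
  rw [mul_apply] at h1
  obtain ⟨x, -, hx⟩ := Finset.exists_ne_zero_of_sum_ne_zero h1
  have h3 := left_ne_zero_of_mul hx
  refine ⟨x, y, ?_, ?_, right_ne_zero_of_mul hx⟩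
  · by_contra hc
    exact h3 (if_neg hc)
  · by_contra hc
    exact h2 (if_neg hc)

theorem qr2_orth {ι κ n A : Type} [Fintype n] [DecidableEq n] [CommRing A] (f : ι ↪ n)
    (g : κ ↪ n) (h : ∀ a b, f a ≠ g b) : embM A f * (embM A g)ᵀ = 0 := by
  ext a b
  rw [mul_apply]
  refine Finset.sum_eq_zero fun i _ => ?_
  change (if f a = i then (1 : A) else 0) * (if g b = i then 1 else 0) = 0
  by_cases h1 : f a = i
  · rw [if_neg (c := g b = i) fun h2 => h a b (h1.trans h2.symm), mul_zero]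
  · rw [if_neg h1, zero_mul]

/-- The embedding of the active indices. -/
def qr2_a {V W : Type} (e : V ↪ W) : V ↪ J W := e.trans Function.Embedding.inl
/-- The embedding of the hub. -/
def qr2_h (W : Type) : Fin 3 ↪ J W := Function.Embedding.inr

theorem qr2_pad_eq (e : V ↪ W) (M : Matrix (J V) (J V) RZ) : padM (Jm e) M =
    1 + (embM RZ (qr2_a e))ᵀ * (M.toBlocks₁₁ - 1) * embM RZ (qr2_a e) +
      (embM RZ (qr2_a e))ᵀ * M.toBlocks₁₂ * embM RZ (qr2_h W) +
      (embM RZ (qr2_h W))ᵀ * M.toBlocks₂₁ * embM RZ (qr2_a e) +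
      (embM RZ (qr2_h W))ᵀ * (M.toBlocks₂₂ - 1) * embM RZ (qr2_h W) := by
  have h1 : embM RZ (Jm e) = fromRows (embM RZ (qr2_a e)) (embM RZ (qr2_h W)) := by
    refine Matrix.ext fun a i => ?_
    rcases a with a | a <;> rfl
  have h2 : M - 1 = fromBlocks (M.toBlocks₁₁ - 1) M.toBlocks₁₂ M.toBlocks₂₁
      (M.toBlocks₂₂ - 1) := by
    refine Matrix.ext fun a b => ?_
    rcases a with a | a <;> rcases b with b | b <;>
      simp [toBlocks₁₁, toBlocks₁₂, toBlocks₂₁, toBlocks₂₂, one_apply]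
  rw [padM, h1, h2, transpose_fromRows, fromCols_mul_fromBlocks, fromCols_mul_fromRows,
    Matrix.add_mul, Matrix.add_mul]
  abel

omit [DecidableEq V] in
theorem qr2_left (e e' : V ↪ W) (hd : ∀ a b, e a ≠ e' b) (X : Matrix V V RZ)
    (M : Matrix (J W) (J W) RZ) :
    Eqv M ((1 + (embM RZ (qr2_a e))ᵀ * X * embM RZ (qr2_a e')) * M) := by
  refine eqv_left M (fun i => ∃ a, i = inl (e a)) _ fun i j hij => ?_
  obtain ⟨x, y, rfl, rfl, -⟩ := qr2_supp _ _ _ hij
  refine ⟨⟨x, rfl⟩, ?_, inl_ne_inr, Or.inr ⟨_, rfl⟩⟩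
  rintro ⟨a, ha⟩
  exact hd a y (inl_injective ha).symm

omit [DecidableEq V] in
theorem qr2_right (e e' : V ↪ W) (hd : ∀ a b, e a ≠ e' b) (X : Matrix V V RZ)
    (M : Matrix (J W) (J W) RZ) :
    Eqv M (M * (1 + (embM RZ (qr2_a e))ᵀ * X * embM RZ (qr2_a e'))) := by
  refine eqv_right M (fun i => ∃ a, i = inl (e a)) _ fun i j hij => ?_
  obtain ⟨x, y, rfl, rfl, -⟩ := qr2_supp _ _ _ hij
  refine ⟨⟨x, rfl⟩, ?_, ⟨_, rfl⟩⟩
  rintro ⟨a, ha⟩
  exact hd a y (inl_injective ha).symm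



/-- In blocks (range of `e`, range of `e'`, hub), with `M = [[α, β], [γ, δ]]`:
`[[α, 0, β], [0, 1, 0], [γ, 0, δ]]`; column operation to get `-1` in position (2, 1);
row 1 `+= (α - 1)` row 2; row 2 `+=` row 1; row 1 `-=` row 2; hub rows `-= γ` row 1;
column 2 `+=` column 1. The result is `[[1, 0, 0], [0, α, β], [0, γ, δ]]`. The row `inr 0` needs no
operation because it has no active entries. It is convenient to compute with
`E = embM (Jm e)`, `E' = embM (Jm e')` and the projection onto the active indices. -/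
theorem eqv_swap (e e' : V ↪ W) (hd : ∀ a b, e a ≠ e' b) {M : Matrix (J V) (J V) RZ}
    (hM : ∀ v, M (inr 0) (inl v) = 0) : Eqv (padM (Jm e) M) (padM (Jm e') M) := by
  rw [qr2_pad_eq e, qr2_pad_eq e']
  have key := qr2_swap_alg (embM RZ (qr2_a e)) (embM RZ (qr2_a e')) (embM RZ (qr2_h W))
    (embM RZ (qr2_a e))ᵀ (embM RZ (qr2_a e'))ᵀ (embM RZ (qr2_h W))ᵀ (embM_mul _) (embM_mul _)
    (qr2_orth _ _ fun a b hab => hd a b (inl_injective hab))
    (qr2_orth _ _ fun a b hab => hd b a (inl_injective hab).symm)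
    (qr2_orth _ _ fun a b => inl_ne_inr) (qr2_orth _ _ fun a b => inl_ne_inr)
    (qr2_orth _ _ fun a b => inr_ne_inl) (qr2_orth _ _ fun a b => inr_ne_inl)
    (M.toBlocks₁₁ - 1) M.toBlocks₁₂ M.toBlocks₂₁ (M.toBlocks₂₂ - 1)
  rw [← key]
  have hd' : ∀ a b, e' a ≠ e b := fun a b hab => hd b a hab.symm
  refine Eqv.trans ?_ (qr2_right e e' hd _ _)
  refine Eqv.trans ?_ (eqv_left _ (fun i => ∃ k, i = inr k) _ fun i j hij => ?_)
  · refine Eqv.trans ?_ (qr2_left e e' hd _ _)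
    refine Eqv.trans ?_ (qr2_left e' e hd' _ _)
    refine Eqv.trans ?_ (qr2_left e e' hd _ _)
    exact qr2_right e' e hd' _ _
  · obtain ⟨x, y, rfl, rfl, hxy⟩ := qr2_supp _ _ _ hij
    refine ⟨⟨x, rfl⟩, ?_, ?_, Or.inr ⟨_, rfl⟩⟩
    · rintro ⟨k, hk⟩
      exact inl_ne_inr hk
    · intro hx
      have hx0 : x = 0 := inr_injective hx
      subst hx0
      exact hxy (neg_eq_zero.2 (hM y))

theorem Eqv.ha {M M' : Matrix (J V) (J V) RZ} (h : Eqv M M') (hM : ∀ v, M (inr 0) (inl v) = 0) :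
    M' (inr 0) = M (inr 0) := by
  obtain ⟨g, hg, g', hg', rfl⟩ := h
  obtain ⟨-, -, h1, -⟩ := UG_struct hg
  obtain ⟨-, -, h2⟩ := VG_struct hg'
  have h3 : (g.val * M) (inr 0) = M (inr 0) := by
    funext j
    rw [mul_apply, h1, Finset.sum_eq_single (inr 0)]
    · rw [Pi.single_eq_same, one_mul]
    · intro b _ hb
      rw [Pi.single_eq_of_ne hb, zero_mul]
    · intro hb
      exact absurd (Finset.mem_univ _) hb
  funext j
  rw [mul_apply, h3, Fintype.sum_sum_type]
  simp only [hM, zero_mul, Finset.sum_const_zero, zero_add, h2]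
  rcases j with v | k
  · rw [hM]
    exact Finset.sum_eq_zero fun b _ => by rw [Pi.single_eq_of_ne inl_ne_inr, mul_zero]
  · rw [Finset.sum_eq_single k]
    · rw [Pi.single_eq_same, mul_one]
    · intro b _ hb
      rw [Pi.single_eq_of_ne (inr_injective.ne hb.symm), mul_zero]
    · intro hb
      exact absurd (Finset.mem_univ _) hb

theorem Rel.refl (M : Matrix (J V) (J V) RZ) : Rel M M := by
  exact ⟨V, inferInstance, inferInstance, .refl V, .refl V, Eqv.refl _⟩
theorem Rel.symm {M : Matrix (J V) (J V) RZ} {M' : Matrix (J W) (J W) RZ} (h : Rel M M') :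
    Rel M' M := by
  obtain ⟨T, i1, i2, e, e', h⟩ := h
  exact ⟨T, i1, i2, e', e, h.symm⟩
/-- Embed the two common index sets into their sum and use `eqv_swap` for the middle matrix. -/
theorem Rel.trans {M : Matrix (J U) (J U) RZ} {M' : Matrix (J V) (J V) RZ}
    {M'' : Matrix (J W) (J W) RZ} (h : Rel M M') (h' : Rel M' M'')
    (hM : ∀ v, M' (inr 0) (inl v) = 0) : Rel M M'' := by
  obtain ⟨T, i1, i2, e, e', h⟩ := h
  obtain ⟨T', i3, i4, f, f', h'⟩ := h'
  have h1 := h.pad (Function.Embedding.inl : T ↪ T ⊕ T')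
  have h2 := h'.pad (Function.Embedding.inr : T' ↪ T ⊕ T')
  rw [padM_padM, padM_padM, ← Jm_trans, ← Jm_trans] at h1 h2
  exact ⟨T ⊕ T', inferInstance, inferInstance, _, _,
    h1.trans ((eqv_swap _ _ (fun a b => inl_ne_inr) hM).trans h2)⟩
theorem Eqv.rel {M M' : Matrix (J V) (J V) RZ} (h : Eqv M M') : Rel M M' := by
  exact ⟨V, inferInstance, inferInstance, .refl V, .refl V, h.pad _⟩
theorem rel_pad (e : V ↪ W) (M : Matrix (J V) (J V) RZ) : Rel M (padM (Jm e) M) := by
  refine ⟨W, inferInstance, inferInstance, e, .refl W, ?_⟩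
  rw [Jm_refl, padM_refl]
  exact Eqv.refl _

theorem qr2_blocks {p q R : Type} [Fintype p] [Fintype q] [CommRing R]
    (X Y : Matrix (p ⊕ q) (p ⊕ q) R) :
    (X * Y).toBlocks₁₁ = X.toBlocks₁₁ * Y.toBlocks₁₁ + X.toBlocks₁₂ * Y.toBlocks₂₁ := by
  ext a b
  exact Fintype.sum_sum_type _



/-- `UG_struct`, `VG_struct`: the active block of `U M U'` is `U₁ α U'₁`. -/
theorem Eqv.blocks {M M' : Matrix (J V) (J V) RZ} (h : Eqv M M') (hM : ∀ v, M (inr 0) (inl v) = 0) :
    ∃ g g' : El V RZ, mat g * M.toBlocks₁₁ * mat g' = M'.toBlocks₁₁ := by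
  obtain ⟨g, hg, g', hg', rfl⟩ := h
  obtain ⟨k, hk, -, h1⟩ := UG_struct hg
  obtain ⟨k', hk', h2⟩ := VG_struct hg'
  refine ⟨k, k', ?_⟩
  have h3 : g'.val.toBlocks₂₁ = 0 := by
    refine Matrix.ext fun a b => ?_
    change g'.val (inr a) (inl b) = 0
    rw [h2, Pi.single_eq_of_ne inl_ne_inr]
  have h4 : g.val.toBlocks₁₂ * M.toBlocks₂₁ = 0 := by
    refine Matrix.ext fun a b => ?_
    rw [mul_apply]
    refine Finset.sum_eq_zero fun c _ => ?_
    change g.val (inl a) (inr c) * M (inr c) (inl b) = 0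
    by_cases hc : c = 0
    · rw [hc, hM, mul_zero]
    · rw [h1 _ c hc, one_apply_ne inl_ne_inr, zero_mul]
  rw [qr2_blocks, qr2_blocks, h3, h4, Matrix.mul_zero, add_zero, add_zero, hk, hk']

end Pool.Agent.Lib.MP_71aad1_an.SS
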