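import Pool.Agent.Lib.MP_71aad1_an.QR2

set_option autoImplicit false

namespace Pool.Agent.Lib.MP_71aad1_an.SS

open Polynomial Matrix Finset Sum

/-! From a stable equivalence to a joint presentation. -/

variable {VX VY W : Type} [Fintype VX] [DecidableEq VX] [Fintype VY] [DecidableEq VY]
  [Fintype W] [DecidableEq W]

section aux
variable {ι κ : Type} [Fintype ι] [DecidableEq ι]

theorem qr5_row {α β γ : Type} [Fintype β] (N : Matrix α β RZ) (Z : Matrix β γ RZ) (i : α) :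
    (N * Z) i = N i ᵥ* Z := rfl

omit [DecidableEq ι] in
theorem qr5_split (v : J ι → RZ) (Y : Matrix (J ι) (J ι) RZ) (hv : ∀ k, k ≠ 0 → v (inr k) = 0) :
    v ᵥ* Y = (fun i => v (inl i)) ᵥ* act Y + v (inr 0) • Y (inr 0) := by
  funext j
  simp only [vecMul, dotProduct, Fintype.sum_sum_type, Fin.sum_univ_three, act, submatrix_apply,
    id, Pi.add_apply, Pi.smul_apply, smul_eq_mul]
  rw [hv 1 (by decide), hv 2 (by decide)]
  ring

omit [DecidableEq ι] in
theorem qr5_act (v : J ι → RZ) (D : Matrix (J ι) (J ι) RZ) (hD : ∀ k, D (inr k) = 0) :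
    v ᵥ* D = (fun i => v (inl i)) ᵥ* act D := by
  funext j
  simp [vecMul, dotProduct, Fintype.sum_sum_type, act, hD]

omit [DecidableEq ι] in
theorem qr5_zero (v : ι → RZ) (G : Matrix ι κ RZ) (h : ∀ i, v i = 0 ∨ G i = 0) : v ᵥ* G = 0 := by
  funext j
  refine Finset.sum_eq_zero fun i _ => ?_
  rcases h i with h | h <;> simp [h]

theorem qr5_pad {ι' : Type} [Fintype ι'] [DecidableEq ι'] (e : ι ↪ ι') (M : Matrix ι ι RZ)
    (v : ι' → RZ) (hv : ∀ a, v (e a) = 0) : v ᵥ* padM e M = v := by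
  have : v ᵥ* (embM RZ e)ᵀ = 0 := by
    funext a
    simp [vecMul, dotProduct, embM, hv]
  rw [padM, vecMul_add, vecMul_one, ← vecMul_vecMul, ← vecMul_vecMul, this]
  simp

theorem qr5_core {ar : RZ} {X Y G F : Matrix (J ι) (J ι) RZ} {U U' Vg Vf : GLn (J ι) RZ}
    (hU : U ∈ UG ι) (hU' : U' ∈ VG ι) (hE : U.val * X * U'.val = Y) (hY : Y (inr 0) = hav ar)
    (hVg : Vg ∈ VG ι) (hVf : Vf ∈ VG ι) (eg : Vg.val = 1 + G) (ef : Vf.val = 1 - F)
    (hG : G * G = 0) (hF : F * F = 0) (hG0 : ∀ k, G (inr k) = 0) (hF0 : ∀ k, F (inr k) = 0)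
    (hXG : ∀ k, X (inr k) ᵥ* G = 0) (hYF : ∀ k, Y (inr k) ᵥ* F = 0)
    (hD : ∀ i, ∃ u : J ι → RZ, (∀ k, k ≠ 0 → u (inr k) = 0) ∧
      ((1 + G) * U'.val - (1 + F)) (inl i) = u ᵥ* Y) :
    ∃ (U₁ Θ : El ι RZ) (A c : Matrix ι ι RZ) (c' : ι → RZ),
      mat Θ = 1 - c * A ∧
      (1 - A * c) * (act Y * (1 - F)) = mat U₁ * (act X * (1 - G)) + vecMulVec c' (hav ar) ∧
      ∀ k, k ≠ 0 → ∃ (e : ι → RZ) (e' : RZ),
        X (inr k) - Y (inr k) = e ᵥ* (act Y * (1 - F)) + e' • hav ar := by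
  choose u hu0 hu using hD
  obtain ⟨U₁, hU1, hU2, hU3⟩ := UG_struct hU
  obtain ⟨-, -, -, hI3⟩ := UG_struct (inv_mem hU)
  obtain ⟨-, -, hP⟩ := VG_struct hU'
  obtain ⟨Θ, hΘ, -⟩ := VG_struct (mul_mem (mul_mem hVg hU') hVf)
  set P := U'.val with hPd
  set M₂ := act Y * (1 - F) with hM2
  set M₁ := act X * (1 - G) with hM1
  let c : Matrix ι ι RZ := of fun i j => u i (inl j)
  let c' : ι → RZ := fun i => u i (inr 0)
  have hFF : (1 + F) * (1 - F) = 1 := by
    rw [add_mul, mul_sub, mul_sub, hF]; simp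
  have hGG : (1 - G) * (1 + G) = 1 := by
    rw [sub_mul, mul_add, mul_add, hG]; simp
  have hhav : hav ar ᵥ* (1 - F) = hav ar := by
    rw [vecMul_sub, vecMul_one, ← hY, hYF, sub_zero]
  have hDa : act ((1 + G) * P - (1 + F)) * (1 - F) = c * M₂ + vecMulVec c' (hav ar) := by
    funext i
    change ((1 + G) * P - (1 + F)) (inl i) ᵥ* (1 - F) = (c * M₂) i + c' i • hav ar
    rw [hu i, qr5_split _ _ (hu0 i), hY, add_vecMul, smul_vecMul, hhav, vecMul_vecMul]
    rfl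
  have hD0 : ∀ k, ((1 + G) * P - (1 + F)) (inr k) = 0 := by
    intro k
    change ((1 + G) (inr k)) ᵥ* P - (1 + F) (inr k) = 0
    have h1 : (1 + G) (inr k) = Pi.single (inr k) 1 := by
      change (1 : Matrix (J ι) (J ι) RZ) (inr k) + G (inr k) = _
      rw [hG0, add_zero]
      funext j
      simp [one_apply, Pi.single_apply, eq_comm]
    have h2 : (1 + F) (inr k) = Pi.single (inr k) 1 := by
      change (1 : Matrix (J ι) (J ι) RZ) (inr k) + F (inr k) = _
      rw [hF0, add_zero]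
      funext j
      simp [one_apply, Pi.single_apply, eq_comm]
    rw [h1, h2, single_one_vecMul]
    exact sub_eq_zero.2 (hP k)
  have L : ∀ v : J ι → RZ, v ᵥ* ((1 + G) * P * (1 - F)) =
      v + ((fun i => v (inl i)) ᵥ* c) ᵥ* M₂ + ((fun i => v (inl i)) ⬝ᵥ c') • hav ar := by
    intro v
    have h1 : (1 + G) * P * (1 - F) = 1 + ((1 + G) * P - (1 + F)) * (1 - F) := by
      rw [sub_mul, hFF]; abel
    rw [h1, vecMul_add, vecMul_one, ← vecMul_vecMul, qr5_act v _ hD0, vecMul_vecMul, hDa,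
      vecMul_add, vecMul_vecMulVec, vecMul_vecMul, add_assoc]
  have hXP : X * P = (U⁻¹).val * Y := by
    rw [← hE, ← mul_assoc, ← mul_assoc, Units.inv_mul, one_mul]
  have hXP0 : (X * P) (inr 0) = hav ar := by
    rw [← hY, ← hE, mul_assoc, qr5_row U.val, hU2, single_one_vecMul]
    rfl
  let A₁ : Matrix ι ι RZ := M₁.submatrix id inl
  have h2 : (1 - mat U₁ * A₁ * c) * M₂ = mat U₁ * M₁ +
      vecMulVec (mat U₁ *ᵥ (A₁ *ᵥ c') + fun i => U.val (inl i) (inr 0)) (hav ar) := by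
    have e1 : act (X * P) * (1 - F) = M₁ + A₁ * c * M₂ + vecMulVec (A₁ *ᵥ c') (hav ar) := by
      have : act (X * P) * (1 - F) = M₁ * ((1 + G) * P * (1 - F)) := by
        rw [hM1, ← Matrix.mul_assoc, ← Matrix.mul_assoc, Matrix.mul_assoc (act X), hGG,
          Matrix.mul_one]
        rfl
      rw [this]
      funext i
      rw [qr5_row, L]
      rfl
    have e2 : act Y = mat U₁ * act (X * P) +
        vecMulVec (fun i => U.val (inl i) (inr 0)) (hav ar) := by
      funext i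
      change Y (inl i) = _
      rw [← hE, mul_assoc, qr5_row U.val, qr5_split _ _ fun k hk => by rw [hU3 _ k hk]; simp,
        hXP0, ← hU1]
      rfl
    have e3 : M₂ = mat U₁ * (act (X * P) * (1 - F)) +
        vecMulVec (fun i => U.val (inl i) (inr 0)) (hav ar) := by
      rw [hM2]
      conv_lhs => rw [e2]
      rw [Matrix.add_mul, vecMulVec_mul, hhav, Matrix.mul_assoc]
    rw [e1, Matrix.mul_add, Matrix.mul_add, mul_vecMulVec] at e3
    rw [Matrix.sub_mul, Matrix.one_mul, add_vecMulVec, sub_eq_iff_eq_add]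
    conv_lhs => rw [e3]
    simp only [Matrix.mul_assoc]
    abel
  have hh : ∀ j, hav ar (inl j : J ι) = 0 := fun j => by simp [hav, arow]
  refine ⟨U₁, Θ⁻¹, mat U₁ * A₁, c, _, ?_, h2, fun k hk => ?_⟩
  · let A₂ : Matrix ι ι RZ := M₂.submatrix id inl
    have e1 : mat Θ = 1 + c * A₂ := by
      rw [← hΘ, Units.val_mul, Units.val_mul, eg, ef]
      ext1 i j
      have h3 := congrFun (L (Pi.single (inl i) 1)) (inl j)
      rw [single_one_vecMul] at h3
      have h4 : (fun i' => (Pi.single (inl i) 1 : J ι → RZ) (inl i')) = Pi.single i 1 := by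
        funext i'
        simp [Pi.single_apply]
      rw [h4, single_one_vecMul] at h3
      refine h3.trans ?_
      simp only [Pi.add_apply, Pi.smul_apply, hh, smul_zero, add_zero, Matrix.add_apply]
      congr 1
      simp [one_apply, Pi.single_apply, eq_comm]
    have e2 : (1 - mat U₁ * A₁ * c) * A₂ = mat U₁ * A₁ := by
      ext1 i j
      have h3 := congrFun (congrFun h2 i) (inl j)
      rw [Matrix.add_apply, vecMulVec_apply, hh, mul_zero, add_zero] at h3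
      exact h3
    have e3 : (1 - c * (mat U₁ * A₁)) * mat Θ = 1 := by
      rw [e1]
      have : (1 - c * (mat U₁ * A₁)) * (1 + c * A₂) =
          1 + c * ((1 - mat U₁ * A₁ * c) * A₂ - mat U₁ * A₁) := by
        simp only [mul_add, sub_mul, mul_sub, one_mul, mul_one, mul_assoc]
        abel
      rw [this, e2, sub_self, mul_zero, add_zero]
    calc mat Θ⁻¹ = (1 - c * (mat U₁ * A₁)) * mat Θ * mat Θ⁻¹ := by rw [e3, one_mul]
      _ = _ := by rw [mul_assoc, mat_mul_inv, mul_one]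
  · have e1 := L (X (inr k))
    have e2 : X (inr k) ᵥ* ((1 + G) * P * (1 - F)) = (X * P) (inr k) ᵥ* (1 - F) := by
      rw [← vecMul_vecMul, ← vecMul_vecMul, vecMul_add, vecMul_one, hXG, add_zero]
      rfl
    let w : J ι → RZ := (U⁻¹).val (inr k) - Pi.single (inr k) 1
    have hw : ∀ k', k' ≠ 0 → w (inr k') = 0 := by
      intro k' hk'
      change (U⁻¹).val (inr k) (inr k') - _ = 0
      rw [hI3 _ k' hk']
      simp [one_apply, Pi.single_apply, eq_comm]
    have e3 : (X * P) (inr k) = Y (inr k) + w ᵥ* Y := by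
      rw [hXP, qr5_row, sub_vecMul, single_one_vecMul]
      change _ = Y (inr k) + (_ - Y (inr k))
      abel
    rw [e2, e3, qr5_split w Y hw, hY, add_vecMul, add_vecMul, smul_vecMul, hhav, vecMul_vecMul,
      vecMul_sub, vecMul_one, hYF, sub_zero] at e1
    refine ⟨(fun i => w (inl i)) - (fun i => X (inr k) (inl i)) ᵥ* c,
      w (inr 0) - (fun i => X (inr k) (inl i)) ⬝ᵥ c', ?_⟩
    rw [sub_vecMul]
    funext j
    have e4 := congrFun e1 j
    simp only [Pi.add_apply, Pi.sub_apply, Pi.smul_apply, smul_eq_mul] at e4 ⊢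
    linear_combination -e4

end aux

/-- `eqv_swap`, `Eqv.pad`, `padM_padM`, `Jm_trans`: go from `eX` to `inr ∘ inr ∘ e`, use the given
equivalence there, and return from `inr ∘ inr ∘ e'` to `eY`. -/
theorem Rel.joint {MX : Matrix (J VX) (J VX) RZ} {MY : Matrix (J VY) (J VY) RZ} (h : Rel MX MY)
    (hX : ∀ v, MX (inr 0) (inl v) = 0) (hY : ∀ v, MY (inr 0) (inl v) = 0) :
    ∃ (W : Type) (_ : Fintype W) (_ : DecidableEq W),
      Eqv (padM (Jm (eX VX VY W)) MX) (padM (Jm (eY VX VY W)) MY) := by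
  obtain ⟨W, _, _, e, e', h⟩ := h
  refine ⟨W, inferInstance, inferInstance, ?_⟩
  let r : W ↪ VX ⊕ VY ⊕ W := Function.Embedding.inr.trans Function.Embedding.inr
  have h1 := h.pad r
  rw [padM_padM, padM_padM, ← Jm_trans, ← Jm_trans] at h1
  refine ((eqv_swap (eX VX VY W) (e.trans r) (fun a b => ?_) hX).trans h1).trans
    (eqv_swap (e'.trans r) (eY VX VY W) (fun a b => ?_) hY)
  · simp [eX, r]
  · simp [eY, r]

/-- Let `U MX' U' = MY'` on `ι = VX ⊕ VY ⊕ W`. Put `g y =` the `VX` and hub part of row `y` of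
`U'⁻¹`, `f x =` the `VY` and hub part of row `x` of `U'`; let `Vg = 1 - G`, `Vf = 1 - F` be the
column operations with `act MX' * Vg = M1`, `act MY' * Vf = M2` (`G * G = 0`, `F * F = 0`).
Let `K` be the span of the rows of `act MY'` and `hav ar`. Every row of `(1 + G) U' - (1 + F)` lies in
`K`, the hub rows vanish: `(1 + G) U' = 1 + F + c (act MY') + c' hav`. With `U₁` from `UG_struct`,
`act MY' = U₁ M1 (1 + G) U'` modulo `hav`; multiply by `Vf`:
`(1 - A c₁) M2 = U₁ M1` modulo `hav`, where `A = U₁ * (active block of M1)` and `c₁` is the active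
part of `c`. The active block `Θ` of `(1 + G) U' Vf` is elementary (`VG_struct`), equals
`1 + c₁ A₂`, and `(1 - c₁ A) Θ = 1`. Hub rows: `MY' h = MX' h U'` modulo `K`,
`MX' h (1 + G) = MX' h`; multiply by `Vf`. -/
theorem ext_core {ar : RZ} {MX : Matrix (J VX) (J VX) RZ} {MY : Matrix (J VY) (J VY) RZ}
    (hX : MX (inr 0) = hav ar) (hY : MY (inr 0) = hav ar)
    (h : Eqv (padM (Jm (eX VX VY W)) MX) (padM (Jm (eY VX VY W)) MY)) :
    ∃ (g : Matrix VY (J VX) RZ) (f : Matrix VX (J VY) RZ) (U₁ Θ : El (VX ⊕ VY ⊕ W) RZ)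
      (A c : Matrix (VX ⊕ VY ⊕ W) (VX ⊕ VY ⊕ W) RZ) (c' : VX ⊕ VY ⊕ W → RZ),
      mat Θ = 1 - c * A ∧ (1 - A * c) * M2 W MY f = mat U₁ * M1 W MX g + vecMulVec c' (hav ar) ∧
      ∀ k, k ≠ 0 → ∃ (e : VX ⊕ VY ⊕ W → RZ) (e' : RZ),
        extv (eX VX VY W) (MX (inr k)) - extv (eY VX VY W) (MY (inr k)) =
          e ᵥ* M2 W MY f + e' • hav ar := by
  obtain ⟨U, hU, U', hU', hE⟩ := h
  let g : Matrix VY (J VX) RZ := fun y j => (U'⁻¹).val (inl (eY VX VY W y)) (Jm (eX VX VY W) j)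
  let f : Matrix VX (J VY) RZ := fun x j => U'.val (inl (eX VX VY W x)) (Jm (eY VX VY W) j)
  let G : Matrix (J (VX ⊕ VY ⊕ W)) (J (VX ⊕ VY ⊕ W)) RZ :=
    Sum.elim (Sum.elim (fun _ => 0) (Sum.elim (fun y => extv (eX VX VY W) (g y)) fun _ => 0))
      fun _ => 0
  let F : Matrix (J (VX ⊕ VY ⊕ W)) (J (VX ⊕ VY ⊕ W)) RZ :=
    Sum.elim (Sum.elim (fun x => extv (eY VX VY W) (f x)) fun _ => 0) fun _ => 0
  have hXY : ∀ x y, eX VX VY W x ≠ eY VX VY W y := fun x y => by simp [eX, eY]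
  have hXW : ∀ x w, eX VX VY W x ≠ inr (inr w) := fun x y => by simp [eX]
  have hYW : ∀ y w, eY VX VY W y ≠ inr (inr w) := fun x y => by simp [eY]
  have hJ : ∀ {V : Type} (e : V ↪ VX ⊕ VY ⊕ W) (i : VX ⊕ VY ⊕ W), (∀ a, e a ≠ i) →
      ∀ a, Jm e a ≠ inl i := by
    rintro V e i hi (a | a)
    · rw [Jm_inl]
      exact fun h => hi a (inl.inj h)
    · rw [Jm_inr]
      exact inr_ne_inl
  have vG : ∀ v : J (VX ⊕ VY ⊕ W) → RZ, (∀ y, v (inl (eY VX VY W y)) = 0) → v ᵥ* G = 0 := by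
    intro v hv
    refine qr5_zero v G ?_
    rintro ((x | y | w) | k)
    · exact Or.inr rfl
    · exact Or.inl (hv y)
    · exact Or.inr rfl
    · exact Or.inr rfl
  have vF : ∀ v : J (VX ⊕ VY ⊕ W) → RZ, (∀ x, v (inl (eX VX VY W x)) = 0) → v ᵥ* F = 0 := by
    intro v hv
    refine qr5_zero v F ?_
    rintro ((x | y | w) | k)
    · exact Or.inl (hv x)
    · exact Or.inr rfl
    · exact Or.inr rfl
    · exact Or.inr rfl
  have xG : ∀ v, extv (eX VX VY W) v ᵥ* G = 0 := fun v =>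
    vG _ fun y => extv_of_not _ _ fun x => hXY x y
  have yF : ∀ v, extv (eY VX VY W) v ᵥ* F = 0 := fun v =>
    vF _ fun x => extv_of_not _ _ fun y => (hXY x y).symm
  have cG : ∀ i y, G i (inl (eY VX VY W y)) = 0 := by
    rintro ((x | y | w) | k) y'
    · rfl
    · exact extv_of_not _ _ fun x => hXY x y'
    · rfl
    · rfl
  have cF : ∀ i x, F i (inl (eX VX VY W x)) = 0 := by
    rintro ((x | y | w) | k) x'
    · exact extv_of_not _ _ fun y => (hXY x' y).symm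
    · rfl
    · rfl
    · rfl
  have rG : ∀ i j, G i j ≠ 0 → ∃ y, i = inl (eY VX VY W y) := by
    rintro ((x | y | w) | k) j h
    · exact absurd rfl h
    · exact ⟨y, rfl⟩
    · exact absurd rfl h
    · exact absurd rfl h
  have rF : ∀ i j, (-F) i j ≠ 0 → ∃ x, i = inl (eX VX VY W x) := by
    rintro ((x | y | w) | k) j h
    · exact ⟨x, rfl⟩
    · exact absurd neg_zero h
    · exact absurd neg_zero h
    · exact absurd neg_zero h
  obtain ⟨Vg, hVg, eg⟩ := block_mem (VG (VX ⊕ VY ⊕ W)) (fun i => ∃ y, i = inl (eY VX VY W y)) G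
    (fun i j h => ⟨rG i j h, by rintro ⟨y, rfl⟩; exact h (cG i y)⟩)
    (fun i j h => by
      obtain ⟨y, rfl⟩ := rG i j h
      exact Subgroup.subset_closure ⟨_, _, _, rfl⟩)
  obtain ⟨Vf, hVf, ef⟩ := block_mem (VG (VX ⊕ VY ⊕ W)) (fun i => ∃ x, i = inl (eX VX VY W x)) (-F)
    (fun i j h => ⟨rF i j h, by
      rintro ⟨x, rfl⟩
      exact h (by rw [Matrix.neg_apply, cF, neg_zero])⟩)
    (fun i j h => by
      obtain ⟨x, rfl⟩ := rF i j h
      exact Subgroup.subset_closure ⟨_, _, _, rfl⟩)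
  rw [← sub_eq_add_neg] at ef
  set X' := padM (Jm (eX VX VY W)) MX with hX'
  set Y' := padM (Jm (eY VX VY W)) MY with hY'
  have rX : ∀ j, X' (Jm (eX VX VY W) j) = extv (eX VX VY W) (MX j) := fun j => padM_row _ _ j
  have rY : ∀ j, Y' (Jm (eY VX VY W) j) = extv (eY VX VY W) (MY j) := fun j => padM_row _ _ j
  have one_row : ∀ i : J (VX ⊕ VY ⊕ W),
      (1 : Matrix (J (VX ⊕ VY ⊕ W)) (J (VX ⊕ VY ⊕ W)) RZ) i = Pi.single i 1 := by
    intro i
    funext j
    simp [one_apply, Pi.single_apply, eq_comm]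
  have uX : ∀ i, (∀ a, eX VX VY W a ≠ i) → X' (inl i) = Pi.single (inl i) 1 := by
    intro i hi
    rw [← one_row]
    funext j
    exact padM_of_row _ _ (hJ _ i hi) j
  have uY : ∀ i, (∀ a, eY VX VY W a ≠ i) → Y' (inl i) = Pi.single (inl i) 1 := by
    intro i hi
    rw [← one_row]
    funext j
    exact padM_of_row _ _ (hJ _ i hi) j
  have hM1 : act X' * (1 - G) = M1 W MX g := by
    funext i
    change X' (inl i) ᵥ* (1 - G) = _
    rw [vecMul_sub, vecMul_one]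
    rcases i with x | y | w
    · rw [show X' (inl (inl x)) = _ from rX (inl x), xG, sub_zero]
      rfl
    · rw [uX (inr (inl y)) fun a => hXY a y, single_one_vecMul]
      rfl
    · rw [uX _ fun a => hXW a w, single_one_vecMul]
      exact sub_zero _
  have hM2 : act Y' * (1 - F) = M2 W MY f := by
    funext i
    change Y' (inl i) ᵥ* (1 - F) = _
    rw [vecMul_sub, vecMul_one]
    rcases i with x | y | w
    · rw [uY (inl x) fun a => (hXY x a).symm, single_one_vecMul]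
      rfl
    · rw [show Y' (inl (inr (inl y))) = _ from rY (inl y), yF, sub_zero]
      rfl
    · rw [uY _ fun a => hYW a w, single_one_vecMul]
      exact sub_zero _
  obtain ⟨-, -, -, hI3⟩ := UG_struct (inv_mem hU)
  have K5 : ∀ v : J (VX ⊕ VY ⊕ W) → RZ, (∀ j, v (Jm (eX VX VY W) j) = 0) →
      (∀ k, k ≠ 0 → (v ᵥ* (U⁻¹).val) (inr k) = 0) ∧ v ᵥ* U'.val = (v ᵥ* (U⁻¹).val) ᵥ* Y' := by
    intro v hv
    constructor
    · intro k hk
      have : (v ᵥ* (U⁻¹).val) (inr k) = (v ᵥ* (1 : Matrix _ _ RZ)) (inr k) :=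
        Finset.sum_congr rfl fun i _ => congrArg (v i * ·) (hI3 i k hk)
      rw [this, vecMul_one]
      exact hv (inr k)
    · rw [vecMul_vecMul, ← hE, ← mul_assoc, ← mul_assoc, Units.inv_mul, one_mul, ← vecMul_vecMul,
        qr5_pad _ _ v hv]
  have sJ : ∀ {V : Type} (e : V ↪ VX ⊕ VY ⊕ W) (i : VX ⊕ VY ⊕ W), (∀ a, e a ≠ i) →
      ∀ a, (Pi.single (inl i) 1 : J (VX ⊕ VY ⊕ W) → RZ) (Jm e a) = 0 :=
    fun e i hi a => Pi.single_eq_of_ne (hJ e i hi a) _
  have hD : ∀ i, ∃ u : J (VX ⊕ VY ⊕ W) → RZ, (∀ k, k ≠ 0 → u (inr k) = 0) ∧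
      ((1 + G) * U'.val - (1 + F)) (inl i) = u ᵥ* Y' := by
    intro i
    have e0 : ((1 + G) * U'.val - (1 + F)) (inl i) =
        (Pi.single (inl i) 1 + G (inl i)) ᵥ* U'.val - (Pi.single (inl i) 1 + F (inl i)) := by
      rw [← one_row]
      rfl
    rw [e0]
    rcases i with x | y | w
    · have e1 : ∀ j, (((Pi.single (inl (inl x)) 1 + G (inl (inl x))) ᵥ* U'.val -
          (Pi.single (inl (inl x)) 1 + F (inl (inl x))) : J (VX ⊕ VY ⊕ W) → RZ))
          (Jm (eY VX VY W) j) = 0 := by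
        intro j
        rw [show G (inl (inl x)) = 0 from rfl, add_zero, single_one_vecMul, Pi.sub_apply,
          Pi.add_apply, sJ _ (inl x) fun a => (hXY x a).symm, zero_add, sub_eq_zero]
        exact (vecMul_embM_apply _ (f x) j).symm
      exact ⟨_, fun k _ => e1 (inr k), (qr5_pad _ _ _ e1).symm⟩
    · obtain ⟨h1, h2⟩ := K5 (Pi.single (inl (inr (inl y))) 1 + G (inl (inr (inl y))) -
          (U'⁻¹).val (inl (inr (inl y)))) fun j => by
        rw [Pi.sub_apply, Pi.add_apply, sJ _ (inr (inl y)) fun a => hXY a y, zero_add, sub_eq_zero]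
        exact vecMul_embM_apply _ (g y) j
      refine ⟨_, h1, ?_⟩
      rw [← h2, sub_vecMul, show F (inl (inr (inl y))) = 0 from rfl, add_zero, ← qr5_row (U'⁻¹).val,
        Units.inv_mul, one_row]
    · obtain ⟨h1, h2⟩ := K5 (Pi.single (inl (inr (inr w))) 1) (sJ _ _ fun a => hXW a w)
      refine ⟨Pi.single (inl (inr (inr w))) 1 ᵥ* (U⁻¹).val - Pi.single (inl (inr (inr w))) 1,
        fun k hk => ?_, ?_⟩
      · rw [Pi.sub_apply, h1 k hk, Pi.single_eq_of_ne inr_ne_inl, sub_zero]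
      · rw [sub_vecMul, ← h2, qr5_pad _ _ _ (sJ _ _ fun a => hYW a w),
          show F (inl (inr (inr w))) = 0 from rfl, show G (inl (inr (inr w))) = 0 from rfl, add_zero]
  obtain ⟨U₁, Θ, A, c, c', h1, h2, h3⟩ := qr5_core (ar := ar) hU hU' hE
    (by rw [show Y' (inr 0) = _ from rY (inr 0), hY, extv_hav]) hVg hVf eg ef
    (by funext i; exact vG _ (cG i)) (by funext i; exact vF _ (cF i)) (fun _ => rfl) (fun _ => rfl)
    (fun k => by rw [show X' (inr k) = _ from rX (inr k), xG])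
    (fun k => by rw [show Y' (inr k) = _ from rY (inr k), yF]) hD
  rw [hM1, hM2] at h2
  rw [hM2] at h3
  refine ⟨g, f, U₁, Θ, A, c, c', h1, h2, fun k hk => ?_⟩
  rw [← rX, ← rY]
  exact h3 k hk

/-- Enlarge `W` to `W ⊕ (ι ⊕ Fin 3)`, let `e₁` be the obvious embedding of `ι` and `e₂` the second
copy. `vaserstein` gives `g'` with `mat g' = padM e₁ (1 - A c)`; `N = g'⁻¹ * padE e₁ U₁`. For the
larger index set, row `e₁ i` of `M1` is `extv e₁` of row `i`, the other rows are unit vectors. -/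
theorem ext_lnk {ar : RZ} {MX : Matrix (J VX) (J VX) RZ} {MY : Matrix (J VY) (J VY) RZ}
    (h : Rel MX MY) (hX : MX (inr 0) = hav ar) (hY : MY (inr 0) = hav ar) :
    ∃ (W : Type) (_ : Fintype W) (_ : DecidableEq W) (_ : Fin 3 ↪ W) (g : Matrix VY (J VX) RZ)
      (f : Matrix VX (J VY) RZ) (N : El (VX ⊕ VY ⊕ W) RZ), Lnk ar MX MY g f N := by
  obtain ⟨W, _, _, h⟩ := h.joint (fun v => by simp [hX, hav, arow]) (fun v => by simp [hY, hav, arow])
  obtain ⟨g, f, U₁, Θ, A, c, c', h1, h2, h3⟩ := ext_core hX hY h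
  obtain ⟨W', _, _, i₁, i₂, i₃, hi⟩ : ∃ (W' : Type) (_ : Fintype W') (_ : DecidableEq W')
      (i₁ : W ↪ W') (i₂ : VX ⊕ VY ⊕ W ↪ W') (_ : Fin 3 ↪ W'), ∀ a b, i₁ a ≠ i₂ b :=
    ⟨W ⊕ ((VX ⊕ VY ⊕ W) ⊕ Fin 3), inferInstance, Classical.decEq _, Function.Embedding.inl,
      Function.Embedding.inl.trans Function.Embedding.inr,
      Function.Embedding.inr.trans Function.Embedding.inr, fun a b => inl_ne_inr⟩
  let e₁ : VX ⊕ VY ⊕ W ↪ VX ⊕ VY ⊕ W' := (Function.Embedding.refl VX).sumMap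
    ((Function.Embedding.refl VY).sumMap i₁)
  let e₂ : VX ⊕ VY ⊕ W ↪ VX ⊕ VY ⊕ W' := ⟨fun i => inr (inr (i₂ i)), fun a b h =>
    i₂.injective (inr.inj (inr.inj h))⟩
  have hd : ∀ a b, e₁ a ≠ e₂ b := by
    rintro (x | y | w) b h
    · exact inl_ne_inr h
    · exact inl_ne_inr (inr.inj h)
    · exact hi w b (inr.inj (inr.inj h))
  obtain ⟨g', hg'⟩ := vaserstein e₁ e₂ hd A c Θ h1
  have tX : (eX VX VY W).trans e₁ = eX VX VY W' := rfl
  have tY : (eY VX VY W).trans e₁ = eY VX VY W' := rfl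
  have xX : ∀ v, extv e₁ (extv (eX VX VY W) v) = extv (eX VX VY W') v := fun v => by
    rw [extv_extv, tX]
  have xY : ∀ v, extv e₁ (extv (eY VX VY W) v) = extv (eY VX VY W') v := fun v => by
    rw [extv_extv, tY]
  have xS : ∀ i, extv e₁ (Pi.single (inl i) 1) = Pi.single (inl (e₁ i)) 1 := fun i => by
    rw [extv_single, Jm_inl]
  have r1 : ∀ i, M1 W' MX g (e₁ i) = extv e₁ (M1 W MX g i) := by
    rintro (x | y | w)
    · exact (xX (MX (inl x))).symm
    · change _ = extv e₁ (Pi.single (inl (eY VX VY W y)) 1 - extv (eX VX VY W) (g y))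
      rw [extv_sub, xS, xX]
      rfl
    · exact (xS (inr (inr w))).symm
  have r2 : ∀ i, M2 W' MY f (e₁ i) = extv e₁ (M2 W MY f i) := by
    rintro (x | y | w)
    · change _ = extv e₁ (Pi.single (inl (eX VX VY W x)) 1 - extv (eY VX VY W) (f x))
      rw [extv_sub, xS, xY]
      rfl
    · exact (xY (MY (inl y))).symm
    · exact (xS (inr (inr w))).symm
  have row : ∀ (M : Matrix (VX ⊕ VY ⊕ W') (J (VX ⊕ VY ⊕ W')) RZ) i,
      (embM RZ e₁ * M) i = M (e₁ i) := by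
    intro M i
    funext j
    simp [mul_apply, embM]
  have m1 : embM RZ e₁ * M1 W' MX g = M1 W MX g * embM RZ (Jm e₁) := by
    funext i
    rw [row, r1]
    rfl
  have m2 : embM RZ e₁ * M2 W' MY f = M2 W MY f * embM RZ (Jm e₁) := by
    funext i
    rw [row, r2]
    rfl
  have hp : padM e₁ (1 - A * c) * M2 W' MY f = padM e₁ (mat U₁) * M1 W' MX g +
      vecMulVec (c' ᵥ* embM RZ e₁) (hav ar) := by
    funext i
    by_cases hi : ∃ a, e₁ a = i
    · obtain ⟨a, rfl⟩ := hi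
      change padM e₁ (1 - A * c) (e₁ a) ᵥ* _ = padM e₁ (mat U₁) (e₁ a) ᵥ* M1 W' MX g +
        (c' ᵥ* embM RZ e₁) (e₁ a) • hav ar
      rw [padM_row, padM_row, vecMul_vecMul, vecMul_vecMul, m1, m2, ← vecMul_vecMul,
        ← vecMul_vecMul, ← qr5_row (1 - A * c) (M2 W MY f) a, h2, vecMul_embM_apply, ← extv_hav e₁ ar, ← extv_smul]
      exact extv_add e₁ _ _
    · have hi' : ∀ a, e₁ a ≠ i := fun a h => hi ⟨a, h⟩
      have o : ∀ Z : Matrix (VX ⊕ VY ⊕ W) (VX ⊕ VY ⊕ W) RZ, padM e₁ Z i = Pi.single i 1 := by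
        intro Z
        funext j
        rw [padM_of_row _ _ hi']
        simp [one_apply, Pi.single_apply, eq_comm]
      change padM e₁ (1 - A * c) i ᵥ* _ = padM e₁ (mat U₁) i ᵥ* M1 W' MX g +
        (c' ᵥ* embM RZ e₁) i • hav ar
      rw [o, o, single_one_vecMul, single_one_vecMul, vecMul_embM_of_not _ _ hi', zero_smul,
        add_zero]
      rcases i with x | y | w
      · exact absurd rfl (hi' (inl x))
      · exact absurd rfl (hi' (inr (inl y)))
      · rfl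
  have hN : mat (g'⁻¹ * padE e₁ U₁) * M1 W' MX g = M2 W' MY f +
      vecMulVec (-(mat g'⁻¹ *ᵥ (c' ᵥ* embM RZ e₁))) (hav ar) := by
    have e : mat g'⁻¹ * (padM e₁ (1 - A * c) * M2 W' MY f) = M2 W' MY f := by
      rw [← hg', ← Matrix.mul_assoc, mat_inv_mul, Matrix.one_mul]
    rw [hp, Matrix.mul_add, mul_vecMulVec] at e
    rw [mat_mul, mat_padE, Matrix.mul_assoc, ← e]
    ext1 i j
    simp only [Matrix.add_apply, vecMulVec_apply, Pi.neg_apply]
    ring
  refine ⟨W', inferInstance, inferInstance, i₃,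
    g, f, g'⁻¹ * padE e₁ U₁, ⟨_, hN⟩, fun k hk => ?_⟩
  obtain ⟨e, e', h4⟩ := h3 k hk
  have h5 := congrArg (extv e₁) h4
  rw [extv_sub, xX, xY, extv_add, extv_smul, extv_hav] at h5
  have h6 : extv e₁ (e ᵥ* M2 W MY f) = (e ᵥ* embM RZ e₁) ᵥ* M2 W' MY f := by
    rw [vecMul_vecMul, m2, ← vecMul_vecMul]
    rfl
  have h7 := congrArg (fun Z => (e ᵥ* embM RZ e₁) ᵥ* Z) hN
  simp only [vecMul_add, vecMul_vecMulVec] at h7
  rw [← vecMul_vecMul] at h7
  refine ⟨(e ᵥ* embM RZ e₁) ᵥ* mat (g'⁻¹ * padE e₁ U₁),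
    e' - (e ᵥ* embM RZ e₁) ⬝ᵥ (-(mat g'⁻¹ *ᵥ (c' ᵥ* embM RZ e₁))), ?_⟩
  rw [h5, h6, h7]
  funext j
  simp only [Pi.add_apply, Pi.smul_apply, smul_eq_mul]
  ring

end Pool.Agent.Lib.MP_71aad1_an.SS
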