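import Pool.Agent.Lib.MP_71aad1_an.QDef

set_option autoImplicit false

namespace Pool.Agent.Lib.MP_71aad1_an.SS

open Polynomial Matrix Finset Sum

/-! Basic identities in a Steinberg system. All identities were checked numerically with
elementary matrices. -/

theorem Tri.three {ι : Type} (T : Tri ι) : Three ι := by
  intro a b
  have h1 := T.h01
  have h2 := T.h02
  have h3 := T.h12
  by_contra hcon
  push Not at hcon
  have e0 := hcon T.i0
  have e1 := hcon T.i1
  have e2 := hcon T.i2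
  by_cases c0 : T.i0 = a
  · exact h3 ((e1 fun e => h1 (c0.trans e.symm)).trans (e2 fun e => h2 (c0.trans e.symm)).symm)
  · by_cases c1 : T.i1 = a
    · exact h2 ((e0 c0).trans (e2 fun e => h3 (c1.trans e.symm)).symm)
    · exact h1 ((e0 c0).trans (e1 c1).symm)

section prodL
variable {σ A H : Type} [Group H]
theorem prodL_mem {l : List σ} {F : σ → A → H} {P : σ → A} {G : Subgroup H}
    (h : ∀ s ∈ l, F s (P s) ∈ G) : prodL l F P ∈ G := by
  refine G.list_prod_mem fun x hx => ?_
  obtain ⟨s, hs, rfl⟩ := List.mem_map.1 hx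
  exact h s hs
theorem prodL_eq_one {l : List σ} {F : σ → A → H} {P : σ → A} (h : ∀ s ∈ l, F s (P s) = 1) :
    prodL l F P = 1 := by
  refine List.prod_eq_one fun x hx => ?_
  obtain ⟨s, hs, rfl⟩ := List.mem_map.1 hx
  exact h s hs
theorem map_prodL {A' H' : Type} [Group H'] (f : H →* H') (l : List σ) {F : σ → A → H}
    {F' : σ → A' → H'} {P : σ → A} {P' : σ → A'} (h : ∀ s, f (F s (P s)) = F' s (P' s)) :
    f (prodL l F P) = prodL l F' P' := by
  unfold prodL
  rw [map_list_prod, List.map_map]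
  congr 1
  exact List.map_congr_left fun s _ => h s
theorem prodL_add [Add A] (l : List σ) {F : σ → A → H} {P Q : σ → A}
    (h : ∀ s, F s (P s + Q s) = F s (P s) * F s (Q s))
    (hc : ∀ s s', Commute (F s (P s)) (F s' (Q s'))) :
    prodL l F (P + Q) = prodL l F P * prodL l F Q := by
  unfold prodL
  induction l with
  | nil => simp
  | cons s l ih =>
    have hc' : Commute (l.map fun s => F s (P s)).prod (F s (Q s)) := by
      refine Commute.list_prod_left _ _ fun x hx => ?_
      obtain ⟨s', -, rfl⟩ := List.mem_map.1 hx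
      exact hc s' s
    simp only [List.map_cons, List.prod_cons]
    rw [ih, Pi.add_apply, h, mul_assoc, mul_assoc, ← mul_assoc (F s (Q s)), ← hc'.eq, mul_assoc]
theorem prodL_single [Zero A] [DecidableEq σ] [Fintype σ] {F : σ → A → H} (h : ∀ s, F s 0 = 1)
    (s : σ) (p : A) : prodL (univ : Finset σ).toList F (Pi.single s p) = F s p := by
  have key : ∀ l : List σ, l.Nodup → s ∈ l → prodL l F (Pi.single s p) = F s p := by
    intro l hl hs
    induction l with
    | nil => simp at hs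
    | cons t l ih =>
      rw [List.nodup_cons] at hl
      have e : prodL (t :: l) F (Pi.single s p) =
          F t ((Pi.single s p : σ → A) t) * prodL l F (Pi.single s p) := by
        simp only [prodL, List.map_cons, List.prod_cons]
      rw [e]
      by_cases ht : t = s
      · subst ht
        rw [Pi.single_eq_same, prodL_eq_one, mul_one]
        intro u hu
        have : u ≠ t := fun e => hl.1 (e ▸ hu)
        rw [Pi.single_eq_of_ne this, h]
      · rw [Pi.single_eq_of_ne ht, h, one_mul]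
        exact ih hl.2 ((List.mem_cons.1 hs).resolve_left (Ne.symm ht))
  exact key _ (Finset.nodup_toList _) (Finset.mem_toList.2 (mem_univ s))
end prodL

namespace St
variable {ι A H : Type} [CommRing A] [Group H] (S : St ι A H)

theorem x_zero (a b : ι) : S.x a b 0 = 1 := by
  have := S.add a b 0 0
  rw [add_zero] at this
  exact left_eq_mul.1 this
theorem x_neg (a b : ι) (p : A) : S.x a b (-p) = (S.x a b p)⁻¹ := by
  rw [eq_inv_iff_mul_eq_one, ← S.add, neg_add_cancel, S.x_zero]
theorem conj1 {a b c : ι} (h : a ≠ b) (h' : b ≠ c) (h'' : a ≠ c) (p q : A) :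
    S.x a b p * S.x b c q * S.x a b (-p) = S.x a c (p * q) * S.x b c q := by
  rw [S.cmt a b c p q h h' h'', S.x_neg]
  group
theorem conj2 {a b c : ι} (h : a ≠ b) (h' : b ≠ c) (h'' : a ≠ c) (p q : A) :
    S.x b c q * S.x a b p * S.x b c (-q) = S.x a c (-(p * q)) * S.x a b p := by
  rw [S.x_neg, S.x_neg, mul_inv_eq_iff_eq_mul, mul_assoc, S.cmt a b c p q h h' h'']
  group
theorem z_diag (a : ι) (p α : A) : S.z a a p α = 1 := by
  simp only [z, S.diag, mul_one]
theorem z_zero_left (a b : ι) (α : A) : S.z a b 0 α = 1 := by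
  simp only [z, S.x_zero, S.x_neg, mul_one, mul_inv_cancel]
theorem z_zero_right (a b : ι) (p : A) : S.z a b p 0 = S.x a b p := by
  simp only [z, neg_zero, S.x_zero, mul_one, one_mul]
theorem z_add (a b : ι) (p q α : A) : S.z a b (p + q) α = S.z a b p α * S.z a b q α := by
  simp only [z, S.x_neg, S.add]
  group
theorem z_neg (a b : ι) (p α : A) : S.z a b (-p) α = (S.z a b p α)⁻¹ := by
  simp only [z, S.x_neg]
  group
theorem z_conj (a b : ι) (p α β : A) :
    S.x b a β * S.z a b p α * S.x b a (-β) = S.z a b p (α + β) := by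
  rw [add_comm α β]
  simp only [z, S.x_neg, S.add]
  group
theorem y_diag (a : ι) (p q : A) : S.y a a p q = 1 := by
  simp only [y, S.diag, mul_one]
theorem y_zero_left (a b : ι) (q : A) : S.y a b 0 q = 1 := by
  simp only [y, S.x_zero, S.x_neg]
  group
theorem y_zero_right (a b : ι) (p : A) : S.y a b p 0 = 1 := by
  simp only [y, S.x_zero, S.x_neg]
  group
theorem y_eq (a b : ι) (p q : A) : S.y a b p q = S.x a b p * S.z a b (-p) q := by
  simp only [y, z, mul_assoc]
theorem y_inv (a b : ι) (p q : A) : (S.y a b p q)⁻¹ = S.y b a q p := by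
  simp only [y, S.x_neg]
  group
theorem y_add_right (a b : ι) (p q q' : A) :
    S.y a b p (q + q') = S.y a b p q * (S.x b a q * S.y a b p q' * (S.x b a q)⁻¹) := by
  simp only [y, S.x_neg, S.add]
  group
theorem y_add_left (a b : ι) (p p' q : A) :
    S.y a b (p + p') q = S.x a b p * S.y a b p' q * (S.x a b p)⁻¹ * S.y a b p q := by
  simp only [y, S.x_neg, S.add]
  group
theorem fr_diag (a : ι) (p α : A) : S.fr a a p α = 1 := by
  simp only [fr, S.z_diag, S.diag, mul_one]
theorem fr_zero (a b : ι) (α : A) : S.fr a b 0 α = 1 := by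
  simp only [fr, S.z_zero_left, neg_zero, mul_zero, S.x_zero, mul_one]
theorem sg_zero (a b : ι) (α : A) : S.sg a b 0 α = 1 := by
  simp only [sg, zero_mul, S.fr_zero, inv_one, mul_one]

/-- Conjugate `x a b (p q) = [x a c p, x c b q]` by `x b a β`. -/
theorem z_comm {a b c : ι} (h : a ≠ b) (h' : b ≠ c) (h'' : a ≠ c) (p q β : A) :
    S.z a b (p * q) β = S.x a c p * S.x b c (β * p) * (S.x c b q * S.x c a (-(β * q))) *
      (S.x a c p * S.x b c (β * p))⁻¹ * (S.x c b q * S.x c a (-(β * q)))⁻¹ := by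
  have e0 : S.x a b (p * q) = S.x a c p * S.x c b q * (S.x a c p)⁻¹ * (S.x c b q)⁻¹ := by
    rw [← S.x_neg a c p, S.conj1 h'' h'.symm h, mul_inv_cancel_right]
  have e1 : S.x a c p * S.x b c (β * p) = S.x b a β * S.x a c p * (S.x b a β)⁻¹ := by
    rw [← S.x_neg b a β, S.conj1 h.symm h'' h', S.comm a c b c _ _ h'.symm h'']
  have e2 : S.x c b q * S.x c a (-(β * q)) = S.x b a β * S.x c b q * (S.x b a β)⁻¹ := by
    rw [← S.x_neg b a β, S.conj2 h'.symm h.symm h''.symm, S.comm c b c a _ _ h' h''.symm,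
      mul_comm β q]
  rw [e1, e2, z, e0, S.x_neg]
  group
/-- Expand `z_comm`: conjugate the inverse of the first factor by the second. -/
theorem R1 {a b c : ι} (h : a ≠ b) (h' : b ≠ c) (h'' : a ≠ c) (p q β : A) :
    S.z a b (p * q) β = S.x a c p * S.x b c (β * p) * S.z a c (-p) (-(β * q)) * S.x a b (p * q) *
      S.x c b (-(β * p * q * q)) * S.z b c (-(β * p)) q * S.x b a (-(β * β * p * q)) *
      S.x c a (-(β * β * p * q * q)) := by
  have c1 : S.x a c p * S.x b c (β * p) = S.x b c (β * p) * S.x a c p :=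
    S.comm a c b c _ _ h'.symm h''
  have c2 : S.x c b q * S.x c a (-(β * q)) = S.x c a (-(β * q)) * S.x c b q :=
    S.comm c b c a _ _ h' h''.symm
  have a1 : S.x c b q * S.x a c (-p) * (S.x c b q)⁻¹ = S.x a c (-p) * S.x a b (p * q) := by
    rw [← S.x_neg c b q, S.conj2 h'' h'.symm h, S.comm a c a b _ _ h''.symm h, neg_mul, neg_neg]
  have a2 : S.x c a (-(β * q)) * S.x a b (p * q) * (S.x c a (-(β * q)))⁻¹ =
      S.x a b (p * q) * S.x c b (-(β * p * q * q)) := by
    rw [← S.x_neg c a (-(β * q)), S.conj1 h''.symm h h'.symm, S.comm a b c b _ _ h' h]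
    congr 2
    ring
  have a3 : S.x c a (-(β * q)) * S.x b c (-(β * p)) * (S.x c a (-(β * q)))⁻¹ =
      S.x b c (-(β * p)) * S.x b a (-(β * β * p * q)) := by
    rw [← S.x_neg c a (-(β * q)), S.conj2 h' h''.symm h.symm, S.comm b c b a _ _ h'.symm h.symm]
    congr 2
    ring
  have a4 : S.x c b q * S.x b a (-(β * β * p * q)) * (S.x c b q)⁻¹ =
      S.x b a (-(β * β * p * q)) * S.x c a (-(β * β * p * q * q)) := by
    rw [← S.x_neg c b q, S.conj1 h'.symm h.symm h''.symm, S.comm b a c a _ _ h'' h.symm]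
    congr 2
    ring
  have b1 : S.z a c (-p) (-(β * q)) * S.x a b (p * q) * S.x c b (-(β * p * q * q)) =
      (S.x c b q * S.x c a (-(β * q))) * S.x a c (-p) * (S.x c b q * S.x c a (-(β * q)))⁻¹ := by
    calc _ = S.z a c (-p) (-(β * q)) * (S.x a b (p * q) * S.x c b (-(β * p * q * q))) :=
          mul_assoc _ _ _
      _ = S.x c a (-(β * q)) * (S.x a c (-p) * S.x a b (p * q)) * (S.x c a (-(β * q)))⁻¹ := by
          rw [← a2, z, S.x_neg c a (-(β * q))]
          group
      _ = _ := by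
          rw [← a1, c2]
          group
  have b2 : S.z b c (-(β * p)) q * S.x b a (-(β * β * p * q)) * S.x c a (-(β * β * p * q * q)) =
      (S.x c b q * S.x c a (-(β * q))) * S.x b c (-(β * p)) *
        (S.x c b q * S.x c a (-(β * q)))⁻¹ := by
    calc _ = S.z b c (-(β * p)) q *
            (S.x b a (-(β * β * p * q)) * S.x c a (-(β * β * p * q * q))) := mul_assoc _ _ _
      _ = S.x c b q * (S.x b c (-(β * p)) * S.x b a (-(β * β * p * q))) * (S.x c b q)⁻¹ := by
          rw [← a4, z, S.x_neg c b q]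
          group
      _ = _ := by
          rw [← a3]
          group
  calc _ = S.x a c p * S.x b c (β * p) * (S.x c b q * S.x c a (-(β * q))) *
        (S.x b c (β * p) * S.x a c p)⁻¹ * (S.x c b q * S.x c a (-(β * q)))⁻¹ := by
        rw [S.z_comm h h' h'', ← c1]
    _ = S.x a c p * S.x b c (β * p) *
        (S.z a c (-p) (-(β * q)) * S.x a b (p * q) * S.x c b (-(β * p * q * q))) *
        (S.z b c (-(β * p)) q * S.x b a (-(β * β * p * q)) * S.x c a (-(β * β * p * q * q))) := by
        rw [b1, b2, S.x_neg a c p, S.x_neg b c (β * p)]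
        group
    _ = _ := by simp only [mul_assoc]
/-- `R1` written with commutators. -/
theorem R1ren {a b c : ι} (h : a ≠ b) (h' : b ≠ c) (h'' : a ≠ c) (p q β : A) :
    S.z a b (p * q) β = S.x b c (β * p) *
      (S.y a c p (-(β * q)) * S.x a b (p * q) * S.x c b (-(β * p * q * q))) * (S.x b c (β * p))⁻¹ *
      S.y b c (β * p) q * S.x b a (-(β * β * p * q)) * S.x c a (-(β * β * p * q * q)) := by
  rw [S.R1 h h' h'', S.comm a c b c _ _ h'.symm h'', S.y_eq, S.y_eq]
  group
/-- `R1ren` solved for the commutator with a product in the second slot. -/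
theorem R1peel {a b c : ι} (h : a ≠ b) (h' : b ≠ c) (h'' : a ≠ c) (p q β : A) :
    S.y a c p (-(β * q)) = S.x b c (-(β * p)) * (S.x a b (p * q) *
      (S.y a b (-(p * q)) β * S.x c a (β * β * p * q * q) * S.x b a (β * β * p * q) *
        (S.y b c (β * p) q)⁻¹ * S.x b c (β * p) * S.x c b (β * p * q * q)) *
      (S.x a b (p * q))⁻¹) := by
  have e := S.R1ren h h' h'' p q β
  rw [S.y_eq a b, neg_neg, e, S.x_neg b c (β * p), S.x_neg a b (p * q),
    S.x_neg c b (β * p * q * q), S.x_neg b a (β * β * p * q), S.x_neg c a (β * β * p * q * q)]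
  group

theorem z_mem {J : Ideal A} (a b : ι) {p : A} (hp : p ∈ J) (α : A) : S.z a b p α ∈ S.Zs J :=
  Subgroup.subset_closure ⟨a, b, p, α, hp, rfl⟩
theorem x_mem {J : Ideal A} (a b : ι) {p : A} (hp : p ∈ J) : S.x a b p ∈ S.Zs J := by
  rw [← S.z_zero_right]
  exact S.z_mem a b hp 0
theorem y_mem {J : Ideal A} (a b : ι) {p : A} (hp : p ∈ J) (q : A) : S.y a b p q ∈ S.Zs J := by
  rw [S.y_eq]
  exact mul_mem (S.x_mem a b hp) (S.z_mem a b (J.neg_mem hp) q)
theorem y_mem' {J : Ideal A} (a b : ι) (p : A) {q : A} (hq : q ∈ J) : S.y a b p q ∈ S.Zs J := by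
  rw [← S.y_inv]
  exact inv_mem (S.y_mem b a hq p)
theorem fr_mem {J : Ideal A} (a b : ι) {p : A} (hp : p ∈ J) (α : A) : S.fr a b p α ∈ S.Zs J :=
  mul_mem (mul_mem (S.z_mem a b hp α) (S.x_mem a b (J.neg_mem hp)))
    (S.x_mem b a (J.mul_mem_left _ hp))
theorem sg_mem {J : Ideal A} (a b : ι) {p : A} (hp : p ∈ J) (α : A) : S.sg a b p α ∈ S.Zs J :=
  mul_mem (S.fr_mem a b hp α) (inv_mem (S.fr_mem a b (J.mul_mem_right _ hp) 1))
theorem Zs_mono {J J' : Ideal A} (h : J ≤ J') : S.Zs J ≤ S.Zs J' := by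
  refine Subgroup.closure_mono ?_
  rintro _ ⟨a, b, p, α, hp, rfl⟩
  exact ⟨a, b, p, α, h hp, rfl⟩
theorem mem_Zs_iff_list {J : Ideal A} {h : H} : h ∈ S.Zs J ↔ ∃ l : List (ι × ι × A × A),
    (∀ x ∈ l, x.2.2.1 ∈ J) ∧ h = (l.map fun x => S.z x.1 x.2.1 x.2.2.1 x.2.2.2).prod := by
  constructor
  · intro hh
    induction hh using Subgroup.closure_induction with
    | mem g hg =>
      obtain ⟨a, b, p, α, hp, rfl⟩ := hg
      exact ⟨[(a, b, p, α)], by simpa using hp, by simp⟩
    | one => exact ⟨[], by simp, by simp⟩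
    | mul g g' _ _ hg hg' =>
      obtain ⟨l, hl, rfl⟩ := hg
      obtain ⟨l', hl', rfl⟩ := hg'
      refine ⟨l ++ l', fun x hx => ?_, by simp⟩
      exact (List.mem_append.1 hx).elim (hl x) (hl' x)
    | inv g _ hg =>
      obtain ⟨l, hl, rfl⟩ := hg
      refine ⟨(l.map fun x => (x.1, x.2.1, -x.2.2.1, x.2.2.2)).reverse, fun x hx => ?_, ?_⟩
      · obtain ⟨y, hy, rfl⟩ := List.mem_map.1 (List.mem_reverse.1 hx)
        exact J.neg_mem (hl y hy)
      · rw [List.prod_inv_reverse, List.map_reverse, List.map_map, List.map_map]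
        congr 2
        exact List.map_congr_left fun x _ => (S.z_neg _ _ _ _).symm
  · rintro ⟨l, hl, rfl⟩
    refine Subgroup.list_prod_mem _ fun x hx => ?_
    obtain ⟨y, hy, rfl⟩ := List.mem_map.1 hx
    exact S.z_mem _ _ (hl y hy) _

section Cpt
variable {A' H' : Type} [CommRing A'] [Group H'] {S} {S' : St ι A' H'} {ψ : A →+* A'} {f : H →* H'}
theorem cpt_map (S : St ι A H) (f : H →* H') : S.Cpt (S.map f) (RingHom.id A) f :=
  fun _ _ _ => rfl
theorem Cpt.z (h : S.Cpt S' ψ f) (a b : ι) (p α : A) : f (S.z a b p α) = S'.z a b (ψ p) (ψ α) := by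
  simp only [St.z, map_mul, h _ _ _, map_neg]
theorem Cpt.y (h : S.Cpt S' ψ f) (a b : ι) (p q : A) : f (S.y a b p q) = S'.y a b (ψ p) (ψ q) := by
  simp only [St.y, map_mul, h _ _ _, map_neg]
theorem Cpt.fr (h : S.Cpt S' ψ f) (a b : ι) (p α : A) :
    f (S.fr a b p α) = S'.fr a b (ψ p) (ψ α) := by
  simp only [St.fr, map_mul, h.z, h _ _ _, map_neg, map_pow]
theorem Cpt.sg (h : S.Cpt S' ψ f) (a b : ι) (p α : A) :
    f (S.sg a b p α) = S'.sg a b (ψ p) (ψ α) := by
  simp only [St.sg, map_mul, map_inv, h.fr, map_one]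
theorem Cpt.Zs (h : S.Cpt S' ψ f) {J : Ideal A} {J' : Ideal A'} (hJ : ∀ p ∈ J, ψ p ∈ J') {g : H}
    (hg : g ∈ S.Zs J) : f g ∈ S'.Zs J' := by
  obtain ⟨l, hl, rfl⟩ := S.mem_Zs_iff_list.1 hg
  rw [map_list_prod, List.map_map]
  refine Subgroup.list_prod_mem _ fun x hx => ?_
  obtain ⟨y, hy, rfl⟩ := List.mem_map.1 hx
  rw [Function.comp_apply, h.z]
  exact S'.z_mem _ _ (hJ _ (hl y hy)) _
theorem map_al (ψ : A →+* A') (g t : A) (i : Fin 6) : ψ (al g t i) = al (ψ g) (ψ t) i := by
  fin_cases i <;> simp [al]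
theorem Cpt.nf1 [Fintype ι] (h : S.Cpt S' ψ f) (g t : A) (P : ι × ι × Fin 6 → A) :
    f (S.nf1 g t P) = S'.nf1 (ψ g) (ψ t) fun s => ψ (P s) :=
  map_prodL f _ fun s => by rw [h.z, map_al]
theorem Cpt.nf2 [Fintype ι] (h : S.Cpt S' ψ f) (T : Tri ι) (g t : A) (P : ι × ι → A) (s : ι → A)
    (τ γ : A) : f (S.nf2 T g t P s τ γ) =
      S'.nf2 T (ψ g) (ψ t) (fun ab => ψ (P ab)) (fun a => ψ (s a)) (ψ τ) (ψ γ) := by
  unfold St.nf2
  rw [map_mul, map_mul, map_mul, h.sg, h.sg]
  congr 3
  · exact map_prodL f _ fun s => h _ _ _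
  · exact map_prodL f _ fun s => by rw [h.fr, map_one]
end Cpt

end St

end Pool.Agent.Lib.MP_71aad1_an.SS
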