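import Pool.Agent.Lib.MP_71aad1_an.QR1
import Pool.Agent.Lib.MP_71aad1_an.QS1

set_option autoImplicit false

namespace Pool.Agent.Lib.MP_71aad1_an.SS

open Polynomial Matrix Finset Sum

/-! Operations on joint presentations. -/

variable {VX VY W : Type} [Fintype VX] [DecidableEq VX] [Fintype VY] [DecidableEq VY]
  [Fintype W] [DecidableEq W]

theorem qr6_eX {VX VY W : Type} (x : VX) : eX VX VY W x = inl x := rfl
theorem qr6_eY {VX VY W : Type} (y : VY) : eY VX VY W y = inr (inl y) := rfl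

theorem qr6_nm (a b : RZ) : -a * b = -(a * b) := neg_mul a b
theorem qr6_mn (a b : RZ) : a * -b = -(a * b) := mul_neg a b

section rows
variable (MX : Matrix (J VX) (J VX) RZ) (MY : Matrix (J VY) (J VY) RZ) (g : Matrix VY (J VX) RZ)
  (f : Matrix VX (J VY) RZ)
omit [Fintype VY] in
theorem qr6_M1x (x : VX) : M1 W MX g (inl x) = extv (eX VX VY W) (MX (inl x)) := rfl
omit [Fintype VY] in
theorem qr6_M1y (y : VY) :
    M1 W MX g (inr (inl y)) = Pi.single (inl (inr (inl y))) 1 - extv (eX VX VY W) (g y) := rfl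
omit [Fintype VY] in
theorem qr6_M1w (w : W) : M1 W MX g (inr (inr w)) = Pi.single (inl (inr (inr w))) 1 := rfl
omit [Fintype VX] in
theorem qr6_M2x (x : VX) :
    M2 W MY f (inl x) = Pi.single (inl (inl x)) 1 - extv (eY VX VY W) (f x) := rfl
omit [Fintype VX] in
theorem qr6_M2y (y : VY) : M2 W MY f (inr (inl y)) = extv (eY VX VY W) (MY (inl y)) := rfl
omit [Fintype VX] in
theorem qr6_M2w (w : W) : M2 W MY f (inr (inr w)) = Pi.single (inl (inr (inr w))) 1 := rfl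
end rows

theorem qr6_extX (v : J VX → RZ) : extv (eX VX VY W) v =
    Sum.elim (Sum.elim (fun x => v (inl x)) fun _ => 0) fun h => v (inr h) := by
  funext j
  rcases j with (x | z) | h
  · exact extv_inl (eX VX VY W) v x
  · exact extv_of_not _ _ fun x => by simp [qr6_eX]
  · exact extv_inr _ _ _

theorem qr6_extY (v : J VY → RZ) : extv (eY VX VY W) v =
    Sum.elim (Sum.elim (fun _ => 0) (Sum.elim (fun y => v (inl y)) fun _ => 0))
      fun h => v (inr h) := by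
  funext j
  rcases j with (x | y | w) | h
  · exact extv_of_not _ _ fun x => by simp [qr6_eY]
  · exact extv_inl (eY VX VY W) v y
  · exact extv_of_not _ _ fun x => by simp [qr6_eY]
  · exact extv_inr _ _ _

theorem qr6_hav_inl {V : Type} [DecidableEq V] (ar : RZ) (v : V) : hav ar (inl v : J V) = 0 := by
  simp [hav, arow]

theorem qr6_hav_inr {V V' : Type} [DecidableEq V] [DecidableEq V'] (ar : RZ) (h : Fin 3) :
    hav ar (inr h : J V) = hav ar (inr h : J V') := by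
  simp [hav, arow, Pi.single_apply]

omit [DecidableEq VX] in
theorem qr6_A1_mul (α α' : Matrix VX VX RZ) (g g' : Matrix VY VX RZ) :
    A1 W α g * A1 W α' g' = A1 W (α * α') (g * α' + g') := by
  simp only [A1, fromBlocks_multiply, Matrix.mul_zero, Matrix.zero_mul, add_zero, zero_add,
    Matrix.one_mul, Matrix.mul_one, fromRows_mul, Matrix.neg_mul]
  congr 1
  ext (y | w) x <;> simp [add_comm]

omit [DecidableEq VY] in
theorem qr6_A2_mul (α α' : Matrix VY VY RZ) (f f' : Matrix VX VY RZ) :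
    A2 W α f * A2 W α' f' = A2 W (α * α') (f' + f * α') := by
  simp only [A2, fromBlocks_multiply, Matrix.mul_zero, Matrix.zero_mul, add_zero, zero_add,
    Matrix.one_mul, Matrix.mul_one, fromCols_mul_fromBlocks, Matrix.neg_mul]
  congr 1
  ext x (y | w) <;> simp [add_comm]

omit [Fintype VX] [Fintype VY] [Fintype W] in
theorem qr6_A1_one : A1 W (1 : Matrix VX VX RZ) (0 : Matrix VY VX RZ) = 1 := by
  rw [← fromBlocks_one, A1]
  congr 1
  ext (y | w) x <;> simp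

omit [Fintype VX] [Fintype VY] [Fintype W] in
theorem qr6_A2_one : A2 W (1 : Matrix VY VY RZ) (0 : Matrix VX VY RZ) = 1 := by
  rw [← fromBlocks_one, A2, fromBlocks_one]
  congr 1
  ext x (y | w) <;> simp

theorem mat_Xm (Q : Matrix VY VX RZ) : mat (Xm W Q) = A1 W 1 (-Q) := by
  rw [Xm, mat_prodL_block (fun yx : VY × VX => eY VX VY W yx.1) (fun yx => eX VX VY W yx.2)
    (fun s s' => by simp [qr6_eX, qr6_eY])]
  refine Matrix.ext fun i j => ?_
  rcases i with x | y | w <;> rcases j with x' | y' | w' <;>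
    simp [A1, qr6_eX, qr6_eY, Matrix.sum_apply, single_apply, one_apply, Fintype.sum_prod_type,
      ite_and]
theorem mat_Xp (Q : Matrix VX VY RZ) : mat (Xp W Q) = A2 W 1 (-Q) := by
  rw [Xp, mat_prodL_block (fun xy : VX × VY => eX VX VY W xy.1) (fun xy => eY VX VY W xy.2)
    (fun s s' => by simp [qr6_eX, qr6_eY])]
  refine Matrix.ext fun i j => ?_
  rcases i with x | y | w <;> rcases j with x' | y' | w' <;>
    simp [A2, qr6_eX, qr6_eY, Matrix.sum_apply, single_apply, one_apply, Fintype.sum_prod_type,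
      ite_and]
theorem Xm_add (Q Q' : Matrix VY VX RZ) : Xm W (Q + Q') = Xm W Q * Xm W Q' := by
  refine mat_inj ?_
  rw [mat_mul, mat_Xm, mat_Xm, mat_Xm, qr6_A1_mul, Matrix.mul_one, Matrix.mul_one, neg_add]
theorem Xp_add (Q Q' : Matrix VX VY RZ) : Xp W (Q + Q') = Xp W Q * Xp W Q' := by
  refine mat_inj ?_
  rw [mat_mul, mat_Xp, mat_Xp, mat_Xp, qr6_A2_mul, Matrix.mul_one, Matrix.mul_one, neg_add,
    add_comm]
theorem Xm_zero : Xm W (0 : Matrix VY VX RZ) = 1 := by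
  refine mat_inj ?_
  rw [mat_Xm, neg_zero, qr6_A1_one, mat_one]
theorem Xp_zero : Xp W (0 : Matrix VX VY RZ) = 1 := by
  refine mat_inj ?_
  rw [mat_Xp, neg_zero, qr6_A2_one, mat_one]
theorem Xm_neg (Q : Matrix VY VX RZ) : Xm W (-Q) = (Xm W Q)⁻¹ := by
  rw [eq_inv_iff_mul_eq_one, ← Xm_add, neg_add_cancel, Xm_zero]
theorem Xp_neg (Q : Matrix VX VY RZ) : Xp W (-Q) = (Xp W Q)⁻¹ := by
  rw [eq_inv_iff_mul_eq_one, ← Xp_add, neg_add_cancel, Xp_zero]
theorem Xm_single (y : VY) (x : VX) (p : RZ) :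
    Xm W (single y x p) = (el _ RZ).x (eY VX VY W y) (eX VX VY W x) p := by
  refine mat_inj ?_
  rw [mat_Xm, mat_x (by simp [qr6_eX, qr6_eY])]
  refine Matrix.ext fun i j => ?_
  rcases i with x | y | w <;> rcases j with x' | y' | w' <;>
    simp [A1, qr6_eX, qr6_eY, single_apply, one_apply]
theorem Xp_single (x : VX) (y : VY) (p : RZ) :
    Xp W (single x y p) = (el _ RZ).x (eX VX VY W x) (eY VX VY W y) p := by
  refine mat_inj ?_
  rw [mat_Xp, mat_x (by simp [qr6_eX, qr6_eY])]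
  refine Matrix.ext fun i j => ?_
  rcases i with x | y | w <;> rcases j with x' | y' | w' <;>
    simp [A2, qr6_eX, qr6_eY, single_apply, one_apply]
theorem Xm_mem {d : ℕ} {Q : Matrix VY VX RZ} (h : ∀ y x, X ^ d ∣ Q y x) : Xm W Q ∈ Ed _ d := by
  exact prodL_mem fun s _ => St.x_mem _ _ _ (mem_tI.2 (h _ _))
theorem Xp_mem {d : ℕ} {Q : Matrix VX VY RZ} (h : ∀ x y, X ^ d ∣ Q x y) : Xp W Q ∈ Ed _ d := by
  exact prodL_mem fun s _ => St.x_mem _ _ _ (mem_tI.2 (h _ _))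
theorem Xm_A1 (α : Matrix VX VX RZ) (g Q : Matrix VY VX RZ) :
    mat (Xm W Q) * A1 W α (g + Q * α) = A1 W α g := by
  rw [mat_Xm, qr6_A1_mul, Matrix.one_mul, Matrix.neg_mul]
  congr 1
  abel
theorem Xp_A2 (α : Matrix VY VY RZ) (f Q : Matrix VX VY RZ) :
    mat (Xp W (-Q)) * A2 W α f = A2 W α (f + Q * α) := by
  rw [mat_Xp, qr6_A2_mul, Matrix.one_mul, neg_neg]
/-- The local move between the two skeletons. -/
theorem skel_A (m : Matrix VY VX RZ) (n : Matrix VX VY RZ) :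
    mat (Xp W n * Xm W (-m)) * A2 W (1 - m * n) n = A1 W (1 - n * m) m := by
  have h1 : A1 W 1 m * A2 W (1 - m * n) n =
      fromBlocks 1 (fromCols (-n) (0 : Matrix VX W RZ)) (fromRows (-m) (0 : Matrix W VX RZ)) 1 := by
    simp only [A1, A2, fromBlocks_multiply, Matrix.mul_zero, Matrix.zero_mul, add_zero,
      Matrix.one_mul, Matrix.mul_one, fromRows_mul_fromCols, Matrix.neg_mul, Matrix.mul_neg,
      neg_neg, fromBlocks_add, zero_add, neg_zero, add_sub_cancel, fromBlocks_one]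
  rw [mat_mul, mat_Xp, mat_Xm, neg_neg, Matrix.mul_assoc, h1]
  simp only [A1, A2, fromBlocks_multiply, Matrix.mul_zero, Matrix.zero_mul, add_zero,
    Matrix.one_mul, Matrix.mul_one, fromCols_mul_fromRows, Matrix.mul_neg,
    neg_neg, zero_add, fromBlocks_one, ← sub_eq_add_neg]
  congr 1
  ext x (y | w) <;> simp

theorem M1_act (MX : Matrix (J VX) (J VX) RZ) (g : Matrix VY (J VX) RZ) :
    (M1 W MX g).submatrix id inl = A1 W MX.toBlocks₁₁ (g.submatrix id inl) := by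
  refine Matrix.ext fun i j => ?_
  rcases i with x | y | w <;> rcases j with x' | y' | w' <;>
    simp [qr6_M1x, qr6_M1y, qr6_M1w, A1, qr6_extX, one_apply, Pi.single_apply, toBlocks₁₁, eq_comm]
theorem M2_act (MY : Matrix (J VY) (J VY) RZ) (f : Matrix VX (J VY) RZ) :
    (M2 W MY f).submatrix id inl = A2 W MY.toBlocks₁₁ (f.submatrix id inl) := by
  refine Matrix.ext fun i j => ?_
  rcases i with x | y | w <;> rcases j with x' | y' | w' <;>
    simp [qr6_M2x, qr6_M2y, qr6_M2w, A2, qr6_extY, one_apply, Pi.single_apply, toBlocks₁₁, eq_comm]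

theorem qr6_M1 (ar : RZ) (MX : Matrix (J VX) (J VX) RZ) (g : Matrix VY (J VX) RZ)
    (Q : Matrix VY VX RZ) (c : VY → RZ) :
    mat (Xm W Q) * M1 W MX (g + Q * act MX + vecMulVec c (hav ar)) =
      M1 W MX g - vecMulVec (Sum.elim 0 (Sum.elim c 0)) (hav ar) := by
  rw [mat_Xm]
  refine Matrix.ext fun i j => ?_
  rcases i with x | y | w <;> rcases j with (x' | y' | w') | h <;>
    simp [qr6_M1x, qr6_M1y, qr6_M1w, A1, qr6_extX, one_apply, Pi.single_apply, mul_apply, act, vecMulVec_apply,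
      qr6_hav_inl, qr6_hav_inr (V := VX) (V' := VX ⊕ VY ⊕ W), Fintype.sum_sum_type]
  ring

theorem qr6_M2 (ar : RZ) (MY : Matrix (J VY) (J VY) RZ) (f : Matrix VX (J VY) RZ)
    (Q : Matrix VX VY RZ) (c : VX → RZ) :
    mat (Xp W (-Q)) * M2 W MY f = M2 W MY (f + Q * act MY + vecMulVec c (hav ar)) +
      vecMulVec (Sum.elim c 0) (hav ar) := by
  rw [mat_Xp]
  refine Matrix.ext fun i j => ?_
  rcases i with x | y | w <;> rcases j with (x' | y' | w') | h <;>
    simp [qr6_M2x, qr6_M2y, qr6_M2w, A2, qr6_extY, one_apply, Pi.single_apply, mul_apply, act, vecMulVec_apply,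
      qr6_hav_inl, qr6_hav_inr (V := VY) (V' := VX ⊕ VY ⊕ W), Fintype.sum_sum_type]
  · simp only [eq_comm]
  · simp only [qr6_nm, Finset.sum_neg_distrib, add_comm]
  · simp only [qr6_nm, Finset.sum_neg_distrib, add_comm]

/-- The deflation matrix of the joint system. -/
noncomputable def qr6_D (W : Type) (DX : Matrix (J VX) (J VX) RZ) (DY : Matrix (J VY) (J VY) RZ) :
    Matrix (J (VX ⊕ VY ⊕ W)) (J (VX ⊕ VY ⊕ W)) RZ :=
  fromBlocks 0 (fromRows DX.toBlocks₁₂ (fromRows DY.toBlocks₁₂ 0)) 0 0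

theorem qr6_col {V : Type} {D : Matrix (J V) (J V) RZ}
    (hX : ∀ i j, D i j ≠ 0 → (∃ v, i = inl v) ∧ ∃ k, j = inr k) (i : J V) (v : V) :
    D i (inl v) = 0 := by
  by_contra h
  obtain ⟨-, k, hk⟩ := hX _ _ h
  cases hk

theorem qr6_row {V : Type} {D : Matrix (J V) (J V) RZ}
    (hX : ∀ i j, D i j ≠ 0 → (∃ v, i = inl v) ∧ ∃ k, j = inr k) (k : Fin 3) (j : J V) :
    D (inr k) j = 0 := by
  by_contra h
  obtain ⟨⟨v, hv⟩, -⟩ := hX _ _ h
  cases hv

theorem qr6_DX {DX : Matrix (J VX) (J VX) RZ} (DY : Matrix (J VY) (J VY) RZ)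
    (hX : ∀ i j, DX i j ≠ 0 → (∃ v, i = inl v) ∧ ∃ k, j = inr k) (v : J VX → RZ) :
    extv (eX VX VY W) v ᵥ* qr6_D W DX DY = extv (eX VX VY W) (v ᵥ* DX) := by
  funext j
  rcases j with (x' | y' | w') | h <;>
    simp [qr6_extX, qr6_D, vecMul, dotProduct, Fintype.sum_sum_type, qr6_col hX, qr6_row hX,
      toBlocks₁₂]

theorem qr6_DY (DX : Matrix (J VX) (J VX) RZ) {DY : Matrix (J VY) (J VY) RZ}
    (hY : ∀ i j, DY i j ≠ 0 → (∃ v, i = inl v) ∧ ∃ k, j = inr k) (v : J VY → RZ) :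
    extv (eY VX VY W) v ᵥ* qr6_D W DX DY = extv (eY VX VY W) (v ᵥ* DY) := by
  funext j
  rcases j with (x' | y' | w') | h <;>
    simp [qr6_extY, qr6_D, vecMul, dotProduct, Fintype.sum_sum_type, qr6_col hY, qr6_row hY,
      toBlocks₁₂]

theorem qr6_Dhav (ar : RZ) (DX : Matrix (J VX) (J VX) RZ) (DY : Matrix (J VY) (J VY) RZ) :
    hav ar ᵥ* (1 + qr6_D W DX DY) = hav ar := by
  rw [vecMul_add, vecMul_one, add_eq_left]
  funext j
  rcases j with z | h <;>
    simp [qr6_D, vecMul, dotProduct, Fintype.sum_sum_type (α₂ := Fin 3), qr6_hav_inl]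

theorem qr6_row_mul {m n o : Type} [Fintype n] (A : Matrix m n RZ) (B : Matrix n o RZ) (i : m) :
    (A * B) i = A i ᵥ* B := rfl

theorem qr6_M1D (MX : Matrix (J VX) (J VX) RZ) (g : Matrix VY (J VX) RZ)
    {DX : Matrix (J VX) (J VX) RZ} (DY : Matrix (J VY) (J VY) RZ)
    (hX : ∀ i j, DX i j ≠ 0 → (∃ v, i = inl v) ∧ ∃ k, j = inr k) :
    M1 W MX g * (1 + qr6_D W DX DY) =
      M1 W (MX * (1 + DX)) (g * (1 + DX) - fromCols 0 DY.toBlocks₁₂) := by
  funext i
  rw [qr6_row_mul, vecMul_add, vecMul_one]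
  rcases i with x | y | w
  · rw [qr6_M1x, qr6_M1x, qr6_DX DY hX, qr6_row_mul, vecMul_add, vecMul_one, extv_add]
  · rw [qr6_M1y, qr6_M1y, sub_vecMul, qr6_DX DY hX, single_one_vecMul, Matrix.mul_add,
      Matrix.mul_one]
    funext j
    rcases j with (x' | y' | w') | h <;> simp [qr6_extX, qr6_D, qr6_row_mul, toBlocks₁₂]
    all_goals ring
  · rw [qr6_M1w, qr6_M1w, single_one_vecMul]
    funext j
    rcases j with (x' | y' | w') | h <;> simp [qr6_D]

theorem qr6_M2D (MY : Matrix (J VY) (J VY) RZ) (f : Matrix VX (J VY) RZ)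
    (DX : Matrix (J VX) (J VX) RZ) {DY : Matrix (J VY) (J VY) RZ}
    (hY : ∀ i j, DY i j ≠ 0 → (∃ v, i = inl v) ∧ ∃ k, j = inr k) :
    M2 W MY f * (1 + qr6_D W DX DY) =
      M2 W (MY * (1 + DY)) (f * (1 + DY) - fromCols 0 DX.toBlocks₁₂) := by
  funext i
  rw [qr6_row_mul, vecMul_add, vecMul_one]
  rcases i with x | y | w
  · rw [qr6_M2x, qr6_M2x, sub_vecMul, qr6_DY DX hY, single_one_vecMul, Matrix.mul_add,
      Matrix.mul_one]
    funext j
    rcases j with (x' | y' | w') | h <;> simp [qr6_extY, qr6_D, qr6_row_mul, toBlocks₁₂]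
    all_goals ring
  · rw [qr6_M2y, qr6_M2y, qr6_DY DX hY, qr6_row_mul, vecMul_add, vecMul_one, extv_add]
  · rw [qr6_M2w, qr6_M2w, single_one_vecMul]
    funext j
    rcases j with (x' | y' | w') | h <;> simp [qr6_D]

variable {ar : RZ} {MX : Matrix (J VX) (J VX) RZ} {MY : Matrix (J VY) (J VY) RZ}
  {g : Matrix VY (J VX) RZ} {f : Matrix VX (J VY) RZ} {N : El (VX ⊕ VY ⊕ W) RZ}

theorem Lnk.act (h : Lnk ar MX MY g f N) :
    mat N * A1 W MX.toBlocks₁₁ (g.submatrix id inl) = A2 W MY.toBlocks₁₁ (f.submatrix id inl) := by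
  obtain ⟨⟨c, hc⟩, -⟩ := h
  rw [← M1_act, ← M2_act]
  refine Matrix.ext fun i j => ?_
  have := congrFun (congrFun hc i) (inl j)
  rw [Matrix.add_apply, vecMulVec_apply, qr6_hav_inl, mul_zero, add_zero] at this
  exact this

/-- Modulo `hav`, `M1 g = Xm Q * M1 g'` and `M2 f' = Xp (-Q') * M2 f`. -/
theorem Lnk.change (h : Lnk ar MX MY g f N) (Q : Matrix VY VX RZ) (c : VY → RZ)
    (Q' : Matrix VX VY RZ) (c' : VX → RZ) :
    Lnk ar MX MY (g + Q * SS.act MX + vecMulVec c (hav ar)) (f + Q' * SS.act MY + vecMulVec c' (hav ar))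
      (Xp W (-Q') * N * Xm W Q) := by
  obtain ⟨⟨c0, hc⟩, h2⟩ := h
  refine ⟨⟨Sum.elim c' 0 + mat (Xp W (-Q')) *ᵥ (c0 - mat N *ᵥ Sum.elim 0 (Sum.elim c 0)), ?_⟩,
    fun k hk => ?_⟩
  · rw [mat_mul, mat_mul, Matrix.mul_assoc, qr6_M1, Matrix.mul_assoc, Matrix.mul_sub, hc,
      Matrix.mul_sub, Matrix.mul_add, qr6_M2 ar MY f Q' c', mul_vecMulVec, mul_vecMulVec,
      mul_vecMulVec, add_vecMulVec, mulVec_sub, sub_vecMulVec]
    abel
  · obtain ⟨d, d', hd⟩ := h2 k hk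
    refine ⟨d ᵥ* mat (Xm W Q), d' + d ⬝ᵥ Sum.elim 0 (Sum.elim c 0), ?_⟩
    rw [hd, vecMul_vecMul, qr6_M1, vecMul_sub, vecMul_vecMulVec, add_smul]
    abel

/-- Multiply everything on the right by `1 + D`, where `D` has the rows `extv eX (DX (inl x))`,
`extv eY (DY (inl y))` and vanishes elsewhere. -/
theorem Lnk.defl (h : Lnk ar MX MY g f N) {DX : Matrix (J VX) (J VX) RZ}
    {DY : Matrix (J VY) (J VY) RZ} (hX : ∀ i j, DX i j ≠ 0 → (∃ v, i = inl v) ∧ ∃ k, j = inr k)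
    (hY : ∀ i j, DY i j ≠ 0 → (∃ v, i = inl v) ∧ ∃ k, j = inr k) :
    ∃ (g' : Matrix VY (J VX) RZ) (f' : Matrix VX (J VY) RZ),
      g'.submatrix id inl = g.submatrix id inl ∧ f'.submatrix id inl = f.submatrix id inl ∧
      Lnk ar (MX * (1 + DX)) (MY * (1 + DY)) g' f' N := by
  obtain ⟨⟨c0, hc⟩, h2⟩ := h
  refine ⟨g * (1 + DX) - fromCols 0 DY.toBlocks₁₂, f * (1 + DY) - fromCols 0 DX.toBlocks₁₂,
    ?_, ?_, ⟨c0, ?_⟩, fun k hk => ?_⟩
  · refine Matrix.ext fun i j => ?_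
    rw [Matrix.mul_add, Matrix.mul_one]
    simp [mul_apply, qr6_col hX]
  · refine Matrix.ext fun i j => ?_
    rw [Matrix.mul_add, Matrix.mul_one]
    simp [mul_apply, qr6_col hY]
  · rw [← qr6_M1D MX g DY hX, ← qr6_M2D MY f DX hY, ← Matrix.mul_assoc, hc, Matrix.add_mul,
      vecMulVec_mul, qr6_Dhav]
  · obtain ⟨d, d', hd⟩ := h2 k hk
    refine ⟨d, d', ?_⟩
    have := congrArg (fun v => v ᵥ* (1 + qr6_D W DX DY)) hd
    simp only [add_vecMul, smul_vecMul, qr6_Dhav, vecMul_vecMul, qr6_M1D MX g DY hX] at this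
    rw [← this, qr6_row_mul, qr6_row_mul, sub_vecMul, vecMul_add, vecMul_add, vecMul_add,
      vecMul_add, qr6_DX DY hX, qr6_DY DX hY, vecMul_one, vecMul_one, vecMul_one, vecMul_one,
      extv_add, extv_add]

/-- Read row `eY y` of `N M1 = M2`: the columns of `VY` and `W` determine the coefficients. -/
theorem Lnk.respG {BX : Matrix (J VX) (J VX) RZ} {BY : Matrix (J VY) (J VY) RZ}
    (h : Lnk ar (1 - BX) (1 - BY) g f N) : Resp ar BY BX g := by
  obtain ⟨⟨c0, hc⟩, -⟩ := h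
  intro y
  have hr := congrFun hc (inr (inl y))
  have h1 : ∀ y', mat N (inr (inl y)) (inr (inl y')) = (1 - BY) (inl y) (inl y') := fun y' => by
    simpa [mul_apply, Fintype.sum_sum_type, qr6_M1x, qr6_M1y, qr6_M1w, qr6_M2y, qr6_extX, qr6_extY,
      Pi.single_apply, vecMulVec_apply, qr6_hav_inl] using congrFun hr (inl (inr (inl y')))
  refine ⟨fun x => mat N (inr (inl y)) (inl x), -c0 (inr (inl y)), ?_⟩
  funext j
  have h2 := congrFun hr (Jm (eX VX VY W) j)
  rcases j with x | k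
  · simp [mul_apply, Fintype.sum_sum_type, qr6_M1x, qr6_M1y, qr6_M1w, qr6_M2y, qr6_extX, qr6_extY,
      vecMulVec_apply, qr6_hav_inl, Jm_inl, qr6_eX, h1, one_apply, sub_mul, qr6_mn,
      Finset.sum_add_distrib] at h2
    simp [vecMul, dotProduct, SS.act, qr6_hav_inl, one_apply]
    linear_combination -h2
  · simp [mul_apply, Fintype.sum_sum_type, qr6_M1x, qr6_M1y, qr6_M1w, qr6_M2y, qr6_extX, qr6_extY,
      vecMulVec_apply, Jm_inr, h1, one_apply, sub_mul, qr6_mn,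
      Finset.sum_add_distrib] at h2
    simp [vecMul, dotProduct, SS.act, qr6_hav_inr (V := VX) (V' := VX ⊕ VY ⊕ W), one_apply,
      qr6_mn]
    linear_combination -h2
/-- The same for row `eX x` of `N⁻¹ M2 = M1`. -/
theorem Lnk.respF {BX : Matrix (J VX) (J VX) RZ} {BY : Matrix (J VY) (J VY) RZ}
    (h : Lnk ar (1 - BX) (1 - BY) g f N) : Resp ar BX BY f := by
  obtain ⟨⟨c0, hc⟩, -⟩ := h
  have hc' : mat N⁻¹ * M2 W (1 - BY) f =
      M1 W (1 - BX) g + vecMulVec (-(mat N⁻¹ *ᵥ c0)) (hav ar) := by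
    rw [← sub_eq_iff_eq_add.2 hc, Matrix.mul_sub, ← Matrix.mul_assoc, mat_inv_mul, Matrix.one_mul,
      mul_vecMulVec]
    refine Matrix.ext fun i j => ?_
    simp [vecMulVec_apply, qr6_nm, sub_eq_add_neg]
  generalize -(mat N⁻¹ *ᵥ c0) = c1 at hc'
  generalize mat N⁻¹ = N' at hc'
  intro x
  have hr := congrFun hc' (inl x)
  have h1 : ∀ x', N' (inl x) (inl x') = (1 - BX) (inl x) (inl x') := fun x' => by
    simpa [mul_apply, Fintype.sum_sum_type, qr6_M2x, qr6_M2y, qr6_M2w, qr6_M1x, qr6_extX, qr6_extY,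
      Pi.single_apply, vecMulVec_apply, qr6_hav_inl] using congrFun hr (inl (inl x'))
  refine ⟨fun y => N' (inl x) (inr (inl y)), -c1 (inl x), ?_⟩
  funext j
  have h2 := congrFun hr (Jm (eY VX VY W) j)
  rcases j with y | k
  · simp [mul_apply, Fintype.sum_sum_type, qr6_M2x, qr6_M2y, qr6_M2w, qr6_M1x, qr6_extX, qr6_extY,
      vecMulVec_apply, qr6_hav_inl, Jm_inl, qr6_eY, h1, one_apply, sub_mul, qr6_mn,
      Finset.sum_add_distrib] at h2
    simp [vecMul, dotProduct, SS.act, qr6_hav_inl, one_apply]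
    linear_combination -h2
  · simp [mul_apply, Fintype.sum_sum_type, qr6_M2x, qr6_M2y, qr6_M2w, qr6_M1x, qr6_extX, qr6_extY,
      vecMulVec_apply, Jm_inr, h1, one_apply, sub_mul, qr6_mn,
      Finset.sum_add_distrib] at h2
    simp [vecMul, dotProduct, SS.act, qr6_hav_inr (V := VY) (V' := VX ⊕ VY ⊕ W), one_apply,
      qr6_mn]
    linear_combination -h2

end Pool.Agent.Lib.MP_71aad1_an.SS
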