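import Pool.Agent.Lib.MP_71aad1_an.QA1
import Pool.Agent.Lib.MP_71aad1_an.QR1

set_option autoImplicit false

namespace Pool.Agent.Lib.MP_71aad1_an.SS

open Polynomial Matrix Finset Sum

/-! Units modulo `Del` and normalisation of the generator. -/

theorem Del_coeff_zero : Del.coeff 0 = 1 := by
  simp [Del]

theorem Del_cancel {p : RZ} (h : Del * p = 0) : p = 0 := by
  have h1 : p = C (4 * uL) * p * X := by
    have h2 : (C (4 * uL) : RZ) = 4 * uR := by rw [map_mul, uR]; rfl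
    rw [h2]
    unfold Del at h
    linear_combination h
  ext1 n
  induction n with
  | zero => rw [h1]; simp
  | succ n ih => rw [h1, coeff_mul_X, coeff_C_mul, ih]; simp

theorem qr7_g : Del ∣ 1 - gR := ⟨1 - gR, by
  unfold Del
  linear_combination (-4 * X) * gR_mul_uR⟩

theorem qr7_eight : Del ∣ 1 - 8 * X := by
  have h : (1 - 8 * X : RZ) = Del - 4 * X * (1 - gR) := by
    unfold Del
    rw [uR_eq]
    ring
  rw [h]
  exact dvd_sub dvd_rfl (qr7_g.mul_left _)

theorem qr7_pow (n : ℕ) : Del ∣ 1 - 8 ^ n * X ^ n := by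
  rw [← mul_pow]
  have := sub_dvd_pow_sub_pow (1 : RZ) (8 * X) n
  rw [one_pow] at this
  exact qr7_eight.trans this

theorem qr7_C (c : Lam ℤ) : Del ∣ C c - (augZ c : RZ) := by
  have h : c = (c.re : Lam ℤ) + (c.im : Lam ℤ) * gL := by
    ext <;> simp [gL]
  have h2 : (C c : RZ) = (c.re : RZ) + (c.im : RZ) * gR := by
    conv_lhs => rw [h]
    rw [map_add, map_mul, map_intCast, map_intCast, gR]
  have h3 : augZ c = c.re + c.im := rfl
  have h4 : (C c : RZ) - (augZ c : RZ) = -(c.im : RZ) * (1 - gR) := by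
    rw [h2, h3]
    push_cast
    ring
  rw [h4]
  exact qr7_g.mul_left _

theorem qr7_red (p : RZ) : ∃ (N : ℕ) (a : ℤ), Del ∣ p - (a : RZ) * X ^ N := by
  induction p using Polynomial.induction_on' with
  | add p q hp hq =>
    obtain ⟨N, a, hp⟩ := hp
    obtain ⟨M, b, hq⟩ := hq
    refine ⟨N + M, a * 8 ^ M + b * 8 ^ N, ?_⟩
    have h : p + q - ((a * 8 ^ M + b * 8 ^ N : ℤ) : RZ) * X ^ (N + M)
        = (p - (a : RZ) * X ^ N) + (q - (b : RZ) * X ^ M)
          + (a : RZ) * X ^ N * (1 - 8 ^ M * X ^ M) + (b : RZ) * X ^ M * (1 - 8 ^ N * X ^ N) := by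
      push_cast
      ring
    rw [h]
    exact dvd_add (dvd_add (dvd_add hp hq) ((qr7_pow M).mul_left _)) ((qr7_pow N).mul_left _)
  | monomial n c =>
    refine ⟨n, augZ c, ?_⟩
    rw [← C_mul_X_pow_eq_monomial, ← sub_mul]
    exact (qr7_C c).mul_right _

theorem qr7_ev_Del : ev (1 / 8) Del = 0 := by
  unfold Del
  rw [map_sub, map_mul, map_mul, ev_uR, ev_X, map_one, map_ofNat]
  norm_num

theorem qr7_ev_dvd {p : RZ} (h : Del ∣ p) : ev (1 / 8) p = 0 := by
  obtain ⟨q, rfl⟩ := h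
  rw [map_mul, qr7_ev_Del, zero_mul]

theorem qr7_ev_red {p : RZ} {N : ℕ} {a : ℤ} (h : Del ∣ p - (a : RZ) * X ^ N) :
    ev (1 / 8) p = a * (1 / 8) ^ N := by
  have h1 := qr7_ev_dvd h
  rw [map_sub, map_mul, map_pow, ev_X, map_intCast] at h1
  linarith

/-- Modulo `Del`, `g ≡ 1` (because `(1 - g) u = 0`) and `8 t ≡ 1`; an integer polynomial vanishing
at `1 / 8` is divisible by `1 - 8 t` (Gauss lemma, or induction on the degree). -/
theorem Del_dvd_of_ev {p : RZ} (h : ev (1 / 8) p = 0) : Del ∣ p := by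
  obtain ⟨N, a, ha⟩ := qr7_red p
  have h1 := qr7_ev_red ha
  rw [h] at h1
  have h2 : (a : ℝ) = 0 := by
    rcases mul_eq_zero.1 h1.symm with h3 | h3
    · exact h3
    · exact absurd h3 (by positivity)
  have h3 : a = 0 := by exact_mod_cast h2
  simpa [h3] using ha

/-- `8 ^ N ev (1 / 8) y` is an integer dividing a power of two, so `ev (1 / 8) y = ± 2 ^ i / 8 ^ j`. -/
theorem unit_mod_Del {y y' : RZ} (h : Del ∣ y * y' - 1) :
    ∃ i j : ℕ, Del ∣ y - uR ^ i * X ^ j ∨ Del ∣ y + uR ^ i * X ^ j := by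
  obtain ⟨N, a, ha⟩ := qr7_red y
  obtain ⟨M, b, hb⟩ := qr7_red y'
  have h1 := qr7_ev_dvd h
  rw [map_sub, map_mul, map_one, qr7_ev_red ha, qr7_ev_red hb] at h1
  have h2 : (a : ℝ) * b = 2 ^ (3 * (N + M)) := by
    rw [pow_mul, pow_add]
    have h8 : ((2 : ℝ) ^ 3) = 8 := by norm_num
    rw [h8]
    rw [one_div, inv_pow, inv_pow] at h1
    field_simp at h1
    linarith
  have h3 : a * b = 2 ^ (3 * (N + M)) := by exact_mod_cast h2
  have h4 : a.natAbs ∣ 2 ^ (3 * (N + M)) := by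
    have := congrArg Int.natAbs h3
    rw [Int.natAbs_mul, Int.natAbs_pow] at this
    exact ⟨b.natAbs, this.symm⟩
  obtain ⟨i, -, hi⟩ := (Nat.dvd_prime_pow Nat.prime_two).1 h4
  refine ⟨i, N, ?_⟩
  rcases Int.natAbs_eq a with h5 | h5
  · left
    apply Del_dvd_of_ev
    rw [map_sub, map_mul, map_pow, map_pow, ev_uR, ev_X, qr7_ev_red ha, h5, hi]
    push_cast
    ring
  · right
    apply Del_dvd_of_ev
    rw [map_add, map_mul, map_pow, map_pow, ev_uR, ev_X, qr7_ev_red ha, h5, hi]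
    push_cast
    ring

variable {ι : Type} [Fintype ι] [DecidableEq ι]

/-- The diagonal matrix with `Del` at one place. -/
noncomputable def Dm (i0 : ι) : Matrix ι ι RZ := diagonal fun i => if i = i0 then Del else 1

theorem qr7_vm {a b : ι} (h : a ≠ b) (p : RZ) (v : ι → RZ) (k : ι) :
    (v ᵥ* mat ((el ι RZ).x a b p)) k = if k = b then v b + v a * p else v k := by
  rw [mat_x h, vecMul_add, vecMul_one, Pi.add_apply]
  have h1 : (v ᵥ* single a b p) k = if k = b then v a * p else 0 := by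
    simp only [vecMul, dotProduct, single_apply]
    rw [Finset.sum_eq_single a]
    · by_cases hk : k = b
      · simp [hk]
      · simp [hk, Ne.symm hk]
    · intro c _ hc
      simp [Ne.symm hc]
    · simp
  rw [h1]
  split_ifs with hk
  · rw [hk]
  · rw [add_zero]

theorem qr7_vD (i0 : ι) (v : ι → RZ) (k : ι) :
    (v ᵥ* Dm i0) k = if k = i0 then v i0 * Del else v k := by
  rw [Dm, vecMul_diagonal]
  split_ifs with hk
  · rw [hk]
  · rw [mul_one]

/-- On the indices `i0`, `i1`: `g' = x₁₀(-m) x₀₁(n) x₁₀(-1) x₀₁(1) x₁₀(-1)` has matrix with first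
column congruent to the right values, and `g = ω⁻¹ x₁₀(m) x₀₁(-n)` with
`ω = x₁₀(-1) x₀₁(1) x₁₀(-1)`; indeed `x₁₀(m) x₀₁(-n) diag(Del, 1) x₁₀(-m) x₀₁(n) = diag(1, Del)`. -/
theorem unit_step {i0 i1 : ι} (h : i0 ≠ i1) {m n : RZ} (hmn : m * n = 1 - Del) :
    ∃ g g' : El ι RZ, mat g * Dm i0 * mat g' = Dm i0 ∧
      ∀ y : ι → RZ, Del ∣ (y ᵥ* mat g') i0 + n * y i0 := by
  have h' := h.symm
  have hD : Del = 1 - m * n := by linear_combination hmn
  refine ⟨(el ι RZ).x i1 i0 1 * (el ι RZ).x i0 i1 (-1) * (el ι RZ).x i1 i0 1 *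
      (el ι RZ).x i1 i0 m * (el ι RZ).x i0 i1 (-n),
    (el ι RZ).x i1 i0 (-m) * (el ι RZ).x i0 i1 n * (el ι RZ).x i1 i0 (-1) *
      (el ι RZ).x i0 i1 1 * (el ι RZ).x i1 i0 (-1), ?_, fun y => ?_⟩
  · refine Matrix.ext_iff_vecMul.2 fun v => funext fun k => ?_
    simp only [mat_mul, ← vecMul_vecMul, qr7_vm h, qr7_vm h', qr7_vD, if_true, if_neg h,
      if_neg h']
    split_ifs with h0 h1
    · rw [hD]; ring
    · rw [h1, hD]; ring
    · rfl
  · simp only [mat_mul, ← vecMul_vecMul, qr7_vm h, qr7_vm h', if_true, if_neg h, if_neg h']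
    exact ⟨-y i1, by rw [hD]; ring⟩

theorem qr7_norm {i0 i1 : ι} (h : i0 ≠ i1) {m n : RZ} (hmn : m * n = 1 - Del) {w : RZ}
    (ih : ∀ y : ι → RZ, Del ∣ y i0 - w ∨ Del ∣ y i0 + w →
      ∃ g g' : El ι RZ, mat g * Dm i0 * mat g' = Dm i0 ∧ Del ∣ (y ᵥ* mat g') i0 - 1)
    (y : ι → RZ) (hy : Del ∣ y i0 - m * w ∨ Del ∣ y i0 + m * w) :
    ∃ g g' : El ι RZ, mat g * Dm i0 * mat g' = Dm i0 ∧ Del ∣ (y ᵥ* mat g') i0 - 1 := by
  obtain ⟨g, g', hg, hd⟩ := unit_step h hmn
  have hd' := hd y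
  have key : Del ∣ (y ᵥ* mat g') i0 - w ∨ Del ∣ (y ᵥ* mat g') i0 + w := by
    rcases hy with hy | hy
    · right
      have e : (y ᵥ* mat g') i0 + w
          = ((y ᵥ* mat g') i0 + n * y i0) - n * (y i0 - m * w) + Del * w := by
        linear_combination (-w) * hmn
      rw [e]
      exact dvd_add (dvd_sub hd' (hy.mul_left _)) (dvd_mul_right _ _)
    · left
      have e : (y ᵥ* mat g') i0 - w
          = ((y ᵥ* mat g') i0 + n * y i0) - n * (y i0 + m * w) - Del * w := by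
        linear_combination w * hmn
      rw [e]
      exact dvd_sub (dvd_sub hd' (hy.mul_left _)) (dvd_mul_right _ _)
  obtain ⟨f, f', hf, hfd⟩ := ih _ key
  refine ⟨f * g, g' * f', ?_, ?_⟩
  · rw [mat_mul, mat_mul]
    calc mat f * mat g * Dm i0 * (mat g' * mat f')
        = mat f * (mat g * Dm i0 * mat g') * mat f' := by simp only [Matrix.mul_assoc]
      _ = Dm i0 := by rw [hg, hf]
  · rwa [mat_mul, ← vecMul_vecMul]

/-- Induction on `i + j` with `unit_step` for `(m, n) = (u, 4 t)`, `(t, 4 u)`, and `(-1, -4 u t)`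
or `(1, 4 u t)` for the sign. -/
theorem unit_norm {i0 i1 : ι} (h : i0 ≠ i1) {y : ι → RZ} {y' : RZ} (hy : Del ∣ y i0 * y' - 1) :
    ∃ g g' : El ι RZ, mat g * Dm i0 * mat g' = Dm i0 ∧ Del ∣ (y ᵥ* mat g') i0 - 1 := by
  obtain ⟨i, j, hij⟩ := unit_mod_Del hy
  clear hy
  induction i generalizing y with
  | succ i ih =>
    refine qr7_norm h (m := uR) (n := 4 * X) (by unfold Del; ring) (fun y => ih) y ?_
    rwa [← mul_assoc, ← pow_succ']
  | zero =>
    rw [pow_zero, one_mul] at hij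
    induction j generalizing y with
    | succ j ih =>
      refine qr7_norm h (m := X) (n := 4 * uR) (by unfold Del; ring) (fun y => ih) y ?_
      rwa [← pow_succ']
    | zero =>
      rw [pow_zero] at hij
      rcases hij with hij | hij
      · exact ⟨1, 1, by simp, by simpa using hij⟩
      · obtain ⟨g, g', hg, hd⟩ := unit_step h (m := 1) (n := 4 * uR * X) (by unfold Del; ring)
        refine ⟨g, g', hg, ?_⟩
        have e : (y ᵥ* mat g') i0 - 1 = ((y ᵥ* mat g') i0 + 4 * uR * X * y i0)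
            - 4 * uR * X * (y i0 + 1) - Del := by
          unfold Del
          ring
        rw [e]
        exact dvd_sub (dvd_sub (hd y) (hij.mul_left _)) dvd_rfl

end Pool.Agent.Lib.MP_71aad1_an.SS
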