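import Pool.Agent.Lib.MP_71aad1_an.QR7
import Pool.Agent.Lib.MP_71aad1_an.QR2

set_option autoImplicit false

namespace Pool.Agent.Lib.MP_71aad1_an.SS

open Polynomial Matrix Finset Sum

/-! Reduction to the model presentation. -/

variable {V ι : Type} [Fintype V] [DecidableEq V] [Fintype ι] [DecidableEq ι]

theorem qr8_padD (e : Unit ↪ ι) : padM e (of fun _ _ : Unit => Del) = Dm (e ()) := by
  ext1 i j
  by_cases hi : e () = i
  · subst hi
    by_cases hj : e () = j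
    · subst hj
      rw [padM_apply, Dm, diagonal_apply_eq, if_pos rfl, of_apply]
    · rw [padM_of_col e _ _ (fun _ => hj), Dm, diagonal_apply_ne _ hj, one_apply_ne hj]
  · rw [padM_of_row e _ (fun _ => hi), Dm, diagonal_apply, one_apply, if_neg (Ne.symm hi)]

omit [Fintype ι] in
theorem qr8_padJ (e : V ↪ ι) (α : Matrix V V RZ) (β : Matrix V (Fin 3) RZ)
    (γ : Matrix (Fin 3) V RZ) (δ : Matrix (Fin 3) (Fin 3) RZ) :
    padM (Jm e) (fromBlocks α β γ δ) =
      fromBlocks (padM e α) ((embM RZ e)ᵀ * β) (γ * embM RZ e) δ := by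
  have h : embM RZ (Jm e) = fromBlocks (embM RZ e) 0 0 1 := by
    ext1 i j
    rcases i with i | i <;> rcases j with j | j <;> simp [embM, Jm_inl, Jm_inr, one_apply]
  rw [padM, h, padM, ← fromBlocks_one (l := V), ← fromBlocks_one (l := ι), fromBlocks_transpose,
    sub_eq_add_neg, fromBlocks_neg, fromBlocks_add, fromBlocks_multiply, fromBlocks_multiply,
    fromBlocks_add]
  simp [sub_eq_add_neg]

theorem qr8_eqv_El (g g' : El V RZ) (α : Matrix V V RZ) (β : Matrix V (Fin 3) RZ)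
    (γ : Matrix (Fin 3) V RZ) (δ : Matrix (Fin 3) (Fin 3) RZ) :
    Eqv (fromBlocks α β γ δ) (fromBlocks (mat g * α * mat g') (mat g * β) (γ * mat g') δ) := by
  obtain ⟨U, hU, h⟩ := UG_of_El g
  obtain ⟨U', hU', h'⟩ := VG_of_El g'
  refine ⟨U, hU, U', hU', ?_⟩
  rw [h, h', hb, hb, fromBlocks_multiply, fromBlocks_multiply]
  simp

/-- `Eqv.blocks`, after padding with one more index; the padded one by one matrix is `Dm`. -/
theorem RelD.blocks {A : Matrix V V (Lam ℤ)} (h : RelD A) :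
    ∃ (ι : Type) (_ : Fintype ι) (_ : DecidableEq ι) (e : V ↪ ι) (i0 i1 : ι) (g g' : El ι RZ),
      i0 ≠ i1 ∧ mat g * padM e (1 - tM A) * mat g' = Dm i0 := by
  obtain ⟨W, _, _, e, e', h⟩ := h
  have h1 := h.pad (Function.Embedding.some : W ↪ Option W)
  rw [padM_padM, padM_padM, ← Jm_trans, ← Jm_trans, padM_hb, padM_hb] at h1
  obtain ⟨g, g', h2⟩ := h1.blocks fun _ => rfl
  rw [hb, hb, toBlocks_fromBlocks₁₁, toBlocks_fromBlocks₁₁, qr8_padD] at h2
  exact ⟨Option W, _, _, _, _, none, g, g', Option.some_ne_none _, h2⟩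

/-- A matrix on `J (ι ⊕ Unit)` given by its nine blocks. -/
def qr8St {A : Type} (α : Matrix ι ι A) (u v : ι → A) (s : A) (β : Matrix ι (Fin 3) A)
    (b : Fin 3 → A) (γ : Matrix (Fin 3) ι A) (p : Fin 3 → A) (δ : Matrix (Fin 3) (Fin 3) A) :
    Matrix (J (ι ⊕ Unit)) (J (ι ⊕ Unit)) A :=
  fromBlocks (fromBlocks α (of fun i _ => u i) (of fun _ j => v j) (of fun _ _ => s))
    (fromRows β (of fun _ k => b k)) (fromCols γ (of fun k _ => p k)) δ

section
variable {A : Type} [CommRing A] (α : Matrix ι ι A) (u v : ι → A) (s : A) (β : Matrix ι (Fin 3) A)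
  (b : Fin 3 → A) (γ : Matrix (Fin 3) ι A) (p : Fin 3 → A) (δ : Matrix (Fin 3) (Fin 3) A)

theorem qr8_e1 (c : ι → A) (q : Fin 3 → A) :
    (1 + qr8St 0 c 0 0 0 0 0 q 0) * qr8St α u v s β b γ p δ =
      qr8St (α + vecMulVec c v) (u + s • c) v s (β + vecMulVec c b) b (γ + vecMulVec q v)
        (p + s • q) (δ + vecMulVec q b) := by
  rw [Matrix.add_mul, Matrix.one_mul]
  ext1 i j
  rcases i with (i | i) | i <;> rcases j with (j | j) | j <;>
    simp [qr8St, mul_apply, vecMulVec_apply, mul_comm s]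

theorem qr8_e2 (c : ι → A) :
    (1 + qr8St 0 0 c 0 0 0 0 0 0) * qr8St α u v s β b γ p δ =
      qr8St α u (v + c ᵥ* α) (s + c ⬝ᵥ u) β (b + c ᵥ* β) γ p δ := by
  rw [Matrix.add_mul, Matrix.one_mul]
  ext1 i j
  rcases i with (i | i) | i <;> rcases j with (j | j) | j <;>
    simp [qr8St, mul_apply, vecMul, dotProduct]

theorem qr8_e3 (c : ι → A) :
    qr8St α u v s β b γ p δ * (1 + qr8St 0 0 c 0 0 0 0 0 0) =
      qr8St (α + vecMulVec u c) u (v + s • c) s β b (γ + vecMulVec p c) p δ := by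
  rw [Matrix.mul_add, Matrix.mul_one]
  ext1 i j
  rcases i with (i | i) | i <;> rcases j with (j | j) | j <;>
    simp [qr8St, mul_apply, vecMulVec_apply]

theorem qr8_e4 : qr8St 1 u 0 s β b 0 p δ * (1 + qr8St 0 (-u) 0 0 (-β) 0 0 0 0) =
    qr8St 1 0 0 s 0 b 0 p δ := by
  rw [Matrix.mul_add, Matrix.mul_one]
  ext1 i j
  rcases i with (i | i) | i <;> rcases j with (j | j) | j <;>
    simp [qr8St, mul_apply, one_apply]

theorem qr8_e5 : fromBlocks (fromBlocks α 0 0 1)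
    ((embM A (Function.Embedding.inl : ι ↪ ι ⊕ Unit))ᵀ * β)
    (γ * embM A (Function.Embedding.inl : ι ↪ ι ⊕ Unit)) δ = qr8St α 0 0 1 β 0 γ 0 δ := by
  ext1 i j
  rcases i with (i | i) | i <;> rcases j with (j | j) | j <;>
    simp [qr8St, Matrix.mul_apply, embM]

omit [Fintype ι] in
theorem qr8_e6 : fromBlocks (fromBlocks 1 0 0 (of fun _ _ => s))
    ((embM A (Function.Embedding.inr : Unit ↪ ι ⊕ Unit))ᵀ * (of fun _ k => b k : Matrix Unit _ A))
    ((of fun k _ => p k : Matrix _ Unit A) * embM A (Function.Embedding.inr : Unit ↪ ι ⊕ Unit)) δ =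
      qr8St (ι := ι) 1 0 0 s 0 b 0 p δ := by
  ext1 i j
  rcases i with (i | i) | i <;> rcases j with (j | j) | j <;>
    simp [qr8St, Matrix.mul_apply, embM]

omit [Fintype ι] [DecidableEq ι] in
theorem qr8_c1 (c : ι → A) (q : Fin 3 → A) (hq : q 0 = 0) (i j : J (ι ⊕ Unit))
    (hij : qr8St 0 c 0 0 0 0 0 q 0 i j ≠ 0) :
    i ≠ inl (inr ()) ∧ ¬ j ≠ inl (inr ()) ∧ i ≠ inr 0 ∧ (j = inr 0 ∨ ∃ v, j = inl v) := by
  rcases i with (i | i) | i <;> rcases j with (j | j) | j <;> simp [qr8St] at hij ⊢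
  rintro rfl
  exact hij hq

omit [Fintype ι] [DecidableEq ι] in
theorem qr8_c2 (c : ι → A) (i j : J (ι ⊕ Unit)) (hij : qr8St 0 0 c 0 0 0 0 0 0 i j ≠ 0) :
    i = inl (inr ()) ∧ ∃ v, j = inl (inl v) := by
  rcases i with (i | i) | i <;> rcases j with (j | j) | j <;> simp [qr8St] at hij ⊢

omit [Fintype ι] [DecidableEq ι] in
theorem qr8_c4 (i j : J (ι ⊕ Unit)) (hij : qr8St 0 u 0 0 β 0 0 0 0 i j ≠ 0) :
    (∃ a, i = inl (inl a)) ∧ (¬ ∃ a, j = inl (inl a)) ∧ ∃ v, i = inl v := by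
  rcases i with (i | i) | i <;> rcases j with (j | j) | j <;> simp [qr8St] at hij ⊢

omit [Fintype ι] [DecidableEq ι] in
theorem qr8_a1 : α + s • vecMulVec u v + vecMulVec (s • u) (-v) = α := by
  rw [vecMulVec_neg, smul_vecMulVec, add_neg_cancel_right]

omit [Fintype ι] [DecidableEq ι] in
theorem qr8_a2 : β + vecMulVec u 0 = β := by
  ext1 i j
  rw [Matrix.add_apply, vecMulVec_apply, Pi.zero_apply, mul_zero, add_zero]

omit [Fintype ι] [DecidableEq ι] in
theorem qr8_a3 : -vecMulVec p v + vecMulVec (-p) (-v) = 0 := by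
  rw [vecMulVec_neg, neg_vecMulVec, add_neg_cancel]

omit [Fintype ι] in
theorem qr8_diag (i0 : ι) (d : A) : (diagonal fun i => if i = i0 then d else 1) +
    vecMulVec ((d - 1) • Pi.single i0 1) (-Pi.single i0 1) = 1 := by
  ext1 i j
  rw [Matrix.add_apply, diagonal_apply, vecMulVec_apply, one_apply, Pi.smul_apply,
    Pi.neg_apply, Pi.single_apply, Pi.single_apply, smul_eq_mul]
  split_ifs <;> simp_all [mul_neg]

end

section
variable {α α' : Matrix ι ι RZ} {u v u' v' : ι → RZ} {s s' : RZ} {β β' : Matrix ι (Fin 3) RZ}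
  {b b' : Fin 3 → RZ} {γ γ' : Matrix (Fin 3) ι RZ} {p p' : Fin 3 → RZ}
  {δ δ' : Matrix (Fin 3) (Fin 3) RZ}

theorem qr8_rowUp (c : ι → RZ) (q : Fin 3 → RZ) (hq : q 0 = 0) (h1 : α + vecMulVec c v = α')
    (h2 : u + s • c = u') (h3 : β + vecMulVec c b = β') (h4 : γ + vecMulVec q v = γ')
    (h5 : p + s • q = p') (h6 : δ + vecMulVec q b = δ') :
    Eqv (qr8St α u v s β b γ p δ) (qr8St α' u' v s β' b γ' p' δ') := by
  rw [← h1, ← h2, ← h3, ← h4, ← h5, ← h6, ← qr8_e1]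
  exact eqv_left _ (fun i => i ≠ inl (inr ())) _ (qr8_c1 c q hq)

theorem qr8_rowLo (c : ι → RZ) (h1 : v + c ᵥ* α = v') (h2 : s + c ⬝ᵥ u = s')
    (h3 : b + c ᵥ* β = b') : Eqv (qr8St α u v s β b γ p δ) (qr8St α u v' s' β b' γ p δ) := by
  rw [← h1, ← h2, ← h3, ← qr8_e2]
  refine eqv_left _ (fun i => i = inl (inr ())) _ fun i j hij => ?_
  obtain ⟨rfl, v, rfl⟩ := qr8_c2 c i j hij
  simp

theorem qr8_colLo (c : ι → RZ) (h1 : α + vecMulVec u c = α') (h2 : v + s • c = v')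
    (h3 : γ + vecMulVec p c = γ') :
    Eqv (qr8St α u v s β b γ p δ) (qr8St α' u v' s β b γ' p δ) := by
  rw [← h1, ← h2, ← h3, ← qr8_e3]
  refine eqv_right _ (fun i => i = inl (inr ())) _ fun i j hij => ?_
  obtain ⟨rfl, v, rfl⟩ := qr8_c2 c i j hij
  simp

theorem qr8_colUp : Eqv (qr8St 1 u 0 s β b 0 p δ) (qr8St (ι := ι) 1 0 0 s 0 b 0 p δ) := by
  rw [← qr8_e4 u s β b p δ]
  exact eqv_right _ (fun i => ∃ a, i = inl (inl a)) _ (qr8_c4 _ _)

end

/-- Work on `Option ι`, with the model state at `none`. Start from the padding; column operation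
putting `-y` into row `none`; hub rows `-= p h •` row `none`; rows `some i` `+= ξ x i •` row
`none`. The active block is now `[[D, ξ x], [-y, 1]]`. Row `none` `+= y i •` row `some i` for
`i ≠ i0`; clear the entries `ξ x i` and `-(x i) b` (`i ≠ i0`) by column operations; with
`y i0 = 1 + k Del`, row `none` `+= k •` row `some i0`, then row `some i0` `+= Del •` row `none` gives
`(0, Del + ξ lam | -lam b)`; finish with the rotation `x(1) x(-1) x(1)` of these two rows and clear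
the row with a unit pivot by column operations. -/
theorem canon_core (i0 : ι) (x y : ι → RZ) (lam ξ : RZ) (b p : Fin 3 → RZ)
    (δ : Matrix (Fin 3) (Fin 3) RZ) (hp : p 0 = 0) (hy : Del ∣ y i0 - 1)
    (hl : y i0 * x i0 + Del * ∑ i ∈ univ.erase i0, y i * x i = lam) :
    Rel (fromBlocks (Dm i0 + ξ • vecMulVec x y) (-vecMulVec x b) (-vecMulVec p y) δ)
      (fromBlocks (of fun _ _ : Unit => Del + ξ * lam) (of fun _ k => -(lam * b k))
        (of fun k _ => -p k) δ) := by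
  obtain ⟨k, hk⟩ := hy
  obtain ⟨c, hc0, hc⟩ : ∃ c : ι → RZ, c i0 = k ∧ ∀ i, i ≠ i0 → c i = y i :=
    ⟨Function.update y i0 k, Function.update_self .., fun i hi => Function.update_of_ne hi _ _⟩
  have h1 : -y + c ᵥ* Dm i0 = -Pi.single i0 1 := by
    funext j
    rw [Pi.add_apply, Dm, vecMul_diagonal, Pi.neg_apply, Pi.neg_apply]
    rcases eq_or_ne j i0 with rfl | hj
    · rw [if_pos rfl, hc0, Pi.single_eq_same]
      linear_combination -hk
    · rw [if_neg hj, hc j hj, Pi.single_eq_of_ne hj]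
      ring
  have h2 : x i0 + Del * (c ⬝ᵥ x) = lam := by
    rw [← hl, dotProduct, ← Finset.add_sum_erase _ _ (Finset.mem_univ i0), hc0,
      Finset.sum_congr rfl fun i hi => congrArg (· * x i) (hc i (Finset.ne_of_mem_erase hi))]
    linear_combination -(x i0) * hk
  have h3 : Dm i0 + vecMulVec ((Del - 1) • Pi.single i0 1) (-Pi.single i0 1) = 1 :=
    qr8_diag i0 Del
  refine ⟨ι ⊕ Unit, inferInstance, inferInstance, Function.Embedding.inl, Function.Embedding.inr,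
    ?_⟩
  rw [qr8_padJ, qr8_padJ, padM_inl, padM_inr, qr8_e5, qr8_e6]
  refine (qr8_colLo (-y) (v' := -y) (by rw [zero_vecMulVec, add_zero]) (by simp)
    (by rw [zero_vecMulVec, add_zero])).trans ?_
  refine (qr8_rowUp (ξ • x) (-p) (by simp [hp]) (α' := Dm i0) (u' := ξ • x) (γ' := 0) (p' := -p)
    (qr8_a1 _ _ _ _) (by simp) (qr8_a2 _ _) (qr8_a3 _ _) (by simp) (qr8_a2 _ _)).trans ?_
  refine (qr8_rowLo c h1 rfl rfl).trans ?_
  refine (qr8_rowUp ((Del - 1) • Pi.single i0 1) 0 rfl h3 rfl rfl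
    (by rw [zero_vecMulVec, add_zero]) (by rw [smul_zero, add_zero])
    (by rw [zero_vecMulVec, add_zero])).trans ?_
  refine (qr8_rowLo (Pi.single i0 1) (by rw [vecMul_one, neg_add_cancel]) ?_ ?_).trans qr8_colUp
  · simp only [single_dotProduct, Pi.add_apply, Pi.smul_apply, Pi.single_eq_same, smul_eq_mul,
      dotProduct_smul]
    linear_combination ξ * h2
  · funext j
    simp only [single_vecMul, Pi.add_apply, Pi.smul_apply, Pi.single_eq_same, smul_eq_mul,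
      vecMul_neg, vecMul_vecMulVec, Matrix.add_apply, Matrix.neg_apply, vecMulVec_apply,
      Pi.neg_apply, Pi.zero_apply, row_apply]
    linear_combination -(b j) * h2

theorem qr8_vecMul_pad (e : V ↪ ι) (α : Matrix V V RZ) (c : V → RZ) :
    (c ᵥ* embM RZ e) ᵥ* padM e α = (c ᵥ* α) ᵥ* embM RZ e := by
  rw [padM, vecMul_add, vecMul_one, vecMul_vecMul, ← Matrix.mul_assoc, ← Matrix.mul_assoc,
    embM_mul, Matrix.one_mul, ← vecMul_vecMul, vecMul_sub, vecMul_one, sub_vecMul, add_sub_cancel]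

omit [Fintype ι] in
theorem qr8_single (e : V ↪ ι) (w : V) :
    (Pi.single w 1 : V → RZ) ᵥ* embM RZ e = Pi.single (e w) 1 := by
  funext j
  rw [single_vecMul, one_smul, row_apply, embM, Pi.single_apply]
  exact if_congr eq_comm rfl rfl

theorem qr8_gen (e : V ↪ ι) (α : Matrix V V RZ) (η : V → RZ)
    (hgen : ∀ z, ∃ (a : RZ) (c : V → RZ), Pi.single z 1 - a • η = c ᵥ* α) (r : ι → RZ) :
    ∃ (a : RZ) (c : ι → RZ), r = a • (η ᵥ* embM RZ e) + c ᵥ* padM e α := by
  have h : ∀ i, ∃ (a : RZ) (c : ι → RZ),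
      Pi.single i 1 = a • (η ᵥ* embM RZ e) + c ᵥ* padM e α := by
    intro i
    by_cases hi : ∃ z, e z = i
    · obtain ⟨z, rfl⟩ := hi
      obtain ⟨a, c, h⟩ := hgen z
      refine ⟨a, c ᵥ* embM RZ e, ?_⟩
      rw [qr8_vecMul_pad, ← h, sub_vecMul, qr8_single, smul_vecMul, add_sub_cancel]
    · refine ⟨0, Pi.single i 1, funext fun j => ?_⟩
      rw [zero_smul, zero_add, single_vecMul, one_smul, row_apply,
        padM_of_row e α (not_exists.1 hi), one_apply, Pi.single_apply]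
      exact if_congr eq_comm rfl rfl
  choose a c h using h
  refine ⟨∑ i, r i * a i, ∑ i, r i • c i, ?_⟩
  rw [Finset.sum_smul, sum_vecMul, ← Finset.sum_add_distrib]
  refine (pi_eq_sum_univ' r).trans (Finset.sum_congr rfl fun i _ => ?_)
  rw [h, smul_add, smul_vecMul, mul_smul]

theorem qr8_norm {A : Matrix V V (Lam ℤ)} (hA : RelD A) (η : V → RZ)
    (hgen : ∀ z, ∃ (a : RZ) (c : V → RZ), Pi.single z 1 - a • η = c ᵥ* (1 - tM A)) :
    ∃ (ι : Type) (_ : Fintype ι) (_ : DecidableEq ι) (e : V ↪ ι) (i0 : ι) (g g' : El ι RZ),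
      mat g * padM e (1 - tM A) * mat g' = Dm i0 ∧
        Del ∣ ((η ᵥ* embM RZ e) ᵥ* mat g') i0 - 1 := by
  obtain ⟨ι, _, _, e, i0, i1, g, g', h01, h⟩ := hA.blocks
  obtain ⟨a, c, h1⟩ := qr8_gen e _ η hgen (Pi.single i0 1 ᵥ* mat g'⁻¹)
  have h2 : padM e (1 - tM A) * mat g' = mat g⁻¹ * Dm i0 := by
    rw [← h, Matrix.mul_assoc, ← Matrix.mul_assoc, mat_inv_mul, Matrix.one_mul]
  have h3 := congrFun (congrArg (· ᵥ* mat g') h1) i0
  simp only [vecMul_vecMul, mat_inv_mul, vecMul_one, add_vecMul, smul_vecMul, h2] at h3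
  rw [← vecMul_vecMul c, ← vecMul_vecMul η, Pi.add_apply, Dm, vecMul_diagonal, if_pos rfl,
    Pi.single_eq_same, Pi.smul_apply, smul_eq_mul] at h3
  obtain ⟨f, f', h4, h5⟩ := unit_norm h01 (y := (η ᵥ* embM RZ e) ᵥ* mat g') (y' := a)
    ⟨-(c ᵥ* mat g⁻¹) i0, by linear_combination -h3⟩
  refine ⟨ι, _, _, e, i0, f * g, g' * f', ?_, by rwa [mat_mul, ← vecMul_vecMul]⟩
  rw [← h4, ← h]
  simp only [mat_mul, Matrix.mul_assoc]

/-- `RelD.blocks`. Let `E = 1 + e_w qᵀ` (elementary, `block_el`), `η' = η ᵥ* embM e`. The entry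
`(η' ᵥ* mat g') i0` is a unit modulo `Del` by `hgen`; normalise with `unit_norm`. Multiply the
padded matrix by `hb (mat (g E⁻¹))` and `hb (mat g')` (`UG_of_El`, `VG_of_El`): it takes the shape
of `canon_core` with `x = mat g *ᵥ e_w`, `y = η' ᵥ* mat g'`. For `z = η' ᵥ* mat g⁻¹` one has
`Del • y = z ᵥ* Dm i0`, so `z i0 = y i0` (`Del_cancel`), `z i = Del * y i`, and `z ⬝ x = η w`. -/
theorem canon_rel {A : Matrix V V (Lam ℤ)} (hA : RelD A) (η q : V → RZ) (w : V) (hq : q w = 0)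
    (hη : η ᵥ* (1 - tM A) = Del • η)
    (hgen : ∀ z, ∃ (a : RZ) (c : V → RZ), Pi.single z 1 - a • η = c ᵥ* (1 - tM A)) (ξ : RZ)
    (b p : Fin 3 → RZ) (δ : Matrix (Fin 3) (Fin 3) RZ) (hp : p 0 = 0) :
    Rel (fromBlocks ((1 + vecMulVec (Pi.single w 1) q) * (1 - tM A) + ξ • vecMulVec (Pi.single w 1) η)
        (-vecMulVec (Pi.single w 1) b) (-vecMulVec p η) δ)
      (fromBlocks (of fun _ _ : Unit => Del + ξ * η w) (of fun _ k => -(η w * b k))
        (of fun k _ => -p k) δ) := by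
  obtain ⟨ι, _, _, e, i0, g, g', h, hy⟩ := qr8_norm hA η hgen
  obtain ⟨E, hE⟩ := block_el (fun i => i = w) (vecMulVec (Pi.single w 1) q) fun i j hij => by
    rw [vecMulVec_apply] at hij
    refine ⟨?_, fun hj => ?_⟩
    · by_contra hi
      exact hij (by rw [Pi.single_eq_of_ne hi, zero_mul])
    · exact hij (by rw [hj, hq, mul_zero])
  have h1 : (embM RZ e)ᵀ *ᵥ Pi.single w 1 = Pi.single (e w) 1 := by
    rw [mulVec_transpose, qr8_single]
  have h2 : mat (padE e E) *ᵥ Pi.single (e w) 1 = Pi.single (e w) 1 := by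
    rw [mat_padE, padM, hE, add_sub_cancel_left, add_mulVec, one_mulVec, mul_vecMulVec,
      vecMulVec_mul, vecMulVec_mulVec, dotProduct_single, vecMul_embM_apply, hq, zero_mul]
    simp
  have h3 : mat (g * (padE e E)⁻¹) *ᵥ Pi.single (e w) 1 = mat g *ᵥ Pi.single (e w) 1 := by
    conv_lhs => rw [← h2, mulVec_mulVec, ← mat_mul, inv_mul_cancel_right]
  have h4 : padM e (mat E * (1 - tM A) + ξ • vecMulVec (Pi.single w 1) η) =
      mat (padE e E) * padM e (1 - tM A) +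
        ξ • vecMulVec (Pi.single (e w) 1) (η ᵥ* embM RZ e) := by
    rw [mat_padE, ← padM_mul, padM, padM, add_sub_right_comm, Matrix.mul_add, Matrix.add_mul,
      Matrix.mul_smul, Matrix.smul_mul, mul_vecMulVec, vecMulVec_mul, h1, add_assoc]
  have h5 := qr8_eqv_El (g * (padE e E)⁻¹) g'
    (padM e (mat E * (1 - tM A) + ξ • vecMulVec (Pi.single w 1) η))
    ((embM RZ e)ᵀ * -vecMulVec (Pi.single w 1) b) (-vecMulVec p η * embM RZ e) δ
  rw [← qr8_padJ, h4, Matrix.mul_add, Matrix.add_mul, ← Matrix.mul_assoc (mat _) (mat _),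
    ← mat_mul, inv_mul_cancel_right, h, Matrix.mul_smul, Matrix.smul_mul, Matrix.mul_neg,
    Matrix.mul_neg, Matrix.neg_mul, Matrix.neg_mul, hE] at h5
  simp only [mul_vecMulVec, vecMulVec_mul, h1, h3] at h5
  have h6 : ((η ᵥ* embM RZ e) ᵥ* mat g⁻¹) ᵥ* Dm i0 = Del • ((η ᵥ* embM RZ e) ᵥ* mat g') := by
    rw [← h, vecMul_vecMul, ← Matrix.mul_assoc, ← Matrix.mul_assoc, mat_inv_mul, Matrix.one_mul,
      ← vecMul_vecMul, qr8_vecMul_pad, hη, smul_vecMul, smul_vecMul]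
  have h7 : ((η ᵥ* embM RZ e) ᵥ* mat g⁻¹) ⬝ᵥ (mat g *ᵥ Pi.single (e w) 1) = η w := by
    rw [dotProduct_mulVec, vecMul_vecMul, mat_inv_mul, vecMul_one, dotProduct_single, mul_one,
      vecMul_embM_apply]
  generalize (η ᵥ* embM RZ e) ᵥ* mat g⁻¹ = z at h6 h7
  generalize (η ᵥ* embM RZ e) ᵥ* mat g' = y at h5 h6 hy
  generalize mat g *ᵥ Pi.single (e w) 1 = x at h5 h7
  have h8 : ∀ i, z i * (if i = i0 then Del else 1) = Del * y i := fun i => by
    rw [← smul_eq_mul Del, ← Pi.smul_apply, ← h6, Dm, vecMul_diagonal]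
  have h9 : z i0 = y i0 := by
    have h10 := h8 i0
    rw [if_pos rfl] at h10
    exact sub_eq_zero.1 (Del_cancel (by linear_combination h10))
  refine Rel.trans ⟨ι, _, _, e, Function.Embedding.refl ι, by rwa [Jm_refl, padM_refl]⟩
    (canon_core i0 x y (η w) ξ b p δ hp hy ?_) fun v => ?_
  · rw [← h7, dotProduct, ← Finset.add_sum_erase _ _ (Finset.mem_univ i0), h9, Finset.mul_sum]
    refine congrArg _ (Finset.sum_congr rfl fun i hi => ?_)
    rw [← mul_assoc, ← h8, if_neg (Finset.ne_of_mem_erase hi), mul_one]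
  · rw [fromBlocks_apply₂₁, Matrix.neg_apply, vecMulVec_apply, hp, zero_mul, neg_zero]

end Pool.Agent.Lib.MP_71aad1_an.SS
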