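import Pool.Agent.Lib.MP_71aad1_an.QS1

set_option autoImplicit false

namespace Pool.Agent.Lib.MP_71aad1_an.SS

open Polynomial Matrix Finset Sum

/-! The relative subgroup is normalised by the letters; mixed commutators. -/

namespace St
variable {ι A H : Type} [CommRing A] [Group H] (S : St ι A H)

/-- The subgroup generated by the letters with entries in an ideal. -/
def qs2_L (J : Ideal A) : Subgroup H := Subgroup.closure {h | ∃ c d s, s ∈ J ∧ h = S.x c d s}

theorem qs2_x_mem {J : Ideal A} (c d : ι) {s : A} (hs : s ∈ J) : S.x c d s ∈ S.qs2_L J :=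
  Subgroup.subset_closure ⟨c, d, s, hs, rfl⟩

theorem qs2_le (J : Ideal A) : S.qs2_L J ≤ S.Zs J := by
  refine (Subgroup.closure_le _).2 ?_
  rintro _ ⟨c, d, s, hs, rfl⟩
  exact S.x_mem c d hs

theorem qs2_comm {a b c d : ι} (h : b ≠ c) (h' : a ≠ d) (p q : A) :
    S.x a b p * S.x c d q * (S.x a b p)⁻¹ = S.x c d q := by
  rw [S.comm a b c d p q h h', mul_inv_cancel_right]

/-- A letter conjugated by a letter that is not opposite. -/
theorem qs2_L0 {J : Ideal A} {a b e f : ι} (h : ¬(e = a ∧ f = b)) (α : A) {s : A} (hs : s ∈ J) :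
    S.x b a α * S.x e f s * (S.x b a α)⁻¹ ∈ S.qs2_L J := by
  by_cases hab : b = a
  · rw [hab, S.diag, one_mul, inv_one, mul_one]
    exact S.qs2_x_mem _ _ hs
  by_cases hef : e = f
  · rw [hef, S.diag, mul_one, mul_inv_cancel]
    exact one_mem _
  by_cases hea : e = a
  · subst hea
    have hfb : b ≠ f := fun h' => h ⟨rfl, h'.symm⟩
    rw [← S.x_neg, S.conj1 hab hef hfb]
    exact mul_mem (S.qs2_x_mem _ _ (J.mul_mem_left _ hs)) (S.qs2_x_mem _ _ hs)
  by_cases hfb : f = b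
  · subst hfb
    rw [← S.x_neg, S.conj2 hef hab hea]
    exact mul_mem (S.qs2_x_mem _ _ (J.neg_mem (J.mul_mem_right _ hs))) (S.qs2_x_mem _ _ hs)
  · rw [S.qs2_comm (Ne.symm hea) (Ne.symm hfb)]
    exact S.qs2_x_mem _ _ hs

theorem qs2_z (a b : ι) (p α : A) : S.z a b p α = S.x b a α * S.x a b p * (S.x b a α)⁻¹ := by
  rw [z, S.x_neg]

theorem qs2_L1 {J : Ideal A} (a b e f : ι) (α : A) {s : A} (hs : s ∈ J) :
    S.x b a α * S.x e f s * (S.x b a α)⁻¹ ∈ S.Zs J := by
  by_cases h : e = a ∧ f = b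
  · rw [h.1, h.2, ← S.qs2_z]
    exact S.z_mem _ _ hs _
  · exact S.qs2_le J (S.qs2_L0 h α hs)

theorem qs2_conj {G G' : Subgroup H} {K : Set H} (hG : G = Subgroup.closure K) (g : H)
    (hK : ∀ k ∈ K, g * k * g⁻¹ ∈ G') {h : H} (hh : h ∈ G) : g * h * g⁻¹ ∈ G' := by
  have : G ≤ G'.comap (MulAut.conj g).toMonoidHom := by
    rw [hG]
    exact (Subgroup.closure_le _).2 hK
  exact this hh

theorem qs2_L2 {J : Ideal A} (a b : ι) (α : A) {h : H} (hh : h ∈ S.qs2_L J) :
    S.x b a α * h * (S.x b a α)⁻¹ ∈ S.Zs J := by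
  refine qs2_conj rfl _ ?_ hh
  rintro _ ⟨c, d, s, hs, rfl⟩
  exact S.qs2_L1 a b c d α hs

theorem qs2_A {J : Ideal A} {a b c d : ι} (h : ¬(c = a ∧ d = b)) (α β : A) {p : A} (hp : p ∈ J) :
    S.x c d β * S.z a b p α * (S.x c d β)⁻¹ ∈ S.Zs J := by
  by_cases hab : a = b
  · rw [hab, S.z_diag, mul_one, mul_inv_cancel]
    exact one_mem _
  by_cases hcd : c = d
  · rw [hcd, S.diag, one_mul, inv_one, mul_one]
    exact S.z_mem _ _ hp _
  by_cases h1 : c = b ∧ d = a
  · rw [h1.1, h1.2, ← S.x_neg, S.z_conj]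
    exact S.z_mem _ _ hp _
  have key : ∀ g : H, S.x b a (-α) * S.x c d β * (S.x b a (-α))⁻¹ = g →
      g * S.x a b p * g⁻¹ ∈ S.qs2_L J → S.x c d β * S.z a b p α * (S.x c d β)⁻¹ ∈ S.Zs J := by
    rintro _ rfl hg
    have := S.qs2_L2 a b α hg
    rw [S.x_neg] at this
    convert this using 1
    rw [S.qs2_z]
    group
  by_cases hca : c = a
  · subst hca
    have hdb : b ≠ d := fun h' => h ⟨rfl, h'.symm⟩
    refine key (S.x b d (-α * β) * S.x c d β)
      (by rw [← S.x_neg, S.conj1 (Ne.symm hab) hcd hdb]) ?_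
    have e : S.x b d (-α * β) * S.x c d β * S.x c b p * (S.x b d (-α * β) * S.x c d β)⁻¹ =
        S.x b d (-α * β) * (S.x c d β * S.x c b p * (S.x c d β)⁻¹) * (S.x b d (-α * β))⁻¹ := by
      group
    rw [e, S.qs2_comm (Ne.symm hcd) hab]
    exact S.qs2_L0 (fun h' => hcd h'.1) _ hp
  by_cases hdb : d = b
  · subst hdb
    refine key (S.x c a (-(β * -α)) * S.x c d β)
      (by rw [← S.x_neg, S.conj2 hcd (Ne.symm hab) hca]) ?_
    have e : S.x c a (-(β * -α)) * S.x c d β * S.x a d p * (S.x c a (-(β * -α)) * S.x c d β)⁻¹ =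
        S.x c a (-(β * -α)) * (S.x c d β * S.x a d p * (S.x c d β)⁻¹) *
          (S.x c a (-(β * -α)))⁻¹ := by
      group
    rw [e, S.qs2_comm (Ne.symm hab) hcd]
    exact S.qs2_L0 (fun h' => hcd h'.2.symm) _ hp
  · exact key (S.x c d β) (S.qs2_comm (Ne.symm hca) (Ne.symm hdb) _ _)
      (S.qs2_L0 (fun h' => h1 ⟨h'.2.symm, h'.1.symm⟩) _ hp)

/-- A subgroup with the letters and the generators away from one pair has all generators. -/
theorem qs2_le_of (hT : Three ι) {J : Ideal A} {G : Subgroup H} (c d : ι)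
    (h1 : ∀ a b s, s ∈ J → S.x a b s ∈ G)
    (h2 : ∀ a b p α, p ∈ J → ¬(c = a ∧ d = b) → S.z a b p α ∈ G) : S.Zs J ≤ G := by
  refine (Subgroup.closure_le _).2 ?_
  rintro _ ⟨a, b, p, α, hp, rfl⟩
  by_cases h : c = a ∧ d = b
  · by_cases hab : a = b
    · rw [hab, S.z_diag]
      exact one_mem _
    obtain ⟨e, hea, heb⟩ := hT a b
    have hn : ∀ a', ¬(c = a' ∧ d = e) := fun a' h' => heb (h'.2.symm.trans h.2)
    have h3 := J.mul_mem_left α hp
    have h4 := J.mul_mem_left (α * α) hp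
    have := S.R1 hab (Ne.symm heb) (Ne.symm hea) p 1 α
    simp only [mul_one] at this
    rw [SetLike.mem_coe, this]
    exact mul_mem (mul_mem (mul_mem (mul_mem (mul_mem (mul_mem (mul_mem (h1 _ _ _ hp)
      (h1 _ _ _ h3)) (h2 _ _ _ _ (J.neg_mem hp) (hn _))) (h1 _ _ _ hp)) (h1 _ _ _ (J.neg_mem h3)))
      (h2 _ _ _ _ (J.neg_mem h3) (hn _))) (h1 _ _ _ (J.neg_mem h4))) (h1 _ _ _ (J.neg_mem h4))
  · exact h2 a b p α hp h

theorem qs2_xx {J₁ J₂ : Ideal A} (hA : S.Ab2 J₁ J₂) (a b c d : ι) {p q : A} (hp : p ∈ J₁)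
    (hq : q ∈ J₂) : Commute (S.x a b p) (S.x c d q) := by
  by_cases hab : a = b
  · rw [hab, S.diag]
    exact Commute.one_left _
  by_cases hcd : c = d
  · rw [hcd, S.diag]
    exact Commute.one_right _
  by_cases hbc : b = c
  · subst hbc
    by_cases had : a = d
    · subst had
      have := (hA a b p q hp hq).2
      rw [y, S.x_neg, S.x_neg] at this
      exact commutatorElement_eq_one_iff_commute.1 this
    · have := S.cmt a b d p q hab hcd had
      rwa [(hA a d p q hp hq).1, one_mul] at this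
  by_cases had : a = d
  · subst had
    have := S.cmt c a b q p hcd hab (Ne.symm hbc)
    rw [mul_comm q p, (hA c b p q hp hq).1, one_mul] at this
    exact this.symm
  · exact S.comm a b c d p q hbc had

theorem qs2_xL {J₁ J₂ : Ideal A} (hA : S.Ab2 J₁ J₂) (a b : ι) {p : A} (hp : p ∈ J₁) {h : H}
    (hh : h ∈ S.qs2_L J₂) : Commute (S.x a b p) h := by
  have : S.qs2_L J₂ ≤ Subgroup.centralizer {S.x a b p} := by
    refine (Subgroup.closure_le _).2 ?_
    rintro _ ⟨c, d, s, hs, rfl⟩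
    exact Subgroup.mem_centralizer_singleton_iff.2 (S.qs2_xx hA a b c d hp hs).symm
  exact (Subgroup.mem_centralizer_singleton_iff.1 (this hh)).symm

theorem qs2_cc {g u v : H} (h : Commute u (g⁻¹ * v * g⁻¹⁻¹)) : Commute (g * u * g⁻¹) v := by
  have := h.map (MulAut.conj g)
  simp only [MulAut.conj_apply] at this
  convert this using 1
  group

theorem qs2_Zx (hT : Three ι) {J₁ J₂ : Ideal A} (hA : S.Ab2 J₁ J₂) (c d : ι) {q : A} (hq : q ∈ J₂)
    {h : H} (hh : h ∈ S.Zs J₁) : Commute h (S.x c d q) := by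
  have : S.Zs J₁ ≤ Subgroup.centralizer {S.x c d q} := by
    refine S.qs2_le_of hT c d (fun a b s hs => ?_) fun a b p α hp hn => ?_
    · exact Subgroup.mem_centralizer_singleton_iff.2 (S.qs2_xx hA a b c d hs hq)
    · refine Subgroup.mem_centralizer_singleton_iff.2 ?_
      rw [S.qs2_z]
      refine qs2_cc (S.qs2_xL hA a b hp ?_)
      rw [← S.x_neg]
      exact S.qs2_L0 hn _ hq
  exact Subgroup.mem_centralizer_singleton_iff.1 (this hh)

/-- Enough for generators `z a b p α` with `a ≠ b`, `c ≠ d`. Cases: `(c, d) = (b, a)`: `z_conj`.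
`c ∉ {a, b}`: for `d = a` the conjugate is `x c b (β p) * x c a (-(α β p)) * z` (conjugate inside
`x b a α`); for `d = b`, `x c b β * x b a α * x c b (-β) = x c a (β α) * x b a α` reduces to `d = a`;
otherwise they commute. `d ∉ {a, b}`: symmetric. `(c, d) = (a, b)`: write `z a b (p * 1) α` with
`R1` through a third index; every factor falls under an earlier case
(`x a b β * x b a q * (x a b β)⁻¹ = z b a q β`, letters are `z _ _ _ 0`). -/
theorem conj_mem_Zs (hT : Three ι) {J : Ideal A} {h : H} (hh : h ∈ S.Zs J) (c d : ι) (β : A) :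
    S.x c d β * h * (S.x c d β)⁻¹ ∈ S.Zs J := by
  have : S.Zs J ≤ (S.Zs J).comap (MulAut.conj (S.x c d β)).toMonoidHom :=
    S.qs2_le_of hT c d (fun a b s hs => S.qs2_L1 d c a b β hs)
      fun a b p α hp hn => S.qs2_A hn α β hp
  exact this hh

/-- First: `x c d q` (`q ∈ J₂`) commutes with `z a b p β` (`p ∈ J₁`); conjugate by `x b a (-β)` and
use the relations with `x _ _ (p q) = 1`, `y _ _ p q = 1`. For `(c, d) = (a, b)` use `z_comm` with
`q = 1` through a third index `e`: `z = X * (Y * X⁻¹ * Y⁻¹)`, `X = x a e p * x b e (β p)`,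
`Y = x e b 1 * x e a (-β)`, `Y⁻¹ * x a b q * Y = x a b q * x e b (β q)`; both `x a b q` and
`x e b (β q)` commute with both factors of `X`. Second: `z c d q β' = δ * x c d q * δ⁻¹`, and
`δ⁻¹ * h₁ * δ ∈ Zs J₁` by `conj_mem_Zs`. -/
theorem commute_Zs (hT : Three ι) {J₁ J₂ : Ideal A} (hA : S.Ab2 J₁ J₂) {h₁ h₂ : H}
    (m₁ : h₁ ∈ S.Zs J₁) (m₂ : h₂ ∈ S.Zs J₂) : Commute h₁ h₂ := by
  have : S.Zs J₂ ≤ Subgroup.centralizer {h₁} := by
    refine (Subgroup.closure_le _).2 ?_
    rintro _ ⟨c, d, q, β, hq, rfl⟩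
    refine Subgroup.mem_centralizer_singleton_iff.2 ?_
    rw [S.qs2_z]
    refine qs2_cc (S.qs2_Zx hT hA c d hq ?_).symm
    rw [← S.x_neg]
    exact S.conj_mem_Zs hT m₁ _ _ _
  exact (Subgroup.mem_centralizer_singleton_iff.1 (this m₂)).symm

/-- From `z_comm`. -/
theorem z_mul_mem_letters (hT : Three ι) {J : Ideal A} (a b : ι) {p q : A} (hp : p ∈ J) (hq : q ∈ J)
    (β : A) : S.z a b (p * q) β ∈ Subgroup.closure {h | ∃ c d s, s ∈ J ∧ h = S.x c d s} := by
  change _ ∈ S.qs2_L J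
  by_cases hab : a = b
  · rw [hab, S.z_diag]
    exact one_mem _
  obtain ⟨e, hea, heb⟩ := hT a b
  have h1 := mul_mem (S.qs2_x_mem a e hp) (S.qs2_x_mem b e (J.mul_mem_left β hp))
  have h2 := mul_mem (S.qs2_x_mem e b hq) (S.qs2_x_mem e a (J.neg_mem (J.mul_mem_left β hq)))
  rw [S.z_comm hab (Ne.symm heb) (Ne.symm hea)]
  exact mul_mem (mul_mem (mul_mem h1 h2) (inv_mem h1)) (inv_mem h2)

end St

variable {ι A : Type} [Fintype ι] [DecidableEq ι] [CommRing A]

theorem el_induction {Q : El ι A → Prop} (h1 : Q 1)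
    (hs : ∀ g a b p, Q g → Q ((el ι A).x a b p * g)) (g : El ι A) : Q g := by
  obtain ⟨g, hg⟩ := g
  induction hg using Subgroup.closure_induction_left with
  | one => exact h1
  | mul_left x hx y hy ih =>
    obtain ⟨a, b, p, rfl⟩ := hx
    exact hs _ a b p ih
  | inv_mul_cancel x hx y hy ih =>
    obtain ⟨a, b, p, rfl⟩ := hx
    have := hs _ a b (-p) ih
    rwa [St.x_neg] at this

theorem Zs_normal (hT : Three ι) (J : Ideal A) : ((el ι A).Zs J).Normal := by
  have key : ∀ g : El ι A, ∀ h ∈ (el ι A).Zs J, g * h * g⁻¹ ∈ (el ι A).Zs J := by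
    intro g
    induction g using el_induction with
    | h1 => intro h hh; simpa using hh
    | hs g a b p ih =>
      intro h hh
      have := (el ι A).conj_mem_Zs hT (ih h hh) a b p
      convert this using 1
      group
  exact ⟨fun h hh g => key g h hh⟩

end Pool.Agent.Lib.MP_71aad1_an.SS
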