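import Pool.Agent.Lib.MP_71aad1_an.QS2

set_option autoImplicit false

namespace Pool.Agent.Lib.MP_71aad1_an.SS

open Polynomial Matrix Finset Sum

/-! The abelian calculus of symbols. Under `Ab2 J J` all elements of `Zs J` commute
(`commute_Zs`); write them additively: `ζ` for `z`, `ξ` for `x`, `f` for `fr`.
A convenient way to compute: put a `CommGroup` structure on the subtype `S.Zs J`, or move factors
with `Commute` lemmas. -/

namespace St
variable {ι A H : Type} [CommRing A] [Group H] {S : St ι A H} {J : Ideal A}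

/-- An additive, injective logarithm on the relative subgroup. -/
structure qs3_Lg (S : St ι A H) (J : Ideal A) {G : Type} [AddCommGroup G] (L : H → G) : Prop where
  mul : ∀ {h₁ h₂ : H}, h₁ ∈ S.Zs J → h₂ ∈ S.Zs J → L (h₁ * h₂) = L h₁ + L h₂
  inj : ∀ {h₁ h₂ : H}, h₁ ∈ S.Zs J → h₂ ∈ S.Zs J → L h₁ = L h₂ → h₁ = h₂

theorem qs3_exists (hT : Three ι) (hA : S.Ab2 J J) :
    ∃ (G : Type) (_ : AddCommGroup G) (L : H → G), qs3_Lg S J L := by
  classical
  let cg : CommGroup (S.Zs J) :=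
    { (inferInstance : Group (S.Zs J)) with
      mul_comm := fun a b => Subtype.ext (S.commute_Zs hT hA a.2 b.2).eq }
  refine ⟨Additive (S.Zs J), inferInstance,
    fun h => if m : h ∈ S.Zs J then Additive.ofMul ⟨h, m⟩ else 0, ?_, ?_⟩
  · intro h₁ h₂ m₁ m₂
    rw [dif_pos m₁, dif_pos m₂, dif_pos (mul_mem m₁ m₂)]
    rfl
  · intro h₁ h₂ m₁ m₂ e
    rw [dif_pos m₁, dif_pos m₂] at e
    exact congrArg Subtype.val (Additive.ofMul.injective e)

namespace qs3_Lg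
variable {G : Type} [AddCommGroup G] {L : H → G}

theorem one (hL : qs3_Lg S J L) : L 1 = 0 := by
  have h := hL.mul (one_mem _) (one_mem _)
  rw [mul_one] at h
  exact left_eq_add.1 h

theorem inv (hL : qs3_Lg S J L) {h : H} (m : h ∈ S.Zs J) : L h⁻¹ = -L h := by
  have h1 := hL.mul m (inv_mem m)
  rw [mul_inv_cancel, hL.one] at h1
  exact (neg_eq_of_add_eq_zero_right h1.symm).symm

theorem mul3 (hL : qs3_Lg S J L) {h₁ h₂ h₃ : H} (m₁ : h₁ ∈ S.Zs J) (m₂ : h₂ ∈ S.Zs J)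
    (m₃ : h₃ ∈ S.Zs J) : L (h₁ * h₂ * h₃) = L h₁ + L h₂ + L h₃ := by
  rw [hL.mul (mul_mem m₁ m₂) m₃, hL.mul m₁ m₂]

theorem conj (hL : qs3_Lg S J L) (hT : Three ι) (c d : ι) (β : A) :
    qs3_Lg S J fun h => L (S.x c d β * h * S.x c d (-β)) := by
  have hm : ∀ {h : H}, h ∈ S.Zs J → S.x c d β * h * S.x c d (-β) ∈ S.Zs J := fun m => by
    rw [S.x_neg]
    exact S.conj_mem_Zs hT m c d β
  constructor
  · intro h₁ h₂ m₁ m₂
    rw [← hL.mul (hm m₁) (hm m₂), S.x_neg]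
    congr 1
    group
  · intro h₁ h₂ m₁ m₂ e
    simpa using hL.inj (hm m₁) (hm m₂) e

theorem x_add (hL : qs3_Lg S J L) (a b : ι) {p q : A} (hp : p ∈ J) (hq : q ∈ J) :
    L (S.x a b (p + q)) = L (S.x a b p) + L (S.x a b q) := by
  rw [S.add, hL.mul (S.x_mem a b hp) (S.x_mem a b hq)]

theorem x_neg (hL : qs3_Lg S J L) (a b : ι) {p : A} (hp : p ∈ J) :
    L (S.x a b (-p)) = -L (S.x a b p) := by
  rw [S.x_neg, hL.inv (S.x_mem a b hp)]

theorem fr_eq (hL : qs3_Lg S J L) (a b : ι) {p : A} (hp : p ∈ J) (α : A) :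
    L (S.fr a b p α) = L (S.z a b p α) - L (S.x a b p) + L (S.x b a (α ^ 2 * p)) := by
  rw [St.fr, hL.mul3 (S.z_mem a b hp α) (S.x_mem a b (neg_mem hp))
    (S.x_mem b a (J.mul_mem_left _ hp)), hL.x_neg a b hp, sub_eq_add_neg]

theorem sg_eq (hL : qs3_Lg S J L) (a b : ι) {p : A} (hp : p ∈ J) (α : A) :
    L (S.sg a b p α) = L (S.fr a b p α) - L (S.fr a b (p * α) 1) := by
  have m := S.fr_mem a b (J.mul_mem_right α hp) 1
  rw [St.sg, hL.mul (S.fr_mem a b hp α) (inv_mem m), hL.inv m, sub_eq_add_neg]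

theorem fr_add_left (hL : qs3_Lg S J L) (a b : ι) {p q : A} (hp : p ∈ J) (hq : q ∈ J) (α : A) :
    L (S.fr a b (p + q) α) = L (S.fr a b p α) + L (S.fr a b q α) := by
  rw [hL.fr_eq a b hp, hL.fr_eq a b hq, hL.fr_eq a b (add_mem hp hq), S.z_add,
    hL.mul (S.z_mem a b hp α) (S.z_mem a b hq α), hL.x_add a b hp hq, mul_add,
    hL.x_add b a (J.mul_mem_left _ hp) (J.mul_mem_left _ hq)]
  abel

theorem fr_neg_left (hL : qs3_Lg S J L) (a b : ι) {p : A} (hp : p ∈ J) (α : A) :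
    L (S.fr a b (-p) α) = -L (S.fr a b p α) := by
  have h := hL.fr_add_left a b hp (neg_mem hp) α
  rw [add_neg_cancel, S.fr_zero, hL.one] at h
  exact (neg_eq_of_add_eq_zero_right h.symm).symm

theorem fr_R1 (hL : qs3_Lg S J L) {a b c : ι} (h : a ≠ b) (h' : b ≠ c) (h'' : a ≠ c) {p : A}
    (hp : p ∈ J) (q β : A) :
    L (S.fr a b (p * q) β) = L (S.fr a c (-p) (-(β * q))) + L (S.fr b c (-(β * p)) q) := by
  have p1 : β * p ∈ J := J.mul_mem_left β hp
  have p2 : p * q ∈ J := J.mul_mem_right q hp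
  have p3 : β ^ 2 * (p * q) ∈ J := J.mul_mem_left _ p2
  have m1 := S.x_mem a c hp
  have m2 := S.x_mem b c p1
  have m3 := S.z_mem a c (neg_mem hp) (-(β * q))
  have m4 := S.x_mem a b p2
  have m5 := S.x_mem c b (J.mul_mem_left (q ^ 2) (neg_mem p1))
  have m6 := S.z_mem b c (neg_mem p1) q
  have m7 := S.x_mem b a (neg_mem p3)
  have m8 := S.x_mem c a (J.mul_mem_left ((-(β * q)) ^ 2) (neg_mem hp))
  have e5 : -(β * p * q * q) = q ^ 2 * -(β * p) := by ring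
  have e7 : -(β * β * p * q) = -(β ^ 2 * (p * q)) := by ring
  have e8 : -(β * β * p * q * q) = (-(β * q)) ^ 2 * -p := by ring
  have n3 := mul_mem (mul_mem m1 m2) m3
  have n5 := mul_mem (mul_mem n3 m4) m5
  rw [hL.fr_eq a b p2, hL.fr_eq a c (neg_mem hp), hL.fr_eq b c (neg_mem p1), S.R1 h h' h'', e5, e7,
    e8, hL.mul3 (mul_mem n5 m6) m7 m8, hL.mul3 (mul_mem n3 m4) m5 m6, hL.mul n3 m4,
    hL.mul3 m1 m2 m3, hL.x_neg b a p3, hL.x_neg a c hp, hL.x_neg b c p1]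
  abel

end qs3_Lg

theorem qs3_c1 (S : St ι A H) {a b c d e : ι} (h : d ≠ a) (h' : c ≠ b) (β s : A) (he : e = d) :
    S.x c e β * S.x a b s * S.x c e (-β) = S.x a b s := by
  rw [he, S.comm c d a b β s h h', S.x_neg, mul_inv_cancel_right]

theorem qs3_c2 (S : St ι A H) {a b c : ι} (h : a ≠ b) (h' : b ≠ c) (h'' : a ≠ c) (p α β : A) :
    S.x b a β * S.z a c p α * S.x b a (-β) =
      S.x b a (-(β * p * α)) * S.x b c (β * p) * S.z a c p α := by
  have k1 := S.conj1 h.symm h'' h' β p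
  have k2 := S.conj2 h' h''.symm h.symm (β * p) α
  have k3 := S.comm b a c a β α h'' h.symm
  rw [← k2, St.z]
  simp only [S.x_neg] at k1 ⊢
  have k4 : (S.x c a α)⁻¹ * (S.x b a β)⁻¹ = (S.x b a β)⁻¹ * (S.x c a α)⁻¹ := by
    rw [← _root_.mul_inv_rev, k3, _root_.mul_inv_rev]
  calc S.x b a β * (S.x c a α * S.x a c p * (S.x c a α)⁻¹) * (S.x b a β)⁻¹
      = S.x b a β * S.x c a α * S.x a c p * ((S.x c a α)⁻¹ * (S.x b a β)⁻¹) := by group
    _ = S.x c a α * (S.x b a β * S.x a c p * (S.x b a β)⁻¹) * (S.x c a α)⁻¹ := by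
      rw [k3, k4]; group
    _ = _ := by rw [k1]; group

theorem qs3_c3 (S : St ι A H) {a b c : ι} (h : a ≠ b) (h' : b ≠ c) (h'' : a ≠ c) (p β : A) :
    S.x b a β * S.z b c p 1 * S.x b a (-β) =
      S.x c a (p * β) * S.x b a (p * β) * S.z b c p 1 := by
  have k1 := S.conj2 h'.symm h.symm h''.symm 1 β
  have k2 := S.conj2 h' h''.symm h.symm p (-β)
  have k3 := S.conj1 h'.symm h.symm h''.symm 1 (p * β)
  have k4 := S.comm b a b c β p h h'
  have k5 := S.comm c a c b β 1 h'' h'.symm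
  rw [one_mul] at k1 k3
  rw [mul_neg, neg_neg, neg_neg] at k2
  rw [← k3, St.z]
  simp only [S.x_neg] at k1 k2 k3 ⊢
  have k6 : (S.x c a β)⁻¹ * S.x c b 1 = S.x c b 1 * (S.x c a β)⁻¹ := by
    rw [inv_mul_eq_iff_eq_mul, ← mul_assoc, k5, mul_inv_cancel_right]
  calc S.x b a β * (S.x c b 1 * S.x b c p * (S.x c b 1)⁻¹) * (S.x b a β)⁻¹
      = (S.x b a β * S.x c b 1 * (S.x b a β)⁻¹) * (S.x b a β * S.x b c p * (S.x b a β)⁻¹) *
        (S.x b a β * S.x c b 1 * (S.x b a β)⁻¹)⁻¹ := by group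
    _ = S.x c b 1 * ((S.x c a β)⁻¹ * S.x b c p * S.x c a β) * (S.x c b 1)⁻¹ := by
      rw [k1, k4, k6]; group
    _ = _ := by rw [k2]; group

namespace qs3_Lg
variable {G : Type} [AddCommGroup G] {L : H → G}

theorem fr_add_right (hL : qs3_Lg S J L) (hT : Three ι) (a b : ι) {p : A} (hp : p ∈ J)
    (α β : A) : L (S.fr a b p (α + β)) = L (S.fr a b p α) + L (S.fr a b p β) := by
  by_cases h : a = b
  · simp only [h, S.fr_diag, hL.one, add_zero]
  obtain ⟨c, hca, hcb⟩ := hT a b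
  have h' : b ≠ c := hcb.symm
  have h'' : a ≠ c := hca.symm
  have hM := hL.conj hT b a β
  have p1 : α * p ∈ J := J.mul_mem_left α hp
  have p2 : β * -p ∈ J := J.mul_mem_left β (neg_mem hp)
  have p3 : α * β * p ∈ J := J.mul_mem_left _ hp
  have p4 : -(α * p) * β ∈ J := J.mul_mem_right β (neg_mem p1)
  have k1 := hM.fr_R1 h h' h'' hp 1 α
  have k2 := hL.fr_R1 h h' h'' hp 1 α
  rw [mul_one, mul_one] at k1 k2
  have k3 := hM.fr_eq a b hp α
  have k4 := hM.fr_eq a c (neg_mem hp) (-α)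
  have k5 := hM.fr_eq b c (neg_mem p1) 1
  have k6 := hL.fr_eq a c (neg_mem hp) (-α)
  have k7 := hL.fr_eq b c (neg_mem p1) 1
  have e1 : -(β * -p * -α) = -(α * β * p) := by ring
  have e2 : -(1 ^ 2 * -(α * p) * β) = -(-(α * p) * β) := by ring
  have e3 : -(α * p) * β = -(α * β * p) := by ring
  have e4 : (α + β) ^ 2 * p = α ^ 2 * p + β ^ 2 * p + α * β * p + α * β * p := by ring
  rw [S.z_conj, qs3_c1 S h (Ne.symm h) β _ rfl] at k3
  change _ = _ - L (S.z a b p β) + _ at k3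
  rw [qs3_c2 S h h' h'', S.conj1 (Ne.symm h) h'' h', qs3_c1 S h'' (Ne.symm h) β _ rfl, e1,
    hL.mul3 (S.x_mem b a (neg_mem p3)) (S.x_mem b c p2) (S.z_mem a c (neg_mem hp) _),
    hL.mul (S.x_mem b c p2) (S.x_mem a c (neg_mem hp)), hL.x_neg b a p3] at k4
  rw [qs3_c3 S h h' h'', qs3_c1 S h h' β _ rfl, S.conj2 hcb (Ne.symm h) hca, e2,
    hL.mul3 (S.x_mem c a p4) (S.x_mem b a p4) (S.z_mem b c (neg_mem p1) _),
    hL.mul (S.x_mem c a (neg_mem p4)) (S.x_mem c b (J.mul_mem_left _ (neg_mem p1))),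
    hL.x_neg c a p4, e3, hL.x_neg b a p3] at k5
  have q1 : α ^ 2 * p ∈ J := J.mul_mem_left _ hp
  have q2 : β ^ 2 * p ∈ J := J.mul_mem_left _ hp
  rw [hL.fr_eq a b hp (α + β), hL.fr_eq a b hp β, e4,
    hL.x_add b a (add_mem (add_mem q1 q2) p3) p3, hL.x_add b a (add_mem q1 q2) p3,
    hL.x_add b a q1 q2]
  linear_combination (norm := abel) k1 - k2 - k3 + k4 + k5 - k6 - k7

theorem fr_zero_right (hL : qs3_Lg S J L) (hT : Three ι) (a b : ι) {p : A} (hp : p ∈ J) :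
    L (S.fr a b p 0) = 0 := by
  have h := hL.fr_add_right hT a b hp 0 0
  rw [add_zero] at h
  exact left_eq_add.1 h

theorem fr_neg_right (hL : qs3_Lg S J L) (hT : Three ι) (a b : ι) {p : A} (hp : p ∈ J) (α : A) :
    L (S.fr a b p (-α)) = -L (S.fr a b p α) := by
  have h := hL.fr_add_right hT a b hp α (-α)
  rw [add_neg_cancel, hL.fr_zero_right hT a b hp] at h
  exact (neg_eq_of_add_eq_zero_right h.symm).symm

theorem fr_L (hL : qs3_Lg S J L) (hT : Three ι) {a b c : ι} (h : a ≠ b) (h' : b ≠ c) (h'' : a ≠ c)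
    {p : A} (hp : p ∈ J) (q β : A) :
    L (S.fr a c p (β * q)) = L (S.fr a b (p * q) β) + L (S.fr b c (β * p) q) := by
  rw [hL.fr_R1 h h' h'' hp, hL.fr_neg_left a c hp, hL.fr_neg_right hT a c hp,
    hL.fr_neg_left b c (J.mul_mem_left β hp)]
  abel

theorem fr_one (hL : qs3_Lg S J L) (hT : Three ι) {a b c : ι} (h : a ≠ b) (h' : b ≠ c)
    (h'' : a ≠ c) {s : A} (hs : s ∈ J) :
    L (S.fr a c s 1) = L (S.fr a b s 1) + L (S.fr b c s 1) := by
  simpa only [mul_one, one_mul] using hL.fr_L hT h h' h'' hs 1 1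

theorem fr_cocycle (hL : qs3_Lg S J L) (hT : Three ι) {a b : ι} (h : a ≠ b) (i : ι) {s : A}
    (hs : s ∈ J) : L (S.fr a b s 1) = L (S.fr a i s 1) - L (S.fr b i s 1) := by
  by_cases hb : b = i
  · rw [← hb, S.fr_diag, hL.one, sub_zero]
  by_cases ha : a = i
  · obtain ⟨c, hca, hcb⟩ := hT a b
    have k1 := hL.fr_one hT h hcb.symm hca.symm hs
    have k2 := hL.fr_one hT (Ne.symm h) hca.symm hcb.symm hs
    rw [← ha, S.fr_diag, hL.one]
    linear_combination (norm := abel) -k1 - k2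
  · rw [hL.fr_one hT h hb ha hs]
    abel

theorem sg_snd (hL : qs3_Lg S J L) (hT : Three ι) {a b c : ι} (h : a ≠ b) (h'' : a ≠ c) {p : A}
    (hp : p ∈ J) (α : A) : L (S.sg a b p α) = L (S.sg a c p α) := by
  by_cases h' : b = c
  · rw [h']
  have k1 := hL.fr_L hT h h' h'' hp 1 α
  rw [mul_one, mul_one, mul_comm α p] at k1
  rw [hL.sg_eq a b hp, hL.sg_eq a c hp, k1, hL.fr_one hT h h' h'' (J.mul_mem_right α hp)]
  abel

theorem sg_fst (hL : qs3_Lg S J L) (hT : Three ι) {a b c : ι} (h'' : a ≠ c) (h' : b ≠ c) {p : A}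
    (hp : p ∈ J) (α : A) : L (S.sg a c p α) = L (S.sg b c p α) := by
  by_cases h : a = b
  · rw [h]
  have k1 := hL.fr_L hT h h' h'' hp α 1
  rw [one_mul, one_mul] at k1
  rw [hL.sg_eq a c hp, hL.sg_eq b c hp, k1, hL.fr_one hT h h' h'' (J.mul_mem_right α hp)]
  abel

theorem sg_indep (hL : qs3_Lg S J L) (hT : Three ι) {a b c d : ι} (h : a ≠ b) (h' : c ≠ d) {p : A}
    (hp : p ∈ J) (α : A) : L (S.sg a b p α) = L (S.sg c d p α) := by
  by_cases had : a = d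
  · by_cases hbc : c = b
    · obtain ⟨e, hea, heb⟩ := hT a b
      rw [hbc, ← had, hL.sg_snd hT h hea.symm hp, hL.sg_fst hT hea.symm heb.symm hp,
        hL.sg_snd hT heb.symm (Ne.symm h) hp]
    · rw [hL.sg_fst hT h hbc hp, hL.sg_snd hT hbc h' hp]
  · rw [hL.sg_snd hT h had hp, hL.sg_fst hT had h' hp]

theorem sg_add_left (hL : qs3_Lg S J L) (a b : ι) {p q : A} (hp : p ∈ J) (hq : q ∈ J) (α : A) :
    L (S.sg a b (p + q) α) = L (S.sg a b p α) + L (S.sg a b q α) := by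
  rw [hL.sg_eq a b hp, hL.sg_eq a b hq, hL.sg_eq a b (add_mem hp hq), hL.fr_add_left a b hp hq,
    add_mul, hL.fr_add_left a b (J.mul_mem_right α hp) (J.mul_mem_right α hq)]
  abel

theorem sg_add_right (hL : qs3_Lg S J L) (hT : Three ι) (a b : ι) {p : A} (hp : p ∈ J) (α β : A) :
    L (S.sg a b p (α + β)) = L (S.sg a b p α) + L (S.sg a b p β) := by
  rw [hL.sg_eq a b hp, hL.sg_eq a b hp, hL.sg_eq a b hp, hL.fr_add_right hT a b hp, mul_add,
    hL.fr_add_left a b (J.mul_mem_right α hp) (J.mul_mem_right β hp)]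
  abel

theorem sg_leib (hL : qs3_Lg S J L) (hT : Three ι) (a b : ι) {p : A} (hp : p ∈ J) (q β : A) :
    L (S.sg a b p (β * q)) = L (S.sg a b (p * q) β) + L (S.sg a b (β * p) q) := by
  have p1 : β * p ∈ J := J.mul_mem_left β hp
  have p2 : p * q ∈ J := J.mul_mem_right q hp
  by_cases h : a = b
  · simp only [h, St.sg, S.fr_diag, inv_one, mul_one, hL.one, add_zero]
  obtain ⟨c, hca, hcb⟩ := hT a b
  have e1 : p * q * β = p * (β * q) := by ring
  have e2 : β * p * q = p * (β * q) := by ring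
  rw [hL.sg_indep hT h hca.symm hp, hL.sg_indep hT h hcb.symm p1, hL.sg_eq a c hp,
    hL.sg_eq a b p2, hL.sg_eq b c p1, hL.fr_L hT h hcb.symm hca.symm hp, e1, e2,
    hL.fr_one hT h hcb.symm hca.symm (J.mul_mem_right _ hp)]
  abel

theorem sg_neg_left (hL : qs3_Lg S J L) (a b : ι) {p : A} (hp : p ∈ J) (α : A) :
    L (S.sg a b (-p) α) = -L (S.sg a b p α) := by
  have h := hL.sg_add_left a b hp (neg_mem hp) α
  rw [add_neg_cancel, S.sg_zero, hL.one] at h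
  exact (neg_eq_of_add_eq_zero_right h.symm).symm

theorem sg_zero_right (hL : qs3_Lg S J L) (hT : Three ι) (a b : ι) {p : A} (hp : p ∈ J) :
    L (S.sg a b p 0) = 0 := by
  have h := hL.sg_add_right hT a b hp 0 0
  rw [add_zero] at h
  exact left_eq_add.1 h

theorem sg_neg_right (hL : qs3_Lg S J L) (hT : Three ι) (a b : ι) {p : A} (hp : p ∈ J) (α : A) :
    L (S.sg a b p (-α)) = -L (S.sg a b p α) := by
  have h := hL.sg_add_right hT a b hp α (-α)
  rw [add_neg_cancel, hL.sg_zero_right hT a b hp] at h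
  exact (neg_eq_of_add_eq_zero_right h.symm).symm

theorem sg_int (hL : qs3_Lg S J L) (hT : Three ι) (a b : ι) {p : A} (hp : p ∈ J) (n : ℤ) (α : A) :
    L (S.sg a b p (n * α)) = L (S.sg a b (n * p) α) := by
  induction n using Int.induction_on with
  | zero => rw [Int.cast_zero, zero_mul, zero_mul, hL.sg_zero_right hT a b hp, S.sg_zero, hL.one]
  | succ n ih =>
    rw [Int.cast_add, Int.cast_one, add_mul, add_mul, one_mul, one_mul, hL.sg_add_right hT a b hp,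
      hL.sg_add_left a b (J.mul_mem_left _ hp) hp, ih]
  | pred n ih =>
    rw [Int.cast_sub, Int.cast_one, sub_mul, sub_mul, one_mul, one_mul, sub_eq_add_neg,
      sub_eq_add_neg, hL.sg_add_right hT a b hp,
      hL.sg_add_left a b (J.mul_mem_left _ hp) (neg_mem hp), ih, hL.sg_neg_right hT a b hp,
      hL.sg_neg_left a b hp]

end qs3_Lg

theorem fr_add_left (hT : Three ι) (hA : S.Ab2 J J) (a b : ι) {p q : A} (hp : p ∈ J) (hq : q ∈ J)
    (α : A) : S.fr a b (p + q) α = S.fr a b p α * S.fr a b q α := by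
  obtain ⟨G, _, L, hL⟩ := qs3_exists hT hA
  have m1 := S.fr_mem a b hp α
  have m2 := S.fr_mem a b hq α
  refine hL.inj (S.fr_mem a b (add_mem hp hq) α) (mul_mem m1 m2) ?_
  rw [hL.mul m1 m2, hL.fr_add_left a b hp hq]
theorem fr_neg_left (hT : Three ι) (hA : S.Ab2 J J) (a b : ι) {p : A} (hp : p ∈ J) (α : A) :
    S.fr a b (-p) α = (S.fr a b p α)⁻¹ := by
  obtain ⟨G, _, L, hL⟩ := qs3_exists hT hA
  have m1 := S.fr_mem a b hp α
  refine hL.inj (S.fr_mem a b (neg_mem hp) α) (inv_mem m1) ?_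
  rw [hL.inv m1, hL.fr_neg_left a b hp]
/-- `R1` after regrouping the letters. -/
theorem fr_R1 (hT : Three ι) (hA : S.Ab2 J J) {a b c : ι} (h : a ≠ b) (h' : b ≠ c) (h'' : a ≠ c)
    {p : A} (hp : p ∈ J) (q β : A) :
    S.fr a b (p * q) β = S.fr a c (-p) (-(β * q)) * S.fr b c (-(β * p)) q := by
  obtain ⟨G, _, L, hL⟩ := qs3_exists hT hA
  have m1 := S.fr_mem a c (neg_mem hp) (-(β * q))
  have m2 := S.fr_mem b c (neg_mem (J.mul_mem_left β hp)) q
  refine hL.inj (S.fr_mem a b (J.mul_mem_right q hp) β) (mul_mem m1 m2) ?_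
  rw [hL.mul m1 m2, hL.fr_R1 h h' h'' hp]
/-- Let `φ` be conjugation by `x b a β`, so `ζ a b p (α + β) = φ (ζ a b p α)`. By `fr_R1` with
`q = 1`, `ζ a b p α = ξ a b p - ξ b a (α² p) - f a c p (-α) - f b c (α p) 1`. Now
`φ (ξ a b p) = ζ a b p β`, `φ (f a c p α') = f a c p α' + ξ b a (-(p β α'))` and
`φ (f b c p' 1) = f b c p' 1 + ξ b a (p' β)`, from
`φ (z a c p α') = x b c (p β) * x b a (-(p β α')) * z a c p α'` and
`φ (z b c p' 1) = z b c p' 1 * x b a (p' β) * x c a (p' β)`. -/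
theorem fr_add_right (hT : Three ι) (hA : S.Ab2 J J) (a b : ι) {p : A} (hp : p ∈ J) (α β : A) :
    S.fr a b p (α + β) = S.fr a b p α * S.fr a b p β := by
  obtain ⟨G, _, L, hL⟩ := qs3_exists hT hA
  have m1 := S.fr_mem a b hp α
  have m2 := S.fr_mem a b hp β
  refine hL.inj (S.fr_mem a b hp _) (mul_mem m1 m2) ?_
  rw [hL.mul m1 m2, hL.fr_add_right hT a b hp]
theorem fr_L (hT : Three ι) (hA : S.Ab2 J J) {a b c : ι} (h : a ≠ b) (h' : b ≠ c) (h'' : a ≠ c)
    {p : A} (hp : p ∈ J) (q β : A) :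
    S.fr a c p (β * q) = S.fr a b (p * q) β * S.fr b c (β * p) q := by
  obtain ⟨G, _, L, hL⟩ := qs3_exists hT hA
  have m1 := S.fr_mem a b (J.mul_mem_right q hp) β
  have m2 := S.fr_mem b c (J.mul_mem_left β hp) q
  refine hL.inj (S.fr_mem a c hp _) (mul_mem m1 m2) ?_
  rw [hL.mul m1 m2, hL.fr_L hT h h' h'' hp]
/-- `fr_L` with `β = q = 1` for distinct indices; for `i = a` use `h a b + h b c = h a c` and
`h b a + h a c = h b c`. -/
theorem fr_cocycle (hT : Three ι) (hA : S.Ab2 J J) {a b : ι} (h : a ≠ b) (i : ι) {s : A}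
    (hs : s ∈ J) : S.fr a b s 1 = S.fr a i s 1 * (S.fr b i s 1)⁻¹ := by
  obtain ⟨G, _, L, hL⟩ := qs3_exists hT hA
  have m1 := S.fr_mem a i hs 1
  have m2 := S.fr_mem b i hs 1
  refine hL.inj (S.fr_mem a b hs _) (mul_mem m1 (inv_mem m2)) ?_
  rw [hL.mul m1 (inv_mem m2), hL.inv m2, hL.fr_cocycle hT h i hs, sub_eq_add_neg]
/-- `fr_L` with `q = 1` changes the second index, with `β = 1` the first index; any two ordered
pairs of distinct indices are connected by such changes (use `hT`). -/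
theorem sg_indep (hT : Three ι) (hA : S.Ab2 J J) {a b c d : ι} (h : a ≠ b) (h' : c ≠ d) {p : A}
    (hp : p ∈ J) (α : A) : S.sg a b p α = S.sg c d p α := by
  obtain ⟨G, _, L, hL⟩ := qs3_exists hT hA
  exact hL.inj (S.sg_mem a b hp α) (S.sg_mem c d hp α) (hL.sg_indep hT h h' hp α)
theorem sg_add_left (hT : Three ι) (hA : S.Ab2 J J) (a b : ι) {p q : A} (hp : p ∈ J) (hq : q ∈ J)
    (α : A) : S.sg a b (p + q) α = S.sg a b p α * S.sg a b q α := by
  obtain ⟨G, _, L, hL⟩ := qs3_exists hT hA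
  have m1 := S.sg_mem a b hp α
  have m2 := S.sg_mem a b hq α
  refine hL.inj (S.sg_mem a b (add_mem hp hq) α) (mul_mem m1 m2) ?_
  rw [hL.mul m1 m2, hL.sg_add_left a b hp hq]
theorem sg_add_right (hT : Three ι) (hA : S.Ab2 J J) (a b : ι) {p : A} (hp : p ∈ J) (α β : A) :
    S.sg a b p (α + β) = S.sg a b p α * S.sg a b p β := by
  obtain ⟨G, _, L, hL⟩ := qs3_exists hT hA
  have m1 := S.sg_mem a b hp α
  have m2 := S.sg_mem a b hp β
  refine hL.inj (S.sg_mem a b hp _) (mul_mem m1 m2) ?_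
  rw [hL.mul m1 m2, hL.sg_add_right hT a b hp]
theorem sg_leib (hT : Three ι) (hA : S.Ab2 J J) (a b : ι) {p : A} (hp : p ∈ J) (q β : A) :
    S.sg a b p (β * q) = S.sg a b (p * q) β * S.sg a b (β * p) q := by
  obtain ⟨G, _, L, hL⟩ := qs3_exists hT hA
  have m1 := S.sg_mem a b (J.mul_mem_right q hp) β
  have m2 := S.sg_mem a b (J.mul_mem_left β hp) q
  refine hL.inj (S.sg_mem a b hp _) (mul_mem m1 m2) ?_
  rw [hL.mul m1 m2, hL.sg_leib hT a b hp]
theorem sg_one (a b : ι) (p : A) : S.sg a b p 1 = 1 := by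
  rw [St.sg, mul_one, mul_inv_cancel]
theorem sg_zero_right (hT : Three ι) (hA : S.Ab2 J J) (a b : ι) {p : A} (hp : p ∈ J) :
    S.sg a b p 0 = 1 := by
  obtain ⟨G, _, L, hL⟩ := qs3_exists hT hA
  refine hL.inj (S.sg_mem a b hp _) (one_mem _) ?_
  rw [hL.one, hL.sg_zero_right hT a b hp]
theorem sg_neg_right (hT : Three ι) (hA : S.Ab2 J J) (a b : ι) {p : A} (hp : p ∈ J) (α : A) :
    S.sg a b p (-α) = S.sg a b (-p) α := by
  obtain ⟨G, _, L, hL⟩ := qs3_exists hT hA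
  refine hL.inj (S.sg_mem a b hp _) (S.sg_mem a b (neg_mem hp) _) ?_
  rw [hL.sg_neg_right hT a b hp, hL.sg_neg_left a b hp]
theorem sg_intCast_mul (hT : Three ι) (hA : S.Ab2 J J) (a b : ι) {p : A} (hp : p ∈ J) (n : ℤ)
    (α : A) : S.sg a b p (n * α) = S.sg a b (n * p) α := by
  obtain ⟨G, _, L, hL⟩ := qs3_exists hT hA
  exact hL.inj (S.sg_mem a b hp _) (S.sg_mem a b (J.mul_mem_left _ hp) _) (hL.sg_int hT a b hp n α)
theorem sg_two (hT : Three ι) (hA : S.Ab2 J J) (a b : ι) {p : A} (hp : p ∈ J) {g : A}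
    (hg : g * g = 1) : S.sg a b (2 * p) g = 1 := by
  have p1 : p * g ∈ J := J.mul_mem_right g hp
  have k := sg_leib hT hA a b p1 g g
  have e1 : p * g * g = p := by rw [mul_assoc, hg, mul_one]
  have e2 : g * (p * g) = p := by rw [mul_comm, e1]
  rw [hg, sg_one, e1, e2, ← sg_add_left hT hA a b hp hp, ← two_mul] at k
  exact k.symm
theorem z_eq (T : Tri ι) (hA : S.Ab2 J J) {a b : ι} (h : a ≠ b) {p : A} (hp : p ∈ J) (α : A) :
    S.z a b p α = S.x a b p * S.x b a (-(α ^ 2 * p)) * S.fr a T.i0 (p * α) 1 *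
      (S.fr b T.i0 (p * α) 1)⁻¹ * S.sg T.i0 T.i1 p α := by
  have hT := T.three
  obtain ⟨G, _, L, hL⟩ := qs3_exists hT hA
  have p1 : p * α ∈ J := J.mul_mem_right α hp
  have p2 : α ^ 2 * p ∈ J := J.mul_mem_left _ hp
  have m1 := S.x_mem a b hp
  have m2 := S.x_mem b a (neg_mem p2)
  have m3 := S.fr_mem a T.i0 p1 1
  have m4 := S.fr_mem b T.i0 p1 1
  have m5 := S.sg_mem T.i0 T.i1 hp α
  have n3 := mul_mem (mul_mem m1 m2) m3
  refine hL.inj (S.z_mem a b hp α) (mul_mem (mul_mem n3 (inv_mem m4)) m5) ?_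
  rw [hL.mul3 n3 (inv_mem m4) m5, hL.mul3 m1 m2 m3, hL.inv m4, hL.x_neg b a p2,
    ← hL.sg_indep hT h T.h01 hp, hL.sg_eq a b hp, hL.fr_eq a b hp, hL.fr_cocycle hT h T.i0 p1]
  abel

end St

end Pool.Agent.Lib.MP_71aad1_an.SS
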