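import Pool.Agent.Lib.MP_71aad1_an.QS3

set_option autoImplicit false

namespace Pool.Agent.Lib.MP_71aad1_an.SS

open Polynomial Matrix Finset Sum

/-! The two normal forms. -/

namespace St
variable {ι A H : Type} [CommRing A] [Group H] [Fintype ι] [DecidableEq ι] {S : St ι A H}
  {J : Ideal A}

omit [Fintype ι] in
theorem qs4_single {σ : Type} [DecidableEq σ] (s : σ) {p : A} (hp : p ∈ J) (s' : σ) :
    (Pi.single s p : σ → A) s' ∈ J := by
  rw [Pi.single_apply]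
  split_ifs
  exacts [hp, J.zero_mem]

omit [DecidableEq ι] in
theorem qs4_addX (hT : Three ι) (hA : S.Ab2 J J) {P P' : ι × ι → A} (hP : ∀ ab, P ab ∈ J)
    (hP' : ∀ ab, P' ab ∈ J) :
    prodL (univ : Finset (ι × ι)).toList (fun ab p => S.x ab.1 ab.2 p) (P + P') =
      prodL (univ : Finset (ι × ι)).toList (fun ab p => S.x ab.1 ab.2 p) P *
        prodL (univ : Finset (ι × ι)).toList (fun ab p => S.x ab.1 ab.2 p) P' :=
  prodL_add _ (fun _ => S.add _ _ _ _) fun ab ab' =>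
    S.commute_Zs hT hA (S.x_mem _ _ (hP ab)) (S.x_mem _ _ (hP' ab'))

omit [DecidableEq ι] in
theorem qs4_addF (hT : Three ι) (hA : S.Ab2 J J) (i : ι) {s s' : ι → A} (hs : ∀ a, s a ∈ J)
    (hs' : ∀ a, s' a ∈ J) :
    prodL (univ : Finset ι).toList (fun a p => S.fr a i p 1) (s + s') =
      prodL (univ : Finset ι).toList (fun a p => S.fr a i p 1) s *
        prodL (univ : Finset ι).toList (fun a p => S.fr a i p 1) s' :=
  prodL_add _ (fun a => fr_add_left hT hA _ _ (hs a) (hs' a) _) fun a a' =>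
    S.commute_Zs hT hA (S.fr_mem _ _ (hs a) _) (S.fr_mem _ _ (hs' a') _)

theorem nf1_zero (g t : A) : S.nf1 g t 0 = 1 :=
  prodL_eq_one fun _ _ => S.z_zero_left _ _ _
theorem nf1_mem (g t : A) {P : ι × ι × Fin 6 → A} (hP : ∀ s, P s ∈ J) : S.nf1 g t P ∈ S.Zs J :=
  prodL_mem fun s _ => S.z_mem _ _ (hP s) _
/-- `prodL_add`, `prodL_single`, `commute_Zs`. -/
theorem nf1_step (hT : Three ι) {J₁ J₂ : Ideal A} (hA : S.Ab2 J₁ J₂) (g t : A)
    {P : ι × ι × Fin 6 → A} (hP : ∀ s, P s ∈ J₁) (a b : ι) (i : Fin 6) {p : A} (hp : p ∈ J₂) :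
    S.nf1 g t P * S.z a b p (al g t i) = S.nf1 g t (P + Pi.single (a, b, i) p) := by
  rw [nf1, nf1, prodL_add, prodL_single]
  exacts [fun s => S.z_zero_left _ _ _, fun s => S.z_add _ _ _ _ _, fun s s' =>
    S.commute_Zs hT hA (S.z_mem _ _ (hP s) _) (S.z_mem _ _ (qs4_single _ hp s') _)]
theorem nf2_zero (T : Tri ι) (g t : A) : S.nf2 T g t 0 0 0 0 = 1 := by
  rw [nf2, prodL_eq_one, prodL_eq_one, sg_zero, sg_zero, mul_one, mul_one, mul_one]
  exacts [fun _ _ => S.fr_zero _ _ _, fun _ _ => S.x_zero _ _]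
theorem nf2_mem (T : Tri ι) (g t : A) {P : ι × ι → A} {s : ι → A} {τ γ : A} (hP : ∀ ab, P ab ∈ J)
    (hs : ∀ a, s a ∈ J) (hτ : τ ∈ J) (hγ : γ ∈ J) : S.nf2 T g t P s τ γ ∈ S.Zs J :=
  mul_mem (mul_mem (mul_mem (prodL_mem fun ab _ => S.x_mem _ _ (hP ab))
    (prodL_mem fun a _ => S.fr_mem _ _ (hs a) _)) (S.sg_mem _ _ hτ _)) (S.sg_mem _ _ hγ _)
theorem nf2_mul (T : Tri ι) (hA : S.Ab2 J J) (g t : A) {P P' : ι × ι → A} {s s' : ι → A}
    {τ τ' γ γ' : A} (hP : ∀ ab, P ab ∈ J) (hs : ∀ a, s a ∈ J) (hτ : τ ∈ J) (hγ : γ ∈ J)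
    (hP' : ∀ ab, P' ab ∈ J) (hs' : ∀ a, s' a ∈ J) (hτ' : τ' ∈ J) (hγ' : γ' ∈ J) :
    S.nf2 T g t P s τ γ * S.nf2 T g t P' s' τ' γ' =
      S.nf2 T g t (P + P') (s + s') (τ + τ') (γ + γ') := by
  have hc : ∀ {x y : H}, x ∈ S.Zs J → y ∈ S.Zs J → Commute x y := S.commute_Zs T.three hA
  have m1 : prodL (univ : Finset (ι × ι)).toList (fun ab p => S.x ab.1 ab.2 p) P' ∈ S.Zs J :=
    prodL_mem fun ab _ => S.x_mem _ _ (hP' ab)
  have m2 : prodL (univ : Finset ι).toList (fun a p => S.fr a T.i0 p 1) s' ∈ S.Zs J :=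
    prodL_mem fun a _ => S.fr_mem _ _ (hs' a) _
  have m3 : prodL (univ : Finset ι).toList (fun a p => S.fr a T.i0 p 1) s ∈ S.Zs J :=
    prodL_mem fun a _ => S.fr_mem _ _ (hs a) _
  rw [nf2, nf2, nf2, qs4_addX T.three hA hP hP', qs4_addF T.three hA _ hs hs',
    sg_add_left T.three hA _ _ hτ hτ', sg_add_left T.three hA _ _ hγ hγ',
    (hc (S.sg_mem _ _ hγ _) (mul_mem (mul_mem m1 m2) (S.sg_mem _ _ hτ' _))).mul_mul_mul_comm,
    (hc (S.sg_mem _ _ hτ _) (mul_mem m1 m2)).mul_mul_mul_comm,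
    (hc m3 m1).mul_mul_mul_comm]
theorem nf2_sg (T : Tri ι) (g t : A) (P : ι × ι → A) (s : ι → A) (τ γ : A) :
    S.nf2 T g t P s τ γ = S.nf2 T g t P s 0 0 * S.sg T.i0 T.i1 τ t * S.sg T.i0 T.i1 γ g := by
  rw [nf2, nf2, sg_zero, sg_zero, mul_one, mul_one]
/-- From `z_eq`, with `P = single (a, b) p + single (b, a) (-(α² p))` and
`s = single a (p α) + single b (-(p α))`. -/
theorem z_nf2 (T : Tri ι) (hA : S.Ab2 J J) (g t : A) {a b : ι} (h : a ≠ b) {p : A} (hp : p ∈ J)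
    (α : A) : ∃ (P : ι × ι → A) (s : ι → A), (∀ ab, P ab ∈ J) ∧ (∀ c, s c ∈ J) ∧
      S.z a b p α = S.nf2 T g t P s 0 0 * S.sg T.i0 T.i1 p α := by
  have h1 : -(α ^ 2 * p) ∈ J := J.neg_mem (J.mul_mem_left _ hp)
  have h2 : p * α ∈ J := J.mul_mem_right _ hp
  refine ⟨Pi.single (a, b) p + Pi.single (b, a) (-(α ^ 2 * p)),
    Pi.single a (p * α) + Pi.single b (-(p * α)),
    fun ab => J.add_mem (qs4_single _ hp ab) (qs4_single _ h1 ab),
    fun c => J.add_mem (qs4_single _ h2 c) (qs4_single _ (J.neg_mem h2) c), ?_⟩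
  rw [z_eq T hA h hp, nf2, sg_zero, sg_zero, mul_one, mul_one,
    qs4_addX T.three hA (qs4_single _ hp) (qs4_single _ h1),
    qs4_addF T.three hA _ (qs4_single _ h2) (qs4_single _ (J.neg_mem h2)),
    prodL_single, prodL_single, prodL_single, prodL_single,
    fr_neg_left T.three hA _ _ h2, ← mul_assoc]
  exacts [fun _ => S.fr_zero _ _ _, fun _ => S.fr_zero _ _ _, fun _ => S.x_zero _ _,
    fun _ => S.x_zero _ _]
theorem qs4_slot (T : Tri ι) (hA : S.Ab2 J J) (g t : A) (a b : ι) (i : Fin 6) {p : A}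
    (hp : p ∈ J) : ∃ (P : ι × ι → A) (s : ι → A), (∀ ab, P ab ∈ J) ∧ (∀ c, s c ∈ J) ∧
      S.z a b p (al g t i) = S.nf2 T g t P s (if a = b then 0 else al 0 1 i * al 0 1 i * p -
        al 0 0 i * al 0 0 i * p) (if a = b then 0 else al 1 0 i * p - al 0 0 i * p) := by
  by_cases h : a = b
  · exact ⟨0, 0, fun _ => J.zero_mem, fun _ => J.zero_mem, by
      rw [if_pos h, if_pos h, nf2_zero, h, z_diag]⟩
  obtain ⟨P, s, hP, hs, e⟩ := z_nf2 T hA g t h hp (al g t i)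
  refine ⟨P, s, hP, hs, ?_⟩
  rw [e, nf2_sg T g t P s (ite _ _ _), if_neg h, if_neg h, mul_assoc (S.nf2 T g t P s 0 0)]
  congr 1
  fin_cases i <;>
    simp [al, sg_zero, sg_one, sg_zero_right T.three hA _ _ hp, sg_neg_right T.three hA _ _ hp]

theorem qs4_list (T : Tri ι) (hA : S.Ab2 J J) (g t : A) {σ : Type} {F : σ → H} {τ γ : σ → A}
    (hτ : ∀ i, τ i ∈ J) (hγ : ∀ i, γ i ∈ J)
    (h : ∀ i, ∃ (P : ι × ι → A) (s : ι → A), (∀ ab, P ab ∈ J) ∧ (∀ c, s c ∈ J) ∧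
      F i = S.nf2 T g t P s (τ i) (γ i)) (l : List σ) :
    ∃ (P : ι × ι → A) (s : ι → A), (∀ ab, P ab ∈ J) ∧ (∀ c, s c ∈ J) ∧
      (l.map F).prod = S.nf2 T g t P s (l.map τ).sum (l.map γ).sum := by
  induction l with
  | nil => exact ⟨0, 0, fun _ => J.zero_mem, fun _ => J.zero_mem, (nf2_zero T g t).symm⟩
  | cons i l ih =>
    obtain ⟨P, s, hP, hs, e⟩ := h i
    obtain ⟨P', s', hP', hs', e'⟩ := ih
    refine ⟨P + P', s + s', fun ab => J.add_mem (hP ab) (hP' ab),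
      fun c => J.add_mem (hs c) (hs' c), ?_⟩
    simp only [List.map_cons, List.prod_cons, List.sum_cons]
    rw [e, e', nf2_mul T hA g t hP hs (hτ i) (hγ i) hP' hs'
      (list_sum_mem (List.forall_mem_map.2 fun j _ => hτ j))
      (list_sum_mem (List.forall_mem_map.2 fun j _ => hγ j))]

/-- Induction over the list of slots (prove it for every list, with the sums over the list in
place of `symT`, `symG`), then remove `2 γ'` with `sg_two`. -/
theorem abNF (T : Tri ι) (hA : S.Ab2 J J) {g : A} (hg : g * g = 1) (t : A)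
    {P : ι × ι × Fin 6 → A} (hP : ∀ s, P s ∈ J) {γ γ' : A} (hγ : γ ∈ J) (hγ' : γ' ∈ J)
    (h : symG P = 2 * γ' + γ) : ∃ (P' : ι × ι → A) (s : ι → A), (∀ ab, P' ab ∈ J) ∧ (∀ c, s c ∈ J) ∧
      S.nf1 g t P = S.nf2 T g t P' s (symT P) γ := by
  have m : ∀ (i : ι × ι × Fin 6) (u v : A),
      (if i.1 = i.2.1 then 0 else u * P i - v * P i) ∈ J := fun i u v => by
    split_ifs
    exacts [J.zero_mem, J.sub_mem (J.mul_mem_left _ (hP i)) (J.mul_mem_left _ (hP i))]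
  obtain ⟨P', s, hP', hs, e⟩ := qs4_list T hA g t (fun i => m i _ _) (fun i => m i _ _)
    (fun i : ι × ι × Fin 6 => qs4_slot T hA g t i.1 i.2.1 i.2.2 (hP i))
    (univ : Finset (ι × ι × Fin 6)).toList
  refine ⟨P', s, hP', hs, e.trans ?_⟩
  rw [Finset.sum_map_toList, Finset.sum_map_toList]
  have e1 : ∑ i : ι × ι × Fin 6, (if i.1 = i.2.1 then 0 else al 0 1 i.2.2 * al 0 1 i.2.2 * P i -
      al 0 0 i.2.2 * al 0 0 i.2.2 * P i) = symT P := by
    simp only [Fintype.sum_prod_type]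
    refine sum_congr rfl fun a _ => sum_congr rfl fun b _ => ?_
    split_ifs <;> simp [Fin.sum_univ_six, al]
  have e2 : ∑ i : ι × ι × Fin 6, (if i.1 = i.2.1 then 0 else al 1 0 i.2.2 * P i -
      al 0 0 i.2.2 * P i) = symG P := by
    simp only [Fintype.sum_prod_type]
    refine sum_congr rfl fun a _ => sum_congr rfl fun b _ => ?_
    split_ifs <;> simp [Fin.sum_univ_six, al, sub_eq_add_neg]
  rw [e1, e2, h, nf2, nf2, sg_add_left T.three hA _ _ (J.mul_mem_left _ hγ') hγ,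
    sg_two T.three hA _ _ hγ' hg, one_mul]

end St

theorem symT_add_single {ι A : Type} [Fintype ι] [DecidableEq ι] [CommRing A]
    (P : ι × ι × Fin 6 → A) {a b : ι} (h : a ≠ b) (i : Fin 6) (p : A) :
    symT (P + Pi.single (a, b, i) p) = symT P + if i = 5 then p else 0 := by
  have e : ∀ c d : ι, (if c = d then 0 else (P + Pi.single (a, b, i) p : _ → A) (c, d, 5)) =
      (if c = d then 0 else P (c, d, 5)) +
        if d = b then if c = a then if i = 5 then p else 0 else 0 else 0 := fun c d => by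
    by_cases h1 : d = b <;> by_cases h2 : c = a <;> split_ifs <;>
      simp_all [eq_comm]
  simp only [symT, e, sum_add_distrib, sum_ite_eq', mem_univ, if_true]

end Pool.Agent.Lib.MP_71aad1_an.SS
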