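import Pool.Agent.Lib.MP_71aad1_an.QA1
import Pool.Agent.Lib.MP_71aad1_an.QDef4

set_option autoImplicit false

namespace Pool.Agent.Lib.MP_71aad1_an.SS

open Polynomial Matrix Finset Sum

/-! Translation between the format of the frozen statement and matrices over `Lam ℤ`. -/

/-- The main theorem in the format of this library. -/
def MainStmt : Prop :=
  ∀ A B : FM, Prim A → Prim B → Relation.EqvGen (ES fun _ => True) A (cvM A0) →
    Relation.EqvGen (ES fun _ => True) B (cvM A0) → Relation.EqvGen (ES LPos) A B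

theorem qt0_ne : (Multiplicative.ofAdd 1 : Multiplicative (ZMod 2)) ≠ 1 := by decide
theorem qt0_cases (g : Multiplicative (ZMod 2)) : g = 1 ∨ g = Multiplicative.ofAdd 1 := by
  revert g
  decide
theorem qt0_sum (f : Multiplicative (ZMod 2) → ℤ) :
    ∑ h, f h = f 1 + f (Multiplicative.ofAdd 1) := by
  have e : (univ : Finset (Multiplicative (ZMod 2))) = {1, Multiplicative.ofAdd 1} := by decide
  rw [e, Finset.sum_pair qt0_ne.symm]
theorem qt0_re {σ : Type} (s : Finset σ) (f : σ → Lam ℤ) :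
    (∑ j ∈ s, f j).re = ∑ j ∈ s, (f j).re := by
  classical
  induction s using Finset.induction_on with
  | empty => rfl
  | insert a s ha ih => rw [Finset.sum_insert ha, Finset.sum_insert ha, ← ih]; rfl
theorem qt0_im {σ : Type} (s : Finset σ) (f : σ → Lam ℤ) :
    (∑ j ∈ s, f j).im = ∑ j ∈ s, (f j).im := by
  classical
  induction s using Finset.induction_on with
  | empty => rfl
  | insert a s ha ih => rw [Finset.sum_insert ha, Finset.sum_insert ha, ← ih]; rfl

theorem cvL_cvG (c : Lam ℤ) : cvL (cvG c) = c := by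
  ext
  · simp [cvL, cvG]
  · simp only [cvL, cvG, if_neg qt0_ne]
theorem cvG_cvL (c : Multiplicative (ZMod 2) → ℤ) : cvG (cvL c) = c := by
  funext g
  rcases qt0_cases g with rfl | rfl
  · simp [cvL, cvG]
  · simp only [cvL, cvG, if_neg qt0_ne]

/-- Convolution becomes multiplication. The group has the two elements `1` and
`Multiplicative.ofAdd 1`; `decide` evaluates the products. -/
theorem cvL_conv {σ : Type} [Fintype σ] (R S : σ → Multiplicative (ZMod 2) → ℤ) :
    cvL (fun g => ∑ j, ∑ h, R j h * S j (h⁻¹ * g)) = ∑ j, cvL (R j) * cvL (S j) := by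
  have e1 : ((Multiplicative.ofAdd 1 : Multiplicative (ZMod 2))⁻¹ * 1) = Multiplicative.ofAdd 1 := by
    decide
  ext
  · rw [qt0_re]
    refine Finset.sum_congr rfl fun j _ => ?_
    rw [qt0_sum, e1]
    simp [cvL]
  · rw [qt0_im]
    refine Finset.sum_congr rfl fun j _ => ?_
    rw [qt0_sum]
    simp [cvL]

theorem qt0_map {α β : Type} (f : α → β) {r : α → α → Prop} {s : β → β → Prop}
    (h : ∀ a b, r a b → s (f a) (f b)) {a b : α} (hab : Relation.EqvGen r a b) :
    Relation.EqvGen s (f a) (f b) := by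
  induction hab with
  | rel a b hr => exact Relation.EqvGen.rel _ _ (h a b hr)
  | refl a => exact Relation.EqvGen.refl _
  | symm a b _ ih => exact Relation.EqvGen.symm _ _ ih
  | trans a b c _ _ ih ih' => exact Relation.EqvGen.trans _ _ _ ih ih'

theorem qt0_mul {a b c : ℕ} (R : Fin a → Fin b → Multiplicative (ZMod 2) → ℤ)
    (S : Fin b → Fin c → Multiplicative (ZMod 2) → ℤ) :
    (of fun i l => cvL fun g => ∑ j, ∑ h, R i j h * S j l (h⁻¹ * g)) =
      (of fun i j => cvL (R i j)) * of fun j l => cvL (S j l) := by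
  ext1 i l
  rw [mul_apply, of_apply, cvL_conv (fun j => R i j) fun j => S j l]
  rfl

theorem qt0_back {a b c : ℕ} (R : Matrix (Fin a) (Fin b) (Lam ℤ))
    (S : Matrix (Fin b) (Fin c) (Lam ℤ)) :
    (fun i l => cvG ((R * S) i l)) =
      fun i l g => ∑ j, ∑ h, cvG (R i j) h * cvG (S j l) (h⁻¹ * g) := by
  funext i l
  rw [← cvG_cvL fun g => ∑ j, ∑ h, cvG (R i j) h * cvG (S j l) (h⁻¹ * g),
    cvL_conv (fun j => cvG (R i j)) fun j => cvG (S j l), mul_apply]
  simp only [cvL_cvG]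

theorem qt0_pos {c : Lam ℤ} (hc : LPos c) (g : Multiplicative (ZMod 2)) : 0 ≤ cvG c g := by
  unfold cvG
  split_ifs
  · exact hc.1
  · exact hc.2

theorem qt0_iter (A : GM) (k : ℕ) :
    (of fun i j => cvL (((fun M : Fin A.1 → Fin A.1 → Multiplicative (ZMod 2) → ℤ =>
      fun i l g => ∑ j, ∑ h, M i j h * A.2 j l (h⁻¹ * g))^[k] A.2) i j)) = (cvM A).2 ^ (k + 1) := by
  induction k with
  | zero => exact (pow_one _).symm
  | succ k ih =>
    rw [Function.iterate_succ_apply', pow_succ, ← ih]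
    exact qt0_mul _ _

theorem qt0_prim (A : GM) (h : 0 < A.1 ∧ (∀ i j g, 0 ≤ A.2 i j g) ∧
    ∃ k : ℕ, ∀ i j g, 0 < ((fun M : Fin A.1 → Fin A.1 → Multiplicative (ZMod 2) → ℤ =>
      fun i l g => ∑ j, ∑ h, M i j h * A.2 j l (h⁻¹ * g))^[k] A.2) i j g) : Prim (cvM A) := by
  obtain ⟨h1, h2, k, h3⟩ := h
  refine ⟨h1, fun i j => ⟨h2 i j _, h2 i j _⟩, k, fun i j => ?_⟩
  rw [← qt0_iter A k]
  exact ⟨h3 i j _, h3 i j _⟩

theorem qt0_inv (A : GM) : (⟨(cvM A).1, fun i j => cvG ((cvM A).2 i j)⟩ : GM) = A := by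
  obtain ⟨n, A⟩ := A
  refine Sigma.ext rfl (heq_of_eq ?_)
  funext i j
  exact cvG_cvL (A i j)

/-- Specialise to `G = Multiplicative (ZMod 2)`, `A = A0` (primitive with `k = 0`), `N = 2`, and the
pair `m = 0`, `m' = 1`. The iterate in the primitivity condition corresponds to `A ^ (k + 1)`
(induction on `k`, `Function.iterate_succ_apply'`, `pow_succ`). Translate the chains of elementary
equivalences with `Relation.EqvGen` induction: forward along `cvM`, backward along
`fun A : FM => (⟨A.1, fun i j => cvG (A.2 i j)⟩ : GM)`, which is a left inverse of `cvM`. -/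
theorem frozen_of (h : MainStmt) :
    ¬ (∀ (G : Type) [Group G] [Fintype G] [Nontrivial G]
    (A : Σ n : ℕ, (Fin n → Fin n → G → ℤ)),
    (0 < A.1 ∧ (∀ i j g, 0 ≤ A.2 i j g) ∧
      ∃ k : ℕ, ∀ i j g, 0 <
        ((fun M : Fin A.1 → Fin A.1 → G → ℤ =>
            fun i l g => ∑ j, ∑ h : G, M i j h * A.2 j l (h⁻¹ * g))^[k] A.2) i j g) →
    ∀ N : ℕ, ∃ f : Fin N → (Σ n : ℕ, (Fin n → Fin n → G → ℤ)),
      (∀ m, (0 < (f m).1 ∧ (∀ i j g, 0 ≤ (f m).2 i j g) ∧
          ∃ k : ℕ, ∀ i j g, 0 <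
            ((fun M : Fin (f m).1 → Fin (f m).1 → G → ℤ =>
                fun i l g => ∑ j, ∑ h : G, M i j h * (f m).2 j l (h⁻¹ * g))^[k] (f m).2) i j g) ∧
        Relation.EqvGen
          (fun P Q : (Σ n : ℕ, (Fin n → Fin n → G → ℤ)) =>
            ∃ (R : Fin P.1 → Fin Q.1 → G → ℤ) (S : Fin Q.1 → Fin P.1 → G → ℤ),
              P.2 = (fun i l g => ∑ j, ∑ h : G, R i j h * S j l (h⁻¹ * g)) ∧
              Q.2 = (fun i l g => ∑ j, ∑ h : G, S i j h * R j l (h⁻¹ * g)))
          (f m) A) ∧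
      ∀ m m', m ≠ m' → ¬ Relation.EqvGen
          (fun P Q : (Σ n : ℕ, (Fin n → Fin n → G → ℤ)) =>
            ∃ (R : Fin P.1 → Fin Q.1 → G → ℤ) (S : Fin Q.1 → Fin P.1 → G → ℤ),
              (∀ i j g, 0 ≤ R i j g) ∧ (∀ i j g, 0 ≤ S i j g) ∧
              P.2 = (fun i l g => ∑ j, ∑ h : G, R i j h * S j l (h⁻¹ * g)) ∧
              Q.2 = (fun i l g => ∑ j, ∑ h : G, S i j h * R j l (h⁻¹ * g)))
          (f m) (f m')) := by
  intro H
  obtain ⟨f, h1, h2⟩ := H (Multiplicative (ZMod 2)) A0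
    ⟨Nat.one_pos, fun _ _ _ => by simp [A0], 0, fun _ _ _ => by simp [A0]⟩ 2
  have fw : ∀ m, Relation.EqvGen (ES fun _ => True) (cvM (f m)) (cvM A0) := fun m => by
    refine qt0_map cvM ?_ (h1 m).2
    rintro P Q ⟨R, S, e1, e2⟩
    refine ⟨of fun i j => cvL (R i j), of fun i j => cvL (S i j), fun _ _ => trivial,
      fun _ _ => trivial, ?_, ?_⟩
    · change (of fun i j => cvL (P.2 i j)) = _
      rw [e1]
      exact qt0_mul R S
    · change (of fun i j => cvL (Q.2 i j)) = _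
      rw [e2]
      exact qt0_mul S R
  have h3 := h _ _ (qt0_prim _ (h1 0).1) (qt0_prim _ (h1 1).1) (fw 0) (fw 1)
  refine h2 0 1 (by decide) ?_
  rw [← qt0_inv (f 0), ← qt0_inv (f 1)]
  refine qt0_map (fun A : FM => (⟨A.1, fun i j => cvG (A.2 i j)⟩ : GM)) ?_ h3
  rintro P Q ⟨R, S, p1, p2, e1, e2⟩
  refine ⟨fun i j => cvG (R i j), fun i j => cvG (S i j), fun i j => qt0_pos (p1 i j),
    fun i j => qt0_pos (p2 i j), ?_, ?_⟩
  · change (fun i j => cvG (P.2 i j)) = _
    rw [e1]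
    exact qt0_back R S
  · change (fun i j => cvG (Q.2 i j)) = _
    rw [e2]
    exact qt0_back S R

end Pool.Agent.Lib.MP_71aad1_an.SS
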