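import Pool.Agent.Lib.MP_71aad1_an.QR3
import Pool.Agent.Lib.MP_71aad1_an.QDef4

set_option autoImplicit false

namespace Pool.Agent.Lib.MP_71aad1_an.SS

open Polynomial Matrix Finset Sum

/-! Matrices equivalent to `4 u` have a power of rank one. -/

variable {V : Type} [Fintype V] [DecidableEq V]

theorem qt1_pow_mul {U W : Type} [Fintype U] [DecidableEq U] [Fintype W] [DecidableEq W]
    {A : Matrix U U (Lam ℤ)} {B : Matrix W W (Lam ℤ)} {R : Matrix U W (Lam ℤ)} (h : A * R = R * B)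
    (n : ℕ) : A ^ n * R = R * B ^ n := by
  induction n with
  | zero => simp
  | succ n ih => rw [pow_succ, Matrix.mul_assoc, h, ← Matrix.mul_assoc, ih, Matrix.mul_assoc,
      ← pow_succ]

theorem qt1_aug_nat (n : ℕ) : augZ (n : Lam ℤ) = n := map_natCast augZ n
theorem qt1_aug_int (n : ℤ) : augZ (n : Lam ℤ) = n := map_intCast augZ n

theorem qt1_B0 (i j : Fin 1) : (cvM A0).2 i j = 4 * uL := by
  change (⟨4, 4⟩ : Lam ℤ) = 4 * uL
  rw [show (4 : Lam ℤ) * uL = uL + uL + uL + uL by ring]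
  ext <;> simp [uL]

theorem qt1_unit (B : Matrix (Fin 1) (Fin 1) (Lam ℤ)) (hB : ∀ i j, B i j = 4 * uL) :
    Rel (hb (1 - tM B)) (hb (of fun _ _ : Unit => Del)) := by
  let e : Fin 1 ≃ Unit := Equiv.ofUnique _ _
  have h2 := rel_pad e.toEmbedding (hb (1 - tM B))
  rw [padM_hb, padM_equiv] at h2
  have h3 : reindex e e (1 - tM B) = of fun _ _ : Unit => Del := by
    ext1 i j
    rw [reindex_apply, submatrix_apply, of_apply, Matrix.sub_apply,
      Subsingleton.elim (e.symm i) (e.symm j), one_apply_eq, tM, Matrix.smul_apply, map_apply, hB,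
      smul_eq_mul, Del, uR, C_mul, map_ofNat]
    ring
  rwa [h3] at h2

theorem qt1_pos {A : Matrix V V (Lam ℤ)} (hA : MLPos A) {k : ℕ}
    (hk : ∀ i j, 0 < augZ ((A ^ (k + 1)) i j)) (n : ℕ) :
    ∀ i j, 0 < augZ ((A ^ (n + (k + 1))) i j) := by
  induction n with
  | zero => simpa using hk
  | succ n ih =>
    intro i j
    obtain ⟨z, hz⟩ : ∃ z, A i z ≠ 0 := by
      by_contra hn
      push Not at hn
      have h1 := hk i i
      rw [pow_succ', mul_apply] at h1
      simp [hn] at h1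
    rw [show n + 1 + (k + 1) = n + (k + 1) + 1 by ring, pow_succ', mul_apply, map_sum]
    refine Finset.sum_pos' (fun y _ => ?_) ⟨z, mem_univ _, ?_⟩
    · rw [map_mul]
      exact mul_nonneg (hA i y).aug_nonneg (ih y j).le
    · rw [map_mul]
      exact mul_pos ((hA i z).aug_pos hz) (ih z j)

/-- Shift equivalence over the ring: induction on `Relation.EqvGen` (prove the relation
`∃ n R S, A ^ n = R S ∧ B ^ n = S R ∧ A R = R B ∧ S A = B S` is reflexive (`n = 0`), symmetric and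
transitive). -/
theorem se_of_eqvGen {A B : FM} (h : Relation.EqvGen (ES fun _ => True) A B) :
    ∃ (n : ℕ) (R : Matrix (Fin A.1) (Fin B.1) (Lam ℤ)) (S : Matrix (Fin B.1) (Fin A.1) (Lam ℤ)),
      A.2 ^ n = R * S ∧ B.2 ^ n = S * R ∧ A.2 * R = R * B.2 ∧ S * A.2 = B.2 * S := by
  induction h with
  | rel A B h =>
    obtain ⟨R, S, -, -, h1, h2⟩ := h
    refine ⟨1, R, S, by rw [pow_one, h1], by rw [pow_one, h2], ?_, ?_⟩
    · rw [h1, h2, Matrix.mul_assoc]
    · rw [h1, h2, Matrix.mul_assoc]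
  | refl A => exact ⟨0, 1, 1, by simp, by simp, by simp, by simp⟩
  | symm A B _ ih =>
    obtain ⟨n, R, S, h1, h2, h3, h4⟩ := ih
    exact ⟨n, S, R, h2, h1, h4.symm, h3.symm⟩
  | trans A B D _ _ ih1 ih2 =>
    obtain ⟨n, R, S, h1, h2, h3, h4⟩ := ih1
    obtain ⟨k, R', S', h5, h6, h7, h8⟩ := ih2
    refine ⟨k + n, R * R', S' * S, ?_, ?_, ?_, ?_⟩
    · rw [pow_add, h1, ← Matrix.mul_assoc, qt1_pow_mul h3, h5]
      simp only [Matrix.mul_assoc]
    · rw [pow_add, h6, Matrix.mul_assoc, ← qt1_pow_mul h7, h2]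
      simp only [Matrix.mul_assoc]
    · rw [← Matrix.mul_assoc, h3, Matrix.mul_assoc, h7, Matrix.mul_assoc]
    · rw [Matrix.mul_assoc, h4, ← Matrix.mul_assoc, h8, Matrix.mul_assoc]

/-- With `A ^ n = R S`: `A ^ (n + 1) = R (4 u) S` has the entries `(4 aug (R i)) aug (S j) u`
(`mul_uL`), and `aug (S)` is a left eigenvector for the eigenvalue `8`. Signs: `A` has no zero row,
so `A ^ (n + 1) * A ^ (k + 1)` has positive entries; these are `4 aug (R i) 8 ^ (k + 1) aug (S j) u`.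
Take absolute values. -/
theorem rankOne_of_prim {A : FM} (hp : Prim A) (h : Relation.EqvGen (ES fun _ => True) A (cvM A0)) :
    ∃ (m : ℕ) (rr l : Fin A.1 → ℕ), RankOne A.2 m rr l := by
  obtain ⟨n, R, S, h1, -, h3, h4⟩ := se_of_eqvGen h
  obtain ⟨h0, hA, k, hk⟩ := hp
  have hent : ∀ i j, (A.2 ^ (n + 1)) i j =
      ((4 * augZ (R i (0 : Fin 1)) * augZ (S (0 : Fin 1) j) : ℤ) : Lam ℤ) * uL := by
    intro i j
    have e : A.2 ^ (n + 1) = R * (cvM A0).2 * S := by
      rw [pow_succ', h1, ← Matrix.mul_assoc, h3]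
    have e1 : (R * (cvM A0).2 * S) i j = R i (0 : Fin 1) * (4 * uL) * S (0 : Fin 1) j := by
      rw [mul_apply]
      refine (Fin.sum_univ_one (fun z : Fin 1 => (R * (cvM A0).2) i z * S z j)).trans ?_
      rw [mul_apply]
      congr 1
      refine (Fin.sum_univ_one (fun z : Fin 1 => R i z * (cvM A0).2 z (0 : Fin 1))).trans ?_
      rw [qt1_B0]
    rw [e, e1, show R i (0 : Fin 1) * (4 * uL) * S (0 : Fin 1) j =
      4 * (R i (0 : Fin 1) * S (0 : Fin 1) j * uL) by ring, mul_uL, map_mul]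
    push_cast
    ring
  have heig : ∀ j, ∑ i, augZ (S (0 : Fin 1) i) * augZ (A.2 i j) = 8 * augZ (S (0 : Fin 1) j) := by
    intro j
    have e : (S * A.2) (0 : Fin 1) j = 4 * uL * S (0 : Fin 1) j := by
      rw [h4, mul_apply]
      refine (Fin.sum_univ_one (fun z : Fin 1 => (cvM A0).2 (0 : Fin 1) z * S z j)).trans ?_
      rw [qt1_B0]
    have e1 := congrArg augZ e
    rw [mul_apply, map_sum, map_mul, map_mul, augZ_uL, map_ofNat] at e1
    simp only [map_mul] at e1
    rw [e1]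
    ring
  have heigp : ∀ N j, ∑ i, augZ (S (0 : Fin 1) i) * augZ ((A.2 ^ N) i j) =
      8 ^ N * augZ (S (0 : Fin 1) j) := by
    intro N
    induction N with
    | zero =>
      intro j
      simp [one_apply, apply_ite augZ]
    | succ N ih =>
      intro j
      simp only [pow_succ, mul_apply, map_sum, map_mul, Finset.mul_sum]
      rw [Finset.sum_comm]
      simp only [← mul_assoc, ← Finset.sum_mul, ih]
      simp only [mul_assoc, ← Finset.mul_sum, heig]
  have hsg : ∀ i j, 0 < augZ (R i (0 : Fin 1)) * augZ (S (0 : Fin 1) j) := by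
    intro i j
    have h5 := qt1_pos hA (fun i j => add_pos (hk i j).1 (hk i j).2) (n + 1) i j
    rw [pow_add, mul_apply, map_sum] at h5
    simp only [hent, map_mul, qt1_aug_int, augZ_uL] at h5
    have e : ∑ z, 4 * augZ (R i (0 : Fin 1)) * augZ (S (0 : Fin 1) z) * 2 *
        augZ ((A.2 ^ (k + 1)) z j) = 8 * augZ (R i (0 : Fin 1)) *
          ∑ z, augZ (S (0 : Fin 1) z) * augZ ((A.2 ^ (k + 1)) z j) := by
      rw [Finset.mul_sum]
      exact Finset.sum_congr rfl fun z _ => by ring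
    rw [e, heigp, show 8 * augZ (R i (0 : Fin 1)) * (8 ^ (k + 1) * augZ (S (0 : Fin 1) j)) =
      (8 * 8 ^ (k + 1)) * (augZ (R i (0 : Fin 1)) * augZ (S (0 : Fin 1) j)) by ring] at h5
    exact (mul_pos_iff_of_pos_left (by positivity)).1 h5
  refine ⟨n + 1, fun i => 4 * (augZ (R i (0 : Fin 1))).natAbs,
    fun j => (augZ (S (0 : Fin 1) j)).natAbs, hA, by omega, fun i => ?_, fun j => ?_,
    fun i j => ?_, fun j => ?_⟩
  · have := left_ne_zero_of_mul (hsg i i).ne'
    have := Int.natAbs_pos.2 this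
    omega
  · exact Int.natAbs_pos.2 (right_ne_zero_of_mul (hsg j j).ne')
  · rw [hent]
    congr 1
    rw [← Int.cast_natCast]
    congr 1
    push_cast
    rw [mul_assoc, mul_assoc, ← abs_mul, abs_of_pos (hsg i j)]
  · simp only [Int.natCast_natAbs]
    rcases lt_trichotomy (augZ (R j (0 : Fin 1))) 0 with h5 | h5 | h5
    · have h6 : ∀ i, |augZ (S (0 : Fin 1) i)| = -augZ (S (0 : Fin 1) i) := fun i =>
        abs_of_neg (by have := hsg j i; nlinarith)
      simp only [h6, neg_mul, Finset.sum_neg_distrib, heig, mul_neg]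
    · have := hsg j j
      rw [h5, zero_mul] at this
      exact absurd this (lt_irrefl _)
    · have h6 : ∀ i, |augZ (S (0 : Fin 1) i)| = augZ (S (0 : Fin 1) i) := fun i =>
        abs_of_pos ((mul_pos_iff_of_pos_left h5).1 (hsg j i))
      simp only [h6, heig]

/-- `rel_eqvGen`; change the index type from `Fin 1` to `Unit` with `rel_pad`, `padM_hb`,
`padM_equiv`, `Rel.trans`. -/
theorem relD_of_eqvGen {A : FM} (h : Relation.EqvGen (ES fun _ => True) A (cvM A0)) :
    RelD A.2 := by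
  exact (rel_eqvGen h).trans (qt1_unit (cvM A0).2 qt1_B0) fun v => rfl

variable {A : Matrix V V (Lam ℤ)} {m : ℕ} {rr l : V → ℕ}

theorem RankOne.eig_pow (h : RankOne A m rr l) (n : ℕ) (j : V) :
    ∑ i, (l i : ℤ) * augZ ((A ^ n) i j) = 8 ^ n * l j := by
  induction n generalizing j with
  | zero => simp [one_apply, apply_ite augZ]
  | succ n ih =>
    simp only [pow_succ, mul_apply, map_sum, map_mul, Finset.mul_sum]
    rw [Finset.sum_comm]
    simp only [← mul_assoc, ← Finset.sum_mul, ih]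
    simp only [mul_assoc, ← Finset.mul_sum, h.eig]
theorem RankOne.pow_add (h : RankOne A m rr l) (n : ℕ) (i j : V) :
    (A ^ (m + n)) i j = ((8 ^ n * rr i * l j : ℕ) : Lam ℤ) * uL := by
  rw [_root_.pow_add, mul_apply]
  have e : ∀ z, (A ^ m) i z * (A ^ n) z j =
      (((rr i : ℤ) * ((l z : ℤ) * augZ ((A ^ n) z j)) : ℤ) : Lam ℤ) * uL := fun z => by
    rw [h.pow, mul_assoc, mul_comm uL, mul_uL]
    push_cast
    ring
  simp only [e]
  rw [← Finset.sum_mul, ← Int.cast_sum, ← Finset.mul_sum, h.eig_pow]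
  push_cast
  ring
theorem RankOne.mono (h : RankOne A m rr l) (n : ℕ) :
    RankOne A (m + n) (fun i => 8 ^ n * rr i) l :=
  ⟨h.pos, le_add_right h.one, fun i => Nat.mul_pos (by positivity) (h.rpos i), h.lpos,
    h.pow_add n, h.eig⟩
/-- Compare `A * A ^ m` with `A ^ m * A` at the entry `(i, i)`. -/
theorem RankOne.eigR (h : RankOne A m rr l) (i : V) :
    ∑ j, augZ (A i j) * (rr j : ℤ) = 8 * rr i := by
  have h1 := congrArg augZ (h.pow_add 1 i i)
  rw [pow_succ', mul_apply, map_sum] at h1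
  simp only [h.pow, map_mul, qt1_aug_nat, augZ_uL] at h1
  have hl : (0 : ℤ) < l i := by exact_mod_cast h.lpos i
  have e : ∑ j, augZ (A i j) * (((rr j * l i : ℕ) : ℤ) * 2) =
      (∑ j, augZ (A i j) * (rr j : ℤ)) * (2 * l i) := by
    rw [Finset.sum_mul]
    exact Finset.sum_congr rfl fun z _ => by push_cast; ring
  rw [e] at h1
  refine mul_right_cancel₀ (b := 2 * (l i : ℤ)) (by positivity) ?_
  rw [h1]
  push_cast
  ring
theorem RankOne.bound (h : RankOne A m rr l) (n : ℕ) (i j : V) :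
    augZ ((A ^ n) i j) ≤ (∑ z, l z : ℕ) * 8 ^ n := by
  have h0 : ∀ z, 0 ≤ augZ ((A ^ n) z j) := fun z => (h.pos.pow n z j).aug_nonneg
  have hl : (1 : ℤ) ≤ l i := by exact_mod_cast h.lpos i
  have h1 : (l i : ℤ) * augZ ((A ^ n) i j) ≤ ∑ z, (l z : ℤ) * augZ ((A ^ n) z j) :=
    Finset.single_le_sum (f := fun z => (l z : ℤ) * augZ ((A ^ n) z j))
      (fun z _ => mul_nonneg (Int.natCast_nonneg _) (h0 z)) (mem_univ i)
  rw [h.eig_pow] at h1
  have h2 : (l j : ℤ) ≤ (∑ z, l z : ℕ) := by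
    exact_mod_cast Finset.single_le_sum (f := l) (fun z _ => Nat.zero_le _) (mem_univ j)
  have h3 : (0 : ℤ) ≤ 8 ^ n := by positivity
  nlinarith [h0 i, mul_le_mul_of_nonneg_left h2 h3]
theorem RankOne.eta_mul (h : RankOne A m rr l) : eta l ᵥ* (1 - tM A) = Del • eta l := by
  ext1 j
  rw [vecMul_sub, vecMul_one]
  have e : (eta l ᵥ* tM A) j = X * uR * ((∑ z, (l z : ℤ) * augZ (A z j) : ℤ) : RZ) := by
    rw [Int.cast_sum, Finset.mul_sum]
    refine Finset.sum_congr rfl fun z _ => ?_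
    change (l z : RZ) * uR * (X * C (A z j)) = _
    rw [show (l z : RZ) * uR * (X * C (A z j)) = X * (l z : RZ) * (C (A z j) * uR) by ring,
      C_mul_uR]
    push_cast
    ring
  rw [Pi.sub_apply, e, h.eig]
  change (l j : RZ) * uR - _ = Del * ((l j : RZ) * uR)
  rw [Del, show (1 - 4 * uR * X) * ((l j : RZ) * uR) =
    (l j : RZ) * uR - 4 * X * (l j : RZ) * (uR * uR) by ring, uR_mul_uR]
  push_cast
  ring
/-- `vecMul_geom`: `e_z (t A) ^ m = (rr z) t ^ m η`. -/
theorem RankOne.gen (h : RankOne A m rr l) (z : V) :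
    ∃ (a : RZ) (c : V → RZ), Pi.single z 1 - a • eta l = c ᵥ* (1 - tM A) := by
  refine ⟨X ^ m * (rr z : RZ), ∑ j ∈ range m, Pi.single z 1 ᵥ* tM A ^ j, ?_⟩
  have e : (Pi.single z 1 : V → RZ) ᵥ* tM A ^ m = (X ^ m * (rr z : RZ)) • eta l := by
    have e1 : tM A ^ m = (X : RZ) ^ m • (A ^ m).map (C : Lam ℤ → RZ) := by
      rw [tM, _root_.smul_pow]
      congr 1
      exact (Matrix.map_pow A (C : Lam ℤ →+* RZ) m).symm
    ext1 j
    rw [single_one_vecMul, e1]
    change X ^ m * C ((A ^ m) z j) = X ^ m * (rr z : RZ) * ((l j : RZ) * uR)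
    rw [h.pow, C_mul, map_natCast, uR]
    push_cast
    ring
  rw [← e, sub_eq_iff_eq_add']
  exact vecMul_geom (tM A) _ m
/-- `d x` is the least `n` with `(A ^ n) x w ≠ 0`. -/
theorem RankOne.dist (h : RankOne A m rr l) (w : V) :
    ∃ d : V → ℕ, ∀ x, x ≠ w → ∃ z, d z < d x ∧ A x z ≠ 0 := by
  classical
  have hex : ∀ x, ∃ n, (A ^ n) x w ≠ 0 := fun x => ⟨m, fun h0 => by
    have h1 := congrArg augZ (h.pow x w)
    rw [h0, map_zero, map_mul, qt1_aug_nat, augZ_uL] at h1
    have := Nat.mul_pos (h.rpos x) (h.lpos w)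
    omega⟩
  refine ⟨fun x => Nat.find (hex x), fun x hx => ?_⟩
  have h1 := Nat.find_spec (hex x)
  obtain ⟨p, hp⟩ : ∃ p, Nat.find (hex x) = p + 1 := by
    refine Nat.exists_eq_succ_of_ne_zero fun h0 => ?_
    rw [h0, pow_zero, one_apply_ne hx] at h1
    exact h1 rfl
  rw [hp, pow_succ', mul_apply] at h1
  obtain ⟨z, -, hz⟩ := Finset.exists_ne_zero_of_sum_ne_zero h1
  refine ⟨z, ?_, left_ne_zero_of_mul hz⟩
  have := Nat.find_min' (hex z) (right_ne_zero_of_mul hz)
  change Nat.find (hex z) < Nat.find (hex x)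
  omega

end Pool.Agent.Lib.MP_71aad1_an.SS
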