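import Pool.Agent.Lib.MP_71aad1_an.QT1

set_option autoImplicit false

namespace Pool.Agent.Lib.MP_71aad1_an.SS

open Polynomial Matrix Finset Sum

/-! Paths that avoid a state carry at least half of the mass. -/

variable {V : Type} [Fintype V] [DecidableEq V] {A : Matrix V V (Lam ℤ)}

theorem tv_pos (h : MLPos A) (w : V) (j : ℕ) (z : V) : LPos (tv A w j z) := by
  induction j generalizing z with
  | zero =>
    rw [tv, Pi.single_apply]
    split_ifs
    · exact LPos.one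
    · exact LPos.zero
  | succ j ih =>
    rw [tv, vecMul, dotProduct]
    refine LPos.sum _ fun x _ => LPos.mul ?_ (h x z)
    split_ifs
    · exact ih x
    · rw [Function.update_apply]
      split_ifs
      · exact LPos.zero
      · exact ih x
theorem tv_one (w : V) : tv A w 1 = A w := by
  rw [tv, if_pos rfl, tv, single_one_vecMul]
  rfl
theorem tv_succ (w : V) {j : ℕ} (hj : 1 ≤ j) :
    tv A w j ᵥ* A = tv A w (j + 1) + tv A w j w • A w := by
  have e : tv A w j = Function.update (tv A w j) w 0 + Pi.single w (tv A w j w) := by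
    funext x
    by_cases hx : x = w
    · subst hx
      simp
    · simp [Function.update_of_ne hx, Pi.single_eq_of_ne hx]
  rw [tv, if_neg (by omega)]
  conv_lhs => rw [e, add_vecMul, single_vecMul]
  rfl
/-- Decomposition by the last visit of `w` before the time `L`; induction on `L`. -/
theorem tv_last (w : V) {L : ℕ} (hL : 1 ≤ L) (z : V) :
    (A ^ L) w z = ∑ j ∈ range L, (A ^ j) w w * tv A w (L - j) z := by
  induction L, hL using Nat.le_induction generalizing z with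
  | base => simp [tv_one]
  | succ L hL ih =>
    have e : (A ^ L) w = ∑ j ∈ range L, (A ^ j) w w • tv A w (L - j) := by
      funext x
      rw [ih x, Finset.sum_apply]
      rfl
    have e2 : (A ^ (L + 1)) w z = ((A ^ L) w ᵥ* A) z := by
      rw [pow_succ]
      rfl
    rw [e2, e, sum_vecMul, Finset.sum_apply, sum_range_succ, Nat.add_sub_cancel_left, tv_one,
      ih w, sum_mul, ← sum_add_distrib]
    refine sum_congr rfl fun j hj => ?_
    have hj' := mem_range.1 hj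
    rw [smul_vecMul, tv_succ w (by omega), show L + 1 - j = L - j + 1 by omega]
    simp only [Pi.smul_apply, Pi.add_apply, smul_eq_mul]
    ring
theorem tv_le (h : MLPos A) (w : V) (j : ℕ) (z : V) : LPos ((A ^ j) w z - tv A w j z) := by
  rcases j with _ | j
  · rw [pow_zero, tv, one_apply, Pi.single_apply]
    by_cases e : w = z
    · rw [if_pos e, if_pos e.symm, sub_self]
      exact LPos.zero
    · rw [if_neg e, if_neg (Ne.symm e), sub_self]
      exact LPos.zero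
  · rw [tv_last w (Nat.succ_pos j), sum_range_succ', pow_zero, one_apply_eq, one_mul, Nat.sub_zero,
      add_sub_cancel_right]
    exact LPos.sum _ fun i _ => LPos.mul (h.pow _ w w) (tv_pos h w _ z)

theorem qt3_int {k : ℤ} (hk : 0 ≤ k) : LPos ((k : Lam ℤ) * uL) := by
  obtain ⟨n, rfl⟩ := Int.eq_ofNat_of_zero_le hk
  rw [Int.cast_natCast]
  exact (LPos.natCast n).mul LPos.uL

theorem qt3_mul (c : Lam ℤ) (N : ℕ) :
    c * ((N : Lam ℤ) * uL) = ((augZ c * N : ℤ) : Lam ℤ) * uL := by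
  rw [mul_left_comm, mul_uL]
  push_cast
  ring

theorem qt3_est {m g K : ℕ} (h1 : ∀ j x y, j ≤ g → augZ ((A ^ j) x y) ≤ 1)
    (h2 : ∀ i x y, augZ ((A ^ (g + i)) x y) ≤ (K : ℤ) * 8 ^ i) {i : ℕ} (hi : i ≤ m + g) (x y : V) :
    (augZ ((A ^ i) x y) : ℝ) * 8 ^ (m + g - i) ≤ 8 ^ (m + g) * (1 / 8) ^ i + K * 8 ^ m := by
  have e : (8 : ℝ) ^ (m + g) * (1 / 8) ^ i = 8 ^ (m + g - i) := by
    rw [pow_sub₀ _ (by norm_num) hi, one_div, inv_pow]
  rw [e]
  have p1 : (0 : ℝ) < 8 ^ (m + g - i) := by positivity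
  have p2 : (0 : ℝ) ≤ K * 8 ^ m := by positivity
  by_cases hg : i ≤ g
  · have : (augZ ((A ^ i) x y) : ℝ) ≤ 1 := by exact_mod_cast h1 i x y hg
    nlinarith
  · obtain ⟨k, rfl⟩ := Nat.exists_eq_add_of_le (le_of_not_ge hg)
    have : (augZ ((A ^ (g + k)) x y) : ℝ) ≤ K * 8 ^ k := by exact_mod_cast h2 k x y
    have e2 : (8 : ℝ) ^ k * 8 ^ (m + g - (g + k)) = 8 ^ m := by
      rw [← pow_add]
      congr 1
      omega
    calc _ ≤ K * 8 ^ k * (8 : ℝ) ^ (m + g - (g + k)) := mul_le_mul_of_nonneg_right this p1.le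
      _ = K * 8 ^ m := by rw [mul_assoc, e2]
      _ ≤ _ := by linarith

/-- Let `n = m + g`, `L = 2 n`, `Y = 8 ^ n rr w * l z`, so `(A ^ L) w z = Y u`
(`RankOne.pow_add`). By `tv_last` and `tv_le`, `tv L z ≥ Y u - ∑_{1 ≤ j < L} A ^ j w w * A ^ (L - j) w z`.
For `j ≤ n` the term is `aug (A ^ j w w) 8 ^ (n - j) rr w * l z • u`, for `j > n` it is
`aug (A ^ (L - j) w z) 8 ^ (j - n) rr w * l w • u` with `l w ≤ l z`. For `1 ≤ i ≤ n` one has
`aug (A ^ i x y) 8 ^ (n - i) ≤ 8 ^ (n - i)` if `i ≤ g` and `≤ K 8 ^ m` otherwise; so the sum is at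
most `(2 / 7 + L K / 8 ^ g) Y ≤ Y / 2`. It may be easiest to argue with real numbers. -/
theorem taboo {m g K c : ℕ} {rr l : V → ℕ} (h : RankOne A (m + g) rr l) {w : V}
    (hw : ∀ z, l w ≤ l z) (h1 : ∀ j x y, j ≤ g → augZ ((A ^ j) x y) ≤ 1)
    (h2 : ∀ i x y, augZ ((A ^ (g + i)) x y) ≤ (K : ℤ) * 8 ^ i)
    (hK : 14 * (2 * (m + g)) * K ≤ 3 * 8 ^ g) (hc : 2 * (c + 2) ≤ 8 ^ (m + g)) (z : V) :
    LPos (tv A w (2 * (m + g)) z - (((c + 2) * l z : ℕ) : Lam ℤ) * uL) := by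
  have hn := h.one
  have ht : ∀ j ∈ Ico 1 (2 * (m + g)), ∃ t : ℤ,
      (A ^ j) w w * (A ^ (2 * (m + g) - j)) w z = (t : Lam ℤ) * uL ∧
      (t : ℝ) ≤ (8 ^ (m + g) * ((1 / 8) ^ j + (1 / 8) ^ (2 * (m + g) - j)) + K * 8 ^ m) *
        (rr w * l z) := by
    intro j hj
    obtain ⟨hj1, hj2⟩ := mem_Ico.1 hj
    have p0 : (0 : ℝ) ≤ rr w * l z := by positivity
    by_cases hj3 : j ≤ m + g
    · refine ⟨_, by rw [show 2 * (m + g) - j = m + g + (m + g - j) by omega, h.pow_add, qt3_mul], ?_⟩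
      have k := mul_le_mul_of_nonneg_right (qt3_est h1 h2 hj3 w w) p0
      have p1 : (0 : ℝ) ≤ 8 ^ (m + g) * (1 / 8) ^ (2 * (m + g) - j) * (rr w * l z) := by positivity
      push_cast
      nlinarith
    · refine ⟨_, by
        rw [mul_comm]
        conv_lhs => rw [show (A ^ j) = A ^ (m + g + (j - (m + g))) by congr 1; omega, h.pow_add,
          qt3_mul], ?_⟩
      have k0 := qt3_est h1 h2 (show 2 * (m + g) - j ≤ m + g by omega) w z
      rw [show m + g - (2 * (m + g) - j) = j - (m + g) by omega] at k0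
      have k := mul_le_mul_of_nonneg_right k0 p0
      have p1 : (0 : ℝ) ≤ 8 ^ (m + g) * (1 / 8) ^ j * (rr w * l z) := by positivity
      have p2 : (0 : ℝ) ≤ augZ ((A ^ (2 * (m + g) - j)) w z) := by
        exact_mod_cast (h.pos.pow _ w z).aug_nonneg
      have p3 : (l w : ℝ) ≤ l z := by exact_mod_cast hw z
      have k2 : (augZ ((A ^ (2 * (m + g) - j)) w z) : ℝ) * 8 ^ (j - (m + g)) * rr w * l w ≤
          augZ ((A ^ (2 * (m + g) - j)) w z) * 8 ^ (j - (m + g)) * rr w * l z :=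
        mul_le_mul_of_nonneg_left p3 (by positivity)
      push_cast
      nlinarith
  choose! t ht1 ht2 using ht
  have e1 : (A ^ (2 * (m + g))) w z = tv A w (2 * (m + g)) z +
      ∑ j ∈ Ico 1 (2 * (m + g)), (A ^ j) w w * tv A w (2 * (m + g) - j) z := by
    rw [tv_last w (by omega), range_eq_Ico, sum_eq_sum_Ico_succ_bot (by omega), pow_zero,
      one_apply_eq, one_mul, Nat.sub_zero]
  have e2 : (A ^ (2 * (m + g))) w z = ((8 ^ (m + g) * rr w * l z : ℕ) : Lam ℤ) * uL := by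
    rw [two_mul, h.pow_add]
  have e3 : tv A w (2 * (m + g)) z - (((c + 2) * l z : ℕ) : Lam ℤ) * uL =
      (((8 ^ (m + g) * rr w * l z : ℕ) - ((c + 2) * l z : ℕ) -
        ∑ j ∈ Ico 1 (2 * (m + g)), t j : ℤ) : Lam ℤ) * uL +
      ∑ j ∈ Ico 1 (2 * (m + g)),
        (A ^ j) w w * ((A ^ (2 * (m + g) - j)) w z - tv A w (2 * (m + g) - j) z) := by
    have e4 : ∑ j ∈ Ico 1 (2 * (m + g)),
        (A ^ j) w w * ((A ^ (2 * (m + g) - j)) w z - tv A w (2 * (m + g) - j) z) =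
        ((∑ j ∈ Ico 1 (2 * (m + g)), t j : ℤ) : Lam ℤ) * uL -
          ∑ j ∈ Ico 1 (2 * (m + g)), (A ^ j) w w * tv A w (2 * (m + g) - j) z := by
      rw [Int.cast_sum, sum_mul, ← sum_sub_distrib]
      exact sum_congr rfl fun j hj => by rw [mul_sub, ht1 j hj]
    rw [e4, Int.cast_sub, Int.cast_sub, Int.cast_natCast, Int.cast_natCast, sub_mul, sub_mul, ← e2,
      e1]
    ring
  rw [e3]
  refine (qt3_int ?_).add
    (LPos.sum _ fun j _ => LPos.mul (h.pos.pow _ w w) (tv_le h.pos w _ z))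
  have s1 : ∑ j ∈ Ico 1 (2 * (m + g)), (1 / 8 : ℝ) ^ j ≤ 1 / 7 := by
    refine (geom_sum_Ico_le_of_lt_one (by norm_num) (by norm_num)).trans ?_
    norm_num
  have s2 : ∑ j ∈ Ico 1 (2 * (m + g)), (1 / 8 : ℝ) ^ (2 * (m + g) - j) ≤ 1 / 7 := by
    rw [sum_Ico_reflect (fun j => (1 / 8 : ℝ) ^ j) 1 (Nat.le_succ _), Nat.add_sub_cancel_left,
      Nat.add_sub_cancel]
    exact s1
  have s3 := sum_le_sum ht2
  rw [← sum_mul, sum_add_distrib, ← mul_sum, sum_add_distrib, sum_const, Nat.card_Ico,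
    nsmul_eq_mul] at s3
  have hK' : (14 : ℝ) * (2 * (m + g)) * K ≤ 3 * 8 ^ g := by exact_mod_cast hK
  have hc' : (2 : ℝ) * (c + 2) ≤ 8 ^ (m + g) := by exact_mod_cast hc
  have q1 : ((2 * (m + g) - 1 : ℕ) : ℝ) ≤ 2 * (m + g) := by exact_mod_cast Nat.sub_le _ _
  have q2 : ((2 * (m + g) - 1 : ℕ) : ℝ) * (K * 8 ^ m) ≤ 3 / 14 * 8 ^ (m + g) := by
    have := mul_le_mul_of_nonneg_right q1 (show (0 : ℝ) ≤ K * 8 ^ m by positivity)
    have p := mul_le_mul_of_nonneg_right hK' (show (0 : ℝ) ≤ 8 ^ m by positivity)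
    rw [pow_add]
    nlinarith
  have q3 : (8 : ℝ) ^ (m + g) * (∑ j ∈ Ico 1 (2 * (m + g)), (1 / 8 : ℝ) ^ j +
      ∑ j ∈ Ico 1 (2 * (m + g)), (1 / 8 : ℝ) ^ (2 * (m + g) - j)) ≤ 8 ^ (m + g) * (2 / 7) :=
    mul_le_mul_of_nonneg_left (by linarith) (by positivity)
  have q4 := s3.trans (mul_le_mul_of_nonneg_right (add_le_add q3 q2) (by positivity))
  have r1 : (1 : ℝ) ≤ rr w := by exact_mod_cast h.rpos w
  have r2 : (0 : ℝ) ≤ l z := by positivity
  have q5 : ((c : ℝ) + 2) * l z ≤ 8 ^ (m + g) / 2 * (rr w * l z) :=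
    mul_le_mul (by linarith) (le_mul_of_one_le_left r2 r1) r2 (by positivity)
  have : (0 : ℝ) ≤ ((((8 ^ (m + g) * rr w * l z : ℕ) : ℤ) - ((c + 2) * l z : ℕ) -
      ∑ j ∈ Ico 1 (2 * (m + g)), t j : ℤ) : ℝ) := by
    push_cast
    nlinarith
  exact_mod_cast this

end Pool.Agent.Lib.MP_71aad1_an.SS
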