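import Pool.Agent.Lib.MP_71aad1_an.QT3

set_option autoImplicit false

namespace Pool.Agent.Lib.MP_71aad1_an.SS

open Polynomial Matrix Finset Sum

/-! The system with the exit at `w`. -/

variable {V : Type} [Fintype V] [DecidableEq V] {A : Matrix V V (Lam ℤ)} {m L c : ℕ}
  {rr l : V → ℕ} {w : V}

theorem qt4_C_nat (n : ℕ) (z : V) (l : V → ℕ) :
    C (((n * l z : ℕ) : Lam ℤ) * uL) = (n : RZ) * eta l z := by
  rw [C_mul, map_natCast, eta, uR, Nat.cast_mul, mul_assoc]

theorem qt4_BT_w (A : Matrix V V (Lam ℤ)) (w : V) (l : V → ℕ) (L c : ℕ) (z : V) :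
    BT A w l L c w z = (if z = w then ∑ j ∈ Ico 1 L, C (tv A w j w) * X ^ j else 0) +
      X ^ L * (C (tv A w L z) - (c : RZ) * eta l z) := by
  rw [BT, updateRow_self, C_sub, qt4_C_nat]

theorem qt4_eta_pos (l : V → ℕ) (z : V) : Pos (eta l z) := (Pos.natCast _).mul Pos.uR

theorem qt4_u_eta (l : V → ℕ) (z : V) : uR * eta l z = 2 * eta l z := by
  rw [eta]
  linear_combination (l z : RZ) * uR_mul_uR

theorem qt4_vec_tM (A : Matrix V V (Lam ℤ)) (v : V → Lam ℤ) (a : RZ) (z : V) :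
    ((fun y => a * C (v y)) ᵥ* (1 - tM A)) z = a * C (v z) - a * X * C ((v ᵥ* A) z) := by
  rw [vecMul_sub, vecMul_one, Pi.sub_apply]
  congr 1
  simp only [vecMul, dotProduct, tM, Matrix.smul_apply, map_apply, smul_eq_mul, map_sum, C_mul,
    Finset.mul_sum]
  exact Finset.sum_congr rfl fun y _ => by ring

theorem qt4_row (A : Matrix V V (Lam ℤ)) (w : V) {L : ℕ} (hL : 1 ≤ L) (z : V) :
    ((Pi.single w 1 + fun y => ∑ j ∈ Ico 1 L, X ^ j * C (Function.update (tv A w j) w 0 y)) ᵥ*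
      (1 - tM A)) z = (Pi.single w 1 : V → RZ) z -
        ((if z = w then ∑ j ∈ Ico 1 L, C (tv A w j w) * X ^ j else 0) + X ^ L * C (tv A w L z)) := by
  induction L, hL using Nat.le_induction with
  | base =>
    have h1 : ((Pi.single w 1 + fun y => ∑ j ∈ Ico 1 1,
        X ^ j * C (Function.update (tv A w j) w 0 y)) : V → RZ) =
        fun y => 1 * C ((Pi.single w 1 : V → Lam ℤ) y) := by
      funext y
      by_cases hy : y = w
      · subst hy; simp
      · simp [hy]
    rw [h1, qt4_vec_tM, single_one_vecMul, tv_one]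
    by_cases hz : z = w
    · subst hz; simp [Matrix.row]
    · simp [hz, Matrix.row]
  | succ L hL ih =>
    have h1 : ((Pi.single w 1 + fun y => ∑ j ∈ Ico 1 (L + 1),
        X ^ j * C (Function.update (tv A w j) w 0 y)) : V → RZ) =
        (Pi.single w 1 + fun y => ∑ j ∈ Ico 1 L, X ^ j * C (Function.update (tv A w j) w 0 y)) +
          fun y => X ^ L * C (Function.update (tv A w L) w 0 y) := by
      funext y
      simp only [Pi.add_apply, Finset.sum_Ico_succ_top hL, add_assoc]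
    have h2 : tv A w (L + 1) = Function.update (tv A w L) w 0 ᵥ* A := by
      rw [tv, if_neg (by omega)]
    rw [h1, add_vecMul, Pi.add_apply, ih, qt4_vec_tM, h2]
    by_cases hz : z = w
    · subst hz
      rw [if_pos rfl, if_pos rfl, Finset.sum_Ico_succ_top hL, Function.update_self, C_0]
      ring
    · rw [if_neg hz, if_neg hz, Function.update_of_ne hz]
      ring

theorem BT_ne (l : V → ℕ) (L c : ℕ) {x : V} (hx : x ≠ w) : BT A w l L c x = tM A x := by
  rw [BT, updateRow_ne hx]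

theorem BT_w (h : MLPos A)
    (ht : ∀ z, LPos (tv A w L z - (((c + 2) * l z : ℕ) : Lam ℤ) * uL)) (z : V) :
    Pos (BT A w l L c w z - 2 * X ^ L * eta l z) := by
  have h1 := Pos.C (ht z)
  rw [C_sub, qt4_C_nat] at h1
  have h2 : Pos (if z = w then ∑ j ∈ Ico 1 L, C (tv A w j w) * X ^ j else 0) := by
    split_ifs
    · exact Pos.sum _ fun j _ => (Pos.C (tv_pos h w j w)).mul (Pos.X_pow j)
    · exact Pos.zero
  have h3 := h2.add ((Pos.X_pow L).mul h1)
  rw [qt4_BT_w]
  convert h3 using 1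
  push_cast
  ring

theorem BT_pt (h : MLPos A) (hL : 1 ≤ L)
    (ht : ∀ z, LPos (tv A w L z - (((c + 2) * l z : ℕ) : Lam ℤ) * uL)) : PT (BT A w l L c) := by
  constructor
  · intro x z
    by_cases hx : x = w
    · subst hx
      refine (BT_w h ht z).of_sub ?_
      have h2 : Pos (2 : RZ) := by exact_mod_cast Pos.natCast 2
      exact (h2.mul (Pos.X_pow L)).mul (qt4_eta_pos l z)
    · rw [BT_ne l L c hx]
      exact (tM_pt h).1 x z
  · intro x z
    by_cases hx : x = w
    · subst hx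
      rw [qt4_BT_w]
      refine dvd_add ?_ ((dvd_pow_self X (by omega)).mul_right _)
      split_ifs
      · exact Finset.dvd_sum fun j hj =>
          (dvd_pow_self X (by have := (mem_Ico.1 hj).1; omega)).mul_left _
      · exact dvd_zero _
    · rw [BT_ne l L c hx]
      exact (tM_pt h).2 x z

/-- `q = ∑_{1 ≤ j < L} t ^ j • update (tv j) w 0`; the sum telescopes (induction on `L`). -/
theorem BT_eq (A : Matrix V V (Lam ℤ)) (w : V) (l : V → ℕ) (hL : 1 ≤ L) (c : ℕ) :
    ∃ q : V → RZ, q w = 0 ∧ 1 - BT A w l L c = (1 + vecMulVec (Pi.single w 1) q) * (1 - tM A) +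
      ((c : RZ) * X ^ L) • vecMulVec (Pi.single w 1) (eta l) := by
  refine ⟨fun y => ∑ j ∈ Ico 1 L, X ^ j * C (Function.update (tv A w j) w 0 y), by simp, ?_⟩
  set q : V → RZ := fun y => ∑ j ∈ Ico 1 L, X ^ j * C (Function.update (tv A w j) w 0 y) with hq
  ext1 x z
  rw [Matrix.add_mul, Matrix.one_mul, vecMulVec_mul]
  simp only [Matrix.add_apply, Matrix.smul_apply, vecMulVec_apply, smul_eq_mul]
  by_cases hx : x = w
  · subst hx
    have h1 := qt4_row A x hL z
    rw [← hq, add_vecMul, single_one_vecMul, Pi.add_apply] at h1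
    have h2 : (1 : Matrix V V RZ) x z = (Pi.single x 1 : V → RZ) z := by
      rw [one_apply, Pi.single_apply]
      exact if_congr eq_comm rfl rfl
    have h3 : (1 - tM A).row x z = (1 - tM A) x z := rfl
    rw [Matrix.sub_apply (1 : Matrix V V RZ) (BT A x l L c), qt4_BT_w, Pi.single_eq_same, h2, ← h3]
    linear_combination -h1
  · rw [Matrix.sub_apply, Matrix.sub_apply, BT_ne l L c hx, Pi.single_eq_of_ne hx]
    ring

/-- Apply `ev (1 / 8)` to `BT_eq` and multiply by `rr` (`RankOne.eigR`). -/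
theorem BT_harm (h : RankOne A m rr l) (hL : 1 ≤ L) (hc : 1 ≤ c) :
    (∀ x, ∑ z, ev (1 / 8) (BT A w l L c x z) * rr z ≤ rr x) ∧
      ∑ z, ev (1 / 8) (BT A w l L c w z) * rr z < rr w := by
  obtain ⟨q, -, hq⟩ := BT_eq A w l hL c
  have h0 : ∀ M : Matrix V V RZ, ∀ x, ∑ z, ev (1 / 8) ((1 - M) x z) * rr z =
      rr x - ∑ z, ev (1 / 8) (M x z) * rr z := by
    intro M x
    simp only [Matrix.sub_apply, map_sub, sub_mul, Finset.sum_sub_distrib]
    congr 1
    rw [Finset.sum_eq_single x]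
    · simp
    · intro b _ hb
      rw [one_apply_ne hb.symm, map_zero, zero_mul]
    · simp
  have h1 : ∀ x, ∑ z, ev (1 / 8) ((1 - tM A) x z) * rr z = 0 := by
    intro x
    rw [h0]
    have h2 : ∑ z, (augZ (A x z) : ℝ) * rr z = 8 * rr x := by exact_mod_cast h.eigR x
    have h3 : ∀ z, ev (1 / 8) (tM A x z) * rr z = 1 / 8 * ((augZ (A x z) : ℝ) * rr z) := by
      intro z
      simp only [tM, Matrix.smul_apply, map_apply, smul_eq_mul, map_mul, ev_X, ev_C]
      ring
    simp only [h3, ← Finset.mul_sum, h2]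
    ring
  have h2 : ∀ (E : Matrix V V RZ) x, ∑ z, ev (1 / 8) ((E * (1 - tM A)) x z) * rr z = 0 := by
    intro E x
    simp only [mul_apply, map_sum, map_mul, Finset.sum_mul]
    rw [Finset.sum_comm]
    refine Finset.sum_eq_zero fun y _ => ?_
    simp only [mul_assoc, ← Finset.mul_sum, h1, mul_zero]
  have h3 : ∀ x, rr x - ∑ z, ev (1 / 8) (BT A w l L c x z) * rr z =
      (if x = w then 1 else 0) * ∑ z, (c : ℝ) * (1 / 8) ^ L * (l z * 2) * rr z := by
    intro x
    rw [← h0, hq]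
    have h5 := h2 (1 + vecMulVec (Pi.single w 1) q) x
    generalize (1 + vecMulVec (Pi.single w 1) q) * (1 - tM A) = M at h5 ⊢
    simp only [Matrix.add_apply, map_add, add_mul, Finset.sum_add_distrib]
    rw [h5, zero_add, Finset.mul_sum]
    refine Finset.sum_congr rfl fun z _ => ?_
    simp only [Matrix.smul_apply, vecMulVec_apply, smul_eq_mul, map_mul, map_natCast, map_pow, ev_X,
      eta, ev_uR, Pi.single_apply]
    split_ifs
    · rw [map_one]; ring
    · rw [map_zero]; ring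
  have h4 : 0 < ∑ z, (c : ℝ) * (1 / 8) ^ L * (l z * 2) * rr z := by
    refine Finset.sum_pos (fun z _ => ?_) ⟨w, mem_univ w⟩
    have := h.rpos z
    have := h.lpos z
    positivity
  refine ⟨fun x => ?_, ?_⟩
  · have := h3 x
    split_ifs at this <;> linarith
  · have := h3 w
    rw [if_pos rfl] at this
    linarith

/-- With `E⁻¹ = 1 - e_w qᵀ` from `BT_eq`: `η E⁻¹ (1 - BT) = (Del + c t ^ L η w) η`, and
`u η = 2 η`. The vector is `η' = η - η w • q`. -/
theorem BT_eta (h : RankOne A m rr l) (hL : 1 ≤ L) : ∃ η' : V → RZ, η' w = eta l w ∧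
    η' ᵥ* (1 - BT A w l L c) = iZ (1 - 8 * X + 2 * ((c * l w : ℕ) : ℤ[X]) * X ^ L) • eta l := by
  obtain ⟨q, hw, hq⟩ := BT_eq A w l hL c
  have h1 : (eta l - eta l w • q) w = eta l w := by
    rw [Pi.sub_apply, Pi.smul_apply, hw, smul_zero, sub_zero]
  refine ⟨eta l - eta l w • q, h1, ?_⟩
  have h2 : ∀ v : V → RZ, (eta l - eta l w • q) ᵥ* vecMulVec (Pi.single w 1) v = eta l w • v := by
    intro v
    rw [vecMul_vecMulVec, dotProduct_single, h1, mul_one]
  have h3 : (eta l - eta l w • q) ᵥ* (1 + vecMulVec (Pi.single w 1) q) = eta l := by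
    rw [vecMul_add, vecMul_one, h2, sub_add_cancel]
  rw [hq, vecMul_add, ← vecMul_vecMul, h3, h.eta_mul, vecMul_smul, h2]
  funext z
  have h4 : iZ X = X := by simp [iZ]
  simp only [Pi.add_apply, Pi.smul_apply, smul_eq_mul, map_add, map_sub, map_mul, map_pow, map_one,
    map_ofNat, map_natCast, h4, Del]
  have h5 := qt4_u_eta l z
  rw [show eta l w = (l w : RZ) * uR from rfl]
  push_cast
  linear_combination (-4 * X + (c : RZ) * X ^ L * (l w : RZ)) * h5

/-- Take `q = (∑_{i < j} t ^ (1 + i L)) e_w`; use `BT_w` and `η ≥ e_w` (induction on `j`). -/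
theorem BT_first (h : RankOne A m rr l)
    (ht : ∀ z, LPos (tv A w L z - (((c + 2) * l z : ℕ) : Lam ℤ) * uL)) {j : ℕ} (hj : 1 ≤ j) :
    ∃ q : V → RZ, (∀ z, Pos (q z) ∧ X ∣ q z) ∧
      ∀ z, Pos ((((X : RZ) - 2 * X ^ (1 + j * L)) • eta l - q ᵥ* (1 - BT A w l L c) : V → RZ) z) := by
  obtain ⟨j, rfl⟩ : ∃ i, j = i + 1 := ⟨j - 1, by omega⟩
  set s' : RZ := ∑ i ∈ range j, X ^ (1 + (i + 1) * L) with hs'
  have hp' : Pos s' := Pos.sum _ fun i _ => Pos.X_pow _
  have hp : Pos (s' + X) := hp'.add Pos.X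
  have hd : (X : RZ) ∣ s' + X :=
    dvd_add (Finset.dvd_sum fun i _ => dvd_pow_self X (by omega)) dvd_rfl
  have he : (s' + X) * X ^ L = s' + X ^ (1 + (j + 1) * L) := by
    rw [hs']
    clear hs' hp' hp hd s' hj
    induction j with
    | zero => simp [pow_add]
    | succ j ih =>
      rw [Finset.sum_range_succ]
      have : (X : RZ) ^ (1 + (j + 1 + 1) * L) = X ^ (1 + (j + 1) * L) * X ^ L := by
        rw [← pow_add]; congr 1; ring
      rw [this]
      linear_combination ih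
  refine ⟨Pi.single w (s' + X), fun z => ?_, fun z => ?_⟩
  · rw [Pi.single_apply]
    split_ifs
    · exact ⟨hp, hd⟩
    · exact ⟨Pos.zero, dvd_zero _⟩
  · have h1 : Pos (eta l z - (1 : Matrix V V RZ) w z) := by
      by_cases hz : w = z
      · subst hz
        obtain ⟨n, hn⟩ : ∃ n, l w = n + 1 := ⟨l w - 1, by have := h.lpos w; omega⟩
        have h2 := ((Pos.natCast n).mul Pos.uR).add Pos.gR
        rw [one_apply_eq, eta, hn]
        convert h2 using 1
        push_cast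
        linear_combination uR_eq
      · rw [one_apply_ne hz, sub_zero]
        exact qt4_eta_pos l z
    have h2 := ((hp.mul (BT_w h.pos ht z)).add (hp.mul h1)).add (hp'.mul (qt4_eta_pos l z))
    convert h2 using 1
    rw [Pi.sub_apply, Pi.smul_apply, single_vecMul, Pi.smul_apply, smul_eq_mul, smul_eq_mul]
    rw [show (1 - BT A w l L c).row w z = (1 : Matrix V V RZ) w z - BT A w l L c w z from rfl]
    linear_combination (2 * eta l z) * he

/-- Let `v₀` be the positive vector of `BT_first`, `v = v₀ BT ^ N`, `q = q₀ + ∑_{k < N} v₀ BT ^ k`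
(`vecMul_geom`), `a' = q w * c t ^ (L - 1) ≥ 0`, `p = t - 2 t ^ (1 + j L)`,
`D = iZ (1 - 8 t + 2 c (l w) t ^ L)`. Then `(D • q - p • η') (1 - BT) = -D • v` has order `N`, so
`D * q w ≡ p * η w` (`dvd_of_vecMul_one_sub`) and `D (a' - u a) ≡ 0` modulo `t ^ N`; `D` has the
constant coefficient `1` (use `dvd_of_vecMul_one_sub` on `Unit`, or coprimality). Hence `u a` is the
truncation of `a'`. -/
theorem hub_form (h : RankOne A m rr l) (hL : 2 ≤ L)
    (ht : ∀ z, LPos (tv A w L z - (((c + 2) * l z : ℕ) : Lam ℤ) * uL)) {j N : ℕ} (hj : 1 ≤ j)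
    {a : ℤ[X]} (ha : IsA (c * l w) L j N a) :
    (∀ i, 0 ≤ a.coeff i) ∧ a.coeff 0 = 0 ∧ ∃ (q v : V → RZ) (b : RZ), (∀ z, Pos (v z) ∧ X ∣ v z) ∧
      Pos b ∧ X ∣ b ∧ ((X : RZ) - 2 * X ^ (1 + j * L)) • eta l - q ᵥ* (1 - BT A w l L c) = v ∧
      q w * ((c : RZ) * X ^ (L - 1)) = uR * iZ a + b := by
  obtain ⟨q₀, hq₀, hv₀⟩ := BT_first h ht hj
  obtain ⟨η', hη, hη'⟩ := BT_eta (w := w) (c := c) h (show 1 ≤ L by omega)
  have hB := BT_pt h.pos (show 1 ≤ L by omega) ht
  set B := BT A w l L c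
  set p : RZ := X - 2 * X ^ (1 + j * L) with hp
  set D : RZ := iZ (1 - 8 * X + 2 * ((c * l w : ℕ) : ℤ[X]) * X ^ L) with hD
  set v₀ : V → RZ := p • eta l - q₀ ᵥ* (1 - B) with hv
  have hpd : (X : RZ) ∣ p := dvd_sub dvd_rfl ((dvd_pow_self X (by omega)).mul_left _)
  have hvd : ∀ z, X ^ 1 ∣ v₀ z := by
    intro z
    rw [hv, Pi.sub_apply, Pi.smul_apply, smul_eq_mul]
    refine dvd_sub (by rw [pow_one]; exact hpd.mul_right _) (dvd_vecMul (fun i => ?_) _ _)
    rw [pow_one]; exact (hq₀ i).2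
  set q : V → RZ := q₀ + ∑ k ∈ range N, v₀ ᵥ* B ^ k with hq
  have hqp : ∀ z, Pos (q z) := by
    intro z
    rw [hq, Pi.add_apply, Finset.sum_apply]
    exact (hq₀ z).1.add (Pos.sum _ fun k _ => MPos.vecMul hv₀ (hB.1.pow k) z)
  have he : p • eta l - q ᵥ* (1 - B) = v₀ ᵥ* B ^ N := by
    have := vecMul_geom B v₀ N
    rw [hq, add_vecMul, ← sub_sub, ← hv]
    exact sub_eq_of_eq_add this
  have hN : ∀ z, X ^ N ∣ (v₀ ᵥ* B ^ N) z := fun z =>
    Finset.dvd_sum fun i _ => (hB.2.pow_dvd N i z).mul_left _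
  have h1 : X ^ N ∣ (D • q - p • η') w := by
    refine dvd_of_vecMul_one_sub hB.2 (fun z => ?_) w
    have h2 := congrFun he z
    rw [sub_vecMul, smul_vecMul, smul_vecMul, hη']
    simp only [Pi.sub_apply, Pi.smul_apply, smul_eq_mul] at h2 ⊢
    have h3 : D * (q ᵥ* (1 - B)) z - p * (D * eta l z) = (v₀ ᵥ* B ^ N) z * -D := by
      linear_combination -D * h2
    rw [h3]
    exact (hN z).mul_right _
  rw [Pi.sub_apply, Pi.smul_apply, Pi.smul_apply, smul_eq_mul, smul_eq_mul, hη, eta] at h1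
  have hX : iZ X = X := by simp [iZ]
  have h2 := map_dvd iZ ha.2
  rw [map_pow, hX, map_sub, map_mul, ← hD] at h2
  simp only [map_sub, map_mul, map_pow, map_one, map_ofNat, map_natCast, hX] at h2
  obtain ⟨L, rfl⟩ : ∃ L', L = L' + 1 := ⟨L - 1, by omega⟩
  rw [Nat.add_sub_cancel]
  set a' : RZ := q w * ((c : RZ) * X ^ L) with ha'
  have h3 : X ^ N ∣ D * (a' - uR * iZ a) := by
    have h4 := dvd_sub (h1.mul_right ((c : RZ) * X ^ L)) (h2.mul_right uR)
    convert h4 using 1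
    rw [ha', hp]
    push_cast
    ring
  have hc : IsCoprime (X : RZ) D := by
    refine ⟨8 - 2 * ((c * l w : ℕ) : RZ) * X ^ L, 1, ?_⟩
    rw [hD]
    simp only [map_add, map_sub, map_mul, map_pow, map_one, map_ofNat, map_natCast, hX]
    ring
  have h4 : X ^ N ∣ a' - uR * iZ a := hc.pow_left.dvd_of_dvd_mul_left h3
  have hap : Pos a' := (hqp w).mul ((Pos.natCast c).mul (Pos.X_pow L))
  have had : a'.coeff 0 = 0 :=
    X_dvd_iff.1 (((dvd_pow_self X (by omega)).mul_left _).mul_left _)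
  rw [X_pow_dvd_iff] at h4
  have h5 : ∀ i < N, a'.coeff i = ⟨a.coeff i, a.coeff i⟩ := by
    intro i hi
    have := h4 i hi
    rwa [coeff_sub, coeff_uR_mul_iZ, sub_eq_zero] at this
  have h6 : ∀ i, N ≤ i → a.coeff i = 0 := fun i hi =>
    coeff_eq_zero_of_degree_lt (ha.1.trans_le (by exact_mod_cast hi))
  have h7 : a.coeff 0 = 0 := by
    rcases Nat.eq_zero_or_pos N with h0 | h0
    · exact h6 0 h0.le
    · have := h5 0 h0
      rw [had] at this
      exact (congrArg QuadraticAlgebra.re this).symm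
  refine ⟨fun i => ?_, h7, q, v₀ ᵥ* B ^ N, a' - uR * iZ a, fun z => ⟨?_, ?_⟩, fun i => ?_, ?_, he,
    by ring⟩
  · rcases lt_or_ge i N with hi | hi
    · have := hap i
      rw [h5 i hi] at this
      exact this.1
    · rw [h6 i hi]
  · exact MPos.vecMul hv₀ (hB.1.pow N) z
  · have := dvd_vecMul hvd (B ^ N) z
    rwa [pow_one] at this
  · rcases lt_or_ge i N with hi | hi
    · rw [h4 i hi]; exact LPos.zero
    · rw [coeff_sub, coeff_uR_mul_iZ, h6 i hi]
      have h8 : (⟨0, 0⟩ : Lam ℤ) = 0 := rfl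
      rw [h8, sub_zero]
      exact hap i
  · rw [X_dvd_iff, coeff_sub, coeff_uR_mul_iZ, h7, had]
    exact sub_self (0 : Lam ℤ)

end Pool.Agent.Lib.MP_71aad1_an.SS
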