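import Pool.Agent.Lib.MP_71aad1_an.QT4
import Pool.Agent.Lib.MP_71aad1_an.QR8
import Pool.Agent.Lib.MP_71aad1_an.QR3

set_option autoImplicit false

namespace Pool.Agent.Lib.MP_71aad1_an.SS

open Polynomial Matrix Finset Sum

/-! The start: opening the exit and splitting the hub into three states. -/

variable {V : Type} [Fintype V] [DecidableEq V]

theorem qt6_eta {V : Type} (l : V → ℕ) (z : V) : Pos (eta l z) := (Pos.natCast _).mul Pos.uR

omit [Fintype V] in
theorem qt6_exi (w : V) {L : ℕ} (hL : 2 ≤ L) (c : ℕ) (x : V) :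
    Pos (exi w L c x) ∧ X ∣ exi w L c x := by
  rw [exi]
  rcases eq_or_ne x w with rfl | hx
  · rw [Pi.single_eq_same]
    exact ⟨(Pos.natCast _).mul (Pos.X_pow _), (dvd_pow_self _ (by omega)).mul_left _⟩
  · rw [Pi.single_eq_of_ne hx]
    exact ⟨Pos.zero, dvd_zero _⟩

theorem qt6_vm (α : Matrix V V RZ) (β : Matrix V Unit RZ) (γ : Matrix Unit V RZ) (q : V → RZ)
    (s : RZ) (j : V ⊕ Unit) :
    (Sum.elim q (fun _ : Unit => s) ᵥ* (1 - fromBlocks α β γ (0 : Matrix Unit Unit RZ))) j =
      Sum.elim (fun z => (q ᵥ* (1 - α)) z - s * γ () z) (fun _ => s - ∑ x, q x * β x ()) j := by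
  rw [vecMul_sub, vecMul_one, vecMul_sub, vecMul_one, vecMul_fromBlocks]
  rcases j with y | y
  · simp [vecMul, dotProduct]
    ring
  · simp [vecMul, dotProduct]

theorem qt6_row (α : Matrix V V RZ) (w : V) (q : V → RZ) (s : RZ) (z : V) :
    ((q + Pi.single w s) ᵥ* (1 - α)) z =
      (q ᵥ* (1 - α)) z + s * ((Pi.single w 1 : V → RZ) z - α w z) := by
  rw [add_vecMul, single_vecMul, Pi.add_apply, Pi.smul_apply, smul_eq_mul, row_apply,
    Matrix.sub_apply, one_apply, Pi.single_apply]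
  exact congrArg (fun x => (q ᵥ* (1 - α)) z + s * (x - α w z)) (if_congr eq_comm rfl rfl)

omit [Fintype V] in
theorem qt6_ent {l : V → ℕ} (hl : ∀ z, 0 < l z) (w z : V) :
    Pos (eta l z - gR * (Pi.single w 1 : V → RZ) z - 1) ∧ Pos (eta l z - 1) := by
  obtain ⟨n, hn⟩ := Nat.exists_eq_add_of_lt (hl z)
  have h1 : Pos ((n : RZ) * uR) := (Pos.natCast _).mul Pos.uR
  have h2 : eta l z - 1 = (n : RZ) * uR + gR := by
    rw [eta, hn, uR_eq]
    push_cast
    ring
  refine ⟨?_, h2 ▸ h1.add Pos.gR⟩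
  rcases eq_or_ne z w with rfl | hz
  · rw [Pi.single_eq_same]
    convert h1 using 1
    linear_combination h2
  · rw [Pi.single_eq_of_ne hz, mul_zero, sub_zero]
    exact h2 ▸ h1.add Pos.gR

/-- A system on `V ⊕ Unit` is equivalent to the system in which the last state is split into three
states with the rows `H k`: `sim_psse` with `F : Matrix (V ⊕ Unit) (J V)` the incidence matrix of
the collapse `J V → V ⊕ Unit` and `G : Matrix (J V) (V ⊕ Unit)` the new rows. -/
theorem sim_split3 (α : Matrix V V RZ) (β : V → RZ) (γ : Fin 3 → V → RZ) (δ : Fin 3 → RZ)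
    (hα : PT α) (hβ : ∀ x, Pos (β x) ∧ X ∣ β x) (hγ : ∀ k x, Pos (γ k x) ∧ X ∣ γ k x)
    (hδ : ∀ k, Pos (δ k) ∧ X ∣ δ k) :
    Sim (fromBlocks α (of fun x (_ : Unit) => β x) (of fun (_ : Unit) x => ∑ k, γ k x)
        (of fun _ _ : Unit => ∑ k, δ k))
      (fromBlocks α (of fun x (_ : Fin 3) => β x) (of γ) (of fun k (_ : Fin 3) => δ k)) := by
  have hF : MPos (fromBlocks (1 : Matrix V V RZ) (0 : Matrix V (Fin 3) RZ) (0 : Matrix Unit V RZ)
      (of fun (_ : Unit) (_ : Fin 3) => (1 : RZ))) :=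
    qp6_blocks (Q := Pos) MPos.one (fun _ _ => Pos.zero) (fun _ _ => Pos.zero) fun _ _ => Pos.one
  have hG : PT (fromBlocks α (of fun x (_ : Unit) => β x) (of γ)
      (of fun k (_ : Unit) => δ k)) :=
    ⟨qp6_blocks (Q := Pos) hα.1 (fun x _ => (hβ x).1) (fun k x => (hγ k x).1) fun k _ => (hδ k).1,
      qp6_blocks (Q := fun p => X ∣ p) hα.2 (fun x _ => (hβ x).2) (fun k x => (hγ k x).2)
        fun k _ => (hδ k).2⟩
  have h := sim_psse hF hG
  rw [fromBlocks_multiply, fromBlocks_multiply] at h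
  simp only [Matrix.one_mul, Matrix.zero_mul, Matrix.mul_one, Matrix.mul_zero, add_zero,
    zero_add] at h
  convert h using 2 <;> ext i j : 2 <;> simp [mul_apply]

/-- Add a new state with the row `t η` (`sim_emb`), then replace row `w` by `sim_rm`, using `BT_eq`:
the coefficients are `q` on the old states and `-c t ^ (L - 1)` on the new state. -/
theorem sim_exit {A : Matrix V V (Lam ℤ)} {m L c : ℕ} {rr l : V → ℕ} (h : RankOne A m rr l) {w : V}
    (hL : 2 ≤ L) (ht : ∀ z, LPos (tv A w L z - (((c + 2) * l z : ℕ) : Lam ℤ) * uL)) :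
    Sim (tM A) (fromBlocks (BT A w l L c) (of fun x (_ : Unit) => exi w L c x)
      (of fun (_ : Unit) z => X * eta l z) 0) := by
  have hL1 : 1 ≤ L := by omega
  have hA := tM_pt h.pos
  have hB := BT_pt h.pos hL1 ht
  have h0 : PT (fromBlocks (tM A) (0 : Matrix V Unit RZ) (of fun (_ : Unit) z => X * eta l z)
      (0 : Matrix Unit Unit RZ)) :=
    ⟨qp6_blocks (Q := Pos) hA.1 (fun _ _ => Pos.zero) (fun _ z => Pos.X.mul (qt6_eta l z))
        fun _ _ => Pos.zero,
      qp6_blocks (Q := fun p => X ∣ p) hA.2 (fun _ _ => dvd_zero _) (fun _ _ => dvd_mul_right _ _)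
        fun _ _ => dvd_zero _⟩
  have h1 : PT (fromBlocks (BT A w l L c) (of fun x (_ : Unit) => exi w L c x)
      (of fun (_ : Unit) z => X * eta l z) (0 : Matrix Unit Unit RZ)) :=
    ⟨qp6_blocks (Q := Pos) hB.1 (fun x _ => (qt6_exi w hL c x).1)
        (fun _ z => Pos.X.mul (qt6_eta l z)) fun _ _ => Pos.zero,
      qp6_blocks (Q := fun p => X ∣ p) hB.2 (fun x _ => (qt6_exi w hL c x).2)
        (fun _ _ => dvd_mul_right _ _) fun _ _ => dvd_zero _⟩
  have s0 := sim_emb (Function.Embedding.inl : V ↪ V ⊕ Unit) (B := tM A) h0.valid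
    (fun _ _ => rfl) (by
      rintro (x | x) (y | y) hy
      · exact absurd rfl (hy y)
      · rfl
      · exact absurd rfl (hy y)
      · rfl)
  obtain ⟨q, hq, hE⟩ := BT_eq A w l hL1 c
  have e : fromBlocks (BT A w l L c) (of fun x (_ : Unit) => exi w L c x)
      (of fun (_ : Unit) z => X * eta l z) (0 : Matrix Unit Unit RZ) =
      (fromBlocks (tM A) (0 : Matrix V Unit RZ) (of fun (_ : Unit) z => X * eta l z)
        (0 : Matrix Unit Unit RZ)).updateRow (inl w)
        (Sum.elim (BT A w l L c w) fun _ => (c : RZ) * X ^ (L - 1)) := by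
    ext1 i j
    rw [updateRow_apply]
    rcases i with x | x
    · by_cases hx : x = w
      · subst hx
        rw [if_pos rfl]
        rcases j with y | y
        · rfl
        · exact Pi.single_eq_same _ _
      · rw [if_neg fun e => hx (Sum.inl_injective e)]
        rcases j with y | y
        · exact congrFun (BT_ne l L c hx) y
        · exact Pi.single_eq_of_ne hx _
    · rw [if_neg Sum.inr_ne_inl]
      rcases j with y | y <;> rfl
  refine s0.trans ?_
  rw [e] at h1 ⊢
  refine sim_rm h0.valid (c := Sum.elim q fun _ => -((c : RZ) * X ^ (L - 1))) hq ?_ h1.valid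
  funext j
  rw [Pi.sub_apply, qt6_vm]
  rcases j with y | y
  · have e1 := congrFun (congrFun hE w) y
    rw [Matrix.add_mul, Matrix.one_mul, vecMulVec_mul] at e1
    simp only [Matrix.add_apply, Matrix.sub_apply, Matrix.smul_apply, vecMulVec_apply,
      Pi.single_eq_same, smul_eq_mul] at e1
    have e2 : (X : RZ) ^ L = X ^ (L - 1) * X := by rw [← pow_succ, Nat.sub_add_cancel hL1]
    simp only [Sum.elim_inl, fromBlocks_apply₁₁, of_apply]
    rw [e2] at e1
    linear_combination -e1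
  · simp

/-- Let `sm = 1 + j L`, `q, v, b` from `hub_form`. The hub rows, as (active part, common hub entry):
`H 0 = (0, u a)`, `H 2 = (t ^ sm η, 0)`,
`H 1 = (t ^ sm η - g t ^ sm e_w + g t ^ sm BT w + v, g t ^ sm c t ^ (L - 1) + b)`.
After `sim_exit`, replace the row of the new state by `H 0 + H 1 + H 2` (`sim_rm` with the
coefficients `q + g t ^ sm e_w`) and apply `sim_split3`. For the presentation: `eqv_left` changes
row `inr 1` of the matrix of `canon_rel` (with `ξ = c t ^ L`, `b k = c t ^ (L - 1)`,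
`p = ![0, t - t ^ sm, t ^ sm]`, `δ = 1 - of fun h _ => ![u a, -(u a), 0] h`, `BT_eq`,
`RankOne.eta_mul`, `RankOne.gen`) into row `inr 1` of `1 - B`. -/
theorem start {A : Matrix V V (Lam ℤ)} {m L c : ℕ} {rr l : V → ℕ} (h : RankOne A m rr l)
    (hD : RelD A) {w : V} (hL : 2 ≤ L) (hc : 1 ≤ c)
    (ht : ∀ z, LPos (tv A w L z - (((c + 2) * l z : ℕ) : Lam ℤ) * uL)) {j N : ℕ} (hj : 1 ≤ j)
    {a : ℤ[X]} (ha : IsA (c * l w) L j N a) :
    ∃ B : Matrix (J V) (J V) RZ, Sim (tM A) B ∧
      Rel (1 - B) (canon (c * l w) L (1 + j * L) (uR * iZ a)) ∧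
      Hub (uR * iZ a) (1 + j * L) (j * L + L) B ∧
      ∀ x, B (inl x) = Sum.elim (BT A w l L c x) fun _ => exi w L c x := by
  have hL1 : 1 ≤ L := by omega
  obtain ⟨ha0, ha1, q, v, b, hv, hb, hb', hq, hqw⟩ := hub_form h hL ht hj ha
  have hB := BT_pt h.pos hL1 ht
  have hex := qt6_exi w hL c
  have hent := qt6_ent h.lpos w
  generalize hsm : 1 + j * L = sm at hq ⊢
  have hXs : (X : RZ) ∣ X ^ sm := dvd_pow_self _ (by omega)
  have har : Pos (uR * iZ a) ∧ X ∣ uR * iZ a := by
    refine ⟨(pos_uR_mul_iZ a).2 ha0, ?_⟩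
    rw [X_dvd_iff, coeff_uR_mul_iZ, ha1]
    rfl
  generalize uR * iZ a = ar at hqw har ⊢
  obtain ⟨H1, hH1⟩ : ∃ H1 : V → RZ, ∀ z, H1 z = X ^ sm * (eta l z - gR * (Pi.single w 1 : V → RZ) z)
      + gR * X ^ sm * BT A w l L c w z + v z := ⟨_, fun _ => rfl⟩
  obtain ⟨d1, hd1⟩ : ∃ d1 : RZ, d1 = gR * X ^ sm * ((c : RZ) * X ^ (L - 1)) + b := ⟨_, rfl⟩
  have hH1e : ∀ z, Pos (H1 z - X ^ sm) := fun z => by
    have := (((Pos.X_pow sm).mul (hent z).1).add
      ((Pos.gR.mul (Pos.X_pow sm)).mul (hB.1 w z))).add (hv z).1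
    convert this using 1
    rw [hH1]
    ring
  have hH2e : ∀ z, Pos (X ^ sm * eta l z - X ^ sm) := fun z => by
    have := (Pos.X_pow sm).mul (hent z).2
    rwa [mul_sub, mul_one] at this
  have hγ : ∀ k x, Pos ((![0, H1, fun z => X ^ sm * eta l z] : Fin 3 → V → RZ) k x) ∧
      X ∣ (![0, H1, fun z => X ^ sm * eta l z] : Fin 3 → V → RZ) k x := by
    intro k x
    fin_cases k
    · exact ⟨Pos.zero, dvd_zero _⟩
    · refine ⟨(hH1e x).of_sub (Pos.X_pow sm), ?_⟩
      change X ∣ H1 x
      rw [hH1]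
      exact ((hXs.mul_right _).add ((hB.2 w x).mul_left _)).add (hv x).2
    · exact ⟨(hH2e x).of_sub (Pos.X_pow sm), hXs.mul_right _⟩
  have hd1p : Pos (d1 - gR * X ^ (j * L + L)) := by
    obtain ⟨n, rfl⟩ := Nat.exists_eq_add_of_le' hc
    have e2 : (X : RZ) ^ (j * L + L) = X ^ sm * X ^ (L - 1) := by
      rw [← pow_add]
      congr 1
      omega
    have := ((Pos.gR.mul (Pos.X_pow sm)).mul ((Pos.natCast n).mul (Pos.X_pow (L - 1)))).add hb
    convert this using 1
    rw [hd1, e2]
    push_cast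
    ring
  have hδ : ∀ k, Pos ((![ar, d1, 0] : Fin 3 → RZ) k) ∧ X ∣ (![ar, d1, 0] : Fin 3 → RZ) k := by
    intro k
    fin_cases k
    · exact har
    · refine ⟨hd1p.of_sub (Pos.gR.mul (Pos.X_pow _)), ?_⟩
      change X ∣ d1
      rw [hd1]
      exact ((hXs.mul_left _).mul_right _).add hb'
    · exact ⟨Pos.zero, dvd_zero _⟩
  have hrow : ∀ z, ((q + Pi.single w (gR * X ^ sm)) ᵥ* (1 - BT A w l L c)) z =
      (X - X ^ sm) * eta l z - H1 z := fun z => by
    have e1 := congrFun hq z
    rw [Pi.sub_apply, Pi.smul_apply, smul_eq_mul] at e1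
    rw [qt6_row, hH1]
    linear_combination -e1
  have hcol : ∑ x, (q + Pi.single w (gR * X ^ sm) : V → RZ) x * exi w L c x = ar + d1 := by
    change (q + Pi.single w (gR * X ^ sm) : V → RZ) ⬝ᵥ exi w L c = _
    rw [exi, dotProduct_single, Pi.add_apply, Pi.single_eq_same, hd1]
    linear_combination hqw
  generalize q + Pi.single w (gR * X ^ sm) = cc at hrow hcol
  have s3 := sim_split3 (BT A w l L c) (exi w L c) _ _ hB hex hγ hδ
  refine ⟨_, ((sim_exit h hL ht).trans ?_).trans s3, ?_, ⟨⟨?_, ?_⟩, ?_, ?_, hd1p⟩, fun x => ?_⟩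
  · have h1 : PT (fromBlocks (BT A w l L c) (of fun x (_ : Unit) => exi w L c x)
        (of fun (_ : Unit) z => X * eta l z) (0 : Matrix Unit Unit RZ)) :=
      ⟨qp6_blocks (Q := Pos) hB.1 (fun x _ => (hex x).1)
          (fun _ z => Pos.X.mul (qt6_eta l z)) fun _ _ => Pos.zero,
        qp6_blocks (Q := fun p => X ∣ p) hB.2 (fun x _ => (hex x).2)
          (fun _ _ => dvd_mul_right _ _) fun _ _ => dvd_zero _⟩
    have h2 : PT (fromBlocks (BT A w l L c) (of fun x (_ : Unit) => exi w L c x)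
        (of fun (_ : Unit) x => ∑ k, (![0, H1, fun z => X ^ sm * eta l z] : Fin 3 → V → RZ) k x)
        (of fun _ _ : Unit => ∑ k, (![ar, d1, 0] : Fin 3 → RZ) k)) :=
      ⟨qp6_blocks (Q := Pos) hB.1 (fun x _ => (hex x).1)
          (fun _ z => Pos.sum univ fun k _ => (hγ k z).1)
          fun _ _ => Pos.sum univ fun k _ => (hδ k).1,
        qp6_blocks (Q := fun p => X ∣ p) hB.2 (fun x _ => (hex x).2)
          (fun _ z => Finset.dvd_sum (s := univ) fun k _ => (hγ k z).2)
          fun _ _ => Finset.dvd_sum (s := univ) fun k _ => (hδ k).2⟩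
    have e : fromBlocks (BT A w l L c) (of fun x (_ : Unit) => exi w L c x)
        (of fun (_ : Unit) x => ∑ k, (![0, H1, fun z => X ^ sm * eta l z] : Fin 3 → V → RZ) k x)
        (of fun _ _ : Unit => ∑ k, (![ar, d1, 0] : Fin 3 → RZ) k) =
        (fromBlocks (BT A w l L c) (of fun x (_ : Unit) => exi w L c x)
          (of fun (_ : Unit) z => X * eta l z) (0 : Matrix Unit Unit RZ)).updateRow (inr ())
          (Sum.elim (fun z => H1 z + X ^ sm * eta l z) fun _ => ar + d1) := by
      ext1 i k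
      rw [updateRow_apply]
      rcases i with x | x
      · rw [if_neg Sum.inl_ne_inr]
        rcases k with y | y <;> rfl
      · rw [if_pos rfl]
        rcases k with y | y <;> simp [Fin.sum_univ_three]
    rw [e] at h2 ⊢
    refine sim_rm h1.valid (c := Sum.elim cc fun _ => 0) rfl ?_ h2.valid
    funext k
    rw [Pi.sub_apply, qt6_vm]
    rcases k with y | y
    · simp only [Sum.elim_inl, fromBlocks_apply₂₁, of_apply]
      linear_combination hrow y
    · simp only [Sum.elim_inr, fromBlocks_apply₂₂, of_apply, Matrix.zero_apply]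
      linear_combination -hcol
  · obtain ⟨q₀, hq₀, hE⟩ := BT_eq A w l hL1 c
    have r := canon_rel hD (eta l) q₀ w hq₀ h.eta_mul h.gen ((c : RZ) * X ^ L)
      (fun _ => (c : RZ) * X ^ (L - 1)) ![0, X - X ^ sm, X ^ sm]
      (1 - of fun k _ => ![ar, -ar, 0] k) rfl
    rw [← hE] at r
    have e := eqv_left (fromBlocks (1 - BT A w l L c)
      (-vecMulVec (Pi.single w 1) fun _ : Fin 3 => (c : RZ) * X ^ (L - 1))
      (-vecMulVec ![0, X - X ^ sm, X ^ sm] (eta l)) (1 - of fun k _ => ![ar, -ar, 0] k))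
      (fun i => i = inr 1) (fromBlocks 0 0 (vecMulVec (Pi.single 1 1) cc) 0) (by
        rintro (x | x) (y | y) hxy
        · exact absurd rfl hxy
        · exact absurd rfl hxy
        · have hx : x = 1 := by
            by_contra hx
            exact hxy (by rw [fromBlocks_apply₂₁, vecMulVec_apply, Pi.single_eq_of_ne hx, zero_mul])
          subst hx
          exact ⟨rfl, Sum.inl_ne_inr, by simp, Or.inr ⟨y, rfl⟩⟩
        · exact absurd rfl hxy)
    have r2 := e.symm.rel.trans r fun y => by simp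
    convert r2 using 1
    · rw [Matrix.add_mul, Matrix.one_mul, fromBlocks_multiply, fromBlocks_add]
      simp only [Matrix.zero_mul, add_zero, vecMulVec_mul]
      ext1 i k
      rcases i with x | x <;> rcases k with y | y
      · simp [one_apply]
      · by_cases hx : x = w <;> simp [exi, vecMulVec_apply, hx]
      · have := hrow y
        fin_cases x <;> simp [vecMulVec_apply, this]
        ring
      · have e4 : (cc ᵥ* -vecMulVec (Pi.single w 1) fun _ : Fin 3 => (c : RZ) * X ^ (L - 1)) y =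
            -(ar + d1) := by
          rw [← hcol, vecMul_neg, Pi.neg_apply, vecMul_vecMulVec]
          change _ = -(cc ⬝ᵥ exi w L c)
          rw [exi, dotProduct_single, dotProduct_single, mul_one, Pi.smul_apply, smul_eq_mul]
        fin_cases x <;> simp [vecMulVec_apply, e4, one_apply]
        ring
    · rw [canon]
      congr 1 <;> ext1 <;> simp only [of_apply, eta] <;> push_cast <;> ring
  · exact qp6_blocks (Q := Pos) hB.1 (fun x _ => (hex x).1) (fun k x => (hγ k x).1)
      fun k _ => (hδ k).1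
  · exact qp6_blocks (Q := fun p => X ∣ p) hB.2 (fun x _ => (hex x).2) (fun k x => (hγ k x).2)
      fun k _ => (hδ k).2
  · funext k
    rcases k with y | y <;> rfl
  · intro k hk z
    fin_cases k
    · exact absurd rfl hk
    · exact hH1e z
    · exact hH2e z
  · funext k
    rcases k with y | y <;> rfl

end Pool.Agent.Lib.MP_71aad1_an.SS
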