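import Pool.Agent.Lib.MP_71aad1_an.QA3
import Pool.Agent.Lib.MP_71aad1_an.QS5

set_option autoImplicit false

namespace Pool.Agent.Lib.MP_71aad1_an.SS

open Polynomial Matrix Finset Sum

/-! Elementary properties of `Bd`, `WB`, `Lt`. -/

variable {ι : Type} [Fintype ι] [DecidableEq ι] {r : ℝ}

theorem Bd.one {B : ℝ} (h : 0 ≤ B) : Bd r B (1 : El ι RZ) := by
  constructor <;> simp only [inv_one, mat_one, sub_self, nm_zero, h]
theorem Bd.nonneg (hr : 0 ≤ r) {B : ℝ} {γ : El ι RZ} (h : Bd r B γ) : 0 ≤ B :=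
  (nm_nonneg hr _).trans h.1
theorem Bd.mono {B B' : ℝ} {γ : El ι RZ} (h : Bd r B γ) (h' : B ≤ B') : Bd r B' γ :=
  ⟨h.1.trans h', h.2.trans h'⟩
theorem Bd.inv {B : ℝ} {γ : El ι RZ} (h : Bd r B γ) : Bd r B γ⁻¹ :=
  ⟨h.2, by rw [inv_inv]; exact h.1⟩
theorem Bd.mul (hr : 0 ≤ r) {B B' : ℝ} {γ γ' : El ι RZ} (h : Bd r B γ) (h' : Bd r B' γ') :
    Bd r (B + B' + B * B') (γ * γ') := by
  refine ⟨nm_mul_sub_one hr h.1 h'.1, ?_⟩
  rw [_root_.mul_inv_rev, mat_mul]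
  exact (nm_mul_sub_one hr h'.2 h.2).trans (le_of_eq (by ring))

theorem qw1_x (hr : 0 ≤ r) (a b : ι) (p : RZ) : nm r (mat ((el ι RZ).x a b p) - 1) ≤ N1 r p := by
  by_cases e : a = b
  · subst e
    rw [(el ι RZ).diag, mat_one, sub_self, nm_zero]
    exact N1_nonneg hr p
  · rw [mat_x e, add_sub_cancel_left, nm_single]

theorem Bd.x (hr : 0 ≤ r) (a b : ι) (p : RZ) : Bd r (N1 r p) ((el ι RZ).x a b p) := by
  refine ⟨qw1_x hr a b p, ?_⟩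
  rw [← St.x_neg, ← N1_neg]
  exact qw1_x hr a b (-p)

theorem qw1_conj (hr : 0 ≤ r) {B ε : ℝ} {γ g : El ι RZ} (h : Bd r B γ)
    (hg : nm r (mat g - 1) ≤ ε) : nm r (mat (γ * g * γ⁻¹) - 1) ≤ (1 + B) ^ 2 * ε := by
  have e : mat (γ * g * γ⁻¹) - 1 = mat γ * (mat g - 1) * mat γ⁻¹ := by
    rw [mul_sub, sub_mul, mul_one, mat_mul_inv, mat_mul, mat_mul]
  rw [e]
  exact (nm_conj_le hr h.1 h.2).trans (mul_le_mul_of_nonneg_left hg (sq_nonneg _))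

/-- `nm_conj_le`. -/
theorem Bd.conj (hr : 0 ≤ r) {B ε : ℝ} {γ g : El ι RZ} (h : Bd r B γ) (hg : Bd r ε g) :
    Bd r ((1 + B) ^ 2 * ε) (γ * g * γ⁻¹) := by
  refine ⟨qw1_conj hr h hg.1, ?_⟩
  rw [conj_inv]
  exact qw1_conj hr h hg.2
/-- `(e ^ a - 1) + (e ^ b - 1) + (e ^ a - 1) (e ^ b - 1) = e ^ (a + b) - 1`. -/
theorem Bd.mul_exp (hr : 0 ≤ r) {a b : ℝ} {γ γ' : El ι RZ} (h : Bd r (Real.exp a - 1) γ)
    (h' : Bd r b γ') : Bd r (Real.exp (a + b) - 1) (γ * γ') := by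
  have h1 : b ≤ Real.exp b - 1 := by linarith [Real.add_one_le_exp b]
  refine (h.mul hr (h'.mono h1)).mono (le_of_eq ?_)
  rw [Real.exp_add]
  ring
theorem exp_sub_one_le {x : ℝ} (h0 : 0 ≤ x) (h1 : x ≤ 1) : Real.exp x - 1 ≤ 2 * x := by
  have h := Real.abs_exp_sub_one_le (x := x) (by rwa [abs_of_nonneg h0])
  rw [abs_of_nonneg h0] at h
  exact (le_abs_self _).trans h

theorem WB.nonneg (hr : 0 ≤ r) {k : ℕ} {B ζ : ℝ} {W : El ι RZ} (h : WB r k B W ζ) : 0 ≤ ζ := by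
  induction h with
  | one h => exact h
  | snoc _ _ _ ih => exact add_nonneg ih (N1_nonneg hr _)
theorem WB.mono {k k' : ℕ} {B B' ζ ζ' : ℝ} {W : El ι RZ} (h : WB r k B W ζ) (hk : k' ≤ k)
    (hB : B ≤ B') (hζ : ζ ≤ ζ') : WB r k' B' W ζ' := by
  induction h generalizing ζ' with
  | one h => exact WB.one (h.trans hζ)
  | @snoc W γ ζ a b p _ hγ hp ih =>
    have h1 := WB.snoc (a := a) (b := b) (ih (le_sub_iff_add_le.2 hζ)) (hγ.mono hB)
      ((pow_dvd_pow _ hk).trans hp)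
    rwa [sub_add_cancel] at h1
theorem WB.single {k : ℕ} {B : ℝ} {γ : El ι RZ} (h : Bd r B γ) (a b : ι) {p : RZ} (hp : X ^ k ∣ p) :
    WB r k B (γ * (el ι RZ).x a b p * γ⁻¹) (N1 r p) := by
  have h1 := WB.snoc (a := a) (b := b) (WB.one le_rfl) h hp
  rwa [one_mul, zero_add] at h1
theorem WB.mul {k : ℕ} {B ζ ζ' : ℝ} {W W' : El ι RZ} (h : WB r k B W ζ) (h' : WB r k B W' ζ') :
    WB r k B (W * W') (ζ + ζ') := by
  induction h' with
  | one h0 =>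
    rw [mul_one]
    exact h.mono le_rfl le_rfl (le_add_of_nonneg_right h0)
  | snoc _ hγ hp ih =>
    rw [← mul_assoc, ← add_assoc]
    exact WB.snoc ih hγ hp
theorem WB.inv {k : ℕ} {B ζ : ℝ} {W : El ι RZ} (h : WB r k B W ζ) : WB r k B W⁻¹ ζ := by
  induction h with
  | one h0 =>
    rw [inv_one]
    exact WB.one h0
  | @snoc W γ ζ a b p _ hγ hp ih =>
    rw [_root_.mul_inv_rev, conj_inv, ← St.x_neg, add_comm, ← N1_neg]
    exact (WB.single hγ a b (dvd_neg.2 hp)).mul ih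
theorem WB.conj (hr : 0 ≤ r) {k : ℕ} {B B' ζ : ℝ} {W γ : El ι RZ} (h : WB r k B W ζ)
    (hγ : Bd r B' γ) : WB r k (B' + B + B' * B) (γ * W * γ⁻¹) ζ := by
  induction h with
  | one h0 =>
    rw [mul_one, mul_inv_cancel]
    exact WB.one h0
  | @snoc W γ' ζ a b p _ hγ' hp ih =>
    have e : γ * (W * (γ' * (el ι RZ).x a b p * γ'⁻¹)) * γ⁻¹ =
        γ * W * γ⁻¹ * (γ * γ' * (el ι RZ).x a b p * (γ * γ')⁻¹) := by group
    rw [e]
    exact WB.snoc ih (hγ.mul hr hγ') hp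
theorem WB.bd (hr : 0 ≤ r) {k : ℕ} {B ζ : ℝ} {W : El ι RZ} (h : WB r k B W ζ) :
    Bd r (Real.exp ((1 + B) ^ 2 * ζ) - 1) W := by
  induction h with
  | one h0 => exact Bd.one (sub_nonneg.2 (Real.one_le_exp (mul_nonneg (sq_nonneg _) h0)))
  | @snoc W γ ζ a b p _ hγ hp ih =>
    rw [mul_add]
    exact ih.mul_exp hr (hγ.conj hr (Bd.x hr a b p))
theorem WB.cong {k : ℕ} {B ζ : ℝ} {W : El ι RZ} (h : WB r k B W ζ) : MCong (tI k) (mat W) := by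
  induction h with
  | one _ => exact MCong.one _
  | @snoc W γ ζ a b p _ _ hp ih => exact ih.mul ((MCong.x a b (mem_tI.2 hp)).conj γ)

theorem Lt.nonneg (hr : 0 ≤ r) {δ : ℝ} {γ : El ι RZ} (h : Lt r γ δ) : 0 ≤ δ := by
  induction h with
  | one h => exact h
  | snoc _ _ ih => exact add_nonneg ih (N1_nonneg hr _)
theorem Lt.mono {δ δ' : ℝ} {γ : El ι RZ} (h : Lt r γ δ) (h' : δ ≤ δ') : Lt r γ δ' := by
  induction h generalizing δ' with
  | one h => exact Lt.one (h.trans h')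
  | @snoc γ δ a b q _ hq ih =>
    have h1 := Lt.snoc (a := a) (b := b) (ih (le_sub_iff_add_le.2 h')) hq
    rwa [sub_add_cancel] at h1
theorem Lt.x (a b : ι) {q : RZ} (hq : X ^ 2 ∣ q) : Lt r ((el ι RZ).x a b q) (N1 r q) := by
  have h1 := Lt.snoc (r := r) (a := a) (b := b) (Lt.one le_rfl) hq
  rwa [one_mul, zero_add] at h1
theorem Lt.mul {δ δ' : ℝ} {γ γ' : El ι RZ} (h : Lt r γ δ) (h' : Lt r γ' δ') :
    Lt r (γ * γ') (δ + δ') := by
  induction h' with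
  | one h0 =>
    rw [mul_one]
    exact h.mono (le_add_of_nonneg_right h0)
  | snoc _ hq ih =>
    rw [← mul_assoc, ← add_assoc]
    exact Lt.snoc ih hq
theorem Lt.bd (hr : 0 ≤ r) {δ : ℝ} {γ : El ι RZ} (h : Lt r γ δ) : Bd r (Real.exp δ - 1) γ := by
  induction h with
  | one h0 => exact Bd.one (sub_nonneg.2 (Real.one_le_exp h0))
  | @snoc γ δ a b q _ _ ih => exact ih.mul_exp hr (Bd.x hr a b q)

end Pool.Agent.Lib.MP_71aad1_an.SS
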