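import Pool.Agent.Lib.MP_71aad1_an.QW10

set_option autoImplicit false

namespace Pool.Agent.Lib.MP_71aad1_an.SS

open Polynomial Matrix Finset Sum

/-! Rounding a small real elementary matrix to an integral one. -/

variable {ι : Type} [Fintype ι] [DecidableEq ι] {r : ℝ}

theorem qw11_prod (l : List (El ι RZ × (ι → ℝ))) :
    mat (l.map Prod.fst).prod = ((l.map fun y => (mat y.1, y.2)).map Prod.fst).prod := by
  induction l with
  | nil => rfl
  | cons y l ih => simp only [List.map_cons, List.prod_cons, mat_mul, ih]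

omit [DecidableEq ι] in
theorem qw11_row {K : Type} [NormedCommRing K] (hr : 0 ≤ r) (A : Matrix ι ι (PR K)) (x : ι) :
    ∑ z, N1 r (A x z) ≤ nm r A :=
  Finset.single_le_sum (f := fun x => ∑ z, N1 r (A x z))
    (fun _ _ => Finset.sum_nonneg fun _ _ => N1_nonneg hr _) (Finset.mem_univ x)

omit [DecidableEq ι] in
theorem qw11_trace {K : Type} [NormedCommRing K] (hr : 0 ≤ r) (A : Matrix ι ι (PR K)) :
    N1 r (trace A) ≤ nm r A :=
  (N1_sum_le hr _ _).trans (Finset.sum_le_sum fun x _ =>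
    Finset.single_le_sum (f := fun z => N1 r (A x z)) (fun _ _ => N1_nonneg hr _)
      (Finset.mem_univ x))

omit [DecidableEq ι] in
theorem qw11_nm {K : Type} [NormedCommRing K] {A : Matrix ι ι (PR K)} {c : ℝ}
    (h : ∀ x, RowB r (fun _ => 1) (A x) c) : nm r A ≤ Fintype.card ι * c := by
  have := Finset.sum_le_card_nsmul univ (fun x => ∑ z, N1 r (A x z)) c (fun x _ => by
    simpa [Sw] using (h x).1)
  simpa [nm] using this

theorem qw11_nu (hr : 0 ≤ r) (i0 : ι) {ε : ℝ} {A : Matrix ι ι RZ} (hA : nm r A ≤ ε)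
    (hε : (4 + 3 * (Fintype.card ι : ℝ)) * ε ≤ 1 / 2) :
    nm r (mat (NU i0 A) - 1) ≤ Fintype.card ι * (2 * ((4 + 3 * (Fintype.card ι : ℝ)) * ε)) ∧
    nm r (mat (NU i0 A) - 1 - (single i0 i0 (trace A) - A)) ≤
      Fintype.card ι * (2 * ((4 + 3 * (Fintype.card ι : ℝ)) * ε) ^ 2) := by
  have hε0 : 0 ≤ ε := (nm_nonneg hr A).trans hA
  have hw : ∀ _ : ι, (0 : ℝ) ≤ 1 ∧ (1 : ℝ) ≤ 1 := fun _ => ⟨zero_le_one, le_rfl⟩
  have hn : ∀ x, RowB r (fun _ => 1) (A x) (ε * 1) := fun x =>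
    RowB.of_sum hr (fun _ => le_rfl) (by rw [mul_one]; exact (qw11_row hr A x).trans hA)
  have h1 := nuList_sum (w := fun _ => 1) (Ω := Fintype.card ι) (w₀ := 1) (i0 := i0) hr hw
    (by simp) one_pos le_rfl hε0 hn
  have h2 := nuList_exe (w := fun _ => 1) (o := fun _ => 0) (κ := 0) (i0 := i0) hr hw hn
    (by simp) (by simp)
  rw [div_one] at h1
  obtain ⟨τ, hτ⟩ : ∃ τ, τ = (4 + 3 * (Fintype.card ι : ℝ)) * ε := ⟨_, rfl⟩
  rw [← hτ] at h1 hε ⊢
  have hτ0 : 0 ≤ τ := by rw [hτ]; positivity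
  have e1 : ∀ i, (((nuList r (fun _ => 1) ε i0 A).map fun y => (mat y.1, y.2)).map
      fun x => x.2 i).sum = ((nuList r (fun _ => 1) ε i0 A).map fun y => y.2 i).sum := by
    intro i
    rw [List.map_map]
    rfl
  have h3 := prodEst (w := fun _ => 1) hr (fun _ => zero_le_one) hτ0 hε
    ((nuList r (fun _ => 1) ε i0 A).map fun y => (mat y.1, y.2))
    (fun x hx i => by
      obtain ⟨y, hy, rfl⟩ := List.mem_map.1 hx
      exact (h2 y hy).1 i)
    (fun i => by rw [e1]; exact h1 i)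
  have e2 : (((nuList r (fun _ => 1) ε i0 A).map fun y => (mat y.1, y.2)).map
      fun x => x.1 - 1).sum = single i0 i0 (trace A) - A := by
    rw [List.map_map, ← nuList_lin (r := r) (fun _ => 1) ε i0 A]
    rfl
  rw [← qw11_prod, nuList_prod, e2] at h3
  refine ⟨qw11_nm fun i => (h3 i).1.mono ?_, qw11_nm fun i => (h3 i).2.mono ?_⟩
  · have := h1 i
    rw [e1]
    linarith
  · have := mul_le_mul_of_nonneg_left (h1 i) hτ0
    rw [e1]
    nlinarith

/-- Round the entries of `A = mat G - 1` to `A'` (`exists_round`), put `ρ = (NU i0 A')⁻¹`.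
With all weights equal to one, `prodEst` for `nuList` (`nuList_exe` with `o = 0`, `κ = 0` gives the
row bounds) yields `nm (mat ρ⁻¹ - 1 + A' - trace A' E₀₀) ≤ C ε²` and `nm (mat ρ⁻¹ - 1) ≤ C ε`. The
trace of `A` is `O(ε²)` by `detTr`, `det_mat`. -/
theorem round_el (T : Tri ι) (hr : 0 < r) (hr' : r ≤ 1 / 4) : ∃ C : ℝ, 1 ≤ C ∧
    ∀ (k : ℕ) (ε : ℝ) (G : El ι RR), C * ε ≤ 1 → (∀ i j, X ^ k ∣ (mat G - 1) i j) →
      nm r (mat G - 1) ≤ ε → ∃ ρ : El ι RZ, (∀ δ, 0 ≤ δ → ∃ τ, W0 r k δ ρ (C * ε) τ) ∧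
        nm r (mat (G * (mapE (dil 1) ρ)⁻¹) - 1) ≤ C * (ε ^ 2 + 1 / 2 ^ k) := by
  obtain ⟨N, hN⟩ : ∃ N : ℝ, N = Fintype.card ι := ⟨_, rfl⟩
  have hN0 : 0 ≤ N := by rw [hN]; positivity
  obtain ⟨a, ha⟩ : ∃ a : ℝ, a = 4 + 3 * N := ⟨_, rfl⟩
  have ha0 : 0 ≤ a := by rw [ha]; positivity
  obtain ⟨D, hD⟩ : ∃ D : ℝ, D = 2 * N * a ^ 2 + 2 + 2 * N * a := ⟨_, rfl⟩
  have hD0 : 0 ≤ D := by rw [hD]; positivity
  have hN2 : 0 ≤ 20 * N ^ 2 := by positivity
  refine ⟨20 * N ^ 2 + D + 2 * a, by linarith, fun k ε G hC hk hG => ?_⟩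
  obtain ⟨A, hA⟩ : ∃ A, A = mat G - 1 := ⟨_, rfl⟩
  rw [← hA] at hk hG
  have hε0 : 0 ≤ ε := (nm_nonneg hr.le A).trans hG
  have haε : a * ε ≤ 1 / 2 := by
    have := mul_nonneg (add_nonneg hN2 hD0) hε0
    linarith
  choose A' h1 h2 h3 using fun i j => exists_round hr.le hr' (hk i j)
  have h4 : nm r (of A') ≤ ε :=
    (Finset.sum_le_sum fun i _ => Finset.sum_le_sum fun j _ => h2 i j).trans hG
  have h5 : nm r (A - (of A').map (dil 1)) ≤ 10 * N ^ 2 * (1 / 2 ^ k) := by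
    have := Finset.sum_le_card_nsmul univ (fun i => ∑ j, N1 r (A i j - dil 1 (A' i j))) _
      (fun i _ => Finset.sum_le_card_nsmul univ (fun j => N1 r (A i j - dil 1 (A' i j))) _
        (fun j _ => h3 i j))
    simp only [Finset.card_univ, nsmul_eq_mul, ← hN] at this
    refine le_trans this (le_of_eq ?_)
    ring
  obtain ⟨h6, h7⟩ := qw11_nu hr.le T.i0 h4 (by rw [← hN, ← ha]; exact haε)
  rw [← hN, ← ha] at h6 h7
  refine ⟨(NU T.i0 (of A'))⁻¹, fun δ hδ => ?_, ?_⟩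
  · obtain ⟨τ, hτ⟩ := NU_W0 (k := k) hr.le hδ T.i0 (n := of A') h1
    refine ⟨-τ, hτ.inv.mono le_rfl le_rfl ?_⟩
    rw [← hN]
    exact mul_le_mul (by linarith) h4 (nm_nonneg hr.le _) (by linarith)
  have h8 : N1 r (trace A) ≤ 2 * ε ^ 2 := by
    have := detTr hr.le A (c := fun x => ∑ z, N1 r (A x z)) (γ := ε)
      (fun x y => Finset.single_le_sum (f := fun z => N1 r (A x z))
        (fun _ _ => N1_nonneg hr.le _) (Finset.mem_univ y)) hG (by nlinarith)
    rwa [hA, add_sub_cancel, det_mat, sub_self, zero_sub, N1_neg, ← hA] at this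
  have h9 : N1 r (trace (of A')) ≤ 2 * ε ^ 2 + 10 * N ^ 2 * (1 / 2 ^ k) := by
    have e : dil 1 (trace (of A')) = trace A - trace (A - (of A').map (dil 1)) := by
      rw [trace_sub, sub_sub_cancel]
      exact map_sum _ _ _
    rw [← N1_dil_one, e]
    exact (N1_sub_le hr.le _ _).trans (add_le_add h8 ((qw11_trace hr.le _).trans h5))
  obtain ⟨B, hB⟩ : ∃ B, B = mat (NU T.i0 (of A')) - 1 := ⟨_, rfl⟩
  rw [← hB] at h6 h7
  have e : mat (G * (mapE (dil 1) (NU T.i0 (of A'))⁻¹)⁻¹) - 1 =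
      (A - (of A').map (dil 1)) + (B - (single T.i0 T.i0 (trace (of A')) - of A')).map (dil 1) +
        (single T.i0 T.i0 (trace (of A'))).map (dil 1) + A * B.map (dil 1) := by
    have e1 : mat G = 1 + A := by rw [hA, add_sub_cancel]
    have e2 : mat (NU T.i0 (of A')) = 1 + B := by rw [hB, add_sub_cancel]
    rw [map_inv, inv_inv, mat_mul, mat_mapE, e1, e2]
    simp only [← RingHom.mapMatrix_apply, map_sub, map_add, map_one]
    noncomm_ring
  have b1 := nm_mul_le hr.le A (B.map (dil 1))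
  rw [nm_map_dil_one] at b1
  have b2 : nm r A * nm r B ≤ ε * (N * (2 * (a * ε))) :=
    mul_le_mul hG h6 (nm_nonneg hr.le _) hε0
  have b3 := nm_add_le hr.le ((A - (of A').map (dil 1)) +
    (B - (single T.i0 T.i0 (trace (of A')) - of A')).map (dil 1) +
        (single T.i0 T.i0 (trace (of A'))).map (dil 1)) (A * B.map (dil 1))
  have b4 := nm_add_le hr.le ((A - (of A').map (dil 1)) +
    (B - (single T.i0 T.i0 (trace (of A')) - of A')).map (dil 1))
        ((single T.i0 T.i0 (trace (of A'))).map (dil 1))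
  have b5 := nm_add_le hr.le (A - (of A').map (dil 1))
    ((B - (single T.i0 T.i0 (trace (of A')) - of A')).map (dil 1))
  rw [nm_map_dil_one] at b4 b5
  rw [nm_single] at b4
  rw [e]
  have c1 : (0 : ℝ) ≤ 1 / 2 ^ k := by positivity
  generalize (1 / 2 ^ k : ℝ) = q at *
  have c2 : N * (2 * (a * ε) ^ 2) + 2 * ε ^ 2 + ε * (N * (2 * (a * ε))) = D * ε ^ 2 := by
    rw [hD]
    ring
  have c3 := mul_nonneg (add_nonneg hN2 (mul_nonneg zero_le_two ha0)) (sq_nonneg ε)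
  have c4 := mul_nonneg (add_nonneg hD0 (mul_nonneg zero_le_two ha0)) c1
  nlinarith

end Pool.Agent.Lib.MP_71aad1_an.SS
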