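import Pool.Agent.Lib.MP_71aad1_an.QW11
import Pool.Agent.Lib.MP_71aad1_an.QS2

set_option autoImplicit false

namespace Pool.Agent.Lib.MP_71aad1_an.SS

open Polynomial Matrix Finset Sum

/-! The homotopy `t ↦ s t` on words of letters. -/

variable {ι : Type} [Fintype ι] [DecidableEq ι] {r : ℝ}

/-- The product of a word of letters `(a, b, j, m)`. -/
noncomputable def wd (l : List (ι × ι × ℕ × RZ)) : El ι RZ :=
  (l.map fun x => (el ι RZ).x x.1 x.2.1 x.2.2.2).prod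

theorem qw12_nil : wd ([] : List (ι × ι × ℕ × RZ)) = 1 := rfl

theorem qw12_cons (x : ι × ι × ℕ × RZ) (l : List (ι × ι × ℕ × RZ)) :
    wd (x :: l) = (el ι RZ).x x.1 x.2.1 x.2.2.2 * wd l := by
  simp [wd]

theorem qw12_append (l l' : List (ι × ι × ℕ × RZ)) : wd (l ++ l') = wd l * wd l' := by
  simp [wd]

theorem qw12_letter (c d : ι) (l : List (ℕ × RZ)) :
    (el ι RZ).x c d (l.map Prod.snd).sum = wd (l.map fun y => (c, d, y.1, y.2)) := by
  induction l with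
  | nil => exact St.x_zero _ c d
  | cons y l ih => rw [List.map_cons, List.sum_cons, St.add, ih, List.map_cons, qw12_cons]

theorem qw12_nm_x (hr : 0 ≤ r) (a b : ι) (p : RR) :
    nm r (mat ((el ι RR).x a b p) - 1) ≤ N1 r p := by
  by_cases h : a = b
  · subst h
    rw [St.diag, mat_one, sub_self, nm_zero]
    exact N1_nonneg hr p
  · rw [mat_x h, add_sub_cancel_left, nm_single]

theorem qw12_small (hr : 0 ≤ r) (hr' : r ≤ 1 / 4) {k j : ℕ} {m : RZ} (hj : k ≤ j) (hm : UM j m) :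
    N1 r m ≤ 1 / 2 ^ k := by
  rw [hm.N1]
  exact (N1_X_pow_anti hr (by linarith) hj).trans (N1_X_pow_le hr hr' k)

theorem qw12_cong {k : ℕ} {l : List (ι × ι × ℕ × RZ)}
    (hl : ∀ x ∈ l, k ≤ x.2.2.1 ∧ UM x.2.2.1 x.2.2.2) : MCong (tI k) (mat (wd l)) := by
  induction l with
  | nil => exact MCong.one _
  | cons x l ih =>
    rw [qw12_cons, mat_mul]
    obtain ⟨h1, h2⟩ := hl x List.mem_cons_self
    exact (MCong.x _ _ (mem_tI.2 ((pow_dvd_pow X h1).trans h2.dvd))).mul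
      (ih fun y hy => hl y (List.mem_cons_of_mem _ hy))

theorem qw12_cong_dil {k : ℕ} (s : ℝ) {g : El ι RZ} (h : MCong (tI k) (mat g)) :
    MCong (Ideal.span {(X ^ k : RR)}) (mat (mapE (dil s) g)) := by
  intro i j
  have e : (mat (mapE (dil s) g) - 1) i j = dil s ((mat g - 1) i j) := by
    rw [mat_mapE]
    simp only [Matrix.sub_apply, map_apply, map_sub, one_apply]
    split_ifs <;> simp
  rw [e]
  exact Ideal.mem_span_singleton.2 (dil_dvd s (mem_tI.1 (h i j)))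

/-- `z_mul_mem_letters` and `exists_UM_list`. -/
theorem exists_wd (hT : Three ι) {k : ℕ} {Z : El ι RZ} (h : Z ∈ Ed ι (2 * k)) :
    ∃ l : List (ι × ι × ℕ × RZ), (∀ x ∈ l, k ≤ x.2.2.1 ∧ UM x.2.2.1 x.2.2.2) ∧ Z = wd l := by
  have h1 : Ed ι (2 * k) ≤ Subgroup.closure
      {h | ∃ c d s, s ∈ tI k ∧ h = (el ι RZ).x c d s} := by
    refine (Subgroup.closure_le _).2 ?_
    rintro _ ⟨a, b, p, α, hp, rfl⟩
    obtain ⟨c, rfl⟩ := mem_tI.1 hp
    rw [two_mul, pow_add, mul_assoc]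
    exact St.z_mul_mem_letters _ hT a b (mem_tI.2 dvd_rfl) (mem_tI.2 (dvd_mul_right _ _)) α
  have h2 : ∀ (c d : ι) (s : RZ), s ∈ tI k → ∃ l : List (ι × ι × ℕ × RZ),
      (∀ x ∈ l, k ≤ x.2.2.1 ∧ UM x.2.2.1 x.2.2.2) ∧ (el ι RZ).x c d s = wd l := by
    intro c d s hs
    obtain ⟨l, hl, rfl, -⟩ := exists_UM_list (mem_tI.1 hs)
    refine ⟨_, fun x hx => ?_, qw12_letter c d l⟩
    obtain ⟨y, hy, rfl⟩ := List.mem_map.1 hx
    exact hl y hy
  have h3 := h1 h
  clear h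
  induction h3 using Subgroup.closure_induction'' with
  | mem g hg =>
    obtain ⟨c, d, s, hs, rfl⟩ := hg
    exact h2 c d s hs
  | inv_mem g hg =>
    obtain ⟨c, d, s, hs, rfl⟩ := hg
    rw [← St.x_neg]
    exact h2 c d _ (neg_mem hs)
  | one => exact ⟨[], by simp, rfl⟩
  | mul g g' _ _ hg hg' =>
    obtain ⟨l, hl, rfl⟩ := hg
    obtain ⟨l', hl', rfl⟩ := hg'
    refine ⟨l ++ l', fun x hx => ?_, (qw12_append l l').symm⟩
    rcases List.mem_append.1 hx with hx | hx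
    · exact hl x hx
    · exact hl' x hx

/-- Integral approximations of the dilated initial products. -/
inductive App (r : ℝ) (k : ℕ) (η ε s : ℝ) : List (ι × ι × ℕ × RZ) → El ι RZ → Prop
  | nil : App r k η ε s [] 1
  | cons {x : ι × ι × ℕ × RZ} {l : List (ι × ι × ℕ × RZ)} {h ρ : El ι RZ} {τ : RZ} :
      App r k η ε s l h → W0 r k η ρ η τ →
      nm r (mat (mapE (dil s) (wd (x :: l)) * (mapE (dil 1) (ρ * h))⁻¹) - 1) ≤ ε →
      App r k η ε s (x :: l) (ρ * h)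

theorem App.near {k : ℕ} {η ε s : ℝ} (hε : 0 ≤ ε) {l : List (ι × ι × ℕ × RZ)} {h : El ι RZ}
    (H : App r k η ε s l h) : nm r (mat (mapE (dil s) (wd l) * (mapE (dil 1) h)⁻¹) - 1) ≤ ε := by
  cases H with
  | nil =>
    rw [qw12_nil, map_one, map_one, inv_one, mul_one, mat_one, sub_self, nm_zero]
    exact hε
  | cons _ _ h => exact h

theorem App.cong {k : ℕ} {η ε s : ℝ} {l : List (ι × ι × ℕ × RZ)} {h : El ι RZ}
    (H : App r k η ε s l h) : MCong (tI k) (mat h) := by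
  induction H with
  | nil => exact MCong.one _
  | cons _ h _ ih => exact h.cong.mul ih

theorem App.zero {k : ℕ} (hk : 1 ≤ k) {η ε : ℝ} (hη : 0 ≤ η) (hε : 0 ≤ ε)
    {l : List (ι × ι × ℕ × RZ)} (hl : ∀ x ∈ l, k ≤ x.2.2.1 ∧ UM x.2.2.1 x.2.2.2) :
    App r k η ε 0 l 1 := by
  have key : ∀ l : List (ι × ι × ℕ × RZ), (∀ x ∈ l, k ≤ x.2.2.1 ∧ UM x.2.2.1 x.2.2.2) →
      mapE (dil 0) (wd l) = 1 := by
    intro l hl
    induction l with
    | nil => rw [qw12_nil, map_one]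
    | cons x l ih =>
      obtain ⟨h1, h2⟩ := hl x List.mem_cons_self
      have h3 : X ∣ x.2.2.2 := (dvd_pow_self X (by omega)).trans h2.dvd
      rw [qw12_cons, map_mul, ih fun y hy => hl y (List.mem_cons_of_mem _ hy), mapE_cpt,
        dil_zero h3, St.x_zero, mul_one]
  induction l with
  | nil => exact App.nil
  | cons x l ih =>
    have := App.cons (x := x) (ih fun y hy => hl y (List.mem_cons_of_mem _ hy)) (W0.one hη) (by
      rw [key _ hl, mul_one, map_one, inv_one, mul_one, mat_one, sub_self, nm_zero]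
      exact hε)
    rwa [mul_one] at this

theorem App.one (hr : 0 ≤ r) (hr' : r ≤ 1 / 4) {k : ℕ} {η ε : ℝ} (hη : 1 / 2 ^ k ≤ η) (hε : 0 ≤ ε)
    {l : List (ι × ι × ℕ × RZ)} (hl : ∀ x ∈ l, k ≤ x.2.2.1 ∧ UM x.2.2.1 x.2.2.2) :
    App r k η ε 1 l (wd l) := by
  have hη0 : 0 ≤ η := le_trans (by positivity) hη
  induction l with
  | nil => exact App.nil
  | cons x l ih =>
    obtain ⟨h1, h2⟩ := hl x List.mem_cons_self
    rw [qw12_cons]
    refine App.cons (ih fun y hy => hl y (List.mem_cons_of_mem _ hy))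
      ((W0.x hr hη0 _ _ ((pow_dvd_pow X h1).trans h2.dvd)).mono le_rfl le_rfl
        ((qw12_small hr hr' h1 h2).trans hη)) ?_
    rw [qw12_cons, mul_inv_cancel, mat_one, sub_self, nm_zero]
    exact hε

/-- Induction on the list; round `G = dil s x * κ`, where `κ` is the previous quotient, with
`round_el`; `nm (G - 1) ≤ 3 ε`. -/
theorem App.exists (T : Tri ι) (hr : 0 < r) (hr' : r ≤ 1 / 4) : ∃ c : ℝ, 0 < c ∧
    ∀ (k : ℕ) (η ε s : ℝ), 0 < ε → ε ≤ c → ε ≤ c * η → 1 / 2 ^ k ≤ c * ε → 0 ≤ s → s ≤ 1 →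
      ∀ l : List (ι × ι × ℕ × RZ), (∀ x ∈ l, k ≤ x.2.2.1 ∧ UM x.2.2.1 x.2.2.2) →
        ∃ h, App r k η ε s l h := by
  obtain ⟨C, hC, hR⟩ := round_el T hr hr'
  have hC0 : 0 < C := by linarith
  refine ⟨1 / (10 * C), by positivity, fun k η ε s h0 h1 h2 h3 hs0 hs1 l hl => ?_⟩
  have e1 : C * ε ≤ 1 / 10 := by
    rw [le_div_iff₀ (by positivity)] at h1
    linarith
  have e2 : 10 * (C * ε) ≤ η := by
    rw [one_div_mul_eq_div, le_div_iff₀ (by positivity)] at h2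
    linarith
  have e3 : C * (1 / 2 ^ k) ≤ ε / 10 := by
    rw [one_div_mul_eq_div, le_div_iff₀ (by positivity)] at h3
    linarith
  have e4 : ε ≤ C * ε := le_mul_of_one_le_left h0.le hC
  have e5 : 1 / 2 ^ k ≤ ε := by
    have : (1 : ℝ) / 2 ^ k ≤ C * (1 / 2 ^ k) := le_mul_of_one_le_left (by positivity) hC
    linarith
  induction l with
  | nil => exact ⟨1, App.nil⟩
  | cons x l ih =>
    obtain ⟨h, H⟩ := ih fun y hy => hl y (List.mem_cons_of_mem _ hy)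
    obtain ⟨x1, x2⟩ := hl x List.mem_cons_self
    have n1 : nm r (mat (mapE (dil s) ((el ι RZ).x x.1 x.2.1 x.2.2.2)) - 1) ≤ ε := by
      rw [mapE_cpt]
      exact (qw12_nm_x hr.le _ _ _).trans ((N1_dil_le hr.le hs0 hs1 _).trans
        ((qw12_small hr.le hr' x1 x2).trans e5))
    have n2 := nm_mul_sub_one hr.le n1 (H.near h0.le)
    have n3 : nm r (mat (mapE (dil s) (wd (x :: l)) * (mapE (dil 1) h)⁻¹) - 1) ≤ 3 * ε := by
      rw [qw12_cons, map_mul, mul_assoc, mat_mul]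
      refine n2.trans ?_
      nlinarith
    have c1 : MCong (Ideal.span {(X ^ k : RR)})
        (mat (mapE (dil s) (wd (x :: l)) * (mapE (dil 1) h)⁻¹)) :=
      (qw12_cong_dil s (qw12_cong hl)).mul (qw12_cong_dil 1 H.cong).inv
    obtain ⟨ρ, hρ, n4⟩ := hR k (3 * ε) _ (by linarith)
      (fun i j => Ideal.mem_span_singleton.1 (c1 i j)) n3
    obtain ⟨τ, hτ⟩ := hρ η (by linarith)
    refine ⟨ρ * h, App.cons H (hτ.mono le_rfl le_rfl (by linarith)) ?_⟩
    rw [map_mul, _root_.mul_inv_rev, ← mul_assoc]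
    refine n4.trans ?_
    nlinarith [mul_le_mul_of_nonneg_right e1 h0.le]

/-- `P' P⁻¹ - 1` for `x :: l` is `(g' g⁻¹ - 1) + g' (P' P⁻¹ - 1) g⁻¹`; `N1_dil_sub`. -/
theorem wd_lipschitz (hr : 0 ≤ r) (l : List (ι × ι × ℕ × RZ)) (hl : ∀ x ∈ l, UM x.2.2.1 x.2.2.2) :
    ∃ C : ℝ, 0 ≤ C ∧ ∀ l', l' <:+ l → ∀ s s' : ℝ, 0 ≤ s → s ≤ 1 → 0 ≤ s' → s' ≤ 1 →
      nm r (mat (mapE (dil s') (wd l') * (mapE (dil s) (wd l'))⁻¹) - 1) ≤ C * |s' - s| := by
  induction l with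
  | nil =>
    refine ⟨0, le_rfl, fun l' h s s' _ _ _ _ => ?_⟩
    rw [List.suffix_nil.1 h, qw12_nil, map_one, map_one, inv_one, mul_one, mat_one, sub_self,
      nm_zero, zero_mul]
  | cons x l ih =>
    obtain ⟨C, hC, H⟩ := ih fun y hy => hl y (List.mem_cons_of_mem _ hy)
    have hx := hl x List.mem_cons_self
    have hb := N1_nonneg hr x.2.2.2
    refine ⟨C + ((1 + N1 r x.2.2.2) ^ 2 * C + x.2.2.1 * N1 r x.2.2.2), by positivity,
      fun l' h s s' a0 a1 b0 b1 => ?_⟩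
    have ha := abs_nonneg (s' - s)
    rcases List.suffix_cons_iff.1 h with rfl | h
    · have n1 : nm r (mat ((el ι RR).x x.1 x.2.1 (dil s' x.2.2.2)) - 1) ≤ N1 r x.2.2.2 :=
        (qw12_nm_x hr _ _ _).trans (N1_dil_le hr b0 b1 _)
      have n2 : nm r (mat ((el ι RR).x x.1 x.2.1 (dil s x.2.2.2))⁻¹ - 1) ≤ N1 r x.2.2.2 := by
        rw [← St.x_neg]
        refine (qw12_nm_x hr _ _ _).trans ?_
        rw [N1_neg]
        exact N1_dil_le hr a0 a1 _
      have n3 : nm r (mat ((el ι RR).x x.1 x.2.1 (dil s' x.2.2.2)) *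
          mat ((el ι RR).x x.1 x.2.1 (dil s x.2.2.2))⁻¹ - 1) ≤
          x.2.2.1 * |s' - s| * N1 r x.2.2.2 := by
        rw [← mat_mul, ← St.x_neg, ← St.add, ← sub_eq_add_neg]
        exact (qw12_nm_x hr _ _ _).trans (N1_dil_sub hr b0 b1 a0 a1 hx)
      have n4 := (nm_conj_le hr n1 n2).trans (mul_le_mul_of_nonneg_left
        (H l List.suffix_rfl s s' a0 a1 b0 b1) (sq_nonneg _))
      have n5 := (nm_add_le hr _ _).trans (add_le_add n4 n3)
      rw [qw12_cons, map_mul, map_mul, mapE_cpt, mapE_cpt, _root_.mul_inv_rev, ← mul_assoc,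
        mul_assoc _ (mapE (dil s') (wd l)), mat_mul, mat_mul]
      rw [Matrix.mul_sub, Matrix.sub_mul, Matrix.mul_one, sub_add_sub_cancel] at n5
      refine n5.trans ?_
      nlinarith [mul_nonneg hC ha]
    · refine (H l' h s s' a0 a1 b0 b1).trans (mul_le_mul_of_nonneg_right ?_ ha)
      exact le_add_of_nonneg_right (by positivity)

end Pool.Agent.Lib.MP_71aad1_an.SS
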