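import Pool.Agent.Lib.MP_71aad1_an.QW9
import Pool.Agent.Lib.MP_71aad1_an.QW12
import Pool.Agent.Lib.MP_71aad1_an.QDef3

set_option autoImplicit false

namespace Pool.Agent.Lib.MP_71aad1_an.SS

open Polynomial Matrix Finset Sum

/-! The grid argument. -/

variable {ι : Type} [Fintype ι] [DecidableEq ι] {r : ℝ}

theorem qw13_map (s : ℝ) (g : El ι RZ) :
    mat (mapE (dil s) g) - 1 = (mat g - 1).map (dil s) := by
  rw [mat_mapE, Matrix.map_sub _ (map_sub (dil s)), Matrix.map_one _ (map_zero _) (map_one _)]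

theorem qw13_inv (hr : 0 ≤ r) {g : El ι RR} {ε : ℝ} (h : nm r (mat g - 1) ≤ ε) (hε : ε ≤ 1 / 2) :
    nm r (mat g⁻¹ - 1) ≤ 2 * ε := nm_inv_sub_one hr (mat_mul_inv g) h hε

theorem qw13_mul (hr : 0 ≤ r) {g g' : El ι RR} {a b : ℝ} (h : nm r (mat g - 1) ≤ a)
    (h' : nm r (mat g' - 1) ≤ b) : nm r (mat (g * g') - 1) ≤ a + b + a * b :=
  nm_mul_sub_one hr h h'

/-- Induction on the list: the new quotient is `ρ' D ρ⁻¹`, of size `3 η`; its image under `dil 1`
is `κ'⁻¹ (P' P⁻¹) κ`, within `10 ε` of the identity (`nm_inv_sub_one`, `nm_mul_sub_one`,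
`nm_map_dil_one`). -/
theorem App.compare (hr : 0 ≤ r) {k : ℕ} {η ε s s' : ℝ} (hη : 0 ≤ η) (hε : ε ≤ 1 / 10)
    (hεη : 10 * ε ≤ η ^ 2)
    (LC : ∀ (W : El ι RZ) (τ : RZ), W0 r k η W (3 * η) τ → nm r (mat W - 1) ≤ η ^ 2 →
      ∃ τ', W0 r k η W η τ')
    {l : List (ι × ι × ℕ × RZ)} {h h' : El ι RZ} (H : App r k η ε s l h) (H' : App r k η ε s' l h')
    (hl : ∀ l', l' <:+ l →
      nm r (mat (mapE (dil s') (wd l') * (mapE (dil s) (wd l'))⁻¹) - 1) ≤ ε) :
    ∃ τ, W0 r k η (h' * h⁻¹) η τ := by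
  induction H generalizing h' with
  | nil =>
    cases H'
    exact ⟨0, by rw [mul_inv_cancel]; exact W0.one hη⟩
  | @cons x l h ρ τ _ hρ hκ ih =>
    cases H' with
    | @cons _ _ h' ρ' τ' H' hρ' hκ' =>
      obtain ⟨σ, hσ⟩ := ih H' fun l' h1 => hl l' (h1.trans (List.suffix_cons x l))
      have h0 : 0 ≤ ε := (nm_nonneg hr _).trans hκ
      have h1 := (hρ'.mul hσ).mul hρ.inv
      have e1 : ρ' * (h' * h⁻¹) * ρ⁻¹ = ρ' * h' * (ρ * h)⁻¹ := by group
      have e2 : η + η + η = 3 * η := by ring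
      rw [e1, e2] at h1
      refine LC _ _ h1 ?_
      have h2 := qw13_mul hr (qw13_mul hr (qw13_inv hr hκ' (by linarith)) (hl _ List.suffix_rfl)) hκ
      have e3 : (mapE (dil s') (wd (x :: l)) * (mapE (dil 1) (ρ' * h'))⁻¹)⁻¹ *
          (mapE (dil s') (wd (x :: l)) * (mapE (dil s) (wd (x :: l)))⁻¹) *
          (mapE (dil s) (wd (x :: l)) * (mapE (dil 1) (ρ * h))⁻¹) =
          mapE (dil 1) (ρ' * h' * (ρ * h)⁻¹) := by
        rw [map_mul _ (ρ' * h'), map_inv]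
        group
      rw [e3, qw13_map, nm_map_dil_one] at h2
      nlinarith [mul_nonneg h0 h0]

/-- Take `η' ≤ min η 1` from `local_contraction`, `ε = min (min c (c η')) (η' ^ 2 / 10)`. For
`Z = wd l` choose `n` with `C / n ≤ ε` (`wd_lipschitz`), approximations `h j` at `s = j / n` with
`h 0 = 1`, `h n = Z`, and show by induction that `h j` has size `η'`: `h (j + 1) = D * h j` has size
`2 η'` and its image under `dil 1` is `κ⁻¹ * dil s Z` (`nm_map_dil_le`). -/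
theorem finalStmt : FinalStmt := by
  intro ι _ _ T r hr hr' η hη
  obtain ⟨η', h0, h1, k₀, LC⟩ := local_contraction T hr hr' (lt_min hη one_pos)
  obtain ⟨c, hc, hA⟩ := App.exists T hr hr'
  have h2 : η' ≤ 1 := h1.trans (min_le_right _ _)
  obtain ⟨ε, hε, e1, e2, e3⟩ : ∃ ε : ℝ, 0 < ε ∧ ε ≤ c ∧ ε ≤ c * η' ∧ 10 * ε ≤ η' ^ 2 :=
    ⟨min (min c (c * η')) (η' ^ 2 / 10), by positivity,
      (min_le_left _ _).trans (min_le_left _ _), (min_le_left _ _).trans (min_le_right _ _),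
      by linarith [min_le_right (min c (c * η')) (η' ^ 2 / 10)]⟩
  have e4 : ε ≤ 1 / 10 := by nlinarith
  obtain ⟨k₁, hk₁⟩ := exists_pow_lt_of_lt_one (lt_min (mul_pos hc hε) h0)
    (show (1 / 2 : ℝ) < 1 by norm_num)
  refine ⟨ε, hε, max (max k₀ k₁) 1, fun k hk Z hZ hn => ?_⟩
  have k0 : k₀ ≤ k := (le_max_left _ _).trans ((le_max_left _ _).trans hk)
  have k1 : k₁ ≤ k := (le_max_right _ _).trans ((le_max_left _ _).trans hk)
  have k2 : 1 ≤ k := (le_max_right _ _).trans hk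
  have k3 : 1 / 2 ^ k ≤ min (c * ε) η' := by
    rw [← _root_.one_div_pow]
    exact (pow_le_pow_of_le_one (by norm_num) (by norm_num) k1).trans hk₁.le
  obtain ⟨l, hl, rfl⟩ := exists_wd T.three hZ
  obtain ⟨C, hC, hL⟩ := wd_lipschitz hr.le l fun x hx => (hl x hx).2
  obtain ⟨n, hn'⟩ := exists_nat_gt (C / ε)
  have n0 : (0 : ℝ) < n := lt_of_le_of_lt (by positivity) hn'
  have step : ∀ (s s' : ℝ) (h h' : El ι RZ) (τ : RZ), 0 ≤ s → s ≤ 1 → 0 ≤ s' → s' ≤ 1 →
      |s' - s| ≤ 1 / n → App r k η' ε s l h → App r k η' ε s' l h' → W0 r k η' h η' τ →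
      ∃ τ', W0 r k η' h' η' τ' := by
    intro s s' h h' τ s0 s1 s0' s1' hs H H' hW
    obtain ⟨σ, hσ⟩ := App.compare hr.le h0.le e4 e3 (LC k k0) H H' fun l' h3 => by
      refine (hL l' h3 s s' s0 s1 s0' s1').trans ((mul_le_mul_of_nonneg_left hs hC).trans ?_)
      rw [div_lt_iff₀ hε] at hn'
      rw [mul_one_div, div_le_iff₀ n0]
      linarith
    have h3 := (hσ.mul hW).mono le_rfl le_rfl (show η' + η' ≤ 3 * η' by linarith)
    rw [inv_mul_cancel_right] at h3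
    refine LC k k0 _ _ h3 ?_
    have h4 : nm r (mat (mapE (dil s') (wd l)) - 1) ≤ ε := by
      rw [qw13_map]
      exact (nm_map_dil_le hr.le s0' s1' _).trans hn
    have h5 := qw13_mul hr.le (qw13_inv hr.le (H'.near hε.le) (by linarith)) h4
    rw [_root_.mul_inv_rev, inv_inv, inv_mul_cancel_right, qw13_map, nm_map_dil_one] at h5
    nlinarith [mul_pos hε hε]
  have main : ∀ j : ℕ, j ≤ n → ∃ h τ, App r k η' ε (j / n) l h ∧ W0 r k η' h η' τ := by
    intro j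
    induction j with
    | zero =>
      intro _
      refine ⟨1, 0, ?_, W0.one h0.le⟩
      rw [Nat.cast_zero, zero_div]
      exact App.zero k2 h0.le hε.le hl
    | succ j ih =>
      intro hj
      obtain ⟨h, τ, H, hW⟩ := ih (by omega)
      have j1 : ((j + 1 : ℕ) : ℝ) / n ≤ 1 := (div_le_one n0).2 (by exact_mod_cast hj)
      have j2 : (j : ℝ) / n ≤ 1 := (div_le_one n0).2 (by exact_mod_cast (by omega : j ≤ n))
      obtain ⟨h', H'⟩ := hA k η' ε (((j + 1 : ℕ) : ℝ) / n) hε e1 e2 (k3.trans (min_le_left _ _))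
        (by positivity) j1 l hl
      obtain ⟨τ', hW'⟩ := step _ _ h h' τ (by positivity) j2 (by positivity) j1 (by
        rw [← sub_div, Nat.cast_succ, add_sub_cancel_left, abs_of_nonneg (by positivity)]) H H' hW
      exact ⟨h', τ', H', hW'⟩
  obtain ⟨h, τ, H, hW⟩ := main n le_rfl
  rw [div_self n0.ne'] at H
  obtain ⟨τ', hW'⟩ := step 1 1 h (wd l) τ zero_le_one le_rfl zero_le_one le_rfl
    (by rw [sub_self, abs_zero]; positivity) H
    (App.one hr.le hr' (k3.trans (min_le_right _ _)) hε.le hl) hW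
  exact ⟨τ', hW'.mono le_rfl h2 (h1.trans (min_le_left _ _))⟩

end Pool.Agent.Lib.MP_71aad1_an.SS
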