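import Pool.Agent.Lib.MP_71aad1_an.QW1

set_option autoImplicit false

namespace Pool.Agent.Lib.MP_71aad1_an.SS

open Polynomial Matrix Finset Sum

/-! Elementary properties of `W0`. -/

variable {ι : Type} [Fintype ι] [DecidableEq ι] {r : ℝ} {k : ℕ} {δ : ℝ}

theorem W0.nonneg (hr : 0 ≤ r) {ζ : ℝ} {W : El ι RZ} {τ : RZ} (h : W0 r k δ W ζ τ) : 0 ≤ ζ := by
  induction h with
  | one h0 => exact h0
  | snoc _ _ _ _ ih => exact add_nonneg ih (N1_nonneg hr _)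
theorem W0.mono {k' : ℕ} {δ' ζ ζ' : ℝ} {W : El ι RZ} {τ : RZ} (h : W0 r k δ W ζ τ) (hk : k' ≤ k)
    (hδ : δ ≤ δ') (hζ : ζ ≤ ζ') : W0 r k' δ' W ζ' τ := by
  induction h generalizing ζ' with
  | one h0 => exact W0.one (h0.trans hζ)
  | @snoc W γ ζ τ a b p i _ hγ hab hp ih =>
    have := W0.snoc (i := i) (ih (ζ' := ζ' - N1 r p) (by linarith)) (hγ.mono hδ) hab
      ((pow_dvd_pow X hk).trans hp)
    rwa [sub_add_cancel] at this
theorem W0.z (hδ : 0 ≤ δ) {a b : ι} (h : a ≠ b) {p : RZ} (hp : X ^ k ∣ p) (i : Fin 6) :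
    W0 r k δ ((el ι RZ).z a b p (al gR X i)) (N1 r p) (if i = 5 then p else 0) := by
  have := W0.snoc (r := r) (i := i) (W0.one le_rfl) (Lt.one hδ) h hp
  rwa [one_mul, one_mul, inv_one, mul_one, zero_add, zero_add] at this
/-- Also for `a = b`, where the letter is trivial. -/
theorem W0.x (hr : 0 ≤ r) (hδ : 0 ≤ δ) (a b : ι) {p : RZ} (hp : X ^ k ∣ p) :
    W0 r k δ ((el ι RZ).x a b p) (N1 r p) 0 := by
  by_cases h : a = b
  · rw [h, St.diag]
    exact W0.one (N1_nonneg hr p)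
  · have := W0.z (r := r) hδ h hp 0
    rwa [if_neg (by decide), show al gR X 0 = 0 from rfl, St.z_zero_right] at this
theorem W0.mul {ζ ζ' : ℝ} {W W' : El ι RZ} {τ τ' : RZ} (h : W0 r k δ W ζ τ) (h' : W0 r k δ W' ζ' τ') :
    W0 r k δ (W * W') (ζ + ζ') (τ + τ') := by
  induction h' with
  | one h0 =>
    rw [mul_one, add_zero]
    exact h.mono le_rfl le_rfl (le_add_of_nonneg_right h0)
  | snoc _ hγ hab hp ih =>
    rw [← mul_assoc, ← add_assoc, ← add_assoc]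
    exact W0.snoc ih hγ hab hp
theorem W0.inv {ζ : ℝ} {W : El ι RZ} {τ : RZ} (h : W0 r k δ W ζ τ) : W0 r k δ W⁻¹ ζ (-τ) := by
  induction h with
  | one h0 =>
    rw [inv_one, neg_zero]
    exact W0.one h0
  | @snoc W γ ζ τ a b p i _ hγ hab hp ih =>
    have := (W0.snoc (i := i) (W0.one le_rfl) hγ hab (dvd_neg.2 hp)).mul ih
    rw [St.z_neg, N1_neg] at this
    convert this using 1
    · group
    · ring
    · split_ifs <;> ring
theorem W0.conj {ζ δ' : ℝ} {W γ : El ι RZ} {τ : RZ} (h : W0 r k δ W ζ τ) (hγ : Lt r γ δ') :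
    W0 r k (δ' + δ) (γ * W * γ⁻¹) ζ τ := by
  induction h with
  | one h0 =>
    rw [mul_one, mul_inv_cancel]
    exact W0.one h0
  | @snoc W γ' ζ τ a b p i _ hγ' hab hp ih =>
    have := W0.snoc (i := i) ih (hγ.mul hγ') hab hp
    convert this using 1
    group
theorem W0.list_prod {σ : Type} (l : List σ) {F : σ → El ι RZ} {f : σ → ℝ}
    (h : ∀ x ∈ l, ∃ τ, W0 r k δ (F x) (f x) τ) : ∃ τ, W0 r k δ (l.map F).prod (l.map f).sum τ := by
  induction l with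
  | nil => exact ⟨0, W0.one le_rfl⟩
  | cons x l ih =>
    obtain ⟨τ, h1⟩ := h x List.mem_cons_self
    obtain ⟨τ', h2⟩ := ih fun y hy => h y (List.mem_cons_of_mem _ hy)
    exact ⟨τ + τ', h1.mul h2⟩
theorem W0.tau (hr : 0 ≤ r) {ζ : ℝ} {W : El ι RZ} {τ : RZ} (h : W0 r k δ W ζ τ) :
    X ^ k ∣ τ ∧ N1 r τ ≤ ζ := by
  induction h with
  | one h0 => exact ⟨dvd_zero _, N1_zero.trans_le h0⟩
  | @snoc W γ ζ τ a b p i _ hγ hab hp ih =>
    split_ifs
    · exact ⟨dvd_add ih.1 hp, (N1_add_le hr _ _).trans (by linarith [ih.2])⟩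
    · rw [add_zero]
      exact ⟨ih.1, ih.2.trans (le_add_of_nonneg_right (N1_nonneg hr p))⟩
/-- `γ * z a b p α * γ⁻¹` is the conjugate of `x a b p` by `γ * x b a α`; `Lt.bd`, `N1_al`. -/
theorem W0.toWB (hr : 0 ≤ r) (hr' : r ≤ 1 / 2) {ζ : ℝ} {W : El ι RZ} {τ : RZ} (h : W0 r k δ W ζ τ) :
    WB r k (2 * Real.exp δ) W ζ := by
  induction h with
  | one h0 => exact WB.one h0
  | @snoc W γ ζ τ a b p i _ hγ hab hp ih =>
    have h1 := ((hγ.bd hr).mul hr ((Bd.x hr b a (al gR X i)).mono (N1_al hr hr' i))).mono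
      (B' := 2 * Real.exp δ) (by linarith)
    have := WB.snoc (a := a) (b := b) ih h1 hp
    convert this using 1
    rw [St.z, St.x_neg]
    group
theorem W0.cong {ζ : ℝ} {W : El ι RZ} {τ : RZ} (h : W0 r k δ W ζ τ) : MCong (tI k) (mat W) := by
  induction h with
  | one h0 => exact MCong.one _
  | snoc _ hγ hab hp ih =>
    exact ih.mul ((MCong.Zs ((el ι RZ).z_mem _ _ (mem_tI.2 hp) _)).conj _)

omit [DecidableEq ι] in
theorem qw2_add (hr : 0 ≤ r) (v w : ι → RZ) :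
    ∑ j, N1 r ((v + w) j) ≤ ∑ j, N1 r (v j) + ∑ j, N1 r (w j) := by
  rw [← Finset.sum_add_distrib]
  exact Finset.sum_le_sum fun j _ => N1_add_le hr _ _

theorem qw2_single (a : ι) (p : RZ) : ∑ j, N1 r ((Pi.single a p : ι → RZ) j) = N1 r p := by
  rw [Finset.sum_eq_single a, Pi.single_eq_same]
  · intro j _ hj
    rw [Pi.single_eq_of_ne hj, N1_zero]
  · exact fun h => absurd (mem_univ a) h

theorem qw2_mulVec (hr : 0 ≤ r) {G : Matrix ι ι RZ} {B : ℝ} (h : nm r (G - 1) ≤ B) (v : ι → RZ) :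
    ∑ j, N1 r ((G *ᵥ v) j) ≤ (1 + B) * ∑ j, N1 r (v j) := by
  have e : G *ᵥ v = v + (G - 1) *ᵥ v := by rw [sub_mulVec, one_mulVec, add_sub_cancel]
  have h0 : 0 ≤ ∑ j, N1 r (v j) := Finset.sum_nonneg fun j _ => N1_nonneg hr _
  have h1 : ∑ j, N1 r (((G - 1) *ᵥ v) j) ≤ nm r (G - 1) * ∑ j, N1 r (v j) := by
    rw [nm, Finset.sum_mul]
    refine Finset.sum_le_sum fun j _ => (N1_sum_le hr _ _).trans ?_
    rw [Finset.sum_mul]
    refine Finset.sum_le_sum fun x _ => (N1_mul_le hr _ _).trans ?_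
    exact mul_le_mul_of_nonneg_left
      (Finset.single_le_sum (f := fun j => N1 r (v j)) (fun j _ => N1_nonneg hr _) (mem_univ x))
      (N1_nonneg hr _)
  rw [e]
  refine (qw2_add hr _ _).trans ?_
  have := mul_le_mul_of_nonneg_right h h0
  linarith

theorem qw2_vecMul (hr : 0 ≤ r) {G : Matrix ι ι RZ} {B : ℝ} (h : nm r (G - 1) ≤ B) (v : ι → RZ) :
    ∑ j, N1 r ((v ᵥ* G) j) ≤ (1 + B) * ∑ j, N1 r (v j) := by
  rw [← mulVec_transpose]
  refine qw2_mulVec hr (le_of_eq_of_le ?_ h) v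
  rw [nm, nm, Finset.sum_comm, ← transpose_one (n := ι), ← transpose_sub, transpose_one]
  rfl

/-- Each generator is `1 + v wᵀ` with `v = mat γ *ᵥ (p • (e_a + α e_b))` and
`w = (e_b - α e_a) ᵥ* mat γ⁻¹` (`mat_z`); `nm (mat γ - 1) ≤ e - 1 ≤ 2`. -/
theorem W0.transv (hr : 0 ≤ r) (hr' : r ≤ 1 / 2) (hδ : δ ≤ 1) {ζ : ℝ} {W : El ι RZ} {τ : RZ}
    (h : W0 r k δ W ζ τ) : ∃ l : List (El ι RZ × (ι → RZ) × (ι → RZ)),
      W = (l.map Prod.fst).prod ∧
      (∀ x ∈ l, mat x.1 = 1 + vecMulVec x.2.1 x.2.2 ∧ x.2.2 ⬝ᵥ x.2.1 = 0 ∧ (∀ i, X ^ k ∣ x.2.1 i) ∧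
        ∑ i, N1 r (x.2.2 i) ≤ 6) ∧
      (l.map fun x => ∑ i, N1 r (x.2.1 i)).sum ≤ 6 * ζ := by
  induction h with
  | one h0 => exact ⟨[], rfl, by simp, by simpa using h0⟩
  | @snoc W γ ζ τ a b p i _ hγ hab hp ih =>
    obtain ⟨l, h1, h2, h3⟩ := ih
    have hb : Bd r 2 γ := (hγ.bd hr).mono (by
      have := exp_sub_one_le (hγ.nonneg hr) hδ
      linarith)
    have hα := N1_al hr hr' i
    set α : RZ := al gR X i
    have hp0 := N1_nonneg hr p
    have e1 : ∑ j, N1 r ((p • (Pi.single a 1 + Pi.single b α : ι → RZ)) j) ≤ 2 * N1 r p := by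
      rw [smul_add, ← Pi.single_smul, ← Pi.single_smul]
      refine (qw2_add hr _ _).trans ?_
      rw [qw2_single, qw2_single, smul_eq_mul, smul_eq_mul, mul_one]
      have := N1_mul_le hr p α
      nlinarith
    have e2 : ∑ j, N1 r ((Pi.single b 1 - Pi.single a α : ι → RZ) j) ≤ 2 := by
      rw [sub_eq_add_neg, ← Pi.single_neg]
      refine (qw2_add hr _ _).trans ?_
      rw [qw2_single, qw2_single, N1_neg, N1_one]
      linarith
    refine ⟨l ++ [(γ * (el ι RZ).z a b p α * γ⁻¹,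
      mat γ *ᵥ (p • (Pi.single a 1 + Pi.single b α : ι → RZ)),
      (Pi.single b 1 - Pi.single a α : ι → RZ) ᵥ* mat γ⁻¹)], by simp [h1], fun x hx => ?_, ?_⟩
    · rcases List.mem_append.1 hx with hx | hx
      · exact h2 x hx
      obtain rfl := List.mem_singleton.1 hx
      refine ⟨?_, ?_, fun j => ?_, ?_⟩
      · rw [mat_mul, mat_mul, mat_z hab, mul_add, add_mul, mul_one, mat_mul_inv, mul_vecMulVec,
          vecMulVec_mul]
      · rw [dotProduct_mulVec, vecMul_vecMul, mat_inv_mul, vecMul_one]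
        simp [hab, Ne.symm hab]
        ring
      · rw [mulVec_smul]
        exact hp.mul_right _
      · exact (qw2_vecMul hr hb.2 _).trans (by linarith)
    · have := qw2_mulVec hr hb.1 (p • (Pi.single a 1 + Pi.single b α : ι → RZ))
      rw [List.map_append, List.sum_append, List.map_singleton, List.sum_singleton]
      linarith

theorem qw2_fr (hr : 0 ≤ r) (hr' : r ≤ 1 / 2) (hδ : 0 ≤ δ) {a b : ι} (h : a ≠ b) {p : RZ} {ε : ℝ}
    (hp : X ^ k ∣ p) (hε : N1 r p ≤ ε) (i : Fin 6) :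
    ∃ τ, W0 r k δ ((el ι RZ).fr a b p (al gR X i)) (3 * ε) τ := by
  refine ⟨_, (((W0.z hδ h hp i).mul (W0.x hr hδ a b (dvd_neg.2 hp))).mul
    (W0.x hr hδ b a (hp.mul_left (al gR X i ^ 2)))).mono le_rfl le_rfl ?_⟩
  have h1 := N1_mul_le hr (al gR X i ^ 2) p
  have h2 := (N1_pow_le hr (al gR X i) 2).trans
    (pow_le_one₀ (N1_nonneg hr _) (N1_al hr hr' i))
  have h3 := mul_le_mul_of_nonneg_right h2 (N1_nonneg hr p)
  rw [N1_neg]
  linarith

theorem qw2_sg (hr : 0 ≤ r) (hr' : r ≤ 1 / 2) (hδ : 0 ≤ δ) {a b : ι} (h : a ≠ b) {p : RZ} {ε : ℝ}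
    (hp : X ^ k ∣ p) (hε : N1 r p ≤ ε) (i : Fin 6) :
    ∃ τ, W0 r k δ ((el ι RZ).sg a b p (al gR X i)) (6 * ε) τ := by
  obtain ⟨τ, h1⟩ := qw2_fr hr hr' hδ h hp hε i
  obtain ⟨τ', h2⟩ := qw2_fr hr hr' hδ h (hp.mul_right (al gR X i)) (ε := ε) (by
    have h1 := N1_mul_le hr p (al gR X i)
    have h3 := mul_le_mul_of_nonneg_left (N1_al hr hr' i) (N1_nonneg hr p)
    linarith) 1
  exact ⟨_, (h1.mul h2.inv).mono le_rfl le_rfl (by linarith)⟩

/-- Write out `nf2`: letters, `fr a i0 p 1` (three generators), `sg` (six generators);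
the diagonal letters and `fr i0 i0` are trivial. -/
theorem nf2_W0 (T : Tri ι) (hr : 0 ≤ r) (hr' : r ≤ 1 / 2) (hδ : 0 ≤ δ) {ε : ℝ} {P : ι × ι → RZ}
    {s : ι → RZ} {τ γ : RZ} (hP : ∀ a b, a ≠ b → X ^ k ∣ P (a, b) ∧ N1 r (P (a, b)) ≤ ε)
    (hs : ∀ a, a ≠ T.i0 → X ^ k ∣ s a ∧ N1 r (s a) ≤ ε) (hτ : X ^ k ∣ τ ∧ N1 r τ ≤ ε)
    (hγ : X ^ k ∣ γ ∧ N1 r γ ≤ ε) : ∃ τ', W0 r k δ ((el ι RZ).nf2 T gR X P s τ γ)
      (((Fintype.card ι : ℝ) ^ 2 + 3 * Fintype.card ι + 12) * ε) τ' := by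
  have hε : 0 ≤ ε := (N1_nonneg hr τ).trans hτ.2
  obtain ⟨τ1, h1⟩ := W0.list_prod (r := r) (k := k) (δ := δ) (univ : Finset (ι × ι)).toList
    (F := fun ab => (el ι RZ).x ab.1 ab.2 (P ab)) (f := fun _ => ε) fun ab _ => by
      obtain ⟨a, b⟩ := ab
      by_cases hab : a = b
      · refine ⟨0, ?_⟩
        simp only [hab, St.diag]
        exact W0.one hε
      · exact ⟨0, (W0.x hr hδ a b (hP a b hab).1).mono le_rfl le_rfl (hP a b hab).2⟩
  obtain ⟨τ2, h2⟩ := W0.list_prod (r := r) (k := k) (δ := δ) (univ : Finset ι).toList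
    (F := fun a => (el ι RZ).fr a T.i0 (s a) 1) (f := fun _ => 3 * ε) fun a _ => by
      by_cases ha : a = T.i0
      · refine ⟨0, ?_⟩
        simp only [ha, St.fr_diag]
        exact W0.one (by linarith)
      · exact qw2_fr hr hr' hδ ha (hs a ha).1 (hs a ha).2 1
  obtain ⟨τ3, h3⟩ := qw2_sg hr hr' hδ T.h01 hτ.1 hτ.2 5
  obtain ⟨τ4, h4⟩ := qw2_sg hr hr' hδ T.h01 hγ.1 hγ.2 3
  refine ⟨_, (((h1.mul h2).mul h3).mul h4).mono le_rfl le_rfl (le_of_eq ?_)⟩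
  simp only [List.map_const', List.sum_replicate, Finset.length_toList, Finset.card_univ,
    Fintype.card_prod, nsmul_eq_mul, Nat.cast_mul]
  ring

/-- `Bd.x`, `Bd.conj`, `Bd.mul_exp` along the list of slots. -/
theorem nf1_bd (hr : 0 ≤ r) (hr' : r ≤ 1 / 2) {P : ι × ι × Fin 6 → RZ} {ζ : ℝ}
    (h : ∑ s, N1 r (P s) ≤ ζ) : Bd r (Real.exp (4 * ζ) - 1) ((el ι RZ).nf1 gR X P) := by
  have key : ∀ l : List (ι × ι × Fin 6), Bd r (Real.exp (4 * (l.map fun s => N1 r (P s)).sum) - 1)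
      (prodL l (fun s p => (el ι RZ).z s.1 s.2.1 p (al gR X s.2.2)) P) := by
    intro l
    induction l with
    | nil => exact Bd.one (by simp)
    | cons s l ih =>
      have h1 := ((Bd.x hr s.2.1 s.1 (al gR X s.2.2)).mono (N1_al hr hr' _)).conj hr
        (Bd.x hr s.1 s.2.1 (P s))
      rw [← St.x_neg] at h1
      refine (h1.mul hr ih).mono ?_
      rw [List.map_cons, List.sum_cons, mul_add, Real.exp_add]
      have h2 := Real.add_one_le_exp (4 * N1 r (P s))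
      have h3 := Real.exp_pos (4 * (l.map fun s => N1 r (P s)).sum)
      nlinarith
  refine (key _).mono ?_
  rw [Finset.sum_map_toList]
  have := Real.exp_le_exp.2 (mul_le_mul_of_nonneg_left h (by norm_num : (0 : ℝ) ≤ 4))
  linarith

end Pool.Agent.Lib.MP_71aad1_an.SS
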