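import Pool.Agent.Lib.MP_71aad1_an.QW2

set_option autoImplicit false

namespace Pool.Agent.Lib.MP_71aad1_an.SS

open Polynomial Matrix Finset Sum

/-! Commutators `y a b p q` as small products of standard generators. -/

variable {ι : Type} [Fintype ι] [DecidableEq ι] {r : ℝ}

theorem qw3_x (hr : 0 ≤ r) (hr' : r ≤ 1 / 4) {k d : ℕ} {δ : ℝ} (hδ : 0 ≤ δ) {m : RZ} (hm : UM d m)
    (hk : k ≤ d) (a b : ι) : W0 r k δ ((el ι RZ).x a b m) (N1 r (X ^ k : RZ)) 0 :=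
  (W0.x hr hδ a b ((pow_dvd_pow X hk).trans hm.dvd)).mono le_rfl le_rfl
    (hm.N1.le.trans (N1_X_pow_anti hr (by linarith) hk))

theorem qw3_y (hr : 0 ≤ r) (hr' : r ≤ 1 / 4) {k d : ℕ} {δ : ℝ} (hδ : 0 ≤ δ) {m : RZ} (hm : UM d m)
    (hk : k ≤ d) {a b : ι} (hab : a ≠ b) (i : Fin 6) :
    W0 r k δ ((el ι RZ).y a b m (al gR X i)) (N1 r (X ^ k : RZ) + N1 r (X ^ k : RZ))
      (if i = 5 then -m else 0) := by
  rw [St.y_eq]
  have h := (qw3_x hr hr' hδ hm hk a b).mul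
    ((W0.z hδ hab ((pow_dvd_pow X hk).trans hm.neg.dvd) i).mono le_rfl le_rfl
      (hm.neg.N1.le.trans (N1_X_pow_anti hr (by linarith) hk)))
  rwa [zero_add] at h

/-- Induction on `j`, for all `i`, `m`, `m'`, `a`, `b`. For `j = 0` use `y_eq` and `UM.zero_al`.
For `j + 1` write `m' = -(β * X)` and apply `St.R1peel` with `q = X` and a third index. The bracket
is conjugated by the letter `x a b (m * X)` of size at most `N1 m / 2`; the six new factors
(seven generators) have degree at least `i + j`, so size at most `N1 (X ^ (i + j))` each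
(`N1_X_pow_anti`); `(y b c (β m) X)⁻¹` contributes the symbol `β m`. -/
theorem ypp (hT : Three ι) (hr : 0 ≤ r) (hr' : r ≤ 1 / 4) (j : ℕ) {i : ℕ} (hi : 2 ≤ i) {m m' : RZ}
    (hm : UM i m) (hm' : UM j m') {a b : ι} (hab : a ≠ b) :
    ∃ τ, X * τ = -((j : RZ) * (m * m')) ∧ W0 r (i + j - 1) (N1 r m) ((el ι RZ).y a b m m')
      (7 * ((j : ℝ) + 1) * N1 r (X ^ (i + j - 1) : RZ)) τ := by
  induction j generalizing i m m' a b with
  | zero =>
    obtain ⟨i0, hi0, rfl⟩ := hm'.zero_al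
    have h := qw3_y hr hr' (k := i + 0 - 1) (N1_nonneg hr m) hm (by omega) hab i0
    rw [if_neg hi0] at h
    refine ⟨0, by simp, h.mono le_rfl le_rfl ?_⟩
    have := N1_nonneg hr (X ^ (i + 0 - 1) : RZ)
    push_cast
    linarith
  | succ j ih =>
    obtain ⟨β', hβ', rfl⟩ := hm'.split
    obtain ⟨c, hca, hcb⟩ := hT a b
    have hβ : UM j (-β') := hβ'.neg
    have e : β' * X ^ 1 = -(-β' * X) := by ring
    generalize -β' = β at hβ e
    rw [e, St.R1peel _ hca.symm hcb hab]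
    have hX : UM 1 (X : RZ) := by simpa using UM.X_pow 1
    have hk : i + (j + 1) - 1 = i + j := by omega
    have hk' : i + 1 + j - 1 = i + j := by omega
    rw [hk]
    have hmX : UM (i + 1) (m * X) := hm.mul hX
    have hδ := N1_nonneg hr (m * X)
    obtain ⟨τ₁, hτ₁, h1⟩ := ih (i := i + 1) (by omega) hmX.neg hβ hca.symm
    rw [hk', N1_neg] at h1
    have h2 := qw3_x hr hr' (k := i + j) hδ ((((hβ.mul hβ).mul hm).mul hX).mul hX) (by omega) b a
    have h3 := qw3_x hr hr' (k := i + j) hδ (((hβ.mul hβ).mul hm).mul hX) (by omega) c a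
    have h4 := (qw3_y hr hr' (k := i + j) hδ (hβ.mul hm) (by omega) hcb 5).inv
    have h5 := qw3_x hr hr' (k := i + j) hδ (hβ.mul hm) (by omega) c b
    have h6 := qw3_x hr hr' (k := i + j) hδ (((hβ.mul hm).mul hX).mul hX) (by omega) b c
    have h0 := qw3_x hr hr' (k := i + j) (N1_nonneg hr m) (hβ.mul hm).neg (by omega) c b
    have hL : Lt r ((el ι RZ).x a c (m * X)) (N1 r (m * X)) :=
      Lt.x a c ((pow_dvd_pow X (by omega)).trans hmX.dvd)
    have hhalf : N1 r (m * X) + N1 r (m * X) ≤ N1 r m := by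
      rw [hmX.N1, hm.N1, N1_X_pow, N1_X_pow, pow_succ]
      have h7 : 0 ≤ r ^ i := pow_nonneg hr i
      have h8 : (0 : ℝ) ≤ i := Nat.cast_nonneg i
      have h9 : 2 * (((i : ℝ) + 1 + 1) * r) ≤ i + 1 := by nlinarith
      push_cast
      nlinarith [mul_le_mul_of_nonneg_right h9 h7]
    have h := h0.mul (((((((h1.mul h2).mul h3).mul h4).mul h5).mul h6).conj hL).mono le_rfl hhalf
      le_rfl)
    refine ⟨_, ?_, h.mono le_rfl le_rfl (le_of_eq ?_)⟩
    · rw [if_pos rfl]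
      push_cast
      linear_combination hτ₁
    · push_cast
      ring

theorem qw3_mon (hT : Three ι) (hr : 0 < r) (hr' : r ≤ 1 / 4) {i j : ℕ} (hi : 2 ≤ i) (hji : j ≤ i)
    (hj : 1 ≤ j) {m m' : RZ} (hm : UM i m) (hm' : UM j m') {a b : ι} (hab : a ≠ b) :
    ∃ τ, W0 r (i + j - 1) (N1 r m + N1 r m') ((el ι RZ).y a b m m')
      (14 / r * (N1 r m * N1 r m')) τ := by
  obtain ⟨τ, -, h⟩ := ypp hT hr.le hr' j hi hm hm' hab
  refine ⟨τ, h.mono le_rfl (le_add_of_nonneg_right (N1_nonneg hr.le _)) ?_⟩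
  obtain ⟨j, rfl⟩ : ∃ j', j = j' + 1 := ⟨j - 1, by omega⟩
  have hk : i + (j + 1) - 1 = i + j := by omega
  rw [hk, hm.N1, hm'.N1, N1_X_pow, N1_X_pow, N1_X_pow]
  have h1 : ((j : ℝ) + 1) ≤ i := by exact_mod_cast hji
  have h2 : 0 ≤ ((j : ℝ) + 1 + 1) * r ^ (i + j) := by positivity
  have e : 14 / r * (((i : ℝ) + 1) * r ^ i * ((((j + 1 : ℕ) : ℝ) + 1) * r ^ (j + 1))) =
      14 * ((i : ℝ) + 1) * (((j : ℝ) + 1 + 1) * r ^ (i + j)) := by
    push_cast
    field_simp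
    ring
  rw [e]
  push_cast
  nlinarith [mul_le_mul_of_nonneg_right h1 h2]

theorem qw3_mon' (hT : Three ι) (hr : 0 < r) (hr' : r ≤ 1 / 4) {i j : ℕ} (hi : 2 ≤ i) (hj : 2 ≤ j)
    {m m' : RZ} (hm : UM i m) (hm' : UM j m') {a b : ι} (hab : a ≠ b) :
    ∃ τ, W0 r (i + j - 1) (N1 r m + N1 r m') ((el ι RZ).y a b m m')
      (14 / r * (N1 r m * N1 r m')) τ := by
  rcases le_total j i with h | h
  · exact qw3_mon hT hr hr' hi h (by omega) hm hm' hab
  · obtain ⟨τ, hτ⟩ := qw3_mon hT hr hr' hj h (by omega) hm' hm hab.symm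
    have h1 := hτ.inv
    rw [St.y_inv, add_comm j i, add_comm (N1 r m'), mul_comm (N1 r m')] at h1
    exact ⟨_, h1⟩

theorem qw3_sum (hr : 0 ≤ r) {k : ℕ} (hk : 2 ≤ k) (l : List (ℕ × RZ))
    (hl : ∀ x ∈ l, k ≤ x.1 ∧ UM x.1 x.2) : X ^ 2 ∣ (l.map Prod.snd).sum ∧
      N1 r (l.map Prod.snd).sum ≤ (l.map fun x => N1 r x.2).sum := by
  induction l with
  | nil => simp [N1_zero]
  | cons x l ih =>
    have h1 := ih fun y hy => hl y (List.mem_cons_of_mem _ hy)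
    have h2 := hl x List.mem_cons_self
    simp only [List.map_cons, List.sum_cons]
    exact ⟨dvd_add ((pow_dvd_pow X (hk.trans h2.1)).trans h2.2.dvd) h1.1,
      (N1_add_le hr _ _).trans (by linarith [h1.2])⟩

theorem qw3_list {k : ℕ} {p : RZ} (h : X ^ k ∣ p) :
    ∃ l : List (ℕ × RZ), (∀ x ∈ l, k ≤ x.1 ∧ UM x.1 x.2) ∧ (l.map Prod.snd).sum = p ∧
      (l.map fun x => N1 r x.2).sum = N1 r p := by
  obtain ⟨l, h1, h2, h3⟩ := exists_UM_list h
  refine ⟨l, h1, h2, ?_⟩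
  rw [N1, ← h3]
  congr 1
  exact List.map_congr_left fun x hx => (h1 x hx).2.nw _

theorem qw3_right (hT : Three ι) (hr : 0 < r) (hr' : r ≤ 1 / 4) {i k : ℕ} (hi : 2 ≤ i) (hk : 2 ≤ k)
    {m : RZ} (hm : UM i m) {a b : ι} (hab : a ≠ b) (l : List (ℕ × RZ))
    (hl : ∀ x ∈ l, k ≤ x.1 ∧ UM x.1 x.2) :
    ∃ τ, W0 r (i + k - 1) (N1 r m + (l.map fun x => N1 r x.2).sum)
      ((el ι RZ).y a b m (l.map Prod.snd).sum)
      (14 / r * (N1 r m * (l.map fun x => N1 r x.2).sum)) τ := by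
  induction l with
  | nil =>
    simp only [List.map_nil, List.sum_nil, St.y_zero_right, mul_zero]
    exact ⟨0, W0.one le_rfl⟩
  | cons x l ih =>
    have hl' : ∀ y ∈ l, k ≤ y.1 ∧ UM y.1 y.2 := fun y hy => hl y (List.mem_cons_of_mem _ hy)
    obtain ⟨τ₁, h1⟩ := ih hl'
    have h2 := hl x List.mem_cons_self
    obtain ⟨τ₂, h3⟩ := qw3_mon' hT hr hr' hi (hk.trans h2.1) hm h2.2 hab
    obtain ⟨h4, h5⟩ := qw3_sum hr.le hk l hl'
    have h6 := N1_nonneg hr.le x.2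
    simp only [List.map_cons, List.sum_cons]
    rw [add_comm x.2, St.y_add_right]
    refine ⟨_, ((h1.mono le_rfl (by linarith) le_rfl).mul ((h3.conj (Lt.x b a h4)).mono
      (by omega) (by linarith) le_rfl)).mono le_rfl le_rfl (le_of_eq ?_)⟩
    ring

/-- For unit monomials of degrees `i`, `j` peel the one of lower degree (`ypp`, `y_inv`,
`W0.inv`): for `j ≤ i`, `(j + 1) (i + j) r ^ (i + j - 1) ≤ (2 / r) N1 m N1 m'`. Then split `p`, and
`q`, with `exists_UM_list` and use `y_add_left`, `y_add_right` (induct on the lists so that the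
conjugating letter is the sum of a part of the list, of norm at most `N1 p`, resp. `N1 q`). -/
theorem yp (hT : Three ι) (hr : 0 < r) (hr' : r ≤ 1 / 4) {k₁ k₂ : ℕ} (h₁ : 2 ≤ k₁) (h₂ : 2 ≤ k₂)
    {p q : RZ} (hp : X ^ k₁ ∣ p) (hq : X ^ k₂ ∣ q) (a b : ι) :
    ∃ τ, W0 r (k₁ + k₂ - 1) (2 * (N1 r p + N1 r q)) ((el ι RZ).y a b p q)
      (14 / r * (N1 r p * N1 r q)) τ := by
  have hp0 := N1_nonneg hr.le p
  have hq0 := N1_nonneg hr.le q
  by_cases hab : a = b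
  · subst hab
    rw [St.y_diag]
    exact ⟨0, W0.one (by positivity)⟩
  obtain ⟨l, hl, rfl, el1⟩ := qw3_list (r := r) hp
  obtain ⟨l', hl', e2, el2⟩ := qw3_list (r := r) hq
  have key : ∀ l : List (ℕ × RZ), (∀ x ∈ l, k₁ ≤ x.1 ∧ UM x.1 x.2) →
      ∃ τ, W0 r (k₁ + k₂ - 1) ((l.map fun x => N1 r x.2).sum + N1 r q)
        ((el ι RZ).y a b (l.map Prod.snd).sum q)
        (14 / r * ((l.map fun x => N1 r x.2).sum * N1 r q)) τ := by
    intro l hl
    induction l with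
    | nil =>
      simp only [List.map_nil, List.sum_nil, St.y_zero_left, zero_mul, mul_zero]
      exact ⟨0, W0.one le_rfl⟩
    | cons x l ih =>
      have hl0 : ∀ y ∈ l, k₁ ≤ y.1 ∧ UM y.1 y.2 := fun y hy => hl y (List.mem_cons_of_mem _ hy)
      obtain ⟨τ₁, h1⟩ := ih hl0
      have h2 := hl x List.mem_cons_self
      obtain ⟨τ₂, h3⟩ := qw3_right hT hr hr' (h₁.trans h2.1) h₂ h2.2 hab l' hl'
      rw [e2, el2] at h3
      obtain ⟨h4, h5⟩ := qw3_sum hr.le h₁ l hl0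
      have h6 := N1_nonneg hr.le x.2
      simp only [List.map_cons, List.sum_cons]
      rw [add_comm x.2, St.y_add_left]
      refine ⟨_, (((h3.conj (Lt.x a b h4)).mono (by omega) (by linarith) le_rfl).mul
        (h1.mono le_rfl (by linarith) le_rfl)).mono le_rfl le_rfl (le_of_eq ?_)⟩
      ring
  obtain ⟨τ, h⟩ := key l hl
  rw [el1] at h
  exact ⟨τ, h.mono le_rfl (by linarith) le_rfl⟩

end Pool.Agent.Lib.MP_71aad1_an.SS
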