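import Pool.Agent.Lib.MP_71aad1_an.QW3

set_option autoImplicit false

namespace Pool.Agent.Lib.MP_71aad1_an.SS

open Polynomial Matrix Finset Sum

/-! Trivial words with a prescribed symbol. -/

variable {ι : Type} [Fintype ι] [DecidableEq ι] {r : ℝ}

/-- `y i0 i1 (t ^ j₀) m₁ * y i1 i0 m₁ (t ^ j₀) = 1` (`y_inv`) with `m₁ t ^ j₀ = -(m t)`; apply `ypp`
to both factors and cancel `X` in the symbol. -/
theorem null_mono (T : Tri ι) (hr : 0 ≤ r) (hr' : r ≤ 1 / 4) {k j₀ j : ℕ} {δ : ℝ} (h₀ : 2 ≤ j₀)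
    (h₁ : j₀ + 1 ≤ k) (hj : k ≤ j) (hδ : N1 r (X ^ j₀ : RZ) ≤ δ)
    (hδ' : N1 r (X ^ (k + 1 - j₀) : RZ) ≤ δ) {m : RZ} (hm : UM j m) :
    W0 r k δ (1 : El ι RZ) (21 * (((j : ℝ) + 1) * N1 r (X ^ j : RZ))) (((j : RZ) + 1) * m) := by
  obtain ⟨j₁, e⟩ : ∃ j₁, j + 1 = j₁ + j₀ := ⟨j + 1 - j₀, by omega⟩
  have hX : UM 1 (X : RZ) := by simpa using UM.X_pow 1
  have h1 : UM (j₁ + j₀) (-(m * X)) := e ▸ (hm.mul hX).neg
  obtain ⟨m₁, u1, e1⟩ := h1.split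
  obtain ⟨τ₁, t1, w1⟩ := ypp T.three hr hr' j₁ h₀ (UM.X_pow j₀) u1 T.h01
  obtain ⟨τ₂, t2, w2⟩ := ypp T.three hr hr' j₀ (i := j₁) (by omega) u1 (UM.X_pow j₀) T.h01.symm
  rw [show j₀ + j₁ - 1 = j by omega] at w1
  rw [show j₁ + j₀ - 1 = j by omega] at w2
  have d1 : N1 r m₁ ≤ δ := by
    rw [u1.N1]
    exact (N1_X_pow_anti hr (by linarith) (by omega)).trans hδ'
  have w := (w1.mono hj hδ le_rfl).mul (w2.mono hj d1 le_rfl)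
  rw [← (el ι RZ).y_inv T.i0 T.i1 (X ^ j₀) m₁, mul_inv_cancel] at w
  have e2 : ((j : RZ) + 1) = j₁ + j₀ := by exact_mod_cast congrArg (Nat.cast : ℕ → RZ) e
  have e3 : ((j : ℝ) + 1) = j₁ + j₀ := by exact_mod_cast e
  have e4 : τ₁ + τ₂ = ((j : RZ) + 1) * m := by
    refine (monic_X (R := Lam ℤ)).isRegular.left ?_
    change X * (τ₁ + τ₂) = X * (((j : RZ) + 1) * m)
    rw [mul_add, t1, t2, e2]
    linear_combination ((j₁ : RZ) + j₀) * e1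
  rw [← e4]
  refine w.mono le_rfl le_rfl ?_
  have n0 := N1_nonneg hr (X ^ j : RZ)
  have n1 := mul_nonneg (Nat.cast_nonneg (α := ℝ) j) n0
  have e5 : (j₁ : ℝ) = j + 1 - j₀ := by linarith
  rw [e5]
  linarith

/-- `split_t`, `null_mono`, `N1_small`. -/
theorem null_word (T : Tri ι) (hr : 0 ≤ r) (hr' : r ≤ 1 / 4) {k j₀ : ℕ} {δ : ℝ} (h₀ : 2 ≤ j₀)
    (h₁ : j₀ + 1 ≤ k) (hδ : N1 r (X ^ j₀ : RZ) ≤ δ) (hδ' : N1 r (X ^ (k + 1 - j₀) : RZ) ≤ δ)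
    {τ : RZ} (hτ : X ^ k ∣ τ) : ∃ ρ : RZ, X ^ k ∣ ρ ∧ N1 r ρ ≤ 10 / 2 ^ k ∧
      W0 r k δ (1 : El ι RZ) (21 * N1 r τ) (τ - ρ) := by
  obtain ⟨l, ρ, h1, h2, h3, h4, h5⟩ := split_t hr hτ
  refine ⟨ρ, h3, N1_small hr hr' h3 h4, ?_⟩
  have key : ∀ l : List (ℕ × RZ), (∀ x ∈ l, k ≤ x.1 ∧ UM x.1 x.2) → W0 r k δ (1 : El ι RZ)
      (21 * (l.map fun x => ((x.1 : ℝ) + 1) * N1 r (X ^ x.1 : RZ)).sum)
      (l.map fun x => ((x.1 : RZ) + 1) * x.2).sum := by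
    intro l hl
    induction l with
    | nil => exact W0.one (by simp)
    | cons x l ih =>
      have w := (null_mono T hr hr' h₀ h₁ (hl x (by simp)).1 hδ hδ' (hl x (by simp)).2).mul
        (ih fun y hy => hl y (by simp [hy]))
      rw [one_mul, ← mul_add] at w
      exact w
  rw [← sub_eq_iff_eq_add] at h2
  rw [h2]
  exact (key l h1).mono le_rfl le_rfl (by linarith)

end Pool.Agent.Lib.MP_71aad1_an.SS
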