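import Pool.Agent.Lib.MP_71aad1_an.QW3
import Pool.Agent.Lib.MP_71aad1_an.QS2

set_option autoImplicit false

namespace Pool.Agent.Lib.MP_71aad1_an.SS

open Polynomial Matrix Finset Sum

/-! Bounded families: a qualitative identity over the ring of bounded families gives uniform
constants. -/

variable {ι : Type} [Fintype ι] [DecidableEq ι] {S : Type}

/-- The subring of bounded families. -/
def BS (r : ℝ) (hr : 0 ≤ r) (S : Type) : Subring (S → RZ) where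
  carrier := {f | ∃ C, ∀ s, N1 r (f s) ≤ C}
  mul_mem' := by
    rintro f g ⟨C, hC⟩ ⟨D, hD⟩
    exact ⟨C * D, fun s => (N1_mul_le hr _ _).trans
      (mul_le_mul (hC s) (hD s) (N1_nonneg hr _) ((N1_nonneg hr _).trans (hC s)))⟩
  one_mem' := ⟨1, fun _ => N1_one.le⟩
  add_mem' := by
    rintro f g ⟨C, hC⟩ ⟨D, hD⟩
    exact ⟨C + D, fun s => (N1_add_le hr _ _).trans (add_le_add (hC s) (hD s))⟩
  zero_mem' := ⟨0, fun _ => N1_zero.le⟩
  neg_mem' := by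
    rintro f ⟨C, hC⟩
    exact ⟨C, fun s => (N1_neg _).le.trans (hC s)⟩

/-- The ring of bounded families. -/
def BF (r : ℝ) (hr : 0 ≤ r) (S : Type) : Type := ↥(BS r hr S)

noncomputable instance {r : ℝ} {hr : 0 ≤ r} : CommRing (BF r hr S) := (BS r hr S).toCommRing

/-- Evaluation of a family. -/
noncomputable def evS {r : ℝ} (hr : 0 ≤ r) (s : S) : BF r hr S →+* RZ :=
  (Pi.evalRingHom (fun _ : S => RZ) s).comp (BS r hr S).subtype

/-- A bounded family as an element of the ring. -/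
def mkS {r : ℝ} (hr : 0 ≤ r) (f : S → RZ) (C : ℝ) (h : ∀ s, N1 r (f s) ≤ C) : BF r hr S :=
  (⟨f, C, h⟩ : BS r hr S)

theorem evS_mkS {r : ℝ} (hr : 0 ≤ r) (f : S → RZ) (C : ℝ) (h : ∀ s, N1 r (f s) ≤ C) (s : S) :
    evS hr s (mkS hr f C h) = f s := rfl

theorem BF_ext {r : ℝ} {hr : 0 ≤ r} {f g : BF r hr S} (h : ∀ s, evS hr s f = evS hr s g) : f = g :=
  Subtype.ext (funext h)

theorem BF_bdd {r : ℝ} {hr : 0 ≤ r} (f : BF r hr S) : ∃ C, ∀ s, N1 r (evS hr s f) ≤ C := f.2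

/-- Constant families. -/
noncomputable def cstS {r : ℝ} (hr : 0 ≤ r) (S : Type) (p : RZ) : BF r hr S :=
  mkS hr (fun _ => p) (N1 r p) fun _ => le_rfl

theorem evS_cstS {r : ℝ} (hr : 0 ≤ r) (s : S) (p : RZ) : evS hr s (cstS hr S p) = p := rfl

/-- Families of order `k` and size `O(η)`. -/
def JI {r : ℝ} (hr : 0 ≤ r) (k : S → ℕ) (η : S → ℝ) (hη : ∀ s, 0 ≤ η s) : Ideal (BF r hr S) where
  carrier := {f | ∃ C, ∀ s, X ^ k s ∣ evS hr s f ∧ N1 r (evS hr s f) ≤ C * η s}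
  add_mem' := by
    rintro f g ⟨C, hC⟩ ⟨D, hD⟩
    refine ⟨C + D, fun s => ?_⟩
    rw [map_add, add_mul]
    exact ⟨dvd_add (hC s).1 (hD s).1, (N1_add_le hr _ _).trans (add_le_add (hC s).2 (hD s).2)⟩
  zero_mem' := by
    refine ⟨0, fun s => ?_⟩
    rw [map_zero, N1_zero]
    exact ⟨dvd_zero _, mul_nonneg le_rfl (hη s)⟩
  smul_mem' := by
    rintro c f ⟨C, hC⟩
    obtain ⟨B, hB⟩ := BF_bdd c
    refine ⟨B * C, fun s => ?_⟩
    rw [smul_eq_mul, map_mul, mul_assoc]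
    exact ⟨(hC s).1.mul_left _, (N1_mul_le hr _ _).trans
      (mul_le_mul (hB s) (hC s).2 (N1_nonneg hr _) ((N1_nonneg hr _).trans (hB s)))⟩

theorem mem_JI {r : ℝ} {hr : 0 ≤ r} {k : S → ℕ} {η : S → ℝ} {hη : ∀ s, 0 ≤ η s} {f : BF r hr S} :
    f ∈ JI hr k η hη ↔ ∃ C, ∀ s, X ^ k s ∣ evS hr s f ∧ N1 r (evS hr s f) ≤ C * η s := Iff.rfl

/-- Negligible families of group elements. -/
def EN (ι : Type) [Fintype ι] [DecidableEq ι] {r : ℝ} (hr : 0 ≤ r) (k : S → ℕ) (ζ : S → ℝ)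
    (hζ : ∀ s, 0 ≤ ζ s) : Subgroup (El ι (BF r hr S)) where
  carrier := {g | ∃ C B, ∀ s, WB r (k s) B (mapE (evS hr s) g) (C * ζ s)}
  mul_mem' := by
    rintro f g ⟨C, B, hC⟩ ⟨D, B', hD⟩
    refine ⟨C + D, max B B', fun s => ?_⟩
    rw [map_mul, add_mul]
    exact ((hC s).mono le_rfl (le_max_left _ _) le_rfl).mul
      ((hD s).mono le_rfl (le_max_right _ _) le_rfl)
  one_mem' := by
    refine ⟨0, 0, fun s => ?_⟩
    rw [map_one]
    exact WB.one (mul_nonneg le_rfl (hζ s))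
  inv_mem' := by
    rintro f ⟨C, B, hC⟩
    refine ⟨C, B, fun s => ?_⟩
    rw [map_inv]
    exact (hC s).inv

theorem mem_EN {r : ℝ} {hr : 0 ≤ r} {k : S → ℕ} {ζ : S → ℝ} {hζ : ∀ s, 0 ≤ ζ s}
    {g : El ι (BF r hr S)} :
    g ∈ EN ι hr k ζ hζ ↔ ∃ C B, ∀ s, WB r (k s) B (mapE (evS hr s) g) (C * ζ s) := Iff.rfl

/-- An element over the ring of bounded families is uniformly bounded. -/
theorem exists_bd_family {r : ℝ} (hr : 0 ≤ r) (g : El ι (BF r hr S)) :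
    ∃ B, ∀ s, Bd r B (mapE (evS hr s) g) := by
  refine el_induction (Q := fun g => ∃ B, ∀ s, Bd r B (mapE (evS hr s) g)) ⟨0, fun s => ?_⟩ ?_ g
  · rw [map_one]
    exact Bd.one le_rfl
  · rintro g a b p ⟨B, hB⟩
    obtain ⟨C, hC⟩ := BF_bdd p
    refine ⟨C + B + C * B, fun s => ?_⟩
    rw [map_mul, mapE_cpt (evS hr s) a b p]
    exact Bd.mul hr ((Bd.x hr a b _).mono (hC s)) (hB s)

theorem EN_normal {r : ℝ} (hr : 0 ≤ r) (k : S → ℕ) (ζ : S → ℝ) (hζ : ∀ s, 0 ≤ ζ s) :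
    (EN ι hr k ζ hζ).Normal := by
  refine ⟨fun g hg γ => ?_⟩
  obtain ⟨C, B, hC⟩ := mem_EN.1 hg
  obtain ⟨B', hB'⟩ := exists_bd_family hr γ
  refine mem_EN.2 ⟨C, B' + B + B' * B, fun s => ?_⟩
  rw [map_mul, map_mul, map_inv]
  exact (hC s).conj hr (hB' s)

theorem qw5_JI {r : ℝ} {hr : 0 ≤ r} {k : S → ℕ} {η : S → ℝ} {hη : ∀ s, 0 ≤ η s} {f : BF r hr S}
    (h : f ∈ JI hr k η hη) :
    ∃ C, 0 ≤ C ∧ ∀ s, X ^ k s ∣ evS hr s f ∧ N1 r (evS hr s f) ≤ C * η s := by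
  obtain ⟨C, hC⟩ := mem_JI.1 h
  exact ⟨max C 0, le_max_right _ _, fun s => ⟨(hC s).1, (hC s).2.trans
    (mul_le_mul_of_nonneg_right (le_max_left _ _) (hη s))⟩⟩

/-- Take the quotient map by `EN` (pass the normality explicitly, instance search is slow here).
For the commutators use `yp` and `W0.toWB`; the norms of `p`, `q` are uniformly bounded
(`BF_bdd`). -/
theorem famAb (hT : Three ι) {r : ℝ} (hr0 : 0 < r) (hr' : r ≤ 1 / 4) {k k₁ k₂ : S → ℕ}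
    {η₁ η₂ ζ : S → ℝ} (h₁ : ∀ s, 0 ≤ η₁ s) (h₂ : ∀ s, 0 ≤ η₂ s) (hζ : ∀ s, 0 ≤ ζ s)
    (hk : ∀ s, 2 ≤ k₁ s ∧ 2 ≤ k₂ s ∧ k s + 1 ≤ k₁ s + k₂ s) (h : ∀ s, η₁ s * η₂ s ≤ ζ s) :
    ∃ (H : Type) (_ : Group H) (f : El ι (BF r hr0.le S) →* H),
      (∀ g, f g = 1 → g ∈ EN ι hr0.le k ζ hζ) ∧
      ((el ι (BF r hr0.le S)).map f).Ab2 (JI hr0.le k₁ η₁ h₁) (JI hr0.le k₂ η₂ h₂) := by
  have hN := EN_normal (ι := ι) hr0.le k ζ hζ
  obtain ⟨H, iH, f, hf⟩ : ∃ (H : Type) (_ : Group H) (f : El ι (BF r hr0.le S) →* H),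
      ∀ g, f g = 1 ↔ g ∈ EN ι hr0.le k ζ hζ :=
    ⟨_, @QuotientGroup.Quotient.group _ _ _ hN, @QuotientGroup.mk' _ _ _ hN,
      fun g => @QuotientGroup.eq_one_iff _ _ _ hN g⟩
  refine ⟨H, iH, f, fun g hg => (hf g).1 hg, fun a b p q hp hq => ?_⟩
  obtain ⟨C, hC0, hC⟩ := qw5_JI hp
  obtain ⟨D, hD0, hD⟩ := qw5_JI hq
  obtain ⟨Bp, hBp⟩ := BF_bdd p
  obtain ⟨Bq, hBq⟩ := BF_bdd q
  have hpq : ∀ s, N1 r (evS hr0.le s p) * N1 r (evS hr0.le s q) ≤ C * D * ζ s := by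
    intro s
    calc _ ≤ C * η₁ s * (D * η₂ s) :=
          mul_le_mul (hC s).2 (hD s).2 (N1_nonneg hr0.le _) (mul_nonneg hC0 (h₁ s))
      _ = C * D * (η₁ s * η₂ s) := by ring
      _ ≤ _ := mul_le_mul_of_nonneg_left (h s) (mul_nonneg hC0 hD0)
  constructor
  · refine (hf _).2 (mem_EN.2 ⟨C * D, 0, fun s => ?_⟩)
    rw [mapE_cpt (evS hr0.le s) a b (p * q), map_mul]
    have hd : X ^ k s ∣ evS hr0.le s p * evS hr0.le s q := by
      refine (pow_dvd_pow X (n := k₁ s + k₂ s) ?_).trans ?_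
      · have := (hk s).2.2
        omega
      · rw [pow_add]
        exact mul_dvd_mul (hC s).1 (hD s).1
    have h1 := WB.single (r := r) (Bd.one (ι := ι) le_rfl) a b hd
    rw [one_mul, inv_one, mul_one] at h1
    exact h1.mono le_rfl le_rfl ((N1_mul_le hr0.le _ _).trans (hpq s))
  · have e := (St.cpt_map (el ι (BF r hr0.le S)) f).y a b p q
    rw [RingHom.id_apply, RingHom.id_apply] at e
    rw [← e]
    refine (hf _).2 (mem_EN.2 ⟨14 / r * (C * D), 2 * Real.exp (2 * (Bp + Bq)), fun s => ?_⟩)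
    rw [(mapE_cpt (evS hr0.le s)).y a b p q]
    obtain ⟨τ, hτ⟩ := yp hT hr0 hr' (hk s).1 (hk s).2.1 (hC s).1 (hD s).1 a b
    refine W0.toWB hr0.le (by linarith) (τ := τ) (hτ.mono ?_ ?_ ?_)
    · have := (hk s).2.2
      omega
    · have := hBp s
      have := hBq s
      linarith
    · rw [mul_assoc]
      exact mul_le_mul_of_nonneg_left (hpq s) (by positivity)

end Pool.Agent.Lib.MP_71aad1_an.SS
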