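import Pool.Agent.Lib.MP_71aad1_an.QW5
import Pool.Agent.Lib.MP_71aad1_an.QS6

set_option autoImplicit false

namespace Pool.Agent.Lib.MP_71aad1_an.SS

open Polynomial Matrix Finset Sum

/-! Renormalisation: bounded conjugates of letters are small products of standard generators. -/

variable {ι : Type} [Fintype ι] [DecidableEq ι] {r : ℝ}

/-- Elements of the relative group over the ring of bounded families evaluate to words of
uniformly bounded length and size. -/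
theorem qw6_list {S : Type} (hr : 0 ≤ r) (P : BF r hr S) (l : List (ι × ι × BF r hr S × BF r hr S))
    (hl : ∀ x ∈ l, x.2.2.1 ∈ Ideal.span {P}) : ∃ C : ℝ, 0 ≤ C ∧ ∀ s : S,
      ∃ l' : List (ι × ι × RZ × RZ), (l'.length : ℝ) ≤ C ∧
        (∀ x ∈ l', N1 r x.2.2.1 ≤ C ∧ N1 r x.2.2.2 ≤ C) ∧
        mapE (evS hr s) (l.map fun x => (el ι (BF r hr S)).z x.1 x.2.1 x.2.2.1 x.2.2.2).prod =
          (l'.map fun x => (el ι RZ).z x.1 x.2.1 (evS hr s P * x.2.2.1) x.2.2.2).prod := by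
  induction l with
  | nil => exact ⟨0, le_rfl, fun s => ⟨[], by simp, by simp, by simp⟩⟩
  | cons y l ih =>
    obtain ⟨C, hC, h⟩ := ih fun x hx => hl x (List.mem_cons_of_mem _ hx)
    obtain ⟨c, hc⟩ := Ideal.mem_span_singleton.1 (hl y List.mem_cons_self)
    obtain ⟨C₁, h₁⟩ := BF_bdd c
    obtain ⟨C₂, h₂⟩ := BF_bdd y.2.2.2
    refine ⟨C + 1 + |C₁| + |C₂|, by positivity, fun s => ?_⟩
    obtain ⟨l', e1, e2, e3⟩ := h s
    have a1 := abs_nonneg C₁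
    have a2 := abs_nonneg C₂
    have a3 := le_abs_self C₁
    have a4 := le_abs_self C₂
    refine ⟨(y.1, y.2.1, evS hr s c, evS hr s y.2.2.2) :: l', ?_, ?_, ?_⟩
    · rw [List.length_cons]
      push_cast
      linarith
    · intro x hx
      rcases List.mem_cons.1 hx with rfl | hx
      · have b1 := h₁ s
        have b2 := h₂ s
        constructor
        · change N1 r (evS hr s c) ≤ _
          linarith
        · change N1 r (evS hr s y.2.2.2) ≤ _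
          linarith
      · obtain ⟨b1, b2⟩ := e2 x hx
        constructor <;> linarith
    · rw [List.map_cons, List.prod_cons, map_mul, e3, List.map_cons, List.prod_cons,
        St.Cpt.z (mapE_cpt (evS hr s)), hc, map_mul]

theorem qw6_entry (hr : 0 ≤ r) {B : ℝ} {M : Matrix ι ι RZ} (h : nm r (M - 1) ≤ B) (i j : ι) :
    N1 r (M i j) ≤ B + 1 := by
  have e : M i j = (M - 1) i j + (1 : Matrix ι ι RZ) i j := by simp
  have h1 := entry_le_nm hr (M - 1) i j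
  have h2 : N1 r ((1 : Matrix ι ι RZ) i j) ≤ 1 := by
    rw [one_apply]
    split_ifs
    · rw [N1_one]
    · rw [N1_zero]; exact zero_le_one
  rw [e]
  have h3 := N1_add_le hr ((M - 1) i j) ((1 : Matrix ι ι RZ) i j)
  linarith

omit [DecidableEq ι] in
theorem qw6_map_mul {A A' : Type} [CommRing A] [CommRing A'] (ψ : A →+* A') (M N : Matrix ι ι A) :
    (M * N).map ψ = M.map ψ * N.map ψ := Matrix.map_mul

theorem qw6_pair (hT : Three ι) (hr : 0 ≤ r) (B : ℝ) (a b : ι) : ∃ C : ℝ, 0 ≤ C ∧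
    ∀ (γ : El ι RZ) (p : RZ), Bd r B γ → N1 r p ≤ 1 → ∃ l : List (ι × ι × RZ × RZ),
      (l.length : ℝ) ≤ C ∧ (∀ x ∈ l, N1 r x.2.2.1 ≤ C ∧ N1 r x.2.2.2 ≤ C) ∧
      γ * (el ι RZ).x a b p * γ⁻¹ =
        (l.map fun x => (el ι RZ).z x.1 x.2.1 (p * x.2.2.1) x.2.2.2).prod := by
  by_cases hab : a = b
  · subst hab
    refine ⟨0, le_rfl, fun γ p _ _ => ⟨[], by simp, by simp, ?_⟩⟩
    rw [(el ι RZ).diag]
    simp
  let S : Type := {x : El ι RZ × RZ // Bd r B x.1 ∧ N1 r x.2 ≤ 1}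
  let G : Matrix ι ι (BF r hr S) := fun i j =>
    mkS hr (fun s : S => mat s.1.1 i j) (B + 1) fun s => qw6_entry hr s.2.1.1 i j
  let G' : Matrix ι ι (BF r hr S) := fun i j =>
    mkS hr (fun s : S => mat s.1.1⁻¹ i j) (B + 1) fun s => qw6_entry hr s.2.1.2 i j
  let P : BF r hr S := mkS hr (fun s : S => s.1.2) 1 fun s => s.2.2
  have hG : ∀ s : S, G.map (evS hr s) = mat s.1.1 := fun s => rfl
  have hG' : ∀ s : S, G'.map (evS hr s) = mat s.1.1⁻¹ := fun s => rfl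
  have hext : ∀ M N : Matrix ι ι (BF r hr S), (∀ s, M.map (evS hr s) = N.map (evS hr s)) → M = N := by
    intro M N h
    ext i j
    exact BF_ext fun s => congrFun (congrFun (h s) i) j
  have h1 : G * G' = 1 := hext _ _ fun s => by
    rw [qw6_map_mul, hG, hG', mat_mul_inv, Matrix.map_one _ (map_zero _) (map_one _)]
  have h2 : G' * G = 1 := hext _ _ fun s => by
    rw [qw6_map_mul, hG, hG', mat_inv_mul, Matrix.map_one _ (map_zero _) (map_one _)]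
  obtain ⟨g, hg, hm⟩ := suslin hT h1 h2 hab P
  obtain ⟨l, hl, rfl⟩ := ((el ι (BF r hr S)).mem_Zs_iff_list).1 hg
  obtain ⟨C, hC, h⟩ := qw6_list hr P l hl
  refine ⟨C, hC, fun γ p hγ hp => ?_⟩
  obtain ⟨l', e1, e2, e3⟩ := h ⟨(γ, p), hγ, hp⟩
  refine ⟨l', e1, e2, ?_⟩
  refine Eq.trans ?_ e3
  apply mat_inj
  rw [mat_mapE, hm, qw6_map_mul, qw6_map_mul, hG, hG', mat_mul, mat_mul, ← mat_x hab P,
    ← mat_mapE, mapE_cpt]
  rfl

/-- Apply `suslin` and `mem_Zs_iff_list` over the ring `BF r hr S` of bounded families, with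
`S = {x : El ι RZ × RZ // Bd r B x.1 ∧ N1 r x.2 ≤ 1}`, the matrices `γ`, `γ'` being the families
`mat x.1`, `mat x.1⁻¹` and `p` the family `x.2`; evaluate with `mapE (evS hr s)`. Take the maximum
of the constants over the finitely many pairs `a ≠ b`. -/
theorem suslin_quant (hT : Three ι) (hr : 0 ≤ r) (B : ℝ) : ∃ C : ℝ, 0 ≤ C ∧
    ∀ (γ : El ι RZ) (a b : ι) (p : RZ), Bd r B γ → N1 r p ≤ 1 → ∃ l : List (ι × ι × RZ × RZ),
      (l.length : ℝ) ≤ C ∧ (∀ x ∈ l, N1 r x.2.2.1 ≤ C ∧ N1 r x.2.2.2 ≤ C) ∧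
      γ * (el ι RZ).x a b p * γ⁻¹ =
        (l.map fun x => (el ι RZ).z x.1 x.2.1 (p * x.2.2.1) x.2.2.2).prod := by
  choose C hC h using fun ab : ι × ι => qw6_pair hT hr B ab.1 ab.2
  refine ⟨∑ ab, C ab, Finset.sum_nonneg fun ab _ => hC ab, fun γ a b p hγ hp => ?_⟩
  have hle : C (a, b) ≤ ∑ ab, C ab :=
    Finset.single_le_sum (f := C) (fun ab _ => hC ab) (Finset.mem_univ _)
  obtain ⟨l, e1, e2, e3⟩ := h (a, b) γ p hγ hp
  exact ⟨l, e1.trans hle, fun x hx => ⟨(e2 x hx).1.trans hle, (e2 x hx).2.trans hle⟩, e3⟩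

/-- `St.R1ren` with `q = t ^ j₀` and a third index, `yp` for the two commutators, `W0.conj` for the
letter `x b c (β p)`. -/
theorem z_W0 (hT : Three ι) (hr : 0 < r) (hr' : r ≤ 1 / 4) (B : ℝ) : ∃ C : ℝ, 0 ≤ C ∧
    ∀ (k j₀ : ℕ) (a b : ι) (p β : RZ), 2 ≤ j₀ → 2 ≤ k → X ^ k ∣ p → N1 r β ≤ B →
      ∃ τ, W0 r (k + j₀ - 1) (C * (N1 r p + N1 r (X ^ j₀ : RZ))) ((el ι RZ).z a b (p * X ^ j₀) β)
        (C * (N1 r p * N1 r (X ^ j₀ : RZ))) τ := by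
  have hr0 := hr.le
  obtain ⟨D, hD1, hDB⟩ : ∃ D : ℝ, 1 ≤ D ∧ B ≤ D := ⟨max B 1, le_max_right _ _, le_max_left _ _⟩
  obtain ⟨R, hR, hR0⟩ : ∃ R : ℝ, R = 14 / r ∧ 0 ≤ R := ⟨_, rfl, by positivity⟩
  have hD0 : 0 ≤ D := by linarith
  refine ⟨(2 * R + 4) * (D * D), by positivity, fun k j₀ a b p β hj hk hp hβ => ?_⟩
  have hn := N1_nonneg hr0 p
  have hm := N1_nonneg hr0 (X ^ j₀ : RZ)
  by_cases hab : a = b
  · subst hab
    rw [St.z_diag]
    exact ⟨0, W0.one (by positivity)⟩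
  obtain ⟨c, hca, hcb⟩ := hT a b
  have hβD : N1 r β ≤ D := hβ.trans hDB
  have hm1 : N1 r (X ^ j₀ : RZ) ≤ 1 := (N1_X_pow_le hr0 hr' j₀).trans <| by
    rw [div_le_one (by positivity)]
    exact one_le_pow₀ one_le_two
  generalize hq : (X ^ j₀ : RZ) = q at hm hm1 ⊢
  have hqd : X ^ j₀ ∣ q := hq ▸ dvd_rfl
  have hpq : X ^ (k + j₀ - 1) ∣ p * q :=
    (pow_dvd_pow X (Nat.sub_le _ _)).trans (by rw [pow_add]; exact mul_dvd_mul hp hqd)
  have mulβ : ∀ s : RZ, N1 r (β * s) ≤ D * N1 r s := fun s =>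
    (N1_mul_le hr0 β s).trans (mul_le_mul_of_nonneg_right hβD (N1_nonneg hr0 s))
  have mulq : ∀ s : RZ, N1 r (s * q) ≤ N1 r s := fun s =>
    (N1_mul_le hr0 s q).trans (mul_le_of_le_one_right (N1_nonneg hr0 s) hm1)
  have npq : N1 r (p * q) ≤ N1 r p * N1 r q := N1_mul_le hr0 p q
  have nβq := mulβ q
  have nβp := mulβ p
  have n1 : N1 r (β * (p * q)) ≤ D * (N1 r p * N1 r q) :=
    (mulβ _).trans (mul_le_mul_of_nonneg_left npq hD0)
  have n2 : N1 r (β * (β * (p * q))) ≤ D * (D * (N1 r p * N1 r q)) :=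
    (mulβ _).trans (mul_le_mul_of_nonneg_left n1 hD0)
  have hδ0 : 0 ≤ 2 * D * (N1 r p + N1 r q) := by positivity
  have hnq : 0 ≤ N1 r p * N1 r q := by positivity
  obtain ⟨τ₁, w1⟩ := yp hT hr hr' hk hj hp ((dvd_mul_of_dvd_right hqd β).neg_right) a c
  obtain ⟨τ₂, w4⟩ := yp hT hr hr' hk hj (dvd_mul_of_dvd_right hp β) hqd b c
  rw [N1_neg, ← hR] at w1
  rw [← hR] at w4
  have w1' := w1.mono (δ' := 2 * D * (N1 r p + N1 r q)) (ζ' := R * (D * (N1 r p * N1 r q))) le_rfl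
    (by nlinarith) (mul_le_mul_of_nonneg_left (by nlinarith) hR0)
  have w2 := (W0.x hr0 hδ0 a b hpq).mono le_rfl le_rfl npq
  have d3 : X ^ (k + j₀ - 1) ∣ -(β * p * q * q) := by
    rw [show -(β * p * q * q) = p * q * -(β * q) by ring]
    exact hpq.mul_right _
  have w3 := (W0.x hr0 hδ0 c b d3).mono (ζ' := D * (N1 r p * N1 r q)) le_rfl le_rfl (by
    rw [N1_neg, show β * p * q * q = β * (p * q) * q by ring]
    exact (mulq _).trans n1)
  have l1 : Lt r ((el ι RZ).x b c (β * p)) (D * N1 r p) :=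
    (Lt.x b c (dvd_mul_of_dvd_right ((pow_dvd_pow X hk).trans hp) β)).mono nβp
  have w123 := ((w1'.mul w2).mul w3).conj l1
  have hδ1 : 0 ≤ D * N1 r p + 2 * D * (N1 r p + N1 r q) := by positivity
  have w4' := w4.mono (δ' := D * N1 r p + 2 * D * (N1 r p + N1 r q))
    (ζ' := R * (D * (N1 r p * N1 r q))) le_rfl
    (by nlinarith) (mul_le_mul_of_nonneg_left (by nlinarith) hR0)
  have d5 : X ^ (k + j₀ - 1) ∣ -(β * β * p * q) := by
    rw [show -(β * β * p * q) = p * q * -(β * β) by ring]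
    exact hpq.mul_right _
  have w5 := (W0.x hr0 hδ1 b a d5).mono (ζ' := D * (D * (N1 r p * N1 r q))) le_rfl le_rfl (by
    rw [N1_neg, show β * β * p * q = β * (β * (p * q)) by ring]
    exact n2)
  have d6 : X ^ (k + j₀ - 1) ∣ -(β * β * p * q * q) := by
    rw [show -(β * β * p * q * q) = p * q * -(β * β * q) by ring]
    exact hpq.mul_right _
  have w6 := (W0.x hr0 hδ1 c a d6).mono (ζ' := D * (D * (N1 r p * N1 r q))) le_rfl le_rfl (by
    rw [N1_neg, show β * β * p * q * q = β * (β * (p * q)) * q by ring]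
    exact (mulq _).trans n2)
  have w := ((w123.mul w4').mul w5).mul w6
  rw [← St.R1ren _ hab (Ne.symm hcb) (Ne.symm hca)] at w
  have hDD : D ≤ D * D := le_mul_of_one_le_right hD0 hD1
  have hDD1 : 1 ≤ D * D := hD1.trans hDD
  refine ⟨_, w.mono le_rfl ?_ ?_⟩
  · have e1 : 3 * D ≤ (2 * R + 4) * (D * D) := by nlinarith
    have e2 := mul_le_mul_of_nonneg_right e1 (add_nonneg hn hm)
    nlinarith
  · have e1 : 2 * R * D + 1 + D + 2 * (D * D) ≤ (2 * R + 4) * (D * D) := by nlinarith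
    have e2 := mul_le_mul_of_nonneg_right e1 hnq
    nlinarith

/-- The case of one unit monomial. -/
theorem qw6_mono (hT : Three ι) (hr : 0 < r) (hr' : r ≤ 1 / 4) (B : ℝ) : ∃ C : ℝ, 0 < C ∧
    ∀ (k j₀ i : ℕ) (δ : ℝ) (γ : El ι RZ) (a b : ι) (m : RZ), 2 ≤ j₀ → j₀ + 1 ≤ k →
      C * (N1 r (X ^ j₀ : RZ) + N1 r (X ^ (k + 1 - j₀) : RZ)) ≤ δ → Bd r B γ → k + 1 ≤ i → UM i m →
      ∃ τ, W0 r k δ (γ * (el ι RZ).x a b m * γ⁻¹)
        (C * ((j₀ : ℝ) + 1) * (((i : ℝ) + 1) * r ^ i)) τ := by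
  have hr0 := hr.le
  obtain ⟨C₁, hC₁, h₁⟩ := suslin_quant hT hr0 B
  obtain ⟨C₂, hC₂, h₂⟩ := z_W0 hT hr hr' C₁
  refine ⟨(C₁ + 1) * ((C₁ + 1) * (C₂ + 1)), by positivity,
    fun k j₀ i δ γ a b m hj hk hδ hγ hi hm => ?_⟩
  have hm1 : N1 r m ≤ 1 := by
    rw [hm.N1]
    refine (N1_X_pow_le hr0 hr' i).trans ?_
    rw [div_le_one (by positivity)]
    exact one_le_pow₀ one_le_two
  obtain ⟨l, e1, e2, e3⟩ := h₁ γ a b m hγ hm1
  obtain ⟨n, rfl⟩ : ∃ n, i = n + j₀ := ⟨i - j₀, by omega⟩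
  obtain ⟨m₁, hm₁, rfl⟩ := hm.split
  have hn2 : 2 ≤ n := by omega
  have a0 := N1_nonneg hr0 (X ^ j₀ : RZ)
  have a1 := N1_nonneg hr0 (X ^ (k + 1 - j₀) : RZ)
  have a2 : N1 r m₁ ≤ N1 r (X ^ (k + 1 - j₀) : RZ) := by
    rw [hm₁.N1]
    exact N1_X_pow_anti hr0 (by linarith) (by omega)
  have a3 := N1_nonneg hr0 m₁
  obtain ⟨E, hE⟩ : ∃ E : ℝ, E = ((j₀ : ℝ) + 1) * ((((n + j₀ : ℕ) : ℝ) + 1) * r ^ (n + j₀)) :=
    ⟨_, rfl⟩
  have hE0 : 0 ≤ E := by rw [hE]; positivity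
  have a4 : N1 r m₁ * N1 r (X ^ j₀ : RZ) ≤ E := by
    rw [hE, hm₁.N1, N1_X_pow, N1_X_pow, pow_add]
    have b1 : (n : ℝ) + 1 ≤ ((n + j₀ : ℕ) : ℝ) + 1 := by
      push_cast
      have : (0 : ℝ) ≤ j₀ := Nat.cast_nonneg _
      linarith
    have b2 : 0 ≤ ((j₀ : ℝ) + 1) * (r ^ n * r ^ j₀) := by positivity
    have b3 := mul_le_mul_of_nonneg_right b1 b2
    nlinarith
  have key : ∀ x ∈ l, ∃ τ, W0 r k δ
      ((fun x : ι × ι × RZ × RZ => (el ι RZ).z x.1 x.2.1 (m₁ * X ^ j₀ * x.2.2.1) x.2.2.2) x)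
      ((fun _ => (C₁ + 1) * (C₂ + 1) * E) x) τ := by
    intro x hx
    obtain ⟨b1, b2⟩ := e2 x hx
    obtain ⟨τ, w⟩ := h₂ n j₀ x.1 x.2.1 (m₁ * x.2.2.1) x.2.2.2 hj hn2 (hm₁.dvd.mul_right _) b2
    have b3 : N1 r (m₁ * x.2.2.1) ≤ N1 r m₁ * C₁ :=
      (N1_mul_le hr0 _ _).trans (mul_le_mul_of_nonneg_left b1 a3)
    have b4 := N1_nonneg hr0 (m₁ * x.2.2.1)
    refine ⟨τ, ?_⟩
    rw [show m₁ * x.2.2.1 * X ^ j₀ = m₁ * X ^ j₀ * x.2.2.1 by ring] at w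
    refine w.mono (by omega) (le_trans ?_ hδ) ?_
    · have c1 : N1 r (m₁ * x.2.2.1) + N1 r (X ^ j₀ : RZ) ≤
          (C₁ + 1) * (N1 r (X ^ j₀ : RZ) + N1 r (X ^ (k + 1 - j₀) : RZ)) := by nlinarith
      have c2 : C₂ ≤ (C₁ + 1) * (C₂ + 1) := by nlinarith
      have c3 := mul_le_mul c2 c1 (by positivity) (by positivity)
      nlinarith
    · have c1 : N1 r (m₁ * x.2.2.1) * N1 r (X ^ j₀ : RZ) ≤ (C₁ + 1) * E := by
        have c0 := mul_le_mul_of_nonneg_right b3 a0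
        have c0' := mul_le_mul_of_nonneg_left a4 hC₁
        nlinarith
      have c3 := mul_le_mul (show C₂ ≤ C₂ + 1 by linarith) c1 (by positivity) (by positivity)
      change _ ≤ (C₁ + 1) * (C₂ + 1) * E
      nlinarith
  obtain ⟨τ, w⟩ := W0.list_prod l key
  refine ⟨τ, ?_⟩
  rw [e3]
  refine w.mono le_rfl le_rfl ?_
  rw [List.map_const', List.sum_replicate, nsmul_eq_mul, mul_assoc _ ((j₀ : ℝ) + 1), ← hE]
  have c1 : 0 ≤ (C₁ + 1) * (C₂ + 1) * E := by positivity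
  have c2 := mul_le_mul_of_nonneg_right (show (l.length : ℝ) ≤ C₁ + 1 by linarith) c1
  nlinarith

theorem qw6_conj_sum (γ : El ι RZ) (a b : ι) (l : List (ℕ × RZ)) :
    γ * (el ι RZ).x a b (l.map Prod.snd).sum * γ⁻¹ =
      (l.map fun x => γ * (el ι RZ).x a b x.2 * γ⁻¹).prod := by
  induction l with
  | nil => simp [St.x_zero]
  | cons y l ih =>
    rw [List.map_cons, List.sum_cons, List.map_cons, List.prod_cons, ← ih, (el ι RZ).add]
    group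

/-- Induction on `WB`. Split `p` into unit monomials `m` of degree `i ≥ k + 1` (`exists_UM_list`),
apply `suslin_quant` to each, write `m = m₁ t ^ j₀` and use `z_W0` with `p = m₁ c`;
`N1 m₁ * N1 (t ^ j₀) ≤ (j₀ + 1) N1 m` and `N1 m₁ ≤ N1 (t ^ (k + 1 - j₀))`. -/
theorem renorm (hT : Three ι) (hr : 0 < r) (hr' : r ≤ 1 / 4) (B : ℝ) : ∃ C : ℝ, 0 < C ∧
    ∀ (k j₀ : ℕ) (δ ζ : ℝ) (W : El ι RZ), 2 ≤ j₀ → j₀ + 1 ≤ k →
      C * (N1 r (X ^ j₀ : RZ) + N1 r (X ^ (k + 1 - j₀) : RZ)) ≤ δ → WB r (k + 1) B W ζ →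
      ∃ τ, W0 r k δ W (C * ((j₀ : ℝ) + 1) * ζ) τ := by
  obtain ⟨C, hC, h⟩ := qw6_mono hT hr hr' B
  refine ⟨C, hC, fun k j₀ δ ζ W hj hk hδ hW => ?_⟩
  induction hW with
  | one h0 => exact ⟨0, W0.one (by positivity)⟩
  | @snoc W γ ζ a b p _ hγ hp ih =>
    obtain ⟨τ, w⟩ := ih
    obtain ⟨l, e1, e2, e3⟩ := exists_UM_list hp
    obtain ⟨τ', w'⟩ := W0.list_prod l (F := fun x => γ * (el ι RZ).x a b x.2 * γ⁻¹)
      (f := fun x => C * ((j₀ : ℝ) + 1) * (((x.1 : ℝ) + 1) * r ^ x.1))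
      fun x hx => h k j₀ x.1 δ γ a b x.2 hj hk hδ hγ (e1 x hx).1 (e1 x hx).2
    rw [← qw6_conj_sum, e2, List.sum_map_mul_left, e3 fun j => ((j : ℝ) + 1) * r ^ j] at w'
    refine ⟨τ + τ', ?_⟩
    rw [mul_add]
    exact w.mul w'

end Pool.Agent.Lib.MP_71aad1_an.SS
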