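import Pool.Agent.Lib.MP_71aad1_an.QW5
import Pool.Agent.Lib.MP_71aad1_an.QS4

set_option autoImplicit false

namespace Pool.Agent.Lib.MP_71aad1_an.SS

open Polynomial Matrix Finset Sum

/-! First normal form with uniform error bounds. -/

variable {ι : Type} [Fintype ι] [DecidableEq ι] {r : ℝ}

theorem qw7_unif {σ S : Type} [Fintype σ] {k : S → ℕ} {ζ : S → ℝ} (hζ : ∀ s, 0 ≤ ζ s)
    {g : σ → S → El ι RZ} (h : ∀ i, ∃ C B, ∀ s, WB r (k s) B (g i s) (C * ζ s)) :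
    ∃ C B : ℝ, 0 ≤ C ∧ 0 ≤ B ∧ ∀ i s, WB r (k s) B (g i s) (C * ζ s) := by
  choose C B h using h
  refine ⟨∑ i, |C i|, ∑ i, |B i|, Finset.sum_nonneg fun i _ => abs_nonneg _,
    Finset.sum_nonneg fun i _ => abs_nonneg _, fun i s => (h i s).mono le_rfl ?_ ?_⟩
  · exact (le_abs_self _).trans
      (Finset.single_le_sum (f := fun i => |B i|) (fun i _ => abs_nonneg _) (mem_univ i))
  · exact mul_le_mul_of_nonneg_right ((le_abs_self _).trans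
      (Finset.single_le_sum (f := fun i => |C i|) (fun i _ => abs_nonneg _) (mem_univ i))) (hζ s)

/-- Admissible data for the commutator estimate. -/
def qw7_S1 (r : ℝ) : Type :=
  {x : ℕ × RZ × RZ // 2 ≤ x.1 ∧ X ^ x.1 ∣ x.2.1 ∧ N1 r x.2.1 ≤ 1 ∧ X ^ 2 ∣ x.2.2 ∧ N1 r x.2.2 ≤ 1}

/-- Admissible data for the normal form step. -/
def qw7_S2 (ι : Type) (r : ℝ) : Type :=
  {x : ℕ × ℝ × (ι × ι × Fin 6 → RZ) × RZ // 2 ≤ x.1 ∧ 0 ≤ x.2.1 ∧ x.2.1 ≤ 1 ∧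
    (∀ s, X ^ x.1 ∣ x.2.2.1 s ∧ N1 r (x.2.2.1 s) ≤ x.2.1) ∧ X ^ x.1 ∣ x.2.2.2 ∧ N1 r x.2.2.2 ≤ 1}

theorem qw7_z {S : Type} (hr : 0 ≤ r) (s : S) (a b : ι) (p : BF r hr S) (i : Fin 6) :
    mapE (evS hr s) ((el ι (BF r hr S)).z a b p (al (cstS hr S gR) (cstS hr S X) i)) =
      (el ι RZ).z a b (evS hr s p) (al gR X i) := by
  rw [(mapE_cpt (evS hr s)).z, St.map_al, evS_cstS, evS_cstS]

theorem qw7_nf1 {S : Type} (hr : 0 ≤ r) (s : S) (P : ι × ι × Fin 6 → BF r hr S) :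
    mapE (evS hr s) ((el ι (BF r hr S)).nf1 (cstS hr S gR) (cstS hr S X) P) =
      (el ι RZ).nf1 gR X fun j => evS hr s (P j) := by
  rw [(mapE_cpt (evS hr s)).nf1, evS_cstS, evS_cstS]

/-- For fixed indices use the family `S` of all admissible `(k, p, q)`, `famAb` with
`η₁ = N1 p`, `η₂ = N1 q`, `ζ = η₁ η₂`, orders `k`, `2`, level `k + 1`, and `commute_Zs`; evaluate
with `mapE_cpt`. Take the maximum of the constants over the finitely many indices. -/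
theorem comm_WB (hT : Three ι) (hr : 0 < r) (hr' : r ≤ 1 / 4) : ∃ C B : ℝ, 0 ≤ C ∧ 0 ≤ B ∧
    ∀ (k : ℕ) (a b c d : ι) (i : Fin 6) (p q : RZ), 2 ≤ k → X ^ k ∣ p → N1 r p ≤ 1 → X ^ 2 ∣ q →
      N1 r q ≤ 1 → WB r (k + 1) B ((el ι RZ).x c d q * (el ι RZ).z a b p (al gR X i) *
        ((el ι RZ).x c d q)⁻¹ * ((el ι RZ).z a b p (al gR X i))⁻¹) (C * (N1 r p * N1 r q)) := by
  have hζ : ∀ s : qw7_S1 r, 0 ≤ N1 r s.1.2.1 * N1 r s.1.2.2 := fun s =>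
    mul_nonneg (N1_nonneg hr.le _) (N1_nonneg hr.le _)
  obtain ⟨H, _, f, hf, hA⟩ := famAb (S := qw7_S1 r) hT hr hr' (k := fun s => s.1.1 + 1)
    (k₁ := fun s => s.1.1) (k₂ := fun _ => 2) (η₁ := fun s => N1 r s.1.2.1)
    (η₂ := fun s => N1 r s.1.2.2) (ζ := fun s => N1 r s.1.2.1 * N1 r s.1.2.2)
    (fun s => N1_nonneg hr.le _) (fun s => N1_nonneg hr.le _) hζ
    (fun s => ⟨s.2.1, le_rfl, le_rfl⟩) (fun s => le_rfl)
  obtain ⟨C, B, hC, hB, h⟩ := qw7_unif (σ := ι × ι × ι × ι × Fin 6) (S := qw7_S1 r) (r := r)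
    (k := fun s => s.1.1 + 1) hζ
    (g := fun j s => (el ι RZ).x j.2.2.1 j.2.2.2.1 s.1.2.2 *
      (el ι RZ).z j.1 j.2.1 s.1.2.1 (al gR X j.2.2.2.2) *
      ((el ι RZ).x j.2.2.1 j.2.2.2.1 s.1.2.2)⁻¹ *
      ((el ι RZ).z j.1 j.2.1 s.1.2.1 (al gR X j.2.2.2.2))⁻¹) (by
      rintro ⟨a, b, c, d, i⟩
      let pF : BF r hr.le (qw7_S1 r) := mkS hr.le (fun s => s.1.2.1) 1 fun s => s.2.2.2.1
      let qF : BF r hr.le (qw7_S1 r) := mkS hr.le (fun s => s.1.2.2) 1 fun s => s.2.2.2.2.2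
      have hp : pF ∈ JI hr.le (fun s : qw7_S1 r => s.1.1) (fun s => N1 r s.1.2.1)
          fun s => N1_nonneg hr.le _ := mem_JI.2 ⟨1, fun s => ⟨s.2.2.1, (one_mul _).ge⟩⟩
      have hq : qF ∈ JI hr.le (fun _ : qw7_S1 r => 2) (fun s => N1 r s.1.2.2)
          fun s => N1_nonneg hr.le _ := mem_JI.2 ⟨1, fun s => ⟨s.2.2.2.2.1, (one_mul _).ge⟩⟩
      have hc := St.commute_Zs _ hT hA
        (St.z_mem _ a b hp (al (cstS hr.le _ gR) (cstS hr.le _ X) i)) (St.x_mem _ c d hq)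
      obtain ⟨C, B, h⟩ := mem_EN.1 (hf ((el ι _).x c d qF *
        (el ι _).z a b pF (al (cstS hr.le _ gR) (cstS hr.le _ X) i) * ((el ι _).x c d qF)⁻¹ *
        ((el ι _).z a b pF (al (cstS hr.le _ gR) (cstS hr.le _ X) i))⁻¹) (by
          rw [map_mul, map_mul, map_mul, map_inv, map_inv, (St.cpt_map _ f).z, St.cpt_map _ f]
          simp only [RingHom.id_apply]
          rw [← hc.eq]
          group))
      refine ⟨C, B, fun s => ?_⟩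
      have := h s
      rw [map_mul, map_mul, map_mul, map_inv, map_inv, qw7_z, mapE_cpt] at this
      exact this)
  exact ⟨C, B, hC, hB, fun k a b c d i p q h1 h2 h3 h4 h5 =>
    h (a, b, c, d, i) ⟨(k, p, q), h1, h2, h3, h4, h5⟩⟩

/-- Induction on `Lt`: for `γ = γ' x`, `γ z γ⁻¹ z⁻¹ = (γ' [x, z] γ'⁻¹) (γ' z γ'⁻¹ z⁻¹)`, and `γ'` is
bounded by `Lt.bd`. -/
theorem drop_conj (hT : Three ι) (hr : 0 < r) (hr' : r ≤ 1 / 4) : ∃ C B : ℝ, 0 ≤ C ∧ 0 ≤ B ∧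
    ∀ (k : ℕ) (a b : ι) (i : Fin 6) (p : RZ) (γ : El ι RZ) (δ : ℝ), 2 ≤ k → X ^ k ∣ p → N1 r p ≤ 1 →
      Lt r γ δ → δ ≤ 1 → WB r (k + 1) B (γ * (el ι RZ).z a b p (al gR X i) * γ⁻¹ *
        ((el ι RZ).z a b p (al gR X i))⁻¹) (C * (N1 r p * δ)) := by
  obtain ⟨C, B, hC, hB, h⟩ := comm_WB hT hr hr'
  refine ⟨C, 2 + B + 2 * B, hC, by positivity, fun k a b i p γ δ hk hp hp1 hγ hδ => ?_⟩
  have hp0 := N1_nonneg hr.le p
  induction hγ with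
  | one h0 =>
    rw [one_mul, inv_one, mul_one, mul_inv_cancel]
    exact WB.one (by positivity)
  | @snoc γ δ c d q hγ hq ih =>
    have h0 := hγ.nonneg hr.le
    have hq0 := N1_nonneg hr.le q
    have hb : Bd r 2 γ := (hγ.bd hr.le).mono
      ((exp_sub_one_le h0 (by linarith)).trans (by linarith))
    have h1 := ((h k a b c d i p q hk hp hp1 hq (by linarith)).conj hr.le hb).mul
      (ih (by linarith))
    convert h1 using 1
    · group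
    · ring

/-- For fixed `(a, b, i)` use the family of all admissible `(k, η, P, p)`, `famAb` with `η₁ = η`,
`η₂ = N1 p`, orders `k`, `k`, and `St.nf1_step`, `St.Cpt.nf1`. -/
theorem step_WB (hT : Three ι) (hr : 0 < r) (hr' : r ≤ 1 / 4) : ∃ C B : ℝ, 0 ≤ C ∧ 0 ≤ B ∧
    ∀ (k : ℕ) (η : ℝ) (P : ι × ι × Fin 6 → RZ) (a b : ι) (i : Fin 6) (p : RZ), 2 ≤ k → η ≤ 1 →
      (∀ s, X ^ k ∣ P s ∧ N1 r (P s) ≤ η) → X ^ k ∣ p → N1 r p ≤ 1 →
      WB r (k + 1) B ((el ι RZ).nf1 gR X P * (el ι RZ).z a b p (al gR X i) *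
        ((el ι RZ).nf1 gR X (P + Pi.single (a, b, i) p))⁻¹) (C * (η * N1 r p)) := by
  have hζ : ∀ s : qw7_S2 ι r, 0 ≤ s.1.2.1 * N1 r s.1.2.2.2 := fun s =>
    mul_nonneg s.2.2.1 (N1_nonneg hr.le _)
  obtain ⟨H, _, f, hf, hA⟩ := famAb (S := qw7_S2 ι r) hT hr hr' (k := fun s => s.1.1 + 1)
    (k₁ := fun s => s.1.1) (k₂ := fun s => s.1.1) (η₁ := fun s => s.1.2.1)
    (η₂ := fun s => N1 r s.1.2.2.2) (ζ := fun s => s.1.2.1 * N1 r s.1.2.2.2)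
    (fun s => s.2.2.1) (fun s => N1_nonneg hr.le _) hζ
    (fun s => ⟨s.2.1, s.2.1, by have := s.2.1; omega⟩) (fun s => le_rfl)
  obtain ⟨C, B, hC, hB, h⟩ := qw7_unif (σ := ι × ι × Fin 6) (S := qw7_S2 ι r) (r := r)
    (k := fun s => s.1.1 + 1) hζ
    (g := fun j s => (el ι RZ).nf1 gR X s.1.2.2.1 *
      (el ι RZ).z j.1 j.2.1 s.1.2.2.2 (al gR X j.2.2) *
      ((el ι RZ).nf1 gR X (s.1.2.2.1 + Pi.single j s.1.2.2.2))⁻¹) (by
      rintro ⟨a, b, i⟩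
      let PF : ι × ι × Fin 6 → BF r hr.le (qw7_S2 ι r) := fun j =>
        mkS hr.le (fun s => s.1.2.2.1 j) 1 fun s => (s.2.2.2.2.1 j).2.trans s.2.2.2.1
      let pF : BF r hr.le (qw7_S2 ι r) := mkS hr.le (fun s => s.1.2.2.2) 1 fun s => s.2.2.2.2.2.2
      have hP : ∀ j, PF j ∈ JI hr.le (fun s : qw7_S2 ι r => s.1.1) (fun s => s.1.2.1)
          fun s => s.2.2.1 := fun j => mem_JI.2
        ⟨1, fun s => ⟨(s.2.2.2.2.1 j).1, (s.2.2.2.2.1 j).2.trans (one_mul _).ge⟩⟩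
      have hp : pF ∈ JI hr.le (fun s : qw7_S2 ι r => s.1.1) (fun s => N1 r s.1.2.2.2)
          fun s => N1_nonneg hr.le _ := mem_JI.2 ⟨1, fun s => ⟨s.2.2.2.2.2.1, (one_mul _).ge⟩⟩
      have hc := St.nf1_step hT hA (cstS hr.le _ gR) (cstS hr.le _ X) hP a b i hp
      obtain ⟨C, B, h⟩ := mem_EN.1 (hf ((el ι _).nf1 (cstS hr.le _ gR) (cstS hr.le _ X) PF *
        (el ι _).z a b pF (al (cstS hr.le _ gR) (cstS hr.le _ X) i) *
        ((el ι _).nf1 (cstS hr.le _ gR) (cstS hr.le _ X) (PF + Pi.single (a, b, i) pF))⁻¹) (by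
          rw [map_mul, map_mul, map_inv, (St.cpt_map _ f).z, (St.cpt_map _ f).nf1,
            (St.cpt_map _ f).nf1]
          simp only [RingHom.id_apply]
          exact mul_inv_eq_one.2 hc))
      refine ⟨C, B, fun s => ?_⟩
      have := h s
      have e : (fun j => evS hr.le s ((PF + Pi.single (a, b, i) pF : ι × ι × Fin 6 → _) j)) =
          s.1.2.2.1 + Pi.single (a, b, i) s.1.2.2.2 := by
        funext j
        rw [Pi.add_apply, Pi.add_apply, map_add, Pi.apply_single (fun _ => evS hr.le s)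
          (fun _ => map_zero _)]
        rfl
      rw [map_mul, map_mul, map_inv, qw7_z, qw7_nf1, qw7_nf1, e] at this
      exact this)
  exact ⟨C, B, hC, hB, fun k η P a b i p h1 h2 h3 h4 h5 =>
    h (a, b, i) ⟨(k, η, P, p), h1, (N1_nonneg hr.le _).trans (h3 (a, b, i)).2, h2, h3, h4, h5⟩⟩

/-- Induction on `W0`: `E nf1 P (γ z γ⁻¹) = E (nf1 P E₂ (nf1 P)⁻¹) E₃ nf1 P'` with `E₂` from
`drop_conj`, `E₃` from `step_WB`, and `nf1_bd`. -/
theorem stage1 (hT : Three ι) (hr : 0 < r) (hr' : r ≤ 1 / 4) : ∃ C B : ℝ, 0 ≤ C ∧ 0 ≤ B ∧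
    ∀ (k : ℕ) (δ ζ₀ ζ : ℝ) (W : El ι RZ) (τ : RZ), 2 ≤ k → 0 ≤ δ → δ ≤ 1 → ζ₀ ≤ 1 → ζ ≤ ζ₀ →
      W0 r k δ W ζ τ → ∃ P : ι × ι × Fin 6 → RZ, (∀ s, X ^ k ∣ P s) ∧ ∑ s, N1 r (P s) ≤ ζ ∧
        symT P = τ ∧ WB r (k + 1) B (W * ((el ι RZ).nf1 gR X P)⁻¹) (C * ((δ + ζ₀) * ζ)) := by
  obtain ⟨C₁, B₁, hC₁, hB₁, h₁⟩ := drop_conj hT hr hr'
  obtain ⟨C₂, B₂, hC₂, hB₂, h₂⟩ := step_WB hT hr hr'
  have hE : 0 ≤ Real.exp 4 := (Real.exp_pos _).le
  refine ⟨C₁ + C₂, (Real.exp 4 + B₁ + Real.exp 4 * B₁) + B₂, by positivity, by positivity,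
    fun k δ ζ₀ ζ W τ hk hδ0 hδ hζ₀ hζ hW => ?_⟩
  induction hW with
  | one h0 =>
    refine ⟨0, fun s => dvd_zero _, by simpa [N1_zero] using h0, by simp [symT], ?_⟩
    rw [St.nf1_zero, inv_one, mul_one]
    have := h0.trans hζ
    exact WB.one (by positivity)
  | @snoc W γ ζ τ a b p i hW hγ hab hp ih =>
    have h0 := hW.nonneg hr.le
    have hp0 := N1_nonneg hr.le p
    obtain ⟨P, hP, hs, hτ, hWB⟩ := ih (by linarith)
    have hPs : ∀ s, N1 r (P s) ≤ ζ₀ := fun s =>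
      (Finset.single_le_sum (f := fun s => N1 r (P s)) (fun s _ => N1_nonneg hr.le _)
        (mem_univ s)).trans (by linarith)
    refine ⟨P + Pi.single (a, b, i) p, fun s => ?_, ?_, ?_, ?_⟩
    · rw [Pi.add_apply]
      refine dvd_add (hP s) ?_
      rw [Pi.single_apply]
      split_ifs
      · exact hp
      · exact dvd_zero _
    · simp only [Pi.add_apply]
      refine (Finset.sum_le_sum fun s _ => N1_add_le hr.le _ _).trans ?_
      rw [Finset.sum_add_distrib, Finset.sum_eq_single (a, b, i) (f := fun s =>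
        N1 r ((Pi.single (a, b, i) p : ι × ι × Fin 6 → RZ) s)), Pi.single_eq_same]
      · linarith
      · intro s _ hs
        rw [Pi.single_eq_of_ne hs, N1_zero]
      · simp
    · rw [symT_add_single P hab, hτ]
    · have hb : Bd r (Real.exp 4) ((el ι RZ).nf1 gR X P) := (nf1_bd hr.le (by linarith) hs).mono
        (by linarith [Real.exp_le_exp.2 (show 4 * ζ ≤ 4 by linarith)])
      have e2 := ((h₁ k a b i p γ δ hk hp (by linarith) hγ hδ).conj hr.le hb).mono le_rfl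
        (le_add_of_nonneg_right hB₂) le_rfl
      have e3 := (h₂ k ζ₀ P a b i p hk hζ₀ (fun s => ⟨hP s, hPs s⟩) hp (by linarith)).mono le_rfl
        (le_add_of_nonneg_left (show 0 ≤ Real.exp 4 + B₁ + Real.exp 4 * B₁ by positivity)) le_rfl
      have hz : 0 ≤ ζ₀ := by linarith
      have := ((hWB.mul e2).mul e3).mono le_rfl le_rfl
        (show _ ≤ (C₁ + C₂) * ((δ + ζ₀) * (ζ + N1 r p)) by
          nlinarith [mul_nonneg hC₁ (mul_nonneg hz hp0), mul_nonneg hC₂ (mul_nonneg hδ0 hp0)])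
      convert this using 1
      group

end Pool.Agent.Lib.MP_71aad1_an.SS
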