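import Pool.Agent.Lib.MP_71aad1_an.QW5
import Pool.Agent.Lib.MP_71aad1_an.QS4

set_option autoImplicit false

namespace Pool.Agent.Lib.MP_71aad1_an.SS

open Polynomial Matrix Finset Sum

/-! Second normal form with uniform bounds. -/

variable {ι : Type} [Fintype ι] [DecidableEq ι] {r : ℝ}

theorem qw8_exp (c : ℝ) {u : ℝ} (h0 : 0 ≤ u) (h1 : u ≤ 1) :
    Real.exp (c * u) - 1 ≤ (Real.exp c - 1) * u := by
  have := convexOn_exp.2 (Set.mem_univ 0) (Set.mem_univ c) (sub_nonneg.2 h1) h0 (by ring)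
  simp only [smul_eq_mul, mul_zero, zero_add, Real.exp_zero, mul_one] at this
  rw [mul_comm c u]
  linarith

theorem qw8_cong {S : Type} (hr : 0 ≤ r) {ζ : S → ℝ} (hζ : ∀ s, 0 ≤ ζ s) (g : El ι (BF r hr S))
    (C : ℝ) (h : ∀ s, nm r (mat (mapE (evS hr s) g) - 1) ≤ C * ζ s) :
    MCong (JI hr (fun _ => 0) ζ hζ) (mat g) := by
  intro i j
  refine mem_JI.2 ⟨C, fun s => ⟨by rw [pow_zero]; exact one_dvd _, ?_⟩⟩
  refine le_trans (le_of_eq ?_) ((entry_le_nm hr _ i j).trans (h s))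
  rw [mat_mapE, Matrix.sub_apply, Matrix.sub_apply, map_sub, map_apply, one_apply, one_apply,
    apply_ite (evS hr s), map_one, map_zero]

theorem qw8_symT {A A' : Type} [CommRing A] [CommRing A'] (ψ : A →+* A') (P : ι × ι × Fin 6 → A) :
    ψ (symT P) = symT fun s => ψ (P s) := by
  simp only [symT, map_sum, apply_ite ψ, map_zero]

theorem qw8_symT_mem {A : Type} [CommRing A] {J : Ideal A} {P : ι × ι × Fin 6 → A}
    (h : ∀ s, P s ∈ J) : symT P ∈ J := by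
  refine J.sum_mem fun a _ => J.sum_mem fun b _ => ?_
  split_ifs
  · exact J.zero_mem
  · exact h _

theorem qw8_symG_mem {A : Type} [CommRing A] {J : Ideal A} {P : ι × ι × Fin 6 → A}
    (h : ∀ s, P s ∈ J) : symG P ∈ J := by
  refine J.sum_mem fun a _ => J.sum_mem fun b _ => ?_
  split_ifs
  · exact J.zero_mem
  · exact J.sub_mem (h _) (h _)

theorem qw8_unif {σ S : Type} [Fintype σ] {Q : σ → Prop} {f : σ → S → ℝ} {ζ : S → ℝ}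
    (hζ : ∀ s, 0 ≤ ζ s) (h : ∀ a, Q a → ∃ C, ∀ s, f a s ≤ C * ζ s) :
    ∃ C, 0 ≤ C ∧ ∀ a, Q a → ∀ s, f a s ≤ C * ζ s := by
  have h' : ∀ a, ∃ C, Q a → ∀ s, f a s ≤ C * ζ s := fun a => by
    by_cases e : Q a
    · obtain ⟨C, hC⟩ := h a e
      exact ⟨C, fun _ => hC⟩
    · exact ⟨0, fun e' => absurd e' e⟩
  choose c hc using h'
  refine ⟨∑ a, |c a|, Finset.sum_nonneg fun _ _ => abs_nonneg _, fun a e s => (hc a e s).trans ?_⟩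
  exact mul_le_mul_of_nonneg_right ((le_abs_self _).trans
    (Finset.single_le_sum (f := fun a => |c a|) (fun _ _ => abs_nonneg _) (Finset.mem_univ a)))
    (hζ s)

theorem qw8_fam (T : Tri ι) (hr : 0 < r) (hr' : r ≤ 1 / 4) {S : Type} (k : S → ℕ) (η : S → ℝ)
    (P : S → ι × ι × Fin 6 → RZ) (hk : ∀ s, 2 ≤ k s) (h1 : ∀ s, η s ≤ 1)
    (hP : ∀ s σ, X ^ k s ∣ P s σ ∧ N1 r (P s σ) ≤ η s)
    (hn : ∀ s, nm r (mat ((el ι RZ).nf1 gR X (P s)) - 1) ≤ η s ^ 2) : ∃ C B : ℝ, 0 ≤ C ∧ 0 ≤ B ∧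
      ∀ x, ∃ (P' : ι × ι → RZ) (s : ι → RZ) (γ : RZ),
        (∀ a b, a ≠ b → X ^ k x ∣ P' (a, b) ∧ N1 r (P' (a, b)) ≤ C * η x ^ 2) ∧
        (∀ a, a ≠ T.i0 → X ^ k x ∣ s a ∧ N1 r (s a) ≤ C * η x ^ 2) ∧
        (X ^ k x ∣ γ ∧ N1 r γ ≤ 10 / 2 ^ k x) ∧
        WB r (k x + 1) B
          ((el ι RZ).nf1 gR X (P x) * ((el ι RZ).nf2 T gR X P' s (symT (P x)) γ)⁻¹)
          (C * η x ^ 2) := by
  have hη : ∀ s, 0 ≤ η s := fun s => (N1_nonneg hr.le _).trans (hP s (T.i0, T.i0, 0)).2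
  have hζ : ∀ s, 0 ≤ η s ^ 2 := fun s => sq_nonneg _
  obtain ⟨PF, hPF⟩ : ∃ PF : ι × ι × Fin 6 → BF r hr.le S, ∀ s σ, evS hr.le s (PF σ) = P s σ :=
    ⟨fun σ => mkS hr.le (fun s => P s σ) 1 fun s => (hP s σ).2.trans (h1 s), fun _ _ => rfl⟩
  have hPJ : ∀ σ, PF σ ∈ JI hr.le k η hη := fun σ =>
    mem_JI.2 ⟨1, fun s => by rw [hPF, one_mul]; exact hP s σ⟩
  obtain ⟨C₀, hC₀⟩ := mem_JI.1 (qw8_symG_mem hPJ)
  obtain ⟨C₀', hC₀'⟩ := BF_bdd (symG PF)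
  choose γ' γ e1 d1 d2 n1 n2 n3 using fun s => split_two hr.le (hC₀ s).1
  obtain ⟨γF, hγF⟩ : ∃ γF : BF r hr.le S, ∀ s, evS hr.le s γF = γ s :=
    ⟨mkS hr.le γ C₀' fun s => (n2 s).trans (hC₀' s), fun _ => rfl⟩
  obtain ⟨γF', hγF'⟩ : ∃ γF : BF r hr.le S, ∀ s, evS hr.le s γF = γ' s :=
    ⟨mkS hr.le γ' C₀' fun s => (n1 s).trans (hC₀' s), fun _ => rfl⟩
  have hγJ : γF ∈ JI hr.le k η hη :=
    mem_JI.2 ⟨C₀, fun s => by rw [hγF]; exact ⟨d2 s, (n2 s).trans (hC₀ s).2⟩⟩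
  have hγJ' : γF' ∈ JI hr.le k η hη :=
    mem_JI.2 ⟨C₀, fun s => by rw [hγF']; exact ⟨d1 s, (n1 s).trans (hC₀ s).2⟩⟩
  have hG : symG PF = 2 * γF' + γF := BF_ext fun s => by
    rw [map_add, map_mul, map_ofNat, hγF, hγF']; exact e1 s
  obtain ⟨g, hg⟩ : ∃ g : BF r hr.le S, ∀ s, evS hr.le s g = gR := ⟨cstS hr.le S gR, fun _ => rfl⟩
  obtain ⟨t, ht⟩ : ∃ t : BF r hr.le S, ∀ s, evS hr.le s t = X := ⟨cstS hr.le S X, fun _ => rfl⟩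
  have hgg : g * g = 1 := BF_ext fun s => by rw [map_mul, hg, map_one, gR_mul_gR]
  obtain ⟨H, _, f, hf, hA⟩ := famAb (k := fun s => k s + 1) T.three hr hr' hη hη hζ
    (fun s => ⟨hk s, hk s, by have := hk s; omega⟩) fun s => (sq (η s)).ge
  obtain ⟨P', d, hP', hd, hnf⟩ := St.abNF T hA hgg t hPJ hγJ hγJ' hG
  have hE := hf ((el ι _).nf1 g t PF * ((el ι _).nf2 T g t P' d (symT PF) γF)⁻¹) (by
    rw [map_mul, map_inv, (St.cpt_map _ f).nf1, (St.cpt_map _ f).nf2, mul_inv_eq_one]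
    exact hnf)
  obtain ⟨C₁, B, hW⟩ := mem_EN.1 hE
  have m1 : ∀ s, mapE (evS hr.le s) ((el ι _).nf1 g t PF) = (el ι RZ).nf1 gR X (P s) := fun s => by
    rw [(mapE_cpt _).nf1, hg, ht]
    simp only [hPF]
  have c1 : MCong (JI hr.le (fun _ => 0) _ hζ) (mat ((el ι _).nf1 g t PF)) :=
    qw8_cong hr.le hζ _ 1 fun s => by rw [m1, one_mul]; exact hn s
  have c2 := qw8_cong hr.le hζ _ (Real.exp ((1 + B) ^ 2 * C₁) - 1) fun s =>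
    ((hW s).bd hr.le).1.trans (by
      rw [← mul_assoc]
      exact qw8_exp _ (hζ s) (pow_le_one₀ (hη s) (h1 s)))
  have c3 := c2.inv.mul c1
  rw [← mat_mul, _root_.mul_inv_rev, inv_inv, mul_assoc, inv_mul_cancel, mul_one] at c3
  obtain ⟨r1, r2⟩ := nf2_read T (J := JI hr.le k η hη) (fun p hp q hq => by
    obtain ⟨a, ha⟩ := mem_JI.1 hp
    obtain ⟨b, hb⟩ := mem_JI.1 hq
    refine mem_JI.2 ⟨a * b, fun s => ⟨by rw [pow_zero]; exact one_dvd _, ?_⟩⟩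
    rw [map_mul]
    refine (N1_mul_le hr.le _ _).trans ((mul_le_mul (ha s).2 (hb s).2 (N1_nonneg hr.le _)
      ((N1_nonneg hr.le _).trans (ha s).2)).trans (le_of_eq ?_))
    ring) g t hP' hd (qw8_symT_mem hPJ) hγJ c3
  obtain ⟨C₂, p2, h2⟩ := qw8_unif (Q := fun ab : ι × ι => ab.1 ≠ ab.2)
    (f := fun ab s => N1 r (evS hr.le s (P' ab))) hζ fun ab e => by
      obtain ⟨C, hC⟩ := mem_JI.1 (r1 ab.1 ab.2 e)
      exact ⟨C, fun s => (hC s).2⟩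
  obtain ⟨C₃, p3, h3⟩ := qw8_unif (Q := fun a : ι => a ≠ T.i0)
    (f := fun a s => N1 r (evS hr.le s (d a))) hζ fun a e => by
      obtain ⟨C, hC⟩ := mem_JI.1 (r2 a e)
      exact ⟨C, fun s => (hC s).2⟩
  have p1 := abs_nonneg C₁
  refine ⟨|C₁| + C₂ + C₃, |B|, by positivity, abs_nonneg _, fun x =>
    ⟨fun ab => evS hr.le x (P' ab), fun a => evS hr.le x (d a), γ x, fun a b e => ⟨?_, ?_⟩,
      fun a e => ⟨?_, ?_⟩, ⟨d2 x, N1_small hr.le hr' (d2 x) (n3 x)⟩, ?_⟩⟩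
  · obtain ⟨C, hC⟩ := mem_JI.1 (hP' (a, b))
    exact (hC x).1
  · exact (h2 (a, b) e x).trans (mul_le_mul_of_nonneg_right (by linarith) (hζ x))
  · obtain ⟨C, hC⟩ := mem_JI.1 (hd a)
    exact (hC x).1
  · exact (h3 a e x).trans (mul_le_mul_of_nonneg_right (by linarith) (hζ x))
  · have := (hW x).mono le_rfl (le_abs_self B) (mul_le_mul_of_nonneg_right
      (show C₁ ≤ |C₁| + C₂ + C₃ by linarith [le_abs_self C₁]) (hζ x))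
    rw [map_mul, map_inv, m1, (mapE_cpt _).nf2, hg, ht, hγF, qw8_symT] at this
    simpa only [hPF] using this

/-- Family `S` of all admissible `(k, η, P)`; choose `γ'`, `γ` by `split_two` applied to `symG P`.
`famAb` with `η₁ = η₂ = η`, `ζ = η ^ 2`, and `St.abNF` give `P'`, `s` in `JI k η` with
`nf1 P * (nf2 ..)⁻¹ ∈ EN`. Let `I = JI 0 (η ^ 2)`. Elements of `EN` are congruent to `1` modulo `I`
(`WB.bd`: `exp (c η²) - 1 ≤ (exp c) η²` for `η² ≤ 1`), and so is `nf1 P` by hypothesis; apply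
`nf2_read` over the ring of families. -/
theorem abQ (T : Tri ι) (hr : 0 < r) (hr' : r ≤ 1 / 4) : ∃ C B : ℝ, 0 ≤ C ∧ 0 ≤ B ∧
    ∀ (k : ℕ) (η : ℝ) (P : ι × ι × Fin 6 → RZ), 2 ≤ k → η ≤ 1 →
      (∀ s, X ^ k ∣ P s ∧ N1 r (P s) ≤ η) → nm r (mat ((el ι RZ).nf1 gR X P) - 1) ≤ η ^ 2 →
      ∃ (P' : ι × ι → RZ) (s : ι → RZ) (γ : RZ),
        (∀ a b, a ≠ b → X ^ k ∣ P' (a, b) ∧ N1 r (P' (a, b)) ≤ C * η ^ 2) ∧
        (∀ a, a ≠ T.i0 → X ^ k ∣ s a ∧ N1 r (s a) ≤ C * η ^ 2) ∧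
        (X ^ k ∣ γ ∧ N1 r γ ≤ 10 / 2 ^ k) ∧
        WB r (k + 1) B ((el ι RZ).nf1 gR X P * ((el ι RZ).nf2 T gR X P' s (symT P) γ)⁻¹)
          (C * η ^ 2) := by
  obtain ⟨C, B, hC, hB, h⟩ := qw8_fam T hr hr'
    (S := {x : ℕ × ℝ × (ι × ι × Fin 6 → RZ) // 2 ≤ x.1 ∧ x.2.1 ≤ 1 ∧
      (∀ s, X ^ x.1 ∣ x.2.2 s ∧ N1 r (x.2.2 s) ≤ x.2.1) ∧
      nm r (mat ((el ι RZ).nf1 gR X x.2.2) - 1) ≤ x.2.1 ^ 2})
    (fun x => x.1.1) (fun x => x.1.2.1) (fun x => x.1.2.2) (fun x => x.2.1) (fun x => x.2.2.1)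
    (fun x => x.2.2.2.1) fun x => x.2.2.2.2
  exact ⟨C, B, hC, hB, fun k η P h1 h2 h3 h4 => h ⟨(k, η, P), h1, h2, h3, h4⟩⟩

end Pool.Agent.Lib.MP_71aad1_an.SS
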