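import Pool.Agent.Lib.MP_71aad1_an.QW4
import Pool.Agent.Lib.MP_71aad1_an.QW6
import Pool.Agent.Lib.MP_71aad1_an.QW7
import Pool.Agent.Lib.MP_71aad1_an.QW8

set_option autoImplicit false

namespace Pool.Agent.Lib.MP_71aad1_an.SS

open Polynomial Matrix Finset Sum

/-! The local contraction lemma. -/

variable {ι : Type} [Fintype ι] [DecidableEq ι] {r : ℝ}

/-- Multiply `W` by the inverse of the trivial word of `null_word` for its symbol `τ`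
(`W0.tau`): size `66 η`, symbol `ρ` with `N1 ρ ≤ 10 / 2 ^ k`. `stage1` with `ζ₀ = 66 η` gives
`W = E nf1 P` with `E` of size `C₁ η²`; so `nm (nf1 P - 1) ≤ C₂ η²` (`WB.bd`, `exp_sub_one_le`,
`nm_mul_sub_one`). `abQ` with `η' = C₃ η`, `C₃ ≥ 66`, `C₃² ≥ C₂`. `nf2_W0` for the normal form and
`renorm` with `δ = η` for the two error words. Choose `j₀` large and
`η = 2 (C + 1) N1 (t ^ j₀)` with `C` the constant of `renorm` (this also gives the two conditions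
of `null_word`); then `(j₀ + 1) η → 0` (`N1_X_pow_le`); finally `k₀` large. -/
theorem local_contraction (T : Tri ι) (hr : 0 < r) (hr' : r ≤ 1 / 4) {η₁ : ℝ} (h₁ : 0 < η₁) :
    ∃ η : ℝ, 0 < η ∧ η ≤ η₁ ∧ ∃ k₀ : ℕ, ∀ k, k₀ ≤ k → ∀ (W : El ι RZ) (τ : RZ),
      W0 r k η W (3 * η) τ → nm r (mat W - 1) ≤ η ^ 2 → ∃ τ', W0 r k η W η τ' := by
  have hT := T.three
  obtain ⟨C1, B1, hC1, hB1, H1⟩ := stage1 hT hr hr'
  obtain ⟨C2, B2, hC2, hB2, H2⟩ := abQ T hr hr'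
  obtain ⟨C, hC, H3⟩ := renorm hT hr hr' (B1 + B2)
  obtain ⟨a, ha⟩ : ∃ a : ℝ, a = (1 + B1) ^ 2 * (C1 * 4422) := ⟨_, rfl⟩
  have ha0 : 0 ≤ a := by rw [ha]; positivity
  obtain ⟨C3, hC3⟩ : ∃ C3 : ℝ, C3 = 67 + 4 * a := ⟨_, rfl⟩
  obtain ⟨n, hn⟩ : ∃ n : ℝ, n = (Fintype.card ι : ℝ) ^ 2 + 3 * Fintype.card ι + 12 := ⟨_, rfl⟩
  have hn0 : 0 ≤ n := by rw [hn]; positivity
  obtain ⟨D1, hD1⟩ : ∃ D1 : ℝ, D1 = C * (C1 * 4422 + C2 * C3 ^ 2) := ⟨_, rfl⟩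
  obtain ⟨D2, hD2⟩ : ∃ D2 : ℝ, D2 = n * (C2 * C3 ^ 2) := ⟨_, rfl⟩
  have hD10 : 0 ≤ D1 := by rw [hD1]; positivity
  have hD20 : 0 ≤ D2 := by rw [hD2]; positivity
  have hi : 0 < 1 / η₁ := by positivity
  obtain ⟨M, hM⟩ : ∃ M : ℝ, M = 1 / η₁ + C3 + 4 * D1 + 4 * D2 := ⟨_, rfl⟩
  have hM0 : 0 < M := by linarith
  obtain ⟨M₀, hM₀⟩ := exists_theta (θ := 1 / (2 * (C + 1) * M)) hr.le (by linarith)
    (by positivity)
  obtain ⟨j₀, hj1, hj2⟩ : ∃ j₀ : ℕ, M₀ ≤ j₀ ∧ 2 ≤ j₀ := ⟨max M₀ 2, le_max_left _ _, le_max_right _ _⟩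
  have hN := hM₀ j₀ hj1 j₀ le_rfl
  rw [← N1_X_pow (K := ℤ)] at hN
  have hNpos : 0 < N1 r (X ^ j₀ : RZ) := by
    rw [N1_X_pow]
    positivity
  obtain ⟨η, hη⟩ : ∃ η : ℝ, η = 2 * (C + 1) * N1 r (X ^ j₀ : RZ) := ⟨_, rfl⟩
  have hη0 : 0 < η := by rw [hη]; positivity
  have hjη : ((j₀ : ℝ) + 1) * η * M ≤ 1 := by
    rw [le_div_iff₀ (by positivity)] at hN
    rw [hη]
    linarith
  have hηj : η ≤ ((j₀ : ℝ) + 1) * η :=
    le_mul_of_one_le_left hη0.le (by linarith [(Nat.cast_nonneg j₀ : (0 : ℝ) ≤ j₀)])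
  have hηM : η * M ≤ 1 := (mul_le_mul_of_nonneg_right hηj hM0.le).trans hjη
  have s1 : η ≤ η₁ := by
    have e1 : η * (1 / η₁) ≤ η * M := mul_le_mul_of_nonneg_left (by linarith) hη0.le
    rw [mul_one_div] at e1
    exact (div_le_one h₁).mp (e1.trans hηM)
  have s2 : C3 * η ≤ 1 := by
    have e1 : η * C3 ≤ η * M := mul_le_mul_of_nonneg_left (by linarith) hη0.le
    linarith
  have s3 : ((j₀ : ℝ) + 1) * η * D1 ≤ 1 / 4 := by
    have e1 : ((j₀ : ℝ) + 1) * η * (4 * D1) ≤ ((j₀ : ℝ) + 1) * η * M :=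
      mul_le_mul_of_nonneg_left (by linarith) (by positivity)
    linarith
  have s4 : η * D2 ≤ 1 / 4 := by
    have e1 : η * (4 * D2) ≤ η * M := mul_le_mul_of_nonneg_left (by linarith) hη0.le
    linarith
  have s5 : 67 * η ≤ C3 * η := mul_le_mul_of_nonneg_right (by linarith) hη0.le
  have s6 : a * η ≤ C3 * η := mul_le_mul_of_nonneg_right (by linarith) hη0.le
  have s7 : η ≤ 1 := by linarith
  have s8 : η ^ 2 ≤ η := by nlinarith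
  have s9 : a * η ^ 2 ≤ 1 := by
    have := mul_le_mul_of_nonneg_left s8 ha0
    linarith
  obtain ⟨k1, hk1⟩ := pow_unbounded_of_one_lt (20 * n / η) (one_lt_two (α := ℝ))
  refine ⟨η, hη0, s1, max k1 (2 * j₀), fun k hk W τ hW hWn => ?_⟩
  have hk2 : 2 * j₀ ≤ k := (le_max_right _ _).trans hk
  have hk3 : n * (10 / 2 ^ k) ≤ η / 2 := by
    have e1 : (2 : ℝ) ^ k1 ≤ 2 ^ k := pow_le_pow_right₀ one_le_two ((le_max_left _ _).trans hk)
    have e2 := hk1.le.trans e1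
    rw [div_le_iff₀ hη0] at e2
    rw [← mul_div_assoc, div_le_iff₀ (by positivity)]
    linarith
  have hN2 : N1 r (X ^ (k + 1 - j₀) : RZ) ≤ N1 r (X ^ j₀ : RZ) :=
    N1_X_pow_anti hr.le (by linarith) (by omega)
  have hN3 : N1 r (X ^ j₀ : RZ) ≤ η := by
    rw [hη]
    exact le_mul_of_one_le_left hNpos.le (by linarith)
  obtain ⟨t1, t2⟩ := hW.tau hr.le
  obtain ⟨ρ, r1, r2, r3⟩ := null_word T hr.le hr' hj2 (by omega) hN3 (hN2.trans hN3) t1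
  have w1 : W0 r k η W (66 * η) ρ := by
    have e1 := hW.mul r3.inv
    rw [inv_one, mul_one, neg_sub, add_sub_cancel] at e1
    exact e1.mono le_rfl le_rfl (by linarith)
  obtain ⟨P, p1, p2, p3, p4⟩ := H1 k η (66 * η) (66 * η) W ρ (by omega) hη0.le s7 (by linarith)
    le_rfl w1
  have e0 : C1 * ((η + 66 * η) * (66 * η)) = C1 * 4422 * η ^ 2 := by ring
  rw [e0] at p4
  have b1 : nm r (mat (W * ((el ι RZ).nf1 gR X P)⁻¹)⁻¹ - 1) ≤ 2 * (a * η ^ 2) := by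
    have e1 := (p4.bd hr.le).2
    have e2 : (1 + B1) ^ 2 * (C1 * 4422 * η ^ 2) = a * η ^ 2 := by rw [ha]; ring
    rw [e2] at e1
    exact e1.trans (exp_sub_one_le (by positivity) s9)
  have b2 : nm r (mat ((el ι RZ).nf1 gR X P) - 1) ≤ (C3 * η) ^ 2 := by
    have e1 := nm_mul_sub_one hr.le b1 hWn
    rw [← mat_mul, _root_.mul_inv_rev, inv_inv, inv_mul_cancel_right] at e1
    have e2 : 2 * (a * η ^ 2) * η ^ 2 ≤ 2 * (a * η ^ 2) * 1 :=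
      mul_le_mul_of_nonneg_left (s8.trans s7) (by positivity)
    have e3 : C3 * η ^ 2 ≤ C3 ^ 2 * η ^ 2 :=
      mul_le_mul_of_nonneg_right (by nlinarith) (by positivity)
    have e4 : C3 * η ^ 2 = 67 * η ^ 2 + 4 * (a * η ^ 2) := by rw [hC3]; ring
    have e5 : 0 ≤ η ^ 2 := by positivity
    rw [mul_pow]
    linarith
  obtain ⟨P', s, γ, q1, q2, q3, q4⟩ := H2 k (C3 * η) P (by omega) s2 (fun x => ⟨p1 x, by
    have e1 : N1 r (P x) ≤ ∑ s, N1 r (P s) :=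
      single_le_sum (f := fun s => N1 r (P s)) (fun s _ => N1_nonneg hr.le _) (mem_univ x)
    linarith⟩) b2
  have f1 : (0 : ℝ) ≤ 10 / 2 ^ k := by positivity
  have f2 : 0 ≤ C2 * (C3 * η) ^ 2 := by positivity
  obtain ⟨τ1, v1⟩ := nf2_W0 (k := k) T hr.le (by linarith) hη0.le
    (ε := C2 * (C3 * η) ^ 2 + 10 / 2 ^ k) (P := P') (s := s) (τ := symT P) (γ := γ)
    (fun a b h => ⟨(q1 a b h).1, by linarith [(q1 a b h).2]⟩)
    (fun a h => ⟨(q2 a h).1, by linarith [(q2 a h).2]⟩)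
    (by rw [p3]; exact ⟨r1, by linarith⟩) ⟨q3.1, by linarith [q3.2]⟩
  have u1 := (p4.mono le_rfl (by linarith : B1 ≤ B1 + B2) le_rfl).mul
    (q4.mono le_rfl (by linarith : B2 ≤ B1 + B2) le_rfl)
  obtain ⟨τ2, v2⟩ := H3 k j₀ η _ _ hj2 (by omega) (by
    rw [hη]
    nlinarith) u1
  have v3 := v2.mul v1
  rw [← hn] at v3
  simp only [mul_assoc, inv_mul_cancel_left, inv_mul_cancel, mul_one] at v3
  refine ⟨_, v3.mono le_rfl le_rfl ?_⟩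
  have g1 : C * (((j₀ : ℝ) + 1) * (C1 * (4422 * η ^ 2) + C2 * (C3 * η) ^ 2)) =
      ((j₀ : ℝ) + 1) * η * D1 * η := by
    rw [hD1]
    ring
  have g2 : n * (C2 * (C3 * η) ^ 2 + 10 / 2 ^ k) = η * D2 * η + n * (10 / 2 ^ k) := by
    rw [hD2]
    ring
  have g3 := mul_le_mul_of_nonneg_right s3 hη0.le
  have g4 := mul_le_mul_of_nonneg_right s4 hη0.le
  rw [g1, g2]
  linarith

end Pool.Agent.Lib.MP_71aad1_an.SS
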