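import Pool.Agent.Lib.MP_71aad1_an.Gam

set_option autoImplicit false

/-! Values of the cocycle. -/

namespace Pool.Agent.Lib.MP_71aad1_an

open Finset Pos Matrix

variable {I K L : Type} [Fintype I] [Fintype K] [Fintype L] [Pos I] [Pos K] [Pos L]

lemma Gam_three (A : Matrix I K Z9) (B : Matrix K I Z9) : 3 * Gam A B = 0 := by
  have h1 : ∀ r : Z9, 3 * (r - r ^ 3) = 0 := by decide
  have h2 : ∀ p, 3 * tri p = 0 := by decide
  simp only [Gam, mul_add, mul_sum]
  rw [sum_eq_zero, sum_eq_zero, add_zero]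
  · intro x _
    refine sum_eq_zero fun y _ => ?_
    linear_combination (nn (ps x) * wt A B x y) * h2 (ps y)
  · intro x _
    refine sum_eq_zero fun y _ => ?_
    linear_combination (B y x) * h1 (A x y)

lemma Gam_zero_of (A : Matrix I K Z9) (B : Matrix K I Z9) (h1 : ∀ i k, A i k = 0 ∨ B k i = 0)
    (h2 : ∀ x y, wt A B x y = 0) : Gam A B = 0 := by
  simp only [Gam, h2, mul_zero, sum_const_zero, add_zero]
  refine sum_eq_zero fun i _ => sum_eq_zero fun k _ => ?_
  rcases h1 i k with h | h <;> simp [h]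

lemma Gam_one_add [DecidableEq I] (X B : Matrix I I Z9) :
    Gam (1 + (3 : Z9) • X) B = 3 * trace (B * X) := by
  have h1 : ∀ x : Z9, (1 + 3 * x) - (1 + 3 * x) ^ 3 = 3 * x := by decide
  have h2 : ∀ x : Z9, (3 * x) - (3 * x) ^ 3 = 3 * x := by decide
  have h3 : ∀ p, tri p * 3 = 0 := by decide
  have h4 : ∀ p, nn p * tri p = 0 := by decide
  rw [Gam, sum_eq_zero (s := univ (α := T3 I)), add_zero, trace, sum_comm, mul_sum]
  · refine sum_congr rfl fun k _ => ?_
    rw [diag_apply, mul_apply, mul_sum]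
    refine sum_congr rfl fun i _ => ?_
    by_cases h : i = k
    · simp only [Matrix.add_apply, h, one_apply_eq, Matrix.smul_apply, smul_eq_mul, h1]; ring
    · simp only [Matrix.add_apply, one_apply_ne h, Matrix.smul_apply, smul_eq_mul, zero_add, h2]; ring
  · intro x _
    refine sum_eq_zero fun y _ => ?_
    by_cases h : x = y
    · rw [h, h4, zero_mul]
    have h5 : ∀ a b, a ≠ b → tri (ps y) * (1 + (3 : Z9) • X : Matrix I I Z9) a b = 0 := fun a b h => by
      simp only [Matrix.add_apply, one_apply_ne h, Matrix.smul_apply, smul_eq_mul, zero_add, ← mul_assoc, h3,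
        zero_mul]
    have h6 : x.1 ≠ y.1 ∨ x.2.1 ≠ y.2.1 ∨ x.2.2 ≠ y.2.2 := by
      by_contra h7
      push Not at h7
      exact h (Prod.ext h7.1 (Prod.ext h7.2.1 h7.2.2))
    rw [wt]
    generalize (1 + (3 : Z9) • X : Matrix I I Z9) = A at h5
    rcases h6 with h6 | h6 | h6
    · linear_combination (nn (ps x) * B y.1 x.2.1 * (A x.2.1 y.2.1 * B y.2.1 x.2.2) *
        (A x.2.2 y.2.2 * B y.2.2 x.1)) * h5 _ _ h6
    · linear_combination (nn (ps x) * B y.1 x.2.1 * (A x.1 y.1 * B y.2.1 x.2.2) *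
        (A x.2.2 y.2.2 * B y.2.2 x.1)) * h5 _ _ h6
    · linear_combination (nn (ps x) * B y.1 x.2.1 * (A x.2.1 y.2.1 * B y.2.1 x.2.2) *
        (A x.1 y.1 * B y.2.2 x.1)) * h5 _ _ h6

/-- Block triangular matrices with equal diagonal blocks. -/
lemma Gam_block {n : ℕ} (A B : Matrix (Fin n × I) (Fin n × I) Z9) (A0 B0 : Matrix I I Z9)
    (hA : ∀ x y, y.1 < x.1 → A x y = 0) (hB : ∀ x y, y.1 < x.1 → B x y = 0)
    (hA0 : ∀ i a b, A (i, a) (i, b) = A0 a b) (hB0 : ∀ i a b, B (i, a) (i, b) = B0 a b) :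
    Gam A B = n * Gam A0 B0 := by
  have e1 : ∑ x, ∑ y, B y x * (A x y - A x y ^ 3) =
      ∑ _i : Fin n, ∑ a, ∑ b, B0 b a * (A0 a b - A0 a b ^ 3) := by
    rw [Fintype.sum_prod_type]
    refine sum_congr rfl fun i _ => sum_congr rfl fun a _ => ?_
    rw [Fintype.sum_prod_type, sum_eq_single i (fun j _ hj => sum_eq_zero fun b _ => ?_) (by simp)]
    · simp only [hA0, hB0]
    · rcases lt_or_gt_of_ne hj with h | h
      · simp [hA (i, a) (j, b) h]
      · simp [hB (j, b) (i, a) h]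
  have e2 : ∑ x, ∑ y, nn (ps x) * tri (ps y) * wt A B x y =
      ∑ _i : Fin n, ∑ x, ∑ y, nn (ps x) * tri (ps y) * wt A0 B0 x y := by
    rw [← Fintype.sum_prod_type' fun x y => nn (ps x) * tri (ps y) * wt A B x y,
      ← Fintype.sum_prod_type' fun x y => nn (ps x) * tri (ps y) * wt A0 B0 x y,
      ← Fintype.sum_prod_type' fun (_ : Fin n) (z : T3 I × T3 I) =>
        nn (ps z.1) * tri (ps z.2) * wt A0 B0 z.1 z.2]
    symm
    refine Fintype.sum_of_injective (fun z : Fin n × T3 I × T3 I =>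
      (((z.1, z.2.1.1), (z.1, z.2.1.2.1), (z.1, z.2.1.2.2)),
        ((z.1, z.2.2.1), (z.1, z.2.2.2.1), (z.1, z.2.2.2.2)))) ?_ _ _ ?_ ?_
    · rintro ⟨i, ⟨a, b, c⟩, d, e, f⟩ ⟨i', ⟨a', b', c'⟩, d', e', f'⟩ h
      simp only [Prod.mk.injEq] at h ⊢
      tauto
    · rintro ⟨⟨⟨i1, a⟩, ⟨i2, b⟩, ⟨i3, c⟩⟩, ⟨j1, d⟩, ⟨j2, e⟩, ⟨j3, f⟩⟩ h
      by_contra h0
      have h1 := right_ne_zero_of_mul h0
      simp only [wt] at h1
      have g1 := left_ne_zero_of_mul (left_ne_zero_of_mul h1)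
      have g2 := right_ne_zero_of_mul (left_ne_zero_of_mul h1)
      have g3 := right_ne_zero_of_mul h1
      have k1 : ¬ j1 < i1 := mt (hA (i1, a) (j1, d)) (left_ne_zero_of_mul g1)
      have k2 : ¬ i2 < j1 := mt (hB (j1, d) (i2, b)) (right_ne_zero_of_mul g1)
      have k3 : ¬ j2 < i2 := mt (hA (i2, b) (j2, e)) (left_ne_zero_of_mul g2)
      have k4 : ¬ i3 < j2 := mt (hB (j2, e) (i3, c)) (right_ne_zero_of_mul g2)
      have k5 : ¬ j3 < i3 := mt (hA (i3, c) (j3, f)) (left_ne_zero_of_mul g3)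
      have k6 : ¬ i1 < j3 := mt (hB (j3, f) (i1, a)) (right_ne_zero_of_mul g3)
      obtain rfl : i1 = i2 := by omega
      obtain rfl : i1 = i3 := by omega
      obtain rfl : i1 = j1 := by omega
      obtain rfl : i1 = j2 := by omega
      obtain rfl : i1 = j3 := by omega
      exact h ⟨(i1, (a, b, c), (d, e, f)), rfl⟩
    · rintro ⟨i, ⟨a, b, c⟩, d, e, f⟩
      simp only [wt, hA0, hB0]
      congr 2 <;> simp [ps]
  rw [Gam, e1, e2, Gam]
  simp only [sum_const, card_univ, Fintype.card_fin, nsmul_eq_mul, mul_add]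

variable [DecidableEq I] [DecidableEq K] [DecidableEq L]

/-- The cocycle for the power `j + 1`. -/
def GG (j : ℕ) (A : Matrix I K Z9) (B : Matrix K I Z9) : Z9 := Gam A (B * (A * B) ^ j)

omit [Pos I] [Pos K] in
lemma pow_comm' {R : Type} [Semiring R] (A : Matrix I K R) (B : Matrix K I R) (j : ℕ) :
    (A * B) ^ j * A = A * (B * A) ^ j := by
  induction j with
  | zero => simp
  | succ j ih => rw [pow_succ, pow_succ, ← Matrix.mul_assoc, ← Matrix.mul_assoc, ih]; simp only [Matrix.mul_assoc]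

theorem GG_tri (j : ℕ) (A : Matrix I K Z9) (B : Matrix K L Z9) (C : Matrix L I Z9) :
    GG j A (B * C) + GG j B (C * A) = GG j (A * B) C := by
  rw [GG, GG, GG, ← Gam_tri, Matrix.mul_assoc B C, Matrix.mul_assoc C A, Matrix.mul_assoc C _ A,
    Matrix.mul_assoc A B C, pow_comm', Matrix.mul_assoc B C A]

lemma GG_one (j : ℕ) (B : Matrix I I Z9) : GG j (1 : Matrix I I Z9) B = 0 := by
  have h := GG_tri j (1 : Matrix I I Z9) (1 : Matrix I I Z9) B
  simpa using h

/-- Reduction modulo nine. -/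
def red {I K : Type} (A : Matrix I K ℤ) : Matrix I K Z9 := A.map (Int.castRingHom Z9)

omit [Fintype I] [Fintype L] [Pos I] [Pos K] [Pos L] [DecidableEq I] [DecidableEq K] [DecidableEq L] in
lemma red_mul (A : Matrix I K ℤ) (B : Matrix K L ℤ) : red (A * B) = red A * red B := Matrix.map_mul

omit [Fintype I] [Pos I] in
lemma red_one : red (1 : Matrix I I ℤ) = 1 := Matrix.map_one _ (map_zero _) (map_one _)

omit [Pos I] in
lemma red_pow (A : Matrix I I ℤ) (j : ℕ) : red (A ^ j) = red A ^ j :=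
  map_pow (Int.castRingHom Z9).mapMatrix A j

/-- Nonnegative matrices. -/
def NN {I K : Type} (A : Matrix I K ℤ) : Prop := ∀ i k, 0 ≤ A i k

omit [Fintype I] [Fintype L] [Pos I] [Pos K] [Pos L] [DecidableEq I] [DecidableEq K] [DecidableEq L] in
lemma NN.mul {A : Matrix I K ℤ} {B : Matrix K L ℤ} (hA : NN A) (hB : NN B) : NN (A * B) :=
  fun _ _ => sum_nonneg fun _ _ => mul_nonneg (hA _ _) (hB _ _)

omit [Fintype I] [Fintype L] [Pos I] [Pos K] [Pos L] [DecidableEq I] [DecidableEq K] [DecidableEq L] in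
lemma NN.le {A : Matrix I K ℤ} {B : Matrix K L ℤ} (hA : NN A) (hB : NN B) (i : I) (k : K) (l : L) :
    A i k * B k l ≤ (A * B) i l :=
  single_le_sum (f := fun k => A i k * B k l) (fun _ _ => mul_nonneg (hA _ _) (hB _ _)) (mem_univ k)

omit [Fintype I] [Pos I] in
lemma NN.one : NN (1 : Matrix I I ℤ) := fun i k => by
  rw [one_apply]; split_ifs <;> simp

omit [Pos I] in
lemma NN.pow {A : Matrix I I ℤ} (hA : NN A) (j : ℕ) : NN (A ^ j) := by
  induction j with
  | zero => simpa using NN.one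
  | succ j ih => rw [pow_succ]; exact ih.mul hA

omit [Pos I] [DecidableEq I] in
lemma NN.diag {A : Matrix I I ℤ} (hA : NN A) (h : trace A = 0) (i : I) : A i i = 0 :=
  (sum_eq_zero_iff_of_nonneg fun _ _ => hA _ _).1 h i (mem_univ i)

omit [DecidableEq K] in
/-- The cocycle vanishes on nonnegative matrices without short cycles. -/
theorem GG_pos (j : ℕ) {A : Matrix I K ℤ} {B : Matrix K I ℤ} (hA : NN A) (hB : NN B)
    (h1 : trace ((A * B) ^ (j + 1)) = 0) (h3 : trace ((A * B) ^ (3 * (j + 1))) = 0) :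
    GG j (red A) (red B) = 0 := by
  rw [GG, ← red_mul, ← red_pow, ← red_mul]
  have hC : NN (B * (A * B) ^ j) := hB.mul ((hA.mul hB).pow j)
  have e : A * (B * (A * B) ^ j) = (A * B) ^ (j + 1) := by rw [pow_succ', Matrix.mul_assoc]
  rw [mul_comm, pow_mul, pow_three'] at h3
  rw [← e] at h1 h3
  generalize B * (A * B) ^ j = C at hC h1 h3
  have hM := hA.mul hC
  refine Gam_zero_of _ _ (fun i k => ?_) fun x y => ?_
  · have h := (hA.le hC i k i).trans_eq (hM.diag h1 i)
    rcases mul_eq_zero.1 (le_antisymm h (mul_nonneg (hA _ _) (hC _ _))) with h | h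
    · left; simp [red, h]
    · right; simp [red, h]
  · have h : wt A C x y = 0 := by
      refine le_antisymm (le_trans ?_ (((hM.mul hM).le hM x.1 x.2.2 x.1).trans_eq
        (((hM.mul hM).mul hM).diag h3 _))) ?_
      · refine mul_le_mul (le_trans ?_ (hM.le hM _ x.2.1 _)) (hA.le hC _ _ _)
          (mul_nonneg (hA _ _) (hC _ _)) ((hM.mul hM) _ _)
        exact mul_le_mul (hA.le hC _ _ _) (hA.le hC _ _ _) (mul_nonneg (hA _ _) (hC _ _)) (hM _ _)
      · exact mul_nonneg (mul_nonneg (mul_nonneg (hA _ _) (hC _ _)) (mul_nonneg (hA _ _) (hC _ _)))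
          (mul_nonneg (hA _ _) (hC _ _))
    have h' := congrArg (Int.castRingHom Z9) h
    simp only [wt, map_mul, map_zero] at h'
    exact h'

end Pool.Agent.Lib.MP_71aad1_an
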